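import Pool.Agent.Work.MP_f7e2e5_gt.Supp

-- merged part: Pool.Agent.Work.MP_f7e2e5_gt.Pot1
section
open MeasureTheory Set Metric Filter Topology
open scoped RealInnerProductSpace Pointwise ContDiff NNReal

noncomputable section

namespace Pool.Agent.Work.MP_f7e2e5_gt

variable {n : ℕ} {p : ℝ}

theorem pot1_null {S : Set (Eu n)} {T : ℕ → Set (Eu n)} (hS : ∀ j, S ⊆ T j)
    (hT : Tendsto (fun j => volume (T j)) atTop (𝓝 0)) : volume S = 0 :=
  le_antisymm (ge_of_tendsto' hT fun j => measure_mono (hS j)) zero_le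

theorem pot1_intOn {W : Eu n → ℝ} (hm : AEMeasurable W volume) (h0 : ∀ z, 0 ≤ W z)
    (h1 : ∀ z, W z ≤ 1) (z : Eu n) (r : ℝ) : IntegrableOn W (ball z r) := by
  refine Measure.integrableOn_of_bounded (M := 1) measure_ball_lt_top.ne
    hm.aestronglyMeasurable (Eventually.of_forall fun x => ?_)
  rw [Real.norm_eq_abs, abs_of_nonneg (h0 x)]; exact h1 x

theorem pot1_avg_mono {f g : Eu n → ℝ} {s : Set (Eu n)} (hs : MeasurableSet s)
    (hf : IntegrableOn f s) (hg : IntegrableOn g s) (h : ∀ᵐ x, x ∈ s → f x ≤ g x) :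
    ⨍ x in s, f x ≤ ⨍ x in s, g x := by
  rw [setAverage_eq, setAverage_eq, smul_eq_mul, smul_eq_mul]
  exact mul_le_mul_of_nonneg_left (setIntegral_mono_on_ae hf hg hs h)
    (inv_nonneg.2 measureReal_nonneg)

theorem pot1_avg_const (z : Eu n) {r : ℝ} (hr : 0 < r) (c : ℝ) : ⨍ _ in ball z r, c = c :=
  setAverage_const (measure_ball_pos volume z hr).ne' measure_ball_lt_top.ne c

theorem pot1_avg_nonneg {W : Eu n → ℝ} (h0 : ∀ z, 0 ≤ W z) (s : Set (Eu n)) :
    0 ≤ ⨍ x in s, W x := by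
  rw [setAverage_eq, smul_eq_mul]
  exact mul_nonneg (inv_nonneg.2 measureReal_nonneg) (integral_nonneg fun x => h0 x)

theorem pot1_avg_le_one {W : Eu n → ℝ} (hm : AEMeasurable W volume) (h0 : ∀ z, 0 ≤ W z)
    (h1 : ∀ z, W z ≤ 1) (z : Eu n) {r : ℝ} (hr : 0 < r) : ⨍ x in ball z r, W x ≤ 1 := by
  have := pot1_avg_mono (f := W) (g := fun _ => (1 : ℝ)) measurableSet_ball
    (pot1_intOn hm h0 h1 z r) (integrableOn_const measure_ball_lt_top.ne)
    (Eventually.of_forall fun x _ => h1 x)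
  rwa [pot1_avg_const z hr] at this

theorem pot1_bdd {W : Eu n → ℝ} (hm : AEMeasurable W volume) (h0 : ∀ z, 0 ≤ W z)
    (h1 : ∀ z, W z ≤ 1) (z : Eu n) :
    IsBoundedUnder (· ≤ ·) (𝓝[>] (0 : ℝ)) (fun r : ℝ => ⨍ x in ball z r, W x) :=
  isBoundedUnder_of_eventually_le (a := 1)
    (eventually_nhdsWithin_of_forall fun _ hr => pot1_avg_le_one hm h0 h1 z hr)

theorem pot1_cobdd {W : Eu n → ℝ} (h0 : ∀ z, 0 ≤ W z) (z : Eu n) :
    IsCoboundedUnder (· ≤ ·) (𝓝[>] (0 : ℝ)) (fun r : ℝ => ⨍ x in ball z r, W x) :=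
  isCoboundedUnder_le_of_le _ (x := 0) fun _ => pot1_avg_nonneg h0 _

/-- Near minimisers are close in measure on balls. -/
theorem pot1_close (hp : 1 < p) {K : Set (Eu n)} (hK : IsBody K) (R : ℝ) {ε η : ℝ} (hε : 0 < ε)
    (hη : 0 < η) : ∃ δ : ℝ, 0 < δ ∧ ∀ u v : Eu n → ℝ, Adm K u → Adm K v →
      en p u univ ≤ cap p K + δ → en p v univ ≤ cap p K + δ →
      volume {x | x ∈ ball (0 : Eu n) R ∧ ε ≤ |v x - u x|} ≤ ENNReal.ofReal η := by
  obtain ⟨x0, hx0⟩ := hK.2.2
  obtain ⟨ρ, hρ, hball⟩ := Metric.mem_nhds_iff.1 (mem_interior_iff_mem_nhds.1 hx0)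
  have hp0 : 0 < p := by linarith
  set M : ℝ := |R| + ‖x0‖ + 1 with hM
  have hM0 : 0 < M := by positivity
  set lam : ℝ := min 1 (ρ / M) with hlam
  have hl0 : 0 < lam := lt_min one_pos (div_pos hρ hM0)
  have hl1 : lam ≤ 1 := min_le_left _ _
  have hlM : lam * M ≤ ρ := by
    have : lam ≤ ρ / M := min_le_right _ _
    rwa [le_div_iff₀ hM0] at this
  set c : ℝ := ((lam ^ n)⁻¹) ^ (1 / p) with hc
  have hc0 : 0 < c := Real.rpow_pos_of_pos (inv_pos.2 (pow_pos hl0 n)) _
  have hcp : c ^ p = (lam ^ n)⁻¹ := by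
    rw [hc, ← Real.rpow_mul (inv_pos.2 (pow_pos hl0 n)).le, one_div_mul_cancel hp0.ne',
      Real.rpow_one]
  have hA : 0 < (M * c) ^ p := Real.rpow_pos_of_pos (mul_pos hM0 hc0) _
  have hεp : 0 < ε ^ p := Real.rpow_pos_of_pos hε _
  obtain ⟨δ, hδ, hcl⟩ := grad_close (n := n) hp (ε := η * ε ^ p / (M * c) ^ p)
    (div_pos (mul_pos hη hεp) hA) (cap p K)
  refine ⟨δ, hδ, fun u v hu hv h1 h2 => ?_⟩
  have hE := hcl K u v hu hv le_rfl h1 h2
  have hf : Lip0 (fun x => v x - u x) := hv.lip0.sub hu.lip0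
  set Q : Set (Eu n) := {x | x ∈ ball (0 : Eu n) R ∧ ε ≤ |v x - u x|} with hQ
  have hQm : MeasurableSet Q :=
    measurableSet_ball.inter (measurableSet_le measurable_const
      (continuous_abs.comp hf.lip.continuous).measurable)
  have hQb : Bornology.IsBounded Q := isBounded_ball.subset fun x hx => hx.1
  have hdist : ∀ z ∈ Q, ‖z - x0‖ < M := fun z hz => by
    have h1 : ‖z‖ < R := by simpa using hz.1
    have := norm_sub_le z x0
    have := le_abs_self R
    linarith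
  have key := path_lower hp hf (lam • ContinuousLinearMap.id ℝ (Eu n))
    (ContinuousLinearMap.id ℝ (Eu n)) ((1 - lam) • x0) 0 hQm hQb MeasurableSet.univ
    (M := M) (κ := ε) hM0.le (wt := fun _ => c) (integrableOn_const (by simp))
    (fun _ _ => hc0) (fun s hs => by
      have e : (1 - s) • lam • ContinuousLinearMap.id ℝ (Eu n) +
          s • ContinuousLinearMap.id ℝ (Eu n) =
          ((1 - s) * lam + s) • ContinuousLinearMap.id ℝ (Eu n) := by
        ext1 x
        simp only [ContinuousLinearMap.add_apply, ContinuousLinearMap.smul_apply,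
          ContinuousLinearMap.id_apply]
        module
      have e2 : (((1 - s) * lam + s) • ContinuousLinearMap.id ℝ (Eu n)).det =
          ((1 - s) * lam + s) ^ n := by
        rw [ContinuousLinearMap.det, ContinuousLinearMap.toLinearMap_smul, LinearMap.det_smul]
        simp
      have hge : lam ≤ (1 - s) * lam + s := by linarith only [hl1, hs, hs.1, hs.2, mul_nonneg_of_nonpos_of_nonpos (Mathlib.Tactic.Linarith.sub_nonpos_of_le hl1) (le_of_lt (Mathlib.Tactic.Linarith.sub_neg_of_lt hs.left))]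
      rw [e, e2, hcp, abs_of_nonneg (pow_nonneg (hl0.le.trans hge) n), ← div_eq_inv_mul,
        le_div_iff₀ (pow_pos hl0 n), one_mul]
      exact pow_le_pow_left₀ hl0.le hge n)
    (fun z hz => by
      have e : (ContinuousLinearMap.id ℝ (Eu n)) z + 0 -
          ((lam • ContinuousLinearMap.id ℝ (Eu n)) z + (1 - lam) • x0) = (1 - lam) • (z - x0) := by
        simp only [ContinuousLinearMap.smul_apply, ContinuousLinearMap.id_apply]
        module
      rw [e, norm_smul, Real.norm_eq_abs, abs_of_nonneg (by linarith only [hl1])]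
      have := hdist z hz
      linarith only [this, hl0, norm_nonneg (z - x0), mul_nonneg_of_nonpos_of_nonpos (le_of_lt (Mathlib.Tactic.Linarith.sub_neg_of_lt hl0)) (Mathlib.Tactic.Linarith.sub_nonpos_of_le (norm_nonneg (z - x0)))])
    (fun _ _ _ _ => mem_univ _) hε.le
    (fun z hz => by
      have hin : (lam • ContinuousLinearMap.id ℝ (Eu n)) z + (1 - lam) • x0 ∈ K := by
        apply hball
        rw [mem_ball, dist_eq_norm]
        have e : (lam • ContinuousLinearMap.id ℝ (Eu n)) z + (1 - lam) • x0 - x0 =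
            lam • (z - x0) := by
          simp only [ContinuousLinearMap.smul_apply, ContinuousLinearMap.id_apply]
          module
        rw [e, norm_smul, Real.norm_eq_abs, abs_of_pos hl0]
        have := hdist z hz
        linarith only [hlM, hl0, this, mul_pos_of_neg_of_neg (Mathlib.Tactic.Linarith.sub_neg_of_lt hl0) (Mathlib.Tactic.Linarith.sub_neg_of_lt this)]
      simp only [hu.one _ hin, hv.one _ hin, sub_self, sub_zero, ContinuousLinearMap.id_apply,
        add_zero]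
      exact hz.2)
  have hint : ∫ _ in Ioo (0 : ℝ) 1, c = c := by simp
  rw [hint] at key
  have hle : volume.real Q ≤ η := by
    have h3 : (M * c) ^ p * en p (fun x => v x - u x) univ ≤ η * ε ^ p := by
      have := mul_le_mul_of_nonneg_left hE hA.le
      rwa [mul_div_cancel₀ _ hA.ne'] at this
    have : ε ^ p * volume.real Q ≤ ε ^ p * η := by linarith only [key, h3]
    exact le_of_mul_le_mul_left this hεp
  rw [← ofReal_measureReal (hQb.measure_lt_top.ne)]
  exact ENNReal.ofReal_le_ofReal hle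

theorem pot1_ev {K : Set (Eu n)} {u : ℕ → Eu n → ℝ} (hu : MinSeq p K u) {δ : ℝ} (hδ : 0 < δ) :
    ∀ᶠ j in atTop, en p (u j) univ ≤ cap p K + δ :=
  hu.2.eventually (ge_mem_nhds (by linarith))

/-- The a.e. limit. -/
theorem pot1_limit (hp : 1 < p) {K : Set (Eu n)} (hK : IsBody K) :
    ∃ w : Eu n → ℝ, Measurable w ∧ (∀ z, 0 ≤ w z) ∧ (∀ z, w z ≤ 1) ∧
      ∀ u, MinSeq p K u → ∀ R ε : ℝ, 0 < ε →
        Tendsto (fun j => volume {x | x ∈ ball (0 : Eu n) R ∧ ε ≤ |1 - u j x - w x|})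
          atTop (𝓝 0) := by
  have hh : ∀ j : ℕ, (0 : ℝ) < (1 / 2) ^ j := fun j => by positivity
  choose δ hδ hcl using fun j : ℕ => pot1_close hp hK (j : ℝ) (hh j) (hh j)
  have hδ' : ∀ j : ℕ, 0 < min (min (δ j) (δ (j - 1))) ((1 / 2 : ℝ) ^ j) := fun j =>
    lt_min (lt_min (hδ _) (hδ _)) (hh j)
  choose U hU hUe using fun j : ℕ => exists_adm_lt (p := p) hK.1.isBounded (hδ' j)
  have hUj : ∀ j, en p (U j) univ ≤ cap p K + δ j := fun j =>
    (hUe j).le.trans (by gcongr; exact (min_le_left _ _).trans (min_le_left _ _))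
  have hUj' : ∀ j, en p (U (j + 1)) univ ≤ cap p K + δ j := fun j =>
    (hUe (j + 1)).le.trans (by gcongr; exact (min_le_left _ _).trans (min_le_right _ _))
  have hUmin : MinSeq p K U := by
    refine ⟨hU, ?_⟩
    have h0 : Tendsto (fun j : ℕ => cap p K + (1 / 2 : ℝ) ^ j) atTop (𝓝 (cap p K + 0)) :=
      tendsto_const_nhds.add (tendsto_pow_atTop_nhds_zero_of_lt_one (by norm_num) (by norm_num))
    rw [add_zero] at h0
    refine tendsto_of_tendsto_of_tendsto_of_le_of_le tendsto_const_nhds h0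
      (fun j => cap_le_en (hU j)) (fun j => (hUe j).le.trans ?_)
    gcongr; exact min_le_right _ _
  have hUc : ∀ j, Continuous (U j) := fun j => (hU j).lip0.lip.continuous
  have hsum : (∑' j : ℕ, volume {x | x ∈ ball (0 : Eu n) (j : ℝ) ∧
      (1 / 2 : ℝ) ^ j ≤ |U (j + 1) x - U j x|}) ≠ ⊤ := by
    refine ne_top_of_le_ne_top ?_ (ENNReal.tsum_le_tsum fun j =>
      hcl j (U j) (U (j + 1)) (hU _) (hU _) (hUj j) (hUj' j))
    rw [← ENNReal.ofReal_tsum_of_nonneg (fun j => (hh j).le) summable_geometric_two]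
    exact ENNReal.ofReal_ne_top
  have hae := ae_eventually_notMem hsum
  set w : Eu n → ℝ := fun x => limsup (fun j => 1 - U j x) atTop with hw
  have hb1 : ∀ x, IsBoundedUnder (· ≤ ·) atTop (fun j => 1 - U j x) := fun x =>
    isBoundedUnder_of_eventually_le (a := 1)
      (Eventually.of_forall fun j => by linarith [(hU j).nonneg x])
  have hb0 : ∀ x, IsCoboundedUnder (· ≤ ·) atTop (fun j => 1 - U j x) := fun x =>
    isCoboundedUnder_le_of_le _ (x := 0) fun j => by linarith [(hU j).le_one x]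
  have hlim : ∀ᵐ x, Tendsto (fun j => 1 - U j x) atTop (𝓝 (w x)) := by
    filter_upwards [hae] with x hx
    have hx' : ∀ᶠ j : ℕ in atTop, |U (j + 1) x - U j x| ≤ (1 / 2 : ℝ) ^ j := by
      filter_upwards [hx, tendsto_natCast_atTop_atTop.eventually_gt_atTop ‖x‖] with j h1 h2
      by_contra hcon
      exact h1 ⟨by simpa using h2, (not_le.1 hcon).le⟩
    obtain ⟨N, hN⟩ := eventually_atTop.1 hx'
    have hcau : CauchySeq (fun j => U (j + N) x) := by
      refine cauchySeq_of_le_geometric (1 / 2) 1 (by norm_num) fun j => ?_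
      rw [dist_comm, Real.dist_eq, one_mul, show j + 1 + N = j + N + 1 by ring]
      refine (hN (j + N) (by omega)).trans ?_
      exact pow_le_pow_of_le_one (by norm_num) (by norm_num) (by omega)
    obtain ⟨L, hL⟩ := cauchySeq_tendsto_of_complete hcau
    have hL' : Tendsto (fun j => 1 - U j x) atTop (𝓝 (1 - L)) :=
      tendsto_const_nhds.sub ((tendsto_add_atTop_iff_nat N).1 hL)
    have : w x = 1 - L := hL'.limsup_eq
    rwa [this]
  refine ⟨w, Measurable.limsup fun j => (continuous_const.sub (hUc j)).measurable,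
    fun z => le_limsup_of_frequently_le (Frequently.of_forall fun j => by
      linarith [(hU j).le_one z]) (hb1 z),
    fun z => limsup_le_of_le (hb0 z) (Eventually.of_forall fun j => by
      linarith [(hU j).nonneg z]), fun u hu R ε hε => ?_⟩
  have hwm : Measurable w :=
    Measurable.limsup fun j => (continuous_const.sub (hUc j)).measurable
  have : IsFiniteMeasure (volume.restrict (ball (0 : Eu n) R)) :=
    isFiniteMeasure_restrict.2 measure_ball_lt_top.ne
  have him := tendstoInMeasure_iff_dist.1 (tendstoInMeasure_of_tendsto_ae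
    (μ := volume.restrict (ball (0 : Eu n) R)) (f := fun j x => 1 - U j x) (g := w)
    (fun j => (continuous_const.sub (hUc j)).aestronglyMeasurable)
    (ae_restrict_of_ae hlim)) (ε / 2) (half_pos hε)
  have him' : Tendsto (fun k => volume {x | x ∈ ball (0 : Eu n) R ∧
      ε / 2 ≤ |1 - U k x - w x|}) atTop (𝓝 0) := by
    refine him.congr fun k => ?_
    rw [Measure.restrict_apply' measurableSet_ball]
    congr 1
    ext x
    simp only [Real.dist_eq, mem_inter_iff, mem_ofPred_eq]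
    tauto
  rw [ENNReal.tendsto_nhds_zero]
  intro η hη
  obtain ⟨η', hη'0, hη'⟩ : ∃ η' : ℝ, 0 < η' ∧ ENNReal.ofReal η' ≤ η := by
    rcases eq_or_ne η ⊤ with rfl | hne
    · exact ⟨1, one_pos, le_top⟩
    · exact ⟨η.toReal, ENNReal.toReal_pos hη.ne' hne, (ENNReal.ofReal_toReal hne).le⟩
  obtain ⟨d, hd, hcd⟩ := pot1_close hp hK R (half_pos hε) hη'0
  filter_upwards [pot1_ev hu hd] with j hj
  have hT : Tendsto (fun k => ENNReal.ofReal η' + volume {x | x ∈ ball (0 : Eu n) R ∧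
      ε / 2 ≤ |1 - U k x - w x|}) atTop (𝓝 (ENNReal.ofReal η' + 0)) :=
    tendsto_const_nhds.add him'
  rw [add_zero] at hT
  refine le_trans (ge_of_tendsto hT ?_) hη'
  filter_upwards [pot1_ev hUmin hd] with k hk
  refine le_trans (measure_mono (t := {x | x ∈ ball (0 : Eu n) R ∧ ε / 2 ≤ |U k x - u j x|} ∪
    {x | x ∈ ball (0 : Eu n) R ∧ ε / 2 ≤ |1 - U k x - w x|}) fun x hx => ?_)
    ((measure_union_le _ _).trans (add_le_add_left (hcd _ _ (hu.1 j) (hU k) hj hk) _))
  by_contra hcon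
  simp only [mem_union, mem_ofPred_eq, not_or, not_and, not_le] at hcon
  have h1 := abs_lt.1 (hcon.1 hx.1)
  have h2 := abs_lt.1 (hcon.2 hx.1)
  have h3 := hx.2
  rw [le_abs] at h3
  rcases h3 with h3 | h3 <;> linarith only [h1, h2, h3, h1.1, h1.2, h2.1, h2.2]

/-- Similarities as homeomorphisms. -/
def pot1_homeo (b : Eu n) {l : ℝ} (hl : 0 < l) (O : Eu n ≃ₗᵢ[ℝ] Eu n) : Eu n ≃ₜ Eu n :=
  (O.toHomeomorph.trans (Homeomorph.smulOfNeZero l hl.ne')).trans (Homeomorph.addLeft b)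

theorem pot1_emb (b : Eu n) {l : ℝ} (hl : 0 < l) (O : Eu n ≃ₗᵢ[ℝ] Eu n) :
    MeasurableEmbedding (sim b l O) :=
  (pot1_homeo b hl O).measurableEmbedding

theorem pot1_map (b : Eu n) {l : ℝ} (hl : 0 < l) (O : Eu n ≃ₗᵢ[ℝ] Eu n) :
    (volume : Measure (Eu n)).map (sim b l O) = ENNReal.ofReal ((l ^ n)⁻¹) • volume := by
  ext s hs
  rw [Measure.map_apply (pot1_emb b hl O).measurable hs, volume_preimage_sim b hl O,
    Measure.smul_apply, smul_eq_mul]

theorem pot1_dist (b : Eu n) {l : ℝ} (hl : 0 < l) (O : Eu n ≃ₗᵢ[ℝ] Eu n) (x z : Eu n) :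
    dist (sim b l O x) (sim b l O z) = l * dist x z := by
  simp only [sim, dist_add_left, dist_smul₀, Real.norm_eq_abs, abs_of_pos hl, O.dist_map]

theorem pot1_pre (b : Eu n) {l : ℝ} (hl : 0 < l) (O : Eu n ≃ₗᵢ[ℝ] Eu n) (z : Eu n) (r : ℝ) :
    sim b l O ⁻¹' ball (sim b l O z) (l * r) = ball z r := by
  ext x
  simp only [mem_preimage, mem_ball, pot1_dist b hl O, mul_lt_mul_iff_right₀ hl]

theorem pot1_avg_sim (W : Eu n → ℝ) (b : Eu n) {l : ℝ} (hl : 0 < l) (O : Eu n ≃ₗᵢ[ℝ] Eu n)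
    (z : Eu n) (r : ℝ) :
    ⨍ x in ball z r, W (sim b l O x) = ⨍ y in ball (sim b l O z) (l * r), W y := by
  have hc : 0 < (l ^ n)⁻¹ := inv_pos.2 (pow_pos hl n)
  have h1 := (pot1_emb b hl O).setIntegral_map (μ := volume) W (ball (sim b l O z) (l * r))
  rw [pot1_pre b hl O, pot1_map b hl O, Measure.restrict_smul, integral_smul_measure,
    ENNReal.toReal_ofReal hc.le] at h1
  have h2 : volume.real (ball z r) = (l ^ n)⁻¹ * volume.real (ball (sim b l O z) (l * r)) := by
    rw [← pot1_pre b hl O z r, measureReal_def, volume_preimage_sim b hl O, ENNReal.toReal_mul,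
      ENNReal.toReal_ofReal hc.le, measureReal_def]
  rw [setAverage_eq, setAverage_eq, ← h1, h2, smul_eq_mul, smul_eq_mul, smul_eq_mul, mul_inv,
    mul_comm ((l ^ n)⁻¹⁻¹), mul_assoc, ← mul_assoc ((l ^ n)⁻¹⁻¹), inv_mul_cancel₀ hc.ne', one_mul]

theorem pot1_qmp (b : Eu n) {l : ℝ} (hl : 0 < l) (O : Eu n ≃ₗᵢ[ℝ] Eu n) :
    Measure.QuasiMeasurePreserving (sim b l O) volume volume :=
  ⟨(pot1_emb b hl O).measurable, by
    rw [pot1_map b hl O]; exact Measure.smul_absolutelyContinuous⟩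

theorem pot1_real {T : ℕ → Set (Eu n)} {S : ℕ → Set (Eu n)} (h : ∀ j, S j ⊆ T j)
    (hT : Tendsto (fun j => volume (T j)) atTop (𝓝 0)) :
    Tendsto (fun j => volume.real (S j)) atTop (𝓝 0) := by
  have h1 : Tendsto (fun j => volume (S j)) atTop (𝓝 0) :=
    tendsto_of_tendsto_of_tendsto_of_le_of_le tendsto_const_nhds hT (fun _ => zero_le)
      fun j => measure_mono (h j)
  exact (ENNReal.tendsto_toReal ENNReal.zero_ne_top).comp h1

theorem pot1_ae_of {P : Eu n → Prop} {f g : Eu n → ℝ}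
    (h : ∀ R ε : ℝ, 0 < ε → volume {x | x ∈ ball (0 : Eu n) R ∧ P x ∧ g x + ε ≤ f x} = 0) :
    ∀ᵐ x, P x → f x ≤ g x := by
  have h1 : ∀ m : ℕ, ∀ᵐ x, ¬ (x ∈ ball (0 : Eu n) (m : ℝ) ∧ P x ∧ g x + 1 / ((m : ℝ) + 1) ≤ f x) :=
    fun m => by
      rw [ae_iff]
      simpa only [not_not] using h m _ (by positivity)
  filter_upwards [ae_all_iff.2 h1] with x hx hP
  by_contra hcon
  have hpos : 0 < f x - g x := by linarith [not_le.1 hcon]
  obtain ⟨m, hm1, hm2⟩ := ((tendsto_natCast_atTop_atTop.eventually_gt_atTop ‖x‖).and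
    (tendsto_one_div_add_atTop_nhds_zero_nat.eventually (ge_mem_nhds hpos))).exists
  exact hx m ⟨by simpa using hm1, hP, by linarith only [hm2]⟩

theorem exists_isPot (hp : 1 < p) {K : Set (Eu n)} (hK : IsBody K) : ∃ W, IsPot p K W := by
  obtain ⟨w, hwm, hw0, hw1, hw⟩ := pot1_limit hp hK
  set W : Eu n → ℝ := fun z => limsup (fun r : ℝ => ⨍ x in ball z r, w x) (𝓝[>] 0) with hWd
  have hloc : LocallyIntegrable w volume := fun x =>
    ⟨ball x 1, ball_mem_nhds x one_pos, pot1_intOn hwm.aemeasurable hw0 hw1 x 1⟩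
  have hae : W =ᵐ[volume] w := by
    filter_upwards [IsUnifLocDoublingMeasure.ae_tendsto_average volume hloc 1] with x hx
    have h1 := hx (l := 𝓝[>] (0 : ℝ)) (fun _ => x) (fun r => r) tendsto_id
      (eventually_nhdsWithin_of_forall fun r (hr : 0 < r) => mem_closedBall_self (by linarith))
    have h2 : Tendsto (fun r : ℝ => ⨍ y in ball x r, w y) (𝓝[>] 0) (𝓝 (w x)) := by
      refine h1.congr' (eventually_nhdsWithin_of_forall fun r (hr : 0 < r) => ?_)
      refine setAverage_congr ?_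
      refine (ae_eq_of_subset_of_measure_ge ball_subset_closedBall ?_
        measurableSet_ball.nullMeasurableSet measure_closedBall_lt_top.ne).symm
      rw [← ball_union_sphere]
      refine (measure_union_le _ _).trans ?_
      rw [Measure.addHaar_sphere_of_ne_zero volume x hr.ne', add_zero]
    exact h2.limsup_eq
  refine ⟨W, fun z => ?_, fun z => ?_, hwm.aemeasurable.congr hae.symm, fun u hu R ε hε => ?_,
    fun z => ?_⟩
  · exact le_limsup_of_frequently_le (Frequently.of_forall fun r => pot1_avg_nonneg hw0 _)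
      (pot1_bdd hwm.aemeasurable hw0 hw1 z)
  · exact limsup_le_of_le (pot1_cobdd hw0 z) (eventually_nhdsWithin_of_forall fun r hr =>
      pot1_avg_le_one hwm.aemeasurable hw0 hw1 z hr)
  · refine (hw u hu R ε hε).congr fun j => measure_congr ?_
    filter_upwards [hae] with x hx
    change (x ∈ ball (0 : Eu n) R ∧ ε ≤ |1 - u j x - w x|) =
      (x ∈ ball (0 : Eu n) R ∧ ε ≤ |1 - u j x - W x|)
    rw [hx]
  · have : (fun r : ℝ => ⨍ x in ball z r, W x) = fun r : ℝ => ⨍ x in ball z r, w x :=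
      funext fun r => average_congr (ae_restrict_of_ae hae)
    rw [this]

theorem isPot_pot (hp : 1 < p) {K : Set (Eu n)} (hK : IsBody K) : IsPot p K (pot p K) := by
  have h := exists_isPot hp hK
  rw [pot, dif_pos h]
  exact h.choose_spec

/-- A function continuous at `z` that is a.e. below `W` near `z` is below `W` at `z`. -/
theorem IsPot.ge_of_ae {K : Set (Eu n)} {W : Eu n → ℝ} (hW : IsPot p K W) {b : Eu n → ℝ}
    {z : Eu n} (hb : ContinuousAt b z) {r : ℝ} (hr : 0 < r)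
    (h : ∀ᵐ x, x ∈ ball z r → b x ≤ W x) : b z ≤ W z := by
  refine le_of_forall_pos_le_add fun ε hε => ?_
  obtain ⟨d, hd, hbd⟩ := Metric.continuousAt_iff.1 hb ε hε
  rw [← sub_le_iff_le_add, hW.rep z]
  refine le_limsup_of_frequently_le (Eventually.frequently ?_)
    (pot1_bdd hW.aemeas hW.nonneg hW.le_one z)
  filter_upwards [Ioo_mem_nhdsGT (lt_min hd hr)] with s hs
  rw [← pot1_avg_const z hs.1 (b z - ε)]
  refine pot1_avg_mono measurableSet_ball (integrableOn_const measure_ball_lt_top.ne)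
    (pot1_intOn hW.aemeas hW.nonneg hW.le_one z s) ?_
  filter_upwards [h] with x hx hxs
  have h1 := hx (ball_subset_ball (hs.2.le.trans (min_le_right _ _)) hxs)
  have h2 := hbd (lt_of_lt_of_le hxs (hs.2.le.trans (min_le_left _ _)))
  rw [Real.dist_eq, abs_lt] at h2
  linarith [h2.1]

/-- An a.e. inequality along a similarity holds at every point. -/
theorem IsPot.le_of_ae {K K' : Set (Eu n)} {W W' : Eu n → ℝ} (hW : IsPot p K W)
    (hW' : IsPot p K' W') (b : Eu n) {l : ℝ} (hl : 0 < l) (O : Eu n ≃ₗᵢ[ℝ] Eu n) {z : Eu n} {r : ℝ}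
    (hr : 0 < r) (h : ∀ᵐ x, x ∈ ball z r → W (sim b l O x) ≤ W' x) : W (sim b l O z) ≤ W' z := by
  have hmap : map (fun s : ℝ => l * s) (𝓝[>] 0) = 𝓝[>] 0 := by
    have t : ∀ c : ℝ, 0 < c → Tendsto (fun s : ℝ => c * s) (𝓝[>] 0) (𝓝[>] 0) := fun c hc =>
      tendsto_nhdsWithin_iff.2 ⟨by
        simpa using ((continuous_const_mul c).tendsto 0).mono_left nhdsWithin_le_nhds,
        eventually_nhdsWithin_of_forall fun s (hs : 0 < s) => mul_pos hc hs⟩
    refine le_antisymm (t l hl) ?_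
    have h2 : map (fun s : ℝ => l * s) (map (fun s : ℝ => l⁻¹ * s) (𝓝[>] 0)) = 𝓝[>] 0 := by
      rw [map_map]
      have : ((fun s : ℝ => l * s) ∘ fun s : ℝ => l⁻¹ * s) = id := by
        funext s; simp [mul_inv_cancel_left₀ hl.ne']
      rw [this, map_id]
    conv_lhs => rw [← h2]
    exact map_mono (t l⁻¹ (inv_pos.2 hl))
  have hm : AEMeasurable (fun x => W (sim b l O x)) volume :=
    hW.aemeas.comp_quasiMeasurePreserving (pot1_qmp b hl O)
  have h1 : W (sim b l O z) =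
      limsup (fun s : ℝ => ⨍ x in ball z s, W (sim b l O x)) (𝓝[>] 0) := by
    have e : (fun s : ℝ => ⨍ x in ball z s, W (sim b l O x)) =
        (fun s : ℝ => ⨍ y in ball (sim b l O z) s, W y) ∘ fun s : ℝ => l * s :=
      funext fun s => pot1_avg_sim W b hl O z s
    rw [hW.rep (sim b l O z), e, limsup_comp, hmap]
  rw [h1, hW'.rep z]
  refine limsup_le_limsup ?_ (pot1_cobdd (fun x => hW.nonneg _) z)
    (pot1_bdd hW'.aemeas hW'.nonneg hW'.le_one z)
  filter_upwards [Ioo_mem_nhdsGT hr] with s hs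
  refine pot1_avg_mono measurableSet_ball
    (pot1_intOn hm (fun x => hW.nonneg _) (fun x => hW.le_one _) z s)
    (pot1_intOn hW'.aemeas hW'.nonneg hW'.le_one z s) ?_
  filter_upwards [h] with x hx hxs
  exact hx (ball_subset_ball hs.2.le hxs)

/-- Lower level sets. -/
theorem IsPot.tendsto_lt {K : Set (Eu n)} {W : Eu n → ℝ} (hW : IsPot p K W)
    {u : ℕ → Eu n → ℝ} (hu : MinSeq p K u) {D : Set (Eu n)} (hD : Bornology.IsBounded D)
    {κ κ' : ℝ} (hκ : κ' < κ) (h : ∀ z ∈ D, κ ≤ W z) :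
    Tendsto (fun j => volume.real {z | z ∈ D ∧ 1 - u j z ≤ κ'}) atTop (𝓝 0) := by
  obtain ⟨R, hR⟩ := hD.subset_ball 0
  refine pot1_real (fun j z hz => ?_) (hW.conv u hu R (κ - κ') (by linarith))
  refine ⟨hR hz.1, le_abs.2 (Or.inr ?_)⟩
  linarith [h z hz.1, hz.2]

/-- Upper level sets. -/
theorem IsPot.tendsto_gt {K : Set (Eu n)} {W : Eu n → ℝ} (hW : IsPot p K W)
    {u : ℕ → Eu n → ℝ} (hu : MinSeq p K u) {D : Set (Eu n)} (hD : Bornology.IsBounded D)
    {m m' : ℝ} (hm : m < m') (h : ∀ z ∈ D, W z ≤ m) :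
    Tendsto (fun j => volume.real {z | z ∈ D ∧ m' ≤ 1 - u j z}) atTop (𝓝 0) := by
  obtain ⟨R, hR⟩ := hD.subset_ball 0
  refine pot1_real (fun j z hz => ?_) (hW.conv u hu R (m' - m) (by linarith))
  refine ⟨hR hz.1, le_abs.2 (Or.inl ?_)⟩
  linarith [h z hz.1, hz.2]

/-- Inequalities between minimising sequences pass to the limit a.e. -/
theorem IsPot.ae_le {K K' : Set (Eu n)} {W W' : Eu n → ℝ} (hW : IsPot p K W) (hW' : IsPot p K' W')
    {u u' : ℕ → Eu n → ℝ} (hu : MinSeq p K u) (hu' : MinSeq p K' u') (b : Eu n) {l : ℝ}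
    (hl : 0 < l) (O : Eu n ≃ₗᵢ[ℝ] Eu n) {D : Set (Eu n)}
    (h : ∀ j, ∀ x ∈ D, u' j x ≤ u j (sim b l O x)) :
    ∀ᵐ x, x ∈ D → W (sim b l O x) ≤ W' x := by
  refine pot1_ae_of fun R ε hε => ?_
  have h1 := hW'.conv u' hu' R (ε / 2) (half_pos hε)
  have h2 := ENNReal.Tendsto.const_mul (a := ENNReal.ofReal ((l ^ n)⁻¹))
    (hW.conv u hu (‖b‖ + l * R) (ε / 2) (half_pos hε)) (Or.inr ENNReal.ofReal_ne_top)
  have h3 := h1.add h2
  rw [mul_zero, add_zero] at h3
  refine pot1_null (T := fun j => {x | x ∈ ball (0 : Eu n) R ∧ ε / 2 ≤ |1 - u' j x - W' x|} ∪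
    sim b l O ⁻¹' {y | y ∈ ball (0 : Eu n) (‖b‖ + l * R) ∧ ε / 2 ≤ |1 - u j y - W y|})
    (fun j x hx => ?_) (tendsto_of_tendsto_of_tendsto_of_le_of_le tendsto_const_nhds h3
      (fun _ => zero_le) fun j => (measure_union_le _ _).trans ?_)
  · by_contra hcon
    simp only [mem_union, mem_ofPred_eq, mem_preimage, not_or, not_and, not_le] at hcon
    have hx1 : ‖x‖ < R := by simpa using hx.1
    have hin : sim b l O x ∈ ball (0 : Eu n) (‖b‖ + l * R) := by
      rw [mem_ball_zero_iff, sim]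
      refine (norm_add_le _ _).trans_lt ?_
      rw [norm_smul, Real.norm_eq_abs, abs_of_pos hl, O.norm_map]
      linarith only [hl, hx1, mul_pos_of_neg_of_neg (Mathlib.Tactic.Linarith.sub_neg_of_lt hl) (Mathlib.Tactic.Linarith.sub_neg_of_lt hx1)]
    have a1 := abs_lt.1 (hcon.1 hx.1)
    have a2 := abs_lt.1 (hcon.2 hin)
    linarith only [a1, a2, h, hx, a1.1, a1.2, a2.1, a2.2, h j x hx.2.1, hx.2.2]
  · rw [volume_preimage_sim b hl O]

/-- Replacement principle. -/
theorem IsPot.ge_of_minSeq {K : Set (Eu n)} {W : Eu n → ℝ} (hW : IsPot p K W)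
    {u : ℕ → Eu n → ℝ} (hu : MinSeq p K u) {b : Eu n → ℝ} (hb : Continuous b)
    (h : ∀ j x, u j x ≤ 1 - b x) (z : Eu n) : b z ≤ W z := by
  refine hW.ge_of_ae hb.continuousAt one_pos (pot1_ae_of fun R ε hε => ?_)
  refine pot1_null (fun j x hx => ?_) (hW.conv u hu R ε hε)
  refine ⟨hx.1, le_abs.2 (Or.inl ?_)⟩
  linarith [h j x, hx.2.2]

end Pool.Agent.Work.MP_f7e2e5_gt
end
end

-- merged part: Pool.Agent.Work.MP_f7e2e5_gt.PotM
section
open MeasureTheory Set Metric Filter Topology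
open scoped RealInnerProductSpace Pointwise ContDiff NNReal

noncomputable section

namespace Pool.Agent.Work.MP_f7e2e5_gt

variable {n : ℕ} {p : ℝ}

theorem PotM_sim_id (x : Eu n) : sim 0 1 (LinearIsometryEquiv.refl ℝ _) x = x := by
  simp [sim]

theorem IsBody.image_sim {K : Set (Eu n)} (hK : IsBody K) (b : Eu n) {l : ℝ} (hl : 0 < l)
    (O : Eu n ≃ₗᵢ[ℝ] Eu n) : IsBody (sim b l O '' K) := by
  obtain ⟨h1, h2, x, hx⟩ := hK
  let e : Eu n ≃ₜ Eu n :=
    O.toHomeomorph.trans ((Homeomorph.smulOfNeZero l hl.ne').trans (Homeomorph.addLeft b))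
  have he : sim b l O = e := rfl
  refine ⟨h1.image (he ▸ e.continuous), ?_, sim b l O x, ?_⟩
  · rintro _ ⟨y, hy, rfl⟩ _ ⟨z, hz, rfl⟩ a c ha hc hac
    refine ⟨a • y + c • z, h2 hy hz ha hc hac, ?_⟩
    simp only [sim, map_add, map_smul]
    obtain rfl : c = 1 - a := by linarith only [hac]
    module
  · rw [he, ← e.image_interior]
    exact ⟨x, hx, rfl⟩

theorem pot_anti (hp : 1 < p) {K K' : Set (Eu n)} (hK : IsBody K) (hK' : IsBody K') (h : K ⊆ K')
    (z : Eu n) : pot p K' z ≤ pot p K z := by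
  have hp0 : 0 < p := one_pos.trans hp
  obtain ⟨u, hu⟩ := exists_minSeq (p := p) hK.1.isBounded
  obtain ⟨v, hv⟩ := exists_minSeq (p := p) hK'.1.isBounded
  have a1 : ∀ j, Adm K fun x => min (u j x) (v j x) := fun j =>
    ⟨(hu.1 j).lip0.min_of_nonneg (hv.1 j).lip0.lip (hu.1 j).nonneg (hv.1 j).nonneg,
      fun x => le_min ((hu.1 j).nonneg x) ((hv.1 j).nonneg x),
      fun x => (min_le_left _ _).trans ((hu.1 j).le_one x),
      fun x hx => by rw [(hu.1 j).one x hx, (hv.1 j).one x (h hx), min_self]⟩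
  have a2 : ∀ j, Adm K' fun x => max (u j x) (v j x) := fun j =>
    ⟨(hu.1 j).lip0.max (hv.1 j).lip0, fun x => ((hu.1 j).nonneg x).trans (le_max_left _ _),
      fun x => max_le ((hu.1 j).le_one x) ((hv.1 j).le_one x),
      fun x hx => by rw [(hv.1 j).one x hx, max_eq_right ((hu.1 j).le_one x)]⟩
  have hm : MinSeq p K fun j x => min (u j x) (v j x) := by
    refine hu.of_le a1 (e := fun j => en p (v j) univ - cap p K') ?_ fun j => ?_
    · simpa using hv.2.sub_const (cap p K')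
    · have k1 := en_min_add_max hp0 (hu.1 j).lip0 (hv.1 j).lip0
      have k2 := cap_le_en (p := p) (a2 j)
      linarith
  have k := (isPot_pot hp hK').ae_le (isPot_pot hp hK) hv hm 0 one_pos
    (LinearIsometryEquiv.refl ℝ _) (D := univ) fun j x _ => by
      rw [PotM_sim_id]
      exact min_le_right _ _
  have := (isPot_pot hp hK').le_of_ae (isPot_pot hp hK) 0 one_pos (LinearIsometryEquiv.refl ℝ _)
    (z := z) one_pos (k.mono fun x hx _ => hx trivial)
  rwa [PotM_sim_id] at this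

theorem PotM_sim_le (hp : 1 < p) {K : Set (Eu n)} (hK : IsBody K) (b : Eu n) {l : ℝ} (hl : 0 < l)
    (O : Eu n ≃ₗᵢ[ℝ] Eu n) (z : Eu n) : pot p (sim b l O '' K) (sim b l O z) ≤ pot p K z := by
  have hK' := hK.image_sim b hl O
  obtain ⟨u, hu⟩ := exists_minSeq (p := p) hK'.1.isBounded
  have k := (isPot_pot hp hK').ae_le (isPot_pot hp hK) hu
    (MinSeq.comp_sim (one_pos.trans hp) b hl O hu) b hl O (D := univ) fun _ _ _ => le_rfl
  exact (isPot_pot hp hK').le_of_ae (isPot_pot hp hK) b hl O one_pos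
    (k.mono fun x hx _ => hx trivial)

theorem pot_sim (hp : 1 < p) {K : Set (Eu n)} (hK : IsBody K) (b : Eu n) {l : ℝ} (hl : 0 < l)
    (O : Eu n ≃ₗᵢ[ℝ] Eu n) (z : Eu n) : pot p (sim b l O '' K) (sim b l O z) = pot p K z := by
  refine le_antisymm (PotM_sim_le hp hK b hl O z) ?_
  have e : ∀ x, sim (-(l⁻¹ • O.symm b)) l⁻¹ O.symm (sim b l O x) = x := fun x => by
    simp only [sim, map_add, map_smul, LinearIsometryEquiv.symm_apply_apply, smul_add,
      inv_smul_smul₀ hl.ne', neg_add_cancel_left]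
  have := PotM_sim_le hp (hK.image_sim b hl O) (-(l⁻¹ • O.symm b)) (inv_pos.2 hl) O.symm
    (sim b l O z)
  rwa [e, image_image, image_congr fun x _ => e x, image_id'] at this

/-- Monotonicity along rays from points of `K`. -/
theorem pot_ray (hp : 1 < p) {K : Set (Eu n)} (hK : IsBody K) {x0 : Eu n} (hx : x0 ∈ K) {l : ℝ}
    (hl : 1 ≤ l) (z : Eu n) : pot p K z ≤ pot p K (x0 + l • (z - x0)) := by
  have hl0 : 0 < l := one_pos.trans_le hl
  have e : ∀ y, sim ((1 - l) • x0) l (LinearIsometryEquiv.refl ℝ _) y = x0 + l • (y - x0) :=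
    fun y => by
      simp only [sim, LinearIsometryEquiv.coe_refl, id]
      module
  have hs : K ⊆ sim ((1 - l) • x0) l (LinearIsometryEquiv.refl ℝ _) '' K := fun y hy =>
    ⟨x0 + l⁻¹ • (y - x0),
      hK.2.1.add_smul_sub_mem hx hy ⟨(inv_pos.2 hl0).le, inv_le_one_of_one_le₀ hl⟩, by
        rw [e, add_sub_cancel_left, smul_inv_smul₀ hl0.ne', add_sub_cancel]⟩
  rw [← pot_sim hp hK ((1 - l) • x0) hl0 (LinearIsometryEquiv.refl ℝ _) z, ← e]
  exact pot_anti hp hK (hK.image_sim _ hl0 _) hs _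

/-- The polarisation of an admissible function. -/
theorem PotM_pol (hp : 0 < p) {K : Set (Eu n)} {v : Eu n} (hv : ‖v‖ = 1) (s0 : ℝ)
    (h : ∀ z ∈ K, s0 < ⟪z, v⟫ → z - (2 * (⟪z, v⟫ - s0)) • v ∈ K) (b : Eu n)
    (O : Eu n ≃ₗᵢ[ℝ] Eu n) (e : ∀ y, sim b 1 O y = y - (2 * (⟪y, v⟫ - s0)) • v)
    {u : Eu n → ℝ} (hu : Adm K u) : ∃ w, Adm K w ∧ en p w univ = en p u univ ∧
      ∀ x, s0 < ⟪x, v⟫ → w x ≤ u (sim b 1 O x) := by
  obtain ⟨R, hR⟩ : ∃ R : Eu n → Eu n, R = sim b 1 O := ⟨_, rfl⟩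
  have hu' : Lip0 fun x => u (R x) := hR ▸ hu.lip0.comp_sim b one_pos O
  have hen : ∀ A, en p (fun x => u (R x)) (R ⁻¹' A) = en p u A := fun A => by
    rw [hR, en_comp_sim hp hu.lip0 b one_pos O, Real.one_rpow, one_mul]
  rw [← hR] at e ⊢
  have hvv : ⟪v, v⟫ = (1 : ℝ) := by rw [real_inner_self_eq_norm_sq, hv, one_pow]
  have ht : ∀ y, ⟪R y, v⟫ - s0 = -(⟪y, v⟫ - s0) := fun y => by
    rw [e, inner_sub_left, real_inner_smul_left, hvv]
    ring
  have hRR : ∀ y, R (R y) = y := fun y => by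
    rw [e (R y), ht, e]
    module
  obtain ⟨C, hC⟩ := hu.lip0.lip
  have hd : ∀ y, |u y - u (R y)| ≤ 2 * C * |⟪y, v⟫ - s0| := fun y => by
    have := hC.dist_le_mul y (R y)
    rw [Real.dist_eq, dist_eq_norm, e, sub_sub_cancel, norm_smul, hv, Real.norm_eq_abs, abs_mul,
      abs_two, ← e] at this
    linarith
  have hi : LipF fun y : Eu n => ⟪y, v⟫ := by
    refine ⟨1, LipschitzWith.of_dist_le_mul fun x y => ?_⟩
    rw [Real.dist_eq, ← inner_sub_left, dist_eq_norm]
    simpa [hv] using abs_real_inner_le_norm (x - y) v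
  obtain ⟨w, hw⟩ : ∃ w : Eu n → ℝ, w = fun y => max (min (u y) (u (R y)))
    (min (max (u y) (u (R y))) (u y - 2 * C * (⟪y, v⟫ - s0))) := ⟨_, rfl⟩
  have hwl : LipF w := hw ▸ (hu.lip0.lip.min hu'.lip).max ((hu.lip0.lip.max hu'.lip).min
    (hu.lip0.lip.sub ((hi.sub (LipF.const s0)).const_mul _)))
  have w1 : ∀ y, s0 < ⟪y, v⟫ → w y = min (u y) (u (R y)) := fun y hy => by
    have := abs_le.1 (hd y)
    rw [abs_of_pos (sub_pos.2 hy)] at this
    have k : 0 ≤ 2 * C * (⟪y, v⟫ - s0) := by linarith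
    rw [hw]
    exact max_eq_left ((min_le_right _ _).trans (le_min (by linarith) (by linarith)))
  have w2 : ∀ y, ⟪y, v⟫ ≤ s0 → w y = max (u y) (u (R y)) := fun y hy => by
    have := abs_le.1 (hd y)
    rw [abs_of_nonpos (sub_nonpos.2 hy)] at this
    rw [hw]
    change max _ (min _ _) = _
    rw [min_eq_left (max_le (by linarith) (by linarith))]
    exact max_eq_right min_le_max
  have w3 : ∀ y, w y = u y ∨ w y = u (R y) := fun y => by
    rcases lt_or_ge s0 ⟪y, v⟫ with k | k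
    · rw [w1 y k]
      exact min_choice _ _
    · rw [w2 y k]
      exact max_choice _ _
  have hw0 : Lip0 w := by
    refine ⟨hwl, (hu.lip0.max hu').cs.mono fun y hy k => hy ?_⟩
    have k1 : u y ≤ 0 := (le_max_left _ _).trans k.le
    have k2 : u (R y) ≤ 0 := (le_max_right _ _).trans k.le
    rcases w3 y with k3 | k3 <;> rw [k3]
    exacts [le_antisymm k1 (hu.nonneg _), le_antisymm k2 (hu.nonneg _)]
  refine ⟨w, ⟨hw0, fun y => ?_, fun y => ?_, fun y hy => ?_⟩, ?_, fun y hy => ?_⟩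
  · rcases w3 y with k | k <;> rw [k] <;> exact hu.nonneg _
  · rcases w3 y with k | k <;> rw [k] <;> exact hu.le_one _
  · rcases lt_or_ge s0 ⟪y, v⟫ with k | k
    · rw [w1 y k, hu.one y hy, e, hu.one _ (h y hy k), min_self]
    · rw [w2 y k, hu.one y hy, max_eq_left (hu.le_one _)]
  · obtain ⟨B, hB⟩ : ∃ B : Set (Eu n), B = {y | w y ≠ u y} := ⟨_, rfl⟩
    have hBm : MeasurableSet B :=
      hB ▸ (isOpen_ne_fun hwl.continuous hu.lip0.lip.continuous).measurableSet
    have hB1 : ∀ y, y ∈ B → R y ∈ B := fun y hy => by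
      rw [hB, mem_ofPred_eq] at hy ⊢
      have k0 := ht y
      rcases lt_trichotomy s0 ⟪y, v⟫ with k | k | k
      · rw [w1 y k] at hy
        rw [w2 (R y) (by linarith), hRR]
        have : u (R y) < u y := not_le.1 fun l => hy (min_eq_left l)
        rw [max_eq_right this.le]
        exact this.ne'
      · have : R y = y := by rw [e, ← k, sub_self, mul_zero, zero_smul, sub_zero]
        rwa [this]
      · rw [w2 y k.le] at hy
        rw [w1 (R y) (by linarith), hRR]
        have : u y < u (R y) := not_le.1 fun l => hy (max_eq_left l)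
        rw [min_eq_right this.le]
        exact this.ne
    have hB2 : R ⁻¹' B = B :=
      Subset.antisymm (fun y hy => hRR y ▸ hB1 _ hy) fun y hy => hB1 y hy
    have k1 : en p w B = en p (fun x => u (R x)) B := by
      refine setIntegral_congr_ae hBm ?_
      filter_upwards [grad_eq_of_eq hwl hu'.lip] with y k hy
      rw [k ((w3 y).resolve_left (by rw [hB] at hy; exact hy))]
    have k2 : en p w Bᶜ = en p u Bᶜ := by
      refine setIntegral_congr_ae hBm.compl ?_
      filter_upwards [grad_eq_of_eq hwl hu.lip0.lip] with y k hy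
      rw [k (by rw [hB] at hy; exact not_not.1 hy)]
    have k3 := hen B
    rw [hB2] at k3
    rw [← en_add_compl hp hw0 hBm, ← en_add_compl hp hu.lip0 hBm, k1, k2, k3]
  · rw [w1 y hy]
    exact min_le_right _ _

/-- Polarisation. -/
theorem pot_reflect (hp : 1 < p) {K : Set (Eu n)} (hK : IsBody K) {v : Eu n} (hv : ‖v‖ = 1)
    (s0 : ℝ) (h : ∀ z ∈ K, s0 < ⟪z, v⟫ → z - (2 * (⟪z, v⟫ - s0)) • v ∈ K) {z : Eu n}
    (hz : s0 < ⟪z, v⟫) : pot p K (z - (2 * (⟪z, v⟫ - s0)) • v) ≤ pot p K z := by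
  have hp0 : 0 < p := one_pos.trans hp
  have e : ∀ y, sim ((2 * s0) • v) 1 (ℝ ∙ v)ᗮ.reflection y = y - (2 * (⟪y, v⟫ - s0)) • v :=
    fun y => by
      rw [sim, Submodule.reflection_orthogonal_apply, Submodule.reflection_singleton_apply, hv,
        real_inner_comm]
      simp only [RCLike.ofReal_one, one_pow, div_one]
      module
  obtain ⟨u, hu⟩ := exists_minSeq (p := p) hK.1.isBounded
  choose w hw hE hle using fun j => PotM_pol hp0 hv s0 h _ _ e (hu.1 j)
  have hm : MinSeq p K w :=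
    hu.of_le hw (e := fun _ => 0) tendsto_const_nhds fun j => by rw [hE, add_zero]
  have k := (isPot_pot hp hK).ae_le (isPot_pot hp hK) hu hm ((2 * s0) • v) one_pos
    (ℝ ∙ v)ᗮ.reflection (D := {x | s0 < ⟪x, v⟫}) hle
  have ho : IsOpen {x : Eu n | s0 < ⟪x, v⟫} := isOpen_lt continuous_const (by fun_prop)
  obtain ⟨r, hr, hb⟩ := Metric.isOpen_iff.1 ho z hz
  rw [← e]
  exact (isPot_pot hp hK).le_of_ae (isPot_pot hp hK) _ one_pos _ hr
    (k.mono fun x hx hx' => hx (hb hx'))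

end Pool.Agent.Work.MP_f7e2e5_gt
end
end

-- merged part: Pool.Agent.Work.MP_f7e2e5_gt.Pot2
section
-- merged part: Pool.Agent.Work.MP_f7e2e5_gt.Pot2
section
open MeasureTheory Set Metric Filter Topology
open scoped RealInnerProductSpace Pointwise ContDiff NNReal

noncomputable section

namespace Pool.Agent.Work.MP_f7e2e5_gt

variable {n : ℕ} {p : ℝ}

theorem Pot2_lip (x : Eu n) (a : ℝ) {L : ℝ} (hL : 0 ≤ L) :
    LipschitzWith L.toNNReal (fun y : Eu n => 1 - L * max (dist y x - a) 0) := by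
  refine LipschitzWith.of_dist_le' fun y z => ?_
  rw [Real.dist_eq, show 1 - L * max (dist y x - a) 0 - (1 - L * max (dist z x - a) 0) =
    L * (max (dist z x - a) 0 - max (dist y x - a) 0) by ring, abs_mul, abs_of_nonneg hL]
  refine mul_le_mul_of_nonneg_left ((abs_max_sub_max_le_abs _ _ _).trans ?_) hL
  rw [show dist z x - a - (dist y x - a) = dist z x - dist y x by ring, dist_comm y z]
  exact abs_dist_sub_le z y x

theorem Pot2_norm_grad {f : Eu n → ℝ} {L : ℝ} (hL : 0 ≤ L) (hf : LipschitzWith L.toNNReal f)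
    (y : Eu n) : ‖gradient f y‖ ≤ L := by
  rw [gradient, LinearIsometryEquiv.norm_map]
  exact (norm_fderiv_le_of_lipschitz ℝ hf).trans (le_of_eq (Real.coe_toNNReal L hL))

/-- The cut-off estimate for one admissible function. -/
theorem Pot2_cut (hp : 1 < p) (x : Eu n) {r m : ℝ} (hr : 0 < r) (hm0 : 0 ≤ m) :
    ∃ C : ℝ, ∀ (K : Set (Eu n)) (u : Eu n → ℝ), Adm K u →
      en p u (ball x (2 * r)) ≤ en p u univ - cap p K + (m / r) ^ p * volume.real (ball x (3 * r)) +
        C * volume.real {z | z ∈ ball x (4 * r) ∧ m ≤ 1 - u z} := by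
  have hp0 : 0 < p := by linarith
  have hmr : 0 ≤ m / r := div_nonneg hm0 hr.le
  have hr1 : 0 ≤ 1 / r := by positivity
  set b1 : Eu n → ℝ := fun y => 1 - m / r * max (dist y x - 2 * r) 0 with hb1
  set b : Eu n → ℝ := fun y => b1 y + (1 - 1 / r * max (dist y x - 3 * r) 0) - 1 with hb
  have hl1 : LipschitzWith (m / r).toNNReal b1 := Pot2_lip x (2 * r) hmr
  have hlb : LipF b :=
    (LipF.add ⟨_, hl1⟩ ⟨_, Pot2_lip x (3 * r) hr1⟩).sub (LipF.const 1)
  obtain ⟨C, hC⟩ := hlb.exists_norm_gradient_le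
  have hb_le1 : ∀ y, b y ≤ b1 y := fun y => by
    have := mul_nonneg hr1 (le_max_right (dist y x - 3 * r) 0)
    simp only [hb]
    linarith only [this]
  have hb1_le : ∀ y, b1 y ≤ 1 := fun y => by
    have := mul_nonneg hmr (le_max_right (dist y x - 2 * r) 0)
    simp only [hb1]
    linarith only [this]
  have hb_out : ∀ y, y ∉ ball x (4 * r) → b y ≤ 0 := fun y hy => by
    rw [mem_ball, not_lt] at hy
    have h1 : 1 / r * r ≤ 1 / r * max (dist y x - 3 * r) 0 :=
      mul_le_mul_of_nonneg_left (le_max_of_le_left (by linarith only [hy])) hr1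
    rw [one_div_mul_cancel hr.ne'] at h1
    have := hb1_le y
    simp only [hb]
    linarith only [h1, this]
  have hb_mid : ∀ y, y ∉ ball x (3 * r) → b y ≤ 1 - m := fun y hy => by
    rw [mem_ball, not_lt] at hy
    have h1 : m / r * r ≤ m / r * max (dist y x - 2 * r) 0 :=
      mul_le_mul_of_nonneg_left (le_max_of_le_left (by linarith only [hy])) hmr
    rw [div_mul_cancel₀ _ hr.ne'] at h1
    refine (hb_le1 y).trans ?_
    simp only [hb1]
    linarith only [h1]
  have hb_in : ∀ y ∈ ball x (3 * r), b y = b1 y := fun y hy => by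
    rw [mem_ball] at hy
    simp only [hb]
    rw [max_eq_right (by linarith only [hy])]
    ring
  have hb_one : ∀ y ∈ ball x (2 * r), b y = 1 := fun y hy => by
    rw [hb_in y (ball_subset_ball (by linarith only [hr]) hy)]
    rw [mem_ball] at hy
    simp only [hb1]
    rw [max_eq_right (by linarith only [hy])]
    ring
  have hg_in : ∀ y ∈ ball x (3 * r), ‖gradient b y‖ ≤ m / r := fun y hy => by
    have : b =ᶠ[𝓝 y] b1 := by
      filter_upwards [isOpen_ball.mem_nhds hy] with z hz using hb_in z hz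
    rw [this.gradient_eq]
    exact Pot2_norm_grad hmr hl1 y
  refine ⟨C ^ p, fun K u hu => ?_⟩
  set v : Eu n → ℝ := fun y => max (u y) (b y) with hv
  have hva : Adm K v := by
    refine ⟨⟨hu.lip0.lip.max hlb, ?_⟩, fun y => le_max_of_le_left (hu.nonneg y),
      fun y => max_le (hu.le_one y) ((hb_le1 y).trans (hb1_le y)), fun y hy => ?_⟩
    · refine HasCompactSupport.intro (hu.lip0.cs.isCompact.union (isCompact_closedBall x (4 * r)))
        fun y hy => ?_
      rw [mem_union, not_or] at hy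
      have h1 : u y = 0 := image_eq_zero_of_notMem_tsupport hy.1
      simp only [hv]
      rw [h1]
      exact max_eq_left (hb_out y fun h => hy.2 (ball_subset_closedBall h))
    · simp only [hv]
      rw [hu.one y hy]
      exact max_eq_left ((hb_le1 y).trans (hb1_le y))
  have hv_one : ∀ y ∈ ball x (2 * r), gradient v y = 0 := fun y hy => by
    have : v =ᶠ[𝓝 y] fun _ => 1 := by
      filter_upwards [isOpen_ball.mem_nhds hy] with z hz
      simp only [hv]
      rw [hb_one z hz]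
      exact max_eq_right (hu.le_one z)
    rw [this.gradient_eq]
    exact gradient_fun_const _ _
  set S : Set (Eu n) := {z | z ∈ ball x (4 * r) ∧ m ≤ 1 - u z} with hS
  have hSm : MeasurableSet S :=
    measurableSet_ball.inter
      (isClosed_le continuous_const (continuous_const.sub hu.lip0.lip.continuous)).measurableSet
  have hSf : volume S ≠ ⊤ :=
    ((measure_mono fun z hz => hz.1).trans_lt (measure_ball_lt_top (x := x) (r := 4 * r))).ne
  have i1 : Integrable ((ball x (2 * r))ᶜ.indicator fun y => ‖gradient u y‖ ^ p) :=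
    (hu.lip0.integrable_en hp0).indicator measurableSet_ball.compl
  have i2 : Integrable ((ball x (3 * r)).indicator fun _ => (m / r) ^ p) :=
    (integrableOn_const measure_ball_lt_top.ne).integrable_indicator measurableSet_ball
  have i3 : Integrable (S.indicator fun _ => C ^ p) :=
    (integrableOn_const hSf).integrable_indicator hSm
  have hC0 : 0 ≤ C := (norm_nonneg _).trans (hC x)
  have hle : en p v univ ≤ en p u (ball x (2 * r))ᶜ +
      (m / r) ^ p * volume.real (ball x (3 * r)) + C ^ p * volume.real S := by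
    have h1 : en p v univ ≤ ∫ y, (((ball x (2 * r))ᶜ.indicator (fun y => ‖gradient u y‖ ^ p) y +
        (ball x (3 * r)).indicator (fun _ => (m / r) ^ p) y) +
        S.indicator (fun _ => C ^ p) y) := by
      rw [en, Measure.restrict_univ]
      refine integral_mono_ae (hva.lip0.integrable_en hp0) ((i1.add i2).add i3) ?_
      filter_upwards [grad_max hu.lip0.lip hlb] with y hy
      have n1 : 0 ≤ (ball x (2 * r))ᶜ.indicator (fun y => ‖gradient u y‖ ^ p) y :=
        indicator_nonneg (fun _ _ => by positivity) _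
      have n2 : 0 ≤ (ball x (3 * r)).indicator (fun _ => (m / r) ^ p) y :=
        indicator_nonneg (fun _ _ => by positivity) _
      have n3 : 0 ≤ S.indicator (fun _ => C ^ p) y :=
        indicator_nonneg (fun _ _ => by positivity) _
      by_cases h2 : y ∈ ball x (2 * r)
      · rw [hv_one y h2, norm_zero, Real.zero_rpow hp0.ne']
        linarith only [n1, n2, n3]
      by_cases h3 : b y ≤ u y
      · rw [if_pos h3] at hy
        rw [hy, indicator_of_mem (show y ∈ (ball x (2 * r))ᶜ from h2)]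
        linarith only [n2, n3]
      rw [if_neg h3] at hy
      rw [hy]
      by_cases h4 : y ∈ ball x (3 * r)
      · rw [indicator_of_mem h4]
        have := Real.rpow_le_rpow (norm_nonneg _) (hg_in y h4) hp0.le
        linarith only [n1, n3, this]
      · have h5 : y ∈ S := by
          refine ⟨?_, by linarith only [h3, hb_mid, h4, hb_mid y h4]⟩
          by_contra h6
          exact h3 ((hb_out y h6).trans (hu.nonneg y))
        rw [indicator_of_mem h5]
        have := Real.rpow_le_rpow (norm_nonneg _) (hC y) hp0.le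
        linarith only [n1, n2, this]
    have i12 : Integrable (fun y => (ball x (2 * r))ᶜ.indicator (fun y => ‖gradient u y‖ ^ p) y +
        (ball x (3 * r)).indicator (fun _ => (m / r) ^ p) y) := i1.add i2
    rw [integral_add i12 i3, integral_add i1 i2,
      integral_indicator measurableSet_ball.compl, integral_indicator_const _ measurableSet_ball,
      integral_indicator_const _ hSm, smul_eq_mul, smul_eq_mul, mul_comm _ ((m / r) ^ p),
      mul_comm _ (C ^ p)] at h1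
    exact h1
  have h1 := cap_le_en (p := p) hva
  have h2 := en_add_compl hp0 hu.lip0 (measurableSet_ball (x := x) (ε := 2 * r))
  linarith only [hle, h1, h2]

/-- Caccioppoli inequality. -/
theorem caccioppoli (hp : 1 < p) {K : Set (Eu n)} (hK : IsBody K) {u : ℕ → Eu n → ℝ}
    (hu : MinSeq p K u) (x : Eu n) {r m : ℝ} (hr : 0 < r) (hm0 : 0 ≤ m)
    (hm : ∀ z ∈ ball x (4 * r), pot p K z ≤ m) {ε : ℝ} (hε : 0 < ε) :
    ∀ᶠ j in atTop, en p (u j) (ball x (2 * r)) ≤
      (m / r) ^ p * volume.real (ball x (3 * r)) + ε := by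
  have hp0 : 0 < p := by linarith
  have hcont : ContinuousAt (fun t : ℝ => (t / r) ^ p * volume.real (ball x (3 * r))) m :=
    ((continuousAt_id.div_const r).rpow_const (Or.inr hp0.le)).mul continuousAt_const
  have hev : ∀ᶠ t in 𝓝[>] m, (t / r) ^ p * volume.real (ball x (3 * r)) <
      (m / r) ^ p * volume.real (ball x (3 * r)) + ε / 3 :=
    (hcont.eventually (gt_mem_nhds (by linarith only [hε]))).filter_mono nhdsWithin_le_nhds
  obtain ⟨m', h1, h2⟩ := (hev.and self_mem_nhdsWithin).exists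
  have h3 : m < m' := h2
  obtain ⟨C, hC⟩ := Pot2_cut hp x hr (hm0.trans h3.le)
  have h4 := ((isPot_pot hp hK).tendsto_gt hu isBounded_ball h3 hm).const_mul C
  rw [mul_zero] at h4
  filter_upwards [h4.eventually (gt_mem_nhds (show (0 : ℝ) < ε / 3 by linarith only [hε])),
    hu.2.eventually (gt_mem_nhds (show cap p K < cap p K + ε / 3 by linarith only [hε]))] with j h5 h6
  have := hC K (u j) (hu.1 j)
  linarith only [h1, h5, h6, this]

/-- One Harnack step. -/
theorem harnack_step (hp : 1 < p) (hpn : p < n) : ∃ γ : ℝ, 0 < γ ∧ γ ≤ 1 / 8 ∧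
    ∀ (K : Set (Eu n)) (c : Eu n) (r m : ℝ), IsBody K → 0 < r → 0 ≤ m →
      Disjoint K (ball c (4 * r)) → (∀ z ∈ ball c r, m ≤ pot p K z) →
      (∀ z, m * γ * (4 - dist z c / r) ≤ pot p K z) ∧
        ∃ u, MinSeq p K u ∧ ∀ j z, dist z c ≤ r → m / 2 ≤ 1 - u j z := by
  obtain ⟨γ, hγ0, hγ1, hb⟩ := barrier_ann hp hpn
  refine ⟨γ / 2, by linarith only [hγ0], by linarith only [hγ1], fun K c r m hK hr hm0 hd hm => ?_⟩
  have hW := isPot_pot hp hK
  obtain ⟨u, hu⟩ := exists_minSeq (p := p) hK.1.isBounded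
  rcases hm0.eq_or_lt with rfl | hm0
  · refine ⟨fun z => ?_, u, hu, fun j z _ => ?_⟩
    · rw [zero_mul, zero_mul]
      exact hW.nonneg z
    · have := (hu.1 j).le_one z
      linarith only [this]
  have hm1 : m ≤ 1 := (hm c (mem_ball_self hr)).trans (hW.le_one c)
  obtain ⟨b, C, hbc, hb1, hb2, hb3⟩ := hb c r (m / 2) hr (by linarith only [hm0]) (by linarith only [hγ0, hγ1, hm1])
  have h1 := hW.tendsto_lt hu (isBounded_ball (x := c) (r := r)) (half_lt_self hm0) hm
  have h2 : Tendsto (fun j => volume.real {z | z ∈ ball c r ∧ 1 - u j z < m / 2}) atTop (𝓝 0) := by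
    refine squeeze_zero (fun j => measureReal_nonneg) (fun j => ?_) h1
    exact measureReal_mono (fun z hz => ⟨hz.1, hz.2.le⟩)
      ((measure_mono fun z hz => hz.1).trans_lt (measure_ball_lt_top (x := c) (r := r))).ne
  have h3 := h2.const_mul C
  rw [mul_zero] at h3
  have hv := hu.of_le (v := fun j z => min (u j z) (1 - b z))
    (fun j => (hb3 K (u j) hd (hu.1 j)).1) h3 fun j => (hb3 K (u j) hd (hu.1 j)).2
  refine ⟨fun z => ?_, _, hv, fun j z hz => ?_⟩
  · refine le_trans (le_of_eq ?_) ((hb2 z).trans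
      (hW.ge_of_minSeq hv hbc (fun j y => min_le_right _ _) z))
    ring
  · have h4 := hb1 z hz
    have h5 := min_le_right (u j z) (1 - b z)
    linarith only [h4, h5]

/-- Harnack chains along a segment. -/
theorem harnack_chain (hp : 1 < p) (hpn : p < n) (N : ℕ) : ∃ θ : ℝ, 0 < θ ∧
    ∀ (K : Set (Eu n)) (c c' : Eu n) (r m : ℝ), IsBody K → 0 < r → 0 ≤ m →
      dist c c' ≤ N * r → (∀ w ∈ segment ℝ c c', Disjoint K (ball w (4 * r))) →
      (∀ z ∈ ball c r, m ≤ pot p K z) → ∀ z ∈ ball c' r, θ * m ≤ pot p K z := by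
  obtain ⟨γ, hγ0, -, hs⟩ := harnack_step hp hpn
  refine ⟨(2 * γ) ^ N, by positivity, ?_⟩
  induction N with
  | zero =>
    intro K c c' r m _ _ _ hd _ hm z hz
    rw [Nat.cast_zero, zero_mul, dist_le_zero] at hd
    rw [pow_zero, one_mul]
    exact hm z (hd ▸ hz)
  | succ N ih =>
    intro K c c' r m hK hr hm0 hd hseg hm z hz
    have hN : (0 : ℝ) < (N : ℝ) + 1 := by positivity
    have ht0 : (0 : ℝ) ≤ (N : ℝ) / (N + 1) := by positivity
    have ht1 : (N : ℝ) / (N + 1) ≤ 1 := by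
      rw [div_le_one hN]
      linarith only []
    push_cast at hd
    set c'' : Eu n := AffineMap.lineMap c c' ((N : ℝ) / (N + 1)) with hc''
    have hmem : c'' ∈ segment ℝ c c' := by
      rw [segment_eq_image_lineMap]
      exact ⟨_, ⟨ht0, ht1⟩, rfl⟩
    have hd1 : dist c c'' ≤ N * r := by
      rw [hc'', dist_left_lineMap, Real.norm_of_nonneg ht0]
      calc (N : ℝ) / (N + 1) * dist c c' ≤ (N : ℝ) / (N + 1) * ((N + 1) * r) :=
            mul_le_mul_of_nonneg_left hd ht0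
        _ = N * r := by field_simp
    have hd2 : dist c' c'' ≤ r := by
      rw [hc'', dist_comm, dist_lineMap_right, Real.norm_of_nonneg (by linarith only [ht1])]
      calc (1 - (N : ℝ) / (N + 1)) * dist c c' ≤ (1 - (N : ℝ) / (N + 1)) * ((N + 1) * r) :=
            mul_le_mul_of_nonneg_left hd (by linarith only [ht1])
        _ = r := by field_simp; ring
    have h1 := ih K c c'' r m hK hr hm0 hd1
      (fun w hw => hseg w ((convex_segment c c').segment_subset (left_mem_segment ℝ c c') hmem hw))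
      hm
    have h0 : 0 ≤ (2 * γ) ^ N * m := by positivity
    have h2 := (hs K c'' r _ hK hr h0 (hseg c'' hmem) h1).1 z
    have h3 : dist z c'' / r ≤ 2 := by
      rw [div_le_iff₀ hr]
      have := dist_triangle z c' c''
      rw [mem_ball] at hz
      linarith only [hz, hd2, this]
    refine le_trans ?_ h2
    calc (2 * γ) ^ (N + 1) * m = (2 * γ) ^ N * m * γ * 2 := by ring
      _ ≤ (2 * γ) ^ N * m * γ * (4 - dist z c'' / r) :=
          mul_le_mul_of_nonneg_left (by linarith only [h3]) (by positivity)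

/-- The potential is positive off `K`. -/
theorem pot_pos (hp : 1 < p) (hpn : p < n) {K : Set (Eu n)} (hK : IsBody K) {z : Eu n}
    (hz : z ∉ K) : 0 < pot p K z := by
  have hne : K.Nonempty := hK.2.2.mono interior_subset
  obtain ⟨ξ, hξ, hsep⟩ : ∃ ξ : Eu n, ‖ξ‖ = 1 ∧ supp K ξ < ⟪z, ξ⟫ := by
    by_contra h
    exact hz (mem_of_le_supp hK.1 hK.2.1 hne fun ξ hξ => not_lt.1 fun h' => h ⟨ξ, hξ, h'⟩)
  obtain ⟨R, hR, hKR⟩ := hK.1.isBounded.subset_closedBall_lt 0 (0 : Eu n)
  have hξ0 : ξ ≠ 0 := by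
    rintro rfl
    simp at hξ
  have habs : ∀ y ∈ K, |⟪y, ξ⟫| ≤ R := fun y hy => by
    have h1 := abs_real_inner_le_norm y ξ
    have h2 := mem_closedBall_zero_iff.1 (hKR hy)
    rw [hξ, mul_one] at h1
    linarith
  obtain ⟨y0, hy0, hy0'⟩ := exists_supp_eq hK.1 hne ξ
  have hh : |supp K ξ| ≤ R := hy0' ▸ habs y0 hy0
  rw [abs_le] at hh
  have hproj : ∀ y : Eu n, ‖(ℝ ∙ ξ).starProjection (y - (supp K ξ - R) • ξ)‖ =
      |⟪y, ξ⟫ - supp K ξ + R| := fun y => by
    rw [Submodule.starProjection_unit_singleton ℝ hξ, norm_smul, hξ, mul_one, inner_sub_right,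
      real_inner_smul_right, real_inner_self_eq_norm_sq, hξ, Real.norm_eq_abs,
      real_inner_comm]
    congr 1
    ring
  have hrk : Module.finrank ℝ (ℝ ∙ ξ) = 1 := finrank_span_singleton hξ0
  obtain ⟨c, hc, hb⟩ := barrier_cyl hp hpn hR
  obtain ⟨b, hbc, hb1, hb2⟩ := hb (ℝ ∙ ξ) ((supp K ξ - R) • ξ) R
    (by rwa [Ne, Submodule.span_singleton_eq_bot])
    (by rw [hrk, Nat.cast_one]; exact hp)
    (by
      rw [norm_smul, hξ, mul_one, Real.norm_eq_abs, abs_le]
      constructor <;> linarith only [hh, hR]) hR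
  have hin : ∀ y ∈ K, ‖(ℝ ∙ ξ).starProjection (y - (supp K ξ - R) • ξ)‖ ≤ R := fun y hy => by
    have h1 := abs_le.1 (habs y hy)
    have h2 := le_supp hK.1 hy ξ
    rw [hproj, abs_le]
    constructor <;> linarith only [hh, h1, h2]
  obtain ⟨u, hu⟩ := exists_minSeq (p := p) hK.1.isBounded
  have hv := hu.of_le (v := fun j y => min (u j y) (1 - b y))
    (fun j => (hb2 K (u j) hKR hin (hu.1 j)).1) (e := fun _ => 0) tendsto_const_nhds fun j => by
      rw [add_zero]
      exact (hb2 K (u j) hKR hin (hu.1 j)).2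
  refine lt_of_lt_of_le ?_ ((hb1 z).trans
    ((isPot_pot hp hK).ge_of_minSeq hv hbc (fun j y => min_le_right _ _) z))
  have hp1 : p - 1 ≠ 0 := by linarith
  rw [hrk, Nat.cast_one, div_self hp1, Real.rpow_one, Real.rpow_one, hproj,
    abs_of_pos (by linarith)]
  exact lt_min (mul_pos hc (by linarith)) (by norm_num)

end Pool.Agent.Work.MP_f7e2e5_gt
end
end

-- merged part: Pool.Agent.Work.MP_f7e2e5_gt.Var
section
open MeasureTheory Set Metric Filter Topology
open scoped RealInnerProductSpace Pointwise ContDiff NNReal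

noncomputable section

namespace Pool.Agent.Work.MP_f7e2e5_gt

variable {n : ℕ} {p : ℝ}

theorem var_M_nonneg {X : Eu n → Eu n} {M : ℝ} (hX : Fld X M) : 0 ≤ M :=
  (norm_nonneg _).trans (hX.2 0)

theorem var_abs_lam (hp : 1 < p) {K A : Set (Eu n)} {u : Eu n → ℝ} (hu : Adm K u)
    (hA : MeasurableSet A) {X : Eu n → Eu n} {M' : ℝ} (hM' : 0 ≤ M')
    (h1 : ∀ x ∉ K, ‖fderiv ℝ X x‖ ≤ M') (h2 : ∀ x ∉ A, fderiv ℝ X x = 0) :
    |lam p u X| ≤ (n + p) * M' * en p u A := by
  have hp0 : 0 < p := by linarith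
  have hint := hu.lip0.integrable_en hp0
  have hc : 0 ≤ (n : ℝ) + p := by positivity
  have e1 : (n + p) * M' * en p u A =
      ∫ x, A.indicator (fun x => (n + p) * M' * ‖gradient u x‖ ^ p) x := by
    rw [integral_indicator hA, integral_const_mul]; rfl
  rw [e1, ← Real.norm_eq_abs]
  refine norm_integral_le_of_norm_le ((hint.const_mul _).indicator hA) ?_
  filter_upwards [hu.grad_zero] with x hx
  rw [Real.norm_eq_abs]
  refine (abs_ell_le hp _ _).trans ?_
  by_cases hxA : x ∈ A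
  · rw [indicator_of_mem hxA]
    by_cases hxK : x ∈ K
    · rw [hx hxK, norm_zero, Real.zero_rpow hp0.ne']; simp
    · have := h1 x hxK
      have h3 : 0 ≤ ‖gradient u x‖ ^ p := by positivity
      calc (n + p) * ‖gradient u x‖ ^ p * ‖fderiv ℝ X x‖
          ≤ (n + p) * ‖gradient u x‖ ^ p * M' := by gcongr
        _ = _ := by ring
  · rw [indicator_of_notMem hxA, h2 x hxA]; simp

theorem var_stab (hp : 1 < p) {ε : ℝ} (hε : 0 < ε) (Cb : ℝ) : ∃ δ : ℝ, 0 < δ ∧
    ∀ (K : Set (Eu n)) (u v : Eu n → ℝ) (X : Eu n → Eu n) (M : ℝ), Adm K u → Adm K v →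
      cap p K ≤ Cb → en p u univ ≤ cap p K + δ → en p v univ ≤ cap p K + δ → Fld X M →
      |lam p u X - lam p v X| ≤ ε * M := by
  have hp0 : 0 < p := by linarith
  set B : ℝ := 2 * (|Cb| + 1) with hB
  have hB0 : 0 < B := by positivity
  obtain ⟨C, hC0, hC⟩ := ell_cont (n := n) hp (ε := ε / (2 * B)) (by positivity)
  obtain ⟨δ, hδ, hg⟩ := grad_close (n := n) hp (ε := ε / (2 * (C + 1))) (by positivity) Cb
  refine ⟨min δ 1, by positivity, fun K u v X M hu hv hK h1 h2 hX => ?_⟩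
  have hM := var_M_nonneg hX
  have hd := hg K u v hu hv hK (h1.trans (by gcongr; exact min_le_left _ _))
    (h2.trans (by gcongr; exact min_le_left _ _))
  have hm : min δ 1 ≤ 1 := min_le_right _ _
  have hsum : en p u univ + en p v univ ≤ B := by
    have := le_abs_self Cb
    linarith only [hK, h1, h2, hm, this]
  have iu := hu.lip0.integrable_en hp0
  have iv := hv.lip0.integrable_en hp0
  have iw := (hv.lip0.sub hu.lip0).integrable_en hp0
  have key : |lam p u X - lam p v X| ≤ ∫ x, M * (ε / (2 * B) *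
      (‖gradient u x‖ ^ p + ‖gradient v x‖ ^ p) + C * ‖gradient (fun x => v x - u x) x‖ ^ p) := by
    unfold lam
    rw [← integral_sub (lam_integrable hp hu.lip0 hX) (lam_integrable hp hv.lip0 hX),
      ← Real.norm_eq_abs]
    refine norm_integral_le_of_norm_le
      (((((iu.add iv).const_mul _).add (iw.const_mul _))).const_mul _) ?_
    filter_upwards [grad_lin hv.lip0.lip hu.lip0.lip 1 (-1) 0] with x hx
    have e : (fun y => 1 * v y + -1 * u y + 0) = fun y => v y - u y := by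
      funext y; ring
    rw [e] at hx
    rw [Real.norm_eq_abs, hx]
    refine (hC _ _ _).trans ?_
    have e2 : ‖(1 : ℝ) • gradient v x + (-1 : ℝ) • gradient u x‖ =
        ‖gradient u x - gradient v x‖ := by
      rw [one_smul, neg_one_smul, ← sub_eq_add_neg, norm_sub_rev]
    rw [e2]
    gcongr
    exact hX.2 x
  refine key.trans ?_
  have iuv : Integrable (fun x => ‖gradient u x‖ ^ p + ‖gradient v x‖ ^ p) := iu.add iv
  rw [integral_const_mul, integral_add (iuv.const_mul _) (iw.const_mul _),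
    integral_const_mul, integral_const_mul, integral_add iu iv, mul_comm ε M]
  have a1 : ∫ x, ‖gradient u x‖ ^ p = en p u univ := by simp [en]
  have a2 : ∫ x, ‖gradient v x‖ ^ p = en p v univ := by simp [en]
  have a3 : ∫ x, ‖gradient (fun x => v x - u x) x‖ ^ p = en p (fun x => v x - u x) univ := by
    simp [en]
  rw [a1, a2, a3]
  refine mul_le_mul_of_nonneg_left ?_ hM
  have b1 : ε / (2 * B) * (en p u univ + en p v univ) ≤ ε / 2 := by
    calc _ ≤ ε / (2 * B) * B := by gcongr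
      _ = ε / 2 := by field_simp
  have b2 : C * en p (fun x => v x - u x) univ ≤ ε / 2 := by
    calc _ ≤ (C + 1) * (ε / (2 * (C + 1))) := by
          have := en_nonneg p (fun x => v x - u x) (univ : Set (Eu n))
          gcongr
          linarith only []
      _ = ε / 2 := by field_simp
  linarith only [b1, b2]

theorem var_exists_lim (hp : 1 < p) {K : Set (Eu n)} {u : ℕ → Eu n → ℝ} (hu : MinSeq p K u)
    {X : Eu n → Eu n} {M : ℝ} (hX : Fld X M) :
    ∃ l, Tendsto (fun j => lam p (u j) X) atTop (𝓝 l) := by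
  have hM := var_M_nonneg hX
  refine cauchySeq_tendsto_of_complete (Metric.cauchySeq_iff.2 fun ε hε => ?_)
  obtain ⟨δ, hδ, h⟩ := var_stab (n := n) hp (ε := ε / (M + 1)) (by positivity) (cap p K)
  obtain ⟨N, hN⟩ := eventually_atTop.1 (hu.2.eventually (ge_mem_nhds (lt_add_of_pos_right _ hδ)))
  refine ⟨N, fun i hi j hj => ?_⟩
  rw [Real.dist_eq]
  refine (h K _ _ X M (hu.1 i) (hu.1 j) le_rfl (hN i hi) (hN j hj) hX).trans_lt ?_
  rw [div_mul_eq_mul_div, div_lt_iff₀ (by positivity)]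
  linarith only [hε]

theorem var_close (hp : 1 < p) {ε : ℝ} (hε : 0 < ε) (Cb : ℝ) : ∃ δ : ℝ, 0 < δ ∧
    ∀ (K : Set (Eu n)) (v : Eu n → ℝ) (X : Eu n → Eu n) (M : ℝ) (u : ℕ → Eu n → ℝ) (l : ℝ),
      MinSeq p K u → Tendsto (fun j => lam p (u j) X) atTop (𝓝 l) →
      cap p K ≤ Cb → Adm K v → en p v univ ≤ cap p K + δ → Fld X M →
      |lam p v X - l| ≤ ε * M := by
  obtain ⟨δ, hδ, h⟩ := var_stab (n := n) hp hε Cb
  refine ⟨δ, hδ, fun K v X M u l hu hl hK hv h1 hX => ?_⟩
  refine le_of_tendsto ((tendsto_const_nhds (x := lam p v X)).sub hl).abs ?_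
  filter_upwards [hu.2.eventually (ge_mem_nhds (lt_add_of_pos_right _ hδ))] with j hj
  exact h K _ _ X M hv (hu.1 j) hK h1 hj hX

theorem var_bdd {K : Set (Eu n)} (hK : Bornology.IsBounded K) {X : Eu n → Eu n} {M : ℝ}
    (hX : Fld X M) (t : ℝ) : Bornology.IsBounded (flow X t '' K) := by
  have hc : Continuous (flow X t) := continuous_id.add (hX.1.continuous.const_smul t)
  exact (hK.isCompact_closure.image hc).isBounded.subset (image_mono subset_closure)

theorem var_deriv (hp : 1 < p) {K : Set (Eu n)} (hK : Bornology.IsBounded K)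
    {u : ℕ → Eu n → ℝ} (hu : MinSeq p K u) {X : Eu n → Eu n} {M l : ℝ} (hX : Fld X M)
    (hl : Tendsto (fun j => lam p (u j) X) atTop (𝓝 l)) :
    HasDerivAt (fun t => cap p (flow X t '' K)) l 0 := by
  have hM := var_M_nonneg hX
  have h0 : flow X 0 '' K = K := by
    have : flow X 0 = id := by funext x; simp [flow]
    rw [this, image_id]
  rw [hasDerivAt_iff_isLittleO_nhds_zero, Asymptotics.isLittleO_iff]
  intro c hc
  simp only [zero_add, h0, smul_eq_mul, Real.norm_eq_abs]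
  set c0 := cap p K with hc0
  have hc00 : 0 ≤ c0 := cap_nonneg p K
  set B : ℝ := 2 * (c0 + |l| + c0 + 1) with hB
  have hB0 : 0 < B := by positivity
  set κ : ℝ := (n + p) * M + 1 with hκ
  have hκ0 : 0 < κ := by positivity
  set ε : ℝ := min 1 (c / (c0 + M + B + 1)) with hε
  have hε0 : 0 < ε := by positivity
  have hε1 : ε ≤ 1 := min_le_left _ _
  have hε2 : ε * (c0 + M + B + 1) ≤ c := by
    have : ε ≤ c / (c0 + M + B + 1) := min_le_right _ _
    rwa [le_div_iff₀ (by positivity)] at this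
  obtain ⟨t0, ht0, hf⟩ := en_flow hp hX hε0
  obtain ⟨δ, hδ, hcl⟩ := var_close (n := n) hp hε0 c0
  set D : ℝ := |l| + c0 + κ * B + 1 with hD
  have hD0 : 0 < D := by positivity
  set t1 : ℝ := min (min t0 1) (min (1 / (2 * κ)) (δ / D)) with ht1
  have ht10 : 0 < t1 := by positivity
  filter_upwards [closedBall_mem_nhds (0 : ℝ) ht10] with t ht
  rw [mem_closedBall, dist_zero_right, Real.norm_eq_abs] at ht
  have a0 : |t| ≤ t0 := ht.trans ((min_le_left _ _).trans (min_le_left _ _))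
  have a1 : |t| ≤ 1 := ht.trans ((min_le_left _ _).trans (min_le_right _ _))
  have a2 : |t| * κ ≤ 1 / 2 := by
    have : |t| ≤ 1 / (2 * κ) := ht.trans ((min_le_right _ _).trans (min_le_left _ _))
    rw [le_div_iff₀ (by positivity)] at this
    linarith only [this]
  have a3 : |t| * D ≤ δ := by
    have : |t| ≤ δ / D := ht.trans ((min_le_right _ _).trans (min_le_right _ _))
    rwa [le_div_iff₀ hD0] at this
  rcases eq_or_ne t 0 with rfl | hne
  · simp [h0, hc0]
  have tp : 0 < |t| := abs_pos.2 hne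
  obtain ⟨hf1, hf2⟩ := hf t a0 K
  set f := cap p (flow X t '' K) with hfdef
  have up : f ≤ c0 + t * l + ε * |t| * c0 := by
    refine ge_of_tendsto' ((hu.2.add (hl.const_mul t)).add (hu.2.const_mul (ε * |t|)))
      fun j => ?_
    obtain ⟨v, hv, h1⟩ := hf1 (u j) (hu.1 j)
    have h2 : f ≤ en p v univ := cap_le_en hv
    have := (abs_le.1 h1).2
    linarith only [h2, this]
  have low : c0 + t * l - ε * |t| * (M + B + 1) ≤ f := by
    obtain ⟨v, hv, h1⟩ := exists_adm_lt (p := p) (var_bdd hK hX t) (mul_pos hε0 tp)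
    obtain ⟨w, hw, h2⟩ := hf2 v hv
    obtain ⟨h3, h4⟩ := abs_le.1 h2
    have h5 := var_abs_lam hp hw MeasurableSet.univ hM (fun x _ => hX.2 x)
      (fun x hx => absurd (mem_univ x) hx)
    set E := en p w univ with hE
    have hE0 : 0 ≤ E := en_nonneg _ _ _
    have hcE : c0 ≤ E := cap_le_en hw
    have h6 : |t * lam p w X| ≤ |t| * ((n + p) * M * E) := by
      rw [abs_mul]; gcongr
    have h7 : t * l ≤ |t| * |l| := by rw [← abs_mul]; exact le_abs_self _
    have h8 : ε * |t| ≤ |t| := mul_le_of_le_one_left tp.le hε1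
    have h9 : ε * |t| * E ≤ |t| * E := by gcongr
    have h10 : ε * |t| * c0 ≤ |t| * c0 := by gcongr
    have h11 : E ≤ c0 + |t| * (|l| + c0 + 1) + |t| * κ * E := by
      have := (abs_le.1 h6).1
      have e : |t| * κ * E = |t| * ((n + p) * M * E) + |t| * E := by rw [hκ]; ring
      rw [e]
      linarith only [up, h1, h3, h7, h8, h9, h10, this]
    have h12 : |t| * (|l| + c0 + 1) ≤ |l| + c0 + 1 :=
      mul_le_of_le_one_left (by positivity) a1
    have h13 : E ≤ B := by
      have : |t| * κ * E ≤ 1 / 2 * E := by gcongr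
      linarith only [h11, h12, this]
    have h14 : E ≤ c0 + δ := by
      have b1 : |t| * κ * E ≤ |t| * κ * B := by gcongr
      have b2 : |t| * D = |t| * (|l| + c0 + 1) + |t| * κ * B := by rw [hD]; ring
      linarith only [a3, h11, b1]
    have h15 := hcl K w X M u l hu hl le_rfl hw h14 hX
    have h16 : |t * (lam p w X - l)| ≤ |t| * (ε * M) := by
      rw [abs_mul]; gcongr
    have h17 := (abs_le.1 h16).1
    have h18 : ε * |t| * E ≤ ε * |t| * B := by gcongr
    have h19 : ε * |t| * (M + B + 1) = |t| * (ε * M) + ε * |t| * B + ε * |t| := by ring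
    have h20 : t * (lam p w X - l) = t * lam p w X - t * l := by ring
    linarith only [h1, h3, hcE, h17, h18]
  have fin : ε * |t| * (c0 + M + B + 1) ≤ c * |t| := by
    calc _ = ε * (c0 + M + B + 1) * |t| := by ring
      _ ≤ _ := by gcongr
  have q1 : 0 ≤ ε * |t| * c0 := by positivity
  have q2 : 0 ≤ ε * |t| * (M + B + 1) := by positivity
  have q3 : ε * |t| * (c0 + M + B + 1) = ε * |t| * c0 + ε * |t| * (M + B + 1) := by ring
  rw [abs_le]
  constructor <;> linarith only [low, fin, q1, up, q2]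

theorem hasDerivAt_cap_flow (hp : 1 < p) {K : Set (Eu n)} (hK : Bornology.IsBounded K)
    {X : Eu n → Eu n} {M : ℝ} (hX : Fld X M) :
    HasDerivAt (fun t => cap p (flow X t '' K)) (Lam p K X) 0 := by
  obtain ⟨u, hu⟩ := exists_minSeq (p := p) hK
  obtain ⟨l, hl⟩ := var_exists_lim hp hu hX
  exact (var_deriv hp hK hu hX hl).differentiableAt.hasDerivAt

theorem lam_close (hp : 1 < p) {ε : ℝ} (hε : 0 < ε) (Cb : ℝ) : ∃ δ : ℝ, 0 < δ ∧
    ∀ (K : Set (Eu n)) (u : Eu n → ℝ) (X : Eu n → Eu n) (M : ℝ), Bornology.IsBounded K →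
      cap p K ≤ Cb → Adm K u → en p u univ ≤ cap p K + δ → Fld X M →
      |lam p u X - Lam p K X| ≤ ε * M := by
  obtain ⟨δ, hδ, h⟩ := var_close (n := n) hp hε Cb
  refine ⟨δ, hδ, fun K v X M hK h1 hv h2 hX => ?_⟩
  obtain ⟨u, hu⟩ := exists_minSeq (p := p) hK
  obtain ⟨l, hl⟩ := var_exists_lim hp hu hX
  have e : Lam p K X = l := (var_deriv hp hK hu hX hl).deriv
  rw [e]
  exact h K v X M u l hu hl h1 hv h2 hX

theorem tendsto_lam (hp : 1 < p) {K : Set (Eu n)} (hK : Bornology.IsBounded K)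
    {u : ℕ → Eu n → ℝ} (hu : MinSeq p K u) {X : Eu n → Eu n} {M : ℝ} (hX : Fld X M) :
    Tendsto (fun j => lam p (u j) X) atTop (𝓝 (Lam p K X)) := by
  obtain ⟨l, hl⟩ := var_exists_lim hp hu hX
  have e : Lam p K X = l := (var_deriv hp hK hu hX hl).deriv
  rwa [e]

theorem Lam_add (hp : 1 < p) {K : Set (Eu n)} (hK : Bornology.IsBounded K)
    {X Y : Eu n → Eu n} {M M' : ℝ} (hX : Fld X M) (hY : Fld Y M') :
    Lam p K (fun x => X x + Y x) = Lam p K X + Lam p K Y := by
  obtain ⟨u, hu⟩ := exists_minSeq (p := p) hK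
  refine tendsto_nhds_unique (tendsto_lam hp hK hu (hX.add hY))
    (((tendsto_lam hp hK hu hX).add (tendsto_lam hp hK hu hY)).congr fun j => ?_)
  unfold lam
  rw [← integral_add (lam_integrable hp (hu.1 j).lip0 hX) (lam_integrable hp (hu.1 j).lip0 hY)]
  refine integral_congr_ae (Eventually.of_forall fun x => ?_)
  simp only
  rw [fderiv_fun_add (hX.1.differentiable one_ne_zero x) (hY.1.differentiable one_ne_zero x),
    ell_add]

theorem Lam_smul (hp : 1 < p) {K : Set (Eu n)} (hK : Bornology.IsBounded K)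
    {X : Eu n → Eu n} {M : ℝ} (hX : Fld X M) (c : ℝ) :
    Lam p K (fun x => c • X x) = c * Lam p K X := by
  obtain ⟨u, hu⟩ := exists_minSeq (p := p) hK
  refine tendsto_nhds_unique (tendsto_lam hp hK hu (hX.smul c))
    (((tendsto_lam hp hK hu hX).const_mul c).congr fun j => ?_)
  unfold lam
  rw [← integral_const_mul]
  refine integral_congr_ae (Eventually.of_forall fun x => ?_)
  simp only
  rw [fderiv_fun_const_smul (hX.1.differentiable one_ne_zero x), ell_smul]

theorem abs_lam_le (hp : 1 < p) {K A : Set (Eu n)} {u : Eu n → ℝ} (hu : Adm K u)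
    (hA : MeasurableSet A) {X : Eu n → Eu n} {M M' : ℝ} (hX : Fld X M) (hM' : 0 ≤ M')
    (h1 : ∀ x ∉ K, ‖fderiv ℝ X x‖ ≤ M') (h2 : ∀ x ∉ A, fderiv ℝ X x = 0) :
    |lam p u X| ≤ (n + p) * M' * en p u A :=
  have _ := hX
  var_abs_lam hp hu hA hM' h1 h2

end Pool.Agent.Work.MP_f7e2e5_gt
end
end

-- merged part: Pool.Agent.Work.MP_f7e2e5_gt.Tau
section
open MeasureTheory Set Metric Filter Topology
open scoped RealInnerProductSpace Pointwise ContDiff NNReal

noncomputable section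

namespace Pool.Agent.Work.MP_f7e2e5_gt

variable {n : ℕ} {p : ℝ}

theorem Tau_bdd {K : Set (Eu n)} (hK : Body0 K) : Bornology.IsBounded K := hK.1.1.isBounded

theorem Tau_zero_mem {K : Set (Eu n)} (hK : Body0 K) : (0 : Eu n) ∈ K := interior_subset hK.2

theorem Tau_front_sub {K : Set (Eu n)} (hK : Body0 K) : frontier K ⊆ K :=
  hK.1.1.isClosed.frontier_subset

theorem Tau_flow_zero (X : Eu n → Eu n) (K : Set (Eu n)) : flow X 0 '' K = K := by
  have : flow X 0 = id := by
    funext x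
    simp [flow]
  rw [this, image_id]

theorem Tau_smul_sub {K : Set (Eu n)} (hK : Body0 K) {a b : ℝ} (ha : 0 ≤ a) (hab : a ≤ b)
    (hb : 0 < b) : a • K ⊆ b • K := by
  rintro _ ⟨k, hk, rfl⟩
  refine ⟨(a / b) • k, hK.1.2.1.smul_mem_of_zero_mem (Tau_zero_mem hK) hk
    ⟨div_nonneg ha hb.le, (div_le_one hb).2 hab⟩, ?_⟩
  show b • (a / b) • k = a • k
  rw [smul_smul, mul_div_cancel₀ _ hb.ne']

theorem Tau_bump_one {K : Set (Eu n)} (hK : Body0 K) : ∃ χ : Eu n → ℝ, ContDiff ℝ 1 χ ∧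
    HasCompactSupport χ ∧ ∀ y ∈ K, χ y = 1 := by
  obtain ⟨ρ, R, hρ, hρR, -, hR⟩ := hK.exists_radii
  obtain ⟨C, -, hC⟩ := exists_bump (n := n)
  obtain ⟨ψ, h1, h2, -, h4, -⟩ := hC 0 R (hρ.trans_le hρR)
  exact ⟨ψ, h1, h2, fun y hy => h4 y (hR hy)⟩

/-- The subspace of continuously differentiable functions. -/
def Tau_S (n : ℕ) : Submodule ℝ (CompactlySupportedContinuousMap (Eu n) ℝ) where
  carrier := {φ | ContDiff ℝ 1 (fun x => φ x)}
  add_mem' := by
    intro a b ha hb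
    have h : ContDiff ℝ 1 (fun x => a x + b x) := ContDiff.add ha hb
    exact h
  zero_mem' := by
    have h : ContDiff ℝ 1 (fun _ : Eu n => (0 : ℝ)) := contDiff_const
    exact h
  smul_mem' := by
    intro c a ha
    have h : ContDiff ℝ 1 (fun x => c * a x) := ContDiff.mul contDiff_const ha
    exact h

/-- The cone of functions that are nonnegative on a set. -/
def Tau_cone (A : Set (Eu n)) : PointedCone ℝ (CompactlySupportedContinuousMap (Eu n) ℝ) where
  carrier := {φ | ∀ y ∈ A, 0 ≤ φ y}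
  add_mem' := by
    intro a b ha hb y hy
    exact add_nonneg (ha y hy) (hb y hy)
  zero_mem' := fun _ _ => le_rfl
  smul_mem' := by
    intro c a ha y hy
    exact mul_nonneg c.2 (ha y hy)

/-- The radial variation as a linear functional. -/
def Tau_fun (hp : 1 < p) {K : Set (Eu n)} (hK : Bornology.IsBounded K) : Tau_S n →ₗ[ℝ] ℝ where
  toFun φ := Lam p K (fun x => φ.1 x • x)
  map_add' := by
    intro a b
    obtain ⟨M, hM⟩ := exists_fld_radial (ψ := fun x => a.1 x) a.2 a.1.hasCompactSupport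
    obtain ⟨M', hM'⟩ := exists_fld_radial (ψ := fun x => b.1 x) b.2 b.1.hasCompactSupport
    rw [← Lam_add hp hK hM hM']
    have : (fun x : Eu n => (a + b).1 x • x) = fun x => a.1 x • x + b.1 x • x := by
      funext x
      rw [← add_smul]
      rfl
    rw [this]
  map_smul' := by
    intro c a
    obtain ⟨M, hM⟩ := exists_fld_radial (ψ := fun x => a.1 x) a.2 a.1.hasCompactSupport
    have h := Lam_smul hp hK hM c
    have : (fun x : Eu n => (c • a).1 x • x) = fun x => c • (a.1 x • x) := by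
      funext x
      rw [smul_smul]
      rfl
    rw [this, h]
    rfl

theorem Lam_radial_nonneg (hp : 1 < p) {K : Set (Eu n)} (hK : Body0 K) {ψ : Eu n → ℝ}
    (hψ : ContDiff ℝ 1 ψ) (hc : HasCompactSupport ψ) (h : ∀ y ∈ frontier K, 0 ≤ ψ y) :
    0 ≤ Lam p K (fun x => ψ x • x) := by
  obtain ⟨M, hM⟩ := exists_fld_radial hψ hc
  have hd := hasDerivAt_cap_flow hp (Tau_bdd hK) hM
  refine ge_of_tendsto hd.tendsto_slope_zero_right ?_
  filter_upwards [self_mem_nhdsWithin] with t ht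
  have ht0 : 0 < t := ht
  rw [zero_add, Tau_flow_zero, smul_eq_mul]
  refine mul_nonneg (inv_nonneg.2 ht0.le) (sub_nonneg.2 (cap_mono ?_ ?_))
  · intro z hz
    by_cases hz0 : z = 0
    · exact ⟨0, Tau_zero_mem hK, by simp [flow, hz0]⟩
    · obtain ⟨y, hy, a, ha, rfl, hz'⟩ := exists_ray hK hz0
      refine smul_mem_flow hK hψ.continuous t (Tau_front_sub hK hy) ha.le ?_
      have h1 := hz'.1 hz
      have h2 := mul_nonneg ht0.le (h y hy)
      linarith
  · refine (hK.1.1.image ?_).isBounded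
    have hψc := hψ.continuous
    unfold flow
    fun_prop

theorem exists_isTau (hp : 1 < p) {K : Set (Eu n)} (hK : Body0 K) : ∃ τ, IsTau p K τ := by
  obtain ⟨χ, hχ1, hχ2, hχ3⟩ := Tau_bump_one hK
  let f : CompactlySupportedContinuousMap (Eu n) ℝ →ₗ.[ℝ] ℝ :=
    ⟨Tau_S n, Tau_fun hp (Tau_bdd hK)⟩
  obtain ⟨g, hg1, hg2⟩ := riesz_extension (Tau_cone (frontier K)) f
    (fun x hx => Lam_radial_nonneg hp hK (ψ := fun y => x.1 y) x.2 x.1.hasCompactSupport hx)
    (by
      intro φ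
      obtain ⟨c, hc⟩ := φ.continuous.bounded_above_of_compact_support φ.hasCompactSupport
      let χ' : CompactlySupportedContinuousMap (Eu n) ℝ := ⟨⟨χ, hχ1.continuous⟩, hχ2⟩
      have hχ' : χ' ∈ Tau_S n := hχ1
      refine ⟨⟨c • χ', (Tau_S n).smul_mem c hχ'⟩, ?_⟩
      intro y hy
      have h1 : χ y = 1 := hχ3 y (Tau_front_sub hK hy)
      have h2 : |φ y| ≤ c := hc y
      show 0 ≤ c * χ y + φ y
      rw [h1]
      linarith [neg_abs_le (φ y)])
  let Λ : CompactlySupportedContinuousMap (Eu n) ℝ →ₚ[ℝ] ℝ :=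
    PositiveLinearMap.mk₀ g (fun x hx => hg2 x (fun y _ => hx y))
  have hΛ : ∀ x, Λ x = g x := fun _ => rfl
  have hconc : RealRMK.rieszMeasure Λ (frontier K)ᶜ = 0 := by
    rw [isClosed_frontier.isOpen_compl.measure_eq_iSup_isCompact]
    simp only [ENNReal.iSup_eq_zero]
    intro A hA hAc
    obtain ⟨φ, h1, h2, h3, h4⟩ := exists_continuous_one_zero_of_isCompact hAc
      (isClosed_frontier (s := K)) (subset_compl_iff_disjoint_right.1 hA)
    let φ' : CompactlySupportedContinuousMap (Eu n) ℝ := ⟨φ, h3⟩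
    have h5 := RealRMK.rieszMeasure_le_of_eq_one Λ (f := φ') (fun x => (h4 x).1) hAc
      (fun x hx => h1 hx)
    have h6 : 0 ≤ g (-φ') := hg2 _ (fun y hy => by
      show 0 ≤ -(φ y)
      rw [h2 hy]
      simp)
    rw [map_neg] at h6
    have h7 : ENNReal.ofReal (Λ φ') = 0 := ENNReal.ofReal_eq_zero.2 (by rw [hΛ]; linarith)
    rw [h7] at h5
    exact le_antisymm h5 bot_le
  refine ⟨RealRMK.rieszMeasure Λ, ⟨⟨?_⟩, hconc, ?_⟩⟩
  · have hcpt : IsCompact (frontier K) :=
      hK.1.1.of_isClosed_subset isClosed_frontier (Tau_front_sub hK)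
    rw [← union_compl_self (frontier K)]
    refine (measure_union_le _ _).trans_lt ?_
    rw [hconc, add_zero]
    exact hcpt.measure_lt_top
  · intro ψ hψ hc
    let ψ' : CompactlySupportedContinuousMap (Eu n) ℝ := ⟨⟨ψ, hψ.continuous⟩, hc⟩
    have hψ' : ψ' ∈ Tau_S n := hψ
    have h1 := RealRMK.integral_rieszMeasure Λ ψ'
    have h2 := hg1 ⟨ψ', hψ'⟩
    exact (h1.trans h2).symm

theorem isTau_tau (hp : 1 < p) {K : Set (Eu n)} (hK : Body0 K) : IsTau p K (tau p K) := by
  have h := exists_isTau hp hK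
  unfold tau
  rw [dif_pos h]
  exact h.choose_spec

theorem IsTau.mass (hp : 1 < p) {K : Set (Eu n)} (hK : Body0 K) {τ : Measure (Eu n)}
    (hτ : IsTau p K τ) : τ.real univ = (n - p) * cap p K := by
  obtain ⟨χ, hχ1, hχ2, hχ3⟩ := Tau_bump_one hK
  obtain ⟨M, hM⟩ := exists_fld_radial hχ1 hχ2
  have hd := hasDerivAt_cap_flow hp (Tau_bdd hK) hM
  have hd2 : HasDerivAt (fun t : ℝ => (1 + t) ^ ((n : ℝ) - p) * cap p K)
      (((n : ℝ) - p) * cap p K) 0 := by
    have h1 : HasDerivAt (fun t : ℝ => 1 + t) 1 0 := (hasDerivAt_id (0 : ℝ)).const_add 1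
    have h2 := (h1.rpow_const (p := (n : ℝ) - p) (Or.inl (by norm_num))).mul_const (cap p K)
    simpa using h2
  have heq : (fun t => cap p (flow (fun x => χ x • x) t '' K)) =ᶠ[𝓝 0]
      (fun t : ℝ => (1 + t) ^ ((n : ℝ) - p) * cap p K) := by
    filter_upwards [Ioi_mem_nhds (show (-1 : ℝ) < 0 by norm_num)] with t ht
    have ht' : 0 < 1 + t := by
      have : -1 < t := ht
      linarith
    rw [← cap_smul (by linarith) K ht', ← image_smul]
    refine congrArg (cap p) (image_congr ?_)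
    intro y hy
    simp only [flow, hχ3 y hy, one_smul, add_smul]
  have hL : Lam p K (fun x => χ x • x) = ((n : ℝ) - p) * cap p K :=
    hd.unique (hd2.congr_of_eventuallyEq heq)
  rw [← hL, hτ.rep χ hχ1 hχ2]
  have hae : χ =ᵐ[τ] fun _ => (1 : ℝ) := by
    have h1 : ∀ᵐ y ∂τ, y ∈ frontier K := hτ.conc
    filter_upwards [h1] with y hy
    exact hχ3 y (Tau_front_sub hK hy)
  rw [integral_congr_ae hae]
  simp

/-- Upper bound for `τ` on small balls. -/
theorem tau_upper (hp : 1 < p) (R : ℝ) : ∃ C : ℝ, 0 ≤ C ∧ ∀ (K : Set (Eu n)) (τ : Measure (Eu n))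
    (x : Eu n) (r E : ℝ), Body0 K → IsTau p K τ → ‖x‖ ≤ R → 0 < r → r ≤ R →
      (∃ u, MinSeq p K u ∧ ∀ ε : ℝ, 0 < ε → ∀ᶠ j in atTop, en p (u j) (ball x (2 * r)) ≤ E + ε) →
      τ.real (closedBall x r) ≤ C * E / r := by
  obtain ⟨Cb, hCb, hC⟩ := exists_bump (n := n)
  have hnp : 0 ≤ (n : ℝ) + p := by positivity
  refine ⟨((n : ℝ) + p) * (|R| * (1 + 3 * Cb)), by positivity, ?_⟩
  rintro K τ x r E hK hτ hx hr hrR ⟨u, hu, hE⟩
  have hR : 0 < R := hr.trans_le hrR
  rw [abs_of_pos hR]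
  obtain ⟨ψ, h1, h2, h3, h4, h5, h6⟩ := hC x r hr
  obtain ⟨M, hM⟩ := exists_fld_radial h1 h2
  have hz : ∀ y ∉ ball x (2 * r), fderiv ℝ (fun z => ψ z • z) y = 0 := by
    intro y hy
    have hy' : y ∉ tsupport ψ := fun h => hy (h5 h)
    have he : (fun z : Eu n => ψ z • z) =ᶠ[𝓝 y] fun _ => 0 := by
      filter_upwards [notMem_tsupport_iff_eventuallyEq.1 hy'] with z hz
      rw [hz]
      simp
    rw [he.fderiv_eq]
    simp
  have hM' : 0 ≤ R * (1 + 3 * Cb) / r := by positivity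
  have hb : ∀ y, ‖fderiv ℝ (fun z => ψ z • z) y‖ ≤ R * (1 + 3 * Cb) / r := by
    intro y
    by_cases hy : y ∈ ball x (2 * r)
    · have hψd : HasFDerivAt ψ (fderiv ℝ ψ y) y :=
        (h1.differentiable (by norm_num) y).hasFDerivAt
      have hd := (hψd.smul (hasFDerivAt_id y)).fderiv
      have hd' : fderiv ℝ (fun z => ψ z • z) y =
          ψ y • ContinuousLinearMap.id ℝ (Eu n) + (fderiv ℝ ψ y).smulRight y := hd
      rw [hd']
      have hy2 : ‖y‖ ≤ 3 * R := by
        have h7 : ‖y - x‖ < 2 * r := by simpa [dist_eq_norm] using hy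
        have h8 : ‖y‖ ≤ ‖y - x‖ + ‖x‖ := by simpa using norm_add_le (y - x) x
        linarith only [hx, hrR, h7, h8]
      have h9 : ‖ψ y • ContinuousLinearMap.id ℝ (Eu n)‖ ≤ R / r := by
        rw [norm_smul, Real.norm_of_nonneg (h3 y).1]
        have h10 : ‖ContinuousLinearMap.id ℝ (Eu n)‖ ≤ 1 := ContinuousLinearMap.norm_id_le
        have h11 : 1 ≤ R / r := (one_le_div hr).2 hrR
        calc ψ y * ‖ContinuousLinearMap.id ℝ (Eu n)‖ ≤ 1 * 1 :=
              mul_le_mul (h3 y).2 h10 (norm_nonneg _) zero_le_one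
          _ ≤ R / r := by linarith only [h11]
      have h12 : ‖(fderiv ℝ ψ y).smulRight y‖ ≤ Cb / r * (3 * R) := by
        rw [ContinuousLinearMap.norm_smulRight_apply]
        exact mul_le_mul (h6 y) hy2 (norm_nonneg _) (by positivity)
      calc _ ≤ R / r + Cb / r * (3 * R) := (norm_add_le _ _).trans (add_le_add h9 h12)
        _ = R * (1 + 3 * Cb) / r := by ring
    · rw [hz y hy, norm_zero]
      exact hM'
  have hlim := tendsto_lam hp (Tau_bdd hK) hu hM
  set c : ℝ := ((n : ℝ) + p) * (R * (1 + 3 * Cb) / r) with hc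
  have hc0 : 0 ≤ c := mul_nonneg hnp hM'
  have hL : Lam p K (fun z => ψ z • z) ≤ c * E := by
    refine le_of_forall_pos_le_add ?_
    intro η hη
    have hε : 0 < η / (c + 1) := by positivity
    refine le_of_tendsto hlim ?_
    filter_upwards [hE _ hε] with j hj
    have h13 := abs_lam_le hp (hu.1 j) measurableSet_ball hM hM' (fun y _ => hb y) hz
    have h14 : c * (η / (c + 1)) ≤ η := by
      rw [mul_div_assoc', div_le_iff₀ (by positivity)]
      linarith only [hη]
    calc lam p (u j) (fun z => ψ z • z) ≤ c * en p (u j) (ball x (2 * r)) :=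
          (le_abs_self _).trans h13
      _ ≤ c * (E + η / (c + 1)) := mul_le_mul_of_nonneg_left hj hc0
      _ ≤ c * E + η := by linarith only [h14]
  have hfin := hτ.fin
  have hI : τ.real (closedBall x r) ≤ ∫ y, ψ y ∂τ := by
    rw [← integral_indicator_one measurableSet_closedBall]
    refine integral_mono ((integrable_const (1 : ℝ)).indicator measurableSet_closedBall)
      (h1.continuous.integrable_of_hasCompactSupport h2) ?_
    intro y
    by_cases hy : y ∈ closedBall x r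
    · rw [indicator_of_mem hy]
      exact (h4 y hy).ge
    · rw [indicator_of_notMem hy]
      exact (h3 y).1
  rw [← hτ.rep ψ h1 h2] at hI
  calc τ.real (closedBall x r) ≤ c * E := hI.trans hL
    _ = _ := by rw [hc]; ring

/-- Continuity of radial variations in `K`. -/
theorem Lam_continuity (hp : 1 < p) {K : Set (Eu n)} (hK : Body0 K) {X : Eu n → Eu n} {M ε : ℝ}
    (hX : Fld X M) (hε : 0 < ε) : ∃ δ : ℝ, 0 < δ ∧ δ < 1 ∧ ∀ K' : Set (Eu n),
      (1 - δ) • K ⊆ K' → K' ⊆ (1 + δ) • K → |Lam p K' X - Lam p K X| ≤ ε := by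
  have hM : 0 ≤ M := (norm_nonneg _).trans (hX.2 0)
  have hε' : 0 < ε / (2 * (M + 1)) := by positivity
  obtain ⟨δ0, hδ0, hcl⟩ := lam_close (n := n) hp hε' (cap p ((2 : ℝ) • K))
  have hcont : ContinuousAt (fun d : ℝ =>
      (1 + d) ^ ((n : ℝ) - p) * cap p K - (1 - d) ^ ((n : ℝ) - p) * cap p K) 0 := by
    have h1 : ContinuousAt (fun d : ℝ => (1 + d) ^ ((n : ℝ) - p)) 0 :=
      ContinuousAt.rpow_const (by fun_prop) (Or.inl (by norm_num))
    have h2 : ContinuousAt (fun d : ℝ => (1 - d) ^ ((n : ℝ) - p)) 0 :=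
      ContinuousAt.rpow_const (by fun_prop) (Or.inl (by norm_num))
    exact (h1.mul continuousAt_const).sub (h2.mul continuousAt_const)
  have hev : ∀ᶠ d : ℝ in 𝓝 0,
      (1 + d) ^ ((n : ℝ) - p) * cap p K - (1 - d) ^ ((n : ℝ) - p) * cap p K < δ0 / 2 := by
    refine hcont.eventually (gt_mem_nhds ?_)
    simpa using hδ0
  have hev2 : ∀ᶠ d : ℝ in 𝓝[>] 0,
      ((1 + d) ^ ((n : ℝ) - p) * cap p K - (1 - d) ^ ((n : ℝ) - p) * cap p K < δ0 / 2) ∧
        d ∈ Ioo (0 : ℝ) 1 :=
    (hev.filter_mono nhdsWithin_le_nhds).and (Ioo_mem_nhdsGT zero_lt_one)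
  obtain ⟨δ, hδ, hδ1, hδ2⟩ := hev2.exists
  refine ⟨δ, hδ1, hδ2, ?_⟩
  intro K' hK1 hK2
  have hp0 : 0 < p := by linarith only [hp, hδ1, hδ2]
  have hbig : Body0 ((1 + δ) • K) := hK.smul (by linarith only [hδ1, hδ2])
  have h2K : Body0 ((2 : ℝ) • K) := hK.smul (by norm_num)
  obtain ⟨u, hu, hue⟩ := exists_adm_lt (p := p) (Tau_bdd hbig) (half_pos hδ0)
  have key : ∀ L : Set (Eu n), (1 - δ) • K ⊆ L → L ⊆ (1 + δ) • K →
      |lam p u X - Lam p L X| ≤ ε / (2 * (M + 1)) * M := by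
    intro L hL1 hL2
    have hLb : Bornology.IsBounded L := (Tau_bdd hbig).subset hL2
    refine hcl L u X M hLb ?_ (hu.mono hL2) ?_ hX
    · exact cap_mono (hL2.trans (Tau_smul_sub hK (by linarith only [hδ1, hδ2]) (by linarith only [hδ2]) (by norm_num)))
        (Tau_bdd h2K)
    · have h1 : cap p ((1 - δ) • K) ≤ cap p L := cap_mono hL1 hLb
      rw [cap_smul hp0 K (by linarith only [hδ2] : 0 < 1 - δ)] at h1
      rw [cap_smul hp0 K (by linarith only [hδ1, hδ2] : 0 < 1 + δ)] at hue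
      linarith only [hδ, hue, h1]
  have hA := key K' hK1 hK2
  have hB := key K
    (by simpa using Tau_smul_sub hK (a := 1 - δ) (b := 1) (by linarith only [hδ2]) (by linarith only [hδ1]) one_pos)
    (by simpa using Tau_smul_sub hK (a := 1) (b := 1 + δ) zero_le_one (by linarith only [hδ1]) (by linarith only [hδ1, hδ2]))
  have hC : ε / (2 * (M + 1)) * M ≤ ε / 2 := by
    rw [div_mul_eq_mul_div, div_le_div_iff₀ (by positivity) (by positivity)]
    linarith only [hε]
  rw [abs_le] at hA hB ⊢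
  constructor <;> linarith only [hA, hB, hC, hA.1, hA.2, hB.1, hB.2]

end Pool.Agent.Work.MP_f7e2e5_gt
end
end

-- merged part: Pool.Agent.Work.MP_f7e2e5_gt.EstA
section
open MeasureTheory Set Metric Filter Topology
open scoped RealInnerProductSpace Pointwise ContDiff NNReal

noncomputable section

namespace Pool.Agent.Work.MP_f7e2e5_gt

variable {n : ℕ} {p : ℝ}

/-- Values near `x` are dominated by the values on a ball around a dilate of `x`. -/
theorem EstA_ray (hp : 1 < p) {ρ r : ℝ} (hρ : 0 < ρ) {K : Set (Eu n)} (hK : IsBody K)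
    (hin : closedBall 0 ρ ⊆ K) {x z z' : Eu n} (hr : 0 < r) (hrρ : r ≤ ρ / 8)
    (hz : z ∈ ball x (4 * r)) (hz' : z' ∈ ball ((1 + 10 / ρ * r) • x) r) :
    pot p K z ≤ pot p K z' := by
  set k : ℝ := 10 / ρ * r with hk
  have hk0 : 0 < k := by positivity
  set x0 : Eu n := k⁻¹ • ((1 + k) • z - z') with hx0
  have h1 : ‖(1 + k) • z - z'‖ ≤ (1 + k) * (4 * r) + r := by
    have e : (1 + k) • z - z' = (1 + k) • (z - x) + ((1 + k) • x - z') := by
      rw [smul_sub]; abel
    rw [e]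
    refine (norm_add_le _ _).trans (add_le_add ?_ ?_)
    · rw [norm_smul, Real.norm_of_nonneg (by positivity)]
      refine mul_le_mul_of_nonneg_left ?_ (by positivity)
      rw [mem_ball, dist_eq_norm] at hz
      exact hz.le
    · rw [mem_ball, dist_comm, dist_eq_norm] at hz'
      exact hz'.le
  have h2 : ‖x0‖ ≤ ρ := by
    rw [hx0, norm_smul, Real.norm_of_nonneg (by positivity), inv_mul_le_iff₀ hk0]
    refine h1.trans ?_
    have e1 : k * ρ = 10 * r := by rw [hk]; field_simp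
    have e2 : k * (4 * r) ≤ k * (ρ / 2) := mul_le_mul_of_nonneg_left (by linarith only [hrρ]) hk0.le
    linarith only [e1, e2]
  have h3 : x0 ∈ K := hin (by simpa using h2)
  have h4 := pot_ray hp hK h3 (l := 1 + k) (by linarith only [hk0]) z
  have h5 : x0 + (1 + k) • (z - x0) = z' := by
    have e : k • x0 = (1 + k) • z - z' := by
      rw [hx0, smul_smul, mul_inv_cancel₀ hk0.ne', one_smul]
    have e' : x0 + (1 + k) • (z - x0) = (1 + k) • z - k • x0 := by
      rw [smul_sub, add_smul (1 : ℝ) k x0, one_smul]; abel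
    rw [e', e]; abel
  rwa [h5] at h4

/-- A ball above a supporting hyperplane misses the body. -/
theorem EstA_disj {K : Set (Eu n)} {y ξ w : Eu n} {s : ℝ} (hξ : ‖ξ‖ = 1)
    (hs : ∀ v ∈ K, ⟪v, ξ⟫ ≤ ⟪y, ξ⟫) (hw : s ≤ ⟪w, ξ⟫ - ⟪y, ξ⟫) : Disjoint K (ball w s) := by
  rw [Set.disjoint_left]
  intro v hv hvw
  rw [mem_ball, dist_comm, dist_eq_norm] at hvw
  have h1 : ⟪w - v, ξ⟫ ≤ ‖w - v‖ := by
    have := real_inner_le_norm (w - v) ξ
    rwa [hξ, mul_one] at this
  rw [inner_sub_left] at h1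
  have := hs v hv
  linarith

/-- The distance from the dilated boundary point to the centre of the touching ball. -/
theorem EstA_dist {ρ R r a : ℝ} (hρ : 0 < ρ) (hρR : ρ ≤ R) (hr : 0 < r) {y ξ : Eu n}
    (hξ : ‖ξ‖ = 1) (hy : ‖y‖ ≤ R) (hh : ρ ≤ ⟪y, ξ⟫) (ha : 0 < a) (haR : a ≤ r * ρ / R ^ 2) :
    dist ((1 + a) • y) (y + (4 * r) • ξ) ≤ 4 * r - a * ρ / 2 := by
  have hR : 0 < R := hρ.trans_le hρR
  have haR' : a * R ^ 2 ≤ r * ρ := by rwa [le_div_iff₀ (by positivity)] at haR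
  have haρ : a * ρ ≤ r := by
    have h1 : a * ρ * ρ ≤ a * R ^ 2 := by
      have : ρ * ρ ≤ R ^ 2 := by linarith only [hρ, hρR, mul_nonneg_of_nonpos_of_nonpos (le_of_lt (Mathlib.Tactic.Linarith.sub_neg_of_lt hρ)) (Mathlib.Tactic.Linarith.sub_nonpos_of_le hρR), mul_nonneg_of_nonpos_of_nonpos (Mathlib.Tactic.Linarith.sub_nonpos_of_le hρR) (Mathlib.Tactic.Linarith.sub_nonpos_of_le hρR)]
      linarith only [ha, this, mul_nonneg_of_nonpos_of_nonpos (le_of_lt (Mathlib.Tactic.Linarith.sub_neg_of_lt ha)) (Mathlib.Tactic.Linarith.sub_nonpos_of_le this)]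
    have h2 : a * ρ * ρ ≤ r * ρ := h1.trans haR'
    exact le_of_mul_le_mul_right h2 hρ
  have e : (1 + a) • y - (y + (4 * r) • ξ) = a • y - (4 * r) • ξ := by
    rw [add_smul, one_smul]; abel
  rw [dist_eq_norm, e]
  refine abs_le_of_sq_le_sq' ?_ (by linarith only [hr, haρ]) |>.2
  rw [norm_sub_sq_real, norm_smul, norm_smul, hξ, real_inner_smul_left, real_inner_smul_right,
    Real.norm_of_nonneg ha.le, Real.norm_of_nonneg (by positivity : (0 : ℝ) ≤ 4 * r)]
  have h1 : (a * ‖y‖) ^ 2 ≤ a * (r * ρ) := by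
    have h2 : ‖y‖ ^ 2 ≤ R ^ 2 := by gcongr
    calc (a * ‖y‖) ^ 2 = a * (a * ‖y‖ ^ 2) := by ring
      _ ≤ a * (a * R ^ 2) := by gcongr
      _ ≤ a * (r * ρ) := by gcongr
  have h3 : a * (4 * r * ρ) ≤ a * (4 * r * ⟪y, ξ⟫) := by gcongr
  have h4 : 0 ≤ a * (r * ρ) := by positivity
  linarith only [h1, h3, sq_nonneg (a * ρ), sq_nonneg (a * ρ), sq_nonneg ((1 : ℝ) * a * ((1 : ℝ) * ‖y‖))]

/-- Linear growth of the potential at boundary points, controlled by nearby values. -/
theorem pot_growth (hp : 1 < p) (hpn : p < n) {ρ R : ℝ} (hρ : 0 < ρ) (hρR : ρ ≤ R) :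
    ∃ c : ℝ, 0 < c ∧ ∀ (K : Set (Eu n)), Body0 K → closedBall 0 ρ ⊆ K → K ⊆ closedBall 0 R →
      ∀ x ∈ frontier K, ∀ r : ℝ, 0 < r → r ≤ ρ / 8 → ∀ z ∈ ball x (4 * r),
        ∀ y ∈ frontier K, dist y x ≤ r → ∀ a : ℝ, 0 < a → a ≤ r * ρ / R ^ 2 →
          c * pot p K z * a / r ≤ pot p K ((1 + a) • y) := by
  obtain ⟨γ, hγ, -, hstep⟩ := harnack_step (n := n) hp hpn
  obtain ⟨θ, hθ, hchain⟩ := harnack_chain (n := n) hp hpn ⌈5 + 10 / ρ * R⌉₊
  refine ⟨θ * γ * ρ / 2, by positivity, ?_⟩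
  intro K hK hin hout x hx r hr hrρ z hz y hy hyx a ha haR
  have hKb : IsBody K := hK.1
  have hcl : IsClosed K := hKb.1.isClosed
  have hxK : x ∈ K := hcl.frontier_subset hx
  have hyK : y ∈ K := hcl.frontier_subset hy
  have hxR : ‖x‖ ≤ R := by simpa using hout hxK
  have hyR : ‖y‖ ≤ R := by simpa using hout hyK
  obtain ⟨ξ, hξ, hyξ⟩ := exists_normal hKb hy
  have hsup : ∀ v ∈ K, ⟪v, ξ⟫ ≤ ⟪y, ξ⟫ := fun v hv => hyξ ▸ le_supp hKb.1 hv ξ
  have hh : ρ ≤ ⟪y, ξ⟫ := by
    have h1 : ρ • ξ ∈ K := hin (by simp [norm_smul, hξ, abs_of_pos hρ])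
    have h2 := hsup _ h1
    rwa [real_inner_smul_left, real_inner_self_eq_norm_sq, hξ, one_pow, mul_one] at h2
  have hxy : -r ≤ ⟪x, ξ⟫ - ⟪y, ξ⟫ := by
    have h1 := real_inner_le_norm (y - x) ξ
    rw [hξ, mul_one, inner_sub_left, ← dist_eq_norm] at h1
    linarith only [hyx, h1]
  set k : ℝ := 10 / ρ * r with hk
  have hk0 : 0 < k := by positivity
  have hkρ : k * ρ = 10 * r := by rw [hk]; field_simp
  set A : Eu n := (1 + k) • x with hA
  set c : Eu n := y + (4 * r) • ξ with hc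
  have hAξ : 4 * r ≤ ⟪A, ξ⟫ - ⟪y, ξ⟫ := by
    rw [hA, real_inner_smul_left]
    have h1 : k * (ρ - r) ≤ k * ⟪x, ξ⟫ := mul_le_mul_of_nonneg_left (by linarith only [hh, hxy]) hk0.le
    have h2 : k * r ≤ k * (ρ / 8) := mul_le_mul_of_nonneg_left hrρ hk0.le
    linarith only [hr, hxy, hkρ, h1, h2]
  have hcξ : 4 * r ≤ ⟪c, ξ⟫ - ⟪y, ξ⟫ := by
    rw [hc, inner_add_left, real_inner_smul_left, real_inner_self_eq_norm_sq, hξ]
    linarith only []
  have hseg : ∀ w ∈ segment ℝ A c, Disjoint K (ball w (4 * r)) := by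
    rintro w ⟨s, t, hs, ht, hst, rfl⟩
    refine EstA_disj hξ hsup ?_
    rw [inner_add_left, real_inner_smul_left A ξ s, real_inner_smul_left c ξ t]
    have h1 := mul_le_mul_of_nonneg_left hAξ hs
    have h2 := mul_le_mul_of_nonneg_left hcξ ht
    have h3 : s * (4 * r) + t * (4 * r) = 4 * r := by rw [← add_mul, hst, one_mul]
    have h4 : s * ⟪y, ξ⟫ + t * ⟪y, ξ⟫ = ⟪y, ξ⟫ := by rw [← add_mul, hst, one_mul]
    rw [mul_sub] at h1 h2
    linarith only [h1, h2, h3, h4]
  have hAc : dist A c ≤ (⌈5 + 10 / ρ * R⌉₊ : ℕ) * r := by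
    have h1 : dist A x ≤ k * R := by
      have e : A - x = k • x := by rw [hA, add_smul, one_smul]; abel
      rw [dist_eq_norm, e, norm_smul, Real.norm_of_nonneg hk0.le]
      gcongr
    have h2 : dist y c = 4 * r := by
      rw [hc, dist_comm, dist_eq_norm, add_sub_cancel_left, norm_smul, hξ,
        Real.norm_of_nonneg (by positivity), mul_one]
    have h3 : dist A c ≤ dist A x + dist x y + dist y c := dist_triangle4 _ _ _ _
    have h4 : (5 + 10 / ρ * R) * r ≤ (⌈5 + 10 / ρ * R⌉₊ : ℕ) * r :=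
      mul_le_mul_of_nonneg_right (Nat.le_ceil _) hr.le
    have h5 : (5 + 10 / ρ * R) * r = 5 * r + k * R := by rw [hk]; ring
    rw [dist_comm] at hyx
    linarith only [hyx, h1, h2, h3, h4]
  have hW0 : 0 ≤ pot p K z := (isPot_pot hp hKb).nonneg z
  have hball : ∀ z' ∈ ball A r, pot p K z ≤ pot p K z' := fun z' hz' =>
    EstA_ray hp hρ hKb hin hr hrρ hz hz'
  have h1 := hchain K A c r (pot p K z) hKb hr hW0 hAc hseg hball
  have h2 := (hstep K c r (θ * pot p K z) hKb hr (by positivity)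
    (hseg c (right_mem_segment ℝ A c)) h1).1 ((1 + a) • y)
  refine le_trans ?_ h2
  have h3 := EstA_dist hρ hρR hr hξ hyR hh ha haR
  have h4 : a * ρ / 2 / r ≤ 4 - dist ((1 + a) • y) c / r := by
    rw [le_sub_iff_add_le, ← add_div, div_le_iff₀ hr]
    linarith only [h3]
  calc θ * γ * ρ / 2 * pot p K z * a / r = θ * pot p K z * γ * (a * ρ / 2 / r) := by ring
    _ ≤ θ * pot p K z * γ * (4 - dist ((1 + a) • y) c / r) := by gcongr

end Pool.Agent.Work.MP_f7e2e5_gt
end
end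

-- merged part: Pool.Agent.Work.MP_f7e2e5_gt.EstB
section
open MeasureTheory Set Metric Filter Topology
open scoped RealInnerProductSpace Pointwise ContDiff NNReal

noncomputable section

namespace Pool.Agent.Work.MP_f7e2e5_gt

variable {n : ℕ} {p : ℝ}

/-- A radial shell over `U`. -/
def estBShell (U : Set (Eu n)) (a b : ℝ) : Set (Eu n) :=
  (fun q : ℝ × Eu n => q.1 • q.2) '' (Icc a b ×ˢ U)

theorem estB_shell_compact {U : Set (Eu n)} (hU : IsCompact U) (a b : ℝ) :
    IsCompact (estBShell U a b) :=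
  (isCompact_Icc.prod hU).image (continuous_fst.smul continuous_snd)

theorem estB_mem_shell {U : Set (Eu n)} {a b : ℝ} {z : Eu n} :
    z ∈ estBShell U a b ↔ ∃ s : ℝ, a ≤ s ∧ s ≤ b ∧ ∃ y ∈ U, z = s • y := by
  constructor
  · rintro ⟨⟨s, y⟩, ⟨hs, hy⟩, rfl⟩
    exact ⟨s, hs.1, hs.2, y, hy, rfl⟩
  · rintro ⟨s, h1, h2, y, hy, rfl⟩
    exact ⟨(s, y), ⟨⟨h1, h2⟩, hy⟩, rfl⟩

theorem estB_smul_mem {K : Set (Eu n)} (hK : Body0 K) {y : Eu n} (hy : y ∈ K) {a : ℝ}
    (h0 : 0 ≤ a) (h1 : a ≤ 1) : a • y ∈ K := by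
  have h := hK.1.2.1 (interior_subset hK.2) hy (sub_nonneg.2 h1) h0 (by ring)
  simpa using h

theorem estB_det (c : ℝ) : (c • ContinuousLinearMap.id ℝ (Eu n)).det = c ^ n := by
  unfold ContinuousLinearMap.det
  have : ((c • ContinuousLinearMap.id ℝ (Eu n) : Eu n →L[ℝ] Eu n) : Eu n →ₗ[ℝ] Eu n) =
      c • LinearMap.id := rfl
  rw [this, LinearMap.det_smul, LinearMap.det_id]
  simp

/-- The energy of an admissible function in the enlarged set. -/
theorem estB_energy (hp : 1 < p) {R : ℝ} (hR : 0 < R) {K U : Set (Eu n)} (hK : Body0 K)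
    (hKR : K ⊆ closedBall 0 R) (hU : IsCompact U) (hUK : U ⊆ K) {t η : ℝ} (ht : 0 < t)
    (ht1 : t ≤ 1) (hη : 0 ≤ η) {u : Eu n → ℝ} (hu : Adm K u) :
    η ^ p * volume.real {z | z ∈ estBShell U (1 + t / 2) (1 + t) ∧ η < 1 - u z} ≤
      (t * R) ^ p * 2 ^ n * en p u (K ∪ estBShell U 1 (1 + t)) := by
  have hp0 : 0 < p := by linarith
  have ht' : 0 < 1 + t := by linarith
  set Q := {z | z ∈ estBShell U (1 + t / 2) (1 + t) ∧ η < 1 - u z} with hQ
  have hcont : Continuous u := hu.lip0.lip.continuous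
  have hQm : MeasurableSet Q :=
    (estB_shell_compact hU _ _).measurableSet.inter
      (measurableSet_lt measurable_const (measurable_const.sub hcont.measurable))
  have hQb : Bornology.IsBounded Q := (estB_shell_compact hU _ _).isBounded.subset fun z hz => hz.1
  have hΩ : MeasurableSet (K ∪ estBShell U 1 (1 + t)) :=
    hK.1.1.measurableSet.union (estB_shell_compact hU _ _).measurableSet
  have hw : (0 : ℝ) < 2 ^ ((n : ℝ) / p) := Real.rpow_pos_of_pos two_pos _
  have hwp : ((2 : ℝ) ^ ((n : ℝ) / p)) ^ p = 2 ^ n := by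
    rw [← Real.rpow_mul (by norm_num), div_mul_cancel₀ _ hp0.ne', Real.rpow_natCast]
  have key := path_lower hp hu.lip0 ((1 + t)⁻¹ • ContinuousLinearMap.id ℝ (Eu n))
    (ContinuousLinearMap.id ℝ (Eu n)) 0 0 hQm hQb hΩ (M := t * R) (κ := η)
    (wt := fun _ => (2 : ℝ) ^ ((n : ℝ) / p)) (by positivity)
    (integrableOn_const (by simp)) (fun _ _ => hw) ?_ ?_ ?_ hη ?_
  · have hint : ∫ _s in Ioo (0 : ℝ) 1, (2 : ℝ) ^ ((n : ℝ) / p) = 2 ^ ((n : ℝ) / p) := by simp
    rw [hint, Real.mul_rpow (by positivity) hw.le, hwp] at key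
    exact key
  · intro s hs
    have e : (1 - s) • ((1 + t)⁻¹ • ContinuousLinearMap.id ℝ (Eu n)) +
        s • ContinuousLinearMap.id ℝ (Eu n) =
        ((1 - s) * (1 + t)⁻¹ + s) • ContinuousLinearMap.id ℝ (Eu n) := by
      ext1 x
      simp only [_root_.add_apply, _root_.smul_apply, ContinuousLinearMap.id_apply,
        smul_smul, _root_.add_smul]
    have hinv : (1 / 2 : ℝ) ≤ (1 + t)⁻¹ := by
      rw [one_div]
      exact inv_anti₀ ht' (by linarith only [ht1])
    have hc : (1 / 2 : ℝ) ≤ (1 - s) * (1 + t)⁻¹ + s := by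
      linarith only [hs, hinv, hs.1, hs.2, mul_le_mul_of_nonneg_left hinv (sub_nonneg.2 hs.2.le)]
    rw [e, estB_det, hwp, abs_of_nonneg (by positivity), ← mul_pow]
    exact one_le_pow₀ (by linarith only [hc])
  · intro z hz
    obtain ⟨a, ha1, ha2, y, hy, rfl⟩ := estB_mem_shell.1 hz.1
    have hyR : ‖y‖ ≤ R := by simpa using hKR (hUK hy)
    have e : (ContinuousLinearMap.id ℝ (Eu n)) (a • y) + 0 -
        (((1 + t)⁻¹ • ContinuousLinearMap.id ℝ (Eu n)) (a • y) + 0) = (a * (t / (1 + t))) • y := by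
      simp only [ContinuousLinearMap.id_apply, add_zero, _root_.smul_apply, smul_smul,
        ← sub_smul]
      congr 1
      field_simp
      ring
    have ha0 : 0 ≤ a := by linarith only [ht, ha1]
    have hb : a * (t / (1 + t)) ≤ t := by
      rw [mul_div_assoc', div_le_iff₀ ht']
      linarith only [ht, ha2, mul_nonneg_of_nonpos_of_nonpos (le_of_lt (Mathlib.Tactic.Linarith.sub_neg_of_lt ht)) (Mathlib.Tactic.Linarith.sub_nonpos_of_le ha2)]
    rw [e, norm_smul, Real.norm_of_nonneg (by positivity)]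
    exact mul_le_mul hb hyR (norm_nonneg _) ht.le
  · intro s hs z hz
    obtain ⟨a, ha1, ha2, y, hy, rfl⟩ := estB_mem_shell.1 hz.1
    have e : (1 - s) • (((1 + t)⁻¹ • ContinuousLinearMap.id ℝ (Eu n)) (a • y) + 0) +
        s • ((ContinuousLinearMap.id ℝ (Eu n)) (a • y) + 0) =
        (((1 - s) * (1 + t)⁻¹ + s) * a) • y := by
      simp only [ContinuousLinearMap.id_apply, add_zero, _root_.smul_apply, smul_smul,
        ← _root_.add_smul]
      congr 1
      ring
    have ha0 : 0 ≤ a := by linarith only [ht, ha1]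
    have hi0 : 0 < (1 + t)⁻¹ := inv_pos.2 ht'
    have hi1 : (1 + t)⁻¹ ≤ 1 := inv_le_one_of_one_le₀ (by linarith only [ht])
    have hc0 : 0 ≤ (1 - s) * (1 + t)⁻¹ + s :=
      add_nonneg (mul_nonneg (sub_nonneg.2 hs.2.le) hi0.le) hs.1.le
    have hc1 : (1 - s) * (1 + t)⁻¹ + s ≤ 1 := by
      linarith only [hi1, hs, mul_le_mul_of_nonneg_left hi1 (sub_nonneg.2 hs.2.le)]
    rw [e]
    rcases le_total (((1 - s) * (1 + t)⁻¹ + s) * a) 1 with h | h
    · exact Or.inl (estB_smul_mem hK (hUK hy) (mul_nonneg hc0 ha0) h)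
    · refine Or.inr (estB_mem_shell.2 ⟨_, h, ?_, y, hy, rfl⟩)
      linarith only [ha2, hc1, ha0, mul_le_mul_of_nonneg_right hc1 ha0]
  · intro z hz
    obtain ⟨hz1, hz2⟩ := hz
    obtain ⟨a, ha1, ha2, y, hy, rfl⟩ := estB_mem_shell.1 hz1
    have ha0 : 0 ≤ a := by linarith only [ht, ha1]
    have hmem : ((1 + t)⁻¹ • ContinuousLinearMap.id ℝ (Eu n)) (a • y) + 0 ∈ K := by
      simp only [ContinuousLinearMap.id_apply, add_zero, _root_.smul_apply, smul_smul]
      refine estB_smul_mem hK (hUK hy) (by positivity) ?_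
      rw [inv_mul_le_iff₀ ht']
      linarith only [ha2]
    rw [hu.one _ hmem]
    simp only [ContinuousLinearMap.id_apply, add_zero]
    rw [abs_sub_comm]
    exact hz2.le.trans (le_abs_self _)

/-- The gain of capacity from a radial shell. -/
theorem estB_gain (hp : 1 < p) (hn : 1 ≤ n) {R : ℝ} (hR : 0 < R) {K U : Set (Eu n)} (hK : Body0 K)
    (hKR : K ⊆ closedBall 0 R) (hU : IsCompact U) (hUK : U ⊆ frontier K) {κ t0 t : ℝ}
    (hκ : 0 < κ) (ht : 0 < t) (ht1 : t ≤ 1) (ht0 : t ≤ t0)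
    (hg : ∀ y ∈ U, ∀ a : ℝ, 0 < a → a ≤ t0 → κ * a ≤ pot p K ((1 + a) • y)) :
    cap p K + (1 - 2 ^ (1 - p)) / ((4 * R) ^ p * 2 ^ n * 2) * κ ^ p * (lamK K).real U * t ≤
      cap p (K ∪ estBShell U 1 (1 + t)) := by
  have hp0 : 0 < p := by linarith only [hp]
  have hKc : IsCompact K := hK.1.1
  have hUK' : U ⊆ K := hUK.trans hKc.isClosed.frontier_subset
  obtain ⟨u, hu⟩ := exists_minSeq (p := p) hKc.isBounded
  set K' := K ∪ estBShell U 1 (1 + t) with hK'
  set D := estBShell U (1 + t / 2) (1 + t) with hD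
  have hK'c : IsCompact K' := hKc.union (estB_shell_compact hU _ _)
  have hDc : IsCompact D := estB_shell_compact hU _ _
  set cp : ℝ := 1 - 2 ^ (1 - p) with hcp
  have hcp0 : 0 ≤ cp :=
    sub_nonneg.2 (Real.rpow_le_one_of_one_le_of_nonpos (by norm_num) (by linarith))
  set B : ℝ := κ ^ p / ((4 * R) ^ p * 2 ^ n) with hB
  have hB0 : 0 ≤ B := by positivity
  have hlow : ∀ z ∈ D, κ * t / 2 ≤ pot p K z := by
    intro z hz
    obtain ⟨a, ha1, ha2, y, hy, rfl⟩ := estB_mem_shell.1 hz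
    have h := hg y hy (a - 1) (by linarith only [ht, ha1]) (by linarith only [ht0, ha2])
    rw [add_sub_cancel] at h
    linarith only [h, hκ, ha1, mul_nonneg_of_nonpos_of_nonpos (le_of_lt (Mathlib.Tactic.Linarith.sub_neg_of_lt hκ)) (Mathlib.Tactic.Linarith.sub_nonpos_of_le ha1)]
  have hbad := (isPot_pot hp hK.1).tendsto_lt hu hDc.isBounded
    (κ := κ * t / 2) (κ' := κ * t / 4) (by linarith only [hκ, ht, mul_pos hκ ht]) hlow
  have hstep : ∀ j, 2 * cap p K - en p (u j) univ +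
      cp * (B * (volume.real D - volume.real {z | z ∈ D ∧ 1 - u j z ≤ κ * t / 4})) ≤ cap p K' := by
    intro j
    refine le_trans ?_ (cap_gain hp subset_union_left hK'c.isBounded hK'c.measurableSet (hu.1 j))
    have h1 := estB_energy hp hR hK hKR hU hUK' ht ht1 (η := κ * t / 4) (by positivity) (hu.1 j)
    have hsplit : volume.real D ≤ volume.real {z | z ∈ D ∧ κ * t / 4 < 1 - u j z} +
        volume.real {z | z ∈ D ∧ 1 - u j z ≤ κ * t / 4} := by
      refine le_trans (measureReal_mono ?_ ?_) (measureReal_union_le _ _)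
      · intro z hz
        rcases lt_or_ge (κ * t / 4) (1 - u j z) with h | h
        · exact Or.inl ⟨hz, h⟩
        · exact Or.inr ⟨hz, h⟩
      · exact ((measure_mono (union_subset (fun z hz => hz.1) fun z hz => hz.1)).trans_lt
          hDc.measure_lt_top).ne
    have htp : 0 < t ^ p := Real.rpow_pos_of_pos ht _
    have hRp : 0 < R ^ p := Real.rpow_pos_of_pos hR _
    have h4p : (0 : ℝ) < 4 ^ p := Real.rpow_pos_of_pos (by norm_num) _
    have e1 : (κ * t / 4) ^ p = κ ^ p * t ^ p / 4 ^ p := by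
      rw [Real.div_rpow (by positivity) (by norm_num), Real.mul_rpow hκ.le ht.le]
    have e2 : (t * R) ^ p = t ^ p * R ^ p := Real.mul_rpow ht.le hR.le
    have e3 : (4 * R) ^ p = 4 ^ p * R ^ p := Real.mul_rpow (by norm_num) hR.le
    have h2 : B * volume.real {z | z ∈ D ∧ κ * t / 4 < 1 - u j z} ≤ en p (u j) K' := by
      rw [e1, e2, ← hD, ← hK'] at h1
      generalize volume.real {z | z ∈ D ∧ κ * t / 4 < 1 - u j z} = V at h1 ⊢
      have hpos : 0 < t ^ p * R ^ p * 2 ^ n := by positivity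
      refine le_of_mul_le_mul_left ?_ hpos
      refine le_trans (le_of_eq ?_) h1
      rw [hB, e3]
      field_simp
    have h3 : B * (volume.real D - volume.real {z | z ∈ D ∧ 1 - u j z ≤ κ * t / 4}) ≤
        en p (u j) K' := le_trans (mul_le_mul_of_nonneg_left (by linarith only [hsplit]) hB0) h2
    have h4 := mul_le_mul_of_nonneg_left h3 hcp0
    linarith only [h4]
  have hlim : Tendsto (fun j => 2 * cap p K - en p (u j) univ +
      cp * (B * (volume.real D - volume.real {z | z ∈ D ∧ 1 - u j z ≤ κ * t / 4}))) atTop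
      (𝓝 (2 * cap p K - cap p K + cp * (B * (volume.real D - 0)))) :=
    (tendsto_const_nhds.sub hu.2).add (((tendsto_const_nhds.sub hbad).const_mul B).const_mul cp)
  have hfin := le_of_tendsto' hlim hstep
  have hvol : t / 2 * (lamK K).real U ≤ volume.real D := lamK_shell hn hK hU hUK ht.le
  have h5 := mul_le_mul_of_nonneg_left (mul_le_mul_of_nonneg_left hvol hB0) hcp0
  have e : cp / ((4 * R) ^ p * 2 ^ n * 2) * κ ^ p * (lamK K).real U * t =
      cp * (B * (t / 2 * (lamK K).real U)) := by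
    rw [hB]
    have : 0 < (4 * R) ^ p := Real.rpow_pos_of_pos (by positivity) _
    field_simp
  rw [e]
  linarith only [hfin, h5]

/-- The lower bound against a test function. -/
theorem estB_test (hp : 1 < p) {K U : Set (Eu n)} (hK : Body0 K) (hUK : U ⊆ K) {A t1 : ℝ}
    (ht1 : 0 < t1)
    (hA : ∀ t : ℝ, 0 < t → t ≤ t1 → cap p K + A * t ≤ cap p (K ∪ estBShell U 1 (1 + t)))
    {ψ : Eu n → ℝ} (hψ : ContDiff ℝ 1 ψ) (hc : HasCompactSupport ψ) (h0 : ∀ x, 0 ≤ ψ x)
    (h1 : ∀ y ∈ U, ψ y = 1) : A ≤ Lam p K (fun x => ψ x • x) := by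
  obtain ⟨M, hM⟩ := exists_fld_radial hψ hc
  have hd := (hasDerivAt_cap_flow hp hK.1.1.isBounded hM).tendsto_slope_zero_right
  have e0 : flow (fun x => ψ x • x) 0 '' K = K := by
    have : flow (fun x : Eu n => ψ x • x) 0 = id := by
      funext x
      simp [flow]
    rw [this, image_id]
  refine ge_of_tendsto hd ?_
  filter_upwards [Ioc_mem_nhdsGT ht1] with t ht
  have hsub : K ∪ estBShell U 1 (1 + t) ⊆ flow (fun x => ψ x • x) t '' K := by
    rintro z (hz | hz)
    · have := smul_mem_flow hK hψ.continuous t hz zero_le_one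
        (le_add_of_nonneg_right (mul_nonneg ht.1.le (h0 z)))
      simpa using this
    · obtain ⟨a, ha1, ha2, y, hy, rfl⟩ := estB_mem_shell.1 hz
      exact smul_mem_flow hK hψ.continuous t (hUK hy) (by linarith) (by rw [h1 y hy]; linarith)
  have hfc : Continuous (flow (fun x : Eu n => ψ x • x) t) :=
    continuous_id.add ((hψ.continuous.smul continuous_id).const_smul t)
  have h2 := (hA t ht.1 ht.2).trans (cap_mono hsub (hK.1.1.image hfc).isBounded)
  simp only [zero_add, e0, smul_eq_mul]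
  rw [le_inv_mul_iff₀ ht.1]
  linarith

/-- Test functions compute the measure of compact sets from above. -/
theorem estB_outer {τ : Measure (Eu n)} [IsFiniteMeasure τ] {U : Set (Eu n)} (hU : IsCompact U)
    {A : ℝ} (h : ∀ ψ : Eu n → ℝ, ContDiff ℝ 1 ψ → HasCompactSupport ψ → (∀ x, 0 ≤ ψ x) →
      (∀ y ∈ U, ψ y = 1) → A ≤ ∫ x, ψ x ∂τ) : A ≤ τ.real U := by
  refine le_of_forall_pos_le_add fun ε hε => ?_
  obtain ⟨O, hUO, hO, hτO⟩ := U.exists_isOpen_lt_add (μ := τ) (measure_ne_top τ U)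
    (ε := ENNReal.ofReal ε) (by simpa using hε)
  obtain ⟨C, hC, hUC, hCO⟩ := exists_compact_between hU hO hUO
  obtain ⟨f, hf1, hf0, hf⟩ := exists_contMDiffMap_one_nhds_of_subset_interior (n := 1)
    (modelWithCornersSelf ℝ (Eu n)) hU.isClosed hUC
  have hfd : ContDiff ℝ 1 f := f.contMDiff.contDiff
  have hfc : HasCompactSupport f := HasCompactSupport.intro hC hf0
  have h1 := h f hfd hfc (fun x => (hf x).1) fun y hy => (hf1.self_of_nhdsSet y hy)
  have h2 : ∫ x, f x ∂τ ≤ ∫ x, C.indicator (fun _ => (1 : ℝ)) x ∂τ := by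
    refine integral_mono (hfd.continuous.integrable_of_hasCompactSupport hfc)
      ((integrable_const 1).indicator hC.measurableSet) fun x => ?_
    by_cases hx : x ∈ C
    · simpa [hx] using (hf x).2
    · simp [hx, hf0 x hx]
  rw [integral_indicator_const _ hC.measurableSet, smul_eq_mul, mul_one] at h2
  have h3 : τ.real C ≤ τ.real U + ε := by
    have h4 : τ C ≤ τ U + ENNReal.ofReal ε := (measure_mono hCO).trans hτO.le
    have h5 := ENNReal.toReal_mono
      (ENNReal.add_ne_top.2 ⟨measure_ne_top τ U, ENNReal.ofReal_ne_top⟩) h4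
    rwa [ENNReal.toReal_add (measure_ne_top τ U) ENNReal.ofReal_ne_top,
      ENNReal.toReal_ofReal hε.le] at h5
  linarith

/-- Linear growth gives a lower bound for `τ`. -/
theorem tau_lower (hp : 1 < p) (hpn : p < n) {R : ℝ} (hR : 0 < R) : ∃ c : ℝ, 0 < c ∧
    ∀ (K : Set (Eu n)) (τ : Measure (Eu n)) (U : Set (Eu n)) (κ t0 : ℝ), Body0 K →
      K ⊆ closedBall 0 R → IsTau p K τ → IsCompact U → U ⊆ frontier K → 0 ≤ κ → 0 < t0 →
      (∀ y ∈ U, ∀ a : ℝ, 0 < a → a ≤ t0 → κ * a ≤ pot p K ((1 + a) • y)) →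
      c * κ ^ p * (lamK K).real U ≤ τ.real U := by
  have hp0 : 0 < p := by linarith
  have hn : 1 ≤ n := by
    have : (1 : ℝ) < n := hp.trans hpn
    exact_mod_cast this.le
  have hcp : (0 : ℝ) < 1 - 2 ^ (1 - p) :=
    sub_pos.2 (Real.rpow_lt_one_of_one_lt_of_neg (by norm_num) (by linarith only [hp]))
  refine ⟨(1 - 2 ^ (1 - p)) / ((4 * R) ^ p * 2 ^ n * 2), by positivity, ?_⟩
  intro K τ U κ t0 hK hKR hτ hU hUK hκ ht0 hg
  rcases hκ.eq_or_lt with rfl | hκ
  · rw [Real.zero_rpow hp0.ne', mul_zero, zero_mul]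
    exact measureReal_nonneg
  have := hτ.fin
  refine estB_outer hU fun ψ hψ hc h0 h1 => ?_
  rw [← hτ.rep ψ hψ hc]
  refine estB_test hp hK (hUK.trans hK.1.1.isClosed.frontier_subset) (lt_min ht0 one_pos)
    (fun t ht ht' => ?_) hψ hc h0 h1
  exact estB_gain hp hn hR hK hKR hU hUK hκ ht (ht'.trans (min_le_right _ _))
    (ht'.trans (min_le_left _ _)) hg

end Pool.Agent.Work.MP_f7e2e5_gt
end
end

-- merged part: Pool.Agent.Work.MP_f7e2e5_gt.Est
section
open MeasureTheory Set Metric Filter Topology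
open scoped RealInnerProductSpace Pointwise ContDiff NNReal

noncomputable section

namespace Pool.Agent.Work.MP_f7e2e5_gt

variable {n : ℕ} {p : ℝ}

theorem Est_one_le (hp : 1 < p) (hpn : p < n) : 1 ≤ n := by
  have : (1 : ℝ) < n := hp.trans hpn
  exact_mod_cast this.le

/-- An inequality for all compact subsets passes to measurable sets. -/
theorem Est_inner {μ ν : Measure (Eu n)} [IsFiniteMeasure μ] [IsFiniteMeasure ν] {A : Set (Eu n)}
    (hA : MeasurableSet A) {c : ℝ} (hc : 0 ≤ c)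
    (h : ∀ U ⊆ A, IsCompact U → c * μ.real U ≤ ν.real U) : c * μ.real A ≤ ν.real A := by
  refine le_of_forall_pos_le_add fun ε hε => ?_
  have hδ : 0 < ε / (c + 1) := by positivity
  obtain ⟨U, hUA, hU, hlt⟩ := hA.exists_isCompact_lt_add (μ := μ) (measure_ne_top _ _)
    (ε := ENNReal.ofReal (ε / (c + 1))) (by simpa using hδ)
  have h1 : μ.real A ≤ μ.real U + ε / (c + 1) := by
    have := ENNReal.toReal_mono (by finiteness) hlt.le
    rwa [ENNReal.toReal_add (measure_ne_top _ _) ENNReal.ofReal_ne_top,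
      ENNReal.toReal_ofReal hδ.le] at this
  have h2 : ν.real U ≤ ν.real A := measureReal_mono hUA
  have h3 : c * (ε / (c + 1)) ≤ ε := by
    rw [mul_div_assoc', div_le_iff₀ (by positivity)]
    linarith only [hε]
  have h4 := mul_le_mul_of_nonneg_left h1 hc
  have h5 := h U hUA hU
  rw [mul_add] at h4
  linarith only [h2, h3, h4, h5]

/-- Lower bound for the regular part of `τ` on small balls. -/
theorem Est_lower (hp : 1 < p) (hpn : p < n) {K : Set (Eu n)} (hK : Body0 K)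
    {τ : Measure (Eu n)} (hτ : IsTau p K τ) {ρ R : ℝ} (hρ : 0 < ρ) (hρR : ρ ≤ R)
    (h1 : closedBall 0 ρ ⊆ K) (h2 : K ⊆ closedBall 0 R) : ∃ c : ℝ, 0 < c ∧
      ∀ x ∈ frontier K, ∀ r : ℝ, 0 < r → r ≤ ρ / 8 → ∀ z ∈ ball x (4 * r),
        c * r ^ (n - 1) * (pot p K z / r) ^ p ≤ τ.real (closedBall x r ∩ Reg K) := by
  have hR : 0 < R := hρ.trans_le hρR
  obtain ⟨c1, hc1, H1⟩ := pot_growth hp hpn hρ hρR
  obtain ⟨c2, hc2, H2⟩ := tau_lower hp hpn hR
  obtain ⟨c3, hc3, H3⟩ := lamK_ball (R := R) (Est_one_le hp hpn) hρ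
  refine ⟨c2 * c1 ^ p * c3, by positivity, fun x hx r hr hr' z hz => ?_⟩
  have := hτ.fin
  have := lamK_finite hK
  have hW : 0 ≤ pot p K z := (isPot_pot hp hK.1).nonneg z
  have hm : MeasurableSet (closedBall x r ∩ Reg K) :=
    measurableSet_closedBall.inter (measurableSet_reg K)
  have k1 : c2 * (c1 * (pot p K z / r)) ^ p * (lamK K).real (closedBall x r ∩ Reg K) ≤
      τ.real (closedBall x r ∩ Reg K) := by
    refine Est_inner hm (by positivity) fun U hU hUc => ?_
    refine H2 K τ U _ (r * ρ / R ^ 2) hK h2 hτ hUc (fun y hy => (hU hy).2.1) (by positivity)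
      (by positivity) fun y hy a ha ha' => ?_
    have := H1 K hK h1 h2 x hx r hr hr' z hz y (hU hy).2.1 (hU hy).1 a ha ha'
    convert this using 1
    ring
  have k2 : (lamK K).real (closedBall x r ∩ frontier K) ≤
      (lamK K).real (closedBall x r ∩ Reg K) := by
    refine ENNReal.toReal_mono (measure_ne_top _ _) ?_
    calc lamK K (closedBall x r ∩ frontier K)
        ≤ lamK K ((closedBall x r ∩ Reg K) ∪ (frontier K \ Reg K)) := by
          refine measure_mono fun y hy => ?_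
          by_cases e : y ∈ Reg K
          · exact Or.inl ⟨hy.1, e⟩
          · exact Or.inr ⟨hy.2, e⟩
      _ ≤ _ := measure_union_le _ _
      _ = _ := by rw [lamK_sing hK, add_zero]
  have k3 := (H3 K hK h1 h2 x hx r hr (by linarith only [hr, hr'])).trans k2
  refine le_trans ?_ k1
  rw [Real.mul_rpow hc1.le (by positivity)]
  calc c2 * c1 ^ p * c3 * r ^ (n - 1) * (pot p K z / r) ^ p
      = c2 * (c1 ^ p * (pot p K z / r) ^ p) * (c3 * r ^ (n - 1)) := by ring
    _ ≤ _ := mul_le_mul_of_nonneg_left k3 (by positivity)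

/-- Upper bound for `τ` on small balls. -/
theorem Est_upper (hp : 1 < p) (hpn : p < n) {K : Set (Eu n)} (hK : Body0 K)
    {τ : Measure (Eu n)} (hτ : IsTau p K τ) {R : ℝ} (h2 : K ⊆ closedBall 0 R) :
    ∃ C : ℝ, 0 ≤ C ∧ ∀ x ∈ frontier K, ∀ r m : ℝ, 0 < r → r ≤ R → 0 ≤ m →
      (∀ z ∈ ball x (4 * r), pot p K z ≤ m) →
        τ.real (closedBall x r) ≤ C * r ^ (n - 1) * (m / r) ^ p := by
  obtain ⟨C, hC, H⟩ := tau_upper (n := n) hp R
  obtain ⟨u, hu⟩ := exists_minSeq (p := p) hK.1.1.isBounded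
  refine ⟨C * 3 ^ n * volume.real (ball (0 : Eu n) 1), by positivity,
    fun x hx r m hr hr' hm h => ?_⟩
  have hxK : x ∈ K := hK.1.1.isClosed.frontier_subset hx
  have hv : volume.real (ball x (3 * r)) = (3 * r) ^ n * volume.real (ball (0 : Eu n) 1) := by
    rw [measureReal_def, Measure.addHaar_ball_of_pos _ _ (by positivity : 0 < 3 * r),
      ENNReal.toReal_mul, ENNReal.toReal_ofReal (by positivity), finrank_euclideanSpace_fin]
    rfl
  have := H K τ x r _ hK hτ (by simpa using h2 hxK) hr hr'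
    ⟨u, hu, fun ε hε => caccioppoli hp hK.1 hu x hr hm h hε⟩
  refine this.trans (le_of_eq ?_)
  obtain ⟨k, rfl⟩ := Nat.exists_eq_add_of_le' (Est_one_le hp hpn)
  rw [hv, Nat.add_sub_cancel, mul_pow, pow_succ r]
  field_simp

/-- The regular part carries a fixed proportion of `τ` on small balls. -/
theorem Est_key (hp : 1 < p) (hpn : p < n) {K : Set (Eu n)} (hK : Body0 K)
    {τ : Measure (Eu n)} (hτ : IsTau p K τ) : ∃ C r0 : ℝ, 0 ≤ C ∧ 0 < r0 ∧
      ∀ x ∈ frontier K, ∀ r : ℝ, 0 < r → r ≤ r0 → 0 < τ.real (closedBall x r ∩ Reg K) ∧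
        τ.real (closedBall x r) ≤ C * τ.real (closedBall x r ∩ Reg K) := by
  obtain ⟨ρ, R, hρ, hρR, h1, h2⟩ := hK.exists_radii
  obtain ⟨c, hc, H1⟩ := Est_lower hp hpn hK hτ hρ hρR h1 h2
  obtain ⟨C, hC, H2⟩ := Est_upper hp hpn hK hτ h2
  have hp0 : 0 < p := by linarith
  refine ⟨C / c, ρ / 8, by positivity, by positivity, fun x hx r hr hr' => ⟨?_, ?_⟩⟩
  · have hx' : x ∈ closure Kᶜ := by
      rw [frontier_eq_closure_inter_closure] at hx
      exact hx.2
    obtain ⟨z, hz, hd⟩ := Metric.mem_closure_iff.1 hx' (4 * r) (by positivity)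
    have := pot_pos hp hpn hK.1 hz
    exact lt_of_lt_of_le (by positivity) (H1 x hx r hr hr' z (mem_ball'.2 hd))
  · set T := τ.real (closedBall x r ∩ Reg K) with hT
    have hT0 : 0 ≤ T := measureReal_nonneg
    have hcr : 0 < c * r ^ (n - 1) := by positivity
    have := H2 x hx r (r * (T / (c * r ^ (n - 1))) ^ p⁻¹) hr (by linarith only [hρR, hr, hr']) (by positivity)
      fun z hz => by
        have hW : 0 ≤ pot p K z := (isPot_pot hp hK.1).nonneg z
        rw [← div_le_iff₀' hr, Real.le_rpow_inv_iff_of_pos (by positivity) (by positivity) hp0,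
          le_div_iff₀' hcr]
        exact H1 x hx r hr hr' z hz
    refine this.trans (le_of_eq ?_)
    rw [mul_div_cancel_left₀ _ hr.ne', Real.rpow_inv_rpow (by positivity) hp0.ne']
    field_simp

theorem tau_ae_reg (hp : 1 < p) (hpn : p < n) {K : Set (Eu n)} (hK : Body0 K)
    {τ : Measure (Eu n)} (hτ : IsTau p K τ) : ∀ᵐ y ∂τ, y ∈ Reg K := by
  obtain ⟨C, r0, hC, hr0, H⟩ := Est_key hp hpn hK hτ
  have := hτ.fin
  have hf : ∀ᵐ y ∂τ, y ∈ frontier K := hτ.conc
  filter_upwards [Besicovitch.ae_tendsto_measure_inter_div_of_measurableSet τ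
    (measurableSet_reg K), hf] with y hy hyf
  by_contra hn
  rw [indicator_of_notMem hn] at hy
  have h1 : Tendsto (fun r => τ.real (Reg K ∩ closedBall y r) / τ.real (closedBall y r))
      (𝓝[>] 0) (𝓝 0) := by
    have := (ENNReal.tendsto_toReal ENNReal.zero_ne_top).comp hy
    simpa only [Function.comp_def, ENNReal.toReal_div, ENNReal.toReal_zero, measureReal_def]
      using this
  have h2 : ∀ᶠ r in 𝓝[>] (0 : ℝ),
      1 / (C + 1) ≤ τ.real (Reg K ∩ closedBall y r) / τ.real (closedBall y r) := by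
    filter_upwards [Ioc_mem_nhdsGT hr0] with r hr
    obtain ⟨k1, k2⟩ := H y hyf r hr.1 hr.2
    have k3 : 0 < τ.real (closedBall y r) := k1.trans_le (measureReal_mono inter_subset_left)
    rw [div_le_div_iff₀ (by positivity) k3, inter_comm]
    linarith only [k1, k2]
  have := ge_of_tendsto h1 h2
  have : 0 < 1 / (C + 1) := by positivity
  linarith

theorem tau_pos (hp : 1 < p) (hpn : p < n) {K : Set (Eu n)} (hK : Body0 K)
    {τ : Measure (Eu n)} (hτ : IsTau p K τ) {y : Eu n} (hy : y ∈ frontier K) {r : ℝ} (hr : 0 < r) :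
    τ (ball y r) ≠ 0 := by
  obtain ⟨C, r0, hC, hr0, H⟩ := Est_key hp hpn hK hτ
  intro h0
  have h1 := (H y hy (min (r / 2) r0) (by positivity) (min_le_right _ _)).1
  have h2 : τ (closedBall y (min (r / 2) r0) ∩ Reg K) = 0 :=
    measure_mono_null (inter_subset_left.trans
      (closedBall_subset_ball ((min_le_left _ _).trans_lt (by linarith only [hr])))) h0
  rw [measureReal_def, h2] at h1
  simp at h1

end Pool.Agent.Work.MP_f7e2e5_gt
end
end

-- merged part: Pool.Agent.Work.MP_f7e2e5_gt.HadaA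
section
open MeasureTheory Set Metric Filter Topology
open scoped RealInnerProductSpace Pointwise ContDiff NNReal

noncomputable section

namespace Pool.Agent.Work.MP_f7e2e5_gt

variable {n : ℕ} {p : ℝ}

theorem hadaA_supp {Ω : Set (Eu n)} {f : Eu n → ℝ} (hK : Body0 (wulff Ω f)) {y ξ : Eu n}
    (hy : y ∈ frontier (wulff Ω f)) (hξ : ξ ∈ Ω) (h : ⟪y, ξ⟫ = f ξ) :
    supp (wulff Ω f) ξ = f ξ := by
  have hy' : y ∈ wulff Ω f := hK.1.1.isClosed.frontier_subset hy
  exact le_antisymm (supp_le ⟨y, hy'⟩ fun z hz => hz ξ hξ) (h ▸ le_supp hK.1.1 hy' ξ)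

theorem wulff_reg {Ω : Set (Eu n)} (hΩ : IsCompact Ω) (hu : ∀ ξ ∈ Ω, ‖ξ‖ = 1) {f : Eu n → ℝ}
    (hf : ContinuousOn f Ω) (hK : Body0 (wulff Ω f)) {y : Eu n} (hy : y ∈ Reg (wulff Ω f)) :
    nrm (wulff Ω f) y ∈ Ω ∧ supp (wulff Ω f) (nrm (wulff Ω f) y) = f (nrm (wulff Ω f) y) := by
  obtain ⟨ξ, h1, h2⟩ := wulff_active hΩ hf hy.1
  have h3 := hadaA_supp hK hy.1 h1 h2
  have h4 := (reg_normal hK hy).2.2 ξ (hu ξ h1) (h2.trans h3.symm)
  rw [← h4]
  exact ⟨h1, h3⟩

theorem hadaA_pos {Ω : Set (Eu n)} (hu : ∀ ξ ∈ Ω, ‖ξ‖ = 1) {f : Eu n → ℝ}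
    (hK : Body0 (wulff Ω f)) {ξ : Eu n} (hξ : ξ ∈ Ω) : 0 < f ξ := by
  obtain ⟨ρ, R, h1, -, h2, -⟩ := hK.exists_radii
  have h3 : ρ • ξ ∈ wulff Ω f := h2 (by
    rw [mem_closedBall_zero_iff, norm_smul, hu ξ hξ, mul_one, Real.norm_of_nonneg h1.le])
  have h4 := h3 ξ hξ
  rw [real_inner_smul_left, real_inner_self_eq_norm_sq, hu ξ hξ] at h4
  linarith

theorem hadaA_gap {X : Type} [TopologicalSpace X] [T2Space X] {C : Set X} (hC : IsCompact C)
    {G H : X → ℝ} (hG : ContinuousOn G C) (hH : ContinuousOn H C) (h0 : ∀ q ∈ C, 0 ≤ G q)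
    (h1 : ∀ q ∈ C, G q = 0 → H q < 0) :
    ∃ t0 : ℝ, 0 < t0 ∧ ∀ t, 0 ≤ t → t ≤ t0 → ∀ q ∈ C, t * H q ≤ G q := by
  have hS : IsCompact (C ∩ H ⁻¹' Ici 0) :=
    hC.of_isClosed_subset (hH.preimage_isClosed_of_isClosed hC.isClosed isClosed_Ici)
      inter_subset_left
  obtain ⟨η, h2, h3⟩ := hS.exists_forall_le' (hG.mono inter_subset_left) (a := 0)
    fun q hq => lt_of_le_of_ne (h0 q hq.1) fun e => absurd (h1 q hq.1 e.symm) (not_lt.2 hq.2)
  obtain ⟨B, hB⟩ := hC.exists_bound_of_continuousOn hH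
  have hB' : 0 < |B| + 1 := by positivity
  refine ⟨η / (|B| + 1), div_pos h2 hB', fun t ht ht' q hq => ?_⟩
  by_cases h : 0 ≤ H q
  · have h4 : H q ≤ |B| + 1 := by
      have := hB q hq
      rw [Real.norm_eq_abs] at this
      linarith only [this, le_abs_self B, le_abs_self (H q)]
    rw [le_div_iff₀ hB'] at ht'
    exact ((mul_le_mul_of_nonneg_left h4 ht).trans ht').trans (h3 q ⟨hq, h⟩)
  · exact (mul_nonpos_of_nonneg_of_nonpos ht (not_le.1 h).le).trans (h0 q hq)

theorem hadaA_sandwich {Φ : ℝ → ℝ} {I : ℝ}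
    (h1 : ∀ ε > 0, ∃ φ : ℝ → ℝ, ∃ a, HasDerivAt φ a 0 ∧ φ 0 = Φ 0 ∧ a ≤ I + ε ∧
      ∀ᶠ t in 𝓝[Ici 0] (0 : ℝ), Φ t ≤ φ t)
    (h2 : ∀ ε > 0, ∃ φ : ℝ → ℝ, ∃ a, HasDerivAt φ a 0 ∧ φ 0 = Φ 0 ∧ I - ε ≤ a ∧
      ∀ᶠ t in 𝓝[Ici 0] (0 : ℝ), φ t ≤ Φ t) : HasDerivWithinAt Φ I (Ici 0) 0 := by
  rw [hasDerivWithinAt_iff_isLittleO, Asymptotics.isLittleO_iff]
  intro c hc
  obtain ⟨φ, a, k1, k2, k3, k4⟩ := h1 (c / 2) (by positivity)
  obtain ⟨φ', a', l1, l2, l3, l4⟩ := h2 (c / 2) (by positivity)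
  have m1 := Asymptotics.isLittleO_iff.1
    (hasDerivWithinAt_iff_isLittleO.1 (k1.hasDerivWithinAt (s := Ici 0))) (half_pos hc)
  have m2 := Asymptotics.isLittleO_iff.1
    (hasDerivWithinAt_iff_isLittleO.1 (l1.hasDerivWithinAt (s := Ici 0))) (half_pos hc)
  filter_upwards [k4, l4, m1, m2, self_mem_nhdsWithin] with t a1 a2 a3 a4 ht
  have ht' : (0 : ℝ) ≤ t := ht
  simp only [sub_zero, smul_eq_mul, Real.norm_eq_abs, abs_of_nonneg ht', abs_le] at a3 a4 ⊢
  constructor <;> linarith only [l2, a2, a4, l3, ht', k2, a1, a3, k3, a3.2, a4.1, mul_nonneg_of_nonpos_of_nonpos (Mathlib.Tactic.Linarith.sub_nonpos_of_le l3) (Mathlib.Tactic.Linarith.sub_nonpos_of_le ht'), mul_nonneg_of_nonpos_of_nonpos (Mathlib.Tactic.Linarith.sub_nonpos_of_le k3) (Mathlib.Tactic.Linarith.sub_nonpos_of_le ht')]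

theorem hadaA_flow (hp : 1 < p) {K : Set (Eu n)} (hK : Body0 K) {τ : Measure (Eu n)}
    (hτ : IsTau p K τ) {ψ : Eu n → ℝ} (hψ : ContDiff ℝ 1 ψ) (hc : HasCompactSupport ψ) :
    HasDerivAt (fun t => cap p (flow (fun x => ψ x • x) t '' K)) (∫ x, ψ x ∂τ) 0 := by
  obtain ⟨M, hM⟩ := exists_fld_radial hψ hc
  rw [← hτ.rep ψ hψ hc]
  exact hasDerivAt_cap_flow hp hK.1.1.isBounded hM

theorem hadaA_flow_zero (X : Eu n → Eu n) (K : Set (Eu n)) : flow X 0 '' K = K := by
  have : flow X 0 = id := by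
    funext x
    simp [flow]
  rw [this, image_id]

theorem hadaA_upper {Ω : Set (Eu n)} (hΩ : IsCompact Ω) (hu : ∀ ξ ∈ Ω, ‖ξ‖ = 1)
    {f g : Eu n → ℝ} (hf : ContinuousOn f Ω) (hK : Body0 (wulff Ω f)) {ψ : Eu n → ℝ}
    (hψ : Continuous ψ)
    (h : ∀ y ∈ frontier (wulff Ω f), ∀ ξ ∈ Ω, ⟪y, ξ⟫ = f ξ → g ξ / f ξ < ψ y) {t : ℝ}
    (ht : 0 ≤ t) :
    wulff Ω (fun ξ => f ξ + t * g ξ) ⊆ flow (fun x => ψ x • x) t '' wulff Ω f := by
  intro z hz
  by_cases h0 : z = 0
  · exact ⟨0, interior_subset hK.2, by simp [flow, h0]⟩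
  obtain ⟨y, h1, a, h2, rfl, -⟩ := exists_ray hK h0
  obtain ⟨ξ, h3, h4⟩ := wulff_active hΩ hf h1
  have h5 := hadaA_pos hu hK h3
  have h6 := h y h1 ξ h3 h4
  have h7 : ⟪a • y, ξ⟫ ≤ f ξ + t * g ξ := hz ξ h3
  rw [real_inner_smul_left, h4] at h7
  rw [div_lt_iff₀ h5] at h6
  refine smul_mem_flow hK hψ t (hK.1.1.isClosed.frontier_subset h1) h2.le ?_
  refine le_of_mul_le_mul_right ?_ h5
  linarith only [h7, h6, ht, mul_le_mul_of_nonneg_left h6.le ht]

theorem hadaA_lower {Ω : Set (Eu n)} (hΩ : IsCompact Ω) (hu : ∀ ξ ∈ Ω, ‖ξ‖ = 1)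
    {f g : Eu n → ℝ} (hf : ContinuousOn f Ω) (hg : ContinuousOn g Ω) (hK : Body0 (wulff Ω f))
    {ψ : Eu n → ℝ} (hψ : ContDiff ℝ 1 ψ) (hc : HasCompactSupport ψ)
    (h : ∀ y ∈ frontier (wulff Ω f), ∀ ξ ∈ Ω, ⟪y, ξ⟫ = f ξ → ψ y < g ξ / f ξ) :
    ∃ t0 : ℝ, 0 < t0 ∧ ∀ t, 0 ≤ t → t ≤ t0 →
      Bornology.IsBounded (wulff Ω (fun ξ => f ξ + t * g ξ)) ∧
      flow (fun x => ψ x • x) t '' wulff Ω f ⊆ wulff Ω (fun ξ => f ξ + t * g ξ) := by
  have hfr : frontier (wulff Ω f) ⊆ wulff Ω f := hK.1.1.isClosed.frontier_subset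
  have hC : IsCompact (frontier (wulff Ω f) ×ˢ Ω) :=
    (hK.1.1.of_isClosed_subset isClosed_frontier hfr).prod hΩ
  have hi : Continuous fun q : Eu n × Eu n => ⟪q.1, q.2⟫ := continuous_fst.inner continuous_snd
  obtain ⟨t1, h1, h2⟩ := hadaA_gap hC (G := fun q => f q.2 - ⟪q.1, q.2⟫)
    (H := fun q => ψ q.1 * ⟪q.1, q.2⟫ - g q.2)
    ((hf.comp continuousOn_snd fun q hq => hq.2).sub hi.continuousOn)
    ((((hψ.continuous.comp continuous_fst).mul hi).continuousOn).sub
      (hg.comp continuousOn_snd fun q hq => hq.2))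
    (fun q hq => sub_nonneg.2 (hfr hq.1 q.2 hq.2)) (fun q hq e => by
      have e' : ⟪q.1, q.2⟫ = f q.2 := by linarith
      have := h q.1 hq.1 q.2 hq.2 e'
      rw [lt_div_iff₀ (hadaA_pos hu hK hq.2)] at this
      rw [e']
      linarith)
  obtain ⟨t2, h3, h4⟩ := flow_subset hK hψ hc
  obtain ⟨C, t3, -, h5, -, h6⟩ := wulff_perturb hΩ hu hf hg hK
  refine ⟨min t1 (min t2 t3), by positivity, fun t ht ht' => ?_⟩
  simp only [le_min_iff] at ht'
  have h7 := (h6 t (by rw [abs_of_nonneg ht]; exact ht'.2.2)).1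
  refine ⟨h7.1.1.isBounded, fun z hz => ?_⟩
  have h8 : (0 : Eu n) ∈ wulff Ω (fun ξ => f ξ + t * g ξ) := interior_subset h7.2
  rcases h4 t (by rw [abs_of_nonneg ht]; exact ht'.2.1) z hz with rfl | ⟨y, k1, a, k2, k3, rfl⟩
  · exact h8
  intro ξ hξ
  have k4 : ⟪(0 : Eu n), ξ⟫ ≤ f ξ + t * g ξ := h8 ξ hξ
  have k5 : t * (ψ y * ⟪y, ξ⟫ - g ξ) ≤ f ξ - ⟪y, ξ⟫ := h2 t ht ht'.1 (y, ξ) ⟨k1, hξ⟩
  rw [inner_zero_left] at k4
  show ⟪a • y, ξ⟫ ≤ f ξ + t * g ξ
  rw [real_inner_smul_left]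
  rcases le_total ⟪y, ξ⟫ 0 with k6 | k6
  · exact (mul_nonpos_of_nonneg_of_nonpos k2 k6).trans k4
  · linarith only [k5, k3, k6, mul_le_mul_of_nonneg_right k3 k6]

theorem hadaA_small {t0 : ℝ} (h : 0 < t0) : ∀ᶠ t in 𝓝[Ici 0] (0 : ℝ), 0 ≤ t ∧ t ≤ t0 := by
  filter_upwards [self_mem_nhdsWithin, mem_nhdsWithin_of_mem_nhds (Iic_mem_nhds h)] with t h1 h2
  exact ⟨h1, h2⟩

/-- Hadamard variational formula for Wulff shapes. -/
theorem hadamard (hp : 1 < p) (hpn : p < n) {Ω : Set (Eu n)} (hΩ : IsCompact Ω)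
    (hu : ∀ ξ ∈ Ω, ‖ξ‖ = 1) {f g : Eu n → ℝ} (hf : ContinuousOn f Ω) (hg : ContinuousOn g Ω)
    (hgm : Measurable g) (hK : Body0 (wulff Ω f)) {τ : Measure (Eu n)}
    (hτ : IsTau p (wulff Ω f) τ) :
    HasDerivWithinAt (fun t : ℝ => cap p (wulff Ω (fun ξ => f ξ + t * g ξ)))
      (∫ y, g (nrm (wulff Ω f) y) / supp (wulff Ω f) (nrm (wulff Ω f) y) ∂τ) (Ici 0) 0 := by
  haveI := hτ.fin
  have hfr : frontier (wulff Ω f) ⊆ wulff Ω f := hK.1.1.isClosed.frontier_subset
  have hC : IsCompact (frontier (wulff Ω f) ×ˢ Ω) :=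
    (hK.1.1.of_isClosed_subset isClosed_frontier hfr).prod hΩ
  have hi : Continuous fun q : Eu n × Eu n => ⟪q.1, q.2⟫ := continuous_fst.inner continuous_snd
  obtain ⟨Γ, hΓ, hm⟩ : ∃ Γ : Set (Eu n × Eu n), IsCompact Γ ∧ ∀ q, q ∈ Γ ↔
      q.1 ∈ frontier (wulff Ω f) ∧ q.2 ∈ Ω ∧ ⟪q.1, q.2⟫ = f q.2 := by
    refine ⟨frontier (wulff Ω f) ×ˢ Ω ∩ (fun q => ⟪q.1, q.2⟫ - f q.2) ⁻¹' {0},
      hC.of_isClosed_subset ((hi.continuousOn.sub (hf.comp continuousOn_snd fun q hq =>
        hq.2)).preimage_isClosed_of_isClosed hC.isClosed isClosed_singleton) inter_subset_left,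
      fun q => ?_⟩
    simp only [mem_inter_iff, mem_prod, mem_preimage, mem_singleton_iff, sub_eq_zero, and_assoc]
  have hF : ContinuousOn (fun q : Eu n × Eu n => g q.2 / f q.2) Γ :=
    (hg.comp continuousOn_snd fun q hq => ((hm q).1 hq).2.1).div
      (hf.comp continuousOn_snd fun q hq => ((hm q).1 hq).2.1)
      fun q hq => (hadaA_pos hu hK ((hm q).1 hq).2.1).ne'
  have hreg := tau_ae_reg hp hpn hK hτ
  have hα : ∀ᵐ y ∂τ, (y, nrm (wulff Ω f) y) ∈ Γ ∧ ∀ ξ, (y, ξ) ∈ Γ → ξ = nrm (wulff Ω f) y := by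
    filter_upwards [hreg] with y hy
    obtain ⟨h1, h2⟩ := wulff_reg hΩ hu hf hK hy
    obtain ⟨-, h3, h4⟩ := reg_normal hK hy
    refine ⟨(hm _).2 ⟨hy.1, h1, h3.trans h2⟩, fun ξ hξ => ?_⟩
    obtain ⟨-, h5, h6⟩ := (hm _).1 hξ
    exact h4 ξ (hu ξ h5) (h6.trans (hadaA_supp hK hy.1 h5 h6).symm)
  have hae : (fun y => g (nrm (wulff Ω f) y) / supp (wulff Ω f) (nrm (wulff Ω f) y)) =ᵐ[τ]
      fun y => g (nrm (wulff Ω f) y) / f (nrm (wulff Ω f) y) := by
    filter_upwards [hreg] with y hy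
    rw [(wulff_reg hΩ hu hf hK hy).2]
  have hint : Integrable (fun y => g (nrm (wulff Ω f) y) / f (nrm (wulff Ω f) y)) τ := by
    obtain ⟨B, hB⟩ := hΓ.exists_bound_of_continuousOn hF
    refine Integrable.of_bound (AEStronglyMeasurable.congr ?_ hae) B ?_
    · exact ((hgm.comp (measurable_nrm _)).div ((continuous_supp hK.1.1).measurable.comp
        (measurable_nrm _))).aestronglyMeasurable
    · filter_upwards [hα] with y hy
      exact hB _ hy.1
  rw [integral_congr_ae hae]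
  have h00 : ∀ X : Eu n → Eu n, cap p (flow X 0 '' wulff Ω f) =
      cap p (wulff Ω fun ξ => f ξ + 0 * g ξ) := fun X => by
    simp only [hadaA_flow_zero, zero_mul, add_zero]
  refine hadaA_sandwich (fun ε hε => ?_) fun ε hε => ?_
  · obtain ⟨ψ, h1, h2, h3, h4⟩ := envelope hΓ hF τ hα hint hε
    refine ⟨_, _, hadaA_flow hp hK hτ h1 h2, h00 _, h4, ?_⟩
    filter_upwards [self_mem_nhdsWithin] with t ht
    refine cap_mono (hadaA_upper hΩ hu hf hK h1.continuous
      (fun y k1 ξ k2 k3 => h3 (y, ξ) ((hm _).2 ⟨k1, k2, k3⟩)) ht) ?_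
    refine (hK.1.1.image ?_).isBounded
    exact continuous_id.add ((h1.continuous.smul continuous_id).const_smul t)
  · obtain ⟨ψ, h1, h2, h3, h4⟩ := envelope hΓ hF.neg τ hα hint.neg hε
    have h5 : ContDiff ℝ 1 fun x => -ψ x := h1.neg
    have h6 : HasCompactSupport fun x => -ψ x := h2.neg
    refine ⟨_, _, hadaA_flow hp hK hτ h5 h6, h00 _, ?_, ?_⟩
    · simp only [Pi.neg_apply, integral_neg] at h4 ⊢
      linarith only [h4]
    · obtain ⟨t0, k1, k2⟩ := hadaA_lower hΩ hu hf hg hK h5 h6 fun y k1 ξ k2 k3 => by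
        have := h3 (y, ξ) ((hm _).2 ⟨k1, k2, k3⟩)
        simp only [Pi.neg_apply] at this
        linarith only [this]
      filter_upwards [hadaA_small k1] with t ht
      exact cap_mono (k2 t ht.1 ht.2).2 (k2 t ht.1 ht.2).1

end Pool.Agent.Work.MP_f7e2e5_gt
end
end

-- merged part: Pool.Agent.Work.MP_f7e2e5_gt.Hada
section
open MeasureTheory Set Metric Filter Topology
open scoped RealInnerProductSpace Pointwise ContDiff NNReal

noncomputable section

namespace Pool.Agent.Work.MP_f7e2e5_gt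

variable {n : ℕ} {p : ℝ}

theorem hada_deriv_le {f g : ℝ → ℝ} {a b t0 : ℝ} (hf : HasDerivAt f a 0) (hg : HasDerivAt g b 0)
    (h0 : f 0 = g 0) (ht : 0 < t0) (h : ∀ t, 0 < t → t ≤ t0 → f t ≤ g t) : a ≤ b := by
  refine le_of_tendsto_of_tendsto hf.tendsto_slope_zero_right hg.tendsto_slope_zero_right ?_
  filter_upwards [self_mem_nhdsWithin, mem_nhdsWithin_of_mem_nhds (Iic_mem_nhds ht)] with t h1 h2
  have h3 : (0 : ℝ) < t := h1
  simp only [zero_add, smul_eq_mul, h0]
  exact mul_le_mul_of_nonneg_left (sub_le_sub_right (h t h3 h2) _) (inv_nonneg.2 h3.le)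

/-- the active normals -/
def hadaG (K : Set (Eu n)) : Set (Eu n × Eu n) :=
  {q | q.1 ∈ frontier K ∧ ‖q.2‖ = 1 ∧ ⟪q.1, q.2⟫ = supp K q.2}

theorem hadaG_compact {K : Set (Eu n)} (hK : IsCompact K) : IsCompact (hadaG K) := by
  have hC : IsCompact (frontier K ×ˢ sphere (0 : Eu n) 1) :=
    (hK.of_isClosed_subset isClosed_frontier hK.isClosed.frontier_subset).prod (isCompact_sphere _ _)
  refine hC.of_isClosed_subset ?_ fun q hq => ⟨hq.1, by simpa using hq.2.1⟩
  exact (isClosed_frontier.preimage continuous_fst).inter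
    ((isClosed_eq (continuous_norm.comp continuous_snd) continuous_const).inter
      (isClosed_eq (continuous_fst.inner continuous_snd)
        ((continuous_supp hK).comp continuous_snd)))

theorem hada_subset {K : Set (Eu n)} (hK : Body0 K) {X : Eu n → Eu n} (hX : Continuous X)
    {ψ : Eu n → ℝ} (hψ : Continuous ψ)
    (h : ∀ q ∈ hadaG K, ⟪X q.1, q.2⟫ / supp K q.2 < ψ q.1) :
    ∃ t0 : ℝ, 0 < t0 ∧ ∀ t, 0 < t → t ≤ t0 →
      flow X t '' K ⊆ flow (fun x => ψ x • x) t '' K := by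
  have hc := hK.1.1
  obtain ⟨ρ, R, hρ, hR, h1, h2⟩ := hK.exists_radii
  have hs : ∀ ξ : Eu n, ‖ξ‖ = 1 → ρ ≤ supp K ξ := fun ξ hξ => by
    have := le_supp hc (h1 (show ρ • ξ ∈ closedBall 0 ρ by
      rw [mem_closedBall_zero_iff, norm_smul, hξ, mul_one, Real.norm_of_nonneg hρ.le])) ξ
    rwa [real_inner_smul_left, real_inner_self_eq_norm_sq, hξ, one_pow, mul_one] at this
  obtain ⟨η, hη, h3⟩ := (hadaG_compact hc).exists_forall_le'
    (f := fun q => ψ q.1 * supp K q.2 - ⟪X q.1, q.2⟫) (a := 0)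
    (((hψ.comp continuous_fst).mul ((continuous_supp hc).comp continuous_snd)).sub
      ((hX.comp continuous_fst).inner continuous_snd)).continuousOn fun q hq => by
      have := h q hq
      rw [div_lt_iff₀ (hρ.trans_le (hs _ hq.2.1))] at this
      exact sub_pos.2 this
  obtain ⟨δ, hδ, h4⟩ := Metric.uniformContinuousOn_iff.1
    (hc.uniformContinuousOn_of_continuous hX.continuousOn) η hη
  obtain ⟨B, hB⟩ := hc.exists_bound_of_continuousOn hψ.continuousOn
  obtain ⟨S, hS⟩ := hc.exists_bound_of_continuousOn hX.continuousOn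
  have h0 : (0 : Eu n) ∈ K := interior_subset hK.2
  have hB0 : 0 ≤ B := (norm_nonneg _).trans (hB 0 h0)
  have hS0 : 0 ≤ S := (norm_nonneg _).trans (hS 0 h0)
  have hR0 : 0 < R := hρ.trans_le hR
  obtain ⟨D, hD⟩ : ∃ D, D = (B + S / ρ) * R + S + 1 := ⟨_, rfl⟩
  have hD0 : 0 < D := by rw [hD]; positivity
  refine ⟨δ / D, by positivity, fun t ht ht' => ?_⟩
  rintro _ ⟨x, hx, rfl⟩
  by_cases e : flow X t x = 0
  · exact ⟨0, h0, by rw [e]; simp [flow]⟩
  obtain ⟨y, k1, a, k2, k3, -⟩ := exists_ray hK e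
  obtain ⟨ξ, k4, k5⟩ := exists_normal hK.1 k1
  have hy : y ∈ K := hc.isClosed.frontier_subset k1
  rw [k3]
  refine smul_mem_flow hK hψ t hy k2.le ?_
  by_contra hn
  push Not at hn
  have k6 := hs ξ k4
  have k7 : a * supp K ξ = ⟪x, ξ⟫ + t * ⟪X x, ξ⟫ := by
    rw [← k5, ← real_inner_smul_left, ← k3, flow, inner_add_left, real_inner_smul_left]
  have k8 := le_supp hc hx ξ
  have k9 : ⟪X x, ξ⟫ ≤ S := by
    have := real_inner_le_norm (X x) ξ
    rw [k4, mul_one] at this
    exact this.trans (hS x hx)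
  have k10 := abs_le.1 (hB y hy)
  have k11 : |a - 1| ≤ t * (B + S / ρ) := by
    have m1 : 0 ≤ t * B := by positivity
    have m2 : 0 ≤ t * (S / ρ) := by positivity
    refine abs_le.2 ⟨by linarith only [hn, m2, k10, ht, mul_le_mul_of_nonneg_left k10.1 ht.le], ?_⟩
    have m3 : a - 1 ≤ t * (S / ρ) := by
      by_contra m4
      push Not at m4
      have m5 : t * (S / ρ) * ρ < (a - 1) * supp K ξ :=
        mul_lt_mul m4 k6 hρ (m2.trans m4.le)
      rw [mul_assoc, div_mul_cancel₀ _ hρ.ne'] at m5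
      linarith only [k7, k8, m5, k9, ht, mul_le_mul_of_nonneg_left k9 ht.le]
    linarith only [m1, m3]
  have k12 : dist x y < δ := by
    have m1 : x - y = (a - 1) • y - t • X x := by
      rw [sub_smul, one_smul, ← k3, flow]
      abel
    have m2 : ‖y‖ ≤ R := mem_closedBall_zero_iff.1 (h2 hy)
    rw [dist_eq_norm, m1]
    refine (norm_sub_le _ _).trans_lt ?_
    rw [norm_smul, norm_smul, Real.norm_eq_abs, Real.norm_of_nonneg ht.le]
    rw [le_div_iff₀ hD0, hD] at ht'
    have m3 := mul_le_mul k11 m2 (norm_nonneg _) (by positivity)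
    have m4 := mul_le_mul_of_nonneg_left (hS x hx) ht.le
    linarith only [ht, ht', m3, m4]
  have k13 : ⟪X x, ξ⟫ ≤ ⟪X y, ξ⟫ + η := by
    have m1 := h4 x hx y hy k12
    have m2 := real_inner_le_norm (X x - X y) ξ
    rw [k4, mul_one, inner_sub_left, ← dist_eq_norm] at m2
    linarith only [m1, m2]
  have k14 : η ≤ ψ y * supp K ξ - ⟪X y, ξ⟫ := h3 (y, ξ) ⟨k1, k4, k5⟩
  have k15 := mul_lt_mul_of_pos_right hn (hρ.trans_le k6)
  linarith only [k7, k8, k15, k13, k14, ht, mul_le_mul_of_nonneg_left (show ⟪X x, ξ⟫ ≤ ψ y * supp K ξ by linarith) ht.le]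

theorem hada_le (hp : 1 < p) (hpn : p < n) {K : Set (Eu n)} (hK : Body0 K) {τ : Measure (Eu n)}
    (hτ : IsTau p K τ) {X : Eu n → Eu n} {M : ℝ} (hX : Fld X M) :
    Lam p K X ≤ ∫ y, ⟪X y, nrm K y⟫ / supp K (nrm K y) ∂τ := by
  have := hτ.fin
  have hc := hK.1.1
  have hXc : Continuous X := hX.1.continuous
  have hF : ContinuousOn (fun q : Eu n × Eu n => ⟪X q.1, q.2⟫ / supp K q.2) (hadaG K) :=
    ((hXc.comp continuous_fst).inner continuous_snd).continuousOn.div
      ((continuous_supp hc).comp continuous_snd).continuousOn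
      fun q hq => (hK.supp_pos fun e => by simpa [e] using hq.2.1).ne'
  have hα : ∀ᵐ y ∂τ, (y, nrm K y) ∈ hadaG K ∧ ∀ ξ, (y, ξ) ∈ hadaG K → ξ = nrm K y := by
    filter_upwards [tau_ae_reg hp hpn hK hτ] with y hy
    obtain ⟨h1, h2, h3⟩ := reg_normal hK hy
    exact ⟨⟨hy.1, h1, h2⟩, fun ξ hξ => h3 ξ hξ.2.1 hξ.2.2⟩
  have hint : Integrable (fun y => ⟪X y, nrm K y⟫ / supp K (nrm K y)) τ := by
    obtain ⟨B, hB⟩ := (hadaG_compact hc).exists_bound_of_continuousOn hF
    refine Integrable.of_bound ?_ B ?_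
    · exact ((hXc.measurable.inner (measurable_nrm K)).div
        ((continuous_supp hc).measurable.comp (measurable_nrm K))).aestronglyMeasurable
    · filter_upwards [hα] with y hy
      exact hB _ hy.1
  refine le_of_forall_pos_le_add fun ε hε => ?_
  obtain ⟨ψ, h1, h2, h3, h4⟩ := envelope (hadaG_compact hc) hF τ hα hint hε
  obtain ⟨t0, h5, h6⟩ := hada_subset hK hXc h1.continuous h3
  refine le_trans ?_ h4
  refine hada_deriv_le (hasDerivAt_cap_flow hp hc.isBounded hX) (hadaA_flow hp hK hτ h1 h2)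
    (by simp only [hadaA_flow_zero]) h5 fun t ht ht' => cap_mono (h6 t ht ht') ?_
  refine (hc.image ?_).isBounded
  exact continuous_id.add ((h1.continuous.smul continuous_id).const_smul t)

/-- Variation along a general vector field. -/
theorem Lam_eq (hp : 1 < p) (hpn : p < n) {K : Set (Eu n)} (hK : Body0 K) {τ : Measure (Eu n)}
    (hτ : IsTau p K τ) {X : Eu n → Eu n} {M : ℝ} (hX : Fld X M) :
    Lam p K X = ∫ y, ⟪X y, nrm K y⟫ / supp K (nrm K y) ∂τ := by
  refine le_antisymm (hada_le hp hpn hK hτ hX) ?_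
  have h := hada_le hp hpn hK hτ (hX.smul (-1))
  rw [Lam_smul hp hK.1.1.isBounded hX] at h
  simp only [neg_smul, one_smul, inner_neg_left, neg_div, integral_neg] at h
  linarith only [h]

end Pool.Agent.Work.MP_f7e2e5_gt
end
end

-- merged part: Pool.Agent.Work.MP_f7e2e5_gt.Smooth
section
open MeasureTheory Set Metric Filter Topology
open scoped RealInnerProductSpace Pointwise ContDiff NNReal Convolution

noncomputable section

namespace Pool.Agent.Work.MP_f7e2e5_gt

variable {n : ℕ} {p : ℝ}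

theorem smooth_norm_grad (u : Eu n → ℝ) (x : Eu n) : ‖gradient u x‖ = ‖fderiv ℝ u x‖ := by
  simp [gradient]

/-- Truncation at height one. -/
theorem smooth_cap_le (hp : 0 < p) {K : Set (Eu n)} {u : Eu n → ℝ} (hu : ContDiff ℝ ∞ u)
    (hc : HasCompactSupport u) (h : ∀ x, K.indicator (fun _ => (1 : ℝ)) x ≤ u x) :
    cap p K ≤ ∫ x, ‖gradient u x‖ ^ p := by
  have hl : Lip0 u := Lip0.of_contDiff (hu.of_le (by simp)) hc
  have h0 : ∀ x, 0 ≤ u x := fun x => (indicator_nonneg (fun _ _ => zero_le_one) x).trans (h x)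
  have ha : Adm K fun x => min (u x) 1 :=
    ⟨hl.min_of_nonneg (LipF.const 1) h0 fun _ => zero_le_one, fun x => le_min (h0 x) zero_le_one,
      fun x => min_le_right _ _, fun x hx => min_eq_right (by simpa [hx] using h x)⟩
  refine (cap_le_en ha).trans ?_
  rw [en, Measure.restrict_univ]
  refine integral_mono_ae (ha.lip0.integrable_en hp) (hl.integrable_en hp) ?_
  filter_upwards [grad_min hl.lip (LipF.const 1)] with x hx
  rw [hx]
  split_ifs
  · exact le_rfl
  · rw [gradient_fun_const, norm_zero, Real.zero_rpow hp.ne']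
    positivity

/-- The tangent line inequality for powers. -/
theorem smooth_tangent (hp : 1 ≤ p) {a t : ℝ} (ha : 0 < a) (ht : 0 ≤ t) :
    a ^ p + p * a ^ p / a * (t - a) ≤ t ^ p := by
  have h := one_add_mul_self_le_rpow_one_add (s := t / a - 1)
    (by have := div_nonneg ht ha.le; linarith only [this]) hp
  rw [add_sub_cancel, Real.div_rpow ht ha.le, le_div_iff₀ (Real.rpow_pos_of_pos ha p)] at h
  refine le_of_eq_of_le ?_ h
  field_simp

/-- Jensen inequality for a density. -/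
theorem smooth_jensen (hp : 1 ≤ p) {ψ g : Eu n → ℝ} (hψ : Integrable ψ) (h0 : ∀ y, 0 ≤ ψ y)
    (h1 : ∫ y, ψ y = 1) (hg0 : ∀ y, 0 ≤ g y) (hg : Integrable fun y => ψ y * g y)
    (hgp : Integrable fun y => ψ y * g y ^ p) :
    (∫ y, ψ y * g y) ^ p ≤ ∫ y, ψ y * g y ^ p := by
  have ha : 0 ≤ ∫ y, ψ y * g y := integral_nonneg fun y => mul_nonneg (h0 y) (hg0 y)
  set a := ∫ y, ψ y * g y with hadef
  rcases ha.eq_or_lt with h | h
  · rw [← h, Real.zero_rpow (by linarith)]
    exact integral_nonneg fun y => mul_nonneg (h0 y) (Real.rpow_nonneg (hg0 y) _)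
  · have e : ∫ y, ((a ^ p - p * a ^ p / a * a) * ψ y + p * a ^ p / a * (ψ y * g y)) = a ^ p := by
      rw [integral_add (hψ.const_mul _) (hg.const_mul _), integral_const_mul, integral_const_mul,
        h1, ← hadef]
      ring
    rw [← e]
    refine integral_mono ((hψ.const_mul _).add (hg.const_mul _)) hgp fun y => ?_
    have := mul_le_mul_of_nonneg_left (smooth_tangent hp h (hg0 y)) (h0 y)
    refine le_of_eq_of_le ?_ this
    ring

theorem smooth_int {ψ g : Eu n → ℝ} (hψ : Integrable ψ) (hg : Measurable g) {C : ℝ}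
    (hC : ∀ y, ‖g y‖ ≤ C) (x : Eu n) : Integrable fun y => ψ y * g (x - y) :=
  hψ.mul_bdd (hg.comp (measurable_const.sub measurable_id)).aestronglyMeasurable
    (Eventually.of_forall fun _ => hC _)

/-- The gradient of a mollified function. -/
theorem smooth_grad_le {ψ u : Eu n → ℝ} (hψ : Integrable ψ) (h0 : ∀ y, 0 ≤ ψ y) (hu : Lip0 u)
    (x : Eu n) : ‖gradient (ψ ⋆[ContinuousLinearMap.lsmul ℝ ℝ, volume] u) x‖ ≤
      ∫ y, ψ y * ‖gradient u (x - y)‖ := by
  obtain ⟨C, hC⟩ := hu.lip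
  obtain ⟨B, hB⟩ := hu.lip.continuous.bounded_above_of_compact_support hu.cs
  have hint : ∀ z, Integrable fun y => ψ y * u (z - y) :=
    smooth_int hψ hu.lip.continuous.measurable hB
  have hd : ∀ᵐ y, DifferentiableAt ℝ u (x - y) :=
    (Measure.measurePreserving_sub_left volume x).quasiMeasurePreserving.ae hu.lip.ae_diff
  have key := (hasFDerivAt_integral_of_dominated_loc_of_lip' (𝕜 := ℝ) (μ := volume) (x₀ := x)
    (F := fun z y => ψ y * u (z - y)) (F' := fun y => ψ y • fderiv ℝ u (x - y))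
    (bound := fun y => ψ y * C) univ_mem (fun z _ => (hint z).aestronglyMeasurable) (hint x)
    (hψ.aestronglyMeasurable.smul
      ((measurable_fderiv ℝ u).comp (measurable_const.sub measurable_id)).aestronglyMeasurable)
    (Eventually.of_forall fun y z _ => by
      have := hC.norm_sub_le (z - y) (x - y)
      rw [sub_sub_sub_cancel_right] at this
      rw [← mul_sub, norm_mul, Real.norm_of_nonneg (h0 y), mul_assoc]
      exact mul_le_mul_of_nonneg_left this (h0 y))
    (hψ.mul_const _)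
    (hd.mono fun y hy => by
      have := (hy.hasFDerivAt.comp x ((hasFDerivAt_id x).sub_const y)).const_mul (ψ y)
      simpa using this)).2
  have e : (ψ ⋆[ContinuousLinearMap.lsmul ℝ ℝ, volume] u) = fun z => ∫ y, ψ y * u (z - y) := rfl
  rw [smooth_norm_grad, e, key.fderiv]
  refine (norm_integral_le_integral_norm _).trans (le_of_eq ?_)
  simp only [norm_smul, Real.norm_of_nonneg (h0 _), smooth_norm_grad]

/-- Mollification does not increase the energy. -/
theorem smooth_en_le (hp : 1 < p) {ψ u : Eu n → ℝ} (hψ : Integrable ψ) (h0 : ∀ y, 0 ≤ ψ y)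
    (h1 : ∫ y, ψ y = 1) (hu : Lip0 u) :
    ∫ x, ‖gradient (ψ ⋆[ContinuousLinearMap.lsmul ℝ ℝ, volume] u) x‖ ^ p ≤ en p u univ := by
  have hp0 : 0 < p := by linarith
  obtain ⟨C, hC⟩ := hu.lip.exists_norm_gradient_le
  have hG := hu.integrable_en hp0
  have hm : Measurable fun x => ‖gradient u x‖ := (measurable_gradient u).norm
  have e := integral_convolution (ContinuousLinearMap.lsmul ℝ ℝ) hψ hG
  rw [h1, ContinuousLinearMap.lsmul_apply, one_smul] at e
  rw [en, Measure.restrict_univ, ← e]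
  refine integral_mono_of_nonneg (Eventually.of_forall fun x => Real.rpow_nonneg (norm_nonneg _) _)
    (hψ.integrable_convolution _ hG) (Eventually.of_forall fun x => ?_)
  refine (Real.rpow_le_rpow (norm_nonneg _) (smooth_grad_le hψ h0 hu x) hp0.le).trans ?_
  exact smooth_jensen hp.le (g := fun y => ‖gradient u (x - y)‖) hψ h0 h1 (fun y => norm_nonneg _)
    (smooth_int (C := C) hψ hm (fun y => by simpa using hC y) x)
    (smooth_int (g := fun y => ‖gradient u y‖ ^ p) (C := C ^ p) hψ (hm.pow_const p) (fun y => by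
      rw [Real.norm_of_nonneg (Real.rpow_nonneg (norm_nonneg _) _)]
      exact Real.rpow_le_rpow (norm_nonneg _) (hC y) hp0.le) x)

/-- Smooth competitors with almost optimal energy. -/
theorem smooth_exists (hp : 1 < p) {K : Set (Eu n)} (hK : IsCompact K) {ε : ℝ} (hε : 0 < ε) :
    ∃ v : Eu n → ℝ, ContDiff ℝ ∞ v ∧ HasCompactSupport v ∧
      (∀ x, K.indicator (fun _ => (1 : ℝ)) x ≤ v x) ∧ ∫ x, ‖gradient v x‖ ^ p ≤ cap p K + ε := by
  obtain ⟨δ, hδ, h1⟩ := cap_usc (p := p) (by linarith) hK (half_pos hε)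
  obtain ⟨u, hu, h2⟩ := exists_adm_lt (p := p) (hK.isBounded.cthickening (δ := δ)) (half_pos hε)
  let φ : ContDiffBump (0 : Eu n) := ⟨δ / 2, δ, half_pos hδ, half_lt_self hδ⟩
  refine ⟨φ.normed volume ⋆[ContinuousLinearMap.lsmul ℝ ℝ, volume] u, ?_, ?_, fun x => ?_, ?_⟩
  · exact φ.hasCompactSupport_normed.contDiff_convolution_left _ φ.contDiff_normed
      hu.lip0.lip.continuous.locallyIntegrable
  · exact φ.hasCompactSupport_normed.convolution _ hu.lip0.cs
  · by_cases hx : x ∈ K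
    · have hxx : u x = 1 := hu.one x (self_subset_cthickening K hx)
      rw [indicator_of_mem hx, φ.normed_convolution_eq_right, hxx]
      intro y hy
      rw [hxx]
      exact hu.one y (mem_cthickening_of_dist_le y x δ K hx (mem_ball.1 hy).le)
    · rw [indicator_of_notMem hx]
      exact integral_nonneg fun y => mul_nonneg (φ.nonneg_normed y) (hu.nonneg _)
  · have := smooth_en_le hp φ.integrable_normed φ.nonneg_normed φ.integral_normed hu.lip0
    linarith only [h1, h2, this]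

/-- For convex bodies the smooth and the Lipschitz capacities agree. -/
theorem pCap_eq_cap (hp : 1 < p) (hpn : p < n) {K : Set (Eu n)} (hK : IsBody K) :
    pCap p K = cap p K := by
  refine le_antisymm (le_of_forall_pos_le_add fun ε hε => ?_) (le_csInf ?_ ?_)
  · obtain ⟨v, a, b, c, d⟩ := smooth_exists hp hK.1 hε
    refine le_trans (csInf_le ⟨0, ?_⟩ ⟨v, a, b, c, rfl⟩) d
    rintro _ ⟨u, -, -, -, rfl⟩
    exact integral_nonneg fun x => Real.rpow_nonneg (norm_nonneg _) _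
  · obtain ⟨v, a, b, c, -⟩ := smooth_exists hp hK.1 one_pos
    exact ⟨_, v, a, b, c, rfl⟩
  · rintro _ ⟨u, a, b, c, rfl⟩
    exact smooth_cap_le (by linarith) a b c

end Pool.Agent.Work.MP_f7e2e5_gt
end
end

-- merged part: Pool.Agent.Work.MP_f7e2e5_gt.Solve
section
open MeasureTheory Set Metric Filter Topology
open scoped RealInnerProductSpace Pointwise ContDiff NNReal

noncomputable section

namespace Pool.Agent.Work.MP_f7e2e5_gt

variable {n : ℕ} {p : ℝ}

theorem Solve_ne (ξ : Sph n) : (ξ : Eu n) ≠ 0 := ne_zero_of_mem_unit_sphere ξ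

theorem Solve_cont {K : Set (Eu n)} (hK : IsCompact K) :
    Continuous fun ξ : Sph n => supp K ξ :=
  (continuous_supp hK).comp continuous_subtype_val

theorem Solve_meas {K : Set (Eu n)} (hK : IsCompact K) :
    Measurable fun ξ : Sph n => ENNReal.ofReal (supp K ξ) :=
  (Solve_cont hK).measurable.ennreal_ofReal

theorem Solve_fin (ν : Measure (Sph n)) [IsFiniteMeasure ν] {f : Sph n → ℝ} (hf : Continuous f) :
    IsFiniteMeasure (ν.withDensity fun ξ => ENNReal.ofReal (f ξ)) :=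
  isFiniteMeasure_withDensity_ofReal
    (hf.integrable_of_hasCompactSupport (HasCompactSupport.of_compactSpace f)).hasFiniteIntegral

theorem Solve_body_smul {L : Set (Eu n)} (hL : IsBody L) {c : ℝ} (hc : c ≠ 0) : IsBody (c • L) := by
  refine ⟨hL.1.smul c, hL.2.1.smul c, ?_⟩
  rw [interior_smul₀ hc]
  exact hL.2.2.smul_set

theorem Solve_body_neg {L : Set (Eu n)} (hL : IsBody L) : IsBody (-L) := by
  have := Solve_body_smul hL (c := -1) (by norm_num)
  rwa [Set.neg_smul_set, one_smul] at this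

theorem Solve_deriv (hp : 1 < p) (hpn : p < n) {K : Set (Eu n)} (hK : Body0 K)
    {τ : Measure (Eu n)} (hτ : IsTau p K τ) {L : Set (Eu n)} (hL : IsBody L) :
    HasDerivWithinAt (fun t : ℝ => pCap p (K + t • L))
      (∫ y, supp L (nrm K y) / supp K (nrm K y) ∂τ) (Ici 0) 0 := by
  have e := wulff_supp hK.1
  have h := hadamard hp hpn (isCompact_sphere (0 : Eu n) 1) (fun ξ hξ => by simpa using hξ)
    (continuous_supp hK.1.1).continuousOn (continuous_supp hL.1).continuousOn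
    (continuous_supp hL.1).measurable (τ := τ) (by rwa [e]) (by rwa [e])
  rw [e] at h
  have key : ∀ t ∈ Ici (0 : ℝ), pCap p (K + t • L) =
      cap p (wulff (sphere 0 1) (fun ξ => supp K ξ + t * supp L ξ)) := fun t ht => by
    rw [pCap_eq_cap hp hpn (hK.1.add_smul hL ht), add_smul_eq_wulff hK.1 hL ht]
  exact h.congr key (key 0 self_mem_Ici)

theorem Solve_int (hp : 1 < p) {K : Set (Eu n)} {τ : Measure (Eu n)} {μ : Measure (Sph n)}
    (h : ENNReal.ofReal (p - 1) • μ.map (fun ξ : Sph n => (ξ : Eu n)) = τ.map (nrm K))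
    {F : Eu n → ℝ} (hF : Measurable F) :
    (p - 1) * ∫ ξ : Sph n, F ξ ∂μ = ∫ y, F (nrm K y) ∂τ := by
  rw [← integral_map (measurable_nrm K).aemeasurable hF.aestronglyMeasurable, ← h,
    integral_smul_measure, integral_map measurable_subtype_coe.aemeasurable
      hF.aestronglyMeasurable, ENNReal.toReal_ofReal (by linarith), smul_eq_mul]

theorem Solve_fin_of (hp : 1 < p) {K : Set (Eu n)} {τ : Measure (Eu n)} (hτ : IsTau p K τ)
    {μ : Measure (Sph n)}
    (h : ENNReal.ofReal (p - 1) • μ.map (fun ξ : Sph n => (ξ : Eu n)) = τ.map (nrm K)) :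
    IsFiniteMeasure μ := by
  have := hτ.fin
  refine ⟨lt_top_iff_ne_top.2 fun h0 => ?_⟩
  have h1 := congrArg (fun m : Measure (Eu n) => m univ) h
  simp only [Measure.smul_apply, smul_eq_mul] at h1
  rw [Measure.map_apply measurable_subtype_coe MeasurableSet.univ, preimage_univ, h0,
    ENNReal.mul_top (ENNReal.ofReal_pos.2 (by linarith)).ne'] at h1
  exact measure_ne_top _ _ h1.symm

theorem Solve_of (hp : 1 < p) (hpn : p < n) {K : Set (Eu n)} (hK : Body0 K)
    {τ : Measure (Eu n)} (hτ : IsTau p K τ) {μ : Measure (Sph n)}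
    (h : ENNReal.ofReal (p - 1) • μ.map (fun ξ : Sph n => (ξ : Eu n)) = τ.map (nrm K)) :
    Solves p K μ := by
  have := Solve_fin_of hp hτ h
  have hpos : ∀ ξ : Sph n, 0 < supp K ξ := fun ξ => hK.supp_pos (Solve_ne ξ)
  have hc : Continuous fun ξ : Sph n => (supp K ξ)⁻¹ :=
    (Solve_cont hK.1.1).inv₀ fun ξ => (hpos ξ).ne'
  have hm : Measurable fun ξ : Sph n => ENNReal.ofReal (supp K ξ)⁻¹ := hc.measurable.ennreal_ofReal
  refine ⟨hK.1, hK.2, μ.withDensity fun ξ => ENNReal.ofReal (supp K ξ)⁻¹,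
    ⟨Solve_fin μ hc, fun L hL => ?_⟩, ?_⟩
  · refine (Solve_deriv hp hpn hK hτ hL).congr_deriv (Eq.symm ?_)
    rw [← Solve_int hp h (F := fun x => supp L x / supp K x)
      ((continuous_supp hL.1).measurable.div (continuous_supp hK.1.1).measurable),
      integral_withDensity_eq_integral_toReal_smul hm
        (Eventually.of_forall fun _ => ENNReal.ofReal_lt_top)]
    congr 1
    refine integral_congr_ae (Eventually.of_forall fun ξ => ?_)
    simp only [smul_eq_mul]
    rw [ENNReal.toReal_ofReal (inv_pos.2 (hpos ξ)).le, div_eq_inv_mul]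
  · rw [← withDensity_mul μ hm (Solve_meas hK.1.1)]
    refine withDensity_one.symm.trans (congrArg _ ?_)
    funext ξ
    rw [Pi.mul_apply, ← ENNReal.ofReal_mul (inv_pos.2 (hpos ξ)).le,
      inv_mul_cancel₀ (hpos ξ).ne', ENNReal.ofReal_one, Pi.one_apply]

theorem Solve_exists (hp : 1 < p) (hpn : p < n) {K : Set (Eu n)} (hK : Body0 K)
    {τ : Measure (Eu n)} (hτ : IsTau p K τ) : ∃ μ : Measure (Sph n),
      ENNReal.ofReal (p - 1) • μ.map (fun ξ : Sph n => (ξ : Eu n)) = τ.map (nrm K) := by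
  have hs : MeasurableSet (sphere (0 : Eu n) 1) := isClosed_sphere.measurableSet
  refine ⟨(ENNReal.ofReal (p - 1))⁻¹ • (τ.map (nrm K)).comap (fun ξ : Sph n => (ξ : Eu n)), ?_⟩
  rw [Measure.map_smul, smul_smul,
    ENNReal.mul_inv_cancel (ENNReal.ofReal_pos.2 (by linarith)).ne' ENNReal.ofReal_ne_top,
    one_smul, (MeasurableEmbedding.subtype_coe hs).map_comap, Subtype.range_coe]
  refine Measure.restrict_eq_self_of_ae_mem ?_
  refine (ae_map_iff (p := fun x => x ∈ sphere (0 : Eu n) 1) (measurable_nrm K).aemeasurable hs).2 ?_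
  filter_upwards [tau_ae_reg hp hpn hK hτ] with y hy
  simpa using (reg_normal hK hy).1

theorem Solve_uniq (hp : 1 < p) {K : Set (Eu n)} {ν ν' : Measure (Sph n)}
    (h : IsCapMeasure p K ν) (h' : IsCapMeasure p K ν') : ν = ν' := by
  have := h.1
  have := h'.1
  refine ext_of_supp fun L hL => ?_
  have e := (uniqueDiffWithinAt_Ici (0 : ℝ)).eq_deriv _ (h.2 L hL) (h'.2 L hL)
  exact mul_left_cancel₀ (by linarith : p - 1 ≠ 0) e

theorem Solves.body0 {K : Set (Eu n)} {μ : Measure (Sph n)} (h : Solves p K μ) : Body0 K :=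
  ⟨h.1, h.2.1⟩

theorem Solves.finite {K : Set (Eu n)} {μ : Measure (Sph n)} (h : Solves p K μ) :
    IsFiniteMeasure μ := by
  obtain ⟨hK, -, ν, hν, rfl⟩ := h
  have := hν.1
  exact Solve_fin ν (Solve_cont hK.1)

theorem Solve_unique (hp : 1 < p) {K : Set (Eu n)} {μ μ' : Measure (Sph n)}
    (h : Solves p K μ) (h' : Solves p K μ') : μ = μ' := by
  obtain ⟨-, -, ν, hν, rfl⟩ := h
  obtain ⟨-, -, ν', hν', rfl⟩ := h'
  rw [Solve_uniq hp hν hν']

theorem existsUnique_capMeasure (hp : 1 < p) (hpn : p < n) {K : Set (Eu n)} (hK : Body0 K) :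
    ∃! ν, IsCapMeasure p K ν := by
  obtain ⟨μ, hμ⟩ := Solve_exists hp hpn hK (isTau_tau hp hK)
  obtain ⟨-, -, ν, hν, -⟩ := Solve_of hp hpn hK (isTau_tau hp hK) hμ
  exact ⟨ν, hν, fun ν' hν' => Solve_uniq hp hν' hν⟩

theorem solves_iff (hp : 1 < p) (hpn : p < n) {K : Set (Eu n)} (hK : Body0 K)
    {τ : Measure (Eu n)} (hτ : IsTau p K τ) (μ : Measure (Sph n)) :
    Solves p K μ ↔
      ENNReal.ofReal (p - 1) • μ.map (fun ξ : Sph n => (ξ : Eu n)) = τ.map (nrm K) := by
  refine ⟨fun h => ?_, Solve_of hp hpn hK hτ⟩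
  obtain ⟨μ', hμ'⟩ := Solve_exists hp hpn hK hτ
  rw [Solve_unique hp h (Solve_of hp hpn hK hτ hμ'), hμ']

theorem exists_solves (hp : 1 < p) (hpn : p < n) {K : Set (Eu n)} (hK : Body0 K) :
    ∃ μ, Solves p K μ := by
  obtain ⟨μ, hμ⟩ := Solve_exists hp hpn hK (isTau_tau hp hK)
  exact ⟨μ, Solve_of hp hpn hK (isTau_tau hp hK) hμ⟩

theorem Solves.unique (hp : 1 < p) (hpn : p < n) {K : Set (Eu n)} {μ μ' : Measure (Sph n)}
    (h : Solves p K μ) (h' : Solves p K μ') : μ = μ' := Solve_unique hp h h'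

theorem Solves.smul (hp : 1 < p) (hpn : p < n) {K : Set (Eu n)} {μ : Measure (Sph n)} (h : Solves p K μ)
    {l : ℝ} (hl : 0 < l) : Solves p (l • K) (ENNReal.ofReal (l ^ ((n : ℝ) - p)) • μ) := by
  have hK' := h.body0.smul hl
  obtain ⟨hK, -, ν, hν, rfl⟩ := h
  have := hν.1
  have hq : 0 < l ^ ((n : ℝ) - p) := Real.rpow_pos_of_pos hl _
  have hq' : 0 ≤ l ^ ((n : ℝ) - p) * l⁻¹ := by positivity
  refine ⟨hK'.1, hK'.2, ENNReal.ofReal (l ^ ((n : ℝ) - p) * l⁻¹) • ν,
    ⟨⟨?_⟩, fun L hL => ?_⟩, ?_⟩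
  · rw [Measure.smul_apply, smul_eq_mul]
    exact ENNReal.mul_lt_top ENNReal.ofReal_lt_top (measure_lt_top _ _)
  · have hL' := Solve_body_smul hL (inv_pos.2 hl).ne'
    have key : ∀ t ∈ Ici (0 : ℝ), pCap p (l • K + t • L) =
        l ^ ((n : ℝ) - p) * pCap p (K + t • l⁻¹ • L) := fun t ht => by
      rw [pCap_eq_cap hp hpn (hK'.1.add_smul hL ht), pCap_eq_cap hp hpn (hK.add_smul hL' ht),
        ← cap_smul (by linarith) _ hl, smul_add, smul_comm l t, smul_inv_smul₀ hl.ne']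
    refine (((hν.2 _ hL').const_mul (l ^ ((n : ℝ) - p))).congr key
      (key 0 self_mem_Ici)).congr_deriv ?_
    simp only [supp_smul hL.1 (inv_pos.2 hl).le]
    rw [integral_smul_measure, integral_const_mul, ENNReal.toReal_ofReal hq', smul_eq_mul]
    ring
  · rw [withDensity_smul_measure, ← withDensity_smul _ (Solve_meas hK.1),
      ← withDensity_smul _ (Solve_meas hK'.1.1)]
    congr 1
    funext ξ
    rw [Pi.smul_apply, Pi.smul_apply, smul_eq_mul, smul_eq_mul, ← ENNReal.ofReal_mul hq.le,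
      ← ENNReal.ofReal_mul hq', supp_smul hK.1 hl.le, mul_assoc, inv_mul_cancel_left₀ hl.ne']

theorem Solves.neg (hp : 1 < p) (hpn : p < n) {K : Set (Eu n)} {μ : Measure (Sph n)}
    (h : Solves p K μ) :
    Solves p (-K) (μ.map (fun ξ => -ξ)) := by
  have hK' := h.body0.neg
  obtain ⟨hK, -, ν, hν, rfl⟩ := h
  have := hν.1
  have hm : Measurable fun ξ : Sph n => -ξ := continuous_neg.measurable
  refine ⟨hK'.1, hK'.2, ν.map (fun ξ => -ξ), ⟨inferInstance, fun L hL => ?_⟩, ?_⟩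
  · have hL' := Solve_body_neg hL
    have key : ∀ t ∈ Ici (0 : ℝ), pCap p (-K + t • L) = pCap p (K + t • -L) := fun t ht => by
      rw [pCap_eq_cap hp hpn (hK'.1.add_smul hL ht), pCap_eq_cap hp hpn (hK.add_smul hL' ht),
        ← cap_neg (by linarith) (K + t • -L), neg_add, Set.smul_set_neg, neg_neg]
    refine ((hν.2 _ hL').congr key (key 0 self_mem_Ici)).congr_deriv ?_
    rw [integral_map hm.aemeasurable (Solve_cont hL.1).aestronglyMeasurable]
    simp only [supp_neg, coe_neg_sphere]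
  · ext s hs
    rw [Measure.map_apply hm hs, withDensity_apply _ (hm hs), withDensity_apply _ hs,
      setLIntegral_map hs (Solve_meas hK'.1.1) hm]
    simp only [supp_neg, coe_neg_sphere, neg_neg]

theorem Solves.mass (hp : 1 < p) (hpn : p < n) {K : Set (Eu n)} {μ : Measure (Sph n)}
    (h : Solves p K μ) : (p - 1) * μ.real univ = (n - p) * cap p K := by
  have hτ := isTau_tau hp h.body0
  have e := Solve_int hp ((solves_iff hp hpn h.body0 hτ μ).1 h) (F := fun _ => 1) measurable_const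
  rw [← hτ.mass hp h.body0]
  simpa using e

/-- Solvability is invariant under positive multiples. -/
theorem Solves.exists_smul (hp : 1 < p) (hpn : p < n) {K : Set (Eu n)} {μ : Measure (Sph n)}
    (h : Solves p K μ) {c : ℝ} (hc : 0 < c) :
    ∃ l : ℝ, 0 < l ∧ Solves p (l • K) (ENNReal.ofReal c • μ) := by
  have hl := Real.rpow_pos_of_pos hc ((n : ℝ) - p)⁻¹
  refine ⟨_, hl, ?_⟩
  have := h.smul hp hpn hl
  rwa [Real.rpow_inv_rpow hc.le (sub_pos.2 hpn).ne'] at this

/-- The measure is not concentrated on a closed hemisphere. -/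
theorem Solves.hemisphere (hp : 1 < p) (hpn : p < n) {K : Set (Eu n)} {μ : Measure (Sph n)}
    (h : Solves p K μ) {v : Eu n} (hv : v ≠ 0) : μ {ξ | 0 < ⟪(ξ : Eu n), v⟫} ≠ 0 := by
  intro h0
  have hK := h.body0
  have hτ := isTau_tau hp hK
  have e := (solves_iff hp hpn hK hτ μ).1 h
  have hs : MeasurableSet {x : Eu n | 0 < ⟪x, v⟫} :=
    (isOpen_lt continuous_const (continuous_id.inner continuous_const)).measurableSet
  have h1 := congrArg (fun m : Measure (Eu n) => m {x : Eu n | 0 < ⟪x, v⟫}) e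
  simp only [Measure.smul_apply, smul_eq_mul] at h1
  rw [Measure.map_apply measurable_subtype_coe hs, Measure.map_apply (measurable_nrm K) hs,
    preimage_setOf_eq, h0, mul_zero] at h1
  obtain ⟨ρ, R, hρ, -, hρK, -⟩ := hK.exists_radii
  obtain ⟨y0, hy0, a, ha, rfl, -⟩ := exists_ray hK hv
  refine tau_pos hp hpn hK hτ hy0 hρ (measure_mono_null_ae ?_ h1.symm)
  filter_upwards [tau_ae_reg hp hpn hK hτ] with y hy hb
  obtain ⟨b1, b2, -⟩ := reg_normal hK hy
  have b3 := supp_mono hK.1.1 (nonempty_closedBall.2 hρ.le) hρK (nrm K y)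
  rw [supp_closedBall _ hρ.le, inner_zero_left, b1, ← b2] at b3
  have b4 := real_inner_le_norm (y - y0) (nrm K y)
  have b5 : ‖y - y0‖ < ρ := mem_ball_iff_norm.1 hb
  rw [inner_sub_left, b1] at b4
  change 0 < ⟪nrm K y, a • y0⟫
  rw [real_inner_smul_right, real_inner_comm]
  exact mul_pos ha (by linarith only [b3, b4, b5])

end Pool.Agent.Work.MP_f7e2e5_gt
end
end
end
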