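import Pool.Agent.Work.MP_f7e2e5_gt.GCor
import Pool.Agent.Work.MP_f7e2e5_gt.Pot2

-- merged part: Pool.Agent.Work.MP_f7e2e5_gt.BMain
section
open MeasureTheory Set Metric Filter Topology
open scoped RealInnerProductSpace Pointwise ContDiff NNReal

noncomputable section

namespace Pool.Agent.Work.MP_f7e2e5_gt

variable {n : ℕ} {p : ℝ}

open Classical in
theorem exists_critical {ι : Type} [Fintype ι] {u : ι → Eu n} (hp : 1 < p) (hpn : p < n)
    (hu : Frame u) {c : ι → ℝ} (hc : ∀ i, 0 < c i)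
    (hL : ∀ L : Submodule ℝ (Eu n), L ≠ ⊤ → L = Submodule.span ℝ (u '' {i | u i ∈ L}) →
      (Module.finrank ℝ L - p) / (n - p) * ∑ i, c i <
        ∑ i ∈ Finset.univ.filter (fun i => u i ∈ L), c i) :
    ∃ t, ∀ i, mass p u t i = (p - 1) * c i := by
  have hp1 : 0 < p - 1 := by linarith
  obtain ⟨Φ, σ, c0, R0, hΦ, hσ, h1, h2, h3⟩ := exists_link_data hu
  obtain ⟨t, ht⟩ := linking (JJ p u c) (fun t i => c i - mass p u t i / (p - 1)) (tight u) Φ σ
    ((continuous_finsetSum _ fun i _ => continuous_const.mul (continuous_apply i)).sub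
      ((continuous_cap_PP hp hpn hu).div_const _))
    (continuous_pi fun i => continuous_const.sub ((continuous_mass hp hpn hu i).div_const _))
    (continuous_tight hu) hΦ hσ (fun t v => by
      have d1 : HasDerivWithinAt (fun s : ℝ => ∑ i, c i * (t + s • v) i) (∑ i, c i * v i)
          (Ici 0) 0 := by
        refine HasDerivWithinAt.fun_sum fun i _ => HasDerivWithinAt.const_mul _ ?_
        have d2 := (((hasDerivAt_id (0 : ℝ)).mul_const (v i)).const_add (t i)).hasDerivWithinAt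
          (s := Ici 0)
        rw [one_mul] at d2
        exact d2
      refine (d1.fun_sub ((hasDerivWithinAt_cap_PP hp hpn hu t v).div_const (p - 1))).congr_deriv ?_
      rw [Finset.sum_div, ← Finset.sum_sub_distrib]
      exact Finset.sum_congr rfl fun i _ => by ring)
    (fun t => by
      unfold JJ
      rw [PP_tight hu]
      exact sub_le_sub_right (Finset.sum_le_sum fun i _ =>
        mul_le_mul_of_nonneg_left (tight_le hu t i) (hc i).le) _)
    h1 h2 (∑ i, c i * c0 - cap p (closedBall (0 : Eu n) R0) / (p - 1))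
    (fun t ht => sub_le_sub (Finset.sum_le_sum fun i _ =>
        mul_le_mul_of_nonneg_left ((h3 t ht).1 i) (hc i).le)
      (div_le_div_of_nonneg_right (cap_mono (h3 t ht).2 isBounded_closedBall) hp1.le))
    (coercive hp hpn hu hc hL)
  refine ⟨t, fun i => ?_⟩
  have h4 : c i - mass p u t i / (p - 1) = 0 := congrFun ht i
  rw [sub_eq_zero, eq_div_iff hp1.ne'] at h4
  rw [← h4, mul_comm]

open Classical in
theorem bmain_sum {μ : Measure (Sph n)} {U : Finset (Sph n)} (hU : μ (U : Set (Sph n))ᶜ = 0)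
    (B : Set (Sph n)) : μ B = ∑ i : U, if i.1 ∈ B then μ {i.1} else 0 := by
  rw [Finset.sum_coe_sort U (fun ξ => if ξ ∈ B then μ {ξ} else 0), ← Finset.sum_filter,
    sum_measure_singleton, ← measure_inter_conull hU]
  congr 1
  ext ξ
  simp [and_comm]

open Classical in
theorem bmain_real {μ : Measure (Sph n)} [IsFiniteMeasure μ] {U : Finset (Sph n)}
    (hU : μ (U : Set (Sph n))ᶜ = 0) (B : Set (Sph n)) :
    μ.real B = ∑ i : U, if i.1 ∈ B then μ.real {i.1} else 0 := by
  rw [Measure.real, bmain_sum hU B, ENNReal.toReal_sum fun i _ => by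
    split_ifs
    exacts [measure_ne_top _ _, ENNReal.zero_ne_top]]
  refine Finset.sum_congr rfl fun i _ => ?_
  split_ifs <;> rfl

theorem bmain_pos {μ : Measure (Sph n)} [IsFiniteMeasure μ] {ξ : Sph n} (h : μ {ξ} ≠ 0)
    {B : Set (Sph n)} (hB : ξ ∈ B) : 0 < μ.real B :=
  lt_of_lt_of_le (ENNReal.toReal_pos h (measure_ne_top _ _))
    (measureReal_mono (singleton_subset_iff.2 hB))

/-- Sufficient condition for finitely supported measures with symmetric support. -/
theorem discrete_suff (hp : 1 < p) (hpn : p < n) (μ : Measure (Sph n)) [IsFiniteMeasure μ]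
    (U : Finset (Sph n)) (hU : μ (U : Set (Sph n))ᶜ = 0) (hpos : ∀ ξ ∈ U, μ {ξ} ≠ 0)
    (hsym : ∀ ξ ∈ U, -ξ ∈ U)
    (hspan : Submodule.span ℝ ((fun ξ : Sph n => (ξ : Eu n)) '' U) = ⊤)
    (hL : ∀ L : Submodule ℝ (Eu n), L ≠ ⊤ →
      L = Submodule.span ℝ ((fun ξ : Sph n => (ξ : Eu n)) '' {ξ | ξ ∈ U ∧ (ξ : Eu n) ∈ L}) →
      (Module.finrank ℝ L - p) / (n - p) * μ.real univ < μ.real {ξ | (ξ : Eu n) ∈ L}) :
    ∃ K, Solves p K μ := by
  classical
  have hp1 : 0 ≤ p - 1 := by linarith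
  have hu : Frame fun i : U => (i.1 : Eu n) := by
    refine ⟨fun i => mem_sphere_zero_iff_norm.1 i.1.2,
      Subtype.val_injective.comp Subtype.val_injective, fun i => ⟨⟨-i.1, hsym _ i.2⟩, rfl⟩, ?_⟩
    rw [← hspan]
    congr 1
    ext x
    exact ⟨fun ⟨i, hi⟩ => ⟨i.1, i.2, hi⟩, fun ⟨ξ, h1, h2⟩ => ⟨⟨ξ, h1⟩, h2⟩⟩
  obtain ⟨t, ht⟩ := exists_critical hp hpn hu (c := fun i => μ.real {i.1})
    (fun i => bmain_pos (hpos _ i.2) rfl) fun L h1 h2 => by
      have h3 := hL L h1 (h2.trans (by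
        congr 1
        ext x
        exact ⟨fun ⟨i, hi, e⟩ => ⟨i.1, ⟨i.2, hi⟩, e⟩, fun ⟨ξ, h1, e⟩ => ⟨⟨ξ, h1.1⟩, h1.2, e⟩⟩))
      rw [bmain_real hU, bmain_real hU] at h3
      rw [Finset.sum_filter]
      simp only [mem_univ, if_true] at h3
      convert h3 using 3
      rfl
  refine ⟨PP (fun i : U => (i.1 : Eu n)) t,
    (solves_iff hp hpn (PP_body0 hu t) (isTau_tau hp (PP_body0 hu t)) μ).2 ?_⟩
  rw [map_nrm_PP hp hpn hu]
  ext A hA
  rw [Measure.smul_apply, Measure.map_apply measurable_subtype_coe hA, bmain_sum hU,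
    Measure.finsetSum_apply, smul_eq_mul, Finset.mul_sum]
  refine Finset.sum_congr rfl fun i _ => ?_
  rw [Measure.smul_apply, Measure.dirac_apply' _ hA, ht, ENNReal.ofReal_mul hp1,
    ofReal_measureReal, smul_eq_mul, mul_assoc]
  congr 1
  by_cases h : (i.1 : Eu n) ∈ A
  · rw [if_pos (show i.1 ∈ _ from h), indicator_of_mem h, Pi.one_apply, mul_one]
  · rw [if_neg (show i.1 ∉ _ from h), indicator_of_notMem h, mul_zero]

/-- The complete answer for `p ≥ n - 1`. -/
theorem discrete_iff (hp : 1 < p) (hpn : p < n) (hn : (n : ℝ) - 1 ≤ p) (μ : Measure (Sph n))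
    [IsFiniteMeasure μ] (U : Finset (Sph n)) (hU : μ (U : Set (Sph n))ᶜ = 0)
    (hpos : ∀ ξ ∈ U, μ {ξ} ≠ 0) (hsym : ∀ ξ ∈ U, -ξ ∈ U) :
    (∃ K, Solves p K μ) ↔ Submodule.span ℝ ((fun ξ : Sph n => (ξ : Eu n)) '' U) = ⊤ := by
  constructor
  · rintro ⟨K, hK⟩
    by_contra h
    obtain ⟨v, hv, hv0⟩ := Submodule.exists_mem_ne_zero_of_ne_bot
      (mt Submodule.orthogonal_eq_bot_iff.1 h)
    refine hK.hemisphere hp hpn hv0 (measure_mono_null (fun ξ hξ => ?_) hU)
    intro hξ'
    exact ne_of_gt hξ (Submodule.inner_right_of_mem_orthogonal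
      (Submodule.subset_span (mem_image_of_mem (fun ξ : Sph n => (ξ : Eu n)) hξ')) hv)
  · intro hspan
    have hq : 0 < (n : ℝ) - p := by linarith
    refine discrete_suff hp hpn μ U hU hpos hsym hspan fun L h1 h2 => ?_
    by_cases h : ∃ ξ ∈ U, (ξ : Eu n) ∈ L
    · obtain ⟨ξ, hξ, hξL⟩ := h
      refine lt_of_le_of_lt ?_ (bmain_pos (hpos ξ hξ) hξL)
      refine mul_nonpos_of_nonpos_of_nonneg (div_nonpos_of_nonpos_of_nonneg ?_ hq.le)
        measureReal_nonneg
      have h3 := Submodule.finrank_lt h1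
      rw [finrank_euclideanSpace_fin] at h3
      have h4 : (Module.finrank ℝ L : ℝ) + 1 ≤ n := by exact_mod_cast h3
      linarith
    · have h3 : L = ⊥ := by
        rw [h2, Submodule.span_eq_bot]
        rintro _ ⟨ξ, hξ, rfl⟩
        exact absurd ⟨ξ, hξ⟩ h
      have h4 : U.Nonempty := by
        rw [Finset.nonempty_iff_ne_empty]
        rintro rfl
        rw [Finset.coe_empty, image_empty, Submodule.span_empty] at hspan
        exact h1 (h3.trans hspan)
      obtain ⟨ξ, hξ⟩ := h4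
      refine lt_of_lt_of_le (mul_neg_of_neg_of_pos (div_neg_of_neg_of_pos ?_ hq)
        (bmain_pos (hpos ξ hξ) (mem_univ ξ))) measureReal_nonneg
      rw [h3, finrank_bot, Nat.cast_zero]
      linarith

end Pool.Agent.Work.MP_f7e2e5_gt
end
end

-- merged part: Pool.Agent.Work.MP_f7e2e5_gt.Cross
section
open MeasureTheory Set Metric Filter Topology
open scoped RealInnerProductSpace Pointwise ContDiff NNReal

noncomputable section

namespace Pool.Agent.Work.MP_f7e2e5_gt

variable {n : ℕ} {p : ℝ}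

theorem cross_fld (L : Submodule ℝ (Eu n)) : Fld (fun x => L.starProjection x) 1 := by
  refine ⟨L.starProjection.contDiff, fun x => ?_⟩
  rw [L.starProjection.fderiv]
  exact L.starProjection_norm_le

theorem cross_meas (L : Submodule ℝ (Eu n)) : MeasurableSet (L : Set (Eu n)) :=
  L.closed_of_finiteDimensional.measurableSet

theorem cross_Lam (hp : 1 < p) (hpn : p < n) {K : Set (Eu n)} (hK : Body0 K)
    {τ : Measure (Eu n)} (hτ : IsTau p K τ) (L : Submodule ℝ (Eu n))
    (h : ∀ᵐ y ∂τ, nrm K y ∈ L ∨ nrm K y ∈ Lᗮ) :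
    Lam p K (fun x => L.starProjection x) = τ.real {y | nrm K y ∈ L} := by
  have hm : MeasurableSet {y | nrm K y ∈ L} := measurable_nrm K (cross_meas L)
  rw [Lam_eq hp hpn hK hτ (cross_fld L), ← integral_indicator_one hm]
  refine integral_congr_ae ?_
  filter_upwards [h, tau_ae_reg hp hpn hK hτ] with y hy hr
  obtain ⟨h1, h2, -⟩ := reg_normal hK hr
  have hne : nrm K y ≠ 0 := by
    intro h0
    rw [h0, norm_zero] at h1
    exact zero_ne_one h1
  have hs := hK.supp_pos hne
  by_cases hL : nrm K y ∈ L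
  · rw [indicator_of_mem (show y ∈ {y | nrm K y ∈ L} from hL),
      Submodule.inner_starProjection_left_eq_right, Submodule.starProjection_eq_self_iff.2 hL, h2]
    exact div_self hs.ne'
  · rw [indicator_of_notMem (show y ∉ {y | nrm K y ∈ L} from hL),
      Submodule.inner_right_of_mem_orthogonal (L.starProjection_apply_mem y) (hy.resolve_left hL),
      zero_div]

/-- Strict subspace inequality when all normals lie in `L` or in its orthogonal complement. -/
theorem tau_subspace_lt (hp : 1 < p) (hpn : p < n) {K : Set (Eu n)} (hK : Body0 K)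
    {τ : Measure (Eu n)} (hτ : IsTau p K τ) (L : Submodule ℝ (Eu n)) (hL : L ≠ ⊥)
    (h : ∀ᵐ y ∂τ, nrm K y ∈ L ∨ nrm K y ∈ Lᗮ) :
    τ.real {y | nrm K y ∈ L} < Module.finrank ℝ L * cap p K := by
  rw [← cross_Lam hp hpn hK hτ L h]
  obtain ⟨w, hwL, hw0⟩ := Submodule.exists_mem_ne_zero_of_ne_bot hL
  have hw : 0 < ‖w‖ := norm_pos_iff.2 hw0
  have hv : ‖(‖w‖⁻¹ • w : Eu n)‖ = 1 := by
    rw [norm_smul, norm_inv, norm_norm, inv_mul_cancel₀ hw.ne']
  have hvL : (‖w‖⁻¹ • w : Eu n) ∈ L := L.smul_mem _ hwL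
  generalize (‖w‖⁻¹ • w : Eu n) = v at hv hvL
  obtain ⟨c, u, hc, hu, hcu⟩ := dir_energy hp hpn hK.1 hv
  have hp0 : 0 < p := by linarith
  have hcap := cap_nonneg p K
  have hε : 0 < c / (2 * (cap p K + 1)) := by positivity
  obtain ⟨C, hC, hy⟩ := proj_young hp hε
  set ε := c / (2 * (cap p K + 1)) with hεdef
  set k : ℝ := (Module.finrank ℝ L : ℝ) with hk
  have key : ∀ j, c ≤ ε * en p (u j) univ +
      C / p * (k * en p (u j) univ - lam p (u j) (fun x => L.starProjection x)) := by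
    intro j
    have h0 := (hu.1 j).lip0
    have i1 := h0.integrable_en hp0
    have i2 := lam_integrable hp h0 (cross_fld L)
    have i3 : Integrable (fun x => k * ‖gradient (u j) x‖ ^ p -
        ell p (gradient (u j) x) (fderiv ℝ (fun x => L.starProjection x) x)) :=
      (i1.const_mul k).sub i2
    refine (hcu j).trans ?_
    have e1 : ε * en p (u j) univ +
        C / p * (k * en p (u j) univ - lam p (u j) (fun x => L.starProjection x)) =
        ∫ x, (ε * ‖gradient (u j) x‖ ^ p + C / p * (k * ‖gradient (u j) x‖ ^ p -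
          ell p (gradient (u j) x) (fderiv ℝ (fun x => L.starProjection x) x))) := by
      rw [integral_add (i1.const_mul ε) (i3.const_mul _), integral_const_mul, integral_const_mul,
        integral_sub (i1.const_mul k) i2, integral_const_mul]
      simp only [en, lam, Measure.restrict_univ]
    rw [e1]
    refine integral_mono_of_nonneg (Eventually.of_forall fun x => by positivity)
      ((i1.const_mul ε).add (i3.const_mul _)) (Eventually.of_forall fun x => ?_)
    have e2 : fderiv ℝ (fun x => L.starProjection x) x = L.starProjection :=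
      L.starProjection.fderiv
    simp only [e2, ell_proj]
    generalize gradient (u j) x = g
    have b1 : |⟪g, v⟫| ≤ ‖L.starProjection g‖ := by
      rw [← Submodule.starProjection_eq_self_iff.2 hvL,
        ← Submodule.inner_starProjection_left_eq_right]
      refine (abs_real_inner_le_norm _ _).trans ?_
      rw [hv, mul_one]
    have b2 : ‖L.starProjection g‖ ≤ ‖g‖ := L.norm_starProjection_apply_le g
    have b3 := hy _ _ (norm_nonneg _) b2
    have b4 : |⟪g, v⟫| ^ p ≤ ‖L.starProjection g‖ ^ p :=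
      Real.rpow_le_rpow (abs_nonneg _) b1 hp0.le
    have b5 : C / p * (k * ‖g‖ ^ p - (‖g‖ ^ p * k - p * (‖g‖ ^ (p - 2) *
        ‖L.starProjection g‖ ^ 2))) = C * (‖g‖ ^ (p - 2) * ‖L.starProjection g‖ ^ 2) := by
      field_simp
      ring
    rw [b5]
    linarith
  have lim : Tendsto (fun j => ε * en p (u j) univ +
      C / p * (k * en p (u j) univ - lam p (u j) (fun x => L.starProjection x))) atTop
      (𝓝 (ε * cap p K + C / p * (k * cap p K - Lam p K (fun x => L.starProjection x)))) :=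
    (hu.2.const_mul ε).add (((hu.2.const_mul k).sub
      (tendsto_lam hp hK.1.1.isBounded hu (cross_fld L))).const_mul _)
  have fin := ge_of_tendsto' lim key
  have h1 : ε * cap p K < c := by
    rw [hεdef, div_mul_eq_mul_div, div_lt_iff₀ (by positivity)]
    nlinarith
  by_contra hcon
  have h2 : C / p * (k * cap p K - Lam p K (fun x => L.starProjection x)) ≤ 0 :=
    mul_nonpos_of_nonneg_of_nonpos (by positivity) (by linarith)
  linarith

/-- A unit vector with a coordinate of absolute value one is a coordinate direction. -/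
theorem cross_zero (ξ : Sph n) {j : Fin n} (hj : |(ξ : Eu n) j| = 1) {i : Fin n} (hi : i ≠ j) :
    (ξ : Eu n) i = 0 := by
  have h1 : ‖(ξ : Eu n)‖ = 1 := norm_eq_of_mem_sphere ξ
  have h2 := EuclideanSpace.real_norm_sq_eq (ξ : Eu n)
  rw [h1, ← Finset.add_sum_erase _ _ (Finset.mem_univ j), ← sq_abs ((ξ : Eu n) j), hj] at h2
  have h3 : ∑ x ∈ Finset.univ.erase j, (ξ : Eu n) x ^ 2 = 0 := by linarith
  rw [Finset.sum_eq_zero_iff_of_nonneg fun _ _ => sq_nonneg _] at h3
  exact pow_eq_zero_iff two_ne_zero |>.1 (h3 i (Finset.mem_erase.2 ⟨hi, Finset.mem_univ i⟩))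

theorem cross_eq (ξ : Sph n) {j : Fin n} (hj : |(ξ : Eu n) j| = 1) :
    (ξ : Eu n) = (ξ : Eu n) j • EuclideanSpace.single j (1 : ℝ) := by
  ext i
  by_cases hi : i = j
  · subst hi
    simp
  · simp [cross_zero ξ hj hi, hi]

/-- The coordinate subspace of a set of indices. -/
def crossSub (S : Finset (Fin n)) : Submodule ℝ (Eu n) :=
  Submodule.span ℝ (range fun i : S => EuclideanSpace.single (i : Fin n) (1 : ℝ))

theorem crossSub_finrank (S : Finset (Fin n)) : Module.finrank ℝ (crossSub S) = S.card := by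
  have h : LinearIndependent ℝ fun i : S => (EuclideanSpace.single (i : Fin n) (1 : ℝ) : Eu n) :=
    (EuclideanSpace.orthonormal_single (𝕜 := ℝ) (ι := Fin n)).linearIndependent.comp _
      Subtype.val_injective
  rw [crossSub, finrank_span_eq_card h, Fintype.card_coe]

theorem crossSub_single {S : Finset (Fin n)} {i : Fin n} (hi : i ∈ S) :
    (EuclideanSpace.single i (1 : ℝ) : Eu n) ∈ crossSub S :=
  Submodule.subset_span ⟨⟨i, hi⟩, rfl⟩

theorem crossSub_mem {S : Finset (Fin n)} (ξ : Sph n) {i : Fin n} (hi : i ∈ S)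
    (h : |(ξ : Eu n) i| = 1) : (ξ : Eu n) ∈ crossSub S := by
  rw [cross_eq ξ h]
  exact Submodule.smul_mem _ _ (crossSub_single hi)

theorem crossSub_orth {S : Finset (Fin n)} (ξ : Sph n) {i : Fin n} (hi : i ∉ S)
    (h : |(ξ : Eu n) i| = 1) : (ξ : Eu n) ∈ (crossSub S)ᗮ := by
  rw [Submodule.mem_orthogonal]
  intro w hw
  induction hw using Submodule.span_induction with
  | mem x hx =>
    obtain ⟨j, rfl⟩ := hx
    have hj : (j : Fin n) ≠ i := fun e => hi (e ▸ j.2)
    simp [EuclideanSpace.inner_single_left, cross_zero ξ h hj]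
  | zero => simp
  | add x y _ _ hx hy => rw [inner_add_left, hx, hy, add_zero]
  | smul a x _ hx => rw [real_inner_smul_left, hx, mul_zero]

theorem cross_finite : {ξ : Sph n | ∃ i : Fin n, |(ξ : Eu n) i| = 1}.Finite := by
  refine Finite.of_finite_image (f := fun ξ : Sph n => (ξ : Eu n)) ?_ Subtype.val_injective.injOn
  refine ((finite_range fun i : Fin n => (EuclideanSpace.single i (1 : ℝ) : Eu n)).union
    (finite_range fun i : Fin n => (-EuclideanSpace.single i (1 : ℝ) : Eu n))).subset ?_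
  rintro _ ⟨ξ, ⟨i, hi⟩, rfl⟩
  have h := cross_eq ξ hi
  rcases (abs_eq zero_le_one).1 hi with e | e
  · rw [e, one_smul] at h
    exact Or.inl ⟨i, h.symm⟩
  · rw [e, neg_smul, one_smul] at h
    exact Or.inr ⟨i, h.symm⟩

theorem cross_nec (hp : 1 < p) (hpn : p < n) (μ : Measure (Sph n)) [IsFiniteMeasure μ]
    (hμ : μ {ξ | ∀ i : Fin n, |(ξ : Eu n) i| ≠ 1} = 0) {K : Set (Eu n)} (h : Solves p K μ)
    (S : Finset (Fin n)) (hS : S.Nonempty) :
    μ.real {ξ | ∃ i ∈ S, |(ξ : Eu n) i| = 1} < S.card / (n - p) * μ.real univ := by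
  have hK := h.body0
  have hτ := isTau_tau hp hK
  have he := (solves_iff hp hpn hK hτ μ).1 h
  have hev : ∀ B : Set (Eu n), MeasurableSet B → tau p K (nrm K ⁻¹' B) =
      ENNReal.ofReal (p - 1) * μ ((fun ξ : Sph n => (ξ : Eu n)) ⁻¹' B) := by
    intro B hB
    rw [← Measure.map_apply (measurable_nrm K) hB, ← he, Measure.smul_apply,
      Measure.map_apply measurable_subtype_coe hB, smul_eq_mul]
  have hL : crossSub S ≠ ⊥ := by
    obtain ⟨i, hi⟩ := hS
    intro h0
    have h1 := crossSub_single hi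
    rw [h0, Submodule.mem_bot] at h1
    have h2 := congrArg (fun x : Eu n => x i) h1
    simp at h2
  have hae : ∀ᵐ y ∂(tau p K), nrm K y ∈ crossSub S ∨ nrm K y ∈ (crossSub S)ᗮ := by
    rw [ae_iff]
    have h1 := hev ((crossSub S : Set (Eu n)) ∪ ((crossSub S)ᗮ : Submodule ℝ (Eu n)))ᶜ
      ((cross_meas _).union (cross_meas _)).compl
    have h2 : μ ((fun ξ : Sph n => (ξ : Eu n)) ⁻¹'
        ((crossSub S : Set (Eu n)) ∪ ((crossSub S)ᗮ : Submodule ℝ (Eu n)))ᶜ) = 0 := by
      refine measure_mono_null ?_ hμ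
      intro ξ hξ i hi
      refine hξ ?_
      by_cases hiS : i ∈ S
      · exact Or.inl (crossSub_mem ξ hiS hi)
      · exact Or.inr (crossSub_orth ξ hiS hi)
    rw [h2, mul_zero] at h1
    exact h1
  have hlt := tau_subspace_lt hp hpn hK hτ (crossSub S) hL hae
  have hp1 : 0 < p - 1 := by linarith
  have hq : 0 < (n : ℝ) - p := by linarith
  have h3 : (tau p K).real {y | nrm K y ∈ crossSub S} =
      (p - 1) * μ.real {ξ | (ξ : Eu n) ∈ crossSub S} := by
    have := congrArg ENNReal.toReal (hev _ (cross_meas (crossSub S)))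
    rw [ENNReal.toReal_mul, ENNReal.toReal_ofReal hp1.le] at this
    exact this
  have h4 : μ.real {ξ | ∃ i ∈ S, |(ξ : Eu n) i| = 1} ≤ μ.real {ξ | (ξ : Eu n) ∈ crossSub S} :=
    measureReal_mono (fun ξ ⟨i, hi, hξ⟩ => crossSub_mem ξ hi hξ)
  have h5 := h.mass hp hpn
  rw [h3, crossSub_finrank] at hlt
  refine h4.trans_lt (lt_of_mul_lt_mul_left ?_ hp1.le)
  have h6 : (p - 1) * (S.card / (n - p) * μ.real univ) = S.card * cap p K := by
    rw [mul_left_comm, h5]
    field_simp
  rw [h6]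
  exact hlt

theorem cross_suff (hp : 1 < p) (hpn : p < n) (μ : Measure (Sph n)) [IsFiniteMeasure μ]
    (hμ : μ {ξ | ∀ i : Fin n, |(ξ : Eu n) i| ≠ 1} = 0)
    (h1 : ∀ i : Fin n, μ {ξ | (ξ : Eu n) i = 1} ≠ 0 ∧ μ {ξ | (ξ : Eu n) i = -1} ≠ 0)
    (h2 : ∀ S : Finset (Fin n), S.Nonempty →
      μ.real {ξ | ∃ i ∈ S, |(ξ : Eu n) i| = 1} < S.card / (n - p) * μ.real univ) :
    ∃ K, Solves p K μ := by
  classical
  have hmem : ∀ ξ : Sph n, ξ ∈ (cross_finite (n := n)).toFinset ↔ ∃ i, |(ξ : Eu n) i| = 1 :=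
    fun ξ => Finite.mem_toFinset _
  have htop : ∀ L : Submodule ℝ (Eu n),
      (∀ i, (EuclideanSpace.single i (1 : ℝ) : Eu n) ∈ L) → L = ⊤ := by
    intro L hL
    rw [eq_top_iff, ← (EuclideanSpace.basisFun (Fin n) ℝ).toBasis.span_eq, Submodule.span_le]
    rintro _ ⟨i, rfl⟩
    simpa using hL i
  refine discrete_suff hp hpn μ (cross_finite (n := n)).toFinset ?_ ?_ ?_ ?_ ?_
  · refine measure_mono_null ?_ hμ
    intro ξ hξ i hi
    exact hξ ((hmem ξ).2 ⟨i, hi⟩)
  · intro ξ hξ h0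
    obtain ⟨i, hi⟩ := (hmem ξ).1 hξ
    have hs : {ζ : Sph n | (ζ : Eu n) i = (ξ : Eu n) i} ⊆ {ξ} := by
      intro ζ hζ
      have e : (ζ : Eu n) i = (ξ : Eu n) i := hζ
      refine Subtype.ext ?_
      rw [cross_eq ζ (j := i) (by rw [e, hi]), e, ← cross_eq ξ hi]
    have h3 := measure_mono_null hs h0
    rcases (abs_eq zero_le_one).1 hi with e | e
    · rw [e] at h3
      exact (h1 i).1 h3
    · rw [e] at h3
      exact (h1 i).2 h3
  · intro ξ hξ
    obtain ⟨i, hi⟩ := (hmem ξ).1 hξ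
    exact (hmem _).2 ⟨i, by simpa using hi⟩
  · refine htop _ fun i => Submodule.subset_span ⟨⟨EuclideanSpace.single i (1 : ℝ), by simp⟩, ?_, rfl⟩
    exact (hmem _).2 ⟨i, by simp⟩
  · intro L hLt hL
    set S : Finset (Fin n) :=
      Finset.univ.filter fun i => (EuclideanSpace.single i (1 : ℝ) : Eu n) ∈ L with hS
    have hSm : ∀ i, i ∈ S ↔ (EuclideanSpace.single i (1 : ℝ) : Eu n) ∈ L := by simp [hS]
    have hle : L ≤ crossSub S := by
      rw [hL, Submodule.span_le]
      rintro _ ⟨ξ, ⟨hξ, hξL⟩, rfl⟩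
      obtain ⟨i, hi⟩ := (hmem ξ).1 hξ
      refine crossSub_mem ξ ((hSm i).2 ?_) hi
      have hne : (ξ : Eu n) i ≠ 0 := by
        intro e
        rw [e, abs_zero] at hi
        exact zero_ne_one hi
      rw [cross_eq ξ hi] at hξL
      exact (L.smul_mem_iff hne).1 hξL
    have hr : (Module.finrank ℝ L : ℝ) ≤ S.card := by
      rw [← crossSub_finrank]
      exact_mod_cast Submodule.finrank_mono hle
    have hne : (Sᶜ).Nonempty := by
      by_contra hc
      refine hLt (htop L fun i => (hSm i).1 ?_)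
      by_contra hi
      exact hc ⟨i, Finset.mem_compl.2 hi⟩
    have h3 := h2 _ hne
    have hcard : ((Sᶜ).card : ℝ) = n - S.card := by
      have := Finset.card_add_card_compl S
      rw [Fintype.card_fin] at this
      have h4 : (S.card : ℝ) + (Sᶜ).card = n := by exact_mod_cast this
      linarith
    have h5 : μ.real univ ≤ μ.real {ξ | (ξ : Eu n) ∈ L} +
        μ.real {ξ | ∃ i ∈ Sᶜ, |(ξ : Eu n) i| = 1} := by
      refine le_trans ?_ (measureReal_union_le _ _)
      refine ENNReal.toReal_mono (measure_ne_top _ _) (measure_mono_ae ?_)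
      have h6 : ∀ᵐ ξ : Sph n ∂μ, ¬ ∀ i : Fin n, |(ξ : Eu n) i| ≠ 1 := by
        rw [ae_iff]
        simpa using hμ
      filter_upwards [h6] with ξ hξ _
      push Not at hξ
      obtain ⟨i, hi⟩ := hξ
      by_cases hiS : i ∈ S
      · left
        change (ξ : Eu n) ∈ L
        rw [cross_eq ξ hi]
        exact L.smul_mem _ ((hSm i).1 hiS)
      · exact Or.inr ⟨i, Finset.mem_compl.2 hiS, hi⟩
    have hq : 0 < (n : ℝ) - p := by linarith
    have hm : 0 ≤ μ.real univ := measureReal_nonneg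
    have h7 : ((Module.finrank ℝ L : ℝ) - p) / (n - p) * μ.real univ ≤
        ((S.card : ℝ) - p) / (n - p) * μ.real univ := by gcongr
    have h8 : ((S.card : ℝ) - p) / (n - p) * μ.real univ =
        μ.real univ - (n - S.card) / (n - p) * μ.real univ := by
      field_simp
      ring
    rw [hcard] at h3
    linarith

/-- The complete answer for measures supported on the coordinate directions. -/
theorem cross_iff (hp : 1 < p) (hpn : p < n) (μ : Measure (Sph n)) [IsFiniteMeasure μ]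
    (hμ : μ {ξ | ∀ i : Fin n, |(ξ : Eu n) i| ≠ 1} = 0) :
    (∃ K, Solves p K μ) ↔
      (∀ i : Fin n, μ {ξ | (ξ : Eu n) i = 1} ≠ 0 ∧ μ {ξ | (ξ : Eu n) i = -1} ≠ 0) ∧
        ∀ S : Finset (Fin n), S.Nonempty →
          μ.real {ξ | ∃ i ∈ S, |(ξ : Eu n) i| = 1} < S.card / (n - p) * μ.real univ := by
  refine ⟨fun ⟨K, h⟩ => ⟨fun i => ?_, cross_nec hp hpn μ hμ h⟩,
    fun h => cross_suff hp hpn μ hμ h.1 h.2⟩
  have hne : (EuclideanSpace.single i (1 : ℝ) : Eu n) ≠ 0 := by
    intro h0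
    have h2 := congrArg (fun x : Eu n => x i) h0
    simp at h2
  have key : ∀ ξ : Sph n, (ξ : Eu n) i ≠ 0 →
      |(ξ : Eu n) i| = 1 ∨ ∀ j : Fin n, |(ξ : Eu n) j| ≠ 1 := by
    intro ξ hξ
    by_contra hc
    push Not at hc
    obtain ⟨h1, j, hj⟩ := hc
    by_cases e : i = j
    · exact h1 (e ▸ hj)
    · exact hξ (cross_zero ξ hj e)
  constructor
  · intro h0
    refine h.hemisphere hp hpn hne (measure_mono_null (fun ξ hξ => ?_) (measure_union_null h0 hμ))
    have h1 : 0 < (ξ : Eu n) i := by simpa [EuclideanSpace.inner_single_right] using hξ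
    refine (key ξ h1.ne').imp_left fun h2 => ?_
    rwa [abs_of_pos h1] at h2
  · intro h0
    refine h.hemisphere hp hpn (neg_ne_zero.2 hne)
      (measure_mono_null (fun ξ hξ => ?_) (measure_union_null h0 hμ))
    have h1 : (ξ : Eu n) i < 0 := by simpa [EuclideanSpace.inner_single_right] using hξ
    refine (key ξ h1.ne).imp_left fun h2 => ?_
    rw [abs_of_neg h1] at h2
    change (ξ : Eu n) i = -1
    linarith

end Pool.Agent.Work.MP_f7e2e5_gt
end
end
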