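import Pool.Agent.Work.MP_f7e2e5_gt.Supp
import Pool.Agent.Work.MP_f7e2e5_gt.Pot2

-- merged part: Pool.Agent.Work.MP_f7e2e5_gt.AMax
section
open MeasureTheory Set Metric Filter Topology
open scoped RealInnerProductSpace Pointwise ContDiff NNReal

noncomputable section

namespace Pool.Agent.Work.MP_f7e2e5_gt

variable {n : ℕ} {p : ℝ}

/-- The logarithmic tail function. -/
def AMax_f (e : Eu n) (η : ℝ) (ξ : Sph n) : ℝ := max 0 (Real.log (η / |⟪(ξ : Eu n), e⟫|))

theorem AMax_tail {μ : Measure (Sph n)} [IsFiniteMeasure μ] (h1 : DecayHyper μ) :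
    ∃ C s : ℝ, 0 < s ∧ ∀ e : Eu n, ‖e‖ = 1 → ∀ η : ℝ, 0 < η →
      Integrable (AMax_f e η) μ ∧ ∫ ξ, AMax_f e η ξ ∂μ ≤ C * η ^ s := by
  obtain ⟨C, s, hs, h⟩ := h1
  refine ⟨C / s, s, hs, fun e he η hη => ?_⟩
  have hC : 0 ≤ C := by simpa using measureReal_nonneg.trans (h e he 1 one_pos)
  have hc : Continuous fun ξ : Sph n => |⟪(ξ : Eu n), e⟫| := by fun_prop
  have hm : Measurable (AMax_f e η) :=
    measurable_const.max (measurable_const.div hc.measurable).log
  have h0 : 0 ≤ᵐ[μ] AMax_f e η := ae_of_all _ fun ξ => le_max_left _ _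
  have hi := (integrableOn_exp_mul_Ioi (neg_neg_of_pos hs) 0).const_mul (C * η ^ s)
  have key : ∫⁻ ξ, ENNReal.ofReal (AMax_f e η ξ) ∂μ ≤ ENNReal.ofReal (C / s * η ^ s) := by
    rw [lintegral_eq_lintegral_meas_le μ h0 hm.aemeasurable]
    calc _ ≤ ∫⁻ t in Ioi 0, ENNReal.ofReal (C * η ^ s * Real.exp (-s * t)) :=
          setLIntegral_mono' measurableSet_Ioi fun t ht => ?_
      _ = ENNReal.ofReal (∫ t in Ioi 0, C * η ^ s * Real.exp (-s * t)) :=
          (ofReal_integral_eq_lintegral_ofReal hi (ae_of_all _ fun t => by positivity)).symm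
      _ = _ := by
          rw [integral_const_mul, integral_exp_mul_Ioi (neg_neg_of_pos hs), mul_zero,
            Real.exp_zero, neg_div_neg_eq]
          congr 1
          ring
    have h2 := h e he (η * Real.exp (-t)) (by positivity)
    rw [Real.mul_rpow hη.le (Real.exp_pos _).le, ← Real.exp_mul, ← mul_assoc,
      show -t * s = -s * t by ring] at h2
    refine le_trans (measure_mono fun ξ hξ => ?_)
      ((ofReal_measureReal (measure_ne_top μ _)).symm.trans_le (ENNReal.ofReal_le_ofReal h2))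
    have h3 : t ≤ Real.log (η / |⟪(ξ : Eu n), e⟫|) :=
      (le_max_iff.1 hξ).resolve_left (not_le.2 ht)
    change |⟪(ξ : Eu n), e⟫| ≤ η * Real.exp (-t)
    rcases (abs_nonneg ⟪(ξ : Eu n), e⟫).eq_or_lt with h4 | h4
    · rw [← h4]; positivity
    · rw [Real.le_log_iff_exp_le (div_pos hη h4), le_div_iff₀ h4] at h3
      rw [Real.exp_neg, ← div_eq_mul_inv, le_div_iff₀ (Real.exp_pos _), mul_comm]
      exact h3
  refine ⟨⟨hm.aestronglyMeasurable, (hasFiniteIntegral_iff_ofReal h0).2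
    (key.trans_lt ENNReal.ofReal_lt_top)⟩, ?_⟩
  rw [integral_eq_lintegral_of_nonneg_ae h0 hm.aestronglyMeasurable]
  exact ENNReal.toReal_le_of_le_ofReal (by positivity) key

theorem AMax_small (C : ℝ) {s ε : ℝ} (hs : 0 < s) (hε : 0 < ε) :
    ∃ η : ℝ, 0 < η ∧ C * η ^ s < ε := by
  have h := ((Real.continuousAt_rpow_const 0 s (Or.inr hs.le)).tendsto.const_mul C).mono_left
    (nhdsWithin_le_nhds (s := Ioi 0))
  rw [Real.zero_rpow hs.ne', mul_zero] at h
  exact (eventually_mem_nhdsWithin.and (h.eventually (gt_mem_nhds hε))).exists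

theorem AMax_null {μ : Measure (Sph n)} [IsFiniteMeasure μ] (h1 : DecayHyper μ) {e : Eu n}
    (he : ‖e‖ = 1) : ∀ᵐ ξ : Sph n ∂μ, 0 < |⟪(ξ : Eu n), e⟫| := by
  obtain ⟨C, s, hs, h⟩ := h1
  rw [ae_iff, ← measureReal_eq_zero_iff]
  refine le_antisymm (le_of_forall_pos_le_add fun ε hε => ?_) measureReal_nonneg
  obtain ⟨η, hη, h2⟩ := AMax_small C hs hε
  rw [zero_add]
  exact (measureReal_mono fun ξ hξ => (not_lt.1 hξ).trans hη.le).trans ((h e he η hη).trans h2.le)

theorem AMax_abs {K : Set (Eu n)} (hK : SymC K) {x : Eu n} (hx : x ∈ K) (ξ : Eu n) :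
    |⟪ξ, x⟫| ≤ supp K ξ := by
  have h1 := le_supp hK.1 (Set.mem_neg.1 (hK.2.2.1.subset hx)) ξ
  rw [inner_neg_left] at h1
  rw [real_inner_comm]
  exact abs_le.2 ⟨neg_le.1 h1, le_supp hK.1 hx ξ⟩

theorem AMax_unit {K : Set (Eu n)} (hK : SymC K) : ∃ (ρ : ℝ) (e : Eu n), 0 < ρ ∧ ‖e‖ = 1 ∧
    ∀ ξ, ρ * |⟪ξ, e⟫| ≤ supp K ξ := by
  obtain ⟨x, hx, h0⟩ := hK.2.2.2
  have h1 : 0 < ‖x‖ := norm_pos_iff.2 h0
  refine ⟨‖x‖, ‖x‖⁻¹ • x, h1, by rw [norm_smul, norm_inv, norm_norm, inv_mul_cancel₀ h1.ne'],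
    fun ξ => ?_⟩
  rw [real_inner_smul_right, abs_mul, abs_of_pos (inv_pos.2 h1), mul_inv_cancel_left₀ h1.ne']
  exact AMax_abs hK hx ξ

theorem integrable_log_supp {μ : Measure (Sph n)} [IsFiniteMeasure μ] (h1 : DecayHyper μ)
    {K : Set (Eu n)} (hK : SymC K) : Integrable (fun ξ : Sph n => Real.log (supp K ξ)) μ := by
  obtain ⟨ρ, e, hρ, he, h⟩ := AMax_unit hK
  obtain ⟨C, s, -, h2⟩ := AMax_tail h1
  obtain ⟨R, hR⟩ := hK.1.isBounded.subset_closedBall 0
  obtain ⟨x, hx, -⟩ := hK.2.2.2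
  refine ((integrable_const R).add (h2 e he ρ⁻¹ (inv_pos.2 hρ)).1).mono'
    ((continuous_supp hK.1).comp continuous_subtype_val).measurable.log.aestronglyMeasurable ?_
  filter_upwards [AMax_null h1 he] with ξ hξ
  have h3 : supp K ξ ≤ R := supp_le ⟨x, hx⟩ fun y hy => (real_inner_le_norm _ _).trans (by
    rw [norm_eq_of_mem_sphere, mul_one]; exact mem_closedBall_zero_iff.1 (hR hy))
  have h4 := mul_pos hρ hξ
  have h5 := h4.trans_le (h ξ)
  have h6 := Real.log_le_log h4 (h ξ)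
  have h7 := Real.log_le_self h5.le
  have h8 : 0 ≤ AMax_f e ρ⁻¹ ξ := le_max_left _ _
  have h9 : -Real.log (ρ * |⟪(ξ : Eu n), e⟫|) ≤ AMax_f e ρ⁻¹ ξ := by
    rw [← Real.log_inv, mul_inv, ← div_eq_mul_inv]
    exact le_max_right _ _
  change |Real.log (supp K ξ)| ≤ R + AMax_f e ρ⁻¹ ξ
  exact abs_le.2 ⟨by linarith only [h3, h5, h6, h9], by linarith only [h3, h7, h8]⟩

theorem ae_supp_pos {μ : Measure (Sph n)} [IsFiniteMeasure μ] (h1 : DecayHyper μ)
    {K : Set (Eu n)} (hK : SymC K) : ∀ᵐ ξ : Sph n ∂μ, 0 < supp K ξ := by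
  obtain ⟨ρ, e, hρ, he, h⟩ := AMax_unit hK
  filter_upwards [AMax_null h1 he] with ξ hξ
  exact (mul_pos hρ hξ).trans_le (h ξ)

theorem SymC.smul {K : Set (Eu n)} (hK : SymC K) {l : ℝ} (hl : 0 < l) : SymC (l • K) := by
  obtain ⟨h1, h2, h3, x, hx, h0⟩ := hK
  exact ⟨h1.smul l, h2.smul l, by rw [← Set.smul_set_neg, ← h3], l • x, smul_mem_smul_set hx,
    smul_ne_zero hl.ne' h0⟩

theorem Phi_smul (hp : 1 < p) (hpn : p < n) {μ : Measure (Sph n)} [IsFiniteMeasure μ] (h0 : μ ≠ 0)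
    (h1 : DecayHyper μ) {K : Set (Eu n)} (hK : SymC K) {l : ℝ} (hl : 0 < l) :
    Phi p μ (l • K) = Phi p μ K := by
  have : NeZero μ := ⟨h0⟩
  have hM : 0 < μ.real univ := measureReal_univ_pos
  have hq : (n : ℝ) - p ≠ 0 := (sub_pos.2 hpn).ne'
  have e : ∫ ξ : Sph n, Real.log (supp (l • K) ξ) ∂μ =
      μ.real univ * Real.log l + ∫ ξ : Sph n, Real.log (supp K ξ) ∂μ := by
    rw [← smul_eq_mul, ← integral_const,
      ← integral_add (integrable_const _) (integrable_log_supp h1 hK)]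
    refine integral_congr_ae ?_
    filter_upwards [ae_supp_pos h1 hK] with ξ hξ
    rw [supp_smul hK.1 hl.le, Real.log_mul hl.ne' hξ.ne']
  rw [Phi, Phi, e, cap_smul (zero_lt_one.trans hp) K hl,
    Real.mul_rpow (Real.rpow_nonneg hl.le _) (cap_nonneg _ _), ← Real.rpow_mul hl.le,
    mul_one_div_cancel hq, Real.rpow_one, neg_add, add_div, Real.exp_add, neg_div,
    mul_div_cancel_left₀ _ hM.ne', Real.exp_neg, Real.exp_log hl]
  field_simp

theorem AMax_real {a b t η δ : ℝ} (ha : 0 < a) (hab : a ≤ b + δ) (ht : 0 < t) (htb : t ≤ b)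
    (hη : 0 < η) (hδ : 0 ≤ δ) :
    Real.log a ≤ Real.log b + max 0 (Real.log (η / t)) + δ / η := by
  have hm : 0 < max b η := hη.trans_le (le_max_right _ _)
  have hd : 0 ≤ δ / η := div_nonneg hδ hη.le
  have h1 : a ≤ max b η * (1 + δ / η) := by
    have h2 := mul_le_mul_of_nonneg_right (le_max_right b η) hd
    rw [mul_div_cancel₀ _ hη.ne'] at h2
    have h3 := le_max_left b η
    linarith only [hab, h2, h3]
  have h4 := Real.log_le_log ha h1
  rw [Real.log_mul hm.ne' (by positivity)] at h4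
  have h5 := Real.log_le_sub_one_of_pos (show 0 < 1 + δ / η by positivity)
  have h6 : Real.log (max b η) ≤ Real.log b + max 0 (Real.log (η / t)) := by
    rcases le_total b η with h | h
    · have h7 := le_max_right 0 (Real.log (η / t))
      have h8 := Real.log_le_log ht htb
      have h9 := Real.log_div hη.ne' ht.ne'
      rw [max_eq_right h]
      linarith only [h7, h8, h9]
    · rw [max_eq_left h]
      exact le_add_of_nonneg_right (le_max_left _ _)
  linarith only [h4, h5, h6]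

theorem AMax_int {μ : Measure (Sph n)} [IsFiniteMeasure μ] (h1 : DecayHyper μ) {ε : ℝ}
    (hε : 0 < ε) : ∃ δ : ℝ, 0 < δ ∧ ∀ K K' : Set (Eu n), SymC K → SymC K' → (∃ e ∈ K', ‖e‖ = 1) →
      (∀ x ∈ K, ∃ y ∈ K', dist x y < δ) →
      ∫ ξ : Sph n, Real.log (supp K ξ) ∂μ ≤ ∫ ξ : Sph n, Real.log (supp K' ξ) ∂μ + ε := by
  obtain ⟨C, s, hs, h2⟩ := AMax_tail h1
  obtain ⟨η, hη, h3⟩ := AMax_small C hs (half_pos hε)
  obtain ⟨δ, hδ, h4⟩ := AMax_small (μ.real univ / η) one_pos (half_pos hε)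
  refine ⟨δ, hδ, fun K K' hK hK' ⟨e, he, he1⟩ h => ?_⟩
  obtain ⟨h5, h6⟩ := h2 e he1 η hη
  have h7 := integrable_log_supp h1 hK'
  have h8 : ∫ ξ : Sph n, Real.log (supp K ξ) ∂μ ≤
      ∫ ξ : Sph n, Real.log (supp K' ξ) + AMax_f e η ξ + δ / η ∂μ := by
    refine integral_mono_ae (integrable_log_supp h1 hK) ((h7.add h5).add (integrable_const _)) ?_
    filter_upwards [ae_supp_pos h1 hK, AMax_null h1 he1] with ξ h9 h10
    refine AMax_real h9 (supp_le (hK.2.2.2.imp fun _ h => h.1) fun x hx => ?_) h10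
      (AMax_abs hK' he _) hη hδ.le
    obtain ⟨y, hy, hxy⟩ := h x hx
    have a1 := le_supp hK'.1 hy ξ
    have a2 := real_inner_le_norm (x - y) ξ
    rw [norm_eq_of_mem_sphere, mul_one, inner_sub_left, ← dist_eq_norm] at a2
    linarith only [hxy, a1, a2]
  rw [integral_add (by exact h7.add h5) (integrable_const _), integral_add h7 h5, integral_const,
    smul_eq_mul] at h8
  rw [Real.rpow_one, div_mul_eq_mul_div, mul_div_assoc] at h4
  linarith only [h3, h4, h6, h8]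

open TopologicalSpace

theorem AMax_near {K K' : NonemptyCompacts (Eu n)} {δ : ℝ} (h : dist K K' < δ) :
    ∀ x ∈ (K : Set (Eu n)), ∃ y ∈ (K' : Set (Eu n)), dist x y < δ := fun _ hx =>
  exists_dist_lt_of_hausdorffDist_lt hx h (hausdorffEDist_ne_top_of_nonempty_of_bounded
    K.nonempty K'.nonempty K.isCompact.isBounded K'.isCompact.isBounded)

/-- Convex symmetric sets that reach the unit sphere. -/
def AMax_G (n : ℕ) : Set (NonemptyCompacts (Eu n)) :=
  {K | Convex ℝ (K : Set (Eu n)) ∧ (∀ x ∈ (K : Set (Eu n)), -x ∈ (K : Set (Eu n))) ∧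
    ∃ e ∈ (K : Set (Eu n)), 1 ≤ ‖e‖}

theorem AMax_closed : IsClosed (AMax_G n) := by
  refine isClosed_of_closure_subset fun K hK => ?_
  have h : ∀ δ : ℝ, 0 < δ → ∃ K' ∈ AMax_G n,
      (∀ x ∈ (K : Set (Eu n)), ∃ y ∈ (K' : Set (Eu n)), dist x y < δ) ∧
      ∀ y ∈ (K' : Set (Eu n)), ∃ x ∈ (K : Set (Eu n)), dist y x < δ := fun δ hδ => by
    obtain ⟨K', h1, h2⟩ := Metric.mem_closure_iff.1 hK δ hδ
    exact ⟨K', h1, AMax_near h2, AMax_near (dist_comm K K' ▸ h2)⟩
  refine ⟨fun x hx y hy a b ha hb hab => ?_, fun x hx => ?_, ?_⟩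
  · refine K.isCompact.isClosed.closure_subset (Metric.mem_closure_iff.2 fun ε hε => ?_)
    obtain ⟨K', h1, h2, h3⟩ := h _ (half_pos hε)
    obtain ⟨x', hx', h4⟩ := h2 x hx
    obtain ⟨y', hy', h5⟩ := h2 y hy
    obtain ⟨z, hz, h6⟩ := h3 _ (h1.1 hx' hy' ha hb hab)
    refine ⟨z, hz, (dist_triangle _ (a • x' + b • y') _).trans_lt ?_⟩
    have h7 := dist_add_add_le (a • x) (b • y) (a • x') (b • y')
    rw [dist_smul₀, dist_smul₀, Real.norm_of_nonneg ha, Real.norm_of_nonneg hb] at h7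
    have h8 := mul_le_mul_of_nonneg_left h4.le ha
    have h9 := mul_le_mul_of_nonneg_left h5.le hb
    have h10 : a * (ε / 2) + b * (ε / 2) = ε / 2 := by rw [← add_mul, hab, one_mul]
    linarith only [h6, h7, h8, h9, h10]
  · refine K.isCompact.isClosed.closure_subset (Metric.mem_closure_iff.2 fun ε hε => ?_)
    obtain ⟨K', h1, h2, h3⟩ := h _ (half_pos hε)
    obtain ⟨x', hx', h4⟩ := h2 x hx
    obtain ⟨z, hz, h6⟩ := h3 _ (h1.2.1 x' hx')
    refine ⟨z, hz, (dist_triangle _ (-x') _).trans_lt ?_⟩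
    rw [dist_neg_neg]
    linarith only [h4, h6]
  · obtain ⟨x, hx, h1⟩ := K.isCompact.exists_isMaxOn K.nonempty continuous_norm.continuousOn
    refine ⟨x, hx, le_of_forall_pos_le_add fun ε hε => ?_⟩
    obtain ⟨K', ⟨-, -, e, he, h2⟩, -, h3⟩ := h ε hε
    obtain ⟨z, hz, h4⟩ := h3 e he
    have h5 : ‖z‖ ≤ ‖x‖ := h1 hz
    have h6 := norm_sub_norm_le e z
    rw [← dist_eq_norm] at h6
    linarith

/-- The normalised family. -/
def AMax_F (n : ℕ) : Set (NonemptyCompacts (Eu n)) :=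
  {K : NonemptyCompacts (Eu n) | (K : Set (Eu n)) ⊆ closedBall 0 1} ∩ AMax_G n

theorem AMax_sym {K : NonemptyCompacts (Eu n)} (h : K ∈ AMax_F n) :
    SymC (K : Set (Eu n)) ∧ ∃ e ∈ (K : Set (Eu n)), ‖e‖ = 1 := by
  obtain ⟨h1, h2, h3, e, he, h4⟩ := h
  refine ⟨⟨K.isCompact, h2, Set.ext fun x => ⟨h3 x, fun hx => neg_neg x ▸ h3 _ hx⟩, e, he,
    norm_pos_iff.1 (one_pos.trans_le h4)⟩, e, he,
    le_antisymm (mem_closedBall_zero_iff.1 (h1 he)) h4⟩

theorem AMax_norm {K : Set (Eu n)} (hK : SymC K) :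
    ∃ l : ℝ, 0 < l ∧ ∃ K' ∈ AMax_F n, (K' : Set (Eu n)) = l • K := by
  obtain ⟨x, hx, h0⟩ := hK.2.2.2
  obtain ⟨y, hy, h1⟩ := hK.1.exists_isMaxOn ⟨x, hx⟩ continuous_norm.continuousOn
  have h2 : 0 < ‖y‖ := (norm_pos_iff.2 h0).trans_le (h1 hx)
  have h3 := hK.smul (inv_pos.2 h2)
  have h4 : ∀ z : Eu n, ‖‖y‖⁻¹ • z‖ = ‖z‖ / ‖y‖ := fun z => by
    rw [norm_smul, norm_inv, norm_norm, inv_mul_eq_div]
  refine ⟨_, inv_pos.2 h2, ⟨⟨_, h3.1⟩, _, smul_mem_smul_set hy⟩, ⟨?_, h3.2.1,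
    fun z hz => Set.mem_neg.1 (h3.2.2.1.subset hz), _, smul_mem_smul_set hy, ?_⟩, rfl⟩
  · rintro _ ⟨z, hz, rfl⟩
    rw [mem_closedBall_zero_iff, h4, div_le_one h2]
    exact h1 hz
  · rw [h4, div_self h2.ne']

theorem AMax_usc (hp : 1 < p) (hpn : p < n) {μ : Measure (Sph n)} [IsFiniteMeasure μ]
    (h1 : DecayHyper μ) :
    UpperSemicontinuousOn (fun K : NonemptyCompacts (Eu n) => Phi p μ (K : Set (Eu n))) (AMax_F n) := by
  intro K hK y hy
  have hq : 0 ≤ 1 / ((n : ℝ) - p) := one_div_nonneg.2 (sub_pos.2 hpn).le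
  have hg : Continuous fun ε : ℝ => (cap p (K : Set (Eu n)) + ε) ^ (1 / ((n : ℝ) - p)) *
      Real.exp (-((∫ ξ : Sph n, Real.log (supp (K : Set (Eu n)) ξ) ∂μ) - ε) / μ.real univ) := by
    refine Continuous.mul ?_ (by fun_prop)
    exact (continuous_const.add continuous_id).rpow_const fun _ => Or.inr hq
  have h2 := (hg.tendsto 0).mono_left (nhdsWithin_le_nhds (s := Ioi 0))
  rw [add_zero, sub_zero] at h2
  obtain ⟨ε, hε, h3⟩ := (eventually_mem_nhdsWithin.and (h2.eventually (gt_mem_nhds hy))).exists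
  obtain ⟨δ₁, hδ₁, h4⟩ := cap_usc (zero_lt_one.trans hp) K.isCompact hε
  obtain ⟨δ₂, hδ₂, h5⟩ := AMax_int h1 hε
  refine eventually_nhdsWithin_iff.2 ?_
  filter_upwards [ball_mem_nhds K hδ₁, ball_mem_nhds K hδ₂] with K' a1 a2 hK'
  have a3 : cap p (K' : Set (Eu n)) ≤ cap p (cthickening δ₁ (K : Set (Eu n))) :=
    cap_mono (fun x hx => by
    obtain ⟨z, hz, h⟩ := AMax_near a1 x hx
    exact mem_cthickening_of_dist_le x z _ _ hz h.le) K.isCompact.isBounded.cthickening
  have a4 := h5 K K' (AMax_sym hK).1 (AMax_sym hK').1 (AMax_sym hK').2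
    (AMax_near (mem_ball'.1 a2))
  refine lt_of_le_of_lt (mul_le_mul (Real.rpow_le_rpow (cap_nonneg _ _) (a3.trans h4.le) hq)
    (Real.exp_le_exp.2 (div_le_div_of_nonneg_right (by linarith only [a4]) measureReal_nonneg))
    (Real.exp_pos _).le (Real.rpow_nonneg (add_nonneg (cap_nonneg _ _) (le_of_lt hε)) _)) h3

/-- The functional attains its maximum. -/
theorem exists_max (hp : 1 < p) (hpn : p < n) {μ : Measure (Sph n)} [IsFiniteMeasure μ]
    (h0 : μ ≠ 0) (h1 : DecayHyper μ) :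
    ∃ K : Set (Eu n), SymC K ∧ 0 < cap p K ∧ ∀ K', SymC K' → Phi p μ K' ≤ Phi p μ K := by
  obtain ⟨ξ⟩ : Nonempty (Sph n) := by
    by_contra h
    rw [not_nonempty_iff] at h
    exact h0 (Measure.eq_zero_of_isEmpty μ)
  have hB : SymC (closedBall (0 : Eu n) 1) :=
    ⟨isCompact_closedBall _ _, convex_closedBall _ _, by rw [neg_closedBall, neg_zero], ξ,
      sphere_subset_closedBall ξ.2, ne_zero_of_mem_unit_sphere ξ⟩
  obtain ⟨-, -, K₀, hK₀, -⟩ := AMax_norm hB
  obtain ⟨K, hK, hmax⟩ := (AMax_usc hp hpn h1).exists_isMaxOn ⟨K₀, hK₀⟩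
    ((NonemptyCompacts.isCompact_subsets_of_isCompact (isCompact_closedBall 0 1)).inter_right
      AMax_closed)
  have key : ∀ K', SymC K' → Phi p μ K' ≤ Phi p μ K := fun K' hK' => by
    obtain ⟨l, hl, K'', h2, h3⟩ := AMax_norm hK'
    rw [← Phi_smul hp hpn h0 h1 hK' hl, ← h3]
    exact hmax h2
  refine ⟨K, (AMax_sym hK).1, (cap_nonneg _ _).lt_of_ne fun h => ?_, key⟩
  have h2 := key _ hB
  have h3 := cap_pos hp hpn (isBounded_closedBall (x := (0 : Eu n)) (r := 1))
    ((nonempty_ball.2 one_pos).mono ball_subset_interior_closedBall)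
  rw [Phi, Phi, ← h, Real.zero_rpow (one_div_ne_zero (sub_pos.2 hpn).ne'), zero_mul] at h2
  exact h2.not_gt (mul_pos (Real.rpow_pos_of_pos h3 _) (Real.exp_pos _))

end Pool.Agent.Work.MP_f7e2e5_gt
end
end

-- merged part: Pool.Agent.Work.MP_f7e2e5_gt.Zero
section
open MeasureTheory Set Metric Filter Topology
open scoped RealInnerProductSpace Pointwise ContDiff NNReal

noncomputable section

namespace Pool.Agent.Work.MP_f7e2e5_gt

variable {n : ℕ} {p : ℝ}

theorem Zero_cyl_sub (L : Submodule ℝ (Eu n)) (R : ℝ) {s : ℝ} (hs : 0 < s) :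
    {x : Eu n | ‖L.starProjection x‖ ≤ s ∧ ‖x‖ ≤ R} ⊆
      (s • L.starProjection + (1 : ℝ) • Lᗮ.starProjection) '' closedBall (0 : Eu n) (1 + |R|) := by
  rintro x ⟨h1, h2⟩
  have a1 : L.starProjection (L.starProjection x) = L.starProjection x :=
    Submodule.starProjection_eq_self_iff.2 (L.starProjection_apply_mem x)
  have a2 : Lᗮ.starProjection (Lᗮ.starProjection x) = Lᗮ.starProjection x :=
    Submodule.starProjection_eq_self_iff.2 (Lᗮ.starProjection_apply_mem x)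
  have a3 : L.starProjection (Lᗮ.starProjection x) = 0 :=
    (Submodule.starProjection_apply_eq_zero_iff _).2 (Lᗮ.starProjection_apply_mem x)
  have a4 : Lᗮ.starProjection (L.starProjection x) = 0 :=
    (Submodule.starProjection_apply_eq_zero_iff _).2
      (L.le_orthogonal_orthogonal (L.starProjection_apply_mem x))
  refine ⟨s⁻¹ • L.starProjection x + Lᗮ.starProjection x, ?_, ?_⟩
  · rw [mem_closedBall_zero_iff]
    refine (norm_add_le _ _).trans (add_le_add ?_ ?_)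
    · rw [norm_smul, Real.norm_eq_abs, abs_of_pos (inv_pos.2 hs), inv_mul_le_iff₀ hs]
      simpa using h1
    · exact (Lᗮ.norm_starProjection_apply_le x).trans (h2.trans (le_abs_self R))
  · simp only [add_apply, smul_apply, map_add, map_smul,
      a1, a2, a3, a4, one_smul, smul_zero, add_zero, zero_add, smul_smul,
      inv_mul_cancel₀ hs.ne']
    exact L.starProjection_add_starProjection_orthogonal x

theorem Zero_cyl (L : Submodule ℝ (Eu n)) (R : ℝ) {s : ℝ} (hs : 0 < s) :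
    volume {x : Eu n | ‖L.starProjection x‖ ≤ s ∧ ‖x‖ ≤ R} ≤
      ENNReal.ofReal (s ^ Module.finrank ℝ L) * volume (closedBall (0 : Eu n) (1 + |R|)) := by
  refine (measure_mono (Zero_cyl_sub L R hs)).trans ?_
  rw [Measure.addHaar_image_continuousLinearMap]
  have := det_proj L s 1
  rw [one_pow, mul_one] at this
  change ENNReal.ofReal |(s • L.starProjection + (1 : ℝ) • Lᗮ.starProjection).det| * _ ≤ _
  rw [this, abs_of_pos (pow_pos hs _)]

theorem Zero_cyl_real (L : Submodule ℝ (Eu n)) (R : ℝ) {s : ℝ} (hs : 0 < s) :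
    volume.real {x : Eu n | ‖L.starProjection x‖ ≤ s ∧ ‖x‖ ≤ R} ≤
      volume.real (closedBall (0 : Eu n) (1 + |R|)) * s ^ Module.finrank ℝ L := by
  have h := ENNReal.toReal_mono
    (ENNReal.mul_ne_top ENNReal.ofReal_ne_top measure_closedBall_lt_top.ne) (Zero_cyl L R hs)
  rw [ENNReal.toReal_mul, ENNReal.toReal_ofReal (pow_pos hs _).le, mul_comm] at h
  exact h

/-- Volume of a thin cylinder. -/
theorem vol_cyl_le (L : Submodule ℝ (Eu n)) (R : ℝ) : ∃ C : ℝ, 0 ≤ C ∧ ∀ s : ℝ, 0 < s →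
    volume.real {x : Eu n | ‖L.starProjection x‖ ≤ s ∧ ‖x‖ ≤ R} ≤ C * s ^ Module.finrank ℝ L :=
  ⟨_, measureReal_nonneg, fun _ hs => Zero_cyl_real L R hs⟩

theorem Zero_line {e : Eu n} (he : ‖e‖ = 1) (x : Eu n) :
    ‖(ℝ ∙ e).starProjection x‖ = |⟪x, e⟫| := by
  rw [Submodule.starProjection_unit_singleton ℝ he, norm_smul, he, mul_one, real_inner_comm,
    Real.norm_eq_abs]

theorem Zero_line_rank {e : Eu n} (he : ‖e‖ = 1) : Module.finrank ℝ (ℝ ∙ e) = 1 :=
  finrank_span_singleton (by rintro rfl; simp at he)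

/-- The same for hyperplanes, uniformly in the normal. -/
theorem vol_slab_le (R : ℝ) : ∃ C : ℝ, 0 ≤ C ∧ ∀ e : Eu n, ‖e‖ = 1 → ∀ s : ℝ, 0 < s →
    volume.real {x : Eu n | |⟪x, e⟫| ≤ s ∧ ‖x‖ ≤ R} ≤ C * s := by
  refine ⟨volume.real (closedBall (0 : Eu n) (1 + |R|)), measureReal_nonneg,
    fun e he s hs => ?_⟩
  have h := Zero_cyl_real (ℝ ∙ e) R hs
  simp only [Zero_line he, Zero_line_rank he, pow_one] at h
  exact h

/-- Truncation to `[0, 1]`. -/
def Zero_cl (t : ℝ) : ℝ := max 0 (min 1 t)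

theorem Zero_cl_nonneg (t : ℝ) : 0 ≤ Zero_cl t := le_max_left _ _

theorem Zero_cl_le (t : ℝ) : Zero_cl t ≤ 1 := max_le zero_le_one (min_le_left _ _)

theorem Zero_cl_one {t : ℝ} (h : 1 ≤ t) : Zero_cl t = 1 := by
  rw [Zero_cl, min_eq_left h, max_eq_right zero_le_one]

theorem Zero_cl_zero {t : ℝ} (h : t ≤ 0) : Zero_cl t = 0 :=
  max_eq_left ((min_le_right _ _).trans h)

theorem Zero_cl_sub (a b : ℝ) : |Zero_cl a - Zero_cl b| ≤ |a - b| := by
  refine (abs_max_sub_max_le_max _ _ _ _).trans (max_le (by simp) ?_)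
  exact (abs_min_sub_min_le_max _ _ _ _).trans (max_le (by simp) le_rfl)

theorem Zero_lip_cl {f : Eu n → ℝ} (hf : LipF f) : LipF fun x => Zero_cl (f x) :=
  (LipF.const 0).max ((LipF.const 1).min hf)

theorem Zero_lip_proj (L : Submodule ℝ (Eu n)) : LipF fun x => ‖L.starProjection x‖ :=
  ⟨_, lipschitzWith_one_norm.comp L.starProjection.lipschitz⟩

theorem Zero_lip_sum {f : ℕ → Eu n → ℝ} (hf : ∀ i, LipF (f i)) (N : ℕ) :
    LipF fun x => ∑ i ∈ Finset.range N, f i x := by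
  induction N with
  | zero => simpa using LipF.const 0
  | succ N ih => simpa only [Finset.sum_range_succ] using ih.add (hf N)

theorem Zero_grad {u : Eu n → ℝ} {x₀ : Eu n} {C : ℝ} (hC : 0 ≤ C)
    (h : ∀ᶠ x in 𝓝 x₀, |u x - u x₀| ≤ C * ‖x - x₀‖) : ‖gradient u x₀‖ ≤ C := by
  rw [gradient, LinearIsometryEquiv.norm_map]
  exact norm_fderiv_le_of_lip' ℝ hC h

theorem Zero_tent (L : Submodule ℝ (Eu n)) {a : ℝ} (ha : 0 ≤ a) (x₀ : Eu n) :
    ∀ᶠ x in 𝓝 x₀, |Zero_cl (2 - a * ‖L.starProjection x‖) -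
      Zero_cl (2 - a * ‖L.starProjection x₀‖)| ≤
      (if 1 ≤ a * ‖L.starProjection x₀‖ ∧ a * ‖L.starProjection x₀‖ ≤ 2 then a else 0) *
        ‖x - x₀‖ := by
  have hc : Continuous fun x : Eu n => a * ‖L.starProjection x‖ := by fun_prop
  split_ifs with h
  · refine Eventually.of_forall fun x => (Zero_cl_sub _ _).trans ?_
    have h1 : |‖L.starProjection x‖ - ‖L.starProjection x₀‖| ≤ ‖x - x₀‖ := by
      refine (abs_norm_sub_norm_le _ _).trans ?_
      rw [← map_sub]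
      exact L.norm_starProjection_apply_le _
    have h2 : 2 - a * ‖L.starProjection x‖ - (2 - a * ‖L.starProjection x₀‖) =
        -(a * (‖L.starProjection x‖ - ‖L.starProjection x₀‖)) := by ring
    rw [h2, abs_neg, abs_mul, abs_of_nonneg ha]
    exact mul_le_mul_of_nonneg_left h1 ha
  · rcases not_and_or.1 h with h | h
    · have h := not_le.1 h
      filter_upwards [hc.continuousAt.eventually_lt continuousAt_const h] with x hx
      rw [Zero_cl_one (by linarith), Zero_cl_one (by linarith)]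
      simp
    · have h := not_le.1 h
      filter_upwards [continuousAt_const.eventually_lt hc.continuousAt h] with x hx
      rw [Zero_cl_zero (by linarith), Zero_cl_zero (by linarith)]
      simp

theorem Zero_pick {N : ℕ} (hN : 0 < N) {t : ℝ} (ht : 0 ≤ t) :
    ∃ j < N, ((N : ℝ) * t ≤ 2 → (N : ℝ) * 4 ^ j * t ≤ 2) ∧
      ∑ i ∈ Finset.range N, (if 1 ≤ (N : ℝ) * 4 ^ i * t ∧ (N : ℝ) * 4 ^ i * t ≤ 2
        then (N : ℝ) * 4 ^ i else 0) ≤ N * 4 ^ j := by
  have key : ∀ i j : ℕ, i < j → 1 ≤ (N : ℝ) * 4 ^ i * t → ¬ (N : ℝ) * 4 ^ j * t ≤ 2 := by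
    intro i j hij h1 h2
    have h3 : (4 : ℝ) ^ (i + 1) ≤ 4 ^ j := pow_le_pow_right₀ (by norm_num) hij
    have h4 : (N : ℝ) * 4 ^ (i + 1) * t ≤ (N : ℝ) * 4 ^ j * t := by gcongr
    have h5 : (N : ℝ) * 4 ^ (i + 1) * t = 4 * ((N : ℝ) * 4 ^ i * t) := by ring
    linarith only [h1, h2, h4, h5]
  by_cases h : ∃ j < N, 1 ≤ (N : ℝ) * 4 ^ j * t ∧ (N : ℝ) * 4 ^ j * t ≤ 2
  · obtain ⟨j, hj, h⟩ := h
    refine ⟨j, hj, fun _ => h.2, ?_⟩
    rw [Finset.sum_eq_single j, if_pos h]
    · intro i _ hij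
      refine if_neg fun hi => ?_
      rcases lt_or_gt_of_ne hij with hij | hij
      · exact key i j hij hi.1 h.2
      · exact key j i hij h.1 hi.2
    · intro hj'
      exact absurd (Finset.mem_range.2 hj) hj'
  · refine ⟨0, hN, fun h => by simpa using h, ?_⟩
    rw [Finset.sum_eq_zero fun i hi => if_neg fun hi' => h ⟨i, Finset.mem_range.1 hi, hi'⟩]
    positivity

/-- The test functions. -/
def Zero_u (L : Submodule ℝ (Eu n)) (R : ℝ) (N : ℕ) (x : Eu n) : ℝ :=
  min (Zero_cl (R + 1 - ‖x‖))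
    ((N : ℝ)⁻¹ * ∑ i ∈ Finset.range N, Zero_cl (2 - (N : ℝ) * 4 ^ i * ‖L.starProjection x‖))

theorem Zero_adm (L : Submodule ℝ (Eu n)) {R : ℝ} {N : ℕ} (hN : 0 < N) {K : Set (Eu n)}
    (hK : ∀ x ∈ K, ‖x‖ ≤ R) (hKL : ∀ x ∈ K, L.starProjection x = 0) : Adm K (Zero_u L R N) := by
  have h0 : ∀ x : Eu n, 0 ≤ (N : ℝ)⁻¹ * ∑ i ∈ Finset.range N,
      Zero_cl (2 - (N : ℝ) * 4 ^ i * ‖L.starProjection x‖) := fun x =>
    mul_nonneg (by positivity) (Finset.sum_nonneg fun i _ => Zero_cl_nonneg _)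
  refine ⟨Lip0.min_of_nonneg ⟨Zero_lip_cl ((LipF.const _).sub ⟨1, lipschitzWith_one_norm⟩), ?_⟩
    ((Zero_lip_sum (fun i => Zero_lip_cl ((LipF.const 2).sub ((Zero_lip_proj L).const_mul _)))
      N).const_mul _) (fun x => Zero_cl_nonneg _) h0, fun x => le_min (Zero_cl_nonneg _) (h0 x),
    fun x => (min_le_left _ _).trans (Zero_cl_le _), fun x hx => ?_⟩
  · refine HasCompactSupport.intro (isCompact_closedBall (0 : Eu n) (R + 1)) fun x hx => ?_
    rw [mem_closedBall_zero_iff, not_le] at hx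
    exact Zero_cl_zero (by linarith only [hx])
  · have h1 := hK x hx
    have h2 : (N : ℝ) ≠ 0 := by positivity
    rw [Zero_u, Zero_cl_one (by linarith only [h1]), hKL x hx]
    simp [Zero_cl_one, h2]

theorem Zero_u_grad (L : Submodule ℝ (Eu n)) (R : ℝ) {N : ℕ} (hN : 0 < N) (x₀ : Eu n) :
    gradient (Zero_u L R N) x₀ = 0 ∨ ∃ j < N, ‖L.starProjection x₀‖ ≤ 2 / (N * 4 ^ j) ∧
      ‖x₀‖ ≤ R + 1 ∧ ‖gradient (Zero_u L R N) x₀‖ ≤ 4 ^ j := by
  have hN' : (0 : ℝ) < N := by positivity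
  have h0 : ∀ x : Eu n, 0 ≤ (N : ℝ)⁻¹ * ∑ i ∈ Finset.range N,
      Zero_cl (2 - (N : ℝ) * 4 ^ i * ‖L.starProjection x‖) := fun x =>
    mul_nonneg (by positivity) (Finset.sum_nonneg fun i _ => Zero_cl_nonneg _)
  by_cases h1 : ‖x₀‖ ≤ R + 1
  swap
  · have hz : ∀ x : Eu n, R + 1 < ‖x‖ → Zero_u L R N x = 0 := fun x hx => by
      rw [Zero_u, Zero_cl_zero (by linarith only [hx]), min_eq_left (h0 x)]
    refine Or.inl (norm_le_zero_iff.1 (Zero_grad le_rfl ?_))
    filter_upwards [continuousAt_const.eventually_lt continuous_norm.continuousAt (not_le.1 h1)]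
      with x hx
    simp [hz x hx, hz x₀ (not_le.1 h1)]
  by_cases h2 : (N : ℝ) * ‖L.starProjection x₀‖ ≤ 2
  swap
  · have hz : ∀ x : Eu n, 2 < (N : ℝ) * ‖L.starProjection x‖ → Zero_u L R N x = 0 := by
      intro x hx
      rw [Zero_u, Finset.sum_eq_zero, mul_zero, min_eq_right (Zero_cl_nonneg _)]
      intro i _
      have h3 : (1 : ℝ) ≤ 4 ^ i := one_le_pow₀ (by norm_num)
      have h4 : (N : ℝ) * 1 * ‖L.starProjection x‖ ≤ (N : ℝ) * 4 ^ i * ‖L.starProjection x‖ := by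
        gcongr
      exact Zero_cl_zero (by linarith only [hx, h4])
    have hc : Continuous fun x : Eu n => (N : ℝ) * ‖L.starProjection x‖ := by fun_prop
    refine Or.inl (norm_le_zero_iff.1 (Zero_grad le_rfl ?_))
    filter_upwards [continuousAt_const.eventually_lt hc.continuousAt (not_le.1 h2)] with x hx
    simp [hz x hx, hz x₀ (not_le.1 h2)]
  obtain ⟨j, hj, h3, h4⟩ := Zero_pick hN (norm_nonneg (L.starProjection x₀))
  refine Or.inr ⟨j, hj, ?_, h1, Zero_grad (by positivity) ?_⟩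
  · rw [le_div_iff₀ (by positivity), mul_comm]
    exact h3 h2
  have h5 := (eventually_all_finset (Finset.range N)).2 fun i _ =>
    Zero_tent L (a := (N : ℝ) * 4 ^ i) (by positivity) x₀
  filter_upwards [h5] with x hx
  refine (abs_min_sub_min_le_max _ _ _ _).trans (max_le ((Zero_cl_sub _ _).trans ?_) ?_)
  · have h6 : R + 1 - ‖x‖ - (R + 1 - ‖x₀‖) = -(‖x‖ - ‖x₀‖) := by ring
    have h7 : (1 : ℝ) ≤ 4 ^ j := one_le_pow₀ (by norm_num)
    rw [h6, abs_neg]
    exact (abs_norm_sub_norm_le _ _).trans (le_mul_of_one_le_left (norm_nonneg _) h7)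
  · rw [← mul_sub, ← Finset.sum_sub_distrib, abs_mul, abs_of_pos (inv_pos.2 hN'),
      inv_mul_le_iff₀ hN', ← mul_assoc]
    refine (Finset.abs_sum_le_sum_abs _ _).trans ((Finset.sum_le_sum hx).trans ?_)
    rw [← Finset.sum_mul]
    exact mul_le_mul_of_nonneg_right h4 (norm_nonneg _)

theorem Zero_en (hp : 1 < p) (L : Submodule ℝ (Eu n)) (hk : p ≤ Module.finrank ℝ L) (R : ℝ) :
    ∃ C : ℝ, ∀ N : ℕ, 0 < N → en p (Zero_u L R N) univ ≤ C / N := by
  obtain ⟨C, hC, hvol⟩ := vol_cyl_le L (R + 1)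
  set k := Module.finrank ℝ L with hkdef
  have hk2 : 2 ≤ k := by
    have : (1 : ℝ) < k := hp.trans_le hk
    exact_mod_cast this
  refine ⟨C * 2 ^ k, fun N hN => ?_⟩
  have hN' : (1 : ℝ) ≤ N := by exact_mod_cast hN
  let A : ℕ → Set (Eu n) := fun i =>
    {x | ‖L.starProjection x‖ ≤ 2 / (N * 4 ^ i) ∧ ‖x‖ ≤ R + 1}
  have hA : ∀ i, MeasurableSet (A i) := fun i =>
    ((isClosed_le (Zero_lip_proj L).continuous continuous_const).inter
      (isClosed_le continuous_norm continuous_const)).measurableSet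
  have hA' : ∀ i, volume (A i) ≠ ⊤ := fun i =>
    ((measure_mono (t := closedBall (0 : Eu n) (R + 1)) fun x hx =>
      mem_closedBall_zero_iff.2 hx.2).trans_lt measure_closedBall_lt_top).ne
  have hint : ∀ i, Integrable ((A i).indicator fun _ => ((4 : ℝ) ^ i) ^ k) := fun i =>
    (integrableOn_const (hA' i)).integrable_indicator (hA i)
  have hpt : ∀ x, ‖gradient (Zero_u L R N) x‖ ^ p ≤
      ∑ i ∈ Finset.range N, (A i).indicator (fun _ => ((4 : ℝ) ^ i) ^ k) x := by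
    intro x
    have hnn : ∀ i ∈ Finset.range N, 0 ≤ (A i).indicator (fun _ => ((4 : ℝ) ^ i) ^ k) x :=
      fun i _ => indicator_nonneg (fun _ _ => by positivity) x
    rcases Zero_u_grad L R hN x with h | ⟨j, hj, h1, h2, h3⟩
    · rw [h, norm_zero, Real.zero_rpow (by linarith only [hp])]
      exact Finset.sum_nonneg hnn
    · refine le_trans ?_ (Finset.single_le_sum hnn (Finset.mem_range.2 hj))
      rw [indicator_of_mem (show x ∈ A j from ⟨h1, h2⟩), ← Real.rpow_natCast]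
      exact (Real.rpow_le_rpow (norm_nonneg _) h3 (by linarith only [hp])).trans
        (Real.rpow_le_rpow_of_exponent_le (one_le_pow₀ (by norm_num)) hk)
  rw [en, Measure.restrict_univ]
  refine (integral_mono_of_nonneg (Eventually.of_forall fun x => by positivity)
    (integrable_finsetSum _ fun i _ => hint i) (Eventually.of_forall hpt)).trans ?_
  rw [integral_finsetSum _ fun i _ => hint i]
  have hterm : ∀ i ∈ Finset.range N, ∫ x, (A i).indicator (fun _ => ((4 : ℝ) ^ i) ^ k) x ≤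
      C * 2 ^ k / N ^ 2 := by
    intro i _
    rw [integral_indicator_const _ (hA i), smul_eq_mul]
    refine (mul_le_mul_of_nonneg_right (hvol _ (by positivity)) (by positivity)).trans ?_
    have h1 : C * (2 / ((N : ℝ) * 4 ^ i)) ^ k * (4 ^ i) ^ k = C * 2 ^ k / N ^ k := by
      rw [div_pow, mul_pow]
      field_simp
    rw [h1]
    exact div_le_div_of_nonneg_left (by positivity) (by positivity) (pow_le_pow_right₀ hN' hk2)
  refine (Finset.sum_le_sum hterm).trans (le_of_eq ?_)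
  rw [Finset.sum_const, Finset.card_range, nsmul_eq_mul]
  field_simp

/-- Bounded subsets of a subspace of codimension `k ≥ p` have capacity zero. -/
theorem cap_eq_zero (hp : 1 < p) (L : Submodule ℝ (Eu n)) (hk : p ≤ Module.finrank ℝ L)
    {K : Set (Eu n)} (hK : Bornology.IsBounded K) (hKL : ∀ x ∈ K, L.starProjection x = 0) :
    cap p K = 0 := by
  obtain ⟨R, hR⟩ := hK.exists_norm_le
  obtain ⟨C, hC⟩ := Zero_en hp L hk R
  refine le_antisymm ?_ (cap_nonneg p K)
  refine ge_of_tendsto (tendsto_const_div_atTop_nhds_zero_nat C) ?_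
  filter_upwards [eventually_gt_atTop 0] with N hN
  exact (cap_le_en (Zero_adm L hN hR hKL)).trans (hC N hN)

theorem Zero_sph {μ : Measure (Sph n)} {Λ : ℝ≥0}
    (h : μ ≤ Λ • (volume : Measure (Eu n)).toSphere) : ∃ C : ℝ, 0 ≤ C ∧
      ∀ (L : Submodule ℝ (Eu n)) (r : ℝ), 0 < r → ∀ S : Set (Sph n),
        (∀ ξ ∈ S, ‖L.starProjection (ξ : Eu n)‖ ≤ r) →
          μ.real S ≤ C * r ^ Module.finrank ℝ L := by
  refine ⟨Λ * (Module.finrank ℝ (Eu n) * volume.real (closedBall (0 : Eu n) (1 + |1|))),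
    by positivity, fun L r hr S hS => ?_⟩
  have hm : MeasurableSet {ξ : Sph n | ‖L.starProjection (ξ : Eu n)‖ ≤ r} :=
    (isClosed_le (by fun_prop) continuous_const).measurableSet
  have h1 : Ioo (0 : ℝ) 1 • ((↑) '' {ξ : Sph n | ‖L.starProjection (ξ : Eu n)‖ ≤ r}) ⊆
      {x : Eu n | ‖L.starProjection x‖ ≤ r ∧ ‖x‖ ≤ 1} := by
    rintro _ ⟨t, ht, _, ⟨ξ, hξ, rfl⟩, rfl⟩
    have hξ1 : ‖(ξ : Eu n)‖ = 1 := norm_eq_of_mem_sphere ξ
    have ht' : ‖t‖ ≤ 1 := by rw [Real.norm_eq_abs, abs_of_pos ht.1]; exact ht.2.le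
    refine ⟨?_, ?_⟩
    · show ‖L.starProjection (t • (ξ : Eu n))‖ ≤ r
      rw [map_smul, norm_smul]
      exact (mul_le_of_le_one_left (norm_nonneg _) ht').trans hξ
    · show ‖t • (ξ : Eu n)‖ ≤ 1
      rwa [norm_smul, hξ1, mul_one]
  have h2 : μ S ≤ Λ * (Module.finrank ℝ (Eu n) * (ENNReal.ofReal (r ^ Module.finrank ℝ L) *
      volume (closedBall (0 : Eu n) (1 + |1|)))) := by
    refine (measure_mono (t := {ξ : Sph n | ‖L.starProjection (ξ : Eu n)‖ ≤ r}) hS).trans
      ((Measure.le_iff'.1 h _).trans ?_)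
    rw [Measure.smul_apply, Measure.toSphere_apply' _ hm, ENNReal.smul_def, smul_eq_mul]
    gcongr
    exact (measure_mono h1).trans (Zero_cyl L 1 hr)
  have h3 := ENNReal.toReal_mono (ENNReal.mul_ne_top ENNReal.coe_ne_top (ENNReal.mul_ne_top
    (ENNReal.natCast_ne_top _) (ENNReal.mul_ne_top ENNReal.ofReal_ne_top
      measure_closedBall_lt_top.ne))) h2
  rw [ENNReal.toReal_mul, ENNReal.toReal_mul, ENNReal.toReal_mul,
    ENNReal.toReal_ofReal (pow_pos hr _).le, ENNReal.coe_toReal, ENNReal.toReal_natCast] at h3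
  refine h3.trans (le_of_eq ?_)
  rw [Measure.real]
  ring

/-- Bounded densities have the two decay properties when `n ≥ 3`. -/
theorem decay_of_le (hp : 1 < p) (hn : 3 ≤ n) {μ : Measure (Sph n)} {Λ : ℝ≥0}
    (h : μ ≤ Λ • (volume : Measure (Eu n)).toSphere) : DecayHyper μ ∧ DecayLow p μ := by
  obtain ⟨C, hC, hS⟩ := Zero_sph h
  refine ⟨⟨C, 1, one_pos, fun e he r hr => ?_⟩, fun L h1 h2 h3 => ?_⟩
  · have := hS (ℝ ∙ e) r hr {ξ | |⟪(ξ : Eu n), e⟫| ≤ r} fun ξ hξ => by
      rw [Zero_line he]; exact hξ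
    rw [Zero_line_rank he, pow_one] at this
    rwa [Real.rpow_one]
  set k := Module.finrank ℝ L with hk
  set m := Module.finrank ℝ Lᗮ with hm
  have hkm : k + m = n := by
    rw [hk, hm, Submodule.finrank_add_finrank_orthogonal, finrank_euclideanSpace_fin]
  have hk1 : k ≠ 0 := fun h0 => h1 (Submodule.finrank_eq_zero.1 h0)
  have hm1 : m ≠ 0 := fun h0 =>
    h2 (Submodule.orthogonal_eq_bot_iff.1 (Submodule.finrank_eq_zero.1 h0))
  have hb : 0 < (m : ℝ) - (p - k) / (p - 1) := by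
    rw [sub_pos, div_lt_iff₀ (by linarith only [hp])]
    rcases Nat.lt_or_ge 1 k with h4 | h4
    · have h5 : (1 : ℝ) < k := by exact_mod_cast h4
      have h6 : (1 : ℝ) ≤ m := by exact_mod_cast Nat.one_le_iff_ne_zero.2 hm1
      linarith only [h5, hp, h6, mul_nonneg_of_nonpos_of_nonpos (le_of_lt (Mathlib.Tactic.Linarith.sub_neg_of_lt hp)) (Mathlib.Tactic.Linarith.sub_nonpos_of_le h6)]
    · have h5 : (1 : ℝ) ≤ k := by exact_mod_cast Nat.one_le_iff_ne_zero.2 hk1
      have h6 : (2 : ℝ) ≤ m := by exact_mod_cast (by omega : 2 ≤ m)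
      linarith only [hp, h5, h6, mul_nonneg_of_nonpos_of_nonpos (le_of_lt (Mathlib.Tactic.Linarith.sub_neg_of_lt hp)) (Mathlib.Tactic.Linarith.sub_nonpos_of_le h6)]
  have ht : Tendsto (fun r : ℝ => C * r ^ ((m : ℝ) - (p - k) / (p - 1))) (𝓝[>] 0) (𝓝 0) := by
    have := ((Real.continuousAt_rpow_const 0 _ (Or.inr hb.le)).tendsto.const_mul C).mono_left
      (nhdsWithin_le_nhds (s := Ioi 0))
    rwa [Real.zero_rpow hb.ne', mul_zero] at this
  refine squeeze_zero' ?_ ?_ ht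
  · filter_upwards [self_mem_nhdsWithin] with r hr
    exact div_nonneg measureReal_nonneg (Real.rpow_nonneg (le_of_lt hr) _)
  · filter_upwards [self_mem_nhdsWithin] with r hr
    have hr' : (0 : ℝ) < r := hr
    rw [Real.rpow_sub hr', Real.rpow_natCast, ← mul_div_assoc]
    refine div_le_div_of_nonneg_right (hS Lᗮ r hr' _ fun ξ hξ => le_trans ?_ hξ)
      (Real.rpow_nonneg hr'.le _)
    refine (le_infDist ⟨0, L.zero_mem⟩).2 fun y hy => ?_
    have h4 : Lᗮ.starProjection y = 0 :=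
      (Submodule.starProjection_apply_eq_zero_iff _).2 (L.le_orthogonal_orthogonal hy)
    rw [dist_eq_norm, ← sub_zero (Lᗮ.starProjection (ξ : Eu n)), ← h4, ← map_sub]
    exact Lᗮ.norm_starProjection_apply_le _

end Pool.Agent.Work.MP_f7e2e5_gt
end
end

-- merged part: Pool.Agent.Work.MP_f7e2e5_gt.ADeg
section
open MeasureTheory Set Metric Filter Topology
open scoped RealInnerProductSpace Pointwise ContDiff NNReal

noncomputable section

namespace Pool.Agent.Work.MP_f7e2e5_gt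

variable {n : ℕ} {p : ℝ}

theorem ADeg_k {L : Submodule ℝ (Eu n)} (hp : 1 < p) (hk : (Module.finrank ℝ L : ℝ) < p) :
    0 < (p - Module.finrank ℝ L) / (p - 1) := div_pos (by linarith) (by linarith)

/-- A piece of a thin shell around the orthogonal complement of `L`. -/
theorem ADeg_shell (L : Submodule ℝ (Eu n)) (hL : L ≠ ⊥) {ρ : ℝ} (hρ : 0 < ρ) :
    ∃ v : ℝ, 0 < v ∧ ∀ δ : ℝ, 0 < δ → ∃ Q : Set (Eu n), IsCompact Q ∧
      volume.real Q = δ ^ Module.finrank ℝ L * v ∧ ∀ z ∈ Q, ‖Lᗮ.starProjection z‖ ≤ ρ / 2 ∧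
        δ / 4 ≤ ‖L.starProjection z‖ ∧ ‖L.starProjection z‖ ≤ δ / 2 := by
  obtain ⟨e0, he0, hne⟩ := (Submodule.ne_bot_iff L).1 hL
  have hn0 : 0 < ‖e0‖ := norm_pos_iff.2 hne
  set e : Eu n := (3 / 8 / ‖e0‖) • e0 with he
  have heL : e ∈ L := L.smul_mem _ he0
  have hen : ‖e‖ = 3 / 8 := by
    rw [he, norm_smul, Real.norm_of_nonneg (by positivity)]
    field_simp
  have hr : 0 < min (1 / 8) (ρ / 2) := lt_min (by norm_num) (by linarith only [hρ])
  refine ⟨volume.real (closedBall e (min (1 / 8) (ρ / 2))),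
    ENNReal.toReal_pos (measure_closedBall_pos _ _ hr).ne' measure_closedBall_lt_top.ne,
    fun δ hδ => ?_⟩
  let T : Eu n →L[ℝ] Eu n := δ • L.starProjection + (1 : ℝ) • Lᗮ.starProjection
  refine ⟨T '' closedBall e (min (1 / 8) (ρ / 2)), (isCompact_closedBall _ _).image T.continuous,
    ?_, ?_⟩
  · have hd : LinearMap.det (T : Eu n →ₗ[ℝ] Eu n) = δ ^ Module.finrank ℝ L := by
      have := det_proj L δ 1
      rw [one_pow, mul_one] at this
      exact this
    rw [Measure.real, Measure.addHaar_image_continuousLinearMap, hd, ENNReal.toReal_mul,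
      ENNReal.toReal_ofReal (abs_nonneg _), abs_of_nonneg (by positivity)]
    rfl
  · rintro _ ⟨y, hy, rfl⟩
    rw [mem_closedBall, dist_eq_norm] at hy
    have h1 : L.starProjection (L.starProjection y) = L.starProjection y :=
      Submodule.starProjection_eq_self_iff.2 (L.starProjection_apply_mem y)
    have h2 : Lᗮ.starProjection (Lᗮ.starProjection y) = Lᗮ.starProjection y :=
      Submodule.starProjection_eq_self_iff.2 (Lᗮ.starProjection_apply_mem y)
    have h3 : L.starProjection (Lᗮ.starProjection y) = 0 :=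
      (L.starProjection_apply_eq_zero_iff).2 (Lᗮ.starProjection_apply_mem y)
    have h4 : Lᗮ.starProjection (L.starProjection y) = 0 :=
      Submodule.starProjection_orthogonal_apply_eq_zero (L.starProjection_apply_mem y)
    have h5 : L.starProjection (T y) = δ • L.starProjection y := by
      simp only [T, add_apply, smul_apply, map_add,
        map_smul, h1, h3, smul_zero, add_zero]
    have h6 : Lᗮ.starProjection (T y) = Lᗮ.starProjection (y - e) := by
      simp only [T, add_apply, smul_apply, map_add,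
        map_smul, h2, h4, smul_zero, zero_add, one_smul, map_sub,
        Submodule.starProjection_orthogonal_apply_eq_zero heL, sub_zero]
    have h7 : ‖L.starProjection y - e‖ ≤ 1 / 8 := by
      have := L.norm_starProjection_apply_le (y - e)
      rw [map_sub, Submodule.starProjection_eq_self_iff.2 heL] at this
      exact this.trans (hy.trans (min_le_left _ _))
    have h8 := abs_le.1 ((abs_norm_sub_norm_le (L.starProjection y) e).trans h7)
    rw [h5, h6, norm_smul, Real.norm_of_nonneg hδ.le]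
    refine ⟨(Lᗮ.norm_starProjection_apply_le _).trans (hy.trans (min_le_right _ _)), ?_, ?_⟩ <;>
      linarith only [hen, hδ, h8, h8.1, h8.2, Mathlib.Tactic.Linarith.zero_mul_eq (sub_eq_zero_of_eq hen) (Mathlib.Tactic.Linarith.sub_neg_of_lt hδ), mul_nonneg_of_nonpos_of_nonpos (le_of_lt (Mathlib.Tactic.Linarith.sub_neg_of_lt hδ)) (Mathlib.Tactic.Linarith.sub_nonpos_of_le h8.left), mul_nonneg_of_nonpos_of_nonpos (le_of_lt (Mathlib.Tactic.Linarith.sub_neg_of_lt hδ)) (Mathlib.Tactic.Linarith.sub_nonpos_of_le h8.right)]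

theorem ADeg_zero {K : Set (Eu n)} (hK : SymC K) : (0 : Eu n) ∈ K := by
  obtain ⟨-, hc, hs, x, hx, -⟩ := hK
  have h1 : -x ∈ K := by
    rw [hs]
    simpa using hx
  have := hc hx h1 (a := 1 / 2) (b := 1 / 2) (by norm_num) (by norm_num) (by norm_num)
  simpa using this

theorem ADeg_symC {K : Set (Eu n)} (hK : SymC K) (δ : ℝ) :
    SymC (convexHull ℝ (K ∪ closedBall 0 δ)) := by
  obtain ⟨h1, h2, h3, x, hx, hx0⟩ := hK
  refine ⟨isCompact_convexHull_union h1 (isCompact_closedBall _ _) h2 (convex_closedBall _ _),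
    convex_convexHull _ _, ?_, x, subset_convexHull _ _ (Or.inl hx), hx0⟩
  rw [← convexHull_neg, Set.union_neg, ← h3, neg_closedBall, neg_zero]

theorem ADeg_supp (L : Submodule ℝ (Eu n)) {K : Set (Eu n)} (hK : IsCompact K) {ρ : ℝ}
    (hρ : 0 < ρ) (hρK : ∀ x, L.starProjection x = 0 → ‖x‖ ≤ ρ → x ∈ K) (ξ : Eu n) :
    ρ * infDist ξ (L : Set (Eu n)) ≤ supp K ξ := by
  have h1 : infDist ξ (L : Set (Eu n)) ≤ ‖Lᗮ.starProjection ξ‖ := by
    rw [Submodule.starProjection_orthogonal_val, ← dist_eq_norm]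
    exact infDist_le_dist_of_mem (L.starProjection_apply_mem ξ)
  refine (mul_le_mul_of_nonneg_left h1 hρ.le).trans ?_
  set w := Lᗮ.starProjection ξ with hw
  have hwL : w ∈ Lᗮ := Lᗮ.starProjection_apply_mem ξ
  have h2 : ⟪w, ξ⟫ = ‖w‖ ^ 2 := by
    have := Lᗮ.starProjection_inner_eq_zero ξ w hwL
    rw [inner_sub_left, ← hw, real_inner_self_eq_norm_sq, real_inner_comm] at this
    linarith only [this]
  have h3 : (ρ / ‖w‖) • w ∈ K := by
    refine hρK _ ((L.starProjection_apply_eq_zero_iff).2 (Lᗮ.smul_mem _ hwL)) ?_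
    rw [norm_smul, Real.norm_of_nonneg (by positivity)]
    rcases (norm_nonneg w).eq_or_lt with h | h
    · rw [← h, mul_zero]
      exact hρ.le
    · rw [div_mul_cancel₀ _ h.ne']
  have h4 := le_supp hK h3 ξ
  rw [real_inner_smul_left, h2] at h4
  refine le_trans (le_of_eq ?_) h4
  rcases (norm_nonneg w).eq_or_lt with h | h
  · rw [← h]
    simp
  · field_simp

/-- A symmetric convex set contains a disc of its span. -/
theorem ADeg_disc {K : Set (Eu n)} (hK : SymC K) :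
    ∃ ρ : ℝ, 0 < ρ ∧ ∀ x ∈ Submodule.span ℝ K, ‖x‖ ≤ ρ → x ∈ K := by
  have h0 := ADeg_zero hK
  obtain ⟨-, hc, hs, -⟩ := hK
  set S : Set (Submodule.span ℝ K) := Subtype.val ⁻¹' K with hS
  have hSc : Convex ℝ S := hc.linear_preimage (Submodule.span ℝ K).subtype
  have hS0 : (0 : Submodule.span ℝ K) ∈ S := h0
  have h1 : affineSpan ℝ S = ⊤ := by
    rw [AffineSubspace.affineSpan_eq_top_iff_vectorSpan_eq_top_of_nonempty ℝ _ _ ⟨0, hS0⟩,
      vectorSpan_eq_span_vsub_set_right ℝ hS0]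
    simp only [vsub_eq_sub, sub_zero, image_id']
    exact Submodule.span_span_coe_preimage
  obtain ⟨x, hx⟩ := hSc.interior_nonempty_iff_affineSpan_eq_top.2 h1
  have h2 : -x ∈ S := by
    have h3 : x ∈ S := interior_subset hx
    exact Set.mem_neg.1 (hs.subset h3)
  have h4 := hSc.combo_interior_self_mem_interior hx h2 (a := 1 / 2) (b := 1 / 2) (by norm_num)
    (by norm_num) (by norm_num)
  rw [smul_neg, add_neg_cancel, mem_interior_iff_mem_nhds] at h4
  obtain ⟨ρ, hρ, h5⟩ := nhds_basis_closedBall.mem_iff.1 h4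
  refine ⟨ρ, hρ, fun y hy hn => h5 (a := ⟨y, hy⟩) ?_⟩
  rw [mem_closedBall, dist_zero_right]
  exact hn

/-- Thickening a degenerate set gains capacity. -/
theorem gain_deg (hp : 1 < p) (hpn : p < n) (L : Submodule ℝ (Eu n)) (hL : L ≠ ⊥)
    (hk : (Module.finrank ℝ L : ℝ) < p) {K : Set (Eu n)} (hK : IsCompact K) (hc : Convex ℝ K)
    (hKL : ∀ x ∈ K, L.starProjection x = 0) {ρ : ℝ} (hρ : 0 < ρ)
    (hρK : ∀ x, L.starProjection x = 0 → ‖x‖ ≤ ρ → x ∈ K) :
    ∃ c δ0 : ℝ, 0 < c ∧ 0 < δ0 ∧ ∀ δ : ℝ, 0 < δ → δ ≤ δ0 →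
      cap p K + c * δ ^ ((p - Module.finrank ℝ L) / (p - 1)) ≤
        cap p (convexHull ℝ (K ∪ closedBall 0 δ)) := by
  obtain ⟨R, hR, hKR⟩ := hK.isBounded.subset_closedBall_lt 0 (0 : Eu n)
  obtain ⟨c, hc0, hb⟩ := barrier_cyl hp hpn hR
  obtain ⟨v, hv, hQ⟩ := ADeg_shell L hL hρ
  have hβ := ADeg_k hp hk
  set k : ℕ := Module.finrank ℝ L with hkdef
  set β : ℝ := (p - k) / (p - 1) with hβdef
  have hp0 : 0 < p := by linarith only [hp]
  have hθ : 0 < (1 / 4 : ℝ) ^ β - (1 / 8 : ℝ) ^ β :=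
    sub_pos.2 (Real.rpow_lt_rpow (by norm_num) (by norm_num) hβ)
  set κ : ℝ := min (c * ((1 / 4 : ℝ) ^ β - (1 / 8 : ℝ) ^ β)) (1 / 2) with hκ
  have hκ0 : 0 < κ := lt_min (mul_pos hc0 hθ) (by norm_num)
  set I : ℝ := ∫ s in Ioo (0 : ℝ) 1, s ^ (-(k : ℝ) / p) with hI
  have hI0 : 0 ≤ I := setIntegral_nonneg measurableSet_Ioo fun s hs => Real.rpow_nonneg hs.1.le _
  have h2p : 0 < 1 - (2 : ℝ) ^ (1 - p) :=
    sub_pos.2 (Real.rpow_lt_one_of_one_lt_of_neg one_lt_two (by linarith only [hp]))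
  refine ⟨(1 - (2 : ℝ) ^ (1 - p)) * (κ ^ p * v / (I + 1) ^ p), 1, by positivity, one_pos,
    fun δ hδ hδ1 => ?_⟩
  set K' := convexHull ℝ (K ∪ closedBall (0 : Eu n) δ) with hK'
  have hK'c : IsCompact K' :=
    isCompact_convexHull_union hK (isCompact_closedBall _ _) hc (convex_closedBall _ _)
  have hKK' : K ⊆ K' := subset_union_left.trans (subset_convexHull _ _)
  obtain ⟨b, -, hb1, hb2⟩ := hb L 0 (δ / 8) hL hk (by rw [norm_zero]; linarith only [hR]) (by linarith only [hδ])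
  obtain ⟨Q, hQc, hQv, hQm⟩ := hQ δ hδ
  have hδβ : 0 < δ ^ β := Real.rpow_pos_of_pos hδ _
  have hδβ1 : δ ^ β ≤ 1 := Real.rpow_le_one hδ.le hδ1 hβ.le
  refine le_of_forall_pos_le_add fun η hη => ?_
  obtain ⟨u, hu, huη⟩ := exists_adm_lt (p := p) hK.isBounded hη
  obtain ⟨hf, hfe⟩ := hb2 K u hKR (fun z hz => by
    rw [sub_zero, hKL z hz, norm_zero]
    linarith only [hδ]) hu
  set f : Eu n → ℝ := fun z => min (u z) (1 - b z) with hfdef
  have hP : ∀ z : Eu n, L.starProjection (Lᗮ.starProjection z) = 0 := fun z =>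
    (L.starProjection_apply_eq_zero_iff).2 (Lᗮ.starProjection_apply_mem z)
  have hPz : ∀ z : Eu n, z - Lᗮ.starProjection z = L.starProjection z := fun z => by
    rw [Submodule.starProjection_orthogonal_val, sub_sub_cancel]
  have key := path_lower hp hf.lip0 Lᗮ.starProjection (ContinuousLinearMap.id ℝ (Eu n)) 0 0
    hQc.measurableSet hQc.isBounded hK'c.measurableSet (M := δ) (κ := κ * δ ^ β) hδ.le
    (integrableOn_weight hp hk) (fun s hs => Real.rpow_pos_of_pos hs.1 _) (fun s hs => by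
      have e : (1 - s) • Lᗮ.starProjection + s • ContinuousLinearMap.id ℝ (Eu n) =
          s • L.starProjection + (1 : ℝ) • Lᗮ.starProjection := by
        ext1 z
        simp only [add_apply, smul_apply,
          ContinuousLinearMap.id_apply, ← hPz]
        module
      rw [e, det_proj, one_pow, mul_one, abs_of_pos (pow_pos hs.1 _), ← Real.rpow_mul hs.1.le,
        div_mul_cancel₀ _ hp0.ne', ← Real.rpow_natCast, ← Real.rpow_add hs.1, neg_add_cancel,
        Real.rpow_zero])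
    (fun z hz => by
      rw [add_zero, add_zero, ContinuousLinearMap.id_apply, hPz]
      linarith only [hδ, hQm, hz, (hQm z hz).2.2])
    (fun s hs z hz => by
      obtain ⟨h1, -, h3⟩ := hQm z hz
      have a1 : (2 : ℝ) • Lᗮ.starProjection z ∈ K' := hKK' (hρK _ (by rw [map_smul, hP, smul_zero])
        (by rw [norm_smul, Real.norm_two]; linarith only [h1]))
      have a2 : (2 * s) • L.starProjection z ∈ K' := by
        refine subset_convexHull _ _ (Or.inr ?_)
        rw [mem_closedBall, dist_zero_right, norm_smul, Real.norm_of_nonneg (by linarith only [hs, hs.1])]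
        linarith only [hδ, hs, h3, hs.1, hs.2, norm_nonneg (L.starProjection z), mul_pos_of_neg_of_neg (Mathlib.Tactic.Linarith.sub_neg_of_lt hδ) (Mathlib.Tactic.Linarith.sub_neg_of_lt hs.right), mul_nonneg_of_nonpos_of_nonpos (Mathlib.Tactic.Linarith.sub_nonpos_of_le h3) (le_of_lt (Mathlib.Tactic.Linarith.sub_neg_of_lt hs.left))]
      have a3 := convex_convexHull ℝ _ a1 a2 (a := 1 / 2) (b := 1 / 2) (by norm_num) (by norm_num)
        (by norm_num)
      convert a3 using 1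
      rw [add_zero, add_zero, ContinuousLinearMap.id_apply, ← hPz]
      module)
    (by positivity) (fun z hz => by
      obtain ⟨h1, h2, -⟩ := hQm z hz
      rw [add_zero, add_zero, ContinuousLinearMap.id_apply,
        hf.one _ (hρK _ (hP z) (by linarith only [hρ, h1])), abs_sub_comm]
      refine le_trans ?_ (le_abs_self _)
      have a1 := hb1 z
      rw [sub_zero] at a1
      have a2 : f z ≤ 1 - b z := min_le_right _ _
      have a3 : (δ / 4) ^ β ≤ ‖L.starProjection z‖ ^ β := Real.rpow_le_rpow (by linarith only [hδ]) h2 hβ.le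
      have a4 : (δ / 4) ^ β = (1 / 4 : ℝ) ^ β * δ ^ β := by
        rw [← Real.mul_rpow (by norm_num) hδ.le]
        congr 1
        ring
      have a5 : (δ / 8) ^ β = (1 / 8 : ℝ) ^ β * δ ^ β := by
        rw [← Real.mul_rpow (by norm_num) hδ.le]
        congr 1
        ring
      have a6 : κ * δ ^ β ≤ min (c * (‖L.starProjection z‖ ^ β - (δ / 8) ^ β)) (1 / 2) := by
        refine le_min ?_ ?_
        · refine (mul_le_mul_of_nonneg_right (min_le_left _ _) hδβ.le).trans ?_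
          rw [mul_assoc]
          refine mul_le_mul_of_nonneg_left ?_ hc0.le
          rw [sub_mul, ← a4, ← a5]
          linarith only [a3]
        · have : κ ≤ 1 / 2 := min_le_right _ _
          linarith only [this, hκ0, hδβ1, mul_nonneg_of_nonpos_of_nonpos (le_of_lt (Mathlib.Tactic.Linarith.sub_neg_of_lt hκ0)) (Mathlib.Tactic.Linarith.sub_nonpos_of_le hδβ1)]
      linarith only [a1, a2, a6])
  have hen := en_nonneg p f K'
  have hg := cap_gain hp hKK' hK'c.isBounded hK'c.measurableSet hf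
  have e1 : (δ ^ β) ^ p * δ ^ k = δ ^ p * δ ^ β := by
    rw [← Real.rpow_mul hδ.le, ← Real.rpow_natCast, ← Real.rpow_add hδ, ← Real.rpow_add hδ]
    congr 1
    rw [hβdef]
    have : p - 1 ≠ 0 := by linarith only [hp]
    field_simp
    ring
  have hδp : 0 < δ ^ p := Real.rpow_pos_of_pos hδ _
  have e2 : (δ * I) ^ p ≤ δ ^ p * (I + 1) ^ p := by
    rw [Real.mul_rpow hδ.le hI0]
    exact mul_le_mul_of_nonneg_left (Real.rpow_le_rpow hI0 (by linarith only []) hp0.le) hδp.le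
  have e3 : κ ^ p * v / (I + 1) ^ p * δ ^ β ≤ en p f K' := by
    rw [div_mul_eq_mul_div, div_le_iff₀ (by positivity)]
    refine le_of_mul_le_mul_left ?_ hδp
    rw [hQv, Real.mul_rpow hκ0.le hδβ.le] at key
    calc δ ^ p * (κ ^ p * v * δ ^ β) = κ ^ p * (δ ^ p * δ ^ β) * v := by ring
      _ = κ ^ p * (δ ^ β) ^ p * (δ ^ k * v) := by rw [← e1]; ring
      _ ≤ (δ * I) ^ p * en p f K' := key
      _ ≤ δ ^ p * (I + 1) ^ p * en p f K' := mul_le_mul_of_nonneg_right e2 hen
      _ = δ ^ p * (en p f K' * (I + 1) ^ p) := by ring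
  have e4 := mul_le_mul_of_nonneg_left e3 h2p.le
  rw [mul_assoc]
  linarith only [huη, hfe, hg, e4]

/-- The loss in the entropy term. -/
theorem loss_deg (hp : 1 < p) {μ : Measure (Sph n)} [IsFiniteMeasure μ] (h1 : DecayHyper μ)
    (h2 : DecayLow p μ) (L : Submodule ℝ (Eu n)) (hL : L ≠ ⊥) (hL' : L ≠ ⊤)
    (hk : (Module.finrank ℝ L : ℝ) < p) {K : Set (Eu n)} (hK : SymC K) {ρ : ℝ} (hρ : 0 < ρ)
    (hρK : ∀ x, L.starProjection x = 0 → ‖x‖ ≤ ρ → x ∈ K) {ε : ℝ} (hε : 0 < ε) :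
    ∃ δ0 : ℝ, 0 < δ0 ∧ ∀ δ : ℝ, 0 < δ → δ ≤ δ0 →
      ∫ ξ : Sph n, Real.log (supp (convexHull ℝ (K ∪ closedBall 0 δ)) ξ) ∂μ ≤
        ∫ ξ : Sph n, Real.log (supp K ξ) ∂μ + ε * δ ^ ((p - Module.finrank ℝ L) / (p - 1)) := by
  have hβ := ADeg_k hp hk
  have h3 := h2 L hL hL' hk
  set β : ℝ := (p - Module.finrank ℝ L) / (p - 1) with hβdef
  have hη : 0 < ε * β * ρ ^ β := by positivity
  obtain ⟨r0, hr0, hr⟩ := (nhdsGT_basis (0 : ℝ)).eventually_iff.1 (h3.eventually (gt_mem_nhds hη))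
  refine ⟨ρ * r0 / 2, by positivity, fun δ hδ hδ1 => ?_⟩
  have hi1 := integrable_log_supp h1 hK
  have hi2 := integrable_log_supp h1 (ADeg_symC hK δ)
  have hs : ∀ ξ : Sph n, supp (convexHull ℝ (K ∪ closedBall 0 δ)) ξ = max (supp K ξ) δ := by
    intro ξ
    rw [supp_convexHull_union hK.1 (isCompact_closedBall _ _) ⟨0, ADeg_zero hK⟩
      (nonempty_closedBall.2 hδ.le), supp_closedBall _ hδ.le, inner_zero_left, zero_add,
      norm_eq_of_mem_sphere, mul_one]
  simp only [hs] at hi2 ⊢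
  rw [← sub_le_iff_le_add', ← integral_sub hi2 hi1,
    (hi2.sub' hi1).integral_eq_integral_meas_lt (by
      filter_upwards [ae_supp_pos h1 hK] with ξ hξ
      exact sub_nonneg.2 (Real.log_le_log hξ (le_max_left _ _)))]
  have hint := (integrableOn_exp_mul_Ioi (neg_lt_zero.2 hβ) 0).const_mul (ε * β * δ ^ β)
  refine (integral_mono_of_nonneg (Eventually.of_forall fun t => measureReal_nonneg) hint ?_).trans
    (le_of_eq ?_)
  · refine (ae_restrict_iff' measurableSet_Ioi).2 (Eventually.of_forall fun t ht => ?_)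
    have ht0 : 0 < t := ht
    have he : Real.exp (-t) < 1 := Real.exp_lt_one_iff.2 (by linarith only [ht0])
    have he0 := Real.exp_pos (-t)
    have hr1 : 0 < δ * Real.exp (-t) / ρ := by positivity
    have hr2 : δ * Real.exp (-t) / ρ < r0 := by
      rw [div_lt_iff₀ hρ]
      linarith only [hδ, hδ1, he, mul_pos_of_neg_of_neg (Mathlib.Tactic.Linarith.sub_neg_of_lt hδ) (Mathlib.Tactic.Linarith.sub_neg_of_lt he)]
    have h4 := hr ⟨hr1, hr2⟩
    rw [div_lt_iff₀ (Real.rpow_pos_of_pos hr1 _)] at h4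
    have h5 : ε * β * ρ ^ β * (δ * Real.exp (-t) / ρ) ^ β = ε * β * δ ^ β * Real.exp (-β * t) := by
      rw [Real.div_rpow (by positivity) hρ.le, Real.mul_rpow hδ.le he0.le, ← Real.exp_mul]
      have := (Real.rpow_pos_of_pos hρ β).ne'
      field_simp
    refine le_trans (measureReal_mono fun ξ hξ => ?_) (h4.le.trans h5.le)
    have h6 : t < Real.log (max (supp K ξ) δ) - Real.log (supp K ξ) := hξ
    have h7 := ADeg_supp L hK.1 hρ hρK ξ
    change infDist (ξ : Eu n) (L : Set (Eu n)) ≤ _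
    rw [le_div_iff₀' hρ]
    refine h7.trans ?_
    by_contra h8
    push Not at h8
    have h9 : 0 < supp K ξ := lt_trans (by positivity) h8
    rcases le_total (supp K ξ) δ with h | h
    · rw [max_eq_right h] at h6
      have := Real.log_lt_log (by positivity) h8
      rw [Real.log_mul hδ.ne' he0.ne', Real.log_exp] at this
      linarith only [h6, this]
    · rw [max_eq_left h, sub_self] at h6
      linarith only [ht0, h6]
  · rw [integral_const_mul, integral_exp_mul_Ioi (neg_lt_zero.2 hβ)]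
    have := hβ.ne'
    simp only [mul_zero, Real.exp_zero]
    field_simp

/-- A maximiser has interior points. -/
theorem max_interior (hp : 1 < p) (hpn : p < n) {μ : Measure (Sph n)} [IsFiniteMeasure μ]
    (h0 : μ ≠ 0) (h1 : DecayHyper μ) (h2 : DecayLow p μ) {K : Set (Eu n)} (hK : SymC K)
    (hpos : 0 < cap p K) (hmax : ∀ K', SymC K' → Phi p μ K' ≤ Phi p μ K) : Body0 K := by
  obtain ⟨ρ, hρ, hρK⟩ := ADeg_disc hK
  by_cases hF : Submodule.span ℝ K = ⊤
  · have : (0 : Eu n) ∈ interior K := by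
      rw [mem_interior_iff_mem_nhds]
      refine mem_of_superset (closedBall_mem_nhds 0 hρ) fun x hx => hρK x (by rw [hF]; trivial) ?_
      rwa [mem_closedBall, dist_zero_right] at hx
    exact ⟨⟨hK.1, hK.2.1, 0, this⟩, this⟩
  exfalso
  set L := (Submodule.span ℝ K)ᗮ with hLdef
  have hL : L ≠ ⊥ := fun h => hF (Submodule.orthogonal_eq_bot_iff.1 h)
  have hL' : L ≠ ⊤ := fun h => by
    obtain ⟨x, hx, hx0⟩ := hK.2.2.2
    have h3 := Submodule.subset_span (R := ℝ) hx
    rw [(Submodule.orthogonal_eq_top_iff _).1 h] at h3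
    exact hx0 h3
  have hP : ∀ x, L.starProjection x = 0 ↔ x ∈ Submodule.span ℝ K := fun x => by
    rw [L.starProjection_apply_eq_zero_iff, hLdef, Submodule.orthogonal_orthogonal]
  have hKL : ∀ x ∈ K, L.starProjection x = 0 := fun x hx => (hP x).2 (Submodule.subset_span hx)
  have hρK' : ∀ x, L.starProjection x = 0 → ‖x‖ ≤ ρ → x ∈ K := fun x hx => hρK x ((hP x).1 hx)
  rcases le_or_gt p (Module.finrank ℝ L) with hk | hk
  · exact hpos.ne' (cap_eq_zero hp L hk hK.1.isBounded hKL)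
  obtain ⟨c, δ0, hc, hδ0, hg⟩ := gain_deg hp hpn L hL hk hK.1 hK.2.1 hKL hρ hρK'
  have hm : 0 < μ.real univ :=
    ENNReal.toReal_pos (Measure.measure_univ_ne_zero.2 h0) (measure_ne_top _ _)
  have hq : 0 < (n : ℝ) - p := sub_pos.2 hpn
  obtain ⟨δ1, hδ1, hl⟩ := loss_deg hp h1 h2 L hL hL' hk hK hρ hρK'
    (ε := c / (cap p K + c) * μ.real univ / (2 * (n - p))) (by positivity)
  have hβ := ADeg_k hp hk
  set δ := min 1 (min δ0 δ1) with hδdef
  have hδ : 0 < δ := lt_min one_pos (lt_min hδ0 hδ1)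
  have g1 := hg δ hδ ((min_le_right _ _).trans (min_le_left _ _))
  have g2 := hl δ hδ ((min_le_right _ _).trans (min_le_right _ _))
  have g3 := hmax _ (ADeg_symC hK δ)
  have hx0 : 0 < δ ^ ((p - Module.finrank ℝ L) / (p - 1)) := Real.rpow_pos_of_pos hδ _
  have hx1 : δ ^ ((p - Module.finrank ℝ L) / (p - 1)) ≤ 1 :=
    Real.rpow_le_one hδ.le (min_le_left _ _) hβ.le
  unfold Phi at g3
  generalize δ ^ ((p - Module.finrank ℝ L) / (p - 1)) = x at *
  generalize cap p (convexHull ℝ (K ∪ closedBall 0 δ)) = C' at *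
  generalize ∫ ξ : Sph n, Real.log (supp (convexHull ℝ (K ∪ closedBall 0 δ)) ξ) ∂μ = A' at *
  generalize ∫ ξ : Sph n, Real.log (supp K ξ) ∂μ = A at *
  generalize cap p K = C at *
  generalize μ.real univ = m at *
  generalize (n : ℝ) - p = q at *
  have hcx : 0 < C + c * x := by positivity
  have hC' : 0 < C' := hcx.trans_le g1
  rw [Real.rpow_def_of_pos hC', Real.rpow_def_of_pos hpos, ← Real.exp_add, ← Real.exp_add,
    Real.exp_le_exp] at g3
  have g4 : c / (C + c) * x ≤ Real.log C' - Real.log C := by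
    have a1 := Real.one_sub_inv_le_log_of_pos (div_pos hcx hpos)
    rw [Real.log_div hcx.ne' hpos.ne', inv_div] at a1
    have a2 := Real.log_le_log hcx g1
    have a3 : c / (C + c) * x ≤ 1 - C / (C + c * x) := by
      rw [one_sub_div hcx.ne', add_sub_cancel_left, div_mul_eq_mul_div]
      exact div_le_div_of_nonneg_left (by positivity) hcx (by linarith only [hc, hx1, mul_nonneg_of_nonpos_of_nonpos (le_of_lt (Mathlib.Tactic.Linarith.sub_neg_of_lt hc)) (Mathlib.Tactic.Linarith.sub_nonpos_of_le hx1)])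
    linarith only [a1, a2, a3]
  have g5 : (A' - A) / m ≤ c / (C + c) * x / (2 * q) := by
    rw [div_le_iff₀ hm]
    calc A' - A ≤ c / (C + c) * m / (2 * q) * x := by linarith only [g2]
      _ = _ := by ring
  have g6 : (Real.log C' - Real.log C) / q ≤ (A' - A) / m := by
    calc (Real.log C' - Real.log C) / q
        = Real.log C' * (1 / q) + -A' / m - (Real.log C * (1 / q) + -A / m) + (A' - A) / m := by
          ring
      _ ≤ _ := by linarith only [g3]
  have g7 : c / (C + c) * x / q ≤ (Real.log C' - Real.log C) / q :=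
    div_le_div_of_nonneg_right g4 hq.le
  have g8 : c / (C + c) * x / (2 * q) < c / (C + c) * x / q :=
    div_lt_div_of_pos_left (by positivity) hq (by linarith only [hq])
  linarith only [g5, g6, g7, g8]

end Pool.Agent.Work.MP_f7e2e5_gt
end
end

-- merged part: Pool.Agent.Work.MP_f7e2e5_gt.AMain
section
open MeasureTheory Set Metric Filter Topology
open scoped RealInnerProductSpace Pointwise ContDiff NNReal

noncomputable section

namespace Pool.Agent.Work.MP_f7e2e5_gt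

variable {n : ℕ} {p : ℝ}

theorem amain_nonpos {F : ℝ → ℝ} {D t0 : ℝ} (ht0 : 0 < t0) (hF : HasDerivWithinAt F D (Ici 0) 0)
    (h : ∀ t, 0 < t → t ≤ t0 → F t ≤ F 0) : D ≤ 0 := by
  have hs : Ici (0 : ℝ) \ {0} = Ioi 0 := by
    ext x
    simp [lt_iff_le_and_ne, eq_comm]
  rw [hasDerivWithinAt_iff_tendsto_slope, hs] at hF
  refine le_of_tendsto hF ?_
  filter_upwards [Ioc_mem_nhdsGT ht0] with t ht
  rw [slope_def_field, sub_zero]
  exact div_nonpos_of_nonpos_of_nonneg (sub_nonpos.2 (h t ht.1 ht.2)) ht.1.le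

theorem amain_symC (hp : 1 < p) (hpn : p < n) {K : Set (Eu n)} (hB : Body0 K) (hs : K = -K) :
    SymC K := by
  obtain ⟨ρ, R, hρ, -, h1, -⟩ := hB.exists_radii
  have hn : 0 < n := by
    have : (0 : ℝ) < n := by linarith
    exact_mod_cast this
  refine ⟨hB.1.1, hB.1.2.1, hs, EuclideanSpace.single ⟨0, hn⟩ ρ, h1 ?_, ?_⟩
  · simp [abs_of_pos hρ]
  · intro h
    have := congrArg norm h
    simp [hρ.ne'] at this

theorem amain_int {μ : Measure (Sph n)} [IsFiniteMeasure μ] {f : Sph n → ℝ} (hf : Continuous f) :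
    Integrable f μ :=
  hf.integrable_of_hasCompactSupport (HasCompactSupport.of_compactSpace f)

theorem amain_ne (ξ : Sph n) : (ξ : Eu n) ≠ 0 := by
  intro h
  have := ξ.2
  simp [h] at this

theorem amain_log_cont {K : Set (Eu n)} (hB : Body0 K) :
    Continuous (fun ξ : Sph n => Real.log (supp K ξ)) :=
  ((continuous_supp hB.1.1).comp continuous_subtype_val).log
    (fun ξ => (hB.supp_pos (amain_ne ξ)).ne')

theorem amain_tau (hp : 1 < p) (hpn : p < n) {K : Set (Eu n)} (hB : Body0 K)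
    {μ0 : Measure (Sph n)} (hs : Solves p K μ0) {ψ : Eu n → ℝ} (hψ : Continuous ψ) :
    ∫ y, ψ (nrm K y) * supp K (nrm K y) / supp K (nrm K y) ∂(tau p K) =
      (p - 1) * ∫ ξ : Sph n, ψ ξ ∂μ0 := by
  have hτ := isTau_tau hp hB
  have h1 : ∫ y, ψ (nrm K y) * supp K (nrm K y) / supp K (nrm K y) ∂(tau p K) =
      ∫ y, ψ (nrm K y) ∂(tau p K) := by
    refine integral_congr_ae ?_
    filter_upwards [tau_ae_reg hp hpn hB hτ] with y hy
    have h2 := (reg_normal hB hy).1
    have h3 : nrm K y ≠ 0 := by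
      intro h
      rw [h] at h2
      simp at h2
    have h4 := (hB.supp_pos h3).ne'
    field_simp
  rw [h1, ← integral_map (measurable_nrm K).aemeasurable hψ.aestronglyMeasurable,
    ← (solves_iff hp hpn hB hτ μ0).1 hs, integral_smul_measure,
    integral_map measurable_subtype_coe.aemeasurable hψ.aestronglyMeasurable,
    ENNReal.toReal_ofReal (by linarith), smul_eq_mul]

theorem amain_le (hp : 1 < p) (hpn : p < n) {μ : Measure (Sph n)} [IsFiniteMeasure μ]
    (h0 : μ ≠ 0) {K : Set (Eu n)} (hK : SymC K) (hB : Body0 K)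
    (hmax : ∀ K', SymC K' → Phi p μ K' ≤ Phi p μ K) {μ0 : Measure (Sph n)} (hs : Solves p K μ0)
    {ψ : Eu n → ℝ} (hψ : Continuous ψ) (hev : ∀ x, ψ (-x) = ψ x) :
    (p - 1) * (∫ ξ : Sph n, ψ ξ ∂μ0) / cap p K / (n - p) ≤
      (∫ ξ : Sph n, ψ ξ ∂μ) / μ.real univ := by
  have hq : (0 : ℝ) < n - p := by linarith
  have hm : 0 < μ.real univ := by
    rw [Measure.real]
    exact ENNReal.toReal_pos (by simpa using h0) (measure_ne_top _ _)
  have hW := wulff_supp hB.1
  have hc := continuous_supp hB.1.1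
  have hgc : Continuous (fun x => ψ x * supp K x) := hψ.mul hc
  have hu : ∀ ξ ∈ sphere (0 : Eu n) 1, ‖ξ‖ = 1 := fun ξ hξ => by simpa using hξ
  have hBW : Body0 (wulff (sphere 0 1) (supp K)) := by rw [hW]; exact hB
  obtain ⟨C, t0, -, ht0, -, hper⟩ := wulff_perturb (isCompact_sphere (0 : Eu n) 1) hu
    hc.continuousOn hgc.continuousOn hBW
  have hτ : IsTau p (wulff (sphere 0 1) (supp K)) (tau p K) := by
    rw [hW]; exact isTau_tau hp hB
  have had := hadamard hp hpn (isCompact_sphere (0 : Eu n) 1) hu hc.continuousOn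
    hgc.continuousOn hgc.measurable hBW hτ
  rw [hW, amain_tau hp hpn hB hs hψ] at had
  set Kt : ℝ → Set (Eu n) := fun t =>
    wulff (sphere 0 1) (fun ξ => supp K ξ + t * (ψ ξ * supp K ξ)) with hKt
  have hK0 : Kt 0 = K := by
    simp only [hKt, zero_mul, add_zero]
    exact hW
  have hpos : ∀ K' : Set (Eu n), Body0 K' → 0 < cap p K' := fun K' h =>
    cap_pos hp hpn h.1.1.isBounded h.1.2.2
  have hcap := hpos K hB
  set I := ∫ ξ : Sph n, ψ ξ ∂μ with hI
  have hd : HasDerivWithinAt (fun t => Real.log (cap p (Kt t)) / (n - p) - t * (I / μ.real univ))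
      ((p - 1) * (∫ ξ : Sph n, ψ ξ ∂μ0) / cap p K / (n - p) - I / μ.real univ) (Ici 0) 0 := by
    have h1 := (had.log (by
      show cap p (Kt 0) ≠ 0
      rw [hK0]; exact hcap.ne')).div_const ((n : ℝ) - p)
    have h2 : HasDerivWithinAt (fun t : ℝ => t * (I / μ.real univ)) (I / μ.real univ)
        (Ici 0) 0 := by
      simpa using ((hasDerivAt_id (0 : ℝ)).mul_const (I / μ.real univ)).hasDerivWithinAt
    have h3 := h1.sub h2
    have h4 : cap p (wulff (sphere 0 1) (fun ξ => supp K ξ + 0 * (ψ ξ * supp K ξ))) = cap p K := by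
      show cap p (Kt 0) = cap p K
      rw [hK0]
    rw [h4] at h3
    exact h3
  have hsK : ∀ x, supp K (-x) = supp K x := fun x => by
    rw [← supp_neg, ← hK.2.2.1]
  refine sub_nonpos.1 (amain_nonpos ht0 hd ?_)
  intro t ht ht'
  have hBt : Body0 (Kt t) := (hper t (by rwa [abs_of_pos ht])).1
  have hst : Kt t = -Kt t := by
    have key : ∀ x ∈ Kt t, -x ∈ Kt t := by
      intro x hx ξ hξ
      have := hx (-ξ) (by simpa using hξ)
      simp only [hsK, hev, inner_neg_right] at this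
      simpa [inner_neg_left] using this
    ext x
    constructor
    · intro hx
      exact key x hx
    · intro hx
      simpa using key _ hx
  have hle := hmax _ (amain_symC hp hpn hBt hst)
  have hct := hpos _ hBt
  have hlog : ∫ ξ : Sph n, Real.log (supp (Kt t) ξ) ∂μ ≤
      ∫ ξ : Sph n, Real.log (supp K ξ) ∂μ + t * I := by
    have hψi : Integrable (fun ξ : Sph n => ψ ξ) μ := amain_int (hψ.comp continuous_subtype_val)
    rw [hI, ← integral_const_mul, ← integral_add (amain_int (amain_log_cont hB))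
      (hψi.const_mul t)]
    refine integral_mono (amain_int (amain_log_cont hBt))
      ((amain_int (amain_log_cont hB)).add (hψi.const_mul t)) ?_
    intro ξ
    have h1 : supp (Kt t) ξ ≤ supp K ξ + t * (ψ ξ * supp K ξ) :=
      supp_le ⟨0, interior_subset hBt.2⟩ (fun y hy => hy ξ ξ.2)
    have h2 := hB.supp_pos (amain_ne ξ)
    have h3 := hBt.supp_pos (amain_ne ξ)
    have h4 : supp (Kt t) ξ ≤ supp K ξ * Real.exp (t * ψ ξ) := by
      have := Real.add_one_le_exp (t * ψ ξ)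
      linarith only [h1, h2, this, mul_nonneg_of_nonpos_of_nonpos (le_of_lt (Mathlib.Tactic.Linarith.sub_neg_of_lt h2)) (Mathlib.Tactic.Linarith.sub_nonpos_of_le this)]
    have h5 := Real.log_le_log h3 h4
    rw [Real.log_mul h2.ne' (Real.exp_pos _).ne', Real.log_exp] at h5
    exact h5
  have hl2 := Real.log_le_log (mul_pos (Real.rpow_pos_of_pos hct _) (Real.exp_pos _)) hle
  unfold Phi at hl2
  rw [Real.log_mul (Real.rpow_pos_of_pos hct _).ne' (Real.exp_pos _).ne',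
    Real.log_mul (Real.rpow_pos_of_pos hcap _).ne' (Real.exp_pos _).ne', Real.log_exp,
    Real.log_exp, Real.log_rpow hct, Real.log_rpow hcap] at hl2
  have h6 := div_le_div_of_nonneg_right hlog hm.le
  simp only [hK0]
  rw [add_div, mul_div_assoc] at h6
  rw [neg_div, neg_div, one_div_mul_eq_div, one_div_mul_eq_div] at hl2
  linarith only [hl2, h6]

theorem amain_even {μ : Measure (Sph n)} [IsFiniteMeasure μ] (hev : μ.map (fun ξ => -ξ) = μ)
    {ψ : Eu n → ℝ} (hψ : Continuous ψ) :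
    ∫ ξ : Sph n, (ψ ξ + ψ (-(ξ : Eu n))) / 2 ∂μ = ∫ ξ : Sph n, ψ ξ ∂μ := by
  have h1 : Continuous (fun ξ : Sph n => ψ ξ) := hψ.comp continuous_subtype_val
  have h2 : Continuous (fun ξ : Sph n => ψ (-(ξ : Eu n))) :=
    hψ.comp continuous_subtype_val.neg
  have h3 : ∫ ξ : Sph n, ψ (-(ξ : Eu n)) ∂μ = ∫ ξ : Sph n, ψ ξ ∂μ := by
    conv_rhs => rw [← hev]
    rw [integral_map (continuous_neg.measurable.aemeasurable) h1.aestronglyMeasurable]
    simp
  rw [integral_div, integral_add (amain_int h1) (amain_int h2), h3]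
  ring

/-- Euler-Lagrange equation. -/
theorem solves_of_max (hp : 1 < p) (hpn : p < n) {μ : Measure (Sph n)} [IsFiniteMeasure μ]
    (h0 : μ ≠ 0) (hev : μ.map (fun ξ => -ξ) = μ) {K : Set (Eu n)} (hK : SymC K) (hB : Body0 K)
    (hmax : ∀ K', SymC K' → Phi p μ K' ≤ Phi p μ K) :
    ∃ c : ℝ, 0 < c ∧ Solves p K (ENNReal.ofReal c • μ) := by
  obtain ⟨μ0, hs⟩ := exists_solves hp hpn hB
  have := hs.finite
  have hq : (0 : ℝ) < n - p := by linarith
  have hp1 : 0 < p - 1 := by linarith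
  have hm : 0 < μ.real univ := by
    rw [Measure.real]
    exact ENNReal.toReal_pos (by simpa using h0) (measure_ne_top _ _)
  have hcap : 0 < cap p K := cap_pos hp hpn hB.1.1.isBounded hB.1.2.2
  have hev0 : μ0.map (fun ξ => -ξ) = μ0 := by
    have h1 := hs.neg hp hpn
    rw [← hK.2.2.1] at h1
    exact h1.unique hp hpn hs
  have hc : 0 < (n - p) * cap p K / ((p - 1) * μ.real univ) := by positivity
  refine ⟨_, hc, ?_⟩
  have : IsFiniteMeasure (ENNReal.ofReal ((n - p) * cap p K / ((p - 1) * μ.real univ)) • μ) :=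
    Measure.smul_finite μ ENNReal.ofReal_ne_top
  have heq : μ0 = ENNReal.ofReal ((n - p) * cap p K / ((p - 1) * μ.real univ)) • μ := by
    refine ext_of_forall_integral_eq_of_IsFiniteMeasure (fun f => ?_)
    obtain ⟨ψ, hψ⟩ := ContinuousMap.exists_restrict_eq (isClosed_sphere (x := (0 : Eu n)) (ε := 1))
      f.toContinuousMap
    have hf : ∀ ξ : Sph n, f ξ = ψ ξ := fun ξ => by
      have := congrArg (fun g => g ξ) hψ
      exact this.symm
    simp only [hf]
    rw [integral_smul_measure, ENNReal.toReal_ofReal hc.le, smul_eq_mul,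
      ← amain_even hev ψ.continuous, ← amain_even hev0 ψ.continuous]
    have hχ : Continuous (fun x : Eu n => (ψ x + ψ (-x)) / 2) := by fun_prop
    have h1 := amain_le hp hpn h0 hK hB hmax hs hχ (fun x => by simp [add_comm])
    have h2 := amain_le hp hpn h0 hK hB hmax hs hχ.neg (fun x => by simp [add_comm])
    simp only [Pi.neg_apply, integral_neg] at h2
    have h3 : (p - 1) * (∫ ξ : Sph n, (ψ ξ + ψ (-(ξ : Eu n))) / 2 ∂μ0) / cap p K / (n - p) =
        (∫ ξ : Sph n, (ψ ξ + ψ (-(ξ : Eu n))) / 2 ∂μ) / μ.real univ := by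
      refine le_antisymm h1 ?_
      rw [mul_neg, neg_div, neg_div, neg_div] at h2
      linarith only [h2]
    field_simp at h3 ⊢
    linarith only [h3]
  rw [← heq]
  exact hs

theorem even_main (hp : 1 < p) (hpn : p < n) (μ : Measure (Sph n)) [IsFiniteMeasure μ]
    (h0 : μ ≠ 0) (hev : μ.map (fun ξ => -ξ) = μ)
    (h : (3 ≤ n ∧ ∃ Λ : ℝ≥0, μ ≤ Λ • (volume : Measure (Eu n)).toSphere) ∨
      (DecayHyper μ ∧ DecayLow p μ)) :
    ∃ K : Set (Eu n), K = -K ∧ Solves p K μ := by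
  have hd : DecayHyper μ ∧ DecayLow p μ := by
    rcases h with ⟨hn, Λ, hΛ⟩ | h
    · exact decay_of_le hp hn hΛ
    · exact h
  obtain ⟨K, hK, hpos, hmax⟩ := exists_max hp hpn h0 hd.1
  have hB := max_interior hp hpn h0 hd.1 hd.2 hK hpos hmax
  obtain ⟨c, hc, hs⟩ := solves_of_max hp hpn h0 hev hK hB hmax
  obtain ⟨l, hl, hs'⟩ := hs.exists_smul hp hpn (inv_pos.2 hc)
  refine ⟨l • K, (hK.smul hl).2.2.1, ?_⟩
  rwa [smul_smul, ← ENNReal.ofReal_mul (inv_pos.2 hc).le, inv_mul_cancel₀ hc.ne',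
    ENNReal.ofReal_one, one_smul] at hs'

end Pool.Agent.Work.MP_f7e2e5_gt
end
end
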