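import Pool.Agent.Work.MP_f7e2e5_gt.Supp

open MeasureTheory Set Metric Filter Topology
open scoped RealInnerProductSpace Pointwise ContDiff NNReal

noncomputable section

namespace Pool.Agent.Work.MP_f7e2e5_gt

variable {p : ℝ}

theorem Fr.decomp {e f : Eu 2} (h : Fr e f) (z : Eu 2) : z = ⟪z, e⟫ • e + ⟪z, f⟫ • f := by
  obtain ⟨he, hf, hef⟩ := h
  have h1 : e 0 ^ 2 + e 1 ^ 2 = 1 := by
    have := EuclideanSpace.real_norm_sq_eq e
    rw [he, Fin.sum_univ_two] at this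
    linarith
  have h2 : f 0 ^ 2 + f 1 ^ 2 = 1 := by
    have := EuclideanSpace.real_norm_sq_eq f
    rw [hf, Fin.sum_univ_two] at this
    linarith
  have h3 : e 0 * f 0 + e 1 * f 1 = 0 := by
    simp only [PiLp.inner_apply, Fin.sum_univ_two, RCLike.inner_apply, conj_trivial] at hef
    linarith
  have hd : (e 0 * f 1 - e 1 * f 0) ^ 2 = 1 := by nlinarith
  have h4 : e 0 ^ 2 + f 0 ^ 2 = 1 := by
    have a1 : f 0 = -(e 0 * f 1 - e 1 * f 0) * e 1 := by
      linear_combination (-(f 0)) * h1 + e 0 * h3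
    have : f 0 ^ 2 = e 1 ^ 2 := by rw [a1]; linear_combination (e 1 ^ 2) * hd
    linarith
  have h5 : e 1 ^ 2 + f 1 ^ 2 = 1 := by linarith
  have h6 : e 0 * e 1 + f 0 * f 1 = 0 := by
    have a1 : f 0 = -(e 0 * f 1 - e 1 * f 0) * e 1 := by
      linear_combination (-(f 0)) * h1 + e 0 * h3
    have a2 : f 1 = (e 0 * f 1 - e 1 * f 0) * e 0 := by
      linear_combination (-(f 1)) * h1 + e 1 * h3
    have : f 0 * f 1 = -(e 0 * e 1) := by
      calc f 0 * f 1 = (-(e 0 * f 1 - e 1 * f 0) * e 1) * ((e 0 * f 1 - e 1 * f 0) * e 0) := by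
            rw [← a1, ← a2]
        _ = -(e 0 * e 1) := by linear_combination (-(e 0 * e 1)) * hd
    linarith
  ext i
  fin_cases i
  · simp only [PiLp.inner_apply, Fin.sum_univ_two, RCLike.inner_apply, conj_trivial,
      PiLp.add_apply, PiLp.smul_apply, smul_eq_mul, Fin.zero_eta]
    linear_combination (-(z 0)) * h4 - z 1 * h6
  · simp only [PiLp.inner_apply, Fin.sum_univ_two, RCLike.inner_apply, conj_trivial,
      PiLp.add_apply, PiLp.smul_apply, smul_eq_mul, Fin.mk_one]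
    linear_combination (-(z 1)) * h5 - z 0 * h6

theorem Fr.inner_eq {e f : Eu 2} (h : Fr e f) (z w : Eu 2) :
    ⟪z, w⟫ = ⟪z, e⟫ * ⟪w, e⟫ + ⟪z, f⟫ * ⟪w, f⟫ := by
  conv_lhs => rw [h.decomp w]
  rw [inner_add_right, real_inner_smul_right, real_inner_smul_right]
  ring

theorem Fr.norm_sq {e f : Eu 2} (h : Fr e f) (z : Eu 2) :
    ‖z‖ ^ 2 = ⟪z, e⟫ ^ 2 + ⟪z, f⟫ ^ 2 := by
  rw [← real_inner_self_eq_norm_sq, h.inner_eq z z]
  ring

theorem Fr.neg_left {e f : Eu 2} (h : Fr e f) : Fr (-e) f :=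
  ⟨by rw [norm_neg]; exact h.1, h.2.1, by rw [inner_neg_left, h.2.2, neg_zero]⟩

theorem Fr.neg_right {e f : Eu 2} (h : Fr e f) : Fr e (-f) :=
  ⟨h.1, by rw [norm_neg]; exact h.2.1, by rw [inner_neg_right, h.2.2, neg_zero]⟩

theorem exists_fr {e : Eu 2} (he : ‖e‖ = 1) : ∃ f, Fr e f := by
  have h1 : e 0 ^ 2 + e 1 ^ 2 = 1 := by
    have := EuclideanSpace.real_norm_sq_eq e
    rw [he, Fin.sum_univ_two] at this
    linarith
  refine ⟨!₂[-e 1, e 0], he, ?_, ?_⟩
  · have : ‖(!₂[-e 1, e 0] : Eu 2)‖ ^ 2 = 1 := by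
      rw [EuclideanSpace.real_norm_sq_eq, Fin.sum_univ_two]
      simp only [Matrix.cons_val_zero, Matrix.cons_val_one]
      linarith
    exact (pow_eq_one_iff_of_nonneg (norm_nonneg _) two_ne_zero).1 this
  · simp only [PiLp.inner_apply, Fin.sum_univ_two, RCLike.inner_apply, conj_trivial,
      Matrix.cons_val_zero, Matrix.cons_val_one]
    ring

end Pool.Agent.Work.MP_f7e2e5_gt
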