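import Pool.Agent.Work.MP_f7e2e5_gt.Defs

-- merged part: Pool.Agent.Work.MP_f7e2e5_gt.Cap
section
-- merged part: Pool.Agent.Work.MP_f7e2e5_gt.Core
section
/-! Working definitions (not used in the statements). -/

open MeasureTheory Set Metric Filter Topology
open scoped RealInnerProductSpace Pointwise ContDiff NNReal

noncomputable section

namespace Pool.Agent.Work.MP_f7e2e5_gt

variable {n : ℕ}

/-- Lipschitz functions. -/
def LipF (f : Eu n → ℝ) : Prop := ∃ C : ℝ≥0, LipschitzWith C f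

/-- Compactly supported Lipschitz functions. -/
structure Lip0 (u : Eu n → ℝ) : Prop where
  lip : LipF u
  cs : HasCompactSupport u

/-- The `p`-energy of `u` on `A`. -/
def en (p : ℝ) (u : Eu n → ℝ) (A : Set (Eu n)) : ℝ := ∫ x in A, ‖gradient u x‖ ^ p

/-- Admissible functions for `K`. -/
structure Adm (K : Set (Eu n)) (u : Eu n → ℝ) : Prop where
  lip0 : Lip0 u
  nonneg : ∀ x, 0 ≤ u x
  le_one : ∀ x, u x ≤ 1
  one : ∀ x ∈ K, u x = 1

/-- Capacity computed with Lipschitz functions. -/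
def cap (p : ℝ) (K : Set (Eu n)) : ℝ := sInf ((fun u => en p u univ) '' {u | Adm K u})

/-- Minimising sequences. -/
def MinSeq (p : ℝ) (K : Set (Eu n)) (u : ℕ → Eu n → ℝ) : Prop :=
  (∀ j, Adm K (u j)) ∧ Tendsto (fun j => en p (u j) univ) atTop (𝓝 (cap p K))

/-- Similarities `x ↦ b + l • O x`. -/
def sim (b : Eu n) (l : ℝ) (O : Eu n ≃ₗᵢ[ℝ] Eu n) (x : Eu n) : Eu n := b + l • O x

/-- The integrand of the inner variation. -/
def ell (p : ℝ) (g : Eu n) (A : Eu n →L[ℝ] Eu n) : ℝ :=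
  ‖g‖ ^ p * LinearMap.trace ℝ (Eu n) (A : Eu n →ₗ[ℝ] Eu n) - p * ‖g‖ ^ (p - 2) * ⟪g, A g⟫

/-- The inner variation of the energy of `u` along `X`. -/
def lam (p : ℝ) (u : Eu n → ℝ) (X : Eu n → Eu n) : ℝ :=
  ∫ x, ell p (gradient u x) (fderiv ℝ X x)

/-- `C¹` vector fields with derivative bounded by `M`. -/
def Fld (X : Eu n → Eu n) (M : ℝ) : Prop := ContDiff ℝ 1 X ∧ ∀ x, ‖fderiv ℝ X x‖ ≤ M

/-- The map `id + t X`. -/
def flow (X : Eu n → Eu n) (t : ℝ) (x : Eu n) : Eu n := x + t • X x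

/-- The derivative of capacity along `id + tX`. -/
def Lam (p : ℝ) (K : Set (Eu n)) (X : Eu n → Eu n) : ℝ :=
  deriv (fun t => cap p (flow X t '' K)) 0

/-- `W` is the precise representative of `1 - u`, `u` the capacitary potential of `K`. -/
structure IsPot (p : ℝ) (K : Set (Eu n)) (W : Eu n → ℝ) : Prop where
  nonneg : ∀ z, 0 ≤ W z
  le_one : ∀ z, W z ≤ 1
  aemeas : AEMeasurable W volume
  conv : ∀ u, MinSeq p K u → ∀ R ε : ℝ, 0 < ε →
    Tendsto (fun j => volume {x | x ∈ ball (0 : Eu n) R ∧ ε ≤ |1 - u j x - W x|}) atTop (𝓝 0)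
  rep : ∀ z, W z = limsup (fun r : ℝ => ⨍ x in ball z r, W x) (𝓝[>] 0)

open Classical in
/-- The chosen potential. -/
def pot (p : ℝ) (K : Set (Eu n)) : Eu n → ℝ :=
  if h : ∃ W, IsPot p K W then h.choose else fun _ => 0

/-- Convex bodies with the origin in the interior. -/
def Body0 (K : Set (Eu n)) : Prop := IsBody K ∧ (0 : Eu n) ∈ interior K

/-- The unit normal given by the gradient of the gauge. -/
def nrm (K : Set (Eu n)) (y : Eu n) : Eu n :=
  ‖gradient (gauge K) y‖⁻¹ • gradient (gauge K) y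

/-- Regular boundary points. -/
def Reg (K : Set (Eu n)) : Set (Eu n) :=
  {y | y ∈ frontier K ∧ DifferentiableAt ℝ (gauge K) y}

/-- The cone measure on the boundary. -/
def lamK (K : Set (Eu n)) : Measure (Eu n) :=
  (volume.restrict K).map (fun z => (gauge K z)⁻¹ • z)

/-- `τ` represents the radial variations of capacity. -/
structure IsTau (p : ℝ) (K : Set (Eu n)) (τ : Measure (Eu n)) : Prop where
  fin : IsFiniteMeasure τ
  conc : τ (frontier K)ᶜ = 0
  rep : ∀ ψ : Eu n → ℝ, ContDiff ℝ 1 ψ → HasCompactSupport ψ →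
    Lam p K (fun x => ψ x • x) = ∫ x, ψ x ∂τ

open Classical in
/-- The chosen radial variation measure. -/
def tau (p : ℝ) (K : Set (Eu n)) : Measure (Eu n) :=
  if h : ∃ τ, IsTau p K τ then h.choose else 0

/-- Wulff shapes. -/
def wulff (Ω : Set (Eu n)) (f : Eu n → ℝ) : Set (Eu n) := {x | ∀ ξ ∈ Ω, ⟪x, ξ⟫ ≤ f ξ}

/-- Origin-symmetric compact convex sets other than the origin. -/
def SymC (K : Set (Eu n)) : Prop := IsCompact K ∧ Convex ℝ K ∧ K = -K ∧ ∃ x ∈ K, x ≠ 0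

/-- The scale invariant functional of the even problem. -/
def Phi (p : ℝ) (μ : Measure (Sph n)) (K : Set (Eu n)) : ℝ :=
  cap p K ^ (1 / ((n : ℝ) - p)) *
    Real.exp (-(∫ ξ : Sph n, Real.log (supp K ξ) ∂μ) / μ.real univ)

/-- A finite symmetric spanning family of distinct unit vectors. -/
structure Frame {ι : Type} (u : ι → Eu n) : Prop where
  unit : ∀ i, ‖u i‖ = 1
  inj : Function.Injective u
  symm : ∀ i, ∃ j, u j = -u i
  span : Submodule.span ℝ (range u) = ⊤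

/-- The polytope with normals `u i` and support numbers `exp (t i)`. -/
def PP {ι : Type} (u : ι → Eu n) (t : ι → ℝ) : Set (Eu n) :=
  {x | ∀ i, ⟪x, u i⟫ ≤ Real.exp (t i)}

/-- Tightening of the support numbers. -/
def tight {ι : Type} (u : ι → Eu n) (t : ι → ℝ) (i : ι) : ℝ := Real.log (supp (PP u t) (u i))

/-- The functional of the discrete problem. -/
def JJ {ι : Type} [Fintype ι] (p : ℝ) (u : ι → Eu n) (c : ι → ℝ) (t : ι → ℝ) : ℝ :=
  ∑ i, c i * t i - cap p (PP u t) / (p - 1)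

/-- The facet masses. -/
def mass {ι : Type} (p : ℝ) (u : ι → Eu n) (t : ι → ℝ) (i : ι) : ℝ :=
  (tau p (PP u t)).real {y | nrm (PP u t) y = u i}

/-- Orthonormal frames of the plane. -/
def Fr (e f : Eu 2) : Prop := ‖e‖ = 1 ∧ ‖f‖ = 1 ∧ ⟪e, f⟫ = 0

end Pool.Agent.Work.MP_f7e2e5_gt
end
end

-- merged part: Pool.Agent.Work.MP_f7e2e5_gt.LipA
section
open MeasureTheory Set Metric Filter Topology
open scoped RealInnerProductSpace Pointwise ContDiff NNReal

noncomputable section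

namespace Pool.Agent.Work.MP_f7e2e5_gt

variable {n : ℕ} {p : ℝ}

theorem LipF.ae_diff {f : Eu n → ℝ} (hf : LipF f) : ∀ᵐ x, DifferentiableAt ℝ f x := by
  obtain ⟨C, hC⟩ := hf
  exact hC.ae_differentiableAt

theorem LipF.continuous {f : Eu n → ℝ} (hf : LipF f) : Continuous f := by
  obtain ⟨C, hC⟩ := hf
  exact hC.continuous

theorem LipF.const (c : ℝ) : LipF (fun _ : Eu n => c) := ⟨0, LipschitzWith.const c⟩

theorem LipF.add {f g : Eu n → ℝ} (hf : LipF f) (hg : LipF g) : LipF (fun x => f x + g x) := by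
  obtain ⟨C, hC⟩ := hf
  obtain ⟨D, hD⟩ := hg
  exact ⟨_, hC.add hD⟩

theorem LipF.sub {f g : Eu n → ℝ} (hf : LipF f) (hg : LipF g) : LipF (fun x => f x - g x) := by
  obtain ⟨C, hC⟩ := hf
  obtain ⟨D, hD⟩ := hg
  exact ⟨_, hC.sub hD⟩

theorem LipF.const_mul {f : Eu n → ℝ} (hf : LipF f) (c : ℝ) : LipF (fun x => c * f x) := by
  obtain ⟨C, hC⟩ := hf
  exact ⟨_, (lipschitzWith_smul c).comp hC⟩

theorem LipF.min {f g : Eu n → ℝ} (hf : LipF f) (hg : LipF g) :
    LipF (fun x => min (f x) (g x)) := by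
  obtain ⟨C, hC⟩ := hf
  obtain ⟨D, hD⟩ := hg
  exact ⟨_, hC.min hD⟩

theorem LipF.max {f g : Eu n → ℝ} (hf : LipF f) (hg : LipF g) :
    LipF (fun x => max (f x) (g x)) := by
  obtain ⟨C, hC⟩ := hf
  obtain ⟨D, hD⟩ := hg
  exact ⟨_, hC.max hD⟩

theorem Lip0.add {u v : Eu n → ℝ} (hu : Lip0 u) (hv : Lip0 v) : Lip0 (fun x => u x + v x) :=
  ⟨hu.lip.add hv.lip, hu.cs.add hv.cs⟩

theorem Lip0.sub {u v : Eu n → ℝ} (hu : Lip0 u) (hv : Lip0 v) : Lip0 (fun x => u x - v x) :=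
  ⟨hu.lip.sub hv.lip, hu.cs.sub hv.cs⟩

theorem Lip0.const_mul {u : Eu n → ℝ} (hu : Lip0 u) (c : ℝ) : Lip0 (fun x => c * u x) :=
  ⟨hu.lip.const_mul c, hu.cs.mul_left⟩

theorem Lip0.max {u v : Eu n → ℝ} (hu : Lip0 u) (hv : Lip0 v) :
    Lip0 (fun x => max (u x) (v x)) :=
  ⟨hu.lip.max hv.lip, hu.cs.comp₂_left hv.cs (m := fun a b : ℝ => Max.max a b) (max_self 0)⟩

theorem Lip0.min_of_nonneg {u b : Eu n → ℝ} (hu : Lip0 u) (hb : LipF b) (hu0 : ∀ x, 0 ≤ u x)
    (hb0 : ∀ x, 0 ≤ b x) : Lip0 (fun x => min (u x) (b x)) := by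
  refine ⟨hu.lip.min hb, hu.cs.mono fun x hx h => hx ?_⟩
  exact (min_eq_left (h.le.trans (hb0 x))).trans h

theorem Lip0.of_contDiff {u : Eu n → ℝ} (hu : ContDiff ℝ 1 u) (hc : HasCompactSupport u) :
    Lip0 u :=
  ⟨hu.lipschitzWith_of_hasCompactSupport hc one_ne_zero, hc⟩

theorem measurable_gradient (u : Eu n → ℝ) : Measurable (gradient u) :=
  (InnerProductSpace.toDual ℝ (Eu n)).symm.continuous.measurable.comp (measurable_fderiv ℝ u)

/-- The gradient of a Lipschitz function is bounded. -/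
theorem LipF.exists_norm_gradient_le {f : Eu n → ℝ} (hf : LipF f) :
    ∃ C : ℝ, ∀ x, ‖gradient f x‖ ≤ C := by
  obtain ⟨C, hC⟩ := hf
  refine ⟨C, fun x => ?_⟩
  rw [gradient, LinearIsometryEquiv.norm_map]
  exact norm_fderiv_le_of_lipschitz ℝ hC

theorem Lip0.integrable_en (hp : 0 < p) {u : Eu n → ℝ} (hu : Lip0 u) :
    Integrable (fun x => ‖gradient u x‖ ^ p) := by
  obtain ⟨C, hC⟩ := hu.lip.exists_norm_gradient_le
  have hm : Measurable fun x => ‖gradient u x‖ ^ p := (measurable_gradient u).norm.pow_const p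
  have hs : Function.support (fun x => ‖gradient u x‖ ^ p) ⊆ tsupport u := by
    intro x hx
    by_contra h
    apply hx
    have : fderiv ℝ u x = 0 := by
      by_contra h'
      exact h (support_fderiv_subset ℝ h')
    simp only [gradient, this, map_zero, norm_zero, Real.zero_rpow hp.ne']
  rw [← integrableOn_iff_integrable_of_support_subset hs]
  refine Measure.integrableOn_of_bounded (M := C ^ p) hu.cs.isCompact.measure_lt_top.ne
    hm.aestronglyMeasurable (Eventually.of_forall fun x => ?_)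
  rw [Real.norm_of_nonneg (Real.rpow_nonneg (norm_nonneg _) _)]
  exact Real.rpow_le_rpow (norm_nonneg _) (hC x) hp.le

theorem en_nonneg (p : ℝ) (u : Eu n → ℝ) (A : Set (Eu n)) : 0 ≤ en p u A :=
  integral_nonneg fun _ => Real.rpow_nonneg (norm_nonneg _) _

theorem en_mono (hp : 0 < p) {u : Eu n → ℝ} (hu : Lip0 u) {A B : Set (Eu n)} (h : A ⊆ B) :
    en p u A ≤ en p u B :=
  setIntegral_mono_set (hu.integrable_en hp).integrableOn
    (Eventually.of_forall fun _ => Real.rpow_nonneg (norm_nonneg _) _) h.eventuallyLE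

theorem en_add_compl (hp : 0 < p) {u : Eu n → ℝ} (hu : Lip0 u) {A : Set (Eu n)}
    (hA : MeasurableSet A) : en p u A + en p u Aᶜ = en p u univ := by
  unfold en
  rw [Measure.restrict_univ]
  exact integral_add_compl hA (hu.integrable_en hp)

theorem en_const_mul (hp : 0 < p) {u : Eu n → ℝ} (hu : Lip0 u) (c : ℝ) (A : Set (Eu n)) :
    en p (fun x => c * u x) A = |c| ^ p * en p u A := by
  unfold en
  rw [← integral_const_mul]
  refine integral_congr_ae (ae_restrict_of_ae ?_)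
  filter_upwards [hu.lip.ae_diff] with x hx
  have := (hx.hasFDerivAt.const_mul c).fderiv
  simp only [gradient, this, map_smul, norm_smul, Real.norm_eq_abs]
  exact Real.mul_rpow (abs_nonneg _) (norm_nonneg _)

theorem grad_eq_of_eq {f g : Eu n → ℝ} (hf : LipF f) (hg : LipF g) :
    ∀ᵐ x, f x = g x → gradient f x = gradient g x := by
  have h1 := hf.sub hg
  have h2 := h1.max (LipF.const 0)
  have h3 := h1.min (LipF.const 0)
  filter_upwards [hf.ae_diff, hg.ae_diff, h2.ae_diff, h3.ae_diff] with x a1 a2 a3 a4 hx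
  have m1 : IsLocalMin (fun y => Max.max (f y - g y) 0) x :=
    Eventually.of_forall fun y => by simp [hx]
  have m2 : IsLocalMax (fun y => Min.min (f y - g y) 0) x :=
    Eventually.of_forall fun y => by simp [hx]
  have d1 := a3.hasFDerivAt
  have d2 := a4.hasFDerivAt
  rw [m1.fderiv_eq_zero] at d1
  rw [m2.fderiv_eq_zero] at d2
  have d3 := (d1.add d2).add a2.hasFDerivAt
  have e : ((fun y => Max.max (f y - g y) 0) + fun y => Min.min (f y - g y) 0) + g = f := by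
    funext y
    simp only [Pi.add_apply, max_add_min]
    ring
  rw [e, add_zero, zero_add] at d3
  rw [gradient, gradient, d3.fderiv]

theorem grad_min {f g : Eu n → ℝ} (hf : LipF f) (hg : LipF g) :
    ∀ᵐ x, gradient (fun y => min (f y) (g y)) x =
      if f x ≤ g x then gradient f x else gradient g x := by
  filter_upwards [grad_eq_of_eq (hf.min hg) hf, grad_eq_of_eq (hf.min hg) hg] with x h1 h2
  split_ifs with h
  · exact h1 (min_eq_left h)
  · exact h2 (min_eq_right (not_le.1 h).le)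

theorem grad_max {f g : Eu n → ℝ} (hf : LipF f) (hg : LipF g) :
    ∀ᵐ x, gradient (fun y => max (f y) (g y)) x =
      if g x ≤ f x then gradient f x else gradient g x := by
  filter_upwards [grad_eq_of_eq (hf.max hg) hf, grad_eq_of_eq (hf.max hg) hg] with x h1 h2
  split_ifs with h
  · exact h1 (max_eq_left h)
  · exact h2 (max_eq_right (not_le.1 h).le)

theorem grad_lin {f g : Eu n → ℝ} (hf : LipF f) (hg : LipF g) (a b c : ℝ) :
    ∀ᵐ x, gradient (fun y => a * f y + b * g y + c) x =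
      a • gradient f x + b • gradient g x := by
  filter_upwards [hf.ae_diff, hg.ae_diff] with x h1 h2
  have := (((h1.hasFDerivAt.const_mul a).add (h2.hasFDerivAt.const_mul b)).add_const c).fderiv
  simp only [Pi.add_apply] at this
  simp only [gradient, this, map_add, map_smul]

theorem Adm.grad_zero {K : Set (Eu n)} {u : Eu n → ℝ} (hu : Adm K u) :
    ∀ᵐ x, x ∈ K → gradient u x = 0 := by
  filter_upwards [grad_eq_of_eq hu.lip0.lip (LipF.const 1)] with x h hx
  rw [h (hu.one x hx), gradient_fun_const]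

theorem Adm.mono {K K' : Set (Eu n)} {u : Eu n → ℝ} (hu : Adm K' u) (h : K ⊆ K') : Adm K u :=
  ⟨hu.lip0, hu.nonneg, hu.le_one, fun x hx => hu.one x (h hx)⟩

/-- Energy does not see `K`. -/
theorem Adm.en_diff (hp : 0 < p) {K : Set (Eu n)} {u : Eu n → ℝ} (hu : Adm K u)
    (hK : MeasurableSet K) {A : Set (Eu n)} (hA : MeasurableSet A) :
    en p u (A \ K) = en p u A := by
  unfold en
  rw [← integral_inter_add_sdiff hK (hu.lip0.integrable_en hp).integrableOn (s := A)]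
  have : ∫ x in A ∩ K, ‖gradient u x‖ ^ p = 0 := by
    refine setIntegral_eq_zero_of_ae_eq_zero ?_
    filter_upwards [hu.grad_zero] with x h hx
    rw [h hx.2, norm_zero, Real.zero_rpow hp.ne']
  rw [this, zero_add]

theorem en_min_add_max (hp : 0 < p) {u v : Eu n → ℝ} (hu : Lip0 u) (hv : Lip0 v) :
    en p (fun x => min (u x) (v x)) univ + en p (fun x => max (u x) (v x)) univ =
      en p u univ + en p v univ := by
  have h1 : Lip0 fun x => Min.min (u x) (v x) :=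
    ⟨hu.lip.min hv.lip, hu.cs.comp₂_left hv.cs (m := fun a b : ℝ => Min.min a b) (min_self 0)⟩
  unfold en
  rw [Measure.restrict_univ, ← integral_add (h1.integrable_en hp) ((hu.max hv).integrable_en hp),
    ← integral_add (hu.integrable_en hp) (hv.integrable_en hp)]
  refine integral_congr_ae ?_
  filter_upwards [grad_min hu.lip hv.lip, grad_eq_of_eq (hu.lip.max hv.lip) hu.lip,
    grad_eq_of_eq (hu.lip.max hv.lip) hv.lip] with x a1 a2 a3
  by_cases h : u x ≤ v x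
  · rw [a1, if_pos h, a3 (max_eq_right h)]
  · rw [a1, if_neg h, a2 (max_eq_left (not_le.1 h).le), add_comm]

theorem en_convex (hp : 1 ≤ p) {u v : Eu n → ℝ} (hu : Lip0 u) (hv : Lip0 v) {s : ℝ}
    (hs0 : 0 ≤ s) (hs1 : s ≤ 1) (A : Set (Eu n)) :
    en p (fun x => (1 - s) * u x + s * v x) A ≤ (1 - s) * en p u A + s * en p v A := by
  have hp0 : 0 < p := lt_of_lt_of_le one_pos hp
  have i1 := ((hu.integrable_en hp0).integrableOn (s := A)).const_mul (1 - s)
  have i2 := ((hv.integrable_en hp0).integrableOn (s := A)).const_mul s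
  have h1 : Lip0 fun x => (1 - s) * u x + s * v x := (hu.const_mul _).add (hv.const_mul _)
  unfold en
  rw [← integral_const_mul, ← integral_const_mul, ← integral_add i1 i2]
  refine integral_mono_ae (h1.integrable_en hp0).integrableOn (i1.add i2) (ae_restrict_of_ae ?_)
  filter_upwards [grad_lin hu.lip hv.lip (1 - s) s 0] with x hx
  simp only [add_zero] at hx
  have k1 : ‖(1 - s) • gradient u x + s • gradient v x‖ ≤
      (1 - s) * ‖gradient u x‖ + s * ‖gradient v x‖ := by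
    refine (norm_add_le _ _).trans (le_of_eq ?_)
    rw [norm_smul, norm_smul, Real.norm_of_nonneg (sub_nonneg.2 hs1), Real.norm_of_nonneg hs0]
  have k2 := (convexOn_rpow hp).2 (mem_Ici.2 (norm_nonneg (gradient u x)))
    (mem_Ici.2 (norm_nonneg (gradient v x))) (sub_nonneg.2 hs1) hs0 (sub_add_cancel 1 s)
  simp only [smul_eq_mul] at k2
  rw [hx]
  exact (Real.rpow_le_rpow (norm_nonneg _) k1 hp0.le).trans k2

end Pool.Agent.Work.MP_f7e2e5_gt
end
end

-- merged part: Pool.Agent.Work.MP_f7e2e5_gt.Lip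
section
open MeasureTheory Set Metric Filter Topology
open scoped RealInnerProductSpace Pointwise ContDiff NNReal

noncomputable section

namespace Pool.Agent.Work.MP_f7e2e5_gt

variable {n : ℕ} {p : ℝ}

theorem lipB_norm_gradient (u : Eu n → ℝ) (x : Eu n) : ‖gradient u x‖ = ‖fderiv ℝ u x‖ := by
  unfold gradient
  exact LinearIsometryEquiv.norm_map _ _

/-- The affine homeomorphism `x ↦ T x + b`. -/
def lipBAff (T : Eu n ≃L[ℝ] Eu n) (b : Eu n) : Eu n ≃ₜ Eu n :=
  T.toHomeomorph.trans (Homeomorph.addRight b)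

theorem lipB_fderiv (u : Eu n → ℝ) (T : Eu n ≃L[ℝ] Eu n) (b x : Eu n) :
    fderiv ℝ (fun x => u (T x + b)) x = (fderiv ℝ u (T x + b)).comp (T : Eu n →L[ℝ] Eu n) := by
  have h := T.comp_right_fderiv (f := fun y => u (y + b)) (x := x)
  rw [fderiv_comp_add_right] at h
  exact h

theorem lipB_map (T : Eu n ≃L[ℝ] Eu n) (b : Eu n) :
    Measure.map (lipBAff T b) (volume : Measure (Eu n)) =
      ENNReal.ofReal |(T : Eu n →L[ℝ] Eu n).det|⁻¹ • volume := by
  have hd : LinearMap.det (T : Eu n →ₗ[ℝ] Eu n) ≠ 0 :=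
    (LinearEquiv.isUnit_det' T.toLinearEquiv).ne_zero
  have h1 := Measure.map_linearMap_addHaar_eq_smul_addHaar (volume : Measure (Eu n)) hd
  have h2 : (lipBAff T b : Eu n → Eu n) = (fun y => y + b) ∘ T := rfl
  rw [h2, ← Measure.map_map (measurable_add_const b) T.continuous.measurable]
  have h3 : Measure.map (T : Eu n →ₗ[ℝ] Eu n) (volume : Measure (Eu n)) =
      Measure.map T (volume : Measure (Eu n)) := rfl
  rw [← h3, h1, Measure.map_smul, map_add_right_eq_self, abs_inv]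
  rfl

theorem lipB_setIntegral (T : Eu n ≃L[ℝ] Eu n) (b : Eu n) (F : Eu n → ℝ) (A : Set (Eu n)) :
    ∫ x in (fun x => T x + b) ⁻¹' A, F (T x + b) =
      |(T : Eu n →L[ℝ] Eu n).det|⁻¹ * ∫ y in A, F y := by
  have h := (lipBAff T b).measurableEmbedding.setIntegral_map (μ := volume) F A
  rw [lipB_map, Measure.restrict_smul, integral_smul_measure,
    ENNReal.toReal_ofReal (inv_nonneg.2 (abs_nonneg _)), smul_eq_mul] at h
  exact h.symm

theorem Lip0.comp_affine {u : Eu n → ℝ} (hu : Lip0 u) (T : Eu n ≃L[ℝ] Eu n) (b : Eu n) :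
    Lip0 (fun x => u (T x + b)) := by
  obtain ⟨⟨C, hC⟩, hc⟩ := hu
  refine ⟨⟨C * (1 * ‖(T : Eu n →L[ℝ] Eu n)‖₊), ?_⟩, hc.comp_homeomorph (lipBAff T b)⟩
  have h1 : LipschitzWith 1 (fun y : Eu n => y + b) := (isometry_add_right b).lipschitz
  exact hC.comp (h1.comp (T : Eu n →L[ℝ] Eu n).lipschitz)

theorem en_comp_affine (hp : 0 < p) {u : Eu n → ℝ} (hu : Lip0 u) (T : Eu n ≃L[ℝ] Eu n)
    (b : Eu n) : en p (fun x => u (T x + b)) univ ≤
      ‖(T : Eu n →L[ℝ] Eu n)‖ ^ p * |(T : Eu n →L[ℝ] Eu n).det|⁻¹ * en p u univ := by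
  have h1 := lipB_setIntegral T b (fun y => ‖gradient u y‖ ^ p) univ
  rw [preimage_univ] at h1
  unfold en
  rw [mul_assoc, ← h1, ← integral_const_mul]
  have hint : Integrable (fun x => ‖gradient u (T x + b)‖ ^ p) := by
    have h2 : Integrable (fun y => ‖gradient u y‖ ^ p)
        (Measure.map (lipBAff T b) (volume : Measure (Eu n))) := by
      rw [lipB_map]
      exact (hu.integrable_en hp).smul_measure ENNReal.ofReal_ne_top
    exact ((lipBAff T b).measurableEmbedding.integrable_map_iff).1 h2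
  refine integral_mono ((hu.comp_affine T b).integrable_en hp).integrableOn
    (hint.const_mul _).integrableOn (fun x => ?_)
  simp only
  rw [← Real.mul_rpow (norm_nonneg _) (norm_nonneg _), lipB_norm_gradient, lipB_norm_gradient,
    lipB_fderiv]
  refine Real.rpow_le_rpow (norm_nonneg _) ?_ hp.le
  rw [mul_comm]
  exact ContinuousLinearMap.opNorm_comp_le _ _

/-- The linear part of a similarity. -/
def lipBLin {l : ℝ} (hl : 0 < l) (O : Eu n ≃ₗᵢ[ℝ] Eu n) : Eu n ≃L[ℝ] Eu n :=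
  O.toContinuousLinearEquiv.trans
    (ContinuousLinearEquiv.smulLeft (R₁ := ℝ) (M₁ := Eu n) (Units.mk0 l hl.ne'))

theorem lipB_sim_eq (b : Eu n) {l : ℝ} (hl : 0 < l) (O : Eu n ≃ₗᵢ[ℝ] Eu n) :
    sim b l O = fun x => lipBLin hl O x + b := by
  funext x
  rw [add_comm]
  rfl

theorem lipB_lin_coe {l : ℝ} (hl : 0 < l) (O : Eu n ≃ₗᵢ[ℝ] Eu n) :
    (lipBLin hl O : Eu n →L[ℝ] Eu n) =
      l • (O.toContinuousLinearEquiv : Eu n →L[ℝ] Eu n) := by
  ext x i
  rfl

theorem lipB_det {l : ℝ} (hl : 0 < l) (O : Eu n ≃ₗᵢ[ℝ] Eu n) :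
    |(lipBLin hl O : Eu n →L[ℝ] Eu n).det| = l ^ n := by
  rw [lipB_lin_coe]
  have h1 : (l • (O.toContinuousLinearEquiv : Eu n →L[ℝ] Eu n)).det =
      l ^ n * LinearMap.det (O.toLinearEquiv : Eu n →ₗ[ℝ] Eu n) := by
    have := LinearMap.det_smul l (O.toLinearEquiv : Eu n →ₗ[ℝ] Eu n)
    rw [finrank_euclideanSpace, Fintype.card_fin] at this
    exact this
  have h2 : |LinearMap.det (O.toLinearEquiv : Eu n →ₗ[ℝ] Eu n)| = 1 := by
    have hd : LinearMap.det (O.toLinearEquiv : Eu n →ₗ[ℝ] Eu n) ≠ 0 :=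
      (LinearEquiv.isUnit_det' O.toLinearEquiv).ne_zero
    have h3 := Measure.map_linearMap_addHaar_eq_smul_addHaar (volume : Measure (Eu n)) hd
    have h4 : Measure.map (O.toLinearEquiv : Eu n →ₗ[ℝ] Eu n) (volume : Measure (Eu n)) = volume :=
      O.measurePreserving.map_eq
    rw [h4] at h3
    have h5 := congrArg (fun m : Measure (Eu n) => m (ball 0 1)) h3
    simp only [Measure.smul_apply, smul_eq_mul] at h5
    have h6 : (volume : Measure (Eu n)) (ball 0 1) ≠ 0 := (measure_ball_pos _ _ one_pos).ne'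
    have h7 : (volume : Measure (Eu n)) (ball 0 1) ≠ ⊤ := measure_ball_lt_top.ne
    have h8 : ENNReal.ofReal |(LinearMap.det (O.toLinearEquiv : Eu n →ₗ[ℝ] Eu n))⁻¹| = 1 := by
      rw [← ENNReal.mul_left_inj h6 h7, one_mul]
      exact h5.symm
    rw [ENNReal.ofReal_eq_one, abs_inv, inv_eq_one] at h8
    exact h8
  rw [h1, abs_mul, h2, mul_one, abs_of_pos (pow_pos hl n)]

theorem Lip0.comp_sim {u : Eu n → ℝ} (hu : Lip0 u) (b : Eu n) {l : ℝ} (hl : 0 < l)
    (O : Eu n ≃ₗᵢ[ℝ] Eu n) : Lip0 (fun x => u (sim b l O x)) := by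
  rw [lipB_sim_eq b hl O]
  exact hu.comp_affine _ b

theorem en_comp_sim (hp : 0 < p) {u : Eu n → ℝ} (hu : Lip0 u) (b : Eu n) {l : ℝ} (hl : 0 < l)
    (O : Eu n ≃ₗᵢ[ℝ] Eu n) (A : Set (Eu n)) :
    en p (fun x => u (sim b l O x)) (sim b l O ⁻¹' A) = l ^ (p - n) * en p u A := by
  rw [lipB_sim_eq b hl O]
  have h1 := lipB_setIntegral (lipBLin hl O) b (fun y => ‖gradient u y‖ ^ p) A
  have h2 : ∀ x, ‖gradient (fun x => u (lipBLin hl O x + b)) x‖ ^ p =
      l ^ p * ‖gradient u (lipBLin hl O x + b)‖ ^ p := by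
    intro x
    rw [← Real.mul_rpow hl.le (norm_nonneg _), lipB_norm_gradient, lipB_norm_gradient,
      lipB_fderiv, lipB_lin_coe, ContinuousLinearMap.comp_smul, norm_smul, Real.norm_eq_abs,
      abs_of_pos hl]
    congr 2
    exact ContinuousLinearMap.opNorm_comp_linearIsometryEquiv _ O
  unfold en
  simp only [h2]
  rw [integral_const_mul, h1, lipB_det, Real.rpow_sub hl, Real.rpow_natCast, div_eq_mul_inv,
    mul_assoc]

theorem volume_preimage_sim (b : Eu n) {l : ℝ} (hl : 0 < l) (O : Eu n ≃ₗᵢ[ℝ] Eu n)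
    (A : Set (Eu n)) :
    volume (sim b l O ⁻¹' A) = ENNReal.ofReal ((l ^ n)⁻¹) * volume A := by
  rw [lipB_sim_eq b hl O]
  have h := (lipBAff (lipBLin hl O) b).measurableEmbedding.map_apply (volume : Measure (Eu n)) A
  rw [lipB_map, lipB_det] at h
  exact h.symm

end Pool.Agent.Work.MP_f7e2e5_gt
end
end

-- merged part: Pool.Agent.Work.MP_f7e2e5_gt.Point
section
open MeasureTheory Set Metric Filter Topology
open scoped RealInnerProductSpace Pointwise ContDiff NNReal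

noncomputable section

namespace Pool.Agent.Work.MP_f7e2e5_gt

variable {n : ℕ} {p : ℝ}

theorem point_hom {X Y : Type} [NormedAddCommGroup X] [NormedSpace ℝ X] [ProperSpace X]
    [TopologicalSpace Y] {K : Set Y} (hK : IsCompact K) {F : X × Y → ℝ} {D : X → ℝ}
    (hF : Continuous F) (hD : Continuous D)
    (hF' : ∀ c : ℝ, 0 < c → ∀ x y, F (c • x, y) = c ^ p * F (x, y))
    (hD' : ∀ c : ℝ, 0 < c → ∀ x, D (c • x) = c ^ p * D x) (h0 : ∀ x, 0 ≤ D x)
    (h1 : ∀ x y, D x = 0 → F (x, y) ≤ 0) (h2 : D 0 = 0) {ε : ℝ} (hε : 0 < ε) :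
    ∃ C : ℝ, 0 ≤ C ∧ ∀ x, ∀ y ∈ K, F (x, y) ≤ ε * ‖x‖ ^ p + C * D x := by
  obtain ⟨k, hk⟩ := ((isCompact_sphere (0 : X) 1).prod hK).elim_directed_cover
    (fun k : ℕ => {q : X × Y | F q < ε + k * D q.1})
    (fun k => isOpen_lt hF (by fun_prop))
    (fun q _ => by
      rcases (h0 q.1).eq_or_lt with h | h
      · exact mem_iUnion.2 ⟨0, by
          have := h1 q.1 q.2 h.symm
          simp only [mem_ofPred_eq, Nat.cast_zero, zero_mul, add_zero]
          linarith⟩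
      · obtain ⟨k, hk⟩ := exists_nat_gt (F q / D q.1)
        rw [div_lt_iff₀ h] at hk
        exact mem_iUnion.2 ⟨k, by simp only [mem_ofPred_eq]; linarith⟩)
    (directed_of_isDirected_le fun i j hij q hq => by
      have h3 : (i : ℝ) * D q.1 ≤ j * D q.1 :=
        mul_le_mul_of_nonneg_right (by exact_mod_cast hij) (h0 _)
      simp only [mem_ofPred_eq] at hq ⊢
      linarith only [hq, h3])
  refine ⟨k, Nat.cast_nonneg k, fun x y hy => ?_⟩
  by_cases hx : x = 0
  · have h3 := h1 0 y h2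
    have h4 : 0 ≤ ε * ‖x‖ ^ p := by positivity
    rw [hx] at h4 ⊢
    rw [h2]
    linarith
  · have hc : 0 < ‖x‖ := norm_pos_iff.2 hx
    have h3 : F (‖x‖⁻¹ • x, y) < ε + k * D (‖x‖⁻¹ • x) :=
      hk (mk_mem_prod (by rw [mem_sphere_zero_iff_norm, norm_smul, norm_inv, norm_norm,
        inv_mul_cancel₀ hc.ne']) hy)
    have h4 := hF' _ hc (‖x‖⁻¹ • x) y
    have h5 := hD' _ hc (‖x‖⁻¹ • x)
    rw [smul_inv_smul₀ hc.ne'] at h4 h5
    have h6 : 0 < ‖x‖ ^ p := Real.rpow_pos_of_pos hc p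
    rw [h4, h5]
    linarith only [h3, h6, mul_pos_of_neg_of_neg (Mathlib.Tactic.Linarith.sub_neg_of_lt h3) (Mathlib.Tactic.Linarith.sub_neg_of_lt h6)]

theorem point_norm_smul {c : ℝ} (hc : 0 < c) (g : Eu n) (r : ℝ) :
    ‖c • g‖ ^ r = c ^ r * ‖g‖ ^ r := by
  rw [norm_smul, Real.norm_of_nonneg hc.le, Real.mul_rpow hc.le (norm_nonneg _)]

theorem point_prod_le (a b : Eu n) : ‖(a, b)‖ ^ p ≤ ‖a‖ ^ p + ‖b‖ ^ p := by
  have h1 : 0 ≤ ‖a‖ ^ p := by positivity
  have h2 : 0 ≤ ‖b‖ ^ p := by positivity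
  rw [Prod.norm_mk]
  rcases max_choice ‖a‖ ‖b‖ with h | h <;> rw [h] <;> linarith only [h2, h1]

theorem point_mid_le (a b : Eu n) : ‖(1 / 2 : ℝ) • (a + b)‖ ≤ 1 / 2 * ‖a‖ + 1 / 2 * ‖b‖ := by
  rw [norm_smul, Real.norm_of_nonneg (by norm_num)]
  linarith only [norm_add_le a b]

theorem point_mid_lt (hp : 1 < p) {a b : Eu n} (h : a ≠ b) :
    ‖(1 / 2 : ℝ) • (a + b)‖ ^ p < (‖a‖ ^ p + ‖b‖ ^ p) / 2 := by
  by_cases h1 : ‖a‖ = ‖b‖
  · have h2 := Real.rpow_lt_rpow (norm_nonneg _) ((norm_midpoint_lt_iff h1).2 h)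
      (by linarith : 0 < p)
    rw [← h1]
    linarith only [h2]
  · have h2 := (strictConvexOn_rpow hp).2 (norm_nonneg a) (norm_nonneg b) h1
      (by norm_num : (0 : ℝ) < 1 / 2) (by norm_num : (0 : ℝ) < 1 / 2) (by norm_num)
    have h3 := Real.rpow_le_rpow (norm_nonneg _) (point_mid_le a b) (by linarith : 0 ≤ p)
    simp only [smul_eq_mul] at h2
    linarith only [h2, h3]

theorem point_mid_self (a : Eu n) : (1 / 2 : ℝ) • (a + a) = a := by
  rw [← two_smul ℝ a, smul_smul]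
  norm_num

theorem point_cont_rpow (hp : 1 < p) : Continuous fun g : Eu n => ‖g‖ ^ p :=
  continuous_norm.rpow_const fun _ => Or.inr (by linarith)

/-- Soft uniform convexity. -/
theorem uc_soft (hp : 1 < p) {ε : ℝ} (hε : 0 < ε) : ∃ C : ℝ, 0 ≤ C ∧ ∀ a b : Eu n,
    ‖a - b‖ ^ p ≤ ε * (‖a‖ ^ p + ‖b‖ ^ p) +
      C * ((‖a‖ ^ p + ‖b‖ ^ p) / 2 - ‖(1 / 2 : ℝ) • (a + b)‖ ^ p) := by
  have hc := point_cont_rpow (n := n) hp
  have hp0 : p ≠ 0 := by linarith
  obtain ⟨C, hC, h⟩ := point_hom (p := p) (isCompact_univ (X := Unit))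
    (F := fun q : (Eu n × Eu n) × Unit => ‖q.1.1 - q.1.2‖ ^ p)
    (D := fun x : Eu n × Eu n => (‖x.1‖ ^ p + ‖x.2‖ ^ p) / 2 - ‖(1 / 2 : ℝ) • (x.1 + x.2)‖ ^ p)
    (hc.comp (by fun_prop))
    ((((hc.comp continuous_fst).add (hc.comp continuous_snd)).div_const 2).sub
      (hc.comp (by fun_prop)))
    (fun c hc x _ => by
      simp only [Prod.smul_fst, Prod.smul_snd]
      rw [← smul_sub, point_norm_smul hc])
    (fun c hc x => by
      simp only [Prod.smul_fst, Prod.smul_snd]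
      rw [← smul_add, smul_comm, point_norm_smul hc, point_norm_smul hc, point_norm_smul hc]
      ring)
    (fun x => by
      by_cases h : x.1 = x.2
      · rw [← h, point_mid_self]
        linarith only []
      · linarith only [hp, h, point_mid_lt hp h])
    (fun x _ h => by
      by_cases h1 : x.1 = x.2
      · simp [h1, Real.zero_rpow hp0]
      · linarith only [h, hp, h1, point_mid_lt hp h1])
    (by simp [Real.zero_rpow hp0]) hε
  refine ⟨C, hC, fun a b => (h (a, b) () trivial).trans ?_⟩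
  have := mul_le_mul_of_nonneg_left (point_prod_le (p := p) a b) hε.le
  dsimp only
  linarith only [this]

theorem point_trace_le (A : Eu n →L[ℝ] Eu n) :
    |LinearMap.trace ℝ (Eu n) (A : Eu n →ₗ[ℝ] Eu n)| ≤ n * ‖A‖ := by
  rw [LinearMap.trace_eq_sum_inner _ (EuclideanSpace.basisFun (Fin n) ℝ)]
  refine (Finset.abs_sum_le_sum_abs _ _).trans ?_
  refine (Finset.sum_le_card_nsmul _ _ ‖A‖ fun i _ => ?_).trans (by simp)
  have h1 := (EuclideanSpace.basisFun (Fin n) ℝ).orthonormal.1 i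
  refine (abs_real_inner_le_norm _ _).trans ?_
  have h2 := A.le_opNorm (EuclideanSpace.basisFun (Fin n) ℝ i)
  rw [h1] at h2 ⊢
  simpa using h2

theorem point_pow (hp : 1 < p) {s : ℝ} (hs : 0 ≤ s) : s ^ (p - 2) * s ^ 2 = s ^ p := by
  rcases hs.eq_or_lt with rfl | h
  · rw [Real.zero_rpow (by linarith : p ≠ 0)]
    simp
  · rw [← Real.rpow_two, ← Real.rpow_add h, sub_add_cancel]

theorem point_pow' (hp : 1 < p) {s : ℝ} (hs : 0 ≤ s) : s ^ (p - 2) * s = s ^ (p - 1) := by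
  rcases hs.eq_or_lt with rfl | h
  · rw [Real.zero_rpow (by linarith : p - 1 ≠ 0)]
    simp
  · rw [← Real.rpow_add_one h.ne']
    ring_nf

theorem abs_ell_le (hp : 1 < p) (g : Eu n) (A : Eu n →L[ℝ] Eu n) :
    |ell p g A| ≤ (n + p) * ‖g‖ ^ p * ‖A‖ := by
  have h1 := point_trace_le A
  have h2 : |⟪g, A g⟫| ≤ ‖g‖ ^ 2 * ‖A‖ := by
    refine (abs_real_inner_le_norm _ _).trans ?_
    have := mul_le_mul_of_nonneg_left (A.le_opNorm g) (norm_nonneg g)
    linarith only [this]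
  have h3 : 0 ≤ ‖g‖ ^ p := by positivity
  have h4 : 0 ≤ p * ‖g‖ ^ (p - 2) := by positivity
  unfold ell
  refine (abs_sub _ _).trans ?_
  rw [abs_mul, abs_mul, abs_of_nonneg h3, abs_of_nonneg h4]
  have h5 := mul_le_mul_of_nonneg_left h1 h3
  have h6 := mul_le_mul_of_nonneg_left h2 h4
  have h7 : p * ‖g‖ ^ (p - 2) * (‖g‖ ^ 2 * ‖A‖) = p * ‖g‖ ^ p * ‖A‖ := by
    rw [← point_pow hp (norm_nonneg g)]
    ring
  linarith only [h5, h6, h7]

theorem ell_add (g : Eu n) (A B : Eu n →L[ℝ] Eu n) :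
    ell p g (A + B) = ell p g A + ell p g B := by
  simp only [ell, ContinuousLinearMap.toLinearMap_add, map_add, add_apply,
    inner_add_right]
  ring

theorem ell_smul (g : Eu n) (c : ℝ) (A : Eu n →L[ℝ] Eu n) :
    ell p g (c • A) = c * ell p g A := by
  simp only [ell, ContinuousLinearMap.toLinearMap_smul, map_smul, smul_apply,
    inner_smul_right, smul_eq_mul]
  ring

theorem point_cont_trace :
    Continuous fun A : Eu n →L[ℝ] Eu n => LinearMap.trace ℝ (Eu n) (A : Eu n →ₗ[ℝ] Eu n) :=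
  ((LinearMap.trace ℝ (Eu n)).comp
    (ContinuousLinearMap.coeLM ℝ)).continuous_of_finiteDimensional

theorem measurable_ell : Measurable (fun q : Eu n × (Eu n →L[ℝ] Eu n) => ell p q.1 q.2) := by
  have h1 : Continuous fun q : Eu n × (Eu n →L[ℝ] Eu n) => ⟪q.1, q.2 q.1⟫ := by fun_prop
  have h2 : Measurable fun q : Eu n × (Eu n →L[ℝ] Eu n) => ‖q.1‖ := measurable_fst.norm
  exact ((h2.pow_const p).mul (point_cont_trace.measurable.comp measurable_snd)).sub
    (((h2.pow_const (p - 2)).const_mul p).mul h1.measurable)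

theorem point_cont_phi (hp : 1 < p) : Continuous fun g : Eu n => ‖g‖ ^ (p - 2) • g := by
  refine continuous_iff_continuousAt.2 fun g => ?_
  by_cases hg : g = 0
  · rw [hg, ContinuousAt, smul_zero, tendsto_zero_iff_norm_tendsto_zero]
    have h1 : Continuous fun g : Eu n => ‖g‖ ^ (p - 1) :=
      continuous_norm.rpow_const fun _ => Or.inr (by linarith)
    have h2 := h1.tendsto 0
    rw [norm_zero, Real.zero_rpow (by linarith : p - 1 ≠ 0)] at h2
    refine h2.congr fun x => ?_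
    rw [norm_smul, Real.norm_of_nonneg (by positivity), point_pow' hp (norm_nonneg x)]
  · exact (continuous_norm.continuousAt.rpow_const (Or.inl (norm_ne_zero_iff.2 hg))).smul
      continuousAt_id

theorem point_cont_ell (hp : 1 < p) :
    Continuous fun q : Eu n × (Eu n →L[ℝ] Eu n) => ell p q.1 q.2 := by
  have h1 : Continuous fun q : Eu n × (Eu n →L[ℝ] Eu n) => ⟪‖q.1‖ ^ (p - 2) • q.1, q.2 q.1⟫ :=
    ((point_cont_phi hp).comp continuous_fst).inner (by fun_prop)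
  refine ((((point_cont_rpow hp).comp continuous_fst).mul
    (point_cont_trace.comp continuous_snd)).sub (h1.const_mul p)).congr fun q => ?_
  simp only [ell, Function.comp, real_inner_smul_left, Pi.sub_apply, Pi.mul_apply, mul_assoc]

theorem point_ell_smul {c : ℝ} (hc : 0 < c) (g : Eu n) (A : Eu n →L[ℝ] Eu n) :
    ell p (c • g) A = c ^ p * ell p g A := by
  have h1 : c ^ p = c ^ (p - 2) * c * c := by
    rw [← Real.rpow_add_one hc.ne', ← Real.rpow_add_one hc.ne']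
    ring_nf
  unfold ell
  rw [point_norm_smul hc, point_norm_smul hc, map_smul, real_inner_smul_left,
    real_inner_smul_right, h1]
  ring

theorem ell_cont (hp : 1 < p) {ε : ℝ} (hε : 0 < ε) : ∃ C : ℝ, 0 ≤ C ∧
    ∀ (g g' : Eu n) (A : Eu n →L[ℝ] Eu n), |ell p g A - ell p g' A| ≤
      ‖A‖ * (ε * (‖g‖ ^ p + ‖g'‖ ^ p) + C * ‖g - g'‖ ^ p) := by
  have hc := point_cont_ell (n := n) hp
  have hp0 : p ≠ 0 := by linarith
  obtain ⟨C, hC, h⟩ := point_hom (p := p) (isCompact_closedBall (0 : Eu n →L[ℝ] Eu n) 1)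
    (F := fun q : (Eu n × Eu n) × (Eu n →L[ℝ] Eu n) => |ell p q.1.1 q.2 - ell p q.1.2 q.2|)
    (D := fun x : Eu n × Eu n => ‖x.1 - x.2‖ ^ p)
    ((hc.comp (continuous_fst.fst.prodMk continuous_snd)).sub
      (hc.comp (continuous_fst.snd.prodMk continuous_snd))).abs
    ((point_cont_rpow hp).comp (by fun_prop))
    (fun c hc x _ => by
      simp only [Prod.smul_fst, Prod.smul_snd]
      rw [point_ell_smul hc, point_ell_smul hc, ← mul_sub, abs_mul,
        abs_of_pos (Real.rpow_pos_of_pos hc p)])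
    (fun c hc x => by
      simp only [Prod.smul_fst, Prod.smul_snd]
      rw [← smul_sub, point_norm_smul hc])
    (fun x => by positivity)
    (fun x _ h => by
      rw [Real.rpow_eq_zero (norm_nonneg _) hp0, norm_eq_zero, sub_eq_zero] at h
      simp [h])
    (by simp [Real.zero_rpow hp0]) hε
  refine ⟨C, hC, fun g g' A => ?_⟩
  by_cases hA : A = 0
  · simp [hA, ell]
  · have hc : 0 < ‖A‖ := norm_pos_iff.2 hA
    have h1 := h (g, g') (‖A‖⁻¹ • A) (by
      rw [mem_closedBall_zero_iff, norm_smul, norm_inv, norm_norm, inv_mul_cancel₀ hc.ne'])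
    dsimp only at h1
    rw [ell_smul, ell_smul, ← mul_sub, abs_mul, abs_of_pos (inv_pos.2 hc),
      inv_mul_le_iff₀ hc] at h1
    refine h1.trans (mul_le_mul_of_nonneg_left ?_ hc.le)
    have := mul_le_mul_of_nonneg_left (point_prod_le (p := p) g g') hε.le
    linarith

/-- The subgradient inequality for `‖·‖ ^ p`. -/
theorem subgrad (hp : 1 < p) (a g : Eu n) :
    ‖a‖ ^ p - ‖g‖ ^ p ≤ p * ⟪‖a‖ ^ (p - 2) • a, a - g⟫ := by
  by_cases ha : a = 0
  · have : 0 ≤ ‖g‖ ^ p := by positivity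
    simp [ha, Real.zero_rpow (by linarith : p ≠ 0), this]
  have hs : 0 < ‖a‖ := norm_pos_iff.2 ha
  have h1 := one_add_mul_self_le_rpow_one_add
    (s := ‖g‖ / ‖a‖ - 1) (by linarith only [hs, div_nonneg (norm_nonneg g) hs.le]) hp.le
  have h0 : 0 < ‖a‖ ^ p := Real.rpow_pos_of_pos hs p
  rw [add_sub_cancel, Real.div_rpow (norm_nonneg _) hs.le, le_div_iff₀ h0] at h1
  have h2 := point_pow hp hs.le
  have h3 : 0 ≤ p * ‖a‖ ^ (p - 2) := by positivity
  have h4 := mul_le_mul_of_nonneg_left (real_inner_le_norm a g) h3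
  have h5 : ‖g‖ / ‖a‖ * ‖a‖ ^ p = ‖a‖ ^ (p - 2) * (‖a‖ * ‖g‖) := by
    rw [← h2]
    field_simp
  rw [real_inner_smul_left, inner_sub_right, real_inner_self_eq_norm_sq, mul_sub, h2]
  linarith only [h1, h4, h5, hp, Mathlib.Tactic.Linarith.mul_zero_eq (Mathlib.Tactic.Linarith.sub_neg_of_lt hp) (sub_eq_zero_of_eq h5)]

theorem point_det_diff : DifferentiableAt ℝ
    (fun B : Eu n →L[ℝ] Eu n => (ContinuousLinearMap.id ℝ (Eu n) + B).det) 0 := by
  classical
  let b := (EuclideanSpace.basisFun (Fin n) ℝ).toBasis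
  have h1 : (fun B : Eu n →L[ℝ] Eu n => (ContinuousLinearMap.id ℝ (Eu n) + B).det) = fun B =>
      ∑ σ : Equiv.Perm (Fin n), ((Equiv.Perm.sign σ : ℤ) : ℝ) *
        ∏ i, ((ContinuousLinearMap.id ℝ (Eu n) + B) (b i)) (σ i) := by
    funext B
    rw [ContinuousLinearMap.det, ← LinearMap.det_toMatrix b, Matrix.det_apply']
    simp only [LinearMap.toMatrix_apply]
    rfl
  rw [h1]
  refine DifferentiableAt.fun_sum fun σ _ => DifferentiableAt.const_mul ?_ _
  refine (HasFDerivAt.finsetProd fun i _ => DifferentiableAt.hasFDerivAt ?_).differentiableAt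
  fun_prop

theorem point_det_line (B : Eu n →L[ℝ] Eu n) :
    HasDerivAt (fun r : ℝ => (ContinuousLinearMap.id ℝ (Eu n) + r • B).det)
      (LinearMap.trace ℝ (Eu n) (B : Eu n →ₗ[ℝ] Eu n)) 0 := by
  classical
  let b := (EuclideanSpace.basisFun (Fin n) ℝ).toBasis
  obtain ⟨Q, hQ⟩ : ∃ Q : Polynomial ℝ, ∀ r : ℝ,
      (ContinuousLinearMap.id ℝ (Eu n) + r • B).det =
        1 + LinearMap.trace ℝ (Eu n) (B : Eu n →ₗ[ℝ] Eu n) * r + Q.eval r * r ^ 2 := by
    refine ⟨(Matrix.det (1 + (Polynomial.X : Polynomial ℝ) •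
      (LinearMap.toMatrix b b (B : Eu n →ₗ[ℝ] Eu n)).map Polynomial.C)).divX.divX, fun r => ?_⟩
    rw [LinearMap.trace_eq_matrix_trace ℝ b, ← Matrix.det_one_add_smul,
      ContinuousLinearMap.det, ← LinearMap.det_toMatrix b]
    simp
  simp only [hQ]
  have h1 := (((hasDerivAt_id (0 : ℝ)).const_mul
    (LinearMap.trace ℝ (Eu n) (B : Eu n →ₗ[ℝ] Eu n))).const_add 1).fun_add
    ((Q.hasDerivAt 0).fun_mul (hasDerivAt_pow 2 (0 : ℝ)))
  exact h1.congr_deriv (by simp)

theorem point_det_id : (ContinuousLinearMap.id ℝ (Eu n)).det = 1 := LinearMap.det_id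

theorem point_tay1 {ε : ℝ} (hε : 0 < ε) : ∀ᶠ B : Eu n →L[ℝ] Eu n in 𝓝 0,
    |(ContinuousLinearMap.id ℝ (Eu n) + B).det - 1 -
      LinearMap.trace ℝ (Eu n) (B : Eu n →ₗ[ℝ] Eu n)| ≤ ε * ‖B‖ := by
  have h1 := (point_det_diff (n := n)).hasFDerivAt
  generalize fderiv ℝ (fun B : Eu n →L[ℝ] Eu n =>
    (ContinuousLinearMap.id ℝ (Eu n) + B).det) 0 = f' at h1
  have h2 : ∀ B, f' B = LinearMap.trace ℝ (Eu n) (B : Eu n →ₗ[ℝ] Eu n) := fun B => by
    have h3 : HasDerivAt (fun r : ℝ => r • B) B 0 := by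
      simpa using (hasDerivAt_id (0 : ℝ)).smul_const B
    exact (h1.comp_hasDerivAt_of_eq (0 : ℝ) h3 (zero_smul ℝ B).symm).unique (point_det_line B)
  filter_upwards [h1.isLittleO.def hε] with B hB
  simpa [h2, point_det_id] using hB

theorem point_tay2 (hp : 1 < p) {ε : ℝ} (hε : 0 < ε) : ∃ δ : ℝ, 0 < δ ∧ ∀ u h : Eu n, ‖u‖ = 1 →
    ‖h‖ ≤ δ → |‖u + h‖ ^ p - 1 - p * ⟪u, h⟫| ≤ ε * ‖h‖ := by
  have h1 : HasDerivAt (fun s : ℝ => s ^ (p / 2)) (p / 2) 1 := by
    simpa using Real.hasDerivAt_rpow_const (x := 1) (p := p / 2) (Or.inl one_ne_zero)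
  obtain ⟨δ, hδ, h2⟩ := Metric.eventually_nhds_iff.1
    (h1.isLittleO.def (by positivity : 0 < ε / 6))
  refine ⟨min (min 1 (δ / 4)) (ε / p), by positivity, fun u h hu hh => ?_⟩
  have k1 : ‖h‖ ≤ 1 := hh.trans ((min_le_left _ _).trans (min_le_left _ _))
  have k2 : ‖h‖ ≤ δ / 4 := hh.trans ((min_le_left _ _).trans (min_le_right _ _))
  have k3 : ‖h‖ * p ≤ ε := (le_div_iff₀ (by linarith only [hp])).1 (hh.trans (min_le_right _ _))
  have k0 := norm_nonneg h
  have e1 : ‖u + h‖ ^ 2 - 1 = 2 * ⟪u, h⟫ + ‖h‖ ^ 2 := by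
    rw [norm_add_sq_real, hu]
    ring
  have e2 : |⟪u, h⟫| ≤ ‖h‖ := by simpa [hu] using abs_real_inner_le_norm u h
  have e3 : |‖u + h‖ ^ 2 - 1| ≤ 3 * ‖h‖ := by
    rw [e1]
    rw [abs_le] at e2 ⊢
    constructor <;> linarith only [k0, e2, k1, sq_nonneg ‖h‖, mul_nonneg_of_nonpos_of_nonpos (Mathlib.Tactic.Linarith.sub_nonpos_of_le k1) (Mathlib.Tactic.Linarith.sub_nonpos_of_le k0)]
  have h3 := h2 (y := ‖u + h‖ ^ 2) (by rw [Real.dist_eq]; linarith only [hδ, k2, e3])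
  rw [Real.one_rpow, Real.norm_eq_abs, Real.norm_eq_abs, smul_eq_mul, ← Real.rpow_two,
    ← Real.rpow_mul (norm_nonneg _), mul_div_cancel₀ p two_ne_zero, Real.rpow_two] at h3
  have h4 := h3.trans (mul_le_mul_of_nonneg_left e3 (by positivity))
  rw [e1, abs_le] at h4
  have h5 : ‖h‖ * p * ‖h‖ ≤ ε * ‖h‖ := mul_le_mul_of_nonneg_right k3 k0
  have h6 : 0 ≤ ‖h‖ * p * ‖h‖ := by positivity
  have h7 : 0 ≤ ε * ‖h‖ := by positivity
  rw [abs_le]
  constructor <;> linarith only [h4, h6, h5]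

theorem point_tay3 (hp : 1 < p) {ε : ℝ} (hε : 0 < ε) : ∃ δ : ℝ, 0 < δ ∧ ∀ u h : Eu n, ‖u‖ = 1 →
    ‖h‖ ≤ δ → ∀ B : Eu n →L[ℝ] Eu n, |ell p (u + h) B - ell p u B| ≤ ε * ‖B‖ := by
  have h2 : (0 : ℝ) < 2 ^ p + 1 := by positivity
  obtain ⟨C, hC, h1⟩ := ell_cont (n := n) hp (ε := ε / 2 / (2 ^ p + 1)) (by positivity)
  refine ⟨min 1 (ε / 2 / (C + 1)), by positivity, fun u h hu hh B => ?_⟩
  have k1 : ‖h‖ ≤ 1 := hh.trans (min_le_left _ _)
  have k2 : ‖h‖ * (C + 1) ≤ ε / 2 := (le_div_iff₀ (by linarith)).1 (hh.trans (min_le_right _ _))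
  have k0 := norm_nonneg h
  refine (h1 _ _ B).trans ?_
  rw [mul_comm ε]
  refine mul_le_mul_of_nonneg_left ?_ (norm_nonneg B)
  have e1 : ‖u + h‖ ^ p ≤ 2 ^ p :=
    Real.rpow_le_rpow (norm_nonneg _) (by linarith only [hu, k1, norm_add_le u h]) (by linarith)
  have e2 : ‖h‖ ^ p ≤ ‖h‖ := Real.rpow_le_self_of_le_one k0 k1 hp.le
  have e3 := mul_le_mul_of_nonneg_left e2 hC
  have e4 : ε / 2 / (2 ^ p + 1) * (‖u + h‖ ^ p + 1) ≤ ε / 2 := by
    rw [div_mul_eq_mul_div, div_le_iff₀ h2]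
    exact mul_le_mul_of_nonneg_left (by linarith) (by positivity)
  rw [hu, Real.one_rpow, add_sub_cancel_left]
  linarith only [k2, k0, e3, e4]

theorem point_tay4 (hp : 1 < p) {ε : ℝ} (hε : 0 < ε) : ∃ δ : ℝ, 0 < δ ∧ δ ≤ 1 / 2 ∧
    ∀ B : Eu n →L[ℝ] Eu n, ‖B‖ ≤ δ → 0 < (ContinuousLinearMap.id ℝ (Eu n) + B).det ∧
      ∀ u h : Eu n, ‖u‖ = 1 → ‖h‖ ≤ ‖B‖ → ⟪u, h⟫ = ⟪u, B u⟫ →
        |(ContinuousLinearMap.id ℝ (Eu n) + B).det - ‖u + h‖ ^ p - ell p (u + h) B| ≤
          ε * ‖B‖ := by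
  have hε' : 0 < ε / 3 := by positivity
  have h0 : ∀ᶠ B : Eu n →L[ℝ] Eu n in 𝓝 0, 0 < (ContinuousLinearMap.id ℝ (Eu n) + B).det :=
    point_det_diff.continuousAt.eventually (lt_mem_nhds (by simp [point_det_id]))
  obtain ⟨δ1, hδ1, h1⟩ := Metric.eventually_nhds_iff.1 (h0.and (point_tay1 hε'))
  obtain ⟨δ2, hδ2, h2⟩ := point_tay2 (n := n) hp hε'
  obtain ⟨δ3, hδ3, h3⟩ := point_tay3 (n := n) hp hε'
  refine ⟨min (min (1 / 2) (δ1 / 2)) (min δ2 δ3), by positivity,
    (min_le_left _ _).trans (min_le_left _ _), fun B hB => ?_⟩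
  simp only [le_min_iff] at hB
  obtain ⟨k1, k2⟩ := h1 (y := B) (by rw [dist_zero_right]; linarith only [hδ1, hB, hB.1.2])
  refine ⟨k1, fun u h hu hh hi => ?_⟩
  have k3 := (h2 u h hu (hh.trans hB.2.1)).trans (mul_le_mul_of_nonneg_left hh hε'.le)
  have k4 := h3 u h hu (hh.trans hB.2.2) B
  have k5 : ell p u B = LinearMap.trace ℝ (Eu n) (B : Eu n →ₗ[ℝ] Eu n) - p * ⟪u, h⟫ := by
    rw [ell, hu, Real.one_rpow, Real.one_rpow, one_mul, mul_one, hi]
  rw [k5] at k4
  rw [abs_le] at k2 k3 k4 ⊢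
  constructor <;> linarith only [k2, k3, k4, k2.1, k2.2, k3.1, k3.2, k4.1, k4.2]

/-- First order expansion of the transported energy density. -/
theorem taylor (hp : 1 < p) {M ε : ℝ} (hM : 0 ≤ M) (hε : 0 < ε) : ∃ t0 : ℝ, 0 < t0 ∧ t0 * M ≤ 1 / 2 ∧
    ∀ t : ℝ, |t| ≤ t0 → ∀ A : Eu n →L[ℝ] Eu n, ‖A‖ ≤ M →
      0 < (ContinuousLinearMap.id ℝ (Eu n) + t • A).det ∧
      ∀ g g' : Eu n, g = g' + t • (ContinuousLinearMap.adjoint A) g' →
        |‖g'‖ ^ p * (ContinuousLinearMap.id ℝ (Eu n) + t • A).det - ‖g‖ ^ p - t * ell p g A| ≤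
          ε * |t| * ‖g‖ ^ p := by
  have hp0 : p ≠ 0 := by linarith
  have h2 : (0 : ℝ) < 2 ^ p := by positivity
  obtain ⟨δ, hδ, hδ', h⟩ := point_tay4 (n := n) hp (ε := ε / 2 ^ p / (M + 1)) (by positivity)
  have h3 : δ / (M + 1) * M ≤ δ := by
    rw [div_mul_eq_mul_div, div_le_iff₀ (by linarith only [hM, hδ, hδ'])]
    linarith only [hδ]
  refine ⟨δ / (M + 1), by positivity, h3.trans hδ', fun t ht A hA => ?_⟩
  have hB : ‖t • A‖ ≤ |t| * M := by
    rw [norm_smul, Real.norm_eq_abs]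
    exact mul_le_mul_of_nonneg_left hA (abs_nonneg t)
  have hB' : ‖t • A‖ ≤ δ := hB.trans ((mul_le_mul_of_nonneg_right ht hM).trans h3)
  obtain ⟨k1, k2⟩ := h _ hB'
  refine ⟨k1, fun g g' hg => ?_⟩
  by_cases h0 : g' = 0
  · simp [hg, h0, ell, Real.zero_rpow hp0]
  have hc : 0 < ‖g'‖ := norm_pos_iff.2 h0
  obtain ⟨u, hu, e1⟩ : ∃ u : Eu n, ‖u‖ = 1 ∧ g' = ‖g'‖ • u :=
    ⟨‖g'‖⁻¹ • g', by rw [norm_smul, norm_inv, norm_norm, inv_mul_cancel₀ hc.ne'],
      (smul_inv_smul₀ hc.ne' g').symm⟩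
  generalize ‖g'‖ = c at hc e1
  have e2 : g = c • (u + t • ContinuousLinearMap.adjoint A u) := by
    rw [hg, e1, map_smul, smul_add, smul_comm]
  have e3 : ‖t • ContinuousLinearMap.adjoint A u‖ ≤ ‖t • A‖ := by
    rw [norm_smul, norm_smul]
    refine mul_le_mul_of_nonneg_left ?_ (norm_nonneg t)
    simpa [hu] using (ContinuousLinearMap.adjoint A).le_opNorm u
  have k3 := k2 u _ hu e3 (by
    rw [smul_apply, real_inner_smul_right, real_inner_smul_right,
      ContinuousLinearMap.adjoint_inner_right, real_inner_comm])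
  generalize t • ContinuousLinearMap.adjoint A u = w at e2 e3 k3
  have e4 : 1 / 2 ≤ ‖u + w‖ := by
    have := norm_sub_le (u + w) w
    rw [add_sub_cancel_right] at this
    linarith only [hδ', hB', hu, e3, this]
  have e5 : 1 / 2 ^ p ≤ ‖u + w‖ ^ p := by
    have := Real.rpow_le_rpow (by norm_num) e4 (by linarith only [hp, hδ, hδ'] : 0 ≤ p)
    rwa [Real.div_rpow zero_le_one zero_le_two, Real.one_rpow] at this
  have e6 : ε / 2 ^ p / (M + 1) * ‖t • A‖ ≤ ε * |t| * ‖u + w‖ ^ p := by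
    have f1 : ‖t • A‖ ≤ |t| * (M + 1) := by linarith only [hB, abs_nonneg t]
    calc ε / 2 ^ p / (M + 1) * ‖t • A‖ ≤ ε / 2 ^ p / (M + 1) * (|t| * (M + 1)) :=
          mul_le_mul_of_nonneg_left f1 (by positivity)
      _ = ε * |t| * (1 / 2 ^ p) := by field_simp
      _ ≤ ε * |t| * ‖u + w‖ ^ p := mul_le_mul_of_nonneg_left e5 (by positivity)
  have hcp : 0 < c ^ p := Real.rpow_pos_of_pos hc p
  rw [← ell_smul, e2, point_norm_smul hc, point_ell_smul hc, ← mul_sub, ← mul_sub, abs_mul,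
    abs_of_pos hcp]
  have := mul_le_mul_of_nonneg_left (k3.trans e6) hcp.le
  linarith only [this]

theorem proj_young (hp : 1 < p) {ε : ℝ} (hε : 0 < ε) : ∃ C : ℝ, 0 ≤ C ∧ ∀ a b : ℝ, 0 ≤ b → b ≤ a →
    b ^ p ≤ ε * a ^ p + C * (a ^ (p - 2) * b ^ 2) := by
  obtain ⟨θ, hθ, h1⟩ : ∃ θ : ℝ, 0 < θ ∧ θ ^ p = ε :=
    ⟨ε ^ p⁻¹, Real.rpow_pos_of_pos hε _, Real.rpow_inv_rpow hε.le (by linarith)⟩
  refine ⟨1 / θ ^ 2, by positivity, fun a b hb hab => ?_⟩
  have ha : 0 ≤ a := hb.trans hab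
  have h2 : 0 ≤ ε * a ^ p := by positivity
  have h3 : 0 ≤ 1 / θ ^ 2 * (a ^ (p - 2) * b ^ 2) := by positivity
  rcases le_total b (θ * a) with h | h
  · have h4 := Real.rpow_le_rpow hb h (by linarith : 0 ≤ p)
    rw [Real.mul_rpow hθ.le ha, h1] at h4
    linarith only [h3, h4]
  · have h4 := Real.rpow_le_rpow hb hab (by linarith : 0 ≤ p)
    have h5 : a ^ 2 ≤ 1 / θ ^ 2 * b ^ 2 := by
      rw [one_div, inv_mul_eq_div, le_div_iff₀ (by positivity), ← mul_pow, mul_comm]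
      exact pow_le_pow_left₀ (by positivity) h 2
    have h6 := mul_le_mul_of_nonneg_left h5 (by positivity : 0 ≤ a ^ (p - 2))
    rw [point_pow hp ha] at h6
    linarith only [h2, h4, h6]

theorem ell_proj (g : Eu n) (L : Submodule ℝ (Eu n)) :
    ell p g L.starProjection =
      ‖g‖ ^ p * Module.finrank ℝ L - p * (‖g‖ ^ (p - 2) * ‖L.starProjection g‖ ^ 2) := by
  have h1 : LinearMap.IsProj L (L.starProjection : Eu n →ₗ[ℝ] Eu n) :=
    ⟨fun x => L.starProjection_apply_mem x, fun x hx => Submodule.starProjection_eq_self_iff.2 hx⟩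
  have h2 := L.starProjection_inner_eq_zero g _ (L.starProjection_apply_mem g)
  rw [inner_sub_left, real_inner_self_eq_norm_sq, sub_eq_zero] at h2
  rw [ell, h1.trace, h2, mul_assoc]

end Pool.Agent.Work.MP_f7e2e5_gt
end
end

-- merged part: Pool.Agent.Work.MP_f7e2e5_gt.Cap
section
open MeasureTheory Set Metric Filter Topology
open scoped RealInnerProductSpace Pointwise ContDiff NNReal

noncomputable section

namespace Pool.Agent.Work.MP_f7e2e5_gt

variable {n : ℕ} {p : ℝ}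

theorem exists_adm {K : Set (Eu n)} (hK : Bornology.IsBounded K) : ∃ u, Adm K u := by
  obtain ⟨R, hR⟩ := hK.exists_norm_le
  refine ⟨fun x => max 0 (min 1 (R + 1 - ‖x‖)), ⟨(LipF.const 0).max ((LipF.const 1).min
    ((LipF.const (R + 1)).sub ⟨1, lipschitzWith_one_norm⟩)),
    HasCompactSupport.intro (isCompact_closedBall 0 (R + 1)) fun x hx => ?_⟩,
    fun x => le_max_left _ _, fun x => max_le zero_le_one (min_le_left _ _), fun x hx => ?_⟩
  · rw [mem_closedBall_zero_iff, not_le] at hx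
    exact max_eq_left ((min_le_right _ _).trans (by linarith))
  · rw [min_eq_left (by linarith [hR x hx]), max_eq_right zero_le_one]

theorem capF_bdd (p : ℝ) (K : Set (Eu n)) : BddBelow ((fun u => en p u univ) '' {u | Adm K u}) :=
  ⟨0, forall_mem_image.2 fun u _ => en_nonneg p u univ⟩

theorem capF_ne (p : ℝ) {K : Set (Eu n)} (hK : Bornology.IsBounded K) :
    ((fun u => en p u univ) '' {u | Adm K u}).Nonempty :=
  Nonempty.image _ (exists_adm hK)

theorem cap_nonneg (p : ℝ) (K : Set (Eu n)) : 0 ≤ cap p K := by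
  exact Real.sInf_nonneg (forall_mem_image.2 fun u _ => en_nonneg p u univ)

theorem cap_le_en {K : Set (Eu n)} {u : Eu n → ℝ} (hu : Adm K u) : cap p K ≤ en p u univ := by
  exact csInf_le (capF_bdd p K) (mem_image_of_mem _ hu)

theorem exists_adm_lt {K : Set (Eu n)} (hK : Bornology.IsBounded K) {ε : ℝ} (hε : 0 < ε) :
    ∃ u, Adm K u ∧ en p u univ < cap p K + ε := by
  obtain ⟨_, ⟨u, hu, rfl⟩, h⟩ := exists_lt_of_csInf_lt (capF_ne p hK) (lt_add_of_pos_right _ hε)
  exact ⟨u, hu, h⟩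

theorem exists_minSeq {K : Set (Eu n)} (hK : Bornology.IsBounded K) : ∃ u, MinSeq p K u := by
  choose u hu h using fun j : ℕ => exists_adm_lt (p := p) hK (Nat.one_div_pos_of_nat (n := j))
  refine ⟨u, hu, tendsto_of_tendsto_of_tendsto_of_le_of_le tendsto_const_nhds ?_
    (fun j => cap_le_en (hu j)) fun j => (h j).le⟩
  simpa using tendsto_one_div_add_atTop_nhds_zero_nat.const_add (cap p K)

/-- An admissible sequence with asymptotically smaller energy is minimising. -/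
theorem MinSeq.of_le {K : Set (Eu n)} {u v : ℕ → Eu n → ℝ} (hu : MinSeq p K u)
    (hv : ∀ j, Adm K (v j)) {e : ℕ → ℝ} (he : Tendsto e atTop (𝓝 0))
    (hle : ∀ j, en p (v j) univ ≤ en p (u j) univ + e j) : MinSeq p K v := by
  refine ⟨hv, tendsto_of_tendsto_of_tendsto_of_le_of_le tendsto_const_nhds ?_
    (fun j => cap_le_en (hv j)) hle⟩
  simpa using hu.2.add he

theorem cap_mono {K K' : Set (Eu n)} (h : K ⊆ K') (hK' : Bornology.IsBounded K') :
    cap p K ≤ cap p K' := by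
  exact csInf_le_csInf (capF_bdd p K) (capF_ne p hK') (image_mono fun u hu => Adm.mono hu h)

theorem capF_adm_sim {K K' : Set (Eu n)} (b : Eu n) {l : ℝ} (hl : 0 < l)
    (O : Eu n ≃ₗᵢ[ℝ] Eu n) (h : MapsTo (sim b l O) K K') {u : Eu n → ℝ} (hu : Adm K' u) :
    Adm K (fun x => u (sim b l O x)) :=
  ⟨hu.lip0.comp_sim b hl O, fun _ => hu.nonneg _, fun _ => hu.le_one _, fun _ hx => hu.one _ (h hx)⟩

theorem capF_en_sim (hp : 0 < p) {u : Eu n → ℝ} (hu : Lip0 u) (b : Eu n) {l : ℝ} (hl : 0 < l)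
    (O : Eu n ≃ₗᵢ[ℝ] Eu n) :
    en p (fun x => u (sim b l O x)) univ = l ^ (p - n) * en p u univ :=
  en_comp_sim hp hu b hl O univ

theorem capF_cancel {l : ℝ} (hl : 0 < l) (a b : ℝ) : l ^ (a - b) * l ^ (b - a) = 1 := by
  rw [← Real.rpow_add hl, sub_add_sub_cancel, sub_self, Real.rpow_zero]

theorem cap_sim (hp : 0 < p) (K : Set (Eu n)) (b : Eu n) {l : ℝ} (hl : 0 < l)
    (O : Eu n ≃ₗᵢ[ℝ] Eu n) : cap p (sim b l O '' K) = l ^ ((n : ℝ) - p) * cap p K := by
  rw [cap, cap, ← smul_eq_mul, ← Real.sInf_smul_of_nonneg (Real.rpow_nonneg hl.le _)]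
  congr 1
  ext c
  constructor
  · rintro ⟨u, hu, rfl⟩
    refine ⟨_, ⟨_, capF_adm_sim b hl O (mapsTo_image _ K) hu, rfl⟩, ?_⟩
    simp only [smul_eq_mul]
    rw [capF_en_sim hp hu.lip0 b hl O, ← mul_assoc, capF_cancel hl, one_mul]
  · rintro ⟨_, ⟨u, hu, rfl⟩, rfl⟩
    refine ⟨_, capF_adm_sim (-(l⁻¹ • O.symm b)) (inv_pos.2 hl) O.symm ?_ hu, ?_⟩
    · rintro _ ⟨x, hx, rfl⟩
      have e : sim (-(l⁻¹ • O.symm b)) l⁻¹ O.symm (sim b l O x) = x := by
        simp [sim, smul_smul, inv_mul_cancel₀ hl.ne']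
      rwa [e]
    · simp only [smul_eq_mul]
      rw [capF_en_sim hp hu.lip0 _ (inv_pos.2 hl), Real.inv_rpow hl.le, ← Real.rpow_neg hl.le,
        neg_sub]

theorem MinSeq.comp_sim (hp : 0 < p) {K : Set (Eu n)} (b : Eu n) {l : ℝ} (hl : 0 < l)
    (O : Eu n ≃ₗᵢ[ℝ] Eu n) {u : ℕ → Eu n → ℝ} (hu : MinSeq p (sim b l O '' K) u) :
    MinSeq p K (fun j x => u j (sim b l O x)) := by
  refine ⟨fun j => capF_adm_sim b hl O (mapsTo_image _ K) (hu.1 j), ?_⟩
  have h := hu.2.const_mul (l ^ (p - n))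
  rw [cap_sim hp K b hl O, ← mul_assoc, capF_cancel hl, one_mul] at h
  exact h.congr fun j => (capF_en_sim hp (hu.1 j).lip0 b hl O).symm

theorem cap_smul (hp : 0 < p) (K : Set (Eu n)) {l : ℝ} (hl : 0 < l) :
    cap p (l • K) = l ^ ((n : ℝ) - p) * cap p K := by
  rw [← cap_sim hp K 0 hl (LinearIsometryEquiv.refl ℝ _), ← image_smul]
  congr 2
  funext x
  simp [sim]

theorem cap_neg (hp : 0 < p) (K : Set (Eu n)) : cap p (-K) = cap p K := by
  have h := cap_sim hp K 0 one_pos (LinearIsometryEquiv.neg ℝ)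
  rw [Real.one_rpow, one_mul] at h
  rw [← h, ← image_neg_eq_neg]
  congr 2
  funext x
  simp [sim]

theorem cap_translate (hp : 0 < p) (K : Set (Eu n)) (b : Eu n) :
    cap p ((fun x => b + x) '' K) = cap p K := by
  have h := cap_sim hp K b one_pos (LinearIsometryEquiv.refl ℝ _)
  rw [Real.one_rpow, one_mul] at h
  rw [← h]
  congr 2
  funext x
  simp [sim]

theorem cap_image_le (hp : 0 < p) {K : Set (Eu n)} (hK : Bornology.IsBounded K)
    (T : Eu n ≃L[ℝ] Eu n) : cap p (T '' K) ≤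
      ‖(T.symm : Eu n →L[ℝ] Eu n)‖ ^ p * |(T : Eu n →L[ℝ] Eu n).det| * cap p K := by
  obtain ⟨u, hu⟩ := exists_minSeq (p := p) hK
  refine ge_of_tendsto' (hu.2.const_mul _) fun j => ?_
  have h1 : Adm (T '' K) fun x => u j (T.symm x + 0) := by
    refine ⟨(hu.1 j).lip0.comp_affine T.symm 0, fun _ => (hu.1 j).nonneg _,
      fun _ => (hu.1 j).le_one _, ?_⟩
    rintro _ ⟨x, hx, rfl⟩
    rw [T.symm_apply_apply, add_zero]
    exact (hu.1 j).one x hx
  have h2 := en_comp_affine hp (hu.1 j).lip0 T.symm 0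
  rw [T.det_coe_symm, abs_inv, inv_inv] at h2
  exact (cap_le_en h1).trans h2

/-- Upper semicontinuity. -/
theorem cap_usc (hp : 0 < p) {K : Set (Eu n)} (hK : IsCompact K) {ε : ℝ} (hε : 0 < ε) :
    ∃ δ : ℝ, 0 < δ ∧ cap p (cthickening δ K) < cap p K + ε := by
  obtain ⟨u, hu, h⟩ := exists_adm_lt (p := p) hK.isBounded hε
  have h1 : ContinuousAt (fun c : ℝ => |c| ^ p * en p u univ) 1 :=
    (continuous_abs.continuousAt.rpow_const (Or.inr hp.le)).mul continuousAt_const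
  have h2 : ∀ᶠ c in 𝓝[>] (1 : ℝ), |c| ^ p * en p u univ < cap p K + ε :=
    nhdsWithin_le_nhds (h1.eventually (gt_mem_nhds (by simpa using h)))
  obtain ⟨c, hc, hc1⟩ := (h2.and self_mem_nhdsWithin).exists
  have hc1' : 1 < c := hc1
  have h3 := hu.lip0.const_mul c
  obtain ⟨δ, hδ, h4⟩ := hK.exists_cthickening_subset_open
    (isOpen_lt continuous_const h3.lip.continuous : IsOpen {x | 1 < c * u x}) fun x hx => by
      rw [mem_ofPred_eq, hu.one x hx, mul_one]
      exact hc1'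
  have h0 : ∀ x, 0 ≤ c * u x := fun x => mul_nonneg (by linarith) (hu.nonneg x)
  have h5 : Adm (cthickening δ K) fun x => min (c * u x) 1 :=
    ⟨h3.min_of_nonneg (LipF.const 1) h0 fun _ => zero_le_one, fun x => le_min (h0 x) zero_le_one,
      fun x => min_le_right _ _, fun x hx => min_eq_right (le_of_lt (h4 hx))⟩
  refine ⟨δ, hδ, lt_of_le_of_lt ((cap_le_en h5).trans ?_) hc⟩
  rw [← en_const_mul hp hu.lip0 c univ, en, en, Measure.restrict_univ]
  refine integral_mono_ae (h5.lip0.integrable_en hp) (h3.integrable_en hp) ?_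
  filter_upwards [grad_min h3.lip (LipF.const 1)] with x hx
  rw [hx]
  split_ifs
  · exact le_rfl
  · rw [gradient_fun_const, norm_zero, Real.zero_rpow hp.ne']
    positivity

theorem capF_mid {K : Set (Eu n)} {u v : Eu n → ℝ} (hu : Adm K u) (hv : Adm K v) :
    Adm K fun x => (1 - 1 / 2) * u x + 1 / 2 * v x :=
  ⟨(hu.lip0.const_mul _).add (hv.lip0.const_mul _),
    fun x => by linarith only [hu, hv, hu.nonneg x, hv.nonneg x], fun x => by linarith only [hu, hv, hu.le_one x, hv.le_one x],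
    fun x hx => by
      rw [hu.one x hx, hv.one x hx]
      norm_num⟩

theorem capF_grad_mid {u v : Eu n → ℝ} (hu : LipF u) (hv : LipF v) :
    ∀ᵐ x, gradient (fun x => (1 - 1 / 2) * u x + 1 / 2 * v x) x =
      (1 / 2 : ℝ) • (gradient v x + gradient u x) := by
  filter_upwards [grad_lin hu hv (1 - 1 / 2) (1 / 2) 0] with x hx
  simp only [add_zero] at hx
  rw [hx, smul_add, add_comm]
  norm_num

/-- Enlarging `K` to `K'` gains the energy of a near minimiser on `K'`. -/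
theorem cap_gain (hp : 1 < p) {K K' : Set (Eu n)} (h : K ⊆ K') (hb : Bornology.IsBounded K')
    (hm : MeasurableSet K') {u : Eu n → ℝ} (hu : Adm K u) :
    2 * cap p K - en p u univ + (1 - 2 ^ (1 - p)) * en p u K' ≤ cap p K' := by
  have hp0 : 0 < p := by linarith
  refine le_csInf (capF_ne p hb) (forall_mem_image.2 fun v hv => ?_)
  have hv' : Adm K' v := hv
  have hw := capF_mid hu (hv'.mono h)
  have h1 := cap_le_en (p := p) hw
  have h2 := en_add_compl hp0 hw.lip0 hm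
  have h3 := en_add_compl hp0 hu.lip0 hm
  have h4 := en_convex hp.le hu.lip0 hv'.lip0 (s := 1 / 2) (by norm_num) (by norm_num) K'ᶜ
  have h5 := en_mono hp0 hv'.lip0 (subset_univ K'ᶜ)
  have h6 : en p (fun x => (1 - 1 / 2) * u x + 1 / 2 * v x) K' = 2 ^ (1 - p) / 2 * en p u K' := by
    rw [en, en, ← integral_const_mul]
    refine setIntegral_congr_ae hm ?_
    filter_upwards [capF_grad_mid hu.lip0.lip hv'.lip0.lip, hv'.grad_zero] with x h7 h8 hx
    rw [h7, h8 hx, zero_add, norm_smul, Real.mul_rpow (norm_nonneg _) (norm_nonneg _),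
      Real.rpow_sub two_pos, Real.rpow_one, Real.norm_of_nonneg (by norm_num),
      Real.div_rpow zero_le_one zero_le_two, Real.one_rpow]
    ring
  linarith only [h1, h2, h3, h4, h5, h6]

/-- Local convexity defect. -/
theorem defect_local (hp : 1 < p) {ε : ℝ} (hε : 0 < ε) : ∃ C : ℝ, 0 ≤ C ∧
    ∀ (K A : Set (Eu n)) (u v : Eu n → ℝ), Adm K u → Adm K v → MeasurableSet A →
      en p (fun x => v x - u x) A ≤ ε * (en p u A + en p v A) +
        C * ((en p u univ + en p v univ) / 2 - cap p K) := by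
  have hp0 : 0 < p := by linarith
  obtain ⟨C, hC, h⟩ := uc_soft (n := n) hp hε
  refine ⟨C, hC, fun K A u v hu hv hA => ?_⟩
  have hw := capF_mid hu hv
  have iu := (hu.lip0.integrable_en hp0).integrableOn (s := A)
  have iv := (hv.lip0.integrable_en hp0).integrableOn (s := A)
  have iw := (hw.lip0.integrable_en hp0).integrableOn (s := A)
  have h1 : en p (fun x => v x - u x) A ≤ ∫ x in A, (ε * (‖gradient v x‖ ^ p + ‖gradient u x‖ ^ p) +
      C * ((‖gradient v x‖ ^ p + ‖gradient u x‖ ^ p) / 2 -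
        ‖gradient (fun x => (1 - 1 / 2) * u x + 1 / 2 * v x) x‖ ^ p)) := by
    refine integral_mono_ae ((hv.lip0.sub hu.lip0).integrable_en hp0).integrableOn
      (((iv.add iu).const_mul ε).add ((((iv.add iu).div_const 2).sub iw).const_mul C))
      (ae_restrict_of_ae ?_)
    filter_upwards [capF_grad_mid hu.lip0.lip hv.lip0.lip,
      grad_lin hv.lip0.lip hu.lip0.lip 1 (-1) 0] with x h2 h3
    simp only [one_mul, neg_mul, add_zero, one_smul, neg_smul, ← sub_eq_add_neg] at h3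
    rw [h2, h3]
    exact h _ _
  have i1 : Integrable (fun x => ‖gradient v x‖ ^ p + ‖gradient u x‖ ^ p) (volume.restrict A) :=
    iv.add iu
  have i2 : Integrable (fun x => (‖gradient v x‖ ^ p + ‖gradient u x‖ ^ p) / 2 -
      ‖gradient (fun x => (1 - 1 / 2) * u x + 1 / 2 * v x) x‖ ^ p) (volume.restrict A) :=
    (i1.div_const 2).sub iw
  rw [integral_add (i1.const_mul ε) (i2.const_mul C), integral_const_mul, integral_const_mul,
    integral_sub (i1.div_const 2) iw, integral_div, integral_add iv iu] at h1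
  have h2 := en_add_compl hp0 hw.lip0 hA
  have h3 := en_add_compl hp0 hu.lip0 hA
  have h4 := en_add_compl hp0 hv.lip0 hA
  have h5 := en_convex hp.le hu.lip0 hv.lip0 (s := 1 / 2) (by norm_num) (by norm_num) Aᶜ
  have h6 := cap_le_en (p := p) hw
  refine h1.trans (add_le_add (le_of_eq ?_) (mul_le_mul_of_nonneg_left ?_ hC))
  · rw [add_comm]
    rfl
  · change (en p v A + en p u A) / 2 - en p (fun x => (1 - 1 / 2) * u x + 1 / 2 * v x) A ≤ _
    linarith only [h2, h3, h4, h5, h6]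

/-- Near minimisers have close gradients. -/
theorem grad_close (hp : 1 < p) {ε : ℝ} (hε : 0 < ε) (Cb : ℝ) : ∃ δ : ℝ, 0 < δ ∧
    ∀ (K : Set (Eu n)) (u v : Eu n → ℝ), Adm K u → Adm K v → cap p K ≤ Cb →
      en p u univ ≤ cap p K + δ → en p v univ ≤ cap p K + δ →
      en p (fun x => v x - u x) univ ≤ ε := by
  have h0 := abs_nonneg Cb
  obtain ⟨C, hC, h⟩ := defect_local (n := n) hp (ε := ε / 2 / (2 * |Cb| + 2)) (by positivity)
  refine ⟨min 1 (ε / 2 / (C + 1)), by positivity, fun K u v hu hv h1 h2 h3 => ?_⟩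
  refine (h K univ u v hu hv MeasurableSet.univ).trans ?_
  have h4 := min_le_left 1 (ε / 2 / (C + 1))
  have h5 := min_le_right 1 (ε / 2 / (C + 1))
  have h6 := le_abs_self Cb
  have h7 : ε / 2 / (2 * |Cb| + 2) * (en p u univ + en p v univ) ≤ ε / 2 := by
    rw [div_mul_eq_mul_div, div_le_iff₀ (by positivity)]
    exact mul_le_mul_of_nonneg_left (by linarith only [h1, h2, h3, h4, h6]) (by positivity)
  have h8 : C * ((en p u univ + en p v univ) / 2 - cap p K) ≤ C * (ε / 2 / (C + 1)) :=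
    mul_le_mul_of_nonneg_left (by linarith only [h2, h3, h5]) hC
  have h9 : C * (ε / 2 / (C + 1)) ≤ ε / 2 := by
    rw [← mul_div_assoc, div_le_iff₀ (by positivity)]
    linarith only [hε]
  linarith only [h7, h8, h9]

end Pool.Agent.Work.MP_f7e2e5_gt
end
end

-- merged part: Pool.Agent.Work.MP_f7e2e5_gt.SuppA
section
open MeasureTheory Set Metric Filter Topology
open scoped RealInnerProductSpace Pointwise ContDiff NNReal

noncomputable section

namespace Pool.Agent.Work.MP_f7e2e5_gt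

variable {n : ℕ} {p : ℝ}

theorem suppA_cont (ξ : Eu n) : Continuous (fun x : Eu n => ⟪x, ξ⟫) :=
  continuous_id.inner continuous_const

theorem suppA_empty (ξ : Eu n) : supp (∅ : Set (Eu n)) ξ = 0 := by
  simp [supp]

theorem le_supp {K : Set (Eu n)} (hK : IsCompact K) {y : Eu n} (hy : y ∈ K) (ξ : Eu n) :
    ⟪y, ξ⟫ ≤ supp K ξ :=
  le_csSup (hK.image (suppA_cont ξ)).bddAbove ⟨y, hy, rfl⟩

theorem exists_supp_eq {K : Set (Eu n)} (hK : IsCompact K) (hne : K.Nonempty) (ξ : Eu n) :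
    ∃ y ∈ K, ⟪y, ξ⟫ = supp K ξ :=
  (hK.image (suppA_cont ξ)).sSup_mem (hne.image _)

theorem supp_le {K : Set (Eu n)} (hne : K.Nonempty) {ξ : Eu n} {a : ℝ}
    (h : ∀ y ∈ K, ⟪y, ξ⟫ ≤ a) : supp K ξ ≤ a := by
  refine csSup_le (hne.image _) ?_
  rintro _ ⟨y, hy, rfl⟩
  exact h y hy

theorem supp_mono {K K' : Set (Eu n)} (hK' : IsCompact K') (hne : K.Nonempty) (h : K ⊆ K')
    (ξ : Eu n) : supp K ξ ≤ supp K' ξ :=
  supp_le hne fun _ hy => le_supp hK' (h hy) ξ

theorem suppA_sub_le {K : Set (Eu n)} (hK : IsCompact K) (hne : K.Nonempty) {R : ℝ}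
    (hR : K ⊆ closedBall 0 R) (ξ ζ : Eu n) : supp K ξ - supp K ζ ≤ R * ‖ξ - ζ‖ := by
  obtain ⟨y, hy, he⟩ := exists_supp_eq hK hne ξ
  have h1 := le_supp hK hy ζ
  have h2 : ‖y‖ ≤ R := by simpa using hR hy
  have h3 : ⟪y, ξ - ζ⟫ ≤ ‖y‖ * ‖ξ - ζ‖ := real_inner_le_norm _ _
  have h4 : ‖y‖ * ‖ξ - ζ‖ ≤ R * ‖ξ - ζ‖ := mul_le_mul_of_nonneg_right h2 (norm_nonneg _)
  rw [inner_sub_right] at h3
  linarith only [he, h1, h3, h4]

theorem abs_supp_sub_le {K : Set (Eu n)} (hK : IsCompact K) (hne : K.Nonempty) {R : ℝ}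
    (hR : K ⊆ closedBall 0 R) (ξ ζ : Eu n) : |supp K ξ - supp K ζ| ≤ R * ‖ξ - ζ‖ := by
  have h1 := suppA_sub_le hK hne hR ξ ζ
  have h2 := suppA_sub_le hK hne hR ζ ξ
  rw [norm_sub_rev] at h2
  rw [abs_le]
  constructor <;> linarith only [h2, h1]

theorem continuous_supp {K : Set (Eu n)} (hK : IsCompact K) : Continuous (supp K) := by
  rcases K.eq_empty_or_nonempty with rfl | hne
  · have : supp (∅ : Set (Eu n)) = fun _ => 0 := funext suppA_empty
    rw [this]
    exact continuous_const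
  · obtain ⟨R, hR⟩ := hK.isBounded.subset_closedBall (0 : Eu n)
    have hR0 : 0 ≤ R := by
      obtain ⟨y, hy⟩ := hne
      have : ‖y‖ ≤ R := by simpa using hR hy
      exact (norm_nonneg _).trans this
    have : LipschitzWith ⟨R, hR0⟩ (supp K) := by
      refine LipschitzWith.of_dist_le_mul fun ξ ζ => ?_
      rw [Real.dist_eq, dist_eq_norm]
      exact abs_supp_sub_le hK hne hR ξ ζ
    exact this.continuous

theorem supp_add {K L : Set (Eu n)} (hK : IsCompact K) (hL : IsCompact L) (hKn : K.Nonempty)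
    (hLn : L.Nonempty) (ξ : Eu n) : supp (K + L) ξ = supp K ξ + supp L ξ := by
  apply le_antisymm
  · refine supp_le (hKn.add hLn) ?_
    rintro _ ⟨a, ha, b, hb, rfl⟩
    show ⟪a + b, ξ⟫ ≤ _
    rw [inner_add_left]
    exact add_le_add (le_supp hK ha ξ) (le_supp hL hb ξ)
  · obtain ⟨a, ha, hae⟩ := exists_supp_eq hK hKn ξ
    obtain ⟨b, hb, hbe⟩ := exists_supp_eq hL hLn ξ
    rw [← hae, ← hbe, ← inner_add_left]
    exact le_supp (hK.add hL) (add_mem_add ha hb) ξ

theorem supp_smul_right {K : Set (Eu n)} (hK : IsCompact K) {l : ℝ} (hl : 0 ≤ l) (ξ : Eu n) :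
    supp K (l • ξ) = l * supp K ξ := by
  rcases K.eq_empty_or_nonempty with rfl | hne
  · simp [suppA_empty]
  · apply le_antisymm
    · refine supp_le hne fun y hy => ?_
      rw [real_inner_smul_right]
      exact mul_le_mul_of_nonneg_left (le_supp hK hy ξ) hl
    · obtain ⟨a, ha, hae⟩ := exists_supp_eq hK hne ξ
      rw [← hae, ← real_inner_smul_right]
      exact le_supp hK ha _

theorem supp_smul {K : Set (Eu n)} (hK : IsCompact K) {l : ℝ} (hl : 0 ≤ l) (ξ : Eu n) :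
    supp (l • K) ξ = l * supp K ξ := by
  rw [← supp_smul_right hK hl]
  unfold supp
  congr 1
  rw [← image_smul, image_image]
  refine image_congr fun x _ => ?_
  rw [real_inner_smul_left, real_inner_smul_right]

theorem supp_neg (K : Set (Eu n)) (ξ : Eu n) : supp (-K) ξ = supp K (-ξ) := by
  unfold supp
  congr 1
  rw [← image_neg_eq_neg, image_image]
  refine image_congr fun x _ => ?_
  rw [inner_neg_left, inner_neg_right]

theorem supp_add_right_le {K : Set (Eu n)} (hK : IsCompact K) (hne : K.Nonempty) (ξ ζ : Eu n) :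
    supp K (ξ + ζ) ≤ supp K ξ + supp K ζ := by
  refine supp_le hne fun y hy => ?_
  rw [inner_add_right]
  exact add_le_add (le_supp hK hy ξ) (le_supp hK hy ζ)

theorem supp_closedBall (c : Eu n) {r : ℝ} (hr : 0 ≤ r) (ξ : Eu n) :
    supp (closedBall c r) ξ = ⟪c, ξ⟫ + r * ‖ξ‖ := by
  apply le_antisymm
  · refine supp_le (nonempty_closedBall.2 hr) fun y hy => ?_
    have h2 : ‖y - c‖ ≤ r := by rwa [mem_closedBall, dist_eq_norm] at hy
    have h3 : ⟪y - c, ξ⟫ ≤ ‖y - c‖ * ‖ξ‖ := real_inner_le_norm _ _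
    have h4 : ‖y - c‖ * ‖ξ‖ ≤ r * ‖ξ‖ := mul_le_mul_of_nonneg_right h2 (norm_nonneg _)
    rw [inner_sub_left] at h3
    linarith
  · by_cases hξ : ξ = 0
    · subst hξ
      have := le_supp (isCompact_closedBall c r) (mem_closedBall_self hr) (0 : Eu n)
      simpa using this
    · have hn : 0 < ‖ξ‖ := norm_pos_iff.2 hξ
      have hm : c + (r / ‖ξ‖) • ξ ∈ closedBall c r := by
        rw [mem_closedBall, dist_eq_norm, add_sub_cancel_left, norm_smul, Real.norm_eq_abs,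
          abs_of_nonneg (div_nonneg hr hn.le), div_mul_cancel₀ _ hn.ne']
      have := le_supp (isCompact_closedBall c r) hm ξ
      rw [inner_add_left, real_inner_smul_left, real_inner_self_eq_norm_sq] at this
      have e : r / ‖ξ‖ * ‖ξ‖ ^ 2 = r * ‖ξ‖ := by field_simp
      rwa [e] at this

theorem suppA_convex_le (ξ : Eu n) (a : ℝ) : Convex ℝ {y : Eu n | ⟪y, ξ⟫ ≤ a} := by
  intro x hx y hy s t hs ht hst
  simp only [mem_ofPred_eq] at hx hy ⊢
  rw [inner_add_left, real_inner_smul_left, real_inner_smul_left]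
  have h1 := mul_le_mul_of_nonneg_left hx hs
  have h2 := mul_le_mul_of_nonneg_left hy ht
  have h3 : s * a + t * a = a := by rw [← add_mul, hst, one_mul]
  linarith

theorem supp_convexHull_union {K L : Set (Eu n)} (hK : IsCompact K) (hL : IsCompact L)
    (hKn : K.Nonempty) (hLn : L.Nonempty) (ξ : Eu n) :
    supp (convexHull ℝ (K ∪ L)) ξ = max (supp K ξ) (supp L ξ) := by
  have hub : ∀ y ∈ convexHull ℝ (K ∪ L), ⟪y, ξ⟫ ≤ max (supp K ξ) (supp L ξ) := by
    refine convexHull_min (t := {y : Eu n | ⟪y, ξ⟫ ≤ max (supp K ξ) (supp L ξ)}) ?_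
      (suppA_convex_le ξ _)
    rintro y (hy | hy)
    · exact (le_supp hK hy ξ).trans (le_max_left _ _)
    · exact (le_supp hL hy ξ).trans (le_max_right _ _)
  have hbd : BddAbove ((fun x : Eu n => ⟪x, ξ⟫) '' convexHull ℝ (K ∪ L)) := by
    refine ⟨max (supp K ξ) (supp L ξ), ?_⟩
    rintro _ ⟨y, hy, rfl⟩
    exact hub y hy
  apply le_antisymm
  · exact supp_le ((hKn.mono subset_union_left).mono (subset_convexHull ℝ _)) hub
  · refine max_le (supp_le hKn fun y hy => ?_) (supp_le hLn fun y hy => ?_)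
    · exact le_csSup hbd ⟨y, subset_convexHull ℝ _ (Or.inl hy), rfl⟩
    · exact le_csSup hbd ⟨y, subset_convexHull ℝ _ (Or.inr hy), rfl⟩

theorem isCompact_convexHull_union {K L : Set (Eu n)} (hK : IsCompact K) (hL : IsCompact L)
    (hKc : Convex ℝ K) (hLc : Convex ℝ L) : IsCompact (convexHull ℝ (K ∪ L)) := by
  rcases K.eq_empty_or_nonempty with rfl | hKn
  · rw [empty_union, hLc.convexHull_eq]
    exact hL
  rcases L.eq_empty_or_nonempty with rfl | hLn
  · rw [union_empty, hKc.convexHull_eq]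
    exact hK
  rw [hKc.convexHull_union hLc hKn hLn]
  have he : convexJoin ℝ K L =
      (fun z : ℝ × Eu n × Eu n => (1 - z.1) • z.2.1 + z.1 • z.2.2) '' (Icc (0 : ℝ) 1 ×ˢ K ×ˢ L) := by
    ext x
    rw [mem_convexJoin]
    constructor
    · rintro ⟨a, ha, b, hb, hx⟩
      rw [segment_eq_image] at hx
      obtain ⟨t, ht, rfl⟩ := hx
      exact ⟨(t, a, b), ⟨ht, ha, hb⟩, rfl⟩
    · rintro ⟨⟨t, a, b⟩, ⟨ht, ha, hb⟩, rfl⟩
      refine ⟨a, ha, b, hb, ?_⟩
      rw [segment_eq_image]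
      exact ⟨t, ht, rfl⟩
  rw [he]
  refine (isCompact_Icc.prod (hK.prod hL)).image ?_
  fun_prop

/-- A nonzero functional is a positive multiple of the inner product with a unit vector. -/
theorem suppA_dual (f : StrongDual ℝ (Eu n)) (hf : f ≠ 0) :
    ∃ ξ : Eu n, ‖ξ‖ = 1 ∧ ∃ c : ℝ, 0 < c ∧ ∀ y, f y = c * ⟪y, ξ⟫ := by
  set v : Eu n := (InnerProductSpace.toDual ℝ (Eu n)).symm f with hv
  have hfv : ∀ y, f y = ⟪y, v⟫ := fun y => by
    rw [real_inner_comm, hv, InnerProductSpace.toDual_symm_apply]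
  have hv0 : v ≠ 0 := by
    intro h
    apply hf
    ext y
    rw [hfv, h]
    simp
  have hn : 0 < ‖v‖ := norm_pos_iff.2 hv0
  refine ⟨‖v‖⁻¹ • v, ?_, ‖v‖, hn, fun y => ?_⟩
  · rw [norm_smul, norm_inv, norm_norm, inv_mul_cancel₀ hn.ne']
  · rw [hfv, real_inner_smul_right, ← mul_assoc, mul_inv_cancel₀ hn.ne', one_mul]

theorem mem_of_le_supp {K : Set (Eu n)} (hK : IsCompact K) (hc : Convex ℝ K) (hne : K.Nonempty)
    {x : Eu n} (h : ∀ ξ : Eu n, ‖ξ‖ = 1 → ⟪x, ξ⟫ ≤ supp K ξ) : x ∈ K := by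
  by_contra hx
  obtain ⟨f, u, hf, hu⟩ := geometric_hahn_banach_closed_point hc hK.isClosed hx
  have hf0 : f ≠ 0 := by
    rintro rfl
    obtain ⟨a, ha⟩ := hne
    have h1 := hf a ha
    simp only [zero_apply] at h1 hu
    linarith
  obtain ⟨ξ, hξ, c, hc0, hfc⟩ := suppA_dual f hf0
  obtain ⟨y, hy, hye⟩ := exists_supp_eq hK hne ξ
  have h1 := h ξ hξ
  have h2 := hf y hy
  rw [hfc] at h2 hu
  rw [← hye] at h1
  have h3 := mul_le_mul_of_nonneg_left h1 hc0.le
  linarith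

theorem exists_normal {K : Set (Eu n)} (hK : IsBody K) {y : Eu n} (hy : y ∈ frontier K) :
    ∃ ξ : Eu n, ‖ξ‖ = 1 ∧ ⟪y, ξ⟫ = supp K ξ := by
  obtain ⟨hKc, hconv, hint⟩ := hK
  have hyK : y ∈ K := by
    have := hy.1
    rwa [hKc.isClosed.closure_eq] at this
  obtain ⟨f, hf⟩ := geometric_hahn_banach_open_point hconv.interior isOpen_interior hy.2
  have hf0 : f ≠ 0 := by
    rintro rfl
    obtain ⟨a, ha⟩ := hint
    have h1 := hf a ha
    simp at h1
  obtain ⟨ξ, hξ, c, hc0, hfc⟩ := suppA_dual f hf0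
  refine ⟨ξ, hξ, le_antisymm (le_supp hKc hyK ξ) (supp_le ⟨y, hyK⟩ fun a ha => ?_)⟩
  have hcl : a ∈ closure (interior K) := by
    rw [hconv.closure_interior_eq_closure_of_nonempty_interior hint]
    exact subset_closure ha
  have hsub : interior K ⊆ {z : Eu n | ⟪z, ξ⟫ ≤ ⟪y, ξ⟫} := fun z hz => by
    have h1 := hf z hz
    rw [hfc, hfc] at h1
    exact (lt_of_mul_lt_mul_left h1 hc0.le).le
  exact closure_minimal hsub (isClosed_le (suppA_cont ξ) continuous_const) hcl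

theorem mem_frontier_of_normal {K : Set (Eu n)} (hK : IsCompact K) {y ξ : Eu n} (hy : y ∈ K)
    (hξ : ξ ≠ 0) (h : ⟪y, ξ⟫ = supp K ξ) : y ∈ frontier K := by
  refine ⟨subset_closure hy, fun hint => ?_⟩
  obtain ⟨ε, hε, hb⟩ := Metric.mem_nhds_iff.1 (mem_interior_iff_mem_nhds.1 hint)
  have hn : 0 < ‖ξ‖ := norm_pos_iff.2 hξ
  have hm : y + (ε / 2 / ‖ξ‖) • ξ ∈ K := by
    apply hb
    rw [mem_ball, dist_eq_norm, add_sub_cancel_left, norm_smul, Real.norm_eq_abs,
      abs_of_nonneg (by positivity), div_mul_cancel₀ _ hn.ne']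
    linarith only [hε]
  have h1 := le_supp hK hm ξ
  rw [inner_add_left, real_inner_smul_left, real_inner_self_eq_norm_sq, ← h] at h1
  have h2 : 0 < ε / 2 / ‖ξ‖ * ‖ξ‖ ^ 2 := by positivity
  linarith only [h1, h2]

end Pool.Agent.Work.MP_f7e2e5_gt
end
end

-- merged part: Pool.Agent.Work.MP_f7e2e5_gt.VarA
section
open MeasureTheory Set Metric Filter Topology
open scoped RealInnerProductSpace Pointwise ContDiff NNReal

noncomputable section

namespace Pool.Agent.Work.MP_f7e2e5_gt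

variable {n : ℕ} {p : ℝ}

theorem Fld.add {X Y : Eu n → Eu n} {M M' : ℝ} (hX : Fld X M) (hY : Fld Y M') :
    Fld (fun x => X x + Y x) (M + M') := by
  refine ⟨hX.1.add hY.1, fun x => ?_⟩
  rw [fderiv_fun_add (hX.1.differentiable one_ne_zero x) (hY.1.differentiable one_ne_zero x)]
  exact (norm_add_le _ _).trans (add_le_add (hX.2 x) (hY.2 x))

theorem Fld.smul {X : Eu n → Eu n} {M : ℝ} (hX : Fld X M) (c : ℝ) :
    Fld (fun x => c • X x) (|c| * M) := by
  refine ⟨hX.1.const_smul c, fun x => ?_⟩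
  rw [fderiv_fun_const_smul (hX.1.differentiable one_ne_zero x), norm_smul, Real.norm_eq_abs]
  exact mul_le_mul_of_nonneg_left (hX.2 x) (abs_nonneg c)

theorem exists_fld_of_compact {X : Eu n → Eu n} (hX : ContDiff ℝ 1 X) (hc : HasCompactSupport X) :
    ∃ M, Fld X M := by
  obtain ⟨M, hM⟩ := (hX.continuous_fderiv one_ne_zero).bounded_above_of_compact_support
    (hc.fderiv ℝ)
  exact ⟨M, hX, hM⟩

theorem exists_fld_radial {ψ : Eu n → ℝ} (hψ : ContDiff ℝ 1 ψ) (hc : HasCompactSupport ψ) :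
    ∃ M, Fld (fun x => ψ x • x) M :=
  exists_fld_of_compact (hψ.smul contDiff_id) (hc.smul_right (f' := fun x : Eu n => x))

theorem VarA_approx {X : Eu n → Eu n} {M t : ℝ} (hX : Fld X M) (ht : |t| * M ≤ 1 / 2)
    (x y : Eu n) : ‖flow X t x - flow X t y - (x - y)‖ ≤ 1 / 2 * ‖x - y‖ := by
  have h1 : ‖X x - X y‖ ≤ M * ‖x - y‖ :=
    convex_univ.norm_image_sub_le_of_norm_fderiv_le (𝕜 := ℝ)
      (fun z _ => hX.1.differentiable one_ne_zero z) (fun z _ => hX.2 z) (mem_univ y) (mem_univ x)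
  have e : flow X t x - flow X t y - (x - y) = t • (X x - X y) := by
    simp only [flow, smul_sub]
    abel
  rw [e, norm_smul, Real.norm_eq_abs]
  calc |t| * ‖X x - X y‖ ≤ |t| * (M * ‖x - y‖) := mul_le_mul_of_nonneg_left h1 (abs_nonneg t)
    _ = |t| * M * ‖x - y‖ := (mul_assoc _ _ _).symm
    _ ≤ 1 / 2 * ‖x - y‖ := mul_le_mul_of_nonneg_right ht (norm_nonneg _)

/-- `id + tX` is a bi-Lipschitz homeomorphism. -/
theorem flow_homeo {X : Eu n → Eu n} {M t : ℝ} (hX : Fld X M) (ht : |t| * M ≤ 1 / 2) :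
    ∃ T : Eu n ≃ₜ Eu n, (∀ x, T x = flow X t x) ∧ LipschitzWith 2 T ∧ LipschitzWith 2 T.symm := by
  have hA : ApproximatesLinearOn (flow X t)
      (ContinuousLinearEquiv.refl ℝ (Eu n) : Eu n →L[ℝ] Eu n) univ (1 / 2) := by
    intro x _ y _
    simpa using VarA_approx hX ht x y
  have hc : Subsingleton (Eu n) ∨ (1 / 2 : ℝ≥0) <
      ‖((ContinuousLinearEquiv.refl ℝ (Eu n)).symm : Eu n →L[ℝ] Eu n)‖₊⁻¹ := by
    rcases subsingleton_or_nontrivial (Eu n) with h | h
    · exact Or.inl h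
    right
    rw [ContinuousLinearEquiv.refl_symm, ContinuousLinearEquiv.coe_refl,
      ContinuousLinearMap.nnnorm_id, inv_one]
    exact one_half_lt_one
  have hT : ∀ x, hA.toHomeomorph _ hc x = flow X t x := fun _ => rfl
  refine ⟨hA.toHomeomorph _ hc, hT, LipschitzWith.of_dist_le_mul fun x y => ?_,
    LipschitzWith.of_dist_le_mul fun x y => ?_⟩
  · rw [hT, hT, dist_eq_norm, dist_eq_norm]
    have h1 := VarA_approx hX ht x y
    have h2 := norm_sub_norm_le (flow X t x - flow X t y) (x - y)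
    have h3 := norm_nonneg (x - y)
    push_cast
    linarith only [h1, h2, h3]
  · obtain ⟨a, rfl⟩ := (hA.toHomeomorph _ hc).surjective x
    obtain ⟨b, rfl⟩ := (hA.toHomeomorph _ hc).surjective y
    rw [Homeomorph.symm_apply_apply, Homeomorph.symm_apply_apply, hT, hT, dist_eq_norm,
      dist_eq_norm]
    have h1 := VarA_approx hX ht a b
    have h2 := norm_sub_norm_le (a - b) (flow X t a - flow X t b)
    rw [norm_sub_rev] at h1
    push_cast
    linarith only [h1, h2]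

theorem lam_integrable (hp : 1 < p) {u : Eu n → ℝ} (hu : Lip0 u) {X : Eu n → Eu n} {M : ℝ}
    (hX : Fld X M) : Integrable (fun x => ell p (gradient u x) (fderiv ℝ X x)) := by
  have hm : Measurable (fun x => ell p (gradient u x) (fderiv ℝ X x)) :=
    (measurable_ell (n := n) (p := p)).comp
      (f := fun x => (gradient u x, fderiv ℝ X x))
      ((measurable_gradient u).prodMk (measurable_fderiv ℝ X))
  refine ((hu.integrable_en (one_pos.trans hp)).const_mul ((n + p) * M)).mono'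
    hm.aestronglyMeasurable (Eventually.of_forall fun x => ?_)
  have h0 : 0 ≤ (n + p) * ‖gradient u x‖ ^ p :=
    mul_nonneg (add_nonneg (Nat.cast_nonneg n) (one_pos.trans hp).le)
      (Real.rpow_nonneg (norm_nonneg _) p)
  rw [Real.norm_eq_abs]
  calc _ ≤ (n + p) * ‖gradient u x‖ ^ p * ‖fderiv ℝ X x‖ := abs_ell_le hp _ _
    _ ≤ (n + p) * ‖gradient u x‖ ^ p * M := mul_le_mul_of_nonneg_left (hX.2 x) h0
    _ = (n + p) * M * ‖gradient u x‖ ^ p := by ring

theorem VarA_lip0 {u : Eu n → ℝ} (hu : Lip0 u) (T : Eu n ≃ₜ Eu n) (hT : LipschitzWith 2 T) :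
    Lip0 (fun x => u (T x)) := by
  obtain ⟨C, hC⟩ := hu.lip
  exact ⟨⟨_, hC.comp hT⟩, hu.cs.comp_homeomorph T⟩

theorem VarA_grad (T : Eu n ≃ₜ Eu n) {x : Eu n} {D : Eu n →L[ℝ] Eu n} (hD : HasFDerivAt T D x)
    (hdet : D.det ≠ 0) (v : Eu n → ℝ) (y : Eu n) :
    ⟪gradient (fun z => v (T z)) x, y⟫ = ⟪gradient v (T x), D y⟫ := by
  by_cases hv : DifferentiableAt ℝ v (T x)
  · rw [inner_gradient_left, inner_gradient_left]
    exact congrArg (fun L : Eu n →L[ℝ] ℝ => L y) (hv.hasFDerivAt.comp x hD).fderiv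
  · have hu : ¬ DifferentiableAt ℝ (fun z => v (T z)) x := by
      intro hu
      have h1 : HasFDerivAt T (D.toContinuousLinearEquivOfDetNeZero hdet : Eu n →L[ℝ] Eu n)
          (T.symm (T x)) := by
        rwa [ContinuousLinearMap.coe_toContinuousLinearEquivOfDetNeZero, T.symm_apply_apply]
      have h2 := (HasFDerivAt.of_local_left_inverse T.symm.continuous.continuousAt h1
        (Eventually.of_forall T.apply_symm_apply)).differentiableAt
      have h3 : DifferentiableAt ℝ (fun z => v (T z)) (T.symm (T x)) := by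
        rwa [T.symm_apply_apply]
      have h4 := h3.comp (T x) h2
      have e : (fun z => v (T z)) ∘ T.symm = v := funext fun z =>
        congrArg v (T.apply_symm_apply z)
      rw [e] at h4
      exact hv h4
    rw [gradient_eq_zero_of_not_differentiableAt hv, gradient_eq_zero_of_not_differentiableAt hu,
      inner_zero_left, inner_zero_left]

/-- Transport of admissible functions along `id + tX`, in both directions. -/
theorem en_flow (hp : 1 < p) {X : Eu n → Eu n} {M ε : ℝ} (hX : Fld X M) (hε : 0 < ε) :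
    ∃ t0 : ℝ, 0 < t0 ∧ ∀ t : ℝ, |t| ≤ t0 → ∀ K : Set (Eu n),
      (∀ u, Adm K u → ∃ v, Adm (flow X t '' K) v ∧
        |en p v univ - en p u univ - t * lam p u X| ≤ ε * |t| * en p u univ) ∧
      (∀ v, Adm (flow X t '' K) v → ∃ u, Adm K u ∧
        |en p v univ - en p u univ - t * lam p u X| ≤ ε * |t| * en p u univ) := by
  have hp0 : 0 < p := one_pos.trans hp
  have hM : 0 ≤ M := (norm_nonneg _).trans (hX.2 0)
  obtain ⟨t0, ht0, htM, htay⟩ := taylor (n := n) hp hM hε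
  refine ⟨t0, ht0, fun t ht K => ?_⟩
  obtain ⟨T, hT, hL, hL'⟩ := flow_homeo hX ((mul_le_mul_of_nonneg_right ht hM).trans htM)
  have hD : ∀ x, HasFDerivAt T (ContinuousLinearMap.id ℝ (Eu n) + t • fderiv ℝ X x) x := by
    intro x
    rw [show (T : Eu n → Eu n) = flow X t from funext hT]
    exact (hasFDerivAt_id x).add ((hX.1.differentiable one_ne_zero x).hasFDerivAt.const_smul t)
  have key : ∀ u v : Eu n → ℝ, Lip0 u → Lip0 v → u = (fun z => v (T z)) →
      |en p v univ - en p u univ - t * lam p u X| ≤ ε * |t| * en p u univ := by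
    intro u v hu hv huv
    have hg : ∀ x, gradient u x = gradient v (T x) +
        t • (ContinuousLinearMap.adjoint (fderiv ℝ X x)) (gradient v (T x)) := by
      intro x
      refine ext_inner_right ℝ fun y => ?_
      rw [huv, VarA_grad T (hD x) (htay t ht _ (hX.2 x)).1.ne' v y, inner_add_left,
        real_inner_smul_left, ContinuousLinearMap.adjoint_inner_left]
      change ⟪gradient v (T x), y + t • fderiv ℝ X x y⟫ = _
      rw [inner_add_right, real_inner_smul_right]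
    have habs : (fun x => |(ContinuousLinearMap.id ℝ (Eu n) + t • fderiv ℝ X x).det| •
        ‖gradient v (T x)‖ ^ p) = fun x => ‖gradient v (T x)‖ ^ p *
          (ContinuousLinearMap.id ℝ (Eu n) + t • fderiv ℝ X x).det := by
      funext x
      rw [abs_of_pos (htay t ht _ (hX.2 x)).1, smul_eq_mul, mul_comm]
    have h1 := integral_image_eq_integral_abs_det_fderiv_smul volume MeasurableSet.univ
      (fun x _ => (hD x).hasFDerivWithinAt) T.injective.injOn fun x => ‖gradient v x‖ ^ p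
    have h2 := (integrableOn_image_iff_integrableOn_abs_det_fderiv_smul volume MeasurableSet.univ
      (fun x _ => (hD x).hasFDerivWithinAt) T.injective.injOn fun x => ‖gradient v x‖ ^ p).1
      (hv.integrable_en hp0).integrableOn
    rw [habs] at h1 h2
    rw [image_univ, T.surjective.range_eq] at h1
    rw [integrableOn_univ] at h2
    have h3 := hu.integrable_en hp0
    have h4 := (lam_integrable hp hu hX).const_mul t
    have h5 : Integrable fun x => ‖gradient v (T x)‖ ^ p *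
        (ContinuousLinearMap.id ℝ (Eu n) + t • fderiv ℝ X x).det - ‖gradient u x‖ ^ p := h2.sub h3
    rw [en, h1, en, lam, Measure.restrict_univ, ← integral_const_mul, ← integral_const_mul,
      ← integral_sub h2 h3, ← integral_sub h5 h4, ← Real.norm_eq_abs]
    refine norm_integral_le_of_norm_le (h3.const_mul _) (Eventually.of_forall fun x => ?_)
    exact (htay t ht _ (hX.2 x)).2 _ _ (hg x)
  refine ⟨fun u hu => ?_, fun v hv => ?_⟩
  · have hv := VarA_lip0 hu.lip0 T.symm hL'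
    refine ⟨fun x => u (T.symm x), ⟨hv, fun x => hu.nonneg _, fun x => hu.le_one _, ?_⟩,
      key _ _ hu.lip0 hv (funext fun z => by rw [T.symm_apply_apply])⟩
    rintro _ ⟨x, hx, rfl⟩
    rw [← hT, T.symm_apply_apply]
    exact hu.one x hx
  · have hu := VarA_lip0 hv.lip0 T hL
    exact ⟨fun x => v (T x), ⟨hu, fun x => hv.nonneg _, fun x => hv.le_one _,
      fun x hx => hv.one _ ⟨x, hx, (hT x).symm⟩⟩, key _ _ hu hv.lip0 rfl⟩

end Pool.Agent.Work.MP_f7e2e5_gt
end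
end
end

-- merged part: Pool.Agent.Work.MP_f7e2e5_gt.Barrier
section
-- merged part: Pool.Agent.Work.MP_f7e2e5_gt.Ibp
section
open MeasureTheory Set Metric Filter Topology
open scoped RealInnerProductSpace Pointwise ContDiff NNReal

noncomputable section

namespace Pool.Agent.Work.MP_f7e2e5_gt

variable {n : ℕ} {p : ℝ}

theorem Ibp_inv_max_lip {ε : ℝ} (hε : 0 < ε) (x y : Eu n) :
    |(max ‖x‖ ε)⁻¹ - (max ‖y‖ ε)⁻¹| ≤ (max ‖x‖ ε)⁻¹ * (max ‖y‖ ε)⁻¹ * ‖x - y‖ := by
  have hx : 0 < max ‖x‖ ε := lt_of_lt_of_le hε (le_max_right _ _)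
  have hy : 0 < max ‖y‖ ε := lt_of_lt_of_le hε (le_max_right _ _)
  have h1 : (max ‖x‖ ε)⁻¹ - (max ‖y‖ ε)⁻¹ =
      (max ‖x‖ ε)⁻¹ * (max ‖y‖ ε)⁻¹ * (max ‖y‖ ε - max ‖x‖ ε) := by
    field_simp
  rw [h1, abs_mul, abs_of_pos (by positivity)]
  refine mul_le_mul_of_nonneg_left ?_ (by positivity)
  calc |max ‖y‖ ε - max ‖x‖ ε| ≤ |‖y‖ - ‖x‖| := abs_max_sub_max_le_abs _ _ _
    _ ≤ ‖y - x‖ := abs_norm_sub_norm_le _ _
    _ = ‖x - y‖ := norm_sub_rev _ _

theorem Ibp_inv_max_le {ε : ℝ} (hε : 0 < ε) (x : Eu n) : (max ‖x‖ ε)⁻¹ ≤ ε⁻¹ :=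
  inv_anti₀ hε (le_max_right _ _)

theorem Ibp_inv_max_pos {ε : ℝ} (hε : 0 < ε) (x : Eu n) : 0 < (max ‖x‖ ε)⁻¹ :=
  inv_pos.2 (lt_of_lt_of_le hε (le_max_right _ _))

theorem Ibp_kernel_bl {ε : ℝ} (hε : 0 < ε) (k : ℕ) :
    ∃ C : ℝ, 0 ≤ C ∧ (∀ x : Eu n, ‖(max ‖x‖ ε)⁻¹ ^ (k + 1) • x‖ ≤ C) ∧
      ∀ x y : Eu n, ‖(max ‖x‖ ε)⁻¹ ^ (k + 1) • x - (max ‖y‖ ε)⁻¹ ^ (k + 1) • y‖ ≤
        C * ‖x - y‖ := by
  induction k with
  | zero =>
    have hb : ∀ x : Eu n, (max ‖x‖ ε)⁻¹ * ‖x‖ ≤ 1 := fun x => by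
      have hx : 0 < max ‖x‖ ε := lt_of_lt_of_le hε (le_max_right _ _)
      rw [inv_mul_le_iff₀ hx, mul_one]
      exact le_max_left _ _
    refine ⟨1 + 2 * ε⁻¹, by positivity, fun x => ?_, fun x y => ?_⟩
    · rw [zero_add, pow_one, norm_smul, Real.norm_eq_abs, abs_of_pos (Ibp_inv_max_pos hε x)]
      have := hb x
      have : 0 ≤ 2 * ε⁻¹ := by positivity
      linarith
    · simp only [zero_add, pow_one]
      have e : (max ‖x‖ ε)⁻¹ • x - (max ‖y‖ ε)⁻¹ • y =
          (max ‖x‖ ε)⁻¹ • (x - y) + ((max ‖x‖ ε)⁻¹ - (max ‖y‖ ε)⁻¹) • y := by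
        rw [smul_sub, sub_smul]; abel
      rw [e]
      refine (norm_add_le _ _).trans ?_
      rw [norm_smul, norm_smul, Real.norm_eq_abs, Real.norm_eq_abs,
        abs_of_pos (Ibp_inv_max_pos hε x)]
      have h1 := Ibp_inv_max_lip hε x y
      have h2 := Ibp_inv_max_le hε x
      have h3 := Ibp_inv_max_pos hε x
      have h4 := hb y
      have h5 : |(max ‖x‖ ε)⁻¹ - (max ‖y‖ ε)⁻¹| * ‖y‖ ≤ ε⁻¹ * ‖x - y‖ := by
        calc |(max ‖x‖ ε)⁻¹ - (max ‖y‖ ε)⁻¹| * ‖y‖
            ≤ (max ‖x‖ ε)⁻¹ * (max ‖y‖ ε)⁻¹ * ‖x - y‖ * ‖y‖ :=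
              mul_le_mul_of_nonneg_right h1 (norm_nonneg _)
          _ = ((max ‖x‖ ε)⁻¹ * ‖x - y‖) * ((max ‖y‖ ε)⁻¹ * ‖y‖) := by ring
          _ ≤ (ε⁻¹ * ‖x - y‖) * 1 := by
              refine mul_le_mul (mul_le_mul_of_nonneg_right h2 (norm_nonneg _)) h4 ?_ ?_
              · exact mul_nonneg (Ibp_inv_max_pos hε y).le (norm_nonneg _)
              · positivity
          _ = ε⁻¹ * ‖x - y‖ := mul_one _
      have h6 : (max ‖x‖ ε)⁻¹ * ‖x - y‖ ≤ ε⁻¹ * ‖x - y‖ :=
        mul_le_mul_of_nonneg_right h2 (norm_nonneg _)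
      have h7 := norm_nonneg (x - y)
      linarith only [h5, h6, h7]
  | succ k ih =>
    obtain ⟨C, hC, hb, hl⟩ := ih
    refine ⟨ε⁻¹ * C + ε⁻¹ * ε⁻¹ * C, by positivity, fun x => ?_, fun x y => ?_⟩
    · rw [pow_succ', mul_smul, norm_smul, Real.norm_eq_abs, abs_of_pos (Ibp_inv_max_pos hε x)]
      have h1 : (max ‖x‖ ε)⁻¹ * ‖(max ‖x‖ ε)⁻¹ ^ (k + 1) • x‖ ≤ ε⁻¹ * C :=
        mul_le_mul (Ibp_inv_max_le hε x) (hb x) (norm_nonneg _) (by positivity)
      have : 0 ≤ ε⁻¹ * ε⁻¹ * C := by positivity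
      linarith only [h1, this]
    · rw [pow_succ' (max ‖x‖ ε)⁻¹, pow_succ' (max ‖y‖ ε)⁻¹, mul_smul, mul_smul]
      set a := (max ‖x‖ ε)⁻¹ ^ (k + 1) • x with ha
      set b := (max ‖y‖ ε)⁻¹ ^ (k + 1) • y with hbb
      have e : (max ‖x‖ ε)⁻¹ • a - (max ‖y‖ ε)⁻¹ • b =
          (max ‖x‖ ε)⁻¹ • (a - b) + ((max ‖x‖ ε)⁻¹ - (max ‖y‖ ε)⁻¹) • b := by
        rw [smul_sub, sub_smul]; abel
      rw [e]
      refine (norm_add_le _ _).trans ?_
      rw [norm_smul, norm_smul, Real.norm_eq_abs, Real.norm_eq_abs,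
        abs_of_pos (Ibp_inv_max_pos hε x)]
      have h1 := Ibp_inv_max_lip hε x y
      have h2 := Ibp_inv_max_le hε x
      have h2' := Ibp_inv_max_le hε y
      have h3 := Ibp_inv_max_pos hε x
      have h3' := Ibp_inv_max_pos hε y
      have h5 : |(max ‖x‖ ε)⁻¹ - (max ‖y‖ ε)⁻¹| * ‖b‖ ≤ (ε⁻¹ * ε⁻¹ * ‖x - y‖) * C := by
        refine mul_le_mul (h1.trans ?_) (hb y) (norm_nonneg _) (by positivity)
        exact mul_le_mul_of_nonneg_right (mul_le_mul h2 h2' h3'.le (by positivity))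
          (norm_nonneg _)
      have h6 : (max ‖x‖ ε)⁻¹ * ‖a - b‖ ≤ ε⁻¹ * (C * ‖x - y‖) :=
        mul_le_mul h2 (hl x y) (norm_nonneg _) (by positivity)
      linarith only [h5, h6]

theorem Ibp_kernel_lip (L : Submodule ℝ (Eu n)) (c : Eu n) {ε : ℝ} (hε : 0 < ε) {k : ℕ}
    (hk : k ≠ 0) (v : Eu n) :
    ∃ C : ℝ≥0, LipschitzWith C (fun z : Eu n =>
      ⟪(max ‖L.starProjection (z - c)‖ ε)⁻¹ ^ k • L.starProjection (z - c), v⟫) := by
  obtain ⟨j, rfl⟩ := Nat.exists_eq_succ_of_ne_zero hk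
  obtain ⟨C, hC, -, hl⟩ := Ibp_kernel_bl (n := n) hε j
  refine ⟨⟨C * ‖v‖, by positivity⟩, LipschitzWith.of_dist_le_mul fun x y => ?_⟩
  rw [Real.dist_eq, ← inner_sub_left, dist_eq_norm]
  refine (abs_real_inner_le_norm _ _).trans ?_
  have h1 := hl (L.starProjection (x - c)) (L.starProjection (y - c))
  have h2 : ‖L.starProjection (x - c) - L.starProjection (y - c)‖ ≤ ‖x - y‖ := by
    rw [← map_sub, sub_sub_sub_cancel_right]
    exact L.norm_starProjection_apply_le _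
  change _ ≤ C * ‖v‖ * ‖x - y‖
  calc _ ≤ (C * ‖x - y‖) * ‖v‖ :=
        mul_le_mul_of_nonneg_right (h1.trans (mul_le_mul_of_nonneg_left h2 hC)) (norm_nonneg _)
    _ = _ := by ring

theorem Ibp_hasFDerivAt_proj (L : Submodule ℝ (Eu n)) (c z : Eu n) :
    HasFDerivAt (fun y => L.starProjection (y - c)) L.starProjection z := by
  have h1 : HasFDerivAt (fun y : Eu n => y - c) (ContinuousLinearMap.id ℝ (Eu n)) z :=
    (hasFDerivAt_id z).sub_const c
  have h2 := L.starProjection.hasFDerivAt.comp z h1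
  rw [ContinuousLinearMap.comp_id] at h2
  exact h2

theorem Ibp_radial (L : Submodule ℝ (Eu n)) (c z : Eu n) {φ : ℝ → ℝ} {φ' : ℝ}
    (hz : L.starProjection (z - c) ≠ 0) (hφ : HasDerivAt φ φ' ‖L.starProjection (z - c)‖) :
    HasGradientAt (fun y => φ ‖L.starProjection (y - c)‖)
      ((φ' * ‖L.starProjection (z - c)‖⁻¹) • L.starProjection (z - c)) z := by
  set w := L.starProjection (z - c) with hw
  have hw0 : 0 < ‖w‖ := norm_pos_iff.2 hz
  have h1 := (Ibp_hasFDerivAt_proj L c z).norm_sq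
  have h2 := h1.sqrt (by rw [← hw]; positivity)
  have h3 : (fun y => √(‖L.starProjection (y - c)‖ ^ 2)) =
      fun y => ‖L.starProjection (y - c)‖ := by
    funext y; exact Real.sqrt_sq (norm_nonneg _)
  rw [h3] at h2
  have h4 := hφ.comp_hasFDerivAt z h2
  rw [hasGradientAt_iff_hasFDerivAt]
  refine HasFDerivAt.congr_fderiv h4 ?_
  ext h
  have h5 : ⟪w, L.starProjection h⟫ = ⟪w, h⟫ := by
    rw [← L.inner_starProjection_left_eq_right, hw]
    congr 1
    exact Submodule.starProjection_eq_self_iff.2 (L.starProjection_apply_mem _)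
  simp only [InnerProductSpace.toDual_apply_apply, inner_smul_left, ← hw,
    Real.sqrt_sq (norm_nonneg _), smul_apply, ContinuousLinearMap.comp_apply,
    innerSL_apply_apply, h5, smul_eq_mul, nsmul_eq_mul, conj_trivial]
  field_simp
  norm_num

theorem Ibp_level_null (L : Submodule ℝ (Eu n)) (c : Eu n) {ε : ℝ} (hε : 0 < ε) :
    ∀ᵐ z : Eu n, ‖L.starProjection (z - c)‖ ≠ ε := by
  have hcont : Continuous fun z : Eu n => ‖L.starProjection (z - c)‖ := by fun_prop
  have hconv : Convex ℝ {z : Eu n | ‖L.starProjection (z - c)‖ < ε} := by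
    intro x hx y hy a b ha hb hab
    have hB := convex_ball (0 : Eu n) ε (mem_ball_zero_iff.2 hx) (mem_ball_zero_iff.2 hy) ha hb hab
    have e : a • x + b • y - c = a • (x - c) + b • (y - c) := by
      rw [smul_sub, smul_sub]
      have : c = a • c + b • c := by rw [← add_smul, hab, one_smul]
      nth_rewrite 1 [this]
      abel
    change ‖L.starProjection (a • x + b • y - c)‖ < ε
    rw [e, map_add, map_smul, map_smul]
    exact mem_ball_zero_iff.1 hB
  have hnull := hconv.addHaar_frontier (volume : Measure (Eu n))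
  have hopen : IsOpen {z : Eu n | ‖L.starProjection (z - c)‖ < ε} :=
    isOpen_lt hcont continuous_const
  rw [ae_iff]
  refine measure_mono_null (fun z hz => ?_) hnull
  simp only [ne_eq, not_not, mem_ofPred_eq] at hz
  rw [hopen.frontier_eq]
  refine ⟨?_, fun h => (ne_of_lt h) hz⟩
  have hlim : Tendsto (fun t : ℝ => c + t • (z - c)) (𝓝[<] 1) (𝓝 z) := by
    have : Continuous (fun t : ℝ => c + t • (z - c)) := by fun_prop
    have h2 := (this.tendsto 1).mono_left (nhdsWithin_le_nhds (s := Iio (1 : ℝ)))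
    simpa using h2
  refine mem_closure_of_tendsto hlim ?_
  filter_upwards [Ioo_mem_nhdsLT (zero_lt_one' ℝ)] with t ht
  rw [add_sub_cancel_left, map_smul, norm_smul, hz, Real.norm_eq_abs, abs_of_pos ht.1]
  linarith only [hε, ht, ht.2, mul_pos_of_neg_of_neg (Mathlib.Tactic.Linarith.sub_neg_of_lt hε) (Mathlib.Tactic.Linarith.sub_neg_of_lt ht.right)]

theorem Ibp_sum_basis (L : Submodule ℝ (Eu n)) {w : Eu n} (hw : w ∈ L) (g : Eu n) :
    ∑ i, ⟪w, (stdOrthonormalBasis ℝ L i : Eu n)⟫ * ⟪(stdOrthonormalBasis ℝ L i : Eu n), g⟫ =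
      ⟪w, g⟫ := by
  have h := (stdOrthonormalBasis ℝ L).sum_repr' (⟨w, hw⟩ : L)
  have h2 : ∑ i, ⟪(stdOrthonormalBasis ℝ L i : Eu n), w⟫ • (stdOrthonormalBasis ℝ L i : Eu n)
      = w := by
    have h3 := congrArg (fun x : L => (x : Eu n)) h
    simpa [Submodule.coe_inner] using h3
  conv_rhs => rw [← h2, sum_inner]
  refine Finset.sum_congr rfl fun i _ => ?_
  rw [real_inner_smul_left, real_inner_comm]

theorem Ibp_div (L : Submodule ℝ (Eu n)) (c : Eu n) {ε : ℝ} (hε : 0 < ε) {z : Eu n}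
    (hz : ‖L.starProjection (z - c)‖ ≠ ε) {k : ℕ} (hk : Module.finrank ℝ L = k) :
    ∑ i, lineDeriv ℝ (fun y : Eu n => ⟪(max ‖L.starProjection (y - c)‖ ε)⁻¹ ^ k •
        L.starProjection (y - c), (stdOrthonormalBasis ℝ L i : Eu n)⟫) z
        (stdOrthonormalBasis ℝ L i : Eu n) =
      if ‖L.starProjection (z - c)‖ < ε then (k : ℝ) / ε ^ k else 0 := by
  have hcont : Continuous fun z : Eu n => ‖L.starProjection (z - c)‖ := by fun_prop
  have hbb : ∀ i, ⟪L.starProjection (stdOrthonormalBasis ℝ L i : Eu n),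
      (stdOrthonormalBasis ℝ L i : Eu n)⟫ = 1 := fun i => by
    rw [Submodule.starProjection_eq_self_iff.2 (stdOrthonormalBasis ℝ L i).2,
      real_inner_self_eq_norm_sq, ← Submodule.coe_norm,
      (stdOrthonormalBasis ℝ L).orthonormal.1 i, one_pow]
  have key : ∀ D : Eu n →L[ℝ] Eu n, HasFDerivAt (fun y : Eu n =>
      (max ‖L.starProjection (y - c)‖ ε)⁻¹ ^ k • L.starProjection (y - c)) D z → ∀ v : Eu n,
      lineDeriv ℝ (fun y : Eu n => ⟪(max ‖L.starProjection (y - c)‖ ε)⁻¹ ^ k •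
        L.starProjection (y - c), v⟫) z v = ⟪D v, v⟫ := fun D hD v => by
    have h1 := (hD.inner ℝ (hasFDerivAt_const v z)).hasLineDerivAt v
    rw [h1.lineDeriv]
    simp
  rcases lt_or_gt_of_ne hz with h | h
  · rw [if_pos h]
    have hD : HasFDerivAt (fun y : Eu n =>
        (max ‖L.starProjection (y - c)‖ ε)⁻¹ ^ k • L.starProjection (y - c))
        (ε⁻¹ ^ k • L.starProjection) z := by
      refine ((Ibp_hasFDerivAt_proj L c z).const_smul (ε⁻¹ ^ k)).congr_of_eventuallyEq ?_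
      filter_upwards [(isOpen_lt hcont continuous_const).mem_nhds h] with y hy
      rw [max_eq_right (le_of_lt hy)]
      rfl
    simp only [key _ hD]
    simp only [smul_apply, real_inner_smul_left, hbb, mul_one, Finset.sum_const,
      Finset.card_univ, Fintype.card_fin, nsmul_eq_mul, inv_pow, div_eq_mul_inv, hk]
  · rw [if_neg (not_lt.2 h.le)]
    set w := L.starProjection (z - c) with hw
    have hw0 : 0 < ‖w‖ := hε.trans h
    have hφ : HasDerivAt (fun t : ℝ => t⁻¹ ^ k)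
        ((k : ℝ) * (‖w‖⁻¹) ^ (k - 1) * (-(‖w‖ ^ 2)⁻¹)) ‖w‖ :=
      (hasDerivAt_inv hw0.ne').pow k
    have hG := Ibp_radial L c z (norm_pos_iff.1 hw0) hφ
    rw [hasGradientAt_iff_hasFDerivAt] at hG
    have hD0 := hG.smul (Ibp_hasFDerivAt_proj L c z)
    have hD := hD0.congr_of_eventuallyEq (f₁ := fun y : Eu n =>
        (max ‖L.starProjection (y - c)‖ ε)⁻¹ ^ k • L.starProjection (y - c)) (by
      filter_upwards [(isOpen_lt continuous_const hcont).mem_nhds h] with y hy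
      rw [max_eq_left (le_of_lt hy)]
      rfl)
    have hwL : w ∈ L := L.starProjection_apply_mem _
    have hs := Ibp_sum_basis L hwL w
    rw [real_inner_self_eq_norm_sq] at hs
    simp only [key _ hD]
    simp only [add_apply, smul_apply, inner_add_left, real_inner_smul_left, hbb, mul_one,
      ContinuousLinearMap.smulRight_apply, InnerProductSpace.toDual_apply_apply, ← hw,
      Finset.sum_add_distrib, Finset.sum_const, Finset.card_univ, Fintype.card_fin, nsmul_eq_mul,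
      mul_assoc, ← Finset.mul_sum]
    simp only [real_inner_comm w] at hs
    rw [hs, hk]
    rcases Nat.eq_zero_or_pos k with h0 | h0
    · simp [h0]
    · obtain ⟨j, hj⟩ := Nat.exists_eq_succ_of_ne_zero h0.ne'
      rw [hj, Nat.succ_sub_one, pow_succ]
      field_simp
      ring

/-- Integration by parts against the truncated kernel `P(z-c) / max(|P(z-c)|, ε)^k`. -/
theorem ibp_kernel (L : Submodule ℝ (Eu n)) (hk : L ≠ ⊥) (c : Eu n) {ε : ℝ} (hε : 0 < ε)
    {η : Eu n → ℝ} (hη : Lip0 η) :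
    ∫ z, ⟪((max ‖L.starProjection (z - c)‖ ε)⁻¹ ^ Module.finrank ℝ L) • L.starProjection (z - c),
        gradient η z⟫ =
      -((Module.finrank ℝ L : ℝ) / ε ^ Module.finrank ℝ L) *
        ∫ z in {z | ‖L.starProjection (z - c)‖ < ε}, η z := by
  have hk0 : Module.finrank ℝ L ≠ 0 := fun h => hk (Submodule.finrank_eq_zero.1 h)
  have hcont : Continuous fun z : Eu n => ‖L.starProjection (z - c)‖ := by fun_prop
  obtain ⟨D, hD⟩ := hη.lip
  set b : Fin (Module.finrank ℝ L) → Eu n := fun i => (stdOrthonormalBasis ℝ L i : Eu n) with hb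
  set f : Fin (Module.finrank ℝ L) → Eu n → ℝ := fun i y =>
    ⟪(max ‖L.starProjection (y - c)‖ ε)⁻¹ ^ Module.finrank ℝ L • L.starProjection (y - c), b i⟫
    with hf
  have hfl : ∀ i, ∃ C : ℝ≥0, LipschitzWith C (f i) := fun i => Ibp_kernel_lip L c hε hk0 (b i)
  choose C hC using hfl
  have hηi : Integrable η := hD.continuous.integrable_of_hasCompactSupport hη.cs
  have I1 : ∀ i, Integrable (fun z => lineDeriv ℝ (f i) z (b i) * η z) := fun i =>
    ((hC i).memLp_lineDeriv (b i)).integrable_mul (memLp_one_iff_integrable.2 hηi)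
  have I2 : ∀ i, Integrable (fun z => lineDeriv ℝ η z (-b i) * f i z) := fun i => by
    have h1 : Integrable (fun z => lineDeriv ℝ η z (-b i) * f i z) := by
      have hcs : HasCompactSupport (fun z => lineDeriv ℝ η z (-b i) * f i z) := by
        refine HasCompactSupport.mul_right (f := fun z => lineDeriv ℝ η z (-b i)) ?_
        refine hη.cs.mono' fun x hx => ?_
        by_contra hx'
        apply hx
        have h0 : η =ᶠ[𝓝 x] fun _ => 0 := notMem_tsupport_iff_eventuallyEq.1 hx'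
        change lineDeriv ℝ η x (-b i) = 0
        rw [h0.lineDeriv_eq]
        simp [lineDeriv]
      refine (integrableOn_iff_integrable_of_support_subset (subset_tsupport _)).1 ?_
      exact ((hD.locallyIntegrable_lineDeriv (-b i)).integrableOn_isCompact hcs).mul_continuousOn
        (hC i).continuous.continuousOn hcs
    exact h1
  have E1 : ∀ i, ∫ z, lineDeriv ℝ (f i) z (b i) * η z = ∫ z, lineDeriv ℝ η z (-b i) * f i z :=
    fun i => (hC i).integral_lineDeriv_mul_eq hD hη.cs (b i)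
  have E2 : ∫ z, ∑ i, lineDeriv ℝ (f i) z (b i) * η z =
      ∫ z, ∑ i, lineDeriv ℝ η z (-b i) * f i z := by
    rw [integral_finsetSum _ fun i _ => I1 i, integral_finsetSum _ fun i _ => I2 i]
    exact Finset.sum_congr rfl fun i _ => E1 i
  have E3 : ∫ z, ∑ i, lineDeriv ℝ η z (-b i) * f i z =
      -∫ z, ⟪((max ‖L.starProjection (z - c)‖ ε)⁻¹ ^ Module.finrank ℝ L) •
        L.starProjection (z - c), gradient η z⟫ := by
    rw [← integral_neg]
    refine integral_congr_ae ?_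
    filter_upwards [hη.lip.ae_diff] with z hz
    have hmem : ((max ‖L.starProjection (z - c)‖ ε)⁻¹ ^ Module.finrank ℝ L) •
        L.starProjection (z - c) ∈ L := L.smul_mem _ (L.starProjection_apply_mem _)
    rw [← Ibp_sum_basis L hmem, ← Finset.sum_neg_distrib]
    refine Finset.sum_congr rfl fun i _ => ?_
    rw [hz.lineDeriv_eq_fderiv, map_neg, ← inner_gradient_left, real_inner_comm, neg_mul,
      mul_comm]
  have E4 : ∫ z, ∑ i, lineDeriv ℝ (f i) z (b i) * η z =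
      ((Module.finrank ℝ L : ℝ) / ε ^ Module.finrank ℝ L) *
        ∫ z in {z | ‖L.starProjection (z - c)‖ < ε}, η z := by
    rw [← integral_indicator (isOpen_lt hcont continuous_const).measurableSet,
      ← integral_const_mul]
    refine integral_congr_ae ?_
    filter_upwards [Ibp_level_null L c hε] with z hz
    rw [← Finset.sum_mul, Ibp_div L c hε hz rfl]
    by_cases h : ‖L.starProjection (z - c)‖ < ε
    · rw [if_pos h, indicator_of_mem (by exact h)]
    · rw [if_neg h, indicator_of_notMem (by exact h)]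
      simp
  rw [E3, E4] at E2
  linarith only [E2]

/-- The gradient of a function of `|P(z-c)|`. -/
theorem hasGradientAt_radial (L : Submodule ℝ (Eu n)) (c z : Eu n) {φ : ℝ → ℝ} {φ' : ℝ}
    (hz : L.starProjection (z - c) ≠ 0) (hφ : HasDerivAt φ φ' ‖L.starProjection (z - c)‖) :
    HasGradientAt (fun y => φ ‖L.starProjection (y - c)‖)
      ((φ' * ‖L.starProjection (z - c)‖⁻¹) • L.starProjection (z - c)) z :=
  Ibp_radial L c z hz hφ

end Pool.Agent.Work.MP_f7e2e5_gt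
end
end

-- merged part: Pool.Agent.Work.MP_f7e2e5_gt.Barrier
section
open MeasureTheory Set Metric Filter Topology
open scoped RealInnerProductSpace Pointwise ContDiff NNReal

noncomputable section

namespace Pool.Agent.Work.MP_f7e2e5_gt

variable {n : ℕ} {p : ℝ}

/-- The truncated radial power. -/
def Bar_psi (L : Submodule ℝ (Eu n)) (c : Eu n) (ε β : ℝ) (z : Eu n) : ℝ :=
  (max ‖L.starProjection (z - c)‖ ε) ^ β

/-- The truncated kernel. -/
def Bar_ker (L : Submodule ℝ (Eu n)) (c : Eu n) (ε : ℝ) (z : Eu n) : Eu n :=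
  ((max ‖L.starProjection (z - c)‖ ε)⁻¹ ^ Module.finrank ℝ L) • L.starProjection (z - c)

theorem Bar_lip (L : Submodule ℝ (Eu n)) (c : Eu n) {ε β : ℝ} (hε : 0 < ε) (hβ : β ≤ 1) :
    LipF (Bar_psi L c ε β) := by
  have h1 : LipschitzOnWith (|β| * ε ^ (β - 1)).toNNReal (fun s : ℝ => s ^ β) (Ici ε) := by
    refine (convex_Ici ε).lipschitzOnWith_of_nnnorm_hasDerivWithin_le
      (f' := fun s => β * s ^ (β - 1)) (fun s hs =>
        (Real.hasDerivAt_rpow_const (Or.inl (hε.trans_le hs).ne')).hasDerivWithinAt)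
      fun s hs => ?_
    rw [← NNReal.coe_le_coe, coe_nnnorm, Real.coe_toNNReal _ (by positivity), Real.norm_eq_abs,
      abs_mul, abs_of_nonneg (Real.rpow_nonneg (hε.trans_le hs).le _)]
    exact mul_le_mul_of_nonneg_left (Real.rpow_le_rpow_of_nonpos hε hs (by linarith))
      (abs_nonneg _)
  have h2 := (lipschitzWith_one_norm.comp (L.starProjection.lipschitz.comp
    (LipschitzWith.id.sub (LipschitzWith.const c)))).max_const ε
  exact ⟨_, lipschitzOnWith_univ.1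
    (h1.comp h2.lipschitzOnWith fun z _ => mem_Ici.2 (le_max_right _ _))⟩

theorem Bar_psi_of_le {L : Submodule ℝ (Eu n)} {c z : Eu n} {ε β : ℝ}
    (h : ‖L.starProjection (z - c)‖ ≤ ε) : Bar_psi L c ε β z = ε ^ β := by
  rw [Bar_psi, max_eq_right h]

theorem Bar_grad_const (a : ℝ) (z : Eu n) : gradient (fun _ : Eu n => a) z = 0 :=
  gradient_fun_const z a

theorem Bar_grad_out (L : Submodule ℝ (Eu n)) (c z : Eu n) {ε : ℝ} (β : ℝ) (hε : 0 < ε)
    (hz : ε < ‖L.starProjection (z - c)‖) : gradient (Bar_psi L c ε β) z =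
      (β * ‖L.starProjection (z - c)‖ ^ (β - 1) * ‖L.starProjection (z - c)‖⁻¹) •
        L.starProjection (z - c) := by
  have h0 : 0 < ‖L.starProjection (z - c)‖ := hε.trans hz
  have h1 := hasGradientAt_radial L c z (φ := fun s => s ^ β) (norm_pos_iff.1 h0)
    (Real.hasDerivAt_rpow_const (Or.inl h0.ne'))
  refine (h1.congr_of_eventuallyEq ?_).gradient
  have h2 : Continuous fun y : Eu n => ‖L.starProjection (y - c)‖ := by fun_prop
  filter_upwards [h2.continuousAt.eventually (lt_mem_nhds hz)] with y hy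
  rw [Bar_psi, max_eq_left hy.le]

theorem Bar_flux (hp : 1 < p) (L : Submodule ℝ (Eu n)) (c z : Eu n) {ε : ℝ} (A : ℝ) (hε : 0 < ε)
    (hz : ε < ‖L.starProjection (z - c)‖) {β : ℝ} (hβ : β = (p - Module.finrank ℝ L) / (p - 1)) :
    ‖A • gradient (Bar_psi L c ε β) z‖ ^ (p - 2) • A • gradient (Bar_psi L c ε β) z =
      (|A * β| ^ (p - 2) * (A * β)) • Bar_ker L c ε z := by
  have h0 : 0 < ‖L.starProjection (z - c)‖ := hε.trans hz
  rw [Bar_grad_out L c z β hε hz, Bar_ker, max_eq_left hz.le, smul_smul A, norm_smul, smul_smul,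
    smul_smul]
  congr 1
  generalize ‖L.starProjection (z - c)‖ = t at h0
  have h1 : ‖A * (β * t ^ (β - 1) * t⁻¹)‖ * t = |A * β| * t ^ (β - 1) := by
    rw [Real.norm_eq_abs, show A * (β * t ^ (β - 1) * t⁻¹) = A * β * (t ^ (β - 1) * t⁻¹) by ring,
      abs_mul, abs_of_pos (show 0 < t ^ (β - 1) * t⁻¹ by positivity)]
    field_simp
  have h2 : (t ^ (β - 1)) ^ (p - 2) * (t ^ (β - 1) * t⁻¹) = t⁻¹ ^ Module.finrank ℝ L := by
    rw [← Real.rpow_mul h0.le, ← Real.rpow_neg_one, ← Real.rpow_add h0, ← Real.rpow_add h0,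
      ← Real.rpow_natCast, ← Real.rpow_mul h0.le]
    congr 1
    have : p - 1 ≠ 0 := by linarith only [hp]
    rw [hβ]
    field_simp
    ring
  rw [h1, Real.mul_rpow (abs_nonneg _) (by positivity), ← h2]
  ring

theorem Bar_ker_le {L : Submodule ℝ (Eu n)} (hL : L ≠ ⊥) (c z : Eu n) {ε : ℝ} (hε : 0 < ε) :
    ‖Bar_ker L c ε z‖ ≤ ε⁻¹ ^ (Module.finrank ℝ L - 1) := by
  have hk : Module.finrank ℝ L ≠ 0 := fun e => hL (Submodule.finrank_eq_zero.1 e)
  obtain ⟨j, hj⟩ := Nat.exists_eq_succ_of_ne_zero hk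
  have h0 : 0 < max ‖L.starProjection (z - c)‖ ε := hε.trans_le (le_max_right _ _)
  rw [Bar_ker, norm_smul, hj, Nat.succ_sub_one, Real.norm_eq_abs, abs_of_pos (by positivity),
    pow_succ, mul_assoc]
  refine (mul_le_of_le_one_right (by positivity) ?_).trans
    (pow_le_pow_left₀ (by positivity) (inv_anti₀ hε (le_max_right _ _)) _)
  rw [inv_mul_le_iff₀ h0, mul_one]
  exact le_max_left _ _

theorem Bar_ker_cont (L : Submodule ℝ (Eu n)) (c : Eu n) {ε : ℝ} (hε : 0 < ε) :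
    Continuous (Bar_ker L c ε) := by
  have h2 : Continuous fun y : Eu n => L.starProjection (y - c) := by fun_prop
  exact (((h2.norm.max continuous_const).inv₀ fun y =>
    (hε.trans_le (le_max_right _ _)).ne').pow _).smul h2

theorem Bar_young (hp : 1 < p) {B : ℝ} (hB : 0 ≤ B) :
    ∃ Y : ℝ, 0 ≤ Y ∧ ∀ s : ℝ, 0 ≤ s → p * (B * s) ≤ s ^ p + Y := by
  have hq := Real.HolderConjugate.conjExponent hp
  refine ⟨p * (B ^ p.conjExponent / p.conjExponent), ?_, fun s hs => ?_⟩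
  · have := hq.symm.pos
    positivity
  · have h1 := Real.young_inequality_of_nonneg hs hB hq
    have h2 : p * (s ^ p / p) = s ^ p := by field_simp
    have h3 := mul_le_mul_of_nonneg_left h1 (show 0 ≤ p by linarith only [hp])
    rw [mul_add, h2, mul_comm s B] at h3
    exact h3

/-- Comparison with a function that is a radial power where it lies below `u`. -/
theorem Bar_rad (hp : 1 < p) {L : Submodule ℝ (Eu n)} (hL : L ≠ ⊥) (c : Eu n) {ε : ℝ}
    (hε : 0 < ε) (A : ℝ) {β : ℝ} (hβ : β = (p - Module.finrank ℝ L) / (p - 1)) :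
    ∃ C : ℝ, ∀ (α : ℝ) (u v : Eu n → ℝ) (T : Set (Eu n)), Lip0 u → LipF v → (∀ x, 0 ≤ u x) →
      (∀ x, u x ≤ 1) → (∀ x, 0 ≤ v x) → (∀ x, v x < u x → v x = A * Bar_psi L c ε β x + α) →
      MeasurableSet T → volume T ≠ ⊤ →
      (∀ᵐ x, v x < u x → ‖L.starProjection (x - c)‖ ≤ ε → x ∈ T) →
      en p (fun z => min (u z) (v z)) univ ≤ en p u univ + C * volume.real T := by
  have hp0 : 0 < p := by linarith
  have hk : Module.finrank ℝ L ≠ 0 := fun e => hL (Submodule.finrank_eq_zero.1 e)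
  have hβ1 : β ≤ 1 := by
    have : (1 : ℝ) ≤ Module.finrank ℝ L := by exact_mod_cast Nat.one_le_iff_ne_zero.2 hk
    rw [hβ, div_le_one (by linarith)]
    linarith
  have hψ := Bar_lip L c hε hβ1
  obtain ⟨κ, hκ⟩ : ∃ κ, κ = |A * β| ^ (p - 2) * (A * β) := ⟨_, rfl⟩
  obtain ⟨B, hB⟩ : ∃ B, B = ε⁻¹ ^ (Module.finrank ℝ L - 1) := ⟨_, rfl⟩
  have hB0 : 0 ≤ B := by
    rw [hB]
    positivity
  obtain ⟨Y, hY0, hY⟩ := Bar_young hp (B := |κ| * B) (by positivity)
  refine ⟨p * |κ| * ((Module.finrank ℝ L : ℝ) / ε ^ Module.finrank ℝ L) + Y,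
    fun α u v T hu hv hu0 hu1 hv0 hvu hT hTf hTm => ?_⟩
  have hd : LipF fun x => 1 * u x + (-1) * v x + 0 :=
    ((hu.lip.const_mul 1).add (hv.const_mul (-1))).add (LipF.const 0)
  have hw : LipF fun x => A * Bar_psi L c ε β x + 0 * Bar_psi L c ε β x + α :=
    ((hψ.const_mul A).add (hψ.const_mul 0)).add (LipF.const α)
  obtain ⟨η, hη⟩ : ∃ η : Eu n → ℝ, η = fun x => max 0 (1 * u x + (-1) * v x + 0) := ⟨_, rfl⟩
  have hη0 : ∀ x, u x ≤ v x → η x = 0 := fun x hx => by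
    rw [hη]
    exact max_eq_left (by linarith)
  have hηL : Lip0 η := by
    refine ⟨hη ▸ (LipF.const 0).max hd, hu.cs.mono fun x hx hx' => hx (hη0 x ?_)⟩
    rw [hx']
    exact hv0 x
  have hmin : Lip0 fun z => min (u z) (v z) := hu.min_of_nonneg hv hu0 hv0
  have hpt : ∀ᵐ x, ‖gradient (fun z => min (u z) (v z)) x‖ ^ p ≤ ‖gradient u x‖ ^ p -
      p * κ * ⟪Bar_ker L c ε x, gradient η x⟫ + T.indicator (fun _ => Y) x := by
    filter_upwards [grad_min hu.lip hv, grad_max (LipF.const 0) hd, grad_lin hu.lip hv 1 (-1) 0,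
      grad_lin hψ hψ A 0 α, grad_eq_of_eq hv hw, grad_eq_of_eq hψ (LipF.const (ε ^ β)), hTm]
      with x h1 h2 h3 h4 h5 h6 h7
    rw [← hη] at h2
    have hi : 0 ≤ T.indicator (fun _ => Y) x := indicator_nonneg (fun _ _ => hY0) x
    by_cases hx : u x ≤ v x
    · rw [h1, if_pos hx, h2, if_pos (by linarith only [hx]), Bar_grad_const, inner_zero_right]
      linarith
    have hx' : v x < u x := not_le.1 hx
    rw [h1, if_neg hx, h2, if_neg (by linarith), h3, h5 (by rw [hvu x hx']; ring), h4, zero_smul,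
      add_zero, one_smul, neg_one_smul]
    by_cases ht : ‖L.starProjection (x - c)‖ ≤ ε
    · rw [h6 (Bar_psi_of_le ht), Bar_grad_const, smul_zero, neg_zero, add_zero, norm_zero,
        Real.zero_rpow hp0.ne', indicator_of_mem (h7 hx' ht)]
      have a1 := hY _ (norm_nonneg (gradient u x))
      have a2 : κ * ⟪Bar_ker L c ε x, gradient u x⟫ ≤ |κ| * B * ‖gradient u x‖ := by
        refine (le_abs_self _).trans ?_
        rw [abs_mul, mul_assoc]
        refine mul_le_mul_of_nonneg_left ((abs_real_inner_le_norm _ _).trans ?_) (abs_nonneg _)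
        exact mul_le_mul_of_nonneg_right (hB ▸ Bar_ker_le hL c x hε) (norm_nonneg _)
      have a3 := mul_le_mul_of_nonneg_left a2 hp0.le
      linarith only [a1, a3]
    · have a1 := subgrad hp (A • gradient (Bar_psi L c ε β) x) (gradient u x)
      rw [Bar_flux hp L c x A hε (not_le.1 ht) hβ, ← hκ, real_inner_smul_left,
        ← neg_sub (gradient u x), inner_neg_right] at a1
      rw [← sub_eq_add_neg]
      linarith only [hi, a1]
  have i1 := hu.integrable_en hp0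
  have i2 : Integrable fun x => ⟪Bar_ker L c ε x, gradient η x⟫ := by
    refine ((hηL.integrable_en one_pos).const_mul B).mono'
      ((Bar_ker_cont L c hε).measurable.inner (measurable_gradient η)).aestronglyMeasurable
      (Eventually.of_forall fun x => ?_)
    rw [Real.rpow_one]
    exact (norm_inner_le_norm _ _).trans
      (mul_le_mul_of_nonneg_right (hB ▸ Bar_ker_le hL c x hε) (norm_nonneg _))
  have i3 : ∀ a : ℝ, Integrable (T.indicator fun _ => a) := fun a =>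
    (integrable_indicator_iff hT).2 (integrableOn_const hTf)
  have i4 : Integrable fun x => ‖gradient u x‖ ^ p - p * κ * ⟪Bar_ker L c ε x, gradient η x⟫ :=
    i1.sub (i2.const_mul (p * κ))
  have i5 : Integrable fun x => ‖gradient u x‖ ^ p - p * κ * ⟪Bar_ker L c ε x, gradient η x⟫ +
      T.indicator (fun _ => Y) x := i4.add (i3 Y)
  have e1 := integral_mono_ae (hmin.integrable_en hp0) i5 hpt
  have e2 : ∫ x, ⟪Bar_ker L c ε x, gradient η x⟫ = _ := ibp_kernel L hL c hε hηL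
  rw [integral_add i4 (i3 Y), integral_sub i1 (i2.const_mul (p * κ)),
    integral_const_mul, e2, integral_indicator_const _ hT, smul_eq_mul] at e1
  have hS : MeasurableSet {z : Eu n | ‖L.starProjection (z - c)‖ < ε} :=
    (isOpen_lt (by fun_prop) continuous_const).measurableSet
  have hηn : ∀ x, 0 ≤ η x := fun x => hη ▸ le_max_left _ _
  have e3 : 0 ≤ ∫ z in {z : Eu n | ‖L.starProjection (z - c)‖ < ε}, η z :=
    integral_nonneg hηn
  have e4 : ∫ z in {z : Eu n | ‖L.starProjection (z - c)‖ < ε}, η z ≤ volume.real T := by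
    rw [← integral_indicator hS, ← mul_one (volume.real T), ← smul_eq_mul,
      ← integral_indicator_const _ hT]
    refine integral_mono_of_nonneg (Eventually.of_forall (indicator_nonneg fun x _ => hηn x))
      (i3 1) ?_
    filter_upwards [hTm] with x h7
    have hi : 0 ≤ T.indicator (fun _ => (1 : ℝ)) x := indicator_nonneg (fun _ _ => zero_le_one) x
    by_cases hs : x ∈ {z : Eu n | ‖L.starProjection (z - c)‖ < ε}
    · rw [indicator_of_mem hs]
      by_cases hx : u x ≤ v x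
      · rwa [hη0 x hx]
      · rw [indicator_of_mem (h7 (not_le.1 hx) (le_of_lt hs)), hη]
        have := hu1 x
        have := hv0 x
        exact max_le zero_le_one (by linarith)
    · rwa [indicator_of_notMem hs]
  have e5 : κ * ∫ z in {z : Eu n | ‖L.starProjection (z - c)‖ < ε}, η z ≤ |κ| * volume.real T :=
    (mul_le_mul_of_nonneg_right (le_abs_self κ) e3).trans
      (mul_le_mul_of_nonneg_left e4 (abs_nonneg κ))
  have e6 := mul_le_mul_of_nonneg_left e5
    (show 0 ≤ p * ((Module.finrank ℝ L : ℝ) / ε ^ Module.finrank ℝ L) by positivity)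
  simp only [en, Measure.restrict_univ]
  linarith only [e1, e6]

theorem Bar_adm {K : Set (Eu n)} {u v : Eu n → ℝ} (hu : Adm K u) (hv : LipF v)
    (hv0 : ∀ x, 0 ≤ v x) (hK : ∀ x ∈ K, v x = 1) : Adm K fun z => min (u z) (v z) :=
  ⟨hu.lip0.min_of_nonneg hv hu.nonneg hv0, fun x => le_min (hu.nonneg x) (hv0 x),
    fun x => (min_le_left _ _).trans (hu.le_one x),
    fun x hx => by rw [hu.one x hx, hK x hx, min_self]⟩

theorem Bar_fin : (Module.finrank ℝ (⊤ : Submodule ℝ (Eu n)) : ℝ) = n := by simp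

theorem Bar_top (hp : 1 < p) (hpn : p < n) : (⊤ : Submodule ℝ (Eu n)) ≠ ⊥ := fun e => by
  have h := Bar_fin (n := n)
  rw [e, finrank_bot, Nat.cast_zero] at h
  linarith

theorem Bar_proj (z : Eu n) : (⊤ : Submodule ℝ (Eu n)).starProjection z = z := by
  rw [Submodule.starProjection_top]
  rfl

/-- Outer radial barrier. -/
theorem barrier_out (hp : 1 < p) (hpn : p < n) : ∃ R0 : ℝ, 1 ≤ R0 ∧ ∀ R : ℝ, 0 < R →
    ∃ b : Eu n → ℝ, Continuous b ∧ (∀ z, R0 * R ≤ ‖z‖ → 1 / 2 ≤ b z) ∧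
      ∀ (K : Set (Eu n)) (u : Eu n → ℝ), K ⊆ closedBall 0 R → Adm K u →
        Adm K (fun z => min (u z) (1 - b z)) ∧
          en p (fun z => min (u z) (1 - b z)) univ ≤ en p u univ := by
  obtain ⟨β, hβ⟩ : ∃ β, β = (p - Module.finrank ℝ (⊤ : Submodule ℝ (Eu n))) / (p - 1) := ⟨_, rfl⟩
  have hβ0 : β < 0 := by
    rw [hβ, Bar_fin]
    exact div_neg_of_neg_of_pos (by linarith) (by linarith)
  have h1 : (1 : ℝ) ≤ (1 / 2) ^ β⁻¹ :=
    Real.one_le_rpow_of_pos_of_le_one_of_nonpos (by norm_num) (by norm_num)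
      (inv_nonpos.2 hβ0.le)
  refine ⟨(1 / 2) ^ β⁻¹, h1, fun R hR => ?_⟩
  have hR' : 0 < R ^ β := Real.rpow_pos_of_pos hR β
  have hv : LipF fun z => (R ^ β)⁻¹ * Bar_psi (⊤ : Submodule ℝ (Eu n)) 0 R β z :=
    (Bar_lip ⊤ 0 hR (by linarith)).const_mul _
  have hv0 : ∀ z, 0 ≤ (R ^ β)⁻¹ * Bar_psi (⊤ : Submodule ℝ (Eu n)) 0 R β z := fun z =>
    mul_nonneg (inv_nonneg.2 hR'.le) (Real.rpow_nonneg (hR.le.trans (le_max_right _ _)) _)
  have hv1 : ∀ z, ‖(⊤ : Submodule ℝ (Eu n)).starProjection (z - 0)‖ ≤ R →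
      (R ^ β)⁻¹ * Bar_psi (⊤ : Submodule ℝ (Eu n)) 0 R β z = 1 := fun z hz => by
    rw [Bar_psi_of_le hz, inv_mul_cancel₀ hR'.ne']
  obtain ⟨C, hC⟩ := Bar_rad hp (Bar_top hp hpn) 0 hR (R ^ β)⁻¹ hβ
  refine ⟨fun z => 1 - (R ^ β)⁻¹ * Bar_psi (⊤ : Submodule ℝ (Eu n)) 0 R β z,
    continuous_const.sub hv.continuous, fun z hz => ?_, fun K u hK hu => ?_⟩
  · have h2 : Bar_psi (⊤ : Submodule ℝ (Eu n)) 0 R β z ≤ 1 / 2 * R ^ β := by
      rw [Bar_psi, Bar_proj, sub_zero]
      refine (Real.rpow_le_rpow_of_nonpos (by positivity) (hz.trans (le_max_left _ _))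
        hβ0.le).trans_eq ?_
      rw [Real.mul_rpow (by positivity) hR.le, Real.rpow_inv_rpow (by norm_num) hβ0.ne]
    have h3 : (R ^ β)⁻¹ * Bar_psi (⊤ : Submodule ℝ (Eu n)) 0 R β z ≤ 1 / 2 := by
      rw [inv_mul_le_iff₀ hR', mul_comm]
      exact h2
    linarith only [h3]
  · simp only [sub_sub_cancel]
    refine ⟨Bar_adm hu hv hv0 fun x hx => hv1 x ?_, ?_⟩
    · rw [Bar_proj, sub_zero]
      exact mem_closedBall_zero_iff.1 (hK hx)
    · have := hC 0 u _ ∅ hu.lip0 hv hu.nonneg hu.le_one hv0 (fun x _ => (add_zero _).symm)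
        MeasurableSet.empty (by simp) (Eventually.of_forall fun x h1 h2 => by
          rw [hv1 x h2] at h1
          exact absurd (hu.le_one x) (not_le.2 h1))
      rwa [measureReal_empty, mul_zero, add_zero] at this

/-- Cylindrical barrier around a subspace of codimension `k < p`. -/
theorem barrier_cyl (hp : 1 < p) (hpn : p < n) {R : ℝ} (hR : 0 < R) : ∃ c : ℝ, 0 < c ∧
    ∀ (L : Submodule ℝ (Eu n)) (c0 : Eu n) (ε : ℝ), L ≠ ⊥ → (Module.finrank ℝ L : ℝ) < p →
      ‖c0‖ ≤ 2 * R → 0 < ε →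
      ∃ b : Eu n → ℝ, Continuous b ∧
        (∀ z, min (c * (‖L.starProjection (z - c0)‖ ^ ((p - Module.finrank ℝ L) / (p - 1)) -
          ε ^ ((p - Module.finrank ℝ L) / (p - 1)))) (1 / 2) ≤ b z) ∧
        ∀ (K : Set (Eu n)) (u : Eu n → ℝ), K ⊆ closedBall 0 R →
          (∀ z ∈ K, ‖L.starProjection (z - c0)‖ ≤ ε) → Adm K u →
          Adm K (fun z => min (u z) (1 - b z)) ∧
            en p (fun z => min (u z) (1 - b z)) univ ≤ en p u univ := by
  obtain ⟨R0, hR0, H⟩ := barrier_out hp hpn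
  obtain ⟨b1, hb1, hb2, hb3⟩ := H R hR
  obtain ⟨S, hS⟩ : ∃ S, S = max 1 (R0 * R + 2 * R) := ⟨_, rfl⟩
  have hS1 : 1 ≤ S := hS ▸ le_max_left _ _
  have hS2 : R0 * R + 2 * R ≤ S := hS ▸ le_max_right _ _
  have hc : 0 < 1 / (2 * S) := by positivity
  refine ⟨1 / (2 * S), hc, fun L c0 ε hL hk hc0 hε => ?_⟩
  obtain ⟨β, hβ⟩ : ∃ β, β = (p - Module.finrank ℝ L) / (p - 1) := ⟨_, rfl⟩
  rw [← hβ]
  have hβ0 : 0 ≤ β := hβ ▸ div_nonneg (by linarith only [hk]) (by linarith only [hp])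
  have hβ1 : β ≤ 1 := by
    have : (1 : ℝ) ≤ Module.finrank ℝ L := by
      exact_mod_cast Nat.one_le_iff_ne_zero.2 fun e => hL (Submodule.finrank_eq_zero.1 e)
    rw [hβ, div_le_one (by linarith only [hp])]
    linarith
  have hb : LipF fun z => min (1 / (2 * S) * (Bar_psi L c0 ε β z - ε ^ β)) (1 / 2) :=
    (((Bar_lip L c0 hε hβ1).sub (LipF.const _)).const_mul _).min (LipF.const _)
  have hv := (LipF.const 1).sub hb
  have hv2 : ∀ z, 1 / 2 ≤ 1 - min (1 / (2 * S) * (Bar_psi L c0 ε β z - ε ^ β)) (1 / 2) := fun z => by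
    have := min_le_right (1 / (2 * S) * (Bar_psi L c0 ε β z - ε ^ β)) (1 / 2)
    linarith only [this]
  have hv0 : ∀ z, 0 ≤ 1 - min (1 / (2 * S) * (Bar_psi L c0 ε β z - ε ^ β)) (1 / 2) := fun z =>
    le_trans (by norm_num) (hv2 z)
  have hv1 : ∀ z, ‖L.starProjection (z - c0)‖ ≤ ε →
      1 - min (1 / (2 * S) * (Bar_psi L c0 ε β z - ε ^ β)) (1 / 2) = 1 := fun z hz => by
    rw [Bar_psi_of_le hz, sub_self, mul_zero, min_eq_left (by norm_num), sub_zero]
  obtain ⟨C, hC⟩ := Bar_rad hp hL c0 hε (-(1 / (2 * S))) hβ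
  refine ⟨fun z => max (b1 z) (min (1 / (2 * S) * (Bar_psi L c0 ε β z - ε ^ β)) (1 / 2)),
    hb1.max hb.continuous, fun z => le_max_of_le_right (min_le_min_right _ ?_),
    fun K u hK hK' hu => ?_⟩
  · exact mul_le_mul_of_nonneg_left (sub_le_sub_right
      (Real.rpow_le_rpow (norm_nonneg _) (le_max_left _ _) hβ0) _) hc.le
  · obtain ⟨a1, a2⟩ := hb3 K u hK hu
    simp only [← min_sub_sub_left, ← min_assoc]
    refine ⟨Bar_adm a1 hv hv0 fun x hx => hv1 x (hK' x hx), le_trans ?_ a2⟩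
    have := hC (1 + 1 / (2 * S) * ε ^ β) _ _ ∅ a1.lip0 hv a1.nonneg a1.le_one hv0
      (fun x hx => ?_) MeasurableSet.empty (by simp) (Eventually.of_forall fun x h1 h2 => by
        rw [hv1 x h2] at h1
        exact absurd (a1.le_one x) (not_le.2 h1))
    · rwa [measureReal_empty, mul_zero, add_zero] at this
    have c1 : ‖x‖ < R0 * R := by
      by_contra h
      have d1 := hb2 x (not_lt.1 h)
      have d2 := hv2 x
      have d3 := min_le_right (u x) (1 - b1 x)
      linarith only [hx, d1, d2, d3]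
    have c2 : ‖L.starProjection (x - c0)‖ ≤ S := by
      have d1 := L.norm_starProjection_apply_le (x - c0)
      have d2 := norm_sub_le x c0
      linarith only [hS2, hc0, c1, d1, d2]
    have c3 : Bar_psi L c0 ε β x - ε ^ β ≤ S := by
      by_cases ht : ‖L.starProjection (x - c0)‖ ≤ ε
      · rw [Bar_psi_of_le ht]
        linarith only [hS1]
      · rw [Bar_psi, max_eq_left (not_le.1 ht).le]
        have d1 := Real.rpow_le_rpow (norm_nonneg _) c2 hβ0
        have d2 := Real.rpow_le_self_of_one_le hS1 hβ1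
        have d3 := Real.rpow_nonneg hε.le β
        linarith only [d1, d2, d3]
    have c4 : 1 / (2 * S) * (Bar_psi L c0 ε β x - ε ^ β) ≤ 1 / 2 := by
      refine (mul_le_mul_of_nonneg_left c3 hc.le).trans_eq ?_
      field_simp
    rw [min_eq_left c4]
    ring

theorem Bar_tan {β s : ℝ} (hβ : β ≤ 0) (hs : 0 < s) :
    -β * 4 ^ (β - 1) * (4 - s) ≤ s ^ β - 4 ^ β := by
  have h4 : (0 : ℝ) < 4 ^ β := by positivity
  have h1 : s ^ β = 4 ^ β * (s / 4) ^ β := by
    rw [Real.div_rpow hs.le (by norm_num), mul_div_cancel₀ _ h4.ne']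
  have h2 : 1 + β * (s / 4 - 1) ≤ (s / 4) ^ β := by
    rw [Real.rpow_def_of_pos (by positivity)]
    have a1 := Real.add_one_le_exp (Real.log (s / 4) * β)
    have a2 := Real.log_le_sub_one_of_pos (show 0 < s / 4 by positivity)
    linarith only [a1, hβ, a2, mul_nonneg_of_nonpos_of_nonpos (Mathlib.Tactic.Linarith.sub_nonpos_of_le hβ) (Mathlib.Tactic.Linarith.sub_nonpos_of_le a2)]
  have h3 := mul_le_mul_of_nonneg_left h2 h4.le
  rw [h1, Real.rpow_sub_one (by norm_num)]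
  linarith only [h3]

/-- Annular barrier. -/
theorem barrier_ann (hp : 1 < p) (hpn : p < n) : ∃ γ : ℝ, 0 < γ ∧ γ ≤ 1 / 4 ∧
    ∀ (c : Eu n) (r m : ℝ), 0 < r → 0 ≤ m → m ≤ 1 →
      ∃ (b : Eu n → ℝ) (C : ℝ), Continuous b ∧ (∀ z, dist z c ≤ r → m ≤ b z) ∧
        (∀ z, m * γ * (4 - dist z c / r) ≤ b z) ∧
        ∀ (K : Set (Eu n)) (u : Eu n → ℝ), Disjoint K (ball c (4 * r)) → Adm K u →
          Adm K (fun z => min (u z) (1 - b z)) ∧
            en p (fun z => min (u z) (1 - b z)) univ ≤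
              en p u univ + C * volume.real {z | z ∈ ball c r ∧ 1 - u z < m} := by
  obtain ⟨β, hβ⟩ : ∃ β, β = (p - Module.finrank ℝ (⊤ : Submodule ℝ (Eu n))) / (p - 1) := ⟨_, rfl⟩
  have hβ0 : β < 0 := by
    rw [hβ, Bar_fin]
    exact div_neg_of_neg_of_pos (by linarith) (by linarith)
  have h4 : (0 : ℝ) < 4 ^ β := by positivity
  have hD : (0 : ℝ) < 1 - 4 ^ β := sub_pos.2 (Real.rpow_lt_one_of_one_lt_of_neg (by norm_num) hβ0)
  have hγ : 0 < min (1 / 4) (-β * 4 ^ (β - 1)) :=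
    lt_min (by norm_num) (mul_pos (neg_pos.2 hβ0) (by positivity))
  refine ⟨min (1 / 4) (-β * 4 ^ (β - 1)), hγ, min_le_left _ _, fun c r m hr hm0 hm1 => ?_⟩
  have hr' : 0 < r ^ β := Real.rpow_pos_of_pos hr β
  obtain ⟨s, hs⟩ : ∃ s : Eu n → ℝ,
      s = fun z => (r ^ β)⁻¹ * Bar_psi (⊤ : Submodule ℝ (Eu n)) c r β z := ⟨_, rfl⟩
  have hsL : LipF s := hs ▸ (Bar_lip ⊤ c hr (by linarith only [hβ0, h4, hD])).const_mul _
  have hs1 : ∀ z, s z = (max (dist z c) r / r) ^ β := fun z => by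
    rw [hs, Real.div_rpow (hr.le.trans (le_max_right _ _)) hr.le, div_eq_inv_mul, dist_eq_norm]
    simp only [Bar_psi, Bar_proj]
  obtain ⟨b, hb⟩ : ∃ b : Eu n → ℝ, b = fun z => m / (1 - 4 ^ β) * max 0 (s z - 4 ^ β) := ⟨_, rfl⟩
  have hbL : LipF b := hb ▸ ((LipF.const 0).max (hsL.sub (LipF.const _))).const_mul _
  have hmD : m ≤ m / (1 - 4 ^ β) := by
    rw [le_div_iff₀ hD]
    linarith only [h4, hm0, mul_nonneg_of_nonpos_of_nonpos (le_of_lt (Mathlib.Tactic.Linarith.sub_neg_of_lt h4)) (Mathlib.Tactic.Linarith.sub_nonpos_of_le hm0)]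
  have hb0 : ∀ z, 0 ≤ b z := fun z => hb ▸ mul_nonneg (hm0.trans hmD) (le_max_left _ _)
  have hb1 : ∀ z, dist z c ≤ r → b z = m := fun z hz => by
    simp only [hb, hs1, max_eq_right hz, div_self hr.ne', Real.one_rpow, max_eq_right hD.le,
      div_mul_cancel₀ _ hD.ne']
  have hb2 : ∀ z, 0 ≤ 1 - b z := fun z => by
    have a1 : s z ≤ 1 := by
      rw [hs1]
      exact Real.rpow_le_one_of_one_le_of_nonpos ((one_le_div hr).2 (le_max_right _ _)) hβ0.le
    have a2 : max 0 (s z - 4 ^ β) ≤ 1 - 4 ^ β := max_le hD.le (by linarith only [a1])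
    have a3 := mul_le_mul_of_nonneg_left a2 (hm0.trans hmD)
    rw [div_mul_cancel₀ _ hD.ne'] at a3
    simp only [hb]
    linarith only [hm1, a3]
  have hv := (LipF.const 1).sub hbL
  obtain ⟨C, hC⟩ := Bar_rad hp (Bar_top hp hpn) c hr (-(m / (1 - 4 ^ β) * (r ^ β)⁻¹)) hβ
  refine ⟨b, C, hbL.continuous, fun z hz => (hb1 z hz).ge, fun z => ?_, fun K u hK hu => ⟨?_, ?_⟩⟩
  · have a0 : 0 ≤ dist z c / r := by positivity
    by_cases h1 : dist z c ≤ r
    · rw [hb1 z h1, mul_assoc]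
      refine mul_le_of_le_one_right hm0 ?_
      have := min_le_left (1 / 4 : ℝ) (-β * 4 ^ (β - 1))
      (refine le_of_not_gt fun h_nl => ?_; linarith only [h_nl, this, h4, hD, hγ, a0, mul_pos_of_neg_of_neg (Mathlib.Tactic.Linarith.sub_neg_of_lt h4) (Mathlib.Tactic.Linarith.sub_neg_of_lt h_nl), mul_pos_of_neg_of_neg (Mathlib.Tactic.Linarith.sub_neg_of_lt hD) (Mathlib.Tactic.Linarith.sub_neg_of_lt h_nl), mul_nonneg_of_nonpos_of_nonpos (le_of_lt (Mathlib.Tactic.Linarith.sub_neg_of_lt hγ)) (Mathlib.Tactic.Linarith.sub_nonpos_of_le a0)])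
    by_cases h2 : 4 - dist z c / r ≤ 0
    · exact (mul_nonpos_of_nonneg_of_nonpos (mul_nonneg hm0 hγ.le) h2).trans (hb0 z)
    have a1 := Bar_tan hβ0.le (div_pos (hr.trans (not_le.1 h1)) hr)
    have a2 := mul_le_mul_of_nonneg_right (min_le_right (1 / 4 : ℝ) (-β * 4 ^ (β - 1)))
      (not_le.1 h2).le
    simp only [hb, hs1, max_eq_left (not_le.1 h1).le]
    rw [mul_assoc]
    exact mul_le_mul hmD ((a2.trans a1).trans (le_max_right _ _))
      (mul_nonneg hγ.le (not_le.1 h2).le) (hm0.trans hmD)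
  · refine Bar_adm hu hv hb2 fun x hx => ?_
    have a1 : 4 * r ≤ dist x c := not_lt.1 fun h => disjoint_left.1 hK hx h
    have a2 : s x ≤ 4 ^ β := by
      rw [hs1]
      exact Real.rpow_le_rpow_of_nonpos (by norm_num)
        ((le_div_iff₀ hr).2 (a1.trans (le_max_left _ _))) hβ0.le
    simp only [hb, max_eq_left (sub_nonpos.2 a2), mul_zero, sub_zero]
  · refine hC (1 + m / (1 - 4 ^ β) * 4 ^ β) u _ _ hu.lip0 hv hu.nonneg hu.le_one hb2
      (fun x hx => ?_) ?_ ?_ ?_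
    · have a1 : 0 ≤ s x - 4 ^ β := by
        by_contra h
        have := hu.le_one x
        simp only [hb, max_eq_left (not_le.1 h).le, mul_zero, sub_zero] at hx
        linarith only [this, hx]
      simp only [hb, max_eq_right a1]
      rw [hs]
      ring
    · exact (isOpen_ball.inter (isOpen_lt (continuous_const.sub hu.lip0.lip.continuous)
        continuous_const)).measurableSet
    · exact ((measure_mono fun z hz => hz.1).trans_lt measure_ball_lt_top).ne
    · filter_upwards [measure_eq_zero_iff_ae_notMem.1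
        (Measure.addHaar_sphere_of_ne_zero volume c hr.ne')] with x h1 h2 h3
      rw [Bar_proj, ← dist_eq_norm] at h3
      rw [hb1 x h3] at h2
      exact ⟨lt_of_le_of_ne h3 h1, by linarith only [h2]⟩

end Pool.Agent.Work.MP_f7e2e5_gt
end
end
end

-- merged part: Pool.Agent.Work.MP_f7e2e5_gt.Path
section
-- merged part: Pool.Agent.Work.MP_f7e2e5_gt.Path
section
open MeasureTheory Set Metric Filter Topology
open scoped RealInnerProductSpace Pointwise ContDiff NNReal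

noncomputable section

namespace Pool.Agent.Work.MP_f7e2e5_gt

variable {n : ℕ} {p : ℝ}

theorem Path_cov (T : Eu n →L[ℝ] Eu n) (hT : T.det ≠ 0) (b : Eu n) {H : Eu n → ENNReal}
    (hH : Measurable H) :
    ∫⁻ z, H (T z + b) = ENNReal.ofReal |T.det⁻¹| * ∫⁻ x, H x := by
  have h1 : Measure.map (T : Eu n →ₗ[ℝ] Eu n) volume =
      ENNReal.ofReal |(LinearMap.det (T : Eu n →ₗ[ℝ] Eu n))⁻¹| • (volume : Measure (Eu n)) :=
    Measure.map_linearMap_addHaar_eq_smul_addHaar volume hT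
  have hH' : Measurable fun y => H (y + b) := hH.comp (measurable_id.add_const b)
  have h2 : ∫⁻ z, H (T z + b) = ∫⁻ y, H (y + b) ∂(Measure.map (T : Eu n →ₗ[ℝ] Eu n) volume) := by
    exact (lintegral_map hH' T.continuous.measurable).symm
  rw [h2, h1, lintegral_smul_measure, lintegral_add_right_eq_self (fun y => H y) b]
  rfl

theorem Path_seg (A0 A1 : Eu n →L[ℝ] Eu n) (b0 b1 : Eu n) (s : ℝ) (z : Eu n) :
    (1 - s) • (A0 z + b0) + s • (A1 z + b1) =
      ((1 - s) • A0 + s • A1) z + ((1 - s) • b0 + s • b1) := by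
  simp only [add_apply, smul_apply, smul_add]
  abel

theorem Path_line {f : Eu n → ℝ} (hf : LipF f) (a c : Eu n)
    (hd : ∀ᵐ s ∂(volume.restrict (Ioo (0 : ℝ) 1)), DifferentiableAt ℝ f ((1 - s) • a + s • c)) :
    ENNReal.ofReal |f c - f a| ≤
      ∫⁻ s in Ioo (0 : ℝ) 1, ENNReal.ofReal |⟪gradient f ((1 - s) • a + s • c), c - a⟫| := by
  obtain ⟨C, hC⟩ := hf
  have hg : ∀ s : ℝ, HasDerivAt (fun s : ℝ => (1 - s) • a + s • c) (c - a) s := by
    intro s
    have h1 := (((hasDerivAt_id s).const_sub 1).smul_const a).add ((hasDerivAt_id s).smul_const c)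
    refine h1.congr_deriv ?_
    rw [neg_smul, one_smul, one_smul]
    abel
  have hl : LipschitzWith ‖c - a‖₊ (fun s : ℝ => (1 - s) • a + s • c) := by
    apply lipschitzWith_of_nnnorm_deriv_le (fun s => (hg s).differentiableAt)
    intro s
    rw [(hg s).deriv]
  have hh := (hC.comp hl).lipschitzOnWith (s := uIcc (0 : ℝ) 1)
  have h1 := hh.absolutelyContinuousOnInterval.integral_deriv_eq_sub
  have h2 : f c - f a = ∫ s in Ioo (0 : ℝ) 1, deriv (f ∘ fun s : ℝ => (1 - s) • a + s • c) s := by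
    rw [← integral_Ioc_eq_integral_Ioo, ← intervalIntegral.integral_of_le zero_le_one, h1]
    simp
  rw [h2, ← Real.enorm_eq_ofReal_abs]
  refine (enorm_integral_le_lintegral_enorm _).trans (le_of_eq ?_)
  refine lintegral_congr_ae ?_
  filter_upwards [hd] with s hs
  rw [(hs.hasFDerivAt.comp_hasDerivAt s (hg s)).deriv, inner_gradient_left,
    Real.enorm_eq_ofReal_abs]

theorem Path_holder (hp : 1 < p) {μ : Measure ℝ} {φ w : ℝ → ENNReal} (hφ : AEMeasurable φ μ)
    (hw : AEMeasurable w μ) (hw0 : ∀ᵐ s ∂μ, w s ≠ 0 ∧ w s ≠ ⊤) :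
    (∫⁻ s, φ s ∂μ) ^ p ≤ (∫⁻ s, w s ∂μ) ^ (p - 1) * ∫⁻ s, φ s ^ p * w s ^ (1 - p) ∂μ := by
  have hp0 : 0 < p := by linarith
  have hp1 : 0 < p - 1 := by linarith
  have hpq : p.HolderConjugate (p / (p - 1)) := Real.HolderConjugate.conjExponent hp
  have h := ENNReal.lintegral_mul_le_Lp_mul_Lq μ hpq
    (f := fun s => φ s * w s ^ ((1 - p) / p)) (g := fun s => w s ^ ((p - 1) / p))
    (hφ.mul (hw.pow_const _)) (hw.pow_const _)
  have e1 : ∫⁻ s, φ s ∂μ = ∫⁻ s, ((fun s => φ s * w s ^ ((1 - p) / p)) *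
      fun s => w s ^ ((p - 1) / p)) s ∂μ := by
    refine lintegral_congr_ae ?_
    filter_upwards [hw0] with s hs
    simp only [Pi.mul_apply]
    rw [mul_assoc, ← ENNReal.rpow_add _ _ hs.1 hs.2]
    have : (1 - p) / p + (p - 1) / p = 0 := by ring
    rw [this, ENNReal.rpow_zero, mul_one]
  have e2 : ∫⁻ s, (φ s * w s ^ ((1 - p) / p)) ^ p ∂μ = ∫⁻ s, φ s ^ p * w s ^ (1 - p) ∂μ := by
    refine lintegral_congr fun s => ?_
    rw [ENNReal.mul_rpow_of_nonneg _ _ hp0.le, ← ENNReal.rpow_mul, div_mul_cancel₀ _ hp0.ne']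
  have e3 : ∫⁻ s, (w s ^ ((p - 1) / p)) ^ (p / (p - 1)) ∂μ = ∫⁻ s, w s ∂μ := by
    refine lintegral_congr fun s => ?_
    rw [← ENNReal.rpow_mul]
    have : (p - 1) / p * (p / (p - 1)) = 1 := by field_simp
    rw [this, ENNReal.rpow_one]
  rw [← e1, e2, e3] at h
  refine (ENNReal.rpow_le_rpow h hp0.le).trans (le_of_eq ?_)
  rw [ENNReal.mul_rpow_of_nonneg _ _ hp0.le, ← ENNReal.rpow_mul, ← ENNReal.rpow_mul, mul_comm]
  have a1 : 1 / p * p = 1 := by field_simp
  have a2 : 1 / (p / (p - 1)) * p = p - 1 := by field_simp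
  rw [a1, a2, ENNReal.rpow_one]

theorem Path_core (hp : 1 < p) {f : Eu n → ℝ} (hf : LipF f) (A0 A1 : Eu n →L[ℝ] Eu n)
    (b0 b1 : Eu n) {Q Ω : Set (Eu n)} (hQ : MeasurableSet Q)
    (hΩ : MeasurableSet Ω) {wt : ℝ → ℝ} (hw : AEMeasurable wt (volume.restrict (Ioo 0 1)))
    (hw0 : ∀ s ∈ Ioo (0 : ℝ) 1, 0 < wt s)
    (hdet : ∀ s ∈ Ioo (0 : ℝ) 1, 1 ≤ wt s ^ p * |((1 - s) • A0 + s • A1).det|)
    (hmap : ∀ s ∈ Ioo (0 : ℝ) 1, ∀ z ∈ Q, (1 - s) • (A0 z + b0) + s • (A1 z + b1) ∈ Ω)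
    {F : Eu n → ENNReal} (hF : Measurable F)
    (hFle : ∀ z ∈ Q, ∀ x,
      ENNReal.ofReal |⟪gradient f x, (A1 z + b1) - (A0 z + b0)⟫| ≤ F x) :
    ∫⁻ z in Q, ENNReal.ofReal |f (A1 z + b1) - f (A0 z + b0)| ^ p ≤
      (∫⁻ s in Ioo (0 : ℝ) 1, ENNReal.ofReal (wt s)) ^ p * ∫⁻ x in Ω, F x ^ p := by
  have hp0 : 0 < p := by linarith
  set g : Eu n → ℝ → Eu n := fun z s => (1 - s) • (A0 z + b0) + s • (A1 z + b1) with hg
  have hgc : Continuous fun x : Eu n × ℝ => g x.1 x.2 := by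
    simp only [hg]
    fun_prop
  have hdet0 : ∀ s ∈ Ioo (0 : ℝ) 1, ((1 - s) • A0 + s • A1).det ≠ 0 := by
    intro s hs h0
    have := hdet s hs
    rw [h0, abs_zero, mul_zero] at this
    linarith
  have hN : MeasurableSet {x | DifferentiableAt ℝ f x} := measurableSet_of_differentiableAt ℝ f
  have hae : ∀ᵐ z : Eu n, ∀ᵐ s ∂(volume.restrict (Ioo (0 : ℝ) 1)),
      DifferentiableAt ℝ f (g z s) := by
    rw [Measure.ae_ae_comm (p := fun z s => DifferentiableAt ℝ f (g z s))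
      (hgc.measurable hN)]
    filter_upwards [ae_restrict_mem measurableSet_Ioo] with s hs
    have h1 := Path_cov _ (hdet0 s hs) ((1 - s) • b0 + s • b1)
      (H := {x | DifferentiableAt ℝ f x}ᶜ.indicator 1) (measurable_one.indicator hN.compl)
    have h0 : (volume : Measure (Eu n)) {x | DifferentiableAt ℝ f x}ᶜ = 0 := hf.ae_diff
    rw [lintegral_indicator_one hN.compl, h0, mul_zero, lintegral_eq_zero_iff] at h1
    · filter_upwards [h1] with z hz
      by_contra hc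
      rw [← Path_seg, indicator_of_mem (by exact hc)] at hz
      simp at hz
    · exact (measurable_one.indicator hN.compl).comp (by fun_prop)
  set W := ∫⁻ s in Ioo (0 : ℝ) 1, ENNReal.ofReal (wt s) with hW
  have hwm : AEMeasurable (fun s => ENNReal.ofReal (wt s)) (volume.restrict (Ioo (0 : ℝ) 1)) :=
    hw.ennreal_ofReal
  have hwne : ∀ᵐ s ∂(volume.restrict (Ioo (0 : ℝ) 1)),
      ENNReal.ofReal (wt s) ≠ 0 ∧ ENNReal.ofReal (wt s) ≠ ⊤ := by
    filter_upwards [ae_restrict_mem measurableSet_Ioo] with s hs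
    exact ⟨(ENNReal.ofReal_pos.2 (hw0 s hs)).ne', ENNReal.ofReal_ne_top⟩
  have hFg : Measurable fun x : Eu n × ℝ => F (g x.1 x.2) := hF.comp hgc.measurable
  have h1 : ∫⁻ z in Q, ENNReal.ofReal |f (A1 z + b1) - f (A0 z + b0)| ^ p ≤
      ∫⁻ z in Q, W ^ (p - 1) *
        ∫⁻ s in Ioo (0 : ℝ) 1, F (g z s) ^ p * ENNReal.ofReal (wt s) ^ (1 - p) := by
    refine lintegral_mono_ae ?_
    filter_upwards [ae_restrict_of_ae hae, ae_restrict_mem hQ] with z hz hzQ
    have h2 := (Path_line hf _ _ hz).trans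
      (lintegral_mono fun s => hFle z hzQ ((1 - s) • (A0 z + b0) + s • (A1 z + b1)))
    refine (ENNReal.rpow_le_rpow h2 hp0.le).trans ?_
    exact Path_holder hp (hFg.comp measurable_prodMk_left).aemeasurable hwm hwne
  have hm : AEMeasurable (Function.uncurry fun (z : Eu n) (s : ℝ) =>
      F (g z s) ^ p * ENNReal.ofReal (wt s) ^ (1 - p))
      ((volume.restrict Q).prod (volume.restrict (Ioo (0 : ℝ) 1))) :=
    (hFg.pow_const p).aemeasurable.mul (hwm.pow_const (1 - p)).comp_snd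
  have h3 : ∫⁻ z in Q, ∫⁻ s in Ioo (0 : ℝ) 1, F (g z s) ^ p * ENNReal.ofReal (wt s) ^ (1 - p) ≤
      W * ∫⁻ x in Ω, F x ^ p := by
    rw [lintegral_lintegral_swap hm, hW, ← lintegral_mul_const'' _ hwm]
    refine lintegral_mono_ae ?_
    filter_upwards [ae_restrict_mem measurableSet_Ioo, hwne] with s hs hs'
    have hFs : Measurable fun z => F (g z s) ^ p :=
      (hFg.comp measurable_prodMk_right).pow_const p
    rw [lintegral_mul_const _ hFs]
    have h4 : ∫⁻ z in Q, F (g z s) ^ p ≤ ENNReal.ofReal (wt s) ^ p * ∫⁻ x in Ω, F x ^ p := by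
      have h5 := Path_cov _ (hdet0 s hs) ((1 - s) • b0 + s • b1)
        (H := Ω.indicator fun x => F x ^ p) ((hF.pow_const p).indicator hΩ)
      rw [lintegral_indicator hΩ] at h5
      calc ∫⁻ z in Q, F (g z s) ^ p = ∫⁻ z, Q.indicator (fun z => F (g z s) ^ p) z :=
            (lintegral_indicator hQ _).symm
        _ ≤ ∫⁻ z, Ω.indicator (fun x => F x ^ p)
              (((1 - s) • A0 + s • A1) z + ((1 - s) • b0 + s • b1)) := by
            refine lintegral_mono fun z => ?_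
            by_cases hz : z ∈ Q
            · rw [indicator_of_mem hz, ← Path_seg, indicator_of_mem (hmap s hs z hz)]
            · rw [indicator_of_notMem hz]
              exact zero_le
        _ ≤ _ := by
            rw [h5]
            refine mul_le_mul_left ?_ _
            rw [ENNReal.ofReal_rpow_of_pos (hw0 s hs)]
            refine ENNReal.ofReal_le_ofReal ?_
            rw [abs_inv, inv_le_iff_one_le_mul₀ (abs_pos.2 (hdet0 s hs))]
            exact hdet s hs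
    calc _ ≤ (ENNReal.ofReal (wt s) ^ p * ∫⁻ x in Ω, F x ^ p) * ENNReal.ofReal (wt s) ^ (1 - p) :=
          mul_le_mul_left h4 _
      _ = _ := by
          rw [mul_right_comm, ← ENNReal.rpow_add _ _ hs'.1 hs'.2]
          simp
  refine h1.trans ?_
  rw [lintegral_const_mul'' _ hm.lintegral_prod_right]
  refine (mul_le_mul_right h3 _).trans (le_of_eq ?_)
  rw [← mul_assoc]
  congr 1
  conv_rhs => rw [show p = (p - 1) + 1 by ring]
  rw [ENNReal.rpow_add_of_nonneg _ _ (by linarith) zero_le_one, ENNReal.rpow_one]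

theorem Path_real (hp : 1 < p) {Q : Set (Eu n)} {D : Eu n → ℝ} (hD : Continuous D) {c : ℝ}
    (hc : 0 ≤ c) (h : ∫⁻ z in Q, ENNReal.ofReal |D z| ^ p ≤ ENNReal.ofReal c) :
    ∫ z in Q, |D z| ^ p ≤ c := by
  have hp0 : 0 < p := by linarith
  rw [integral_eq_lintegral_of_nonneg_ae (Eventually.of_forall fun z => by positivity)
    (hD.abs.rpow_const fun _ => Or.inr hp0.le).aestronglyMeasurable]
  refine ENNReal.toReal_le_of_le_ofReal hc (le_of_eq_of_le ?_ h)
  refine lintegral_congr fun z => ?_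
  rw [ENNReal.ofReal_rpow_of_nonneg (abs_nonneg _) hp0.le]

/-- Path lemma along the segments from `A0 z + b0` to `A1 z + b1`. -/
theorem path_le (hp : 1 < p) {f : Eu n → ℝ} (hf : Lip0 f) (A0 A1 : Eu n →L[ℝ] Eu n)
    (b0 b1 : Eu n) {Q Ω : Set (Eu n)} (hQ : MeasurableSet Q) (hQb : Bornology.IsBounded Q)
    (hΩ : MeasurableSet Ω) {M : ℝ} (hM0 : 0 ≤ M) {wt : ℝ → ℝ} (hw : IntegrableOn wt (Ioo 0 1))
    (hw0 : ∀ s ∈ Ioo (0 : ℝ) 1, 0 < wt s)
    (hdet : ∀ s ∈ Ioo (0 : ℝ) 1, 1 ≤ wt s ^ p * |((1 - s) • A0 + s • A1).det|)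
    (hM : ∀ z ∈ Q, ‖(A1 z + b1) - (A0 z + b0)‖ ≤ M)
    (hmap : ∀ s ∈ Ioo (0 : ℝ) 1, ∀ z ∈ Q, (1 - s) • (A0 z + b0) + s • (A1 z + b1) ∈ Ω) :
    ∫ z in Q, |f (A1 z + b1) - f (A0 z + b0)| ^ p ≤
      (M * ∫ s in Ioo (0 : ℝ) 1, wt s) ^ p * en p f Ω := by
  have hp0 : 0 < p := by linarith
  have hI : 0 ≤ ∫ s in Ioo (0 : ℝ) 1, wt s :=
    setIntegral_nonneg measurableSet_Ioo fun s hs => (hw0 s hs).le
  have hE := en_nonneg p f Ω
  have hc := hf.lip.continuous
  have h := Path_core hp hf.lip A0 A1 b0 b1 hQ hΩ hw.aemeasurable hw0 hdet hmap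
    (F := fun x => ENNReal.ofReal (M * ‖gradient f x‖))
    ((measurable_gradient f).norm.const_mul M).ennreal_ofReal (by
      intro z hz x
      refine ENNReal.ofReal_le_ofReal ((abs_real_inner_le_norm _ _).trans ?_)
      rw [mul_comm]
      exact mul_le_mul_of_nonneg_right (hM z hz) (norm_nonneg _))
  refine Path_real hp (by fun_prop) (by positivity) (h.trans (le_of_eq ?_))
  have e1 : ∫⁻ s in Ioo (0 : ℝ) 1, ENNReal.ofReal (wt s) =
      ENNReal.ofReal (∫ s in Ioo (0 : ℝ) 1, wt s) := by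
    refine (ofReal_integral_eq_lintegral_ofReal hw ?_).symm
    filter_upwards [ae_restrict_mem measurableSet_Ioo] with s hs using (hw0 s hs).le
  have e2 : ∫⁻ x in Ω, ENNReal.ofReal (M * ‖gradient f x‖) ^ p =
      ENNReal.ofReal (M ^ p * en p f Ω) := by
    rw [en, ← integral_const_mul, ofReal_integral_eq_lintegral_ofReal
      ((hf.integrable_en hp0).const_mul _).integrableOn
      (Eventually.of_forall fun x => by positivity)]
    refine lintegral_congr fun x => ?_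
    rw [ENNReal.ofReal_rpow_of_nonneg (by positivity) hp0.le,
      Real.mul_rpow hM0 (norm_nonneg _)]
  rw [e1, e2, ENNReal.ofReal_rpow_of_nonneg hI hp0.le, ← ENNReal.ofReal_mul (by positivity),
    Real.mul_rpow hM0 hI]
  congr 1
  ring

/-- Level form of the path lemma. -/
theorem path_lower (hp : 1 < p) {f : Eu n → ℝ} (hf : Lip0 f) (A0 A1 : Eu n →L[ℝ] Eu n)
    (b0 b1 : Eu n) {Q Ω : Set (Eu n)} (hQ : MeasurableSet Q) (hQb : Bornology.IsBounded Q)
    (hΩ : MeasurableSet Ω) {M κ : ℝ} (hM0 : 0 ≤ M) {wt : ℝ → ℝ} (hw : IntegrableOn wt (Ioo 0 1))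
    (hw0 : ∀ s ∈ Ioo (0 : ℝ) 1, 0 < wt s)
    (hdet : ∀ s ∈ Ioo (0 : ℝ) 1, 1 ≤ wt s ^ p * |((1 - s) • A0 + s • A1).det|)
    (hM : ∀ z ∈ Q, ‖(A1 z + b1) - (A0 z + b0)‖ ≤ M)
    (hmap : ∀ s ∈ Ioo (0 : ℝ) 1, ∀ z ∈ Q, (1 - s) • (A0 z + b0) + s • (A1 z + b1) ∈ Ω)
    (hκ : 0 ≤ κ) (hlow : ∀ z ∈ Q, κ ≤ |f (A1 z + b1) - f (A0 z + b0)|) :
    κ ^ p * volume.real Q ≤ (M * ∫ s in Ioo (0 : ℝ) 1, wt s) ^ p * en p f Ω := by
  have hp0 : 0 < p := by linarith
  refine le_trans ?_ (path_le hp hf A0 A1 b0 b1 hQ hQb hΩ hM0 hw hw0 hdet hM hmap)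
  have hc := hf.lip.continuous
  have hD : Continuous fun z => |f (A1 z + b1) - f (A0 z + b0)| ^ p :=
    Continuous.rpow_const (by fun_prop) fun _ => Or.inr hp0.le
  have hi : IntegrableOn (fun z => |f (A1 z + b1) - f (A0 z + b0)| ^ p) Q :=
    (hD.continuousOn.integrableOn_compact hQb.isCompact_closure).mono_set subset_closure
  rw [mul_comm, ← smul_eq_mul, ← setIntegral_const]
  refine setIntegral_mono_on (integrableOn_const hQb.measure_lt_top.ne) hi hQ fun z hz => ?_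
  exact Real.rpow_le_rpow hκ (hlow z hz) hp0.le

/-- Directional version for translations. -/
theorem path_translate (hp : 1 < p) {f : Eu n → ℝ} (hf : Lip0 f) (v : Eu n)
    {Q Ω : Set (Eu n)} (hQ : MeasurableSet Q) (hQb : Bornology.IsBounded Q)
    (hΩ : MeasurableSet Ω) (hmap : ∀ s ∈ Ioo (0 : ℝ) 1, ∀ z ∈ Q, z + s • v ∈ Ω) :
    ∫ z in Q, |f (z + v) - f z| ^ p ≤ ∫ x in Ω, |⟪gradient f x, v⟫| ^ p := by
  have hp0 : 0 < p := by linarith
  have hc := hf.lip.continuous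
  have hm : Measurable fun x => |⟪gradient f x, v⟫| :=
    continuous_abs.measurable.comp ((measurable_gradient f).inner measurable_const)
  have h := Path_core hp hf.lip (ContinuousLinearMap.id ℝ _) (ContinuousLinearMap.id ℝ _) 0 v hQ hΩ
    (wt := fun _ => 1) aemeasurable_const (fun _ _ => one_pos) (by
      intro s _
      have e : (1 - s) • ContinuousLinearMap.id ℝ (Eu n) + s • ContinuousLinearMap.id ℝ (Eu n) =
          ContinuousLinearMap.id ℝ (Eu n) := by
        ext1 x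
        simp [sub_smul]
      have : (ContinuousLinearMap.id ℝ (Eu n)).det = 1 := LinearMap.det_id
      rw [e, this, abs_one, Real.one_rpow, one_mul]) (by
      intro s hs z hz
      convert hmap s hs z hz using 1
      simp only [ContinuousLinearMap.id_apply, add_zero, smul_add, sub_smul, one_smul]
      abel)
    (F := fun x => ENNReal.ofReal |⟪gradient f x, v⟫|) hm.ennreal_ofReal (by
      intro z _ x
      simp)
  simp only [ContinuousLinearMap.id_apply, add_zero] at h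
  refine Path_real hp (by fun_prop) (integral_nonneg fun x => by positivity)
    (h.trans (le_of_eq ?_))
  have hi : Integrable fun x => |⟪gradient f x, v⟫| ^ p := by
    refine ((hf.integrable_en hp0).mul_const (‖v‖ ^ p)).mono'
      (hm.pow_const p).aestronglyMeasurable (Eventually.of_forall fun x => ?_)
    rw [Real.norm_of_nonneg (by positivity), ← Real.mul_rpow (norm_nonneg _) (norm_nonneg _)]
    exact Real.rpow_le_rpow (abs_nonneg _) (abs_real_inner_le_norm _ _) hp0.le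
  rw [ofReal_integral_eq_lintegral_ofReal hi.integrableOn
    (Eventually.of_forall fun x => by positivity)]
  simp only [ENNReal.ofReal_one, lintegral_const, one_mul, Measure.restrict_apply_univ,
    Real.volume_Ioo, sub_zero, ENNReal.one_rpow]
  refine lintegral_congr fun x => ?_
  rw [ENNReal.ofReal_rpow_of_nonneg (abs_nonneg _) hp0.le]

/-- The determinant of `a P + b (1 - P)` for the orthogonal projection `P` onto `L`. -/
theorem det_proj (L : Submodule ℝ (Eu n)) (a b : ℝ) :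
    (a • L.starProjection + b • Lᗮ.starProjection).det =
      a ^ Module.finrank ℝ L * b ^ (n - Module.finrank ℝ L) := by
  have hc : IsCompl L Lᗮ := L.isCompl_orthogonal
  set e := Submodule.prodEquivOfIsCompl L Lᗮ hc with he
  have h1 : ((a • L.starProjection + b • Lᗮ.starProjection : Eu n →L[ℝ] Eu n) :
      Eu n →ₗ[ℝ] Eu n) = (e : (L × Lᗮ) →ₗ[ℝ] Eu n) ∘ₗ
        ((a • (LinearMap.id : L →ₗ[ℝ] L)).prodMap (b • (LinearMap.id : Lᗮ →ₗ[ℝ] Lᗮ))) ∘ₗ
        (e.symm : Eu n →ₗ[ℝ] (L × Lᗮ)) := by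
    refine LinearMap.ext fun x => ?_
    obtain ⟨⟨u, w⟩, rfl⟩ := e.surjective x
    have hu : L.starProjection (u : Eu n) = u := Submodule.starProjection_eq_self_iff.2 u.2
    have hw' : L.starProjection (w : Eu n) = 0 :=
      (Submodule.starProjection_apply_eq_zero_iff L).2 w.2
    simp [he, hu, hw']
  have h2 : Module.finrank ℝ Lᗮ = n - Module.finrank ℝ L := by
    have := L.finrank_add_finrank_orthogonal
    rw [finrank_euclideanSpace_fin] at this
    omega
  rw [ContinuousLinearMap.det, h1, LinearMap.det_conj, LinearMap.det_prodMap, LinearMap.det_smul,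
    LinearMap.det_smul, LinearMap.det_id, LinearMap.det_id, mul_one, mul_one, h2]

/-- The weight `s ^ (-k/p)` is integrable on `(0,1)` for `k < p`. -/
theorem integrableOn_weight (hp : 1 < p) {k : ℝ} (hk : k < p) :
    IntegrableOn (fun s : ℝ => s ^ (-k / p)) (Ioo 0 1) := by
  have hp0 : 0 < p := by linarith
  rw [intervalIntegral.integrableOn_Ioo_rpow_iff zero_lt_one, lt_div_iff₀ hp0]
  linarith

end Pool.Agent.Work.MP_f7e2e5_gt
end
end

-- merged part: Pool.Agent.Work.MP_f7e2e5_gt.Box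
section
open MeasureTheory Set Metric Filter Topology
open scoped RealInnerProductSpace Pointwise ContDiff NNReal

noncomputable section

namespace Pool.Agent.Work.MP_f7e2e5_gt

variable {n : ℕ} {p : ℝ}

theorem Box_le_cap {K : Set (Eu n)} (hK : Bornology.IsBounded K) {c : ℝ}
    (h : ∀ u, Adm K u → c ≤ en p u univ) : c ≤ cap p K := by
  obtain ⟨u, hu⟩ := exists_adm hK
  refine le_csInf ⟨_, ⟨u, hu, rfl⟩⟩ ?_
  rintro _ ⟨v, hv, rfl⟩
  exact h v hv

theorem Box_trunc (hp : 1 < p) (hpn : p < n) : ∃ R0 : ℝ, 1 ≤ R0 ∧ ∀ R : ℝ, 0 < R →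
    ∀ (K : Set (Eu n)) (u : Eu n → ℝ), K ⊆ closedBall 0 R → Adm K u →
      ∃ v, Adm K v ∧ en p v univ ≤ en p u univ ∧ ∀ z, R0 * R ≤ ‖z‖ → v z ≤ 1 / 2 := by
  obtain ⟨R0, hR0, h⟩ := barrier_out hp hpn
  refine ⟨R0, hR0, fun R hR K u hK hu => ?_⟩
  obtain ⟨b, -, hb, hb'⟩ := h R hR
  obtain ⟨h1, h2⟩ := hb' K u hK hu
  refine ⟨_, h1, h2, fun z hz => ?_⟩
  have := hb z hz
  exact (min_le_right _ _).trans (by linarith only [this])

theorem Box_norm {x : Eu n} {M : ℝ} (hM : 0 ≤ M) (h : ∀ i, |x i| ≤ M) :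
    ‖x‖ ≤ √(n : ℝ) * M := by
  rw [EuclideanSpace.norm_eq]
  have h1 : ∑ i, ‖x i‖ ^ 2 ≤ (n : ℝ) * M ^ 2 := by
    calc ∑ i, ‖x i‖ ^ 2 ≤ ∑ _i : Fin n, M ^ 2 := by
          refine Finset.sum_le_sum fun i _ => ?_
          rw [Real.norm_eq_abs]
          exact pow_le_pow_left₀ (abs_nonneg _) (h i) 2
      _ = (n : ℝ) * M ^ 2 := by simp
  calc √(∑ i, ‖x i‖ ^ 2) ≤ √((n : ℝ) * M ^ 2) := Real.sqrt_le_sqrt h1
    _ = √(n : ℝ) * M := by
      rw [Real.sqrt_mul (Nat.cast_nonneg n), Real.sqrt_sq hM]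

/-- Diagonal maps. -/
def Box_dg (d : Fin n → ℝ) : Eu n →L[ℝ] Eu n :=
  Matrix.toEuclideanCLM (n := Fin n) (𝕜 := ℝ) (Matrix.diagonal d)

theorem Box_dg_apply (d : Fin n → ℝ) (z : Eu n) (i : Fin n) : Box_dg d z i = d i * z i := by
  have : (Box_dg d z).ofLp = Matrix.mulVec (Matrix.diagonal d) z.ofLp :=
    Matrix.ofLp_toEuclideanCLM _ _
  rw [this, Matrix.mulVec_diagonal]

theorem Box_dg_det (d : Fin n → ℝ) : (Box_dg d).det = ∏ i, d i := by
  rw [← Matrix.det_diagonal, ← LinearMap.det_toLpLin 2]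
  rfl

theorem Box_dg_comb (d e : Fin n → ℝ) (s : ℝ) :
    (1 - s) • Box_dg d + s • Box_dg e = Box_dg (fun i => (1 - s) * d i + s * e i) := by
  ext z i
  simp [Box_dg_apply]
  ring

theorem Box_dg_one (z : Eu n) : Box_dg (fun _ => 1) z = z := by
  ext i
  simp [Box_dg_apply]

theorem Box_path (hp : 1 < p) {f : Eu n → ℝ} (hf : Lip0 f) (d e : Fin n → ℝ) {Q : Set (Eu n)}
    (hQ : MeasurableSet Q) (hQb : Bornology.IsBounded Q) {M κ : ℝ} (hM0 : 0 ≤ M) {wt : ℝ → ℝ}
    (hw : IntegrableOn wt (Ioo 0 1)) (hw0 : ∀ s ∈ Ioo (0 : ℝ) 1, 0 < wt s)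
    (hdet : ∀ s ∈ Ioo (0 : ℝ) 1, 1 ≤ wt s ^ p * |∏ i, ((1 - s) * d i + s * e i)|)
    (hM : ∀ z ∈ Q, ∀ i, |(e i - d i) * z i| ≤ M) (hκ : 0 ≤ κ)
    (hlow : ∀ z ∈ Q, κ ≤ |f (Box_dg e z) - f (Box_dg d z)|) :
    κ ^ p * volume.real Q ≤
      (√(n : ℝ) * M * ∫ s in Ioo (0 : ℝ) 1, wt s) ^ p * en p f univ := by
  refine path_lower hp hf (Box_dg d) (Box_dg e) 0 0 hQ hQb MeasurableSet.univ
    (by positivity) hw hw0 ?_ ?_ (fun _ _ _ _ => mem_univ _) hκ ?_
  · intro s hs
    rw [Box_dg_comb, Box_dg_det]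
    exact hdet s hs
  · intro z hz
    refine Box_norm hM0 fun i => ?_
    have := hM z hz i
    simpa [Box_dg_apply, sub_mul] using this
  · intro z hz
    simpa using hlow z hz

/-- The test box. -/
def Box_Q (b : Fin n → ℝ) : Set (Eu n) := {z | ∀ i, b i / 2 ≤ z i ∧ z i ≤ b i}

theorem Box_Q_eq (b : Fin n → ℝ) :
    Box_Q b = (WithLp.ofLp : Eu n → Fin n → ℝ) ⁻¹' Icc (fun i => b i / 2) b := by
  ext z
  simp only [Box_Q, mem_ofPred_eq, mem_preimage, mem_Icc, Pi.le_def, forall_and]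

theorem Box_Q_meas (b : Fin n → ℝ) : MeasurableSet (Box_Q b) := by
  rw [Box_Q_eq]
  exact (PiLp.volume_preserving_ofLp (Fin n)).measurable measurableSet_Icc

theorem Box_Q_vol {b : Fin n → ℝ} (hb : ∀ i, 0 < b i) :
    volume.real (Box_Q b) = (1 / 2) ^ n * ∏ i, b i := by
  rw [Box_Q_eq, measureReal_def,
    (PiLp.volume_preserving_ofLp (Fin n)).measure_preimage measurableSet_Icc.nullMeasurableSet,
    Real.volume_Icc_pi_toReal (fun i => by have := hb i; linarith only [this])]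
  have : ∀ i, b i - b i / 2 = (1 / 2) * b i := fun i => by ring
  simp only [this, Finset.prod_mul_distrib, Finset.prod_const, Finset.card_univ, Fintype.card_fin]

theorem Box_prod_lt (i0 : Fin n) (s : ℝ) :
    ∏ i : Fin n, (if i < i0 then s else 1) = s ^ (i0 : ℕ) := by
  rw [Finset.prod_ite, Finset.prod_const_one, mul_one, Finset.prod_const]
  congr 1
  rw [← Fin.card_Iio i0]
  congr 1
  ext i
  simp

theorem Box_prod_le (i0 : Fin n) (s : ℝ) :
    ∏ i : Fin n, (if i ≤ i0 then s else 1) = s ^ ((i0 : ℕ) + 1) := by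
  rw [Finset.prod_ite, Finset.prod_const_one, mul_one, Finset.prod_const]
  congr 1
  rw [← Fin.card_Iic i0]
  congr 1
  ext i
  simp

theorem Box_prod_b (i0 : Fin n) (a : Fin n → ℝ) :
    ∏ i : Fin n, (if i0 < i then a i else a i0) =
      a i0 ^ ((i0 : ℕ) + 1) * ∏ i ∈ Finset.univ.filter (fun i => i0 < i), a i := by
  rw [Finset.prod_ite, Finset.prod_const, mul_comm]
  congr 2
  rw [← Fin.card_Iic i0]
  congr 1
  ext i
  simp

theorem Box_int_log {Λ : ℝ} (hΛ : 1 < Λ) :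
    IntegrableOn (fun s : ℝ => (1 + (Λ - 1) * s)⁻¹) (Ioo 0 1) ∧
      (Λ - 1) * ∫ s in Ioo (0 : ℝ) 1, (1 + (Λ - 1) * s)⁻¹ = Real.log Λ := by
  constructor
  · refine (ContinuousOn.integrableOn_Icc (a := 0) (b := 1) ?_).mono_set Ioo_subset_Icc_self
    refine ContinuousOn.inv₀ (by fun_prop) fun s hs => ?_
    have : 0 ≤ (Λ - 1) * s := mul_nonneg (by linarith) hs.1
    linarith
  · rw [← integral_Ioc_eq_integral_Ioo, ← intervalIntegral.integral_of_le zero_le_one,
      intervalIntegral.mul_integral_comp_add_mul (f := fun x : ℝ => x⁻¹),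
      integral_inv_of_pos (by simp) (by linarith)]
    simp

/-- First path: kill the coordinates below `i0`. -/
theorem Box_path1 (hp : 1 < p) (i0 : Fin n) (h1 : ((i0 : ℕ) : ℝ) < p) {f : Eu n → ℝ}
    (hf : Lip0 f) {Q : Set (Eu n)} (hQ : MeasurableSet Q) (hQb : Bornology.IsBounded Q) {α : ℝ}
    (hα : 0 ≤ α) (hM : ∀ z ∈ Q, ∀ i, i < i0 → |z i| ≤ α)
    (hlow : ∀ z ∈ Q, f z ≤ 3 / 4 ∧ f (Box_dg (fun i => if i < i0 then 0 else 1) z) = 1) :
    (1 / 4 : ℝ) ^ p * volume.real Q ≤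
      (√(n : ℝ) * α * ∫ s in Ioo (0 : ℝ) 1, s ^ (-((i0 : ℕ) : ℝ) / p)) ^ p * en p f univ := by
  refine Box_path hp hf (fun i => if i < i0 then 0 else 1) (fun _ => 1) hQ hQb hα
    (integrableOn_weight hp h1) (fun s hs => Real.rpow_pos_of_pos hs.1 _) ?_ ?_ (by norm_num) ?_
  · intro s hs
    have e : ∀ i : Fin n, (1 - s) * (if i < i0 then (0 : ℝ) else 1) + s * 1 =
        if i < i0 then s else 1 := fun i => by split_ifs <;> ring
    simp only [e]
    rw [Box_prod_lt, abs_of_pos (pow_pos hs.1 _), ← Real.rpow_mul hs.1.le,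
      div_mul_cancel₀ _ (by linarith : p ≠ 0), ← Real.rpow_natCast, ← Real.rpow_add hs.1]
    simp
  · intro z hz i
    by_cases hi : i < i0
    · simpa [hi] using hM z hz i hi
    · simpa [hi] using hα
  · intro z hz
    obtain ⟨h3, h4⟩ := hlow z hz
    rw [Box_dg_one, h4, abs_sub_comm]
    exact le_trans (by linarith only [h3]) (le_abs_self _)

/-- Second path: stretch the coordinates up to `i0`. -/
theorem Box_path2 (hp : 1 < p) (i0 : Fin n) (h2 : p ≤ ((i0 : ℕ) : ℝ) + 1) {f : Eu n → ℝ}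
    (hf : Lip0 f) {Q : Set (Eu n)} (hQ : MeasurableSet Q) (hQb : Bornology.IsBounded Q) {α Λ : ℝ}
    (hα : 0 ≤ α) (hΛ : 1 < Λ) (hM : ∀ z ∈ Q, ∀ i, i ≤ i0 → |z i| ≤ α)
    (hlow : ∀ z ∈ Q, 3 / 4 < f z ∧ f (Box_dg (fun i => if i ≤ i0 then Λ else 1) z) ≤ 1 / 2) :
    (1 / 4 : ℝ) ^ p * volume.real Q ≤ (√(n : ℝ) * α * Real.log Λ) ^ p * en p f univ := by
  obtain ⟨hi1, hi2⟩ := Box_int_log hΛ
  have hpos : ∀ s ∈ Ioo (0 : ℝ) 1, 1 ≤ 1 + (Λ - 1) * s := fun s hs => by
    have : 0 ≤ (Λ - 1) * s := mul_nonneg (by linarith only [hΛ]) hs.1.le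
    linarith
  have key := Box_path hp hf (fun _ => 1) (fun i => if i ≤ i0 then Λ else 1) hQ hQb
    (M := α * (Λ - 1)) (κ := 1 / 4) (mul_nonneg hα (by linarith)) hi1
    (fun s hs => inv_pos.2 (by linarith [hpos s hs])) ?_ ?_ (by norm_num) ?_
  · rw [← hi2]
    convert key using 3
    ring
  · intro s hs
    have e : ∀ i : Fin n, (1 - s) * 1 + s * (if i ≤ i0 then Λ else 1) =
        if i ≤ i0 then 1 + (Λ - 1) * s else 1 := fun i => by split_ifs <;> ring
    simp only [e]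
    have h0 : 0 < 1 + (Λ - 1) * s := by linarith [hpos s hs]
    rw [Box_prod_le, abs_of_pos (pow_pos h0 _), Real.inv_rpow h0.le, ← Real.rpow_natCast,
      ← Real.rpow_neg h0.le, ← Real.rpow_add h0]
    refine Real.one_le_rpow (hpos s hs) ?_
    push_cast
    linarith
  · intro z hz i
    by_cases hi : i ≤ i0
    · simp only [hi, if_true]
      rw [abs_mul, abs_of_pos (by linarith only [hΛ] : 0 < Λ - 1), mul_comm]
      exact mul_le_mul_of_nonneg_right (hM z hz i hi) (by linarith only [hΛ])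
    · simp only [hi, if_false, sub_self, zero_mul, abs_zero]
      exact mul_nonneg hα (by linarith)
  · intro z hz
    obtain ⟨h3, h4⟩ := hlow z hz
    rw [Box_dg_one, abs_sub_comm]
    exact le_trans (by linarith only [h3, h4]) (le_abs_self _)

/-- Lower bound for the capacity of a (degenerate) box; `m = i0 + 1` satisfies `m - 1 < p ≤ m`. -/
theorem cap_box (hp : 1 < p) (hpn : p < n) (i0 il : Fin n) (h1 : ((i0 : ℕ) : ℝ) < p)
    (h2 : p ≤ ((i0 : ℕ) : ℝ) + 1) (hl : (il : ℕ) + 1 = n) : ∃ c : ℝ, 0 < c ∧ ∀ a : Fin n → ℝ,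
      (∀ i, 0 < a i) → Monotone a →
      c * (a i0 ^ (((i0 : ℕ) : ℝ) + 1 - p) * ∏ i ∈ Finset.univ.filter (fun i => i0 < i), a i) /
          (1 + Real.log (a il / a i0)) ^ p ≤
        cap p {x : Eu n | ∀ i, (i < i0 → x i = 0) ∧ |x i| ≤ a i} := by
  obtain ⟨R0, hR0, htr⟩ := Box_trunc hp hpn
  have hp0 : 0 < p := by linarith only [hp]
  have hn1 : (1 : ℝ) ≤ n := by linarith only [hp, hpn]
  have hsq : (1 : ℝ) ≤ √(n : ℝ) := Real.one_le_sqrt.2 hn1
  set I1 : ℝ := ∫ s in Ioo (0 : ℝ) 1, s ^ (-((i0 : ℕ) : ℝ) / p) with hI1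
  have hI10 : 0 ≤ I1 :=
    setIntegral_nonneg measurableSet_Ioo fun s hs => (Real.rpow_pos_of_pos hs.1 _).le
  have hlog0 : 0 ≤ Real.log (2 * R0 * √(n : ℝ)) := Real.log_nonneg (by linarith only [hR0, hsq, mul_nonneg_of_nonpos_of_nonpos (Mathlib.Tactic.Linarith.sub_nonpos_of_le hR0) (Mathlib.Tactic.Linarith.sub_nonpos_of_le hsq)])
  set C : ℝ := 1 + Real.log (2 * R0 * √(n : ℝ)) + I1 with hC
  have hC1 : 1 ≤ C := by linarith only [hI10, hlog0]
  refine ⟨(1 / 4 : ℝ) ^ p * (1 / 2) ^ n / (2 * (√(n : ℝ) * C) ^ p), by positivity, ?_⟩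
  intro a ha hmono
  set K : Set (Eu n) := {x : Eu n | ∀ i, (i < i0 → x i = 0) ∧ |x i| ≤ a i} with hK
  have hil : ∀ i : Fin n, i ≤ il := fun i => by
    have := i.2
    exact Fin.le_def.2 (by omega)
  set α := a i0 with hα
  set β := a il with hβ
  have hα0 : 0 < α := ha i0
  have hβ0 : 0 < β := ha il
  have hαβ : α ≤ β := hmono (hil i0)
  set R := √(n : ℝ) * β with hR
  have hR0' : 0 < R := by positivity
  have hKR : K ⊆ closedBall 0 R := fun x hx => by
    rw [mem_closedBall_zero_iff]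
    exact Box_norm hβ0.le fun i => (hx i).2.trans (hmono (hil i))
  set L := Real.log (β / α) with hL
  have hL0 : 0 ≤ L := Real.log_nonneg ((one_le_div hα0).2 hαβ)
  set P := ∏ i ∈ Finset.univ.filter (fun i => i0 < i), a i with hP
  have hP0 : 0 < P := Finset.prod_pos fun i _ => ha i
  refine Box_le_cap (isBounded_closedBall.subset hKR) fun u hu => ?_
  obtain ⟨v, hv, hvu, hvh⟩ := htr R hR0' K u hKR hu
  refine le_trans ?_ hvu
  set b : Fin n → ℝ := fun i => if i0 < i then a i else α with hb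
  have hb0 : ∀ i, 0 < b i := fun i => by
    simp only [hb]
    split_ifs
    exacts [ha i, hα0]
  have hbβ : ∀ i, b i ≤ β := fun i => by
    simp only [hb]
    split_ifs
    exacts [hmono (hil i), hαβ]
  have habs : ∀ z ∈ Box_Q b, ∀ i, |z i| ≤ b i := fun z hz i => by
    have h3 := hz i
    have h4 := hb0 i
    exact abs_le.2 ⟨by linarith only [h3, h4, h3.1], h3.2⟩
  have hQb : Bornology.IsBounded (Box_Q b) :=
    (isBounded_closedBall (x := (0 : Eu n)) (r := R)).subset fun z hz => by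
      rw [mem_closedBall_zero_iff]
      exact Box_norm hβ0.le fun i => (habs z hz i).trans (hbβ i)
  have hlow : ∀ z ∈ Box_Q b, ∀ i, i ≤ i0 → |z i| ≤ α := fun z hz i hi => by
    have := habs z hz i
    simpa [hb, not_lt.2 hi] using this
  have hvc : Continuous v := hv.lip0.lip.continuous
  set Λ := 2 * R0 * R / α with hΛ
  have hΛeq : Λ = 2 * R0 * √(n : ℝ) * (β / α) := by
    rw [hΛ, hR]
    ring
  have hΛ1 : 1 < Λ := by
    have h5 : 1 ≤ β / α := (one_le_div hα0).2 hαβ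
    have h6 : 2 ≤ 2 * R0 * √(n : ℝ) := by linarith only [hR0, hsq, mul_nonneg_of_nonpos_of_nonpos (Mathlib.Tactic.Linarith.sub_nonpos_of_le hR0) (Mathlib.Tactic.Linarith.sub_nonpos_of_le hsq)]
    rw [hΛeq]
    linarith only [h5, h6, mul_nonneg_of_nonpos_of_nonpos (Mathlib.Tactic.Linarith.sub_nonpos_of_le h5) (Mathlib.Tactic.Linarith.sub_nonpos_of_le h6)]
  have hlogΛ : Real.log Λ ≤ C * (1 + L) := by
    rw [hΛeq, Real.log_mul (by positivity) (by positivity), ← hL]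
    linarith only [hI10, hL0, hlog0, mul_nonneg_of_nonpos_of_nonpos (Mathlib.Tactic.Linarith.sub_nonpos_of_le hI10) (Mathlib.Tactic.Linarith.sub_nonpos_of_le hL0), mul_nonneg_of_nonpos_of_nonpos (Mathlib.Tactic.Linarith.sub_nonpos_of_le hlog0) (Mathlib.Tactic.Linarith.sub_nonpos_of_le hL0)]
  have hlogΛ0 : 0 ≤ Real.log Λ := Real.log_nonneg hΛ1.le
  have hI1C : I1 ≤ C * (1 + L) := by linarith only [hlog0, hL0, hI10, mul_nonneg_of_nonpos_of_nonpos (Mathlib.Tactic.Linarith.sub_nonpos_of_le hI10) (Mathlib.Tactic.Linarith.sub_nonpos_of_le hL0), mul_nonneg_of_nonpos_of_nonpos (Mathlib.Tactic.Linarith.sub_nonpos_of_le hlog0) (Mathlib.Tactic.Linarith.sub_nonpos_of_le hL0)]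
  have hE : 0 ≤ en p v univ := en_nonneg _ _ _
  have e1 := Box_path1 hp i0 h1 hv.lip0 (Q := Box_Q b ∩ {z | v z ≤ 3 / 4})
    ((Box_Q_meas b).inter (isClosed_le hvc continuous_const).measurableSet)
    (hQb.subset inter_subset_left) hα0.le (fun z hz i hi => hlow z hz.1 i hi.le)
    (fun z hz => ⟨hz.2, hv.one _ fun i => by
      rw [Box_dg_apply]
      by_cases hi : i < i0
      · simp [hi, (ha i).le]
      · simp only [hi, if_false, one_mul, false_imp_iff, true_and]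
        have h7 := habs z hz.1 i
        rcases (not_lt.1 hi).eq_or_lt with h8 | h8
        · subst h8
          simpa [hb] using h7
        · simpa [hb, h8] using h7⟩)
  have e2 := Box_path2 hp i0 h2 hv.lip0 (Q := Box_Q b ∩ {z | 3 / 4 < v z})
    ((Box_Q_meas b).inter (isOpen_lt continuous_const hvc).measurableSet)
    (hQb.subset inter_subset_left) hα0.le hΛ1 (fun z hz i hi => hlow z hz.1 i hi)
    (fun z hz => ⟨hz.2, hvh _ (by
      refine le_trans ?_ (PiLp.norm_apply_le _ i0)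
      rw [Box_dg_apply, if_pos le_rfl, Real.norm_eq_abs]
      refine le_trans ?_ (le_abs_self _)
      have h9 : α / 2 ≤ z i0 := by simpa [hb] using (hz.1 i0).1
      calc R0 * R = Λ * (α / 2) := by
            rw [hΛ]
            field_simp
        _ ≤ Λ * z i0 := mul_le_mul_of_nonneg_left h9 (by linarith only [hΛ1]))⟩)
  have hvol : volume.real (Box_Q b) ≤ volume.real (Box_Q b ∩ {z | v z ≤ 3 / 4}) +
      volume.real (Box_Q b ∩ {z | 3 / 4 < v z}) := by
    refine le_trans (le_of_eq ?_) (measureReal_union_le _ _)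
    congr 1
    ext z
    simp only [mem_union, mem_inter_iff, mem_ofPred_eq]
    rcases le_or_gt (v z) (3 / 4) with h | h
    · simp [h]
    · simp [h]
  rw [Box_Q_vol hb0, Box_prod_b i0 a] at hvol
  have hB : 0 ≤ √(n : ℝ) * α := by positivity
  have f1 : (√(n : ℝ) * α * I1) ^ p ≤ (√(n : ℝ) * α * (C * (1 + L))) ^ p :=
    Real.rpow_le_rpow (by positivity) (mul_le_mul_of_nonneg_left hI1C hB) hp0.le
  have f2 : (√(n : ℝ) * α * Real.log Λ) ^ p ≤ (√(n : ℝ) * α * (C * (1 + L))) ^ p :=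
    Real.rpow_le_rpow (by positivity) (mul_le_mul_of_nonneg_left hlogΛ hB) hp0.le
  have f3 : (√(n : ℝ) * α * (C * (1 + L))) ^ p = (√(n : ℝ) * C) ^ p * α ^ p * (1 + L) ^ p := by
    rw [← Real.mul_rpow (by positivity) hα0.le, ← Real.mul_rpow (by positivity) (by positivity)]
    congr 1
    ring
  have hq : (0 : ℝ) < (1 / 4 : ℝ) ^ p := by positivity
  have main : (1 / 4 : ℝ) ^ p * ((1 / 2) ^ n * (α ^ ((i0 : ℕ) + 1) * P)) ≤
      2 * ((√(n : ℝ) * C) ^ p * α ^ p * (1 + L) ^ p) * en p v univ := by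
    have g1 := mul_le_mul_of_nonneg_right f1 hE
    have g2 := mul_le_mul_of_nonneg_right f2 hE
    have g3 := mul_le_mul_of_nonneg_left hvol hq.le
    rw [← f3]
    linarith only [e1, e2, g1, g2, g3]
  have f4 : α ^ (((i0 : ℕ) : ℝ) + 1 - p) = α ^ ((i0 : ℕ) + 1) / α ^ p := by
    rw [Real.rpow_sub hα0, ← Real.rpow_natCast]
    push_cast
    rfl
  have hαp : 0 < α ^ p := Real.rpow_pos_of_pos hα0 _
  have hLp : 0 < (1 + L) ^ p := by positivity
  have hCp : 0 < (√(n : ℝ) * C) ^ p := by positivity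
  rw [f4]
  calc (1 / 4 : ℝ) ^ p * (1 / 2) ^ n / (2 * (√(n : ℝ) * C) ^ p) *
        (α ^ ((i0 : ℕ) + 1) / α ^ p * P) / (1 + L) ^ p
      = (1 / 4 : ℝ) ^ p * ((1 / 2) ^ n * (α ^ ((i0 : ℕ) + 1) * P)) /
          (2 * ((√(n : ℝ) * C) ^ p * α ^ p * (1 + L) ^ p)) := by
        field_simp
    _ ≤ en p v univ := by
        rw [div_le_iff₀ (by positivity)]
        linarith only [main]

theorem cap_pos (hp : 1 < p) (hpn : p < n) {K : Set (Eu n)} (hb : Bornology.IsBounded K)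
    (hK : (interior K).Nonempty) : 0 < cap p K := by
  have hp0 : 0 < p := by linarith
  have hc1 : 1 ≤ ⌈p⌉₊ := Nat.one_le_iff_ne_zero.2 (Nat.ceil_pos.2 hp0).ne'
  have hcn : ⌈p⌉₊ ≤ n := Nat.ceil_le.2 hpn.le
  have hcast : ((⌈p⌉₊ - 1 : ℕ) : ℝ) = (⌈p⌉₊ : ℝ) - 1 := by
    rw [Nat.cast_sub hc1, Nat.cast_one]
  obtain ⟨c, hc, h⟩ := cap_box hp hpn ⟨⌈p⌉₊ - 1, by omega⟩ ⟨n - 1, by omega⟩
    (by
      have := Nat.ceil_lt_add_one hp0.le
      simp only [hcast]
      linarith only [this])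
    (by
      have := Nat.le_ceil p
      simp only [hcast]
      linarith)
    (by simp only; omega)
  obtain ⟨x, hx⟩ := hK
  obtain ⟨ε, hε, hball⟩ := Metric.mem_nhds_iff.1 (mem_interior_iff_mem_nhds.1 hx)
  have hn1 : (1 : ℝ) ≤ n := by linarith only [hp, hpn]
  have hsq : (0 : ℝ) < √(n : ℝ) := Real.sqrt_pos.2 (by linarith)
  have hδ : 0 < ε / (2 * √(n : ℝ)) := by positivity
  have h1 := h (fun _ => ε / (2 * √(n : ℝ))) (fun _ => hδ) monotone_const
  refine lt_of_lt_of_le ?_ (h1.trans ?_)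
  · rw [div_self hδ.ne', Real.log_one, add_zero, Real.one_rpow, div_one]
    exact mul_pos hc (mul_pos (Real.rpow_pos_of_pos hδ _) (Finset.prod_pos fun _ _ => hδ))
  · rw [← cap_translate hp0 _ x]
    refine cap_mono ?_ hb
    rintro _ ⟨y, hy, rfl⟩
    refine hball ?_
    rw [mem_ball, dist_eq_norm, add_sub_cancel_left]
    calc ‖y‖ ≤ √(n : ℝ) * (ε / (2 * √(n : ℝ))) := Box_norm hδ.le fun i => (hy i).2
      _ = ε / 2 := by field_simp
      _ < ε := by linarith only [hε]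

/-- Segments of length at least one in the plane. -/
theorem cap_segment (hp : 1 < p) (hp2 : p < 2) : ∃ c : ℝ, 0 < c ∧ ∀ A B : Eu 2, 1 ≤ dist A B →
    c ≤ cap p (segment ℝ A B) := by
  have hp0 : 0 < p := by linarith
  obtain ⟨c, hc, h⟩ := cap_box (n := 2) hp (by exact_mod_cast hp2) 1 1 (by simpa using hp)
    (by norm_num; linarith) (by simp)
  have h1 := h (fun _ => 1 / 2) (fun _ => by norm_num) monotone_const
  refine ⟨_, ?_, fun A B hAB => h1.trans ?_⟩
  · rw [div_self (by norm_num), Real.log_one, add_zero, Real.one_rpow, div_one]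
    exact mul_pos hc (mul_pos (by positivity) (Finset.prod_pos fun _ _ => by norm_num))
  · set d := dist A B with hd
    have hd0 : 0 < d := by linarith only [hp, hp2, hAB]
    have hdn : ‖B - A‖ = d := by rw [hd, dist_comm, dist_eq_norm]
    set e : Eu 2 := EuclideanSpace.single 1 1 with he
    set w : Eu 2 := d⁻¹ • (B - A) with hw
    have hew : ‖e‖ = ‖w‖ := by
      rw [hw, norm_smul, hdn, he, norm_inv, Real.norm_eq_abs, abs_of_pos hd0,
        inv_mul_cancel₀ hd0.ne']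
      simp
    set O : Eu 2 ≃ₗᵢ[ℝ] Eu 2 := Submodule.reflection (ℝ ∙ (e - w))ᗮ with hO
    have hOe : O e = w := Submodule.reflection_sub hew
    have hs := cap_sim hp0
      {x : Eu 2 | ∀ i, (i < 1 → x i = 0) ∧ |x i| ≤ 1 / 2} (A + (1 / 2 : ℝ) • (B - A)) one_pos O
    rw [Real.one_rpow, one_mul] at hs
    rw [← hs]
    refine cap_mono ?_ ?_
    · rintro _ ⟨y, hy, rfl⟩
      have hy0 : y 0 = 0 := (hy 0).1 (by decide)
      have hy1 := abs_le.1 (hy 1).2
      have hye : y = y 1 • e := by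
        ext i
        fin_cases i
        · simp [he, hy0]
        · simp [he]
      rw [segment_eq_image']
      have hb1 : |y 1 / d| ≤ 1 / 2 := by
        rw [abs_div, abs_of_pos hd0, div_le_iff₀ hd0]
        have := (hy 1).2
        linarith only [hAB, this]
      refine ⟨1 / 2 + y 1 / d, ⟨by linarith only [hb1, (abs_le.1 hb1).1], by linarith only [hb1, (abs_le.1 hb1).2]⟩, ?_⟩
      have hOy : O y = (y 1 / d) • (B - A) := by
        conv_lhs => rw [hye]
        rw [map_smul, hOe, hw, smul_smul, div_eq_mul_inv]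
      simp only [sim, hOy, one_smul, add_smul, add_assoc]
    · rw [segment_eq_image']
      exact (isCompact_Icc.image (by fun_prop)).isBounded

/-- Directional energy of near minimisers is bounded below. -/
theorem dir_energy (hp : 1 < p) (hpn : p < n) {K : Set (Eu n)} (hK : IsBody K) {v : Eu n}
    (hv : ‖v‖ = 1) : ∃ (c : ℝ) (u : ℕ → Eu n → ℝ), 0 < c ∧ MinSeq p K u ∧
      ∀ j, c ≤ ∫ x, |⟪gradient (u j) x, v⟫| ^ p := by
  have hp0 : 0 < p := by linarith
  obtain ⟨R0, hR0, htr⟩ := Box_trunc hp hpn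
  obtain ⟨hKc, -, x, hx⟩ := hK
  obtain ⟨R, hR, hKR⟩ := hKc.isBounded.subset_closedBall_lt 0 (0 : Eu n)
  obtain ⟨u, hu⟩ := exists_minSeq (p := p) hKc.isBounded
  choose w hw hwu hwh using fun j => htr R hR K (u j) hKR (hu.1 j)
  obtain ⟨ε, hε, hball⟩ := Metric.mem_nhds_iff.1 (mem_interior_iff_mem_nhds.1 hx)
  have hQK : closedBall x (ε / 2) ⊆ K := (closedBall_subset_ball (by linarith only [hε])).trans hball
  have hfin : volume (closedBall x (ε / 2)) ≠ ⊤ := measure_closedBall_lt_top.ne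
  have hvol : 0 < volume.real (closedBall x (ε / 2)) :=
    ENNReal.toReal_pos (measure_closedBall_pos _ _ (by linarith)).ne' hfin
  set T := R0 * R + R with hT
  have hT0 : 0 < T := by positivity
  refine ⟨(1 / 2 : ℝ) ^ p * volume.real (closedBall x (ε / 2)) / T ^ p, w, by positivity,
    hu.of_le hw (e := fun _ => 0) tendsto_const_nhds (fun j => by simpa using hwu j), fun j => ?_⟩
  have hc : Continuous (w j) := (hw j).lip0.lip.continuous
  have k1 := path_translate hp (hw j).lip0 (T • v) (Q := closedBall x (ε / 2)) (Ω := univ)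
    measurableSet_closedBall isBounded_closedBall MeasurableSet.univ (fun _ _ _ _ => mem_univ _)
  have k2 : (1 / 2 : ℝ) ^ p * volume.real (closedBall x (ε / 2)) ≤
      ∫ z in closedBall x (ε / 2), |w j (z + T • v) - w j z| ^ p := by
    refine setIntegral_ge_of_const_le_real measurableSet_closedBall hfin (fun z hz => ?_) ?_
    · refine Real.rpow_le_rpow (by norm_num) ?_ hp0.le
      have h1 : w j z = 1 := (hw j).one z (hQK hz)
      have h2 : ‖z‖ ≤ R := mem_closedBall_zero_iff.1 (hKR (hQK hz))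
      have h3 : ‖T • v‖ = T := by rw [norm_smul, hv, mul_one, Real.norm_eq_abs, abs_of_pos hT0]
      have h4 : ‖T • v‖ ≤ ‖z + T • v‖ + ‖z‖ := by
        simpa using norm_sub_le (z + T • v) z
      have h5 := hwh j (z + T • v) (by linarith only [h2, h3, h4])
      rw [abs_sub_comm]
      exact le_trans (by linarith only [h1, h5]) (le_abs_self _)
    · refine ContinuousOn.integrableOn_compact (isCompact_closedBall _ _) ?_
      refine Continuous.continuousOn ?_
      exact (Continuous.abs (by fun_prop)).rpow_const fun _ => Or.inr hp0.le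
  have k3 : ∫ y in (univ : Set (Eu n)), |⟪gradient (w j) y, T • v⟫| ^ p =
      T ^ p * ∫ y, |⟪gradient (w j) y, v⟫| ^ p := by
    rw [Measure.restrict_univ, ← integral_const_mul]
    congr 1
    ext y
    rw [real_inner_smul_right, abs_mul, abs_of_pos hT0, Real.mul_rpow hT0.le (abs_nonneg _)]
  rw [div_le_iff₀ (by positivity), mul_comm _ (T ^ p), ← k3]
  exact k2.trans k1

end Pool.Agent.Work.MP_f7e2e5_gt
end
end
end

-- merged part: Pool.Agent.Work.MP_f7e2e5_gt.Supp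
section
-- merged part: Pool.Agent.Work.MP_f7e2e5_gt.Supp
section
open MeasureTheory Set Metric Filter Topology
open scoped RealInnerProductSpace Pointwise ContDiff NNReal

noncomputable section

namespace Pool.Agent.Work.MP_f7e2e5_gt

variable {n : ℕ} {p : ℝ}

theorem Supp_ne {K : Set (Eu n)} (hK : IsBody K) : K.Nonempty := hK.2.2.mono interior_subset

theorem Body0.exists_radii {K : Set (Eu n)} (hK : Body0 K) :
    ∃ ρ R : ℝ, 0 < ρ ∧ ρ ≤ R ∧ closedBall 0 ρ ⊆ K ∧ K ⊆ closedBall 0 R := by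
  obtain ⟨ρ, h1, h2⟩ := nhds_basis_closedBall.mem_iff.1 (mem_interior_iff_mem_nhds.1 hK.2)
  obtain ⟨R, hR⟩ := hK.1.1.isBounded.subset_closedBall 0
  exact ⟨ρ, max ρ R, h1, le_max_left _ _, h2,
    hR.trans (closedBall_subset_closedBall (le_max_right _ _))⟩

theorem Body0.supp_pos {K : Set (Eu n)} (hK : Body0 K) {ξ : Eu n} (hξ : ξ ≠ 0) :
    0 < supp K ξ := by
  obtain ⟨ρ, R, h1, -, h2, -⟩ := hK.exists_radii
  have h3 := supp_mono hK.1.1 (nonempty_closedBall.2 h1.le) h2 ξ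
  rw [supp_closedBall _ h1.le, inner_zero_left, zero_add] at h3
  exact (mul_pos h1 (norm_pos_iff.2 hξ)).trans_le h3

theorem Supp_smul {K : Set (Eu n)} (hK : Body0 K) {l : ℝ} (hl : l ≠ 0) : Body0 (l • K) := by
  have h : (0 : Eu n) ∈ interior (l • K) := by
    rw [interior_smul₀ hl]
    exact ⟨0, hK.2, smul_zero l⟩
  exact ⟨⟨hK.1.1.smul l, hK.1.2.1.smul l, _, h⟩, h⟩

theorem Body0.smul {K : Set (Eu n)} (hK : Body0 K) {l : ℝ} (hl : 0 < l) : Body0 (l • K) :=
  Supp_smul hK hl.ne'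

theorem Body0.neg {K : Set (Eu n)} (hK : Body0 K) : Body0 (-K) := by
  have h := Supp_smul hK (l := -1) (by norm_num)
  rwa [Set.neg_smul_set, one_smul] at h

theorem Supp_add {K L : Set (Eu n)} (hK : IsBody K) (hL : IsCompact L) (hc : Convex ℝ L)
    (hne : L.Nonempty) : IsBody (K + L) :=
  ⟨hK.1.add hL, hK.2.1.add hc, (hK.2.2.add hne).mono subset_interior_add_left⟩

theorem IsBody.add_smul {K L : Set (Eu n)} (hK : IsBody K) (hL : IsBody L) {t : ℝ} (ht : 0 ≤ t) :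
    IsBody (K + t • L) :=
  have _ := ht
  Supp_add hK (hL.1.smul t) (hL.2.1.smul t) (Supp_ne hL).smul_set

theorem Supp_wulff {K : Set (Eu n)} (hK : IsBody K) : wulff (sphere 0 1) (supp K) = K := by
  ext x
  refine ⟨fun h => mem_of_le_supp hK.1 hK.2.1 (Supp_ne hK) fun ξ hξ => h ξ ?_,
    fun h ξ _ => le_supp hK.1 h ξ⟩
  rwa [mem_sphere_zero_iff_norm]

theorem add_smul_eq_wulff {K L : Set (Eu n)} (hK : IsBody K) (hL : IsBody L) {t : ℝ} (ht : 0 ≤ t) :
    K + t • L = wulff (sphere 0 1) (fun ξ => supp K ξ + t * supp L ξ) := by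
  rw [← Supp_wulff (hK.add_smul hL ht)]
  congr 1
  funext ξ
  rw [supp_add hK.1 (hL.1.smul t) (Supp_ne hK) (Supp_ne hL).smul_set, supp_smul hL.1 ht]

theorem wulff_supp {K : Set (Eu n)} (hK : IsBody K) : wulff (sphere 0 1) (supp K) = K :=
  Supp_wulff hK

theorem Supp_closed (Ω : Set (Eu n)) (f : Eu n → ℝ) : IsClosed (wulff Ω f) := by
  simp only [wulff, Set.ofPred_forall]
  exact isClosed_iInter fun ξ => isClosed_iInter fun _ =>
    isClosed_le (continuous_id.inner continuous_const) continuous_const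

theorem Supp_convex (Ω : Set (Eu n)) (f : Eu n → ℝ) : Convex ℝ (wulff Ω f) := by
  intro x hx y hy a b ha hb hab ξ hξ
  rw [inner_add_left, real_inner_smul_left, real_inner_smul_left]
  have h1 := mul_le_mul_of_nonneg_left (hx ξ hξ) ha
  have h2 := mul_le_mul_of_nonneg_left (hy ξ hξ) hb
  have h3 : a * f ξ + b * f ξ = f ξ := by rw [← add_mul, hab, one_mul]
  linarith only [h1, h2, h3]

/-- Every boundary point of a Wulff shape has an active constraint. -/
theorem wulff_active {Ω : Set (Eu n)} (hΩ : IsCompact Ω) {f : Eu n → ℝ} (hf : ContinuousOn f Ω)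
    {y : Eu n} (hy : y ∈ frontier (wulff Ω f)) : ∃ ξ ∈ Ω, ⟪y, ξ⟫ = f ξ := by
  by_contra hn
  push Not at hn
  have h1 : y ∈ wulff Ω f := (Supp_closed Ω f).frontier_subset hy
  refine hy.2 (mem_interior_iff_mem_nhds.2 ?_)
  have h2 : ∀ᶠ x in 𝓝 y, ∀ ξ ∈ Ω, ξ ∈ Ω → ⟪x, ξ⟫ ≤ f ξ := by
    refine hΩ.eventually_forall_of_forall_eventually
      (P := fun x ξ => ξ ∈ Ω → ⟪x, ξ⟫ ≤ f ξ) fun ξ hξ => ?_
    have h3 : ContinuousWithinAt (fun z : Eu n × Eu n => f z.2 - ⟪z.1, z.2⟫)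
        {z | z.2 ∈ Ω} (y, ξ) := by
      refine ContinuousWithinAt.sub ?_ (continuous_fst.inner continuous_snd).continuousWithinAt
      exact ContinuousWithinAt.comp (g := f) (f := Prod.snd) (hf ξ hξ)
        continuous_snd.continuousWithinAt fun z hz => hz
    have h4 : 0 < f ξ - ⟪y, ξ⟫ := sub_pos.2 (lt_of_le_of_ne (h1 ξ hξ) (hn ξ hξ))
    have h5 := h3.eventually (lt_mem_nhds h4)
    rw [eventually_nhdsWithin_iff] at h5
    filter_upwards [h5] with z hz h6
    exact (sub_pos.1 (hz h6)).le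
  filter_upwards [h2] with x hx ξ hξ
  exact hx ξ hξ hξ

theorem Supp_smul_sub {Ω : Set (Eu n)} {f g : Eu n → ℝ} {l : ℝ} (hl : 0 ≤ l)
    (h : ∀ ξ ∈ Ω, l * f ξ ≤ g ξ) : l • wulff Ω f ⊆ wulff Ω g := by
  rintro _ ⟨x, hx, rfl⟩ ξ hξ
  rw [real_inner_smul_left]
  exact (mul_le_mul_of_nonneg_left (hx ξ hξ) hl).trans (h ξ hξ)

theorem Supp_sub_smul {Ω : Set (Eu n)} {f g : Eu n → ℝ} {l : ℝ} (hl : 0 < l)
    (h : ∀ ξ ∈ Ω, g ξ ≤ l * f ξ) : wulff Ω g ⊆ l • wulff Ω f := by
  intro x hx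
  refine ⟨l⁻¹ • x, fun ξ hξ => ?_, smul_inv_smul₀ hl.ne' x⟩
  rw [real_inner_smul_left, inv_mul_le_iff₀ hl]
  exact (hx ξ hξ).trans (h ξ hξ)

/-- Small perturbations of a Wulff shape. -/
theorem wulff_perturb {Ω : Set (Eu n)} (hΩ : IsCompact Ω) (hu : ∀ ξ ∈ Ω, ‖ξ‖ = 1)
    {f g : Eu n → ℝ} (hf : ContinuousOn f Ω) (hg : ContinuousOn g Ω) (hK : Body0 (wulff Ω f)) :
    ∃ C t0 : ℝ, 0 ≤ C ∧ 0 < t0 ∧ C * t0 ≤ 1 / 2 ∧ ∀ t : ℝ, |t| ≤ t0 →
      Body0 (wulff Ω (fun ξ => f ξ + t * g ξ)) ∧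
      (1 - C * |t|) • wulff Ω f ⊆ wulff Ω (fun ξ => f ξ + t * g ξ) ∧
      wulff Ω (fun ξ => f ξ + t * g ξ) ⊆ (1 + C * |t|) • wulff Ω f := by
  have _ := hf
  obtain ⟨ρ, R, hρ, -, h1, -⟩ := hK.exists_radii
  obtain ⟨G, hG⟩ := hΩ.exists_bound_of_continuousOn hg
  have h2 : ∀ ξ ∈ Ω, ρ ≤ f ξ := fun ξ hξ => by
    have h3 : ρ • ξ ∈ closedBall (0 : Eu n) ρ := by
      rw [mem_closedBall_zero_iff, norm_smul, hu ξ hξ, mul_one, Real.norm_of_nonneg hρ.le]
    have h4 := h1 h3 ξ hξ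
    rwa [real_inner_smul_left, real_inner_self_eq_norm_sq, hu ξ hξ, one_pow, mul_one] at h4
  set C : ℝ := |G| / ρ + 1 with hC
  have hC0 : 0 < C := by positivity
  have h5 : ∀ (t : ℝ), ∀ ξ ∈ Ω, |t * g ξ| ≤ C * |t| * f ξ := fun t ξ hξ => by
    have h6 : |g ξ| ≤ C * f ξ := by
      calc |g ξ| ≤ |G| := (hG ξ hξ).trans (le_abs_self G)
        _ = |G| / ρ * ρ := (div_mul_cancel₀ _ hρ.ne').symm
        _ ≤ C * f ξ := mul_le_mul (by linarith only []) (h2 ξ hξ) hρ.le hC0.le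
    rw [abs_mul]
    calc |t| * |g ξ| ≤ |t| * (C * f ξ) := mul_le_mul_of_nonneg_left h6 (abs_nonneg t)
      _ = C * |t| * f ξ := by ring
  refine ⟨C, 1 / (2 * C), hC0.le, by positivity, le_of_eq (by field_simp), fun t ht => ?_⟩
  have h7 : C * |t| ≤ 1 / 2 := by
    calc C * |t| ≤ C * (1 / (2 * C)) := mul_le_mul_of_nonneg_left ht hC0.le
      _ = 1 / 2 := by field_simp
  have h8 : 0 ≤ C * |t| := by positivity
  have h9 : (1 - C * |t|) • wulff Ω f ⊆ wulff Ω (fun ξ => f ξ + t * g ξ) :=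
    Supp_smul_sub (by linarith only [h7]) fun ξ hξ => by
      have := (abs_le.1 (h5 t ξ hξ)).1
      linarith only [this]
  have h10 : wulff Ω (fun ξ => f ξ + t * g ξ) ⊆ (1 + C * |t|) • wulff Ω f :=
    Supp_sub_smul (by linarith only [h8]) fun ξ hξ => by
      have := (abs_le.1 (h5 t ξ hξ)).2
      linarith only [this]
  have h11 : (0 : Eu n) ∈ interior (wulff Ω (fun ξ => f ξ + t * g ξ)) :=
    interior_mono h9 (hK.smul (by linarith only [h7])).2
  exact ⟨⟨⟨(hK.1.1.smul _).of_isClosed_subset (Supp_closed _ _) h10, Supp_convex _ _, _, h11⟩,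
    h11⟩, h9, h10⟩

theorem Supp_hull {K L : Set (Eu n)} (hK : IsBody K) (hL : IsBody L) :
    IsBody (convexHull ℝ (K ∪ L)) :=
  ⟨isCompact_convexHull_union hK.1 hL.1 hK.2.1 hL.2.1, convex_convexHull _ _,
    hK.2.2.mono (interior_mono (subset_union_left.trans (subset_convexHull _ _)))⟩

theorem Supp_add' {K L : Set (Eu n)} (hK : IsBody K) (hL : IsBody L) : IsBody (K + L) :=
  Supp_add hK hL.1 hL.2.1 (Supp_ne hL)

theorem Supp_ball (c : Eu n) {r : ℝ} (hr : 0 < r) : IsBody (closedBall c r) :=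
  ⟨isCompact_closedBall c r, convex_closedBall c r,
    (nonempty_ball.2 hr).mono ball_subset_interior_closedBall⟩

/-- Differences of support functions, restricted to the sphere. -/
def Supp_diff (n : ℕ) : Set C(Sph n, ℝ) :=
  {F | ∃ K L : Set (Eu n), IsBody K ∧ IsBody L ∧ ∀ ξ : Sph n, F ξ = supp K ξ - supp L ξ}

theorem Supp_affine (c : Eu n) (a : ℝ) :
    ∃ F ∈ Supp_diff n, ∀ ξ : Sph n, F ξ = ⟪c, (ξ : Eu n)⟫ + a := by
  have h1 : 0 < |a| + 1 := by positivity
  have h2 : 0 < |a| + 1 - a := by linarith [le_abs_self a]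
  refine ⟨⟨fun ξ => ⟪c, (ξ : Eu n)⟫ + a,
    (continuous_const.inner continuous_subtype_val).add continuous_const⟩,
    ⟨_, _, Supp_ball c h1, Supp_ball 0 h2, fun ξ => ?_⟩, fun _ => rfl⟩
  rw [supp_closedBall _ h1.le, supp_closedBall _ h2.le, norm_eq_of_mem_sphere ξ, inner_zero_left]
  change ⟪c, (ξ : Eu n)⟫ + a = _
  ring

theorem Supp_dense (n : ℕ) : closure (Supp_diff n) = ⊤ := by
  refine ContinuousMap.sublattice_closure_eq_top _ ?_ ?_ ?_ ?_
  · obtain ⟨F, hF, -⟩ := Supp_affine (0 : Eu n) 0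
    exact ⟨F, hF⟩
  · rintro F ⟨K1, K2, h1, h2, hF⟩ G ⟨K3, K4, h3, h4, hG⟩
    refine ⟨_, _, Supp_add' h1 h3, Supp_hull (Supp_add' h2 h3) (Supp_add' h1 h4), fun ξ => ?_⟩
    rw [ContinuousMap.inf_apply, hF, hG,
      supp_convexHull_union (Supp_add' h2 h3).1 (Supp_add' h1 h4).1 (Supp_ne (Supp_add' h2 h3))
        (Supp_ne (Supp_add' h1 h4)),
      supp_add h1.1 h3.1 (Supp_ne h1) (Supp_ne h3), supp_add h2.1 h3.1 (Supp_ne h2) (Supp_ne h3),
      supp_add h1.1 h4.1 (Supp_ne h1) (Supp_ne h4), ← min_sub_sub_left]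
    congr 1 <;> ring
  · rintro F ⟨K1, K2, h1, h2, hF⟩ G ⟨K3, K4, h3, h4, hG⟩
    refine ⟨_, _, Supp_hull (Supp_add' h1 h4) (Supp_add' h3 h2), Supp_add' h2 h4, fun ξ => ?_⟩
    rw [ContinuousMap.sup_apply, hF, hG,
      supp_convexHull_union (Supp_add' h1 h4).1 (Supp_add' h3 h2).1 (Supp_ne (Supp_add' h1 h4))
        (Supp_ne (Supp_add' h3 h2)),
      supp_add h1.1 h4.1 (Supp_ne h1) (Supp_ne h4), supp_add h3.1 h2.1 (Supp_ne h3) (Supp_ne h2),
      supp_add h2.1 h4.1 (Supp_ne h2) (Supp_ne h4), ← max_sub_sub_right]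
    congr 1 <;> ring
  · intro v x y
    set c : Eu n := ((v x - v y) / ‖(x : Eu n) - y‖ ^ 2) • ((x : Eu n) - y) with hc
    obtain ⟨F, hF, h⟩ := Supp_affine c (v x - ⟪c, (x : Eu n)⟫)
    refine ⟨F, hF, by rw [h]; ring, ?_⟩
    rw [h]
    by_cases e : x = y
    · rw [← e]
      ring
    · have h1 : ‖(x : Eu n) - y‖ ≠ 0 :=
        norm_ne_zero_iff.2 (sub_ne_zero.2 fun k => e (Subtype.ext k))
      have h2 : ⟪c, (x : Eu n)⟫ - ⟪c, (y : Eu n)⟫ = v x - v y := by
        rw [← inner_sub_right, hc, real_inner_smul_left, real_inner_self_eq_norm_sq]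
        field_simp
      linarith only [h2]

theorem Supp_integrable (ν : Measure (Sph n)) [IsFiniteMeasure ν] {F : Sph n → ℝ}
    (hF : Continuous F) : Integrable F ν :=
  hF.integrable_of_hasCompactSupport (HasCompactSupport.of_compactSpace F)

theorem Supp_cont_int (ν : Measure (Sph n)) [IsFiniteMeasure ν] :
    Continuous fun F : C(Sph n, ℝ) => ∫ ξ, F ξ ∂ν := by
  refine LipschitzWith.continuous (K := ⟨ν.real univ, measureReal_nonneg⟩)
    (LipschitzWith.of_dist_le_mul fun F G => ?_)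
  rw [dist_eq_norm, ← integral_sub (Supp_integrable ν F.continuous)
    (Supp_integrable ν G.continuous), mul_comm]
  refine norm_integral_le_of_norm_le_const (Eventually.of_forall fun ξ => ?_)
  rw [← dist_eq_norm]
  exact ContinuousMap.dist_apply_le_dist ξ

/-- Differences of support functions of convex bodies determine finite measures. -/
theorem ext_of_supp {ν ν' : Measure (Sph n)} [IsFiniteMeasure ν] [IsFiniteMeasure ν']
    (h : ∀ L : Set (Eu n), IsBody L → ∫ ξ : Sph n, supp L ξ ∂ν = ∫ ξ : Sph n, supp L ξ ∂ν') :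
    ν = ν' := by
  have h1 : Supp_diff n ⊆ {F | ∫ ξ, F ξ ∂ν = ∫ ξ, F ξ ∂ν'} := by
    rintro F ⟨K, L, hK, hL, hF⟩
    have c1 : Continuous fun ξ : Sph n => supp K ξ :=
      (continuous_supp hK.1).comp continuous_subtype_val
    have c2 : Continuous fun ξ : Sph n => supp L ξ :=
      (continuous_supp hL.1).comp continuous_subtype_val
    simp only [Set.mem_ofPred_eq, hF]
    rw [integral_sub (Supp_integrable ν c1) (Supp_integrable ν c2),
      integral_sub (Supp_integrable ν' c1) (Supp_integrable ν' c2), h K hK, h L hL]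
  have h2 := closure_minimal h1 (isClosed_eq (Supp_cont_int ν) (Supp_cont_int ν'))
  rw [Supp_dense] at h2
  exact ext_of_forall_integral_eq_of_IsFiniteMeasure fun f => h2 (mem_univ f.toContinuousMap)

end Pool.Agent.Work.MP_f7e2e5_gt
end
end

-- merged part: Pool.Agent.Work.MP_f7e2e5_gt.GeoA
section
open MeasureTheory Set Metric Filter Topology
open scoped RealInnerProductSpace Pointwise ContDiff NNReal

noncomputable section

namespace Pool.Agent.Work.MP_f7e2e5_gt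

variable {n : ℕ} {p : ℝ}

theorem measurable_nrm (K : Set (Eu n)) : Measurable (nrm K) := by
  have h : Measurable (gradient (gauge K)) :=
    (InnerProductSpace.toDual ℝ (Eu n)).symm.continuous.measurable.comp
      (measurable_fderiv ℝ (gauge K))
  exact h.norm.inv.smul h

theorem measurableSet_reg (K : Set (Eu n)) : MeasurableSet (Reg K) :=
  isClosed_frontier.measurableSet.inter (measurableSet_of_differentiableAt ℝ (gauge K))

theorem GeoA_nhds {K : Set (Eu n)} (hK : Body0 K) : K ∈ 𝓝 (0 : Eu n) :=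
  mem_interior_iff_mem_nhds.1 hK.2

theorem GeoA_mem_iff {K : Set (Eu n)} (hK : Body0 K) {z : Eu n} : z ∈ K ↔ gauge K z ≤ 1 := by
  rw [gauge_le_one_iff_mem_closure hK.1.2.1 (GeoA_nhds hK), hK.1.1.isClosed.closure_eq]

theorem GeoA_pos {K : Set (Eu n)} (hK : Body0 K) {z : Eu n} (hz : z ≠ 0) : 0 < gauge K z :=
  (gauge_pos (absorbent_nhds_zero (GeoA_nhds hK))
    ((NormedSpace.isVonNBounded_iff ℝ).2 hK.1.1.isBounded)).2 hz

/-- Radial decomposition of a nonzero point. -/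
theorem exists_ray {K : Set (Eu n)} (hK : Body0 K) {z : Eu n} (hz : z ≠ 0) :
    ∃ y ∈ frontier K, ∃ a : ℝ, 0 < a ∧ z = a • y ∧ (z ∈ K ↔ a ≤ 1) := by
  have hp := GeoA_pos hK hz
  refine ⟨(gauge K z)⁻¹ • z, ?_, gauge K z, hp, ?_, GeoA_mem_iff hK⟩
  · rw [← gauge_eq_one_iff_mem_frontier hK.1.2.1 (GeoA_nhds hK),
      gauge_smul_of_nonneg (inv_nonneg.2 hp.le), smul_eq_mul, inv_mul_cancel₀ hp.ne']
  · rw [smul_smul, mul_inv_cancel₀ hp.ne', one_smul]

theorem GeoA_inner_le {K : Set (Eu n)} (hK : Body0 K) (ξ z : Eu n) :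
    ⟪z, ξ⟫ ≤ gauge K z * supp K ξ := by
  by_cases hz : z = 0
  · simp [hz]
  have hp := GeoA_pos hK hz
  have hm : (gauge K z)⁻¹ • z ∈ K := by
    rw [GeoA_mem_iff hK, gauge_smul_of_nonneg (inv_nonneg.2 hp.le), smul_eq_mul,
      inv_mul_cancel₀ hp.ne']
  have h := le_supp hK.1.1 hm ξ
  rw [real_inner_smul_left] at h
  rwa [inv_mul_le_iff₀ hp] at h

theorem GeoA_grad {K : Set (Eu n)} (hK : Body0 K) {y : Eu n} (hy : y ∈ Reg K) {ξ : Eu n}
    (hξ : ‖ξ‖ = 1) (h : ⟪y, ξ⟫ = supp K ξ) : ξ = nrm K y := by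
  have hξ0 : ξ ≠ 0 := by
    rintro rfl
    simp at hξ
  have hp := hK.supp_pos hξ0
  have g1 : gauge K y = 1 := (gauge_eq_one_iff_mem_frontier hK.1.2.1 (GeoA_nhds hK)).2 hy.1
  let l : Eu n →L[ℝ] ℝ := InnerProductSpace.toDual ℝ (Eu n) ((supp K ξ)⁻¹ • ξ)
  have hl : ∀ z, l z = (supp K ξ)⁻¹ * ⟪z, ξ⟫ := fun z => by
    simp only [l, InnerProductSpace.toDual_apply_apply, real_inner_smul_left]
    rw [real_inner_comm]
  have hmin : IsLocalMin (fun z => gauge K z - l z) y := by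
    refine Filter.Eventually.of_forall fun z => ?_
    have h1 := GeoA_inner_le hK ξ z
    have h2 : l z ≤ gauge K z := by
      rw [hl, inv_mul_le_iff₀ hp, mul_comm]
      exact h1
    have h3 : l y = 1 := by rw [hl, h, inv_mul_cancel₀ hp.ne']
    simp only [g1, h3]
    linarith
  have hd := hmin.hasFDerivAt_eq_zero (hy.2.hasFDerivAt.sub l.hasFDerivAt)
  have hg : gradient (gauge K) y = (supp K ξ)⁻¹ • ξ := by
    rw [gradient, sub_eq_zero.1 hd]
    exact (InnerProductSpace.toDual ℝ (Eu n)).symm_apply_apply _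
  rw [nrm, hg, norm_smul, hξ, mul_one, Real.norm_of_nonneg (inv_nonneg.2 hp.le), inv_inv,
    smul_smul, mul_inv_cancel₀ hp.ne', one_smul]

theorem reg_normal {K : Set (Eu n)} (hK : Body0 K) {y : Eu n} (hy : y ∈ Reg K) :
    ‖nrm K y‖ = 1 ∧ ⟪y, nrm K y⟫ = supp K (nrm K y) ∧
      ∀ ξ : Eu n, ‖ξ‖ = 1 → ⟪y, ξ⟫ = supp K ξ → ξ = nrm K y := by
  obtain ⟨ξ, h1, h2⟩ := exists_normal hK.1 hy.1
  have e := GeoA_grad hK hy h1 h2
  exact ⟨e ▸ h1, e ▸ h2, fun ζ a b => GeoA_grad hK hy a b⟩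

theorem GeoA_flow (ψ : Eu n → ℝ) (t s : ℝ) (y : Eu n) :
    flow (fun x => ψ x • x) t (s • y) = (s * (1 + t * ψ (s • y))) • y := by
  simp only [flow, smul_smul, ← add_smul]
  congr 1
  ring

theorem smul_mem_flow {K : Set (Eu n)} (hK : Body0 K) {ψ : Eu n → ℝ} (hψ : Continuous ψ) (t : ℝ)
    {y : Eu n} (hy : y ∈ K) {a : ℝ} (ha0 : 0 ≤ a) (ha : a ≤ 1 + t * ψ y) :
    a • y ∈ flow (fun x => ψ x • x) t '' K := by
  have hc : ContinuousOn (fun s : ℝ => s * (1 + t * ψ (s • y))) (Icc 0 1) := by fun_prop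
  obtain ⟨s, hs, e⟩ := intermediate_value_Icc zero_le_one hc
    (show a ∈ Icc _ _ from ⟨by simpa using ha0, by simpa using ha⟩)
  refine ⟨s • y, hK.1.2.1.smul_mem_of_zero_mem (interior_subset hK.2) hy hs, ?_⟩
  rw [GeoA_flow]
  exact congrArg (· • y) e

theorem flow_subset {K : Set (Eu n)} (hK : Body0 K) {ψ : Eu n → ℝ} (hψ : ContDiff ℝ 1 ψ)
    (hc : HasCompactSupport ψ) : ∃ t0 : ℝ, 0 < t0 ∧ ∀ t : ℝ, |t| ≤ t0 →
      ∀ z ∈ flow (fun x => ψ x • x) t '' K,
        z = 0 ∨ ∃ y ∈ frontier K, ∃ a : ℝ, 0 ≤ a ∧ a ≤ 1 + t * ψ y ∧ z = a • y := by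
  obtain ⟨L, hL⟩ := hψ.lipschitzWith_of_hasCompactSupport hc one_ne_zero
  obtain ⟨B, hB⟩ := hψ.continuous.bounded_above_of_compact_support hc
  obtain ⟨ρ, R, hρ, hρR, -, hR⟩ := hK.exists_radii
  have hB0 : 0 ≤ B := (norm_nonneg _).trans (hB 0)
  have hLR : 0 ≤ (L : ℝ) * R := mul_nonneg L.2 (hρ.le.trans hρR)
  have hM : 0 < B + L * R + 1 := by linarith
  refine ⟨1 / (B + L * R + 1), by positivity, fun t ht => ?_⟩
  rw [le_div_iff₀ hM] at ht
  have ht0 := abs_nonneg t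
  rintro _ ⟨x, hx, rfl⟩
  by_cases hx0 : x = 0
  · left
    simp [flow, hx0]
  obtain ⟨y, hy, s, hs0, rfl, hs⟩ := exists_ray hK hx0
  have hs1 := hs.1 hx
  have hyK : y ∈ K := hK.1.1.isClosed.frontier_subset hy
  have hyR : ‖y‖ ≤ R := by simpa using hR hyK
  refine Or.inr ⟨y, hy, s * (1 + t * ψ (s • y)), mul_nonneg hs0.le ?_, ?_, GeoA_flow ψ t s y⟩
  · have h1 : |t * ψ (s • y)| ≤ |t| * B := by
      rw [abs_mul]
      exact mul_le_mul_of_nonneg_left (hB _) ht0
    have h2 := neg_abs_le (t * ψ (s • y))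
    linarith only [ht, ht0, h1, h2, hLR, mul_nonneg_of_nonpos_of_nonpos (Mathlib.Tactic.Linarith.sub_nonpos_of_le hLR) (Mathlib.Tactic.Linarith.sub_nonpos_of_le ht0)]
  · have h1 : |ψ y - ψ (s • y)| ≤ L * ((1 - s) * R) := by
      have := hL.dist_le_mul y (s • y)
      rw [Real.dist_eq, dist_eq_norm, show y - s • y = (1 - s) • y by rw [sub_smul, one_smul],
        norm_smul, Real.norm_of_nonneg (sub_nonneg.2 hs1)] at this
      exact this.trans (mul_le_mul_of_nonneg_left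
        (mul_le_mul_of_nonneg_left hyR (sub_nonneg.2 hs1)) L.2)
    have h2 : |ψ y - s * ψ (s • y)| ≤ (1 - s) * (B + L * R) := by
      have e : ψ y - s * ψ (s • y) = (ψ y - ψ (s • y)) + (1 - s) * ψ (s • y) := by ring
      have h3 : |(1 - s) * ψ (s • y)| ≤ (1 - s) * B := by
        rw [abs_mul, abs_of_nonneg (sub_nonneg.2 hs1)]
        exact mul_le_mul_of_nonneg_left (hB _) (sub_nonneg.2 hs1)
      rw [e]
      refine (abs_add_le _ _).trans ?_
      linarith
    have h3 : |t * (ψ y - s * ψ (s • y))| ≤ |t| * ((1 - s) * (B + L * R)) := by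
      rw [abs_mul]
      exact mul_le_mul_of_nonneg_left h2 ht0
    have h4 := neg_abs_le (t * (ψ y - s * ψ (s • y)))
    have h5 : (1 - s) * (|t| * (B + L * R)) ≤ (1 - s) * 1 :=
      mul_le_mul_of_nonneg_left (by linarith) (sub_nonneg.2 hs1)
    linarith only [h3, h4, h5]

end Pool.Agent.Work.MP_f7e2e5_gt
end
end

-- merged part: Pool.Agent.Work.MP_f7e2e5_gt.GeoB
section
open MeasureTheory Set Metric Filter Topology
open scoped RealInnerProductSpace Pointwise ContDiff NNReal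

noncomputable section

namespace Pool.Agent.Work.MP_f7e2e5_gt

variable {n : ℕ} {p : ℝ}

/-- The radial projection to the boundary. -/
def GeoB_pi (K : Set (Eu n)) (z : Eu n) : Eu n := (gauge K z)⁻¹ • z

/-- The cone over `U` up to height `a`. -/
def GeoB_cone (K U : Set (Eu n)) (a : ℝ) : Set (Eu n) :=
  {z | GeoB_pi K z ∈ U ∧ gauge K z ≤ a}

theorem GeoB_nhds {K : Set (Eu n)} (hK : Body0 K) : K ∈ 𝓝 (0 : Eu n) :=
  mem_interior_iff_mem_nhds.1 hK.2

theorem GeoB_cont {K : Set (Eu n)} (hK : Body0 K) : Continuous (gauge K) :=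
  continuous_gauge hK.1.2.1 (GeoB_nhds hK)

theorem GeoB_meas {K : Set (Eu n)} (hK : Body0 K) : Measurable (GeoB_pi K) :=
  (GeoB_cont hK).measurable.inv.smul measurable_id

theorem GeoB_mem {K : Set (Eu n)} (hK : Body0 K) {z : Eu n} : z ∈ K ↔ gauge K z ≤ 1 := by
  rw [gauge_le_one_iff_mem_closure hK.1.2.1 (GeoB_nhds hK), hK.1.1.isClosed.closure_eq]

theorem GeoB_front {K : Set (Eu n)} (hK : Body0 K) {z : Eu n} :
    z ∈ frontier K ↔ gauge K z = 1 :=
  (gauge_eq_one_iff_mem_frontier hK.1.2.1 (GeoB_nhds hK)).symm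

theorem GeoB_hom (K : Set (Eu n)) {a : ℝ} (ha : 0 ≤ a) (z : Eu n) :
    gauge K (a • z) = a * gauge K z := gauge_smul_of_nonneg ha z

theorem GeoB_pi_smul (K : Set (Eu n)) {a : ℝ} (ha : 0 < a) (z : Eu n) :
    GeoB_pi K (a • z) = GeoB_pi K z := by
  rw [GeoB_pi, GeoB_pi, GeoB_hom K ha.le, smul_smul, mul_inv, mul_right_comm,
    inv_mul_cancel₀ ha.ne', one_mul]

theorem GeoB_gauge_pi (K : Set (Eu n)) (z : Eu n) :
    gauge K (GeoB_pi K z) = (gauge K z)⁻¹ * gauge K z :=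
  GeoB_hom K (inv_nonneg.2 (gauge_nonneg z)) z

theorem GeoB_apply {K : Set (Eu n)} (hK : Body0 K) {U : Set (Eu n)} (hU : MeasurableSet U) :
    lamK K U = volume (GeoB_cone K U 1) := by
  have h : lamK K U = (volume.restrict K).map (GeoB_pi K) U := rfl
  rw [h, Measure.map_apply (GeoB_meas hK) hU, Measure.restrict_apply (GeoB_meas hK hU)]
  congr 1
  ext z
  exact and_congr_right fun _ => GeoB_mem hK

theorem GeoB_cone_smul (K U : Set (Eu n)) {a : ℝ} (ha : 0 < a) :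
    GeoB_cone K U a = a • GeoB_cone K U 1 := by
  ext z
  rw [mem_smul_set_iff_inv_smul_mem₀ ha.ne']
  simp only [GeoB_cone, mem_ofPred_eq, GeoB_pi_smul K (inv_pos.2 ha),
    GeoB_hom K (inv_pos.2 ha).le, inv_mul_le_iff₀ ha, mul_one]

theorem lamK_finite {K : Set (Eu n)} (hK : Body0 K) : IsFiniteMeasure (lamK K) := by
  have : IsFiniteMeasure (volume.restrict K) := isFiniteMeasure_restrict.2 hK.1.1.measure_lt_top.ne
  unfold lamK
  infer_instance

theorem GeoB_vol {K : Set (Eu n)} (hK : Body0 K) {U : Set (Eu n)} (hU : MeasurableSet U)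
    {a : ℝ} (ha : 0 < a) : volume (GeoB_cone K U a) = ENNReal.ofReal (a ^ n) * lamK K U := by
  rw [GeoB_cone_smul K U ha, Measure.addHaar_smul_of_nonneg _ ha.le, GeoB_apply hK hU,
    finrank_euclideanSpace_fin]

theorem GeoB_fin {K : Set (Eu n)} (hK : Body0 K) {U : Set (Eu n)} (hU : MeasurableSet U)
    {a : ℝ} (ha : 0 < a) : volume (GeoB_cone K U a) ≠ ⊤ := by
  have := lamK_finite hK
  rw [GeoB_vol hK hU ha]
  finiteness

theorem GeoB_diff {K : Set (Eu n)} (hK : Body0 K) {U : Set (Eu n)} (hU : MeasurableSet U)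
    {a b : ℝ} (ha : 0 < a) (hab : a ≤ b) :
    volume.real (GeoB_cone K U b \ GeoB_cone K U a) = (b ^ n - a ^ n) * (lamK K).real U := by
  have hb : 0 < b := ha.trans_le hab
  have h1 : ∀ c : ℝ, 0 < c → volume.real (GeoB_cone K U c) = c ^ n * (lamK K).real U :=
    fun c hc => by
      rw [measureReal_def, GeoB_vol hK hU hc, ENNReal.toReal_mul,
        ENNReal.toReal_ofReal (by positivity), measureReal_def]
  have h2 : MeasurableSet (GeoB_cone K U a) :=
    (GeoB_meas hK hU).inter (measurableSet_le (GeoB_cont hK).measurable measurable_const)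
  have h3 : GeoB_cone K U a ⊆ GeoB_cone K U b := fun z hz => ⟨hz.1, hz.2.trans hab⟩
  rw [measureReal_sdiff h3 h2 (GeoB_fin hK hU hb), h1 a ha, h1 b hb, sub_mul]

theorem lamK_sing {K : Set (Eu n)} (hK : Body0 K) : lamK K (frontier K \ Reg K) = 0 := by
  obtain ⟨C, hC⟩ := hK.1.2.1.lipschitz_gauge (GeoB_nhds hK)
  rw [GeoB_apply hK (isClosed_frontier.measurableSet.diff (measurableSet_reg K))]
  have h0 : volume {z | ¬ DifferentiableAt ℝ (gauge K) z} = 0 :=
    ae_iff.1 (hC.ae_differentiableAt (μ := volume))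
  refine measure_mono_null (fun z hz => ?_) h0
  intro hd
  refine hz.1.2 ⟨hz.1.1, ?_⟩
  have h1 := (GeoB_front hK).1 hz.1.1
  have h2 : gauge K z ≠ 0 := fun h => by
    rw [GeoB_gauge_pi, h, mul_zero] at h1
    exact zero_ne_one h1
  have h3 : gauge K = fun y => (gauge K z)⁻¹ * gauge K (gauge K z • y) := funext fun y => by
    rw [GeoB_hom K (gauge_nonneg z), inv_mul_cancel_left₀ h2]
  have h4 : gauge K z • GeoB_pi K z = z := smul_inv_smul₀ h2 z
  rw [h3]
  refine DifferentiableAt.const_mul ?_ _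
  exact DifferentiableAt.comp (g := gauge K) (f := fun y => gauge K z • y) (GeoB_pi K z)
    (by rwa [h4]) (by fun_prop)

theorem GeoB_pow (hn : 1 ≤ n) {a b : ℝ} (ha : 1 ≤ a) (hab : a ≤ b) : b - a ≤ b ^ n - a ^ n := by
  induction n, hn using Nat.le_induction with
  | base => simp
  | succ k _ ih =>
    have h1 : 1 ≤ b ^ k := one_le_pow₀ (ha.trans hab)
    have h2 : a ^ k ≤ b ^ k := pow_le_pow_left₀ (by linarith only [ha]) hab k
    rw [pow_succ, pow_succ]
    linarith only [hab, h1, h2, ha, mul_nonneg (sub_nonneg.2 hab) (sub_nonneg.2 h1),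
      mul_nonneg (sub_nonneg.2 h2) (by linarith : 0 ≤ a)]

/-- Volume of a radial shell over a compact part of the boundary. -/
theorem lamK_shell (hn : 1 ≤ n) {K : Set (Eu n)} (hK : Body0 K) {U : Set (Eu n)} (hU : IsCompact U)
    (hUK : U ⊆ frontier K) {t : ℝ} (ht : 0 ≤ t) :
    t / 2 * (lamK K).real U ≤
      volume.real ((fun q : ℝ × Eu n => q.1 • q.2) '' (Icc (1 + t / 2) (1 + t) ×ˢ U)) := by
  have h1 := GeoB_diff hK hU.measurableSet (a := 1 + t / 2) (b := 1 + t) (by linarith only [ht])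
    (by linarith only [ht])
  have h2 := GeoB_pow hn (a := 1 + t / 2) (b := 1 + t) (by linarith only [ht]) (by linarith only [ht])
  refine le_trans (mul_le_mul_of_nonneg_right (by linarith only [h2]) measureReal_nonneg) (h1.ge.trans ?_)
  refine measureReal_mono (fun z hz => ?_)
    ((isCompact_Icc.prod hU).image (continuous_fst.smul continuous_snd)).measure_lt_top.ne
  have h3 : 1 + t / 2 < gauge K z := lt_of_not_ge fun h => hz.2 ⟨hz.1.1, h⟩
  exact ⟨(gauge K z, GeoB_pi K z), ⟨⟨h3.le, hz.1.2⟩, hz.1.1⟩, smul_inv_smul₀ (by linarith only [ht, h3]) z⟩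

theorem GeoB_ball {K : Set (Eu n)} (hK : Body0 K) {ρ R θ r : ℝ} (hρ : 0 < ρ) (hθ : 0 < θ)
    (hθ' : θ * (ρ + |R|) = ρ / 4) (h1 : closedBall 0 ρ ⊆ K) (h2 : K ⊆ closedBall 0 R)
    {x : Eu n} (hx : x ∈ frontier K) (hr : 0 < r) (hs : θ * r / ρ ≤ 1 / 4) :
    closedBall x (θ * r) ⊆ GeoB_cone K (closedBall x r ∩ frontier K) (1 + θ * r / ρ) \
      GeoB_cone K (closedBall x r ∩ frontier K) (1 - 2 * (θ * r / ρ)) := by
  intro z hz
  have hs0 : 0 < θ * r / ρ := by positivity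
  have hx1 := (GeoB_front hK).1 hx
  have hxR : ‖x‖ ≤ |R| :=
    (mem_closedBall_zero_iff.1 (h2 ((GeoB_mem hK).2 hx1.le))).trans (le_abs_self R)
  have hzx : ‖z - x‖ ≤ θ * r := mem_closedBall_iff_norm.1 hz
  have h3 : |gauge K z - 1| ≤ θ * r / ρ := by
    have h4 := (hK.1.2.1.lipschitzWith_gauge (r := ⟨ρ, hρ.le⟩) hρ
      (ball_subset_closedBall.trans h1)).dist_le_mul z x
    rw [Real.dist_eq, hx1, dist_eq_norm] at h4
    refine h4.trans ?_
    rw [div_eq_inv_mul]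
    exact mul_le_mul_of_nonneg_left hzx (inv_pos.2 hρ).le
  obtain ⟨h4, h5⟩ := abs_le.1 h3
  have hg : 0 < gauge K z := by linarith only [hs, hs0, h4]
  refine ⟨⟨⟨?_, ?_⟩, by linarith only [h5]⟩, fun h => ?_⟩
  · have h6 : GeoB_pi K z - x = (gauge K z)⁻¹ • ((z - x) + (1 - gauge K z) • x) := by
      rw [GeoB_pi, smul_add, smul_sub, smul_smul, mul_sub, inv_mul_cancel₀ hg.ne', mul_one,
        sub_smul, one_smul]
      abel
    rw [mem_closedBall_iff_norm, h6, norm_smul, Real.norm_of_nonneg (inv_pos.2 hg).le,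
      inv_mul_le_iff₀ hg]
    refine (norm_add_le _ _).trans ?_
    rw [norm_smul, Real.norm_eq_abs, abs_sub_comm]
    have h7 : |gauge K z - 1| * ‖x‖ ≤ θ * r / ρ * |R| :=
      mul_le_mul h3 hxR (norm_nonneg _) hs0.le
    have h8 : θ * r + θ * r / ρ * |R| = r / 4 := by
      have h9 : θ * r + θ * r / ρ * |R| = θ * (ρ + |R|) * r / ρ := by field_simp
      rw [h9, hθ']
      field_simp
    linarith only [hzx, h7, h8, hr, hs, hs0, h4, mul_nonneg_of_nonpos_of_nonpos (le_of_lt (Mathlib.Tactic.Linarith.sub_neg_of_lt hr)) (Mathlib.Tactic.Linarith.sub_nonpos_of_le hs), mul_pos_of_neg_of_neg (Mathlib.Tactic.Linarith.sub_neg_of_lt hr) (Mathlib.Tactic.Linarith.sub_neg_of_lt hs0), mul_nonneg_of_nonpos_of_nonpos (le_of_lt (Mathlib.Tactic.Linarith.sub_neg_of_lt hr)) (Mathlib.Tactic.Linarith.sub_nonpos_of_le h4)]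
  · rw [GeoB_front hK, GeoB_gauge_pi, inv_mul_cancel₀ hg.ne']
  · have := h.2
    linarith only [hs0, h4, this]

theorem lamK_ball (hn : 1 ≤ n) {ρ R : ℝ} (hρ : 0 < ρ) : ∃ c : ℝ, 0 < c ∧ ∀ (K : Set (Eu n)),
    Body0 K → closedBall 0 ρ ⊆ K → K ⊆ closedBall 0 R → ∀ x ∈ frontier K, ∀ r : ℝ, 0 < r → r ≤ ρ →
      c * r ^ (n - 1) ≤ (lamK K).real (closedBall x r ∩ frontier K) := by
  obtain ⟨θ, hθ, hθ'⟩ : ∃ θ : ℝ, 0 < θ ∧ θ * (ρ + |R|) = ρ / 4 :=
    ⟨ρ / 4 / (ρ + |R|), by positivity, div_mul_cancel₀ _ (by positivity)⟩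
  have hθ4 : θ ≤ 1 / 4 := by (refine le_of_not_gt fun h_nl => ?_; linarith only [h_nl, hθ', hθ, hρ, mul_nonneg hθ.le (abs_nonneg R), mul_pos_of_neg_of_neg (Mathlib.Tactic.Linarith.sub_neg_of_lt hρ) (Mathlib.Tactic.Linarith.sub_neg_of_lt h_nl)])
  have hω : 0 < volume.real (ball (0 : Eu n) 1) :=
    ENNReal.toReal_pos (measure_ball_pos _ _ one_pos).ne' measure_ball_lt_top.ne
  have hn0 : (0 : ℝ) < n := by exact_mod_cast hn
  refine ⟨θ ^ n * volume.real (ball (0 : Eu n) 1) * ρ / (3 * θ * n * 2 ^ (n - 1)), by positivity,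
    fun K hK h1 h2 x hx r hr hrρ => ?_⟩
  have hs0 : 0 < θ * r / ρ := by positivity
  have hs : θ * r / ρ ≤ 1 / 4 := by
    rw [div_le_iff₀ hρ]
    linarith only [hρ, hθ4, hθ, hrρ, mul_nonneg_of_nonpos_of_nonpos (le_of_lt (Mathlib.Tactic.Linarith.sub_neg_of_lt hρ)) (Mathlib.Tactic.Linarith.sub_nonpos_of_le hθ4), mul_nonneg_of_nonpos_of_nonpos (le_of_lt (Mathlib.Tactic.Linarith.sub_neg_of_lt hθ)) (Mathlib.Tactic.Linarith.sub_nonpos_of_le hrρ)]
  have hU : MeasurableSet (closedBall x r ∩ frontier K) :=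
    measurableSet_closedBall.inter isClosed_frontier.measurableSet
  have h3 := measureReal_mono (μ := volume) (GeoB_ball hK hρ hθ hθ' h1 h2 hx hr hs)
    (ne_top_of_le_ne_top (GeoB_fin hK hU (by linarith only [hθ, hθ4, hs0])) (measure_mono sdiff_subset))
  rw [GeoB_diff hK hU (by linarith only [hθ, hθ4, hs]) (by linarith only [hs0]),
    Measure.addHaar_real_closedBall _ _ (by positivity), finrank_euclideanSpace_fin] at h3
  have h4 : (1 + θ * r / ρ) ^ n - (1 - 2 * (θ * r / ρ)) ^ n ≤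
      3 * (θ * r / ρ) * n * 2 ^ (n - 1) := by
    refine (le_abs_self _).trans ((abs_pow_sub_pow_le _ _ _).trans ?_)
    rw [abs_of_pos (by linarith only [hs0] : 0 < 1 + θ * r / ρ - (1 - 2 * (θ * r / ρ))),
      abs_of_pos (by linarith only [hθ, hθ4, hs0] : 0 < 1 + θ * r / ρ),
      abs_of_pos (by linarith only [hθ, hθ4, hs] : 0 < 1 - 2 * (θ * r / ρ)), max_eq_left (by linarith only [hs0])]
    refine mul_le_mul (le_of_eq (by ring)) (pow_le_pow_left₀ (by linarith only [hθ, hθ4, hs0]) (by linarith only [hθ, hθ4, hs]) _)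
      (by positivity) (by positivity)
  have h5 := h3.trans (mul_le_mul_of_nonneg_right h4 measureReal_nonneg)
  obtain ⟨k, rfl⟩ := Nat.exists_eq_add_of_le' hn
  rw [Nat.add_sub_cancel] at h5 ⊢
  rw [div_mul_eq_mul_div, div_le_iff₀ (by positivity)]
  have h6 := mul_le_mul_of_nonneg_right h5 (div_pos hρ hr).le
  refine le_trans (le_of_eq ?_) (h6.trans (le_of_eq ?_))
  · field_simp
    ring
  · field_simp

end Pool.Agent.Work.MP_f7e2e5_gt
end
end

-- merged part: Pool.Agent.Work.MP_f7e2e5_gt.Geo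
section
open MeasureTheory Set Metric Filter Topology
open scoped RealInnerProductSpace Pointwise ContDiff NNReal

noncomputable section

namespace Pool.Agent.Work.MP_f7e2e5_gt

variable {n : ℕ} {p : ℝ}

/-- The penalised envelope. -/
def geoEnv (Γ : Set (Eu n × Eu n)) (F : Eu n × Eu n → ℝ) (k : ℕ) (y : Eu n) : ℝ :=
  sSup ((fun q : Γ => F q - k * dist y q.1.1) '' univ)

lemma geoEnv_cont {Γ : Set (Eu n × Eu n)} (hΓ : IsCompact Γ) {F : Eu n × Eu n → ℝ}
    (hF : ContinuousOn F Γ) (k : ℕ) : Continuous (geoEnv Γ F k) := by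
  have : CompactSpace Γ := isCompact_iff_compactSpace.1 hΓ
  have h1 : Continuous fun q : Γ => F q := hF.domRestrict
  exact isCompact_univ.continuous_sSup (f := fun (y : Eu n) (q : Γ) => F q - k * dist y q.1.1)
    ((h1.comp continuous_snd).sub (by fun_prop : Continuous fun z : Eu n × Γ =>
      (k : ℝ) * dist z.1 z.2.1.1))

lemma geoEnv_le {Γ : Set (Eu n × Eu n)} (hne : Γ.Nonempty) {F : Eu n × Eu n → ℝ} {k : ℕ}
    {y : Eu n} {c : ℝ} (h : ∀ q ∈ Γ, F q - k * dist y q.1 ≤ c) : geoEnv Γ F k y ≤ c := by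
  have := hne.to_subtype
  refine csSup_le (univ_nonempty.image _) ?_
  rintro _ ⟨q, -, rfl⟩
  exact h q q.2

lemma le_geoEnv {Γ : Set (Eu n × Eu n)} {F : Eu n × Eu n → ℝ} {M : ℝ} (hM : ∀ q ∈ Γ, |F q| ≤ M)
    (k : ℕ) {q : Eu n × Eu n} (hq : q ∈ Γ) : F q ≤ geoEnv Γ F k q.1 := by
  refine le_csSup_of_le ⟨M, ?_⟩ ⟨⟨q, hq⟩, mem_univ _, rfl⟩ (by simp)
  rintro _ ⟨z, -, rfl⟩
  have h1 : 0 ≤ (k : ℝ) * dist q.1 z.1.1 := by positivity
  have h2 := (abs_le.1 (hM z z.2)).2
  dsimp only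
  linarith

lemma geoEnv_tendsto {Γ : Set (Eu n × Eu n)} (hΓ : IsCompact Γ) {F : Eu n × Eu n → ℝ}
    (hF : ContinuousOn F Γ) {M : ℝ} (hM : ∀ q ∈ Γ, |F q| ≤ M) {y a : Eu n} (ha : (y, a) ∈ Γ)
    (hu : ∀ ξ, (y, ξ) ∈ Γ → ξ = a) :
    Tendsto (fun k => geoEnv Γ F k y) atTop (𝓝 (F (y, a))) := by
  refine tendsto_order.2 ⟨fun c hc => Eventually.of_forall fun k =>
    hc.trans_le (le_geoEnv hM k ha), fun c hc => ?_⟩
  obtain ⟨c', h1, h2⟩ := exists_between hc
  have hA : IsCompact (Γ ∩ F ⁻¹' Ici c') :=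
    hΓ.of_isClosed_subset (hF.preimage_isClosed_of_isClosed hΓ.isClosed isClosed_Ici)
      inter_subset_left
  obtain ⟨δ, hδ, hd⟩ : ∃ δ > 0, ∀ q ∈ Γ ∩ F ⁻¹' Ici c', δ ≤ dist y q.1 := by
    rcases (Γ ∩ F ⁻¹' Ici c').eq_empty_or_nonempty with he | hne
    · exact ⟨1, one_pos, by simp [he]⟩
    · obtain ⟨q, hq, hmin⟩ := hA.exists_isMinOn hne (f := fun q => dist y q.1) (by fun_prop)
      refine ⟨dist y q.1, dist_pos.2 ?_, fun z hz => hmin hz⟩
      rintro rfl
      have e : q.2 = a := hu q.2 hq.1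
      have h3 : c' ≤ F q := hq.2
      rw [← e] at h1
      exact absurd h1 (not_lt.2 h3)
  filter_upwards [(tendsto_natCast_atTop_atTop (R := ℝ)).eventually_ge_atTop ((M - c') / δ)]
    with k hk
  refine lt_of_le_of_lt (geoEnv_le ⟨_, ha⟩ fun q hq => ?_) h2
  have h3 : 0 ≤ (k : ℝ) * dist y q.1 := by positivity
  rcases le_total (F q) c' with h4 | h4
  · linarith only [h3, h4]
  · have h5 := mul_le_mul_of_nonneg_left (hd q ⟨hq, h4⟩) (Nat.cast_nonneg (α := ℝ) k)
    have h6 := (abs_le.1 (hM q hq)).2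
    rw [div_le_iff₀ hδ] at hk
    linarith

/-- Smooth approximation from above of an upper envelope. -/
theorem envelope {Γ : Set (Eu n × Eu n)} (hΓ : IsCompact Γ) {F : Eu n × Eu n → ℝ}
    (hF : ContinuousOn F Γ) (τ : Measure (Eu n)) [IsFiniteMeasure τ] {α : Eu n → Eu n}
    (hα : ∀ᵐ y ∂τ, (y, α y) ∈ Γ ∧ ∀ ξ, (y, ξ) ∈ Γ → ξ = α y)
    (hint : Integrable (fun y => F (y, α y)) τ) {ε : ℝ} (hε : 0 < ε) :
    ∃ ψ : Eu n → ℝ, ContDiff ℝ 1 ψ ∧ HasCompactSupport ψ ∧ (∀ q ∈ Γ, F q < ψ q.1) ∧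
      ∫ y, ψ y ∂τ ≤ ∫ y, F (y, α y) ∂τ + ε := by
  obtain ⟨M, hM⟩ : ∃ M, ∀ q ∈ Γ, |F q| ≤ M := hΓ.exists_bound_of_continuousOn hF
  have hb : ∀ k, ∀ᵐ y ∂τ, ‖geoEnv Γ F k y‖ ≤ M := fun k => by
    filter_upwards [hα] with y hy
    refine abs_le.2 ⟨(abs_le.1 (hM _ hy.1)).1.trans (le_geoEnv hM k hy.1),
      geoEnv_le ⟨_, hy.1⟩ fun q hq => ?_⟩
    have h1 : 0 ≤ (k : ℝ) * dist y q.1 := by positivity
    linarith [(abs_le.1 (hM q hq)).2]
  have hlim : Tendsto (fun k => ∫ y, geoEnv Γ F k y ∂τ) atTop (𝓝 (∫ y, F (y, α y) ∂τ)) := by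
    refine tendsto_integral_of_dominated_convergence (fun _ => M)
      (fun k => (geoEnv_cont hΓ hF k).aestronglyMeasurable) (integrable_const M) hb ?_
    filter_upwards [hα] with y hy
    exact geoEnv_tendsto hΓ hF hM hy.1 hy.2
  obtain ⟨k, hk⟩ := (hlim.eventually (gt_mem_nhds (show ∫ y, F (y, α y) ∂τ <
    ∫ y, F (y, α y) ∂τ + ε / 2 by linarith only [hε]))).exists
  have hm : 0 ≤ τ.real univ := measureReal_nonneg
  set η : ℝ := ε / (4 * (τ.real univ + 1)) with hη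
  have hη0 : 0 < η := by positivity
  obtain ⟨g, hg, hgd, -⟩ := Continuous.exists_contDiff_approx 1
    ((geoEnv_cont hΓ hF k).add (continuous_const (y := η))) (continuous_const (y := η))
    fun _ => hη0
  obtain ⟨R, hR⟩ := (hΓ.image continuous_fst).isBounded.subset_closedBall_lt 0 0
  let b : ContDiffBump (0 : Eu n) := ⟨R, R + 1, hR.1, by linarith only []⟩
  have hb1 : ∀ q ∈ Γ, b q.1 = 1 := fun q hq => b.one_of_mem_closedBall (hR.2 ⟨q, hq, rfl⟩)
  have hc : HasCompactSupport fun y => b y * g y := b.hasCompactSupport.mul_right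
  have hd : ContDiff ℝ 1 fun y => b y * g y := b.contDiff.mul hg
  refine ⟨fun y => b y * g y, hd, hc, fun q hq => ?_, ?_⟩
  · have h1 := le_geoEnv hM k hq
    have h2 := (abs_lt.1 (hgd q.1)).1
    dsimp only
    rw [hb1 q hq]
    simp only [Pi.add_apply] at h2
    linarith only [h1, h2]
  · have hi : Integrable (geoEnv Γ F k) τ :=
      (integrable_const M).mono' (geoEnv_cont hΓ hF k).aestronglyMeasurable (hb k)
    have h1 : ∫ y, b y * g y ∂τ ≤ ∫ y, (geoEnv Γ F k y + 2 * η) ∂τ := by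
      refine integral_mono_ae (hd.continuous.integrable_of_hasCompactSupport hc)
        (hi.add (integrable_const _)) ?_
      filter_upwards [hα] with y hy
      have h2 := (abs_lt.1 (hgd y)).2
      rw [show b y = 1 from hb1 _ hy.1]
      simp only [Pi.add_apply] at h2
      linarith only [h2]
    rw [integral_add hi (integrable_const _), integral_const, smul_eq_mul] at h1
    have h2 : τ.real univ * (2 * η) ≤ ε / 2 := by
      rw [hη, ← mul_div_assoc, ← mul_div_assoc, div_le_div_iff₀ (by positivity) two_pos]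
      linarith only [hε]
    linarith only [hk, h1, h2]

/-- Scaled bump functions. -/
theorem exists_bump : ∃ C : ℝ, 0 < C ∧ ∀ (x : Eu n) (r : ℝ), 0 < r → ∃ ψ : Eu n → ℝ,
    ContDiff ℝ 1 ψ ∧ HasCompactSupport ψ ∧ (∀ y, 0 ≤ ψ y ∧ ψ y ≤ 1) ∧
      (∀ y ∈ closedBall x r, ψ y = 1) ∧ tsupport ψ ⊆ ball x (2 * r) ∧
      ∀ y, ‖fderiv ℝ ψ y‖ ≤ C / r := by
  let b : ContDiffBump (0 : Eu n) := ⟨1, 3 / 2, one_pos, by norm_num⟩
  have hb : ContDiff ℝ 1 b := b.contDiff
  obtain ⟨C, hC⟩ := (b.hasCompactSupport.fderiv ℝ).exists_bound_of_continuous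
    (hb.continuous_fderiv one_ne_zero)
  refine ⟨|C| + 1, by positivity, fun x r hr => ?_⟩
  have hn : ∀ y : Eu n, dist (r⁻¹ • (y - x)) 0 = dist y x / r := fun y => by
    rw [dist_zero_right, norm_smul, Real.norm_eq_abs, abs_of_pos (inv_pos.2 hr), dist_eq_norm,
      inv_mul_eq_div]
  have hs : tsupport (fun y => b (r⁻¹ • (y - x))) ⊆ closedBall x (3 / 2 * r) := by
    refine closure_minimal (fun y hy => ?_) isClosed_closedBall
    have h1 : r⁻¹ • (y - x) ∈ ball (0 : Eu n) (3 / 2) := by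
      rw [show ball (0 : Eu n) (3 / 2) = Function.support b from b.support_eq.symm]
      exact hy
    rw [mem_ball, hn, div_lt_iff₀ hr] at h1
    exact h1.le
  refine ⟨fun y => b (r⁻¹ • (y - x)), hb.comp (by fun_prop),
    (isCompact_closedBall x _).of_isClosed_subset (isClosed_tsupport _) hs,
    fun y => ⟨b.nonneg, b.le_one⟩, fun y hy => b.one_of_mem_closedBall ?_,
    hs.trans (closedBall_subset_ball (by linarith only [hr])), fun y => ?_⟩
  · rw [mem_closedBall, hn, div_le_iff₀ hr]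
    simpa [b] using hy
  · have h1 : HasFDerivAt (fun y : Eu n => r⁻¹ • (y - x))
        (r⁻¹ • ContinuousLinearMap.id ℝ (Eu n)) y := ((hasFDerivAt_id y).sub_const x).const_smul r⁻¹
    have h2 := ((hb.differentiable one_ne_zero (r⁻¹ • (y - x))).hasFDerivAt.comp y h1).fderiv
    refine (congrArg norm h2).le.trans ((ContinuousLinearMap.opNorm_comp_le _ _).trans ?_)
    have h3 : ‖r⁻¹ • ContinuousLinearMap.id ℝ (Eu n)‖ ≤ r⁻¹ := by
      rw [norm_smul, Real.norm_eq_abs, abs_of_pos (inv_pos.2 hr)]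
      exact mul_le_of_le_one_right (inv_pos.2 hr).le ContinuousLinearMap.norm_id_le
    rw [div_eq_mul_inv]
    exact mul_le_mul ((hC _).trans (by linarith only [le_abs_self C])) h3 (norm_nonneg _)
      (by positivity)

end Pool.Agent.Work.MP_f7e2e5_gt
end
end
end
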