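import Pool.Agent.Work.MP_f7e2e5_gt.Pot2
import Pool.Agent.Work.MP_f7e2e5_gt.Supp
import Pool.Agent.Work.MP_f7e2e5_gt.Frame2

-- merged part: Pool.Agent.Work.MP_f7e2e5_gt.SlitA
section
open MeasureTheory Set Metric Filter Topology
open scoped RealInnerProductSpace Pointwise ContDiff NNReal

noncomputable section

namespace Pool.Agent.Work.MP_f7e2e5_gt

variable {p : ℝ}

/-- The point with coordinates `a`, `b` in the frame at `A`. -/
def slitAPt (A e f : Eu 2) (a b : ℝ) : Eu 2 := A + a • e + b • f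

theorem slitA_e {e f : Eu 2} (h : Fr e f) (A : Eu 2) (a b : ℝ) :
    ⟪slitAPt A e f a b - A, e⟫ = a := by
  have h1 : slitAPt A e f a b - A = a • e + b • f := by rw [slitAPt]; abel
  rw [h1, inner_add_left, real_inner_smul_left, real_inner_smul_left, real_inner_self_eq_norm_sq,
    h.1, real_inner_comm, h.2.2]
  ring

theorem slitA_f {e f : Eu 2} (h : Fr e f) (A : Eu 2) (a b : ℝ) :
    ⟪slitAPt A e f a b - A, f⟫ = b := by
  have h1 : slitAPt A e f a b - A = a • e + b • f := by rw [slitAPt]; abel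
  rw [h1, inner_add_left, real_inner_smul_left, real_inner_smul_left, real_inner_self_eq_norm_sq,
    h.2.1, h.2.2]
  ring

theorem slitA_eq {e f : Eu 2} (h : Fr e f) (A z : Eu 2) :
    z = slitAPt A e f ⟪z - A, e⟫ ⟪z - A, f⟫ := by
  rw [slitAPt, add_assoc, ← h.decomp (z - A)]
  abel

theorem slitA_abs {v : Eu 2} (hv : ‖v‖ = 1) (A : Eu 2) {c z : Eu 2} {ρ : ℝ} (hz : z ∈ ball c ρ) :
    |⟪z - A, v⟫ - ⟪c - A, v⟫| < ρ := by
  rw [← inner_sub_left, sub_sub_sub_cancel_right]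
  refine (abs_real_inner_le_norm _ _).trans_lt ?_
  rw [hv, mul_one, ← dist_eq_norm]
  exact hz

/-- Moving forward and then upward increases the potential. -/
theorem slitA_mono (hp : 1 < p) {T : Set (Eu 2)} {e f A : Eu 2} {l : ℝ} (h : Fr e f)
    (hT : IsBody T) (hM : A - l • e ∈ T) (hs : ∀ z ∈ T, z - (2 * ⟪z - A, f⟫) • f ∈ T)
    {x s x' s' : ℝ} (h0 : 0 < x + l) (h1 : x ≤ x') (h2 : x' - x ≤ x + l) (h3 : 2 * |s| < s') :
    pot p T (slitAPt A e f x s) ≤ pot p T (slitAPt A e f x' s') := by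
  obtain ⟨t, ht⟩ : ∃ t : ℝ, t = (x' + l) / (x + l) := ⟨_, rfl⟩
  have t1 : 1 ≤ t := by rw [ht, le_div_iff₀ h0]; linarith only [h1]
  have t2 : t ≤ 2 := by rw [ht, div_le_iff₀ h0]; linarith
  have t3 : t * (x + l) = x' + l := by rw [ht, div_mul_cancel₀ _ h0.ne']
  have a1 := pot_ray hp hT hM t1 (slitAPt A e f x s)
  have e1 : A - l • e + t • (slitAPt A e f x s - (A - l • e)) = slitAPt A e f x' (t * s) := by
    rw [show x' = t * (x + l) - l by linarith only [t3], slitAPt, slitAPt]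
    module
  rw [e1] at a1
  refine a1.trans ?_
  have b1 : |t * s| < s' := by
    rw [abs_mul, abs_of_pos (by linarith only [t1] : 0 < t)]
    exact (mul_le_mul_of_nonneg_right t2 (abs_nonneg s)).trans_lt h3
  obtain ⟨b2, b3⟩ := abs_lt.1 b1
  have e2 : ⟪slitAPt A e f x' s', f⟫ = ⟪A, f⟫ + s' := by
    have := slitA_f h A x' s'
    rw [inner_sub_left] at this
    linarith only [this]
  have a2 := pot_reflect hp hT h.2.1 (⟪A, f⟫ + (s' + t * s) / 2) (fun y hy hy' => ?_)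
    (z := slitAPt A e f x' s') (by rw [e2]; linarith only [b3])
  · have e3 : slitAPt A e f x' s' - (2 * (⟪slitAPt A e f x' s', f⟫ -
        (⟪A, f⟫ + (s' + t * s) / 2))) • f = slitAPt A e f x' (t * s) := by
      rw [e2, slitAPt, slitAPt]
      module
    rwa [e3] at a2
  · obtain ⟨σ, hσ⟩ : ∃ σ : ℝ, σ = (s' + t * s) / 2 := ⟨_, rfl⟩
    obtain ⟨b, hb⟩ : ∃ b : ℝ, b = ⟪y - A, f⟫ := ⟨_, rfl⟩
    have c1 : 0 < σ := by linarith only [b2, hσ]
    have c2 : ⟪y, f⟫ = ⟪A, f⟫ + b := by rw [hb, inner_sub_left]; ring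
    have c3 : σ < b := by linarith only [hy', hσ, c2]
    have c4 : 0 < b := c1.trans c3
    have c5 := hT.2.1 hy (hs y hy) (show 0 ≤ σ / b by positivity)
      (sub_nonneg.2 ((div_le_one c4).2 c3.le)) (by ring)
    rw [← hb] at c5
    have c6 : y - (2 * (⟪y, f⟫ - (⟪A, f⟫ + (s' + t * s) / 2))) • f =
        (σ / b) • y + (1 - σ / b) • (y - (2 * b) • f) := by
      rw [c2, ← hσ, show 2 * (⟪A, f⟫ + b - (⟪A, f⟫ + σ)) = (1 - σ / b) * (2 * b) by
        field_simp; ring]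
      module
    rwa [c6]

/-- Carleson estimate in front of the tip of a thin symmetric body. -/
theorem carleson (hp : 1 < p) (hp2 : p < 2) : ∃ θ : ℝ, 0 < θ ∧
    ∀ (T : Set (Eu 2)) (e f A : Eu 2) (l r : ℝ), Fr e f → IsBody T → A - l • e ∈ T →
      (∀ z ∈ T, z - (2 * ⟪z - A, f⟫) • f ∈ T) → (∀ z ∈ T, ⟪z - A, e⟫ ≤ r) → 1 / 2 ≤ l →
      0 < r → r ≤ 1 / 200 → ∀ z ∈ ball A (32 * r), ∀ z' ∈ ball (A + (6 * r) • e) r,
        θ * pot p T z ≤ pot p T z' := by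
  obtain ⟨θ, hθ, hc⟩ := harnack_chain (n := 2) hp (by exact_mod_cast hp2) 94
  refine ⟨θ, hθ, fun T e f A l r h hT hM hs hx hl hr hr' z hz => ?_⟩
  have e0 : A + (6 * r) • e = slitAPt A e f (6 * r) 0 := by rw [slitAPt, zero_smul, add_zero]
  rw [e0]
  refine hc T (slitAPt A e f (34 * r) (66 * r)) _ r _ hT hr ((isPot_pot hp hT).nonneg z) ?_ ?_ ?_
  · rw [dist_eq_norm, show slitAPt A e f (34 * r) (66 * r) - slitAPt A e f (6 * r) 0 =
      (28 * r) • e + (66 * r) • f by rw [slitAPt, slitAPt]; module]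
    refine (norm_add_le _ _).trans ?_
    rw [norm_smul, norm_smul, h.1, h.2.1, Real.norm_of_nonneg (by positivity),
      Real.norm_of_nonneg (by positivity)]
    push_cast
    linarith only []
  · rintro w ⟨a, b, ha, hb, hab, rfl⟩
    refine Set.disjoint_left.2 fun y hy hy' => ?_
    have a1 := abs_lt.1 (slitA_abs h.1 A hy')
    have a2 : a • slitAPt A e f (34 * r) (66 * r) + b • slitAPt A e f (6 * r) 0 =
        slitAPt A e f (6 * r + a * (28 * r)) (a * (66 * r)) := by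
      rw [show b = 1 - a by linarith only [hab], slitAPt, slitAPt, slitAPt]
      module
    rw [a2, slitA_e h] at a1
    have a3 := hx y hy
    have a4 : 0 ≤ a * (28 * r) := by positivity
    linarith only [hr, a1, a3, a4, a1.1]
  · intro y hy
    have a1 := abs_lt.1 (slitA_abs h.1 A hy)
    have a2 := abs_lt.1 (slitA_abs h.2.1 A hy)
    have a3 := abs_lt.1 (slitA_abs h.1 A hz)
    have a4 := slitA_abs h.2.1 A hz
    rw [slitA_e h] at a1
    rw [slitA_f h] at a2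
    rw [sub_self, inner_zero_left, sub_zero] at a3 a4
    rw [slitA_eq h A z, slitA_eq h A y]
    exact slitA_mono hp h hT hM hs (by linarith only [hl, hr, hr', a3, a3.1]) (by linarith only [hr, a1, a3, a1.1, a3.2])
      (by linarith only [hl, hr, hr', a1, a3, a1.2, a3.1]) (by linarith only [hr, a2, a4, a2.1])

theorem slitA_path (hp : 1 < p) {g : Eu 2 → ℝ} (hg : Lip0 g) (A0 : Eu 2 →L[ℝ] Eu 2)
    (hd : ∀ s ∈ Ioo (0 : ℝ) 1, s ≤ |((1 - s) • A0 + s • (1 : Eu 2 →L[ℝ] Eu 2)).det|)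
    (b0 b1 A : Eu 2) {r κ : ℝ} (hr : 0 < r) (hκ : 0 ≤ κ) {Q : Set (Eu 2)} (hQ : MeasurableSet Q)
    (hQb : Bornology.IsBounded Q) (hM : ∀ z ∈ Q, ‖(z + b1) - (A0 z + b0)‖ ≤ 7 * r)
    (h0 : ∀ z ∈ Q, A0 z + b0 ∈ ball A (8 * r)) (h1 : ∀ z ∈ Q, z + b1 ∈ ball A (8 * r)) :
    κ ^ p * volume.real (Q ∩ {z | κ ≤ |g (z + b1) - g (A0 z + b0)|}) ≤
      (7 * r * ∫ s in Ioo (0 : ℝ) 1, s ^ (-1 / p)) ^ p * en p g (ball A (8 * r)) := by
  have hc := hg.lip.continuous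
  have hp0 : p ≠ 0 := by linarith
  refine path_lower hp hg A0 1 b0 b1
    (hQ.inter (isClosed_le continuous_const (by fun_prop)).measurableSet)
    (hQb.subset inter_subset_left) measurableSet_ball (by positivity)
    (integrableOn_weight hp hp) (fun s hs => Real.rpow_pos_of_pos hs.1 _) (fun s hs => ?_)
    (fun z hz => hM z hz.1) (fun s hs z hz => ?_) hκ fun z hz => hz.2
  · rw [← Real.rpow_mul hs.1.le, div_mul_cancel₀ _ hp0, Real.rpow_neg_one,
      ← div_eq_inv_mul, le_div_iff₀ hs.1, one_mul]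
    exact hd s hs
  · exact convex_ball A (8 * r) (h0 z hz.1) (h1 z hz.1) (by linarith [hs.2]) hs.1.le (by ring)

theorem slitA_det {e : Eu 2} (he : ‖e‖ = 1) (s : ℝ) :
    ((1 - s) • (ℝ ∙ e).starProjection + s • (1 : Eu 2 →L[ℝ] Eu 2)).det = s := by
  have h0 : e ≠ 0 := fun h => by simp [h] at he
  have := det_proj (ℝ ∙ e) 1 s
  rw [finrank_span_singleton h0, Submodule.starProjection_orthogonal'] at this
  rw [show (1 - s) • (ℝ ∙ e).starProjection + s • (1 : Eu 2 →L[ℝ] Eu 2) =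
    (1 : ℝ) • (ℝ ∙ e).starProjection + s • (1 - (ℝ ∙ e).starProjection) by module, this]
  norm_num

/-- Two collinear segments form a condenser of positive capacity. -/
theorem condenser (hp : 1 < p) : ∃ c : ℝ, 0 < c ∧
    ∀ (e f A : Eu 2) (r m : ℝ) (g : Eu 2 → ℝ), Fr e f → Lip0 g → 0 < r → 0 ≤ m →
      (∀ x ∈ Icc (-r) 0, g (A + x • e) = 0) → (∀ x ∈ Icc (6 * r) (7 * r), m ≤ g (A + x • e)) →
      c * m ^ p * r ^ (2 - p) ≤ en p g (ball A (8 * r)) := by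
  obtain ⟨I, hI⟩ : ∃ I : ℝ, I = ∫ s in Ioo (0 : ℝ) 1, s ^ (-1 / p) := ⟨_, rfl⟩
  have hI0 : 0 ≤ I := hI ▸ setIntegral_nonneg measurableSet_Ioo fun s hs =>
    Real.rpow_nonneg hs.1.le _
  obtain ⟨K, hK⟩ : ∃ K : ℝ, K = (7 * I) ^ p + 1 := ⟨_, rfl⟩
  have hK0 : 0 < K := by rw [hK]; positivity
  refine ⟨Real.pi / 4 / (3 ^ p * (3 * K)), by positivity,
    fun e f A r m g h hg hr hm g0 g1 => ?_⟩
  obtain ⟨P, hP⟩ : ∃ P : Eu 2 →L[ℝ] Eu 2, P = (ℝ ∙ e).starProjection := ⟨_, rfl⟩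
  have hPz : ∀ (z : Eu 2) (a : ℝ), P z + (A - P A + a • e) = A + (⟪z - A, e⟫ + a) • e := by
    intro z a
    rw [hP, Submodule.starProjection_unit_singleton ℝ h.1,
      Submodule.starProjection_unit_singleton ℝ h.1, inner_sub_left, real_inner_comm z,
      real_inner_comm A]
    module
  have hd : ∀ s ∈ Ioo (0 : ℝ) 1, s ≤ |((1 - s) • P + s • (1 : Eu 2 →L[ℝ] Eu 2)).det| :=
    fun s hs => by rw [hP, slitA_det h.1]; exact le_abs_self s
  have hd1 : ∀ s ∈ Ioo (0 : ℝ) 1,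
      s ≤ |((1 - s) • (1 : Eu 2 →L[ℝ] Eu 2) + s • (1 : Eu 2 →L[ℝ] Eu 2)).det| := fun s hs => by
    rw [show (1 - s) • (1 : Eu 2 →L[ℝ] Eu 2) + s • (1 : Eu 2 →L[ℝ] Eu 2) = 1 by module,
      show (1 : Eu 2 →L[ℝ] Eu 2).det = 1 from LinearMap.det_id, abs_one]
    exact hs.2.le
  obtain ⟨Q, hQ⟩ : ∃ Q : Set (Eu 2), Q = ball (A + (-(r / 2)) • e) (r / 2) := ⟨_, rfl⟩
  have hQm : MeasurableSet Q := hQ ▸ measurableSet_ball
  have hQb : Bornology.IsBounded Q := hQ ▸ isBounded_ball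
  have ne : ∀ a : ℝ, ‖a • e‖ = |a| := fun a => by rw [norm_smul, h.1, mul_one, Real.norm_eq_abs]
  have q1 : ∀ z ∈ Q, -r < ⟪z - A, e⟫ ∧ ⟪z - A, e⟫ < 0 := fun z hz => by
    have := abs_lt.1 (slitA_abs h.1 A (hQ ▸ hz))
    rw [add_sub_cancel_left, real_inner_smul_left, real_inner_self_eq_norm_sq, h.1] at this
    constructor <;> linarith only [this, this.1, this.2]
  have q2 : ∀ z ∈ Q, ‖z - A‖ < r := fun z hz => by
    rw [hQ, mem_ball, dist_eq_norm] at hz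
    have := norm_add_le (z - (A + (-(r / 2)) • e)) ((-(r / 2)) • e)
    rw [ne, abs_neg, abs_of_pos (by positivity), show z - (A + (-(r / 2)) • e) + (-(r / 2)) • e =
      z - A by abel] at this
    linarith only [hz, this]
  have q3 : ∀ a : ℝ, |a| ≤ 7 * r → ∀ z ∈ Q, z + a • e ∈ ball A (8 * r) := fun a ha z hz => by
    rw [mem_ball, dist_eq_norm, show z + a • e - A = z - A + a • e by abel]
    have := norm_add_le (z - A) (a • e)
    rw [ne] at this
    linarith only [ha, this, q2, hz, q2 z hz]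
  have q4 : ∀ a : ℝ, |a| ≤ 7 * r → ∀ z ∈ Q, P z + (A - P A + a • e) ∈ ball A (8 * r) :=
    fun a ha z hz => by
      rw [hPz, mem_ball, dist_eq_norm, add_sub_cancel_left, ne, abs_lt]
      obtain ⟨a1, a2⟩ := abs_le.1 ha
      constructor <;> linarith only [a1, q1, hz, hr, a2, (q1 z hz).1, (q1 z hz).2]
  have q5 : ∀ a : ℝ, ∀ z ∈ Q, ‖z + a • e - (P z + (A - P A + a • e))‖ ≤ 7 * r := fun a z hz => by
    rw [hPz, show z + a • e - (A + (⟪z - A, e⟫ + a) • e) = z - A - ⟪z - A, e⟫ • e by module]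
    refine (norm_sub_le _ _).trans ?_
    rw [ne, abs_of_neg (q1 z hz).2]
    linarith only [hr, q1, hz, q2, (q1 z hz).1, q2 z hz]
  have r0 : |(0 : ℝ)| ≤ 7 * r := by rw [abs_zero]; positivity
  have r7 : |7 * r| ≤ 7 * r := (abs_of_pos (by positivity)).le
  have hκ : 0 ≤ m / 3 := by positivity
  have p1 := slitA_path hp hg P hd _ ((0 : ℝ) • e) A hr hκ hQm hQb (q5 0) (q4 0 r0) (q3 0 r0)
  have p2 := slitA_path hp hg 1 hd1 ((0 : ℝ) • e) ((7 * r) • e) A hr hκ hQm hQb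
    (fun z _ => by
      rw [one_apply_eq_self, zero_smul, add_zero, add_sub_cancel_left, ne]
      exact r7) (q3 0 r0) (q3 _ r7)
  have p3 := slitA_path hp hg P hd _ ((7 * r) • e) A hr hκ hQm hQb (q5 _) (q4 _ r7) (q3 _ r7)
  rw [← hI] at p1 p2 p3
  have cov : Q ⊆ Q ∩ {z | m / 3 ≤ |g (z + (0 : ℝ) • e) - g (P z + (A - P A + (0 : ℝ) • e))|} ∪
      Q ∩ {z | m / 3 ≤ |g (z + (7 * r) • e) - g ((1 : Eu 2 →L[ℝ] Eu 2) z + (0 : ℝ) • e)|} ∪
      Q ∩ {z | m / 3 ≤ |g (z + (7 * r) • e) - g (P z + (A - P A + (7 * r) • e))|} := by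
    intro z hz
    by_contra hn
    simp only [mem_union, mem_inter_iff, hz, true_and, mem_ofPred_eq, not_or, not_le, abs_lt,
      hPz, one_apply_eq_self] at hn
    obtain ⟨a1, a2⟩ := q1 z hz
    have b0 := g0 (⟪z - A, e⟫ + 0) ⟨by linarith only [a1], by linarith only [a2]⟩
    have b1 := g1 (⟪z - A, e⟫ + 7 * r) ⟨by linarith only [a1], by linarith only [a2]⟩
    linarith only [hn, b0, b1, hn.1.1.2, hn.1.2.2, hn.2.1]
  have fin : volume Q ≠ ⊤ := hQb.measure_lt_top.ne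
  have v1 := (measureReal_mono cov (ne_top_of_le_ne_top fin (measure_mono
    (union_subset (union_subset inter_subset_left inter_subset_left) inter_subset_left)))).trans
    ((measureReal_union_le _ _).trans (add_le_add (measureReal_union_le _ _) le_rfl))
  have v2 : volume.real Q = r ^ 2 * (Real.pi / 4) := by
    rw [hQ, Measure.real, EuclideanSpace.volume_ball_fin_two, ENNReal.toReal_mul,
      ENNReal.toReal_pow, ENNReal.toReal_ofReal (by positivity),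
      ENNReal.toReal_ofReal Real.pi_pos.le]
    ring
  have hE := en_nonneg p g (ball A (8 * r))
  have w1 := mul_le_mul_of_nonneg_left v1 (Real.rpow_nonneg hκ p)
  have w2 : (7 * r * I) ^ p ≤ K * r ^ p := by
    rw [show 7 * r * I = 7 * I * r by ring, Real.mul_rpow (by positivity) hr.le, hK]
    exact mul_le_mul_of_nonneg_right (by linarith only []) (Real.rpow_nonneg hr.le p)
  have w3 := mul_le_mul_of_nonneg_right w2 hE
  have w4 : (m / 3) ^ p * (r ^ 2 * (Real.pi / 4)) ≤ 3 * (K * r ^ p * en p g (ball A (8 * r))) := by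
    rw [v2, mul_add, mul_add] at w1
    linarith only [p1, p2, p3, w1, w3]
  have hrp : 0 < r ^ p := Real.rpow_pos_of_pos hr p
  have h3p : 0 < (3 : ℝ) ^ p := by positivity
  rw [Real.div_rpow hm (by norm_num)] at w4
  rw [Real.rpow_sub hr, Real.rpow_two,
    show Real.pi / 4 / (3 ^ p * (3 * K)) * m ^ p * (r ^ 2 / r ^ p) =
      m ^ p / 3 ^ p * (r ^ 2 * (Real.pi / 4)) / (3 * (K * r ^ p)) by field_simp,
    div_le_iff₀ (by positivity)]
  linarith only [w4]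

end Pool.Agent.Work.MP_f7e2e5_gt
end
end

-- merged part: Pool.Agent.Work.MP_f7e2e5_gt.Slit
section
open MeasureTheory Set Metric Filter Topology
open scoped RealInnerProductSpace Pointwise ContDiff NNReal

noncomputable section

namespace Pool.Agent.Work.MP_f7e2e5_gt

variable {p : ℝ}

theorem slit_vol (x : Eu 2) {r : ℝ} (hr : 0 ≤ r) :
    volume.real (ball x r) = r ^ 2 * volume.real (ball (0 : Eu 2) 1) := by
  have h := Measure.addHaar_ball (volume : Measure (Eu 2)) x hr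
  rw [finrank_euclideanSpace_fin] at h
  rw [Measure.real, Measure.real, h, ENNReal.toReal_mul, ENNReal.toReal_ofReal (by positivity)]

theorem slit_cap_ball (hp : 0 < p) (M : Eu 2) :
    cap p (closedBall M 2) = cap p (closedBall (0 : Eu 2) 2) := by
  rw [← cap_translate hp (closedBall (0 : Eu 2) 2) M]
  congr 1
  ext x
  simp only [mem_closedBall, mem_image, dist_eq_norm, sub_zero]
  constructor
  · intro h
    exact ⟨x - M, h, by abel⟩
  · rintro ⟨y, hy, rfl⟩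
    simpa using hy

/-- The homothety about `M` contains the body and the extended axis. -/
theorem slit_mem_hom {T : Set (Eu 2)} (hT : Convex ℝ T) {M : Eu 2} (hM : M ∈ T) {lam : ℝ}
    (hlam : 0 < lam) {y : Eu 2} (hy : y ∈ T) {s : ℝ} (hs0 : 0 ≤ s) (hs : s ≤ lam) :
    M + s • (y - M) ∈ sim ((1 - lam) • M) lam (LinearIsometryEquiv.refl ℝ (Eu 2)) '' T := by
  refine ⟨M + (s / lam) • (y - M), hT.add_smul_sub_mem hM hy
    ⟨by positivity, (div_le_one hlam).2 hs⟩, ?_⟩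
  simp only [sim, LinearIsometryEquiv.coe_refl, id_eq, smul_add, smul_smul]
  rw [mul_div_cancel₀ _ hlam.ne', sub_smul, one_smul]
  abel

theorem slit_core (hp : 1 < p) (hp2 : p < 2) : ∃ C1 : ℝ, 0 ≤ C1 ∧
    ∀ (T : Set (Eu 2)) (e f A : Eu 2) (l r : ℝ), Fr e f → IsBody T → A ∈ T → A - l • e ∈ T →
      (∀ z ∈ T, z - (2 * ⟪z - A, f⟫) • f ∈ T) → (∀ z ∈ T, ⟪z - A, e⟫ ≤ 0) → 1 / 2 ≤ l →
      T ⊆ closedBall (A - l • e) 2 → 0 < r → r ≤ 1 / 200 →
      ∀ z ∈ ball A (32 * r), pot p T z ^ p ≤ C1 * r ^ (p - 1) := by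
  have hp0 : 0 < p := by linarith
  obtain ⟨θ, hθ, hcar⟩ := carleson hp hp2
  obtain ⟨c, hc, hcond⟩ := condenser hp
  obtain ⟨γ, -, -, hhar⟩ := harnack_step (n := 2) hp (by exact_mod_cast hp2)
  set V : ℝ := volume.real (ball (0 : Eu 2) 1) with hV
  have hV0 : 0 ≤ V := measureReal_nonneg
  set c1 : ℝ := c * (θ / 2) ^ p with hc1
  have hc10 : 0 < c1 := by positivity
  set ε : ℝ := c1 / (2 * (288 * V + 1)) with hε
  have hε0 : 0 < ε := by positivity
  obtain ⟨C, hC0, hdef⟩ := defect_local (n := 2) hp hε0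
  set B : ℝ := cap p (closedBall (0 : Eu 2) 2) with hB
  have hB0 : 0 ≤ B := cap_nonneg _ _
  refine ⟨14 * C * B / c1, by positivity, ?_⟩
  intro T e f A l r hef hT hA hM hsym hle hl hsub hr hr2 z hz
  have hW := isPot_pot hp hT
  have hl0 : 0 < l := by linarith only [hl, hr, hr2]
  set M : Eu 2 := A - l • e with hMdef
  have hbdd : BddAbove (pot p T '' ball A (32 * r)) := ⟨1, by
    rintro _ ⟨y, -, rfl⟩
    exact hW.le_one y⟩
  set m : ℝ := sSup (pot p T '' ball A (32 * r)) with hm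
  have hmle : ∀ y ∈ ball A (32 * r), pot p T y ≤ m := fun y hy => le_csSup hbdd ⟨y, hy, rfl⟩
  have hm0 : 0 ≤ m := (hW.nonneg z).trans (hmle z hz)
  have hlow : ∀ z' ∈ ball (A + (6 * r) • e) r, θ * m ≤ pot p T z' := by
    intro z' hz'
    have : m ≤ pot p T z' / θ := by
      refine csSup_le ⟨_, z, hz, rfl⟩ ?_
      rintro _ ⟨y, hy, rfl⟩
      rw [le_div_iff₀ hθ, mul_comm]
      exact hcar T e f A l r hef hT hM hsym (fun w hw => (hle w hw).trans hr.le) hl hr hr2 y hy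
        z' hz'
    rwa [le_div_iff₀ hθ, mul_comm] at this
  have hee : ⟪e, e⟫ = 1 := by rw [real_inner_self_eq_norm_sq, hef.1]; norm_num
  have hdisj : Disjoint T (ball (A + (6 * r) • e) (4 * r)) := by
    rw [Set.disjoint_left]
    intro w hw hwb
    have h1 := hle w hw
    have h2 : w - A = (w - (A + (6 * r) • e)) + (6 * r) • e := by abel
    rw [h2, inner_add_left, real_inner_smul_left, hee] at h1
    have h3 := abs_real_inner_le_norm (w - (A + (6 * r) • e)) e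
    rw [hef.1, mul_one] at h3
    have h4 : ‖w - (A + (6 * r) • e)‖ < 4 * r := by rwa [mem_ball, dist_eq_norm] at hwb
    have h5 := neg_abs_le ⟪w - (A + (6 * r) • e), e⟫
    linarith only [hr, h1, h3, h4, h5]
  obtain ⟨-, u, hu, hu2⟩ := hhar T (A + (6 * r) • e) r (θ * m) hT hr (by positivity) hdisj hlow
  set lam : ℝ := 1 + 7 * r / l with hlam
  have hlam1 : 1 ≤ lam := by
    have : 0 ≤ 7 * r / l := by positivity
    linarith only [this]
  have hlam0 : 0 < lam := by linarith only [hr, hr2, hlam1]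
  set T' : Set (Eu 2) := sim ((1 - lam) • M) lam (LinearIsometryEquiv.refl ℝ (Eu 2)) '' T
    with hT'def
  have hT' : IsBody T' := hT.image_sim _ hlam0 _
  have hTT' : T ⊆ T' := by
    intro y hy
    have := slit_mem_hom hT.2.1 hM hlam0 hy zero_le_one hlam1
    rwa [one_smul, add_sub_cancel] at this
  have haxis : ∀ x : ℝ, A + x • e = M + (1 + x / l) • (A - M) := by
    intro x
    rw [hMdef, sub_sub_cancel, smul_smul, add_mul, one_mul, div_mul_cancel₀ _ hl0.ne', add_smul]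
    abel
  have hax1 : ∀ x ∈ Icc (-r) 0, A + x • e ∈ T := by
    intro x hx
    rw [haxis]
    refine hT.2.1.add_smul_sub_mem hM hA ⟨?_, ?_⟩
    · have : -1 ≤ x / l := by
        rw [le_div_iff₀ hl0]
        linarith only [hl, hr, hr2, hx, hx.1]
      linarith only [this]
    · have : x / l ≤ 0 := div_nonpos_of_nonpos_of_nonneg hx.2 hl0.le
      linarith only [this]
  have hax2 : ∀ x ∈ Icc (6 * r) (7 * r), A + x • e ∈ T' := by
    intro x hx
    rw [haxis]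
    have hx0 : 0 ≤ x := by linarith only [hr, hx, hx.1]
    refine slit_mem_hom hT.2.1 hM hlam0 hA (by positivity) ?_
    have : x / l ≤ 7 * r / l := div_le_div_of_nonneg_right hx.2 hl0.le
    linarith only [this]
  obtain ⟨v, hv⟩ := exists_minSeq (p := p) hT'.1.isBounded
  have hcapT : cap p T ≤ B := by
    rw [hB, ← slit_cap_ball hp0 M]
    exact cap_mono hsub isBounded_closedBall
  have hcapT0 : 0 ≤ cap p T := cap_nonneg _ _
  have hcapT' : cap p T' ≤ cap p T + 14 * r * B := by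
    rw [hT'def, cap_sim hp0 T _ hlam0]
    have h1 : lam ^ (((2 : ℕ) : ℝ) - p) ≤ lam := by
      calc lam ^ (((2 : ℕ) : ℝ) - p) ≤ lam ^ (1 : ℝ) :=
            Real.rpow_le_rpow_of_exponent_le hlam1 (by push_cast; linarith only [hp])
        _ = lam := Real.rpow_one _
    have h2 : 7 * r / l ≤ 14 * r := by
      rw [div_le_iff₀ hl0]
      (refine le_of_not_gt fun h_nl => ?_; linarith only [h_nl, hp, hp2, hl, hr, mul_pos_of_neg_of_neg (Mathlib.Tactic.Linarith.sub_neg_of_lt hp) (Mathlib.Tactic.Linarith.sub_neg_of_lt h_nl), mul_pos_of_neg_of_neg (Mathlib.Tactic.Linarith.sub_neg_of_lt hp2) (Mathlib.Tactic.Linarith.sub_neg_of_lt h_nl), mul_nonneg_of_nonpos_of_nonpos (Mathlib.Tactic.Linarith.sub_nonpos_of_le hl) (le_of_lt (Mathlib.Tactic.Linarith.sub_neg_of_lt hr))])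
    have h3 : lam * cap p T ≤ cap p T + 14 * r * B := by
      have : 7 * r / l * cap p T ≤ 14 * r * B :=
        mul_le_mul h2 hcapT hcapT0 (by positivity)
      rw [hlam]
      linarith only [this]
    exact (mul_le_mul_of_nonneg_right h1 hcapT0).trans h3
  have hball : ball A (4 * (4 * r)) ⊆ ball A (32 * r) := ball_subset_ball (by linarith only [hr])
  set X : ℝ := m ^ p * r ^ (2 - p) with hX
  have hX0 : 0 ≤ X := by positivity
  have hcacc : (m / (4 * r)) ^ p * volume.real (ball A (3 * (4 * r))) ≤ 144 * V * X := by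
    rw [slit_vol A (by positivity), ← hV]
    have h1 : (m / (4 * r)) ^ p ≤ (m / r) ^ p :=
      Real.rpow_le_rpow (by positivity)
        (div_le_div_of_nonneg_left hm0 hr (by linarith only [hr])) hp0.le
    have h2 : (m / r) ^ p * r ^ 2 = X := by
      rw [hX, Real.div_rpow hm0 hr.le, Real.rpow_sub hr, Real.rpow_two]
      field_simp
    calc (m / (4 * r)) ^ p * ((3 * (4 * r)) ^ 2 * V) ≤ (m / r) ^ p * ((3 * (4 * r)) ^ 2 * V) :=
          mul_le_mul_of_nonneg_right h1 (by positivity)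
      _ = 144 * V * ((m / r) ^ p * r ^ 2) := by ring
      _ = 144 * V * X := by rw [h2]
  have key : ∀ δ : ℝ, 0 < δ → c1 * X ≤ ε * (288 * V * X) + 7 * C * r * B + (2 * ε + C) * δ := by
    intro δ hδ
    have e1 := caccioppoli hp hT hu A (r := 4 * r) (by positivity) hm0
      (fun y hy => hmle y (hball hy)) hδ
    have e2 := caccioppoli hp hT' hv A (r := 4 * r) (by positivity) hm0
      (fun y hy => (pot_anti hp hT hT' hTT' y).trans (hmle y (hball hy))) hδ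
    have e3 := hu.2.eventually (gt_mem_nhds (lt_add_of_pos_right _ hδ))
    have e4 := hv.2.eventually (gt_mem_nhds (lt_add_of_pos_right _ hδ))
    obtain ⟨j, h1, h2, h3, h4⟩ := (e1.and (e2.and (e3.and e4))).exists
    have hr8 : 2 * (4 * r) = 8 * r := by ring
    rw [hr8] at h1 h2
    have hvT : Adm T (v j) := (hv.1 j).mono hTT'
    have h5 := hdef T (ball A (8 * r)) (u j) (v j) (hu.1 j) hvT measurableSet_ball
    have h6 := hcond e f A r (θ * m / 2) (fun x => v j x - u j x) hef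
      (hvT.lip0.sub (hu.1 j).lip0) hr (by positivity)
      (fun x hx => by
        rw [hvT.one _ (hax1 x hx), (hu.1 j).one _ (hax1 x hx), sub_self])
      (fun x hx => by
        rw [(hv.1 j).one _ (hax2 x hx)]
        refine hu2 j _ ?_
        rw [dist_eq_norm, add_sub_add_left_eq_sub, ← sub_smul, norm_smul, hef.1, mul_one,
          Real.norm_eq_abs, abs_le]
        constructor <;> linarith only [hr, hx, hx.1, hx.2])
    have h7 : c * (θ * m / 2) ^ p * r ^ (2 - p) = c1 * X := by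
      rw [hc1, hX, show θ * m / 2 = θ / 2 * m by ring, Real.mul_rpow (by positivity) hm0]
      ring
    rw [h7] at h6
    have h8 : ε * (en p (u j) (ball A (8 * r)) + en p (v j) (ball A (8 * r))) ≤
        ε * (288 * V * X + 2 * δ) := mul_le_mul_of_nonneg_left (by linarith only [hcacc, h1, h2]) hε0.le
    have h9 : C * ((en p (u j) univ + en p (v j) univ) / 2 - cap p T) ≤
        C * (7 * r * B + δ) := mul_le_mul_of_nonneg_left (by linarith only [hcapT', h3, h4]) hC0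
    linarith only [h5, h6, h8, h9]
  have key2 : c1 * X ≤ ε * (288 * V * X) + 7 * C * r * B := by
    refine le_of_forall_pos_le_add fun η hη => ?_
    have hpos : 0 < 2 * ε + C := by positivity
    have := key (η / (2 * ε + C)) (by positivity)
    rwa [mul_div_cancel₀ _ hpos.ne'] at this
  have h10 : ε * (288 * V * X) ≤ c1 / 2 * X := by
    have : ε * (288 * V) ≤ c1 / 2 := by
      rw [hε, div_mul_eq_mul_div, div_le_div_iff₀ (by positivity) (by positivity)]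
      linarith only [hc10]
    calc ε * (288 * V * X) = ε * (288 * V) * X := by ring
      _ ≤ c1 / 2 * X := mul_le_mul_of_nonneg_right this hX0
  have h11 : X ≤ 14 * C * B / c1 * r := by
    rw [div_mul_eq_mul_div, le_div_iff₀ hc10]
    linarith only [key2, h10]
  have h12 : m ^ p = X * r ^ (p - 2) := by
    rw [hX, mul_assoc, ← Real.rpow_add hr]
    simp
  have h13 : r * r ^ (p - 2) = r ^ (p - 1) := by
    rw [show p - 1 = 1 + (p - 2) by ring, Real.rpow_add hr, Real.rpow_one]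
  calc pot p T z ^ p ≤ m ^ p := Real.rpow_le_rpow (hW.nonneg z) (hmle z hz) hp0.le
    _ = X * r ^ (p - 2) := h12
    _ ≤ 14 * C * B / c1 * r * r ^ (p - 2) := mul_le_mul_of_nonneg_right h11 (by positivity)
    _ = 14 * C * B / c1 * r ^ (p - 1) := by rw [mul_assoc, h13]

/-- The thin symmetric cone inside `K`. -/
theorem slit_cone {K : Set (Eu 2)} {A M e f : Eu 2} {l : ℝ} (hK : IsBody K) (hA : A ∈ K)
    (hM : M ∈ interior K) (hef : Fr e f) (hl : 1 / 2 ≤ l) (hl2 : l ≤ 2) (hMe : M = A - l • e) :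
    ∃ T : Set (Eu 2), T ⊆ K ∧ IsBody T ∧ A ∈ T ∧ M ∈ T ∧
      (∀ z ∈ T, z - (2 * ⟪z - A, f⟫) • f ∈ T) ∧ (∀ z ∈ T, ⟪z - A, e⟫ ≤ 0) ∧
      T ⊆ closedBall M 2 := by
  obtain ⟨ρ, hρ, hρK⟩ := Metric.nhds_basis_closedBall.mem_iff.1 (mem_interior_iff_mem_nhds.1 hM)
  set η : ℝ := min ρ (1 / 2) with hη
  have hη0 : 0 < η := lt_min hρ (by norm_num)
  have hη1 : η ≤ 1 / 2 := min_le_right _ _
  have hηK : closedBall M η ⊆ K := (closedBall_subset_closedBall (min_le_left _ _)).trans hρK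
  have hee : ⟪e, e⟫ = 1 := by rw [real_inner_self_eq_norm_sq, hef.1]; norm_num
  have hff : ⟪f, f⟫ = 1 := by rw [real_inner_self_eq_norm_sq, hef.2.1]; norm_num
  set T : Set (Eu 2) := convexHull ℝ ({A} ∪ closedBall M η) with hT
  have hTc : Convex ℝ T := convex_convexHull _ _
  have hAT : A ∈ T := subset_convexHull _ _ (Or.inl rfl)
  have hBT : closedBall M η ⊆ T := fun y hy => subset_convexHull _ _ (Or.inr hy)
  refine ⟨T, convexHull_min (union_subset (singleton_subset_iff.2 hA) hηK) hK.2.1,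
    ⟨isCompact_convexHull_union isCompact_singleton (isCompact_closedBall _ _)
      (convex_singleton _) (convex_closedBall _ _), hTc,
      ⟨M, mem_interior_iff_mem_nhds.2 (mem_of_superset (closedBall_mem_nhds M hη0) hBT)⟩⟩,
    hAT, hBT (mem_closedBall_self hη0.le), ?_, ?_, ?_⟩
  · have hconv : Convex ℝ {z : Eu 2 | z - (2 * ⟪z - A, f⟫) • f ∈ T} := by
      intro x hx y hy a b ha hb hab
      have := hTc hx hy ha hb hab
      have h1 : a • x + b • y - A = a • (x - A) + b • (y - A) := by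
        rw [smul_sub, smul_sub, sub_add_sub_comm, ← add_smul, hab, one_smul]
      show a • x + b • y - (2 * ⟪a • x + b • y - A, f⟫) • f ∈ T
      rw [h1, inner_add_left, real_inner_smul_left, real_inner_smul_left]
      convert this using 1
      module
    refine fun z hz => convexHull_min (t := {z : Eu 2 | z - (2 * ⟪z - A, f⟫) • f ∈ T}) ?_ hconv hz
    rintro y (hy | hy)
    · rw [mem_singleton_iff.1 hy]
      show A - (2 * ⟪A - A, f⟫) • f ∈ T
      simpa using hAT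
    · refine hBT ?_
      have h1 : ⟪y - A, f⟫ = ⟪y - M, f⟫ := by
        have : y - M = (y - A) + l • e := by rw [hMe]; abel
        rw [this, inner_add_left, real_inner_smul_left, hef.2.2, mul_zero, add_zero]
      rw [mem_closedBall, dist_eq_norm] at hy ⊢
      have h2 : y - (2 * ⟪y - A, f⟫) • f - M = (y - M) - (2 * ⟪y - M, f⟫) • f := by
        rw [h1]; abel
      have h3 : ‖(y - M) - (2 * ⟪y - M, f⟫) • f‖ ^ 2 = ‖y - M‖ ^ 2 := by
        rw [norm_sub_sq_real, real_inner_smul_right, norm_smul, hef.2.1, mul_one,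
          Real.norm_eq_abs, sq_abs]
        ring
      rw [h2, (sq_eq_sq₀ (norm_nonneg _) (norm_nonneg _)).1 h3]
      exact hy
  · have hconv : Convex ℝ {z : Eu 2 | ⟪z - A, e⟫ ≤ 0} := by
      intro x hx y hy a b ha hb hab
      have h1 : a • x + b • y - A = a • (x - A) + b • (y - A) := by
        rw [smul_sub, smul_sub, sub_add_sub_comm, ← add_smul, hab, one_smul]
      show ⟪a • x + b • y - A, e⟫ ≤ 0
      rw [h1, inner_add_left, real_inner_smul_left, real_inner_smul_left]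
      have hx' : ⟪x - A, e⟫ ≤ 0 := hx
      have hy' : ⟪y - A, e⟫ ≤ 0 := hy
      linarith only [ha, hx', hb, hy', mul_nonneg ha (neg_nonneg.2 hx'), mul_nonneg hb (neg_nonneg.2 hy')]
    refine fun z hz => convexHull_min (t := {z : Eu 2 | ⟪z - A, e⟫ ≤ 0}) ?_ hconv hz
    rintro y (hy | hy)
    · rw [mem_singleton_iff.1 hy]
      show ⟪A - A, e⟫ ≤ 0
      simp
    · show ⟪y - A, e⟫ ≤ 0
      have h1 : y - A = (y - M) - l • e := by rw [hMe]; abel
      rw [h1, inner_sub_left, real_inner_smul_left, hee]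
      have h3 := real_inner_le_norm (y - M) e
      rw [hef.1, mul_one] at h3
      rw [mem_closedBall, dist_eq_norm] at hy
      linarith only [hl, hη1, hy, h3]
  · refine convexHull_min (union_subset (singleton_subset_iff.2 ?_)
      (closedBall_subset_closedBall (by linarith only [hη0, hη1]))) (convex_closedBall _ _)
    rw [mem_closedBall, dist_eq_norm, hMe, sub_sub_cancel, norm_smul, hef.1, mul_one,
      Real.norm_eq_abs, abs_of_nonneg (by linarith only [hl, hη0, hη1])]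
    exact hl2

/-- The sharp decay rate of the potential at a point of a planar convex body of length one. -/
theorem slit (hp : 1 < p) (hp2 : p < 2) : ∃ A0 : ℝ, 0 < A0 ∧
    ∀ (K : Set (Eu 2)) (A M : Eu 2), IsBody K → A ∈ K → M ∈ interior K → 1 / 2 ≤ dist A M →
      dist A M ≤ 2 → ∀ r : ℝ, 0 < r → ∀ z ∈ ball A r, pot p K z ≤ A0 * r ^ ((p - 1) / p) := by
  have hp0 : 0 < p := by linarith
  obtain ⟨C1, hC1, hcore⟩ := slit_core hp hp2
  have hq0 : 0 ≤ (p - 1) / p := div_nonneg (by linarith) hp0.le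
  have hq1 : (p - 1) / p ≤ 1 := (div_le_one hp0).2 (by linarith)
  refine ⟨C1 ^ (1 / p) + 7, by positivity, ?_⟩
  intro K A M hK hA hM hl hl2 r hr z hz
  have hW := isPot_pot hp hK
  have hrq : 0 ≤ r ^ ((p - 1) / p) := by positivity
  have hC1q : 0 ≤ C1 ^ (1 / p) := by positivity
  rcases le_total r (32 / 200) with hr2 | hr2
  · set l : ℝ := dist A M with hldef
    have hl0 : 0 < l := by linarith only [hr, hr2, hl]
    have he : ‖l⁻¹ • (A - M)‖ = 1 := by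
      rw [norm_smul, ← dist_eq_norm, ← hldef, Real.norm_eq_abs, abs_of_pos (by positivity),
        inv_mul_cancel₀ hl0.ne']
    obtain ⟨f, hef⟩ := exists_fr he
    have hMe : M = A - l • l⁻¹ • (A - M) := by
      rw [smul_smul, mul_inv_cancel₀ hl0.ne', one_smul, sub_sub_cancel]
    obtain ⟨T, hTK, hT, hAT, hMT, hsym, hle, hsub⟩ := slit_cone hK hA hM hef hl hl2 hMe
    have h1 := hcore T _ f A l (r / 32) hef hT hAT (hMe ▸ hMT) hsym hle hl (hMe ▸ hsub)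
      (by positivity) (by linarith only [hr2]) z (by rwa [mul_div_cancel₀ _ (by norm_num)])
    have h2 : (r / 32) ^ (p - 1) ≤ r ^ (p - 1) :=
      Real.rpow_le_rpow (by positivity) (by linarith only [hr]) (by linarith only [hp])
    have h3 : pot p T z ^ p ≤ C1 * r ^ (p - 1) := h1.trans (mul_le_mul_of_nonneg_left h2 hC1)
    have h4 : pot p T z ≤ C1 ^ (1 / p) * r ^ ((p - 1) / p) := by
      have h5 := Real.rpow_le_rpow (Real.rpow_nonneg ((isPot_pot hp hT).nonneg z) p) h3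
        (z := 1 / p) (by positivity)
      rw [← Real.rpow_mul ((isPot_pot hp hT).nonneg z), mul_one_div_cancel hp0.ne',
        Real.rpow_one, Real.mul_rpow hC1 (by positivity), ← Real.rpow_mul hr.le,
        mul_one_div] at h5
      exact h5
    have h6 := pot_anti hp hT hK hTK z
    linarith only [hrq, h4, h6]
  · have h1 : (32 / 200 : ℝ) ≤ r ^ ((p - 1) / p) := by
      calc (32 / 200 : ℝ) = (32 / 200 : ℝ) ^ (1 : ℝ) := (Real.rpow_one _).symm
        _ ≤ (32 / 200 : ℝ) ^ ((p - 1) / p) :=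
            Real.rpow_le_rpow_of_exponent_ge (by norm_num) (by norm_num) hq1
        _ ≤ r ^ ((p - 1) / p) := Real.rpow_le_rpow (by norm_num) hr2 hq0
    have h2 := hW.le_one z
    (refine le_of_not_gt fun h_nl => ?_; linarith only [h_nl, h1, h2, hp, hp2, hrq, hC1q, mul_pos_of_neg_of_neg (Mathlib.Tactic.Linarith.sub_neg_of_lt hp) (Mathlib.Tactic.Linarith.sub_neg_of_lt hp), mul_pos_of_neg_of_neg (Mathlib.Tactic.Linarith.sub_neg_of_lt hp) (Mathlib.Tactic.Linarith.sub_neg_of_lt hp2), mul_pos_of_neg_of_neg (Mathlib.Tactic.Linarith.sub_neg_of_lt hp) (Mathlib.Tactic.Linarith.sub_neg_of_lt h_nl), mul_pos_of_neg_of_neg (Mathlib.Tactic.Linarith.sub_neg_of_lt hp2) (Mathlib.Tactic.Linarith.sub_neg_of_lt hp2), mul_pos_of_neg_of_neg (Mathlib.Tactic.Linarith.sub_neg_of_lt hp2) (Mathlib.Tactic.Linarith.sub_neg_of_lt h_nl), mul_nonneg_of_nonpos_of_nonpos (Mathlib.Tactic.Linarith.sub_nonpos_of_le hrq) (Mathlib.Tactic.Linarith.sub_nonpos_of_le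 hC1q)])

end Pool.Agent.Work.MP_f7e2e5_gt
end
end

-- merged part: Pool.Agent.Work.MP_f7e2e5_gt.CMain
section
-- merged part: Pool.Agent.Work.MP_f7e2e5_gt.LensGeo
section
open MeasureTheory Set Metric Filter Topology
open scoped RealInnerProductSpace Pointwise ContDiff NNReal

noncomputable section

namespace Pool.Agent.Work.MP_f7e2e5_gt

variable {p : ℝ}

/-- A lens with tips `A`, `B` and slopes at most `η`. -/
structure Lens (K : Set (Eu 2)) (e f A B : Eu 2) (η : ℝ) : Prop where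
  memA : A ∈ K
  memB : B ∈ K
  coneA : ∀ z ∈ K, |⟪z - A, f⟫| ≤ η * ⟪z - A, e⟫
  coneB : ∀ z ∈ K, |⟪z - B, f⟫| ≤ η * ⟪B - z, e⟫
  slope : ∀ y ∈ K, ∀ ξ : Eu 2, ‖ξ‖ = 1 → ⟪y, ξ⟫ = supp K ξ → ⟪A, e⟫ < ⟪y, e⟫ → ⟪y, e⟫ < ⟪B, e⟫ →
    |⟪ξ, e⟫| ≤ η * |⟪ξ, f⟫|

/-- `y` has an upper supporting line of slope at most `η`. -/
def LgTop (K : Set (Eu 2)) (e f : Eu 2) (η : ℝ) (y : Eu 2) : Prop :=
  ∃ s : ℝ, |s| ≤ η ∧ ∀ z ∈ K, ⟪z, f⟫ - ⟪y, f⟫ ≤ s * (⟪z, e⟫ - ⟪y, e⟫)

theorem LgTop.neg_left {K : Set (Eu 2)} {e f : Eu 2} {η : ℝ} {y : Eu 2} (h : LgTop K e f η y) :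
    LgTop K (-e) f η y := by
  obtain ⟨s, hs, h⟩ := h
  refine ⟨-s, by rwa [abs_neg], fun z hz => ?_⟩
  have := h z hz
  simp only [inner_neg_right]
  linarith

/-- A flat unit normal gives an upper or a lower supporting line. -/
theorem lg_type {K : Set (Eu 2)} {e f : Eu 2} (hF : Fr e f) {η : ℝ} {y ξ : Eu 2} (hξ : ‖ξ‖ = 1)
    (hs : ∀ z ∈ K, ⟪z, ξ⟫ ≤ ⟪y, ξ⟫) (hsl : |⟪ξ, e⟫| ≤ η * |⟪ξ, f⟫|) :
    LgTop K e f η y ∨ LgTop K e (-f) η y := by
  have hn := hF.norm_sq ξ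
  rw [hξ] at hn
  have hne : ⟪ξ, f⟫ ≠ 0 := by
    intro h0
    rw [h0, abs_zero, mul_zero] at hsl
    have h1 : ⟪ξ, e⟫ = 0 := abs_nonpos_iff.1 hsl
    rw [h0, h1] at hn
    norm_num at hn
  have key : ∀ z ∈ K, (⟪z, e⟫ - ⟪y, e⟫) * ⟪ξ, e⟫ + (⟪z, f⟫ - ⟪y, f⟫) * ⟪ξ, f⟫ ≤ 0 := by
    intro z hz
    have := hs z hz
    rw [hF.inner_eq z ξ, hF.inner_eq y ξ] at this
    linarith
  have habs : |⟪ξ, e⟫ / ⟪ξ, f⟫| ≤ η := by
    rw [abs_div, div_le_iff₀ (abs_pos.2 hne)]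
    exact hsl
  rcases lt_or_gt_of_ne hne with hneg | hpos
  · right
    refine ⟨⟪ξ, e⟫ / ⟪ξ, f⟫, habs, fun z hz => ?_⟩
    have h1 := key z hz
    simp only [inner_neg_right]
    rw [div_mul_eq_mul_div, le_div_iff_of_neg hneg]
    linarith
  · left
    refine ⟨-(⟪ξ, e⟫ / ⟪ξ, f⟫), by rwa [abs_neg], fun z hz => ?_⟩
    have h1 := key z hz
    rw [← neg_div, div_mul_eq_mul_div, le_div_iff₀ hpos]
    linarith

/-- Passing to the limit in the hypothesis of `lens_geo`. -/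
theorem lg_good {K : Set (Eu 2)} (hK : IsCompact K) {e f : Eu 2} (hF : Fr e f) {η : ℝ}
    {y : Eu 2} (h : ∀ r : ℝ, 0 < r → ∃ y' ∈ K, dist y' y < r ∧
      ∃ ξ : Eu 2, ‖ξ‖ = 1 ∧ ⟪y', ξ⟫ = supp K ξ ∧ |⟪ξ, e⟫| ≤ η * |⟪ξ, f⟫|) :
    LgTop K e f η y ∨ LgTop K e (-f) η y := by
  set S : Set (Eu 2 × Eu 2) := (K ×ˢ sphere (0 : Eu 2) 1) ∩
    ((⋂ z ∈ K, {q : Eu 2 × Eu 2 | ⟪z, q.2⟫ ≤ ⟪q.1, q.2⟫}) ∩
      {q : Eu 2 × Eu 2 | |⟪q.2, e⟫| ≤ η * |⟪q.2, f⟫|}) with hS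
  have hSc : IsCompact S := by
    refine (hK.prod (isCompact_sphere 0 1)).inter_right (IsClosed.inter ?_ ?_)
    · refine isClosed_biInter fun z _ => isClosed_le ?_ ?_ <;> fun_prop
    · refine isClosed_le ?_ ?_ <;> fun_prop
  have hcl : IsClosed (Prod.fst '' S) := (hSc.image continuous_fst).isClosed
  have hy : y ∈ Prod.fst '' S := by
    rw [← hcl.closure_eq, Metric.mem_closure_iff]
    intro r hr
    obtain ⟨y', hy', hd, ξ, hξ, hs, hsl⟩ := h r hr
    refine ⟨y', ⟨(y', ξ), ⟨⟨hy', by simpa using hξ⟩, ?_, hsl⟩, rfl⟩, by rwa [dist_comm]⟩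
    simp only [mem_iInter, mem_ofPred_eq]
    intro z hz
    rw [hs]
    exact le_supp hK hz ξ
  obtain ⟨⟨y', ξ⟩, ⟨⟨_, hξ⟩, h2, h3⟩, rfl⟩ := hy
  simp only [mem_iInter, mem_ofPred_eq] at h2 h3
  exact lg_type hF (by simpa using hξ) h2 h3

/-- An interior point over every intermediate abscissa. -/
theorem lg_int {K : Set (Eu 2)} (hK : Body0 K) {e A B : Eu 2} (hA : A ∈ K) (hB : B ∈ K) {x : ℝ}
    (h0 : ⟪A, e⟫ < x) (h1 : x < ⟪B, e⟫) : ∃ m ∈ interior K, ⟪m, e⟫ = x := by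
  have hc := hK.1.2.1
  rcases le_or_gt 0 x with hx | hx
  · have hb : 0 < ⟪B, e⟫ := lt_of_le_of_lt hx h1
    have ht : x / ⟪B, e⟫ < 1 := (div_lt_one hb).2 h1
    refine ⟨(1 - x / ⟪B, e⟫) • (0 : Eu 2) + (x / ⟪B, e⟫) • B,
      hc.combo_interior_self_mem_interior hK.2 hB (by linarith only [ht]) (div_nonneg hx hb.le) (by ring), ?_⟩
    rw [smul_zero, zero_add, real_inner_smul_left]
    field_simp
  · have ha : ⟪A, e⟫ < 0 := lt_trans h0 hx
    have ht : x / ⟪A, e⟫ < 1 := (div_lt_one_of_neg ha).2 h0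
    refine ⟨(1 - x / ⟪A, e⟫) • (0 : Eu 2) + (x / ⟪A, e⟫) • A,
      hc.combo_interior_self_mem_interior hK.2 hA (by linarith)
        (div_nonneg_of_nonpos hx.le ha.le) (by ring), ?_⟩
    rw [smul_zero, zero_add, real_inner_smul_left]
    have := ha.ne
    field_simp

/-- From an interior point one can move a little in any unit direction. -/
theorem lg_move {K : Set (Eu 2)} {m v : Eu 2} (hm : m ∈ interior K) (hv : ‖v‖ = 1) :
    ∃ r : ℝ, 0 < r ∧ m + r • v ∈ K := by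
  obtain ⟨r, hr, hb⟩ := Metric.mem_nhds_iff.1 (mem_interior_iff_mem_nhds.1 hm)
  refine ⟨r / 2, by linarith only [hr], hb ?_⟩
  rw [mem_ball, dist_eq_norm, add_sub_cancel_left, norm_smul, hv, Real.norm_eq_abs,
    abs_of_pos (by linarith)]
  linarith

/-- The top point of the chord through an interior point. -/
theorem lg_chord {K : Set (Eu 2)} (hK : IsCompact K) {e f : Eu 2} (hF : Fr e f) {m : Eu 2}
    (hm : m ∈ interior K) :
    ∃ T ∈ K, T ∈ frontier K ∧ ⟪T, e⟫ = ⟪m, e⟫ ∧ ⟪m, f⟫ < ⟪T, f⟫ := by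
  have hff : ⟪f, f⟫ = (1 : ℝ) := by rw [real_inner_self_eq_norm_sq, hF.2.1]; norm_num
  have hfe : ⟪f, e⟫ = (0 : ℝ) := by rw [real_inner_comm]; exact hF.2.2
  have hC : IsCompact (K ∩ {z : Eu 2 | ⟪z, e⟫ = ⟪m, e⟫}) :=
    hK.inter_right (isClosed_eq (by fun_prop) continuous_const)
  obtain ⟨T, ⟨hTK, hTe⟩, hT⟩ := hC.exists_isMaxOn ⟨m, interior_subset hm, rfl⟩
    (f := fun z : Eu 2 => ⟪z, f⟫) (by fun_prop)
  have hTe' : ⟪T, e⟫ = ⟪m, e⟫ := hTe
  refine ⟨T, hTK, ⟨subset_closure hTK, fun hi => ?_⟩, hTe', ?_⟩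
  · obtain ⟨r, hr, hmem⟩ := lg_move hi hF.2.1
    have h1 : ⟪T + r • f, f⟫ ≤ ⟪T, f⟫ := hT ⟨hmem, by
      show ⟪T + r • f, e⟫ = ⟪m, e⟫
      rw [inner_add_left, real_inner_smul_left, hfe, hTe']; ring⟩
    rw [inner_add_left, real_inner_smul_left, hff] at h1
    linarith
  · obtain ⟨r, hr, hmem⟩ := lg_move hm hF.2.1
    have h1 : ⟪m + r • f, f⟫ ≤ ⟪T, f⟫ := hT ⟨hmem, by
      show ⟪m + r • f, e⟫ = ⟪m, e⟫
      rw [inner_add_left, real_inner_smul_left, hfe]; ring⟩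
    rw [inner_add_left, real_inner_smul_left, hff] at h1
    linarith

/-- Top points with flat supporting lines. -/
theorem lg_top {K : Set (Eu 2)} (hK : Body0 K) {e f A B : Eu 2} (hF : Fr e f) {η : ℝ}
    (hA : A ∈ K) (hB : B ∈ K) {x : ℝ} (h0 : ⟪A, e⟫ < x) (h1 : x < ⟪B, e⟫)
    (h : ∀ y ∈ K, y ∈ frontier K → ⟪y, e⟫ = x → LgTop K e f η y ∨ LgTop K e (-f) η y) :
    ∃ T ∈ K, ⟪T, e⟫ = x ∧ LgTop K e f η T := by
  obtain ⟨m, hm, hmx⟩ := lg_int hK hA hB h0 h1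
  obtain ⟨T, hTK, hTf, hTe, hlt⟩ := lg_chord hK.1.1 hF hm
  refine ⟨T, hTK, hTe.trans hmx, ?_⟩
  rcases h T hTK hTf (hTe.trans hmx) with h2 | ⟨s, _, h2⟩
  · exact h2
  · have h3 := h2 m (interior_subset hm)
    simp only [inner_neg_right] at h3
    rw [hTe, sub_self, mul_zero] at h3
    linarith

/-- The top points over the closed interval. -/
theorem lg_top_closed {K : Set (Eu 2)} (hK : IsCompact K) {e f : Eu 2} {η a b : ℝ} (hab : a < b)
    (h : ∀ x, a < x → x < b → ∃ T ∈ K, ⟪T, e⟫ = x ∧ LgTop K e f η T) :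
    ∃ T ∈ K, ⟪T, e⟫ = a ∧ LgTop K e f η T := by
  set S : Set (Eu 2 × ℝ) := (K ×ˢ Icc (-η) η) ∩
    (⋂ z ∈ K, {q : Eu 2 × ℝ | ⟪z, f⟫ - ⟪q.1, f⟫ ≤ q.2 * (⟪z, e⟫ - ⟪q.1, e⟫)}) with hS
  have hSc : IsCompact S := by
    refine (hK.prod isCompact_Icc).inter_right ?_
    refine isClosed_biInter fun z _ => isClosed_le ?_ ?_ <;> fun_prop
  have hcl : IsClosed ((fun q : Eu 2 × ℝ => ⟪q.1, e⟫) '' S) :=
    (hSc.image (by fun_prop)).isClosed
  have hsub : Ioo a b ⊆ (fun q : Eu 2 × ℝ => ⟪q.1, e⟫) '' S := by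
    intro x hx
    obtain ⟨T, hT, hTe, s, hs, h2⟩ := h x hx.1 hx.2
    refine ⟨(T, s), ⟨⟨hT, abs_le.1 hs⟩, ?_⟩, hTe⟩
    simp only [mem_iInter, mem_ofPred_eq]
    exact h2
  have ha : a ∈ closure (Ioo a b) := by
    rw [closure_Ioo hab.ne]
    exact ⟨le_rfl, hab.le⟩
  obtain ⟨⟨T, s⟩, ⟨⟨hT, hs⟩, h2⟩, hTe⟩ := hcl.closure_subset_iff.2 hsub ha
  simp only [mem_iInter, mem_ofPred_eq] at h2
  exact ⟨T, hT, hTe, s, abs_le.2 hs, h2⟩

/-- No vertical edge at the leftmost abscissa. -/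
theorem lg_edge {K : Set (Eu 2)} (hK : Body0 K) {e f A T : Eu 2} (hF : Fr e f) {η : ℝ}
    (hA : A ∈ K) (hT : T ∈ K) (hmin : ∀ z ∈ K, ⟪A, e⟫ ≤ ⟪z, e⟫) (hTe : ⟪T, e⟫ = ⟪A, e⟫)
    (h : ∀ y ∈ frontier K, LgTop K e f η y ∨ LgTop K e (-f) η y) : ⟪T, f⟫ = ⟪A, f⟫ := by
  have hee : ⟪e, e⟫ = (1 : ℝ) := by rw [real_inner_self_eq_norm_sq, hF.1]; norm_num
  set c : Eu 2 := (1 / 2 : ℝ) • A + (1 / 2 : ℝ) • T with hc
  have hcK : c ∈ K := hK.1.2.1 hA hT (by norm_num) (by norm_num) (by norm_num)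
  have hce : ⟪c, e⟫ = ⟪A, e⟫ := by
    rw [hc, inner_add_left, real_inner_smul_left, real_inner_smul_left, hTe]; ring
  have hcf : ⟪c, f⟫ = (⟪A, f⟫ + ⟪T, f⟫) / 2 := by
    rw [hc, inner_add_left, real_inner_smul_left, real_inner_smul_left]; ring
  have hfr : c ∈ frontier K := by
    refine ⟨subset_closure hcK, fun hi => ?_⟩
    obtain ⟨r, hr, hmem⟩ := lg_move hi (v := -e) (by rw [norm_neg]; exact hF.1)
    have h1 := hmin _ hmem
    rw [inner_add_left, real_inner_smul_left, inner_neg_left, hee, hce] at h1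
    linarith only [hr, h1]
  rcases h c hfr with ⟨s, _, h2⟩ | ⟨s, _, h2⟩
  · have a1 := h2 A hA
    have a2 := h2 T hT
    rw [hce, sub_self, mul_zero, hcf] at a1
    rw [hce, hTe, sub_self, mul_zero, hcf] at a2
    linarith only [a1, a2]
  · have a1 := h2 A hA
    have a2 := h2 T hT
    simp only [inner_neg_right] at a1 a2
    rw [hce, sub_self, mul_zero, hcf] at a1
    rw [hce, hTe, sub_self, mul_zero, hcf] at a2
    linarith only [a2, a1]

/-- The upper half of the cone at the left tip. -/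
theorem lg_cone_half {K : Set (Eu 2)} (hK : Body0 K) {e f A B : Eu 2} (hF : Fr e f) {η : ℝ}
    (hA : A ∈ K) (hB : B ∈ K) (hmin : ∀ z ∈ K, ⟪A, e⟫ ≤ ⟪z, e⟫) (hab : ⟪A, e⟫ < ⟪B, e⟫)
    (h : ∀ y ∈ frontier K, LgTop K e f η y ∨ LgTop K e (-f) η y) {z : Eu 2} (hz : z ∈ K) :
    ⟪z, f⟫ - ⟪A, f⟫ ≤ η * (⟪z, e⟫ - ⟪A, e⟫) := by
  obtain ⟨T, hT, hTe, s, hs, h2⟩ := lg_top_closed hK.1.1 (e := e) (f := f) (η := η) hab
    (fun x h0 h1 => lg_top hK hF hA hB h0 h1 (fun y _ hy _ => h y hy))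
  have h3 := lg_edge hK hF hA hT hmin hTe h
  have h4 := h2 z hz
  rw [hTe, h3] at h4
  have h5 := hmin z hz
  have h6 : s ≤ η := (abs_le.1 hs).2
  linarith only [h4, h5, h6, mul_nonneg_of_nonpos_of_nonpos (Mathlib.Tactic.Linarith.sub_nonpos_of_le h5) (Mathlib.Tactic.Linarith.sub_nonpos_of_le h6)]

theorem lg_cone {K : Set (Eu 2)} (hK : Body0 K) {e f A B : Eu 2} (hF : Fr e f) {η : ℝ}
    (hA : A ∈ K) (hB : B ∈ K) (hmin : ∀ z ∈ K, ⟪A, e⟫ ≤ ⟪z, e⟫) (hab : ⟪A, e⟫ < ⟪B, e⟫)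
    (h : ∀ y ∈ frontier K, LgTop K e f η y ∨ LgTop K e (-f) η y) {z : Eu 2} (hz : z ∈ K) :
    |⟪z, f⟫ - ⟪A, f⟫| ≤ η * (⟪z, e⟫ - ⟪A, e⟫) := by
  have h1 := lg_cone_half hK hF hA hB hmin hab h hz
  have h2 := lg_cone_half hK hF.neg_right hA hB hmin hab
    (fun y hy => by rw [neg_neg]; exact (h y hy).symm) hz
  simp only [inner_neg_right] at h2
  rw [abs_le]
  constructor <;> linarith only [h2, h1]

/-- One quarter of the slope bound. -/
theorem lg_slope_q {K : Set (Eu 2)} (hK : Body0 K) {e f B : Eu 2} (hF : Fr e f) {η : ℝ}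
    (hB : B ∈ K) (h : ∀ y ∈ frontier K, LgTop K e f η y ∨ LgTop K e (-f) η y) {y ξ : Eu 2}
    (hy : y ∈ K) (hs : ∀ z ∈ K, ⟪z, ξ⟫ ≤ ⟪y, ξ⟫) (hyB : ⟪y, e⟫ < ⟪B, e⟫) (hξ : 0 ≤ ⟪ξ, f⟫) :
    ⟪ξ, e⟫ ≤ η * ⟪ξ, f⟫ := by
  obtain ⟨T, hT, hTe, s, hsη, h2⟩ := lg_top hK hF hy hB (η := η) (x := (⟪y, e⟫ + ⟪B, e⟫) / 2)
    (by linarith only [hyB]) (by linarith) (fun y _ hy _ => h y hy)
  have h3 := h2 y hy
  have h4 := hs T hT
  rw [hF.inner_eq T ξ, hF.inner_eq y ξ] at h4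
  have hd : 0 < ⟪T, e⟫ - ⟪y, e⟫ := by rw [hTe]; linarith only [hyB]
  have h5 : -η ≤ s := (abs_le.1 hsη).1
  have h6 : ⟪y, f⟫ - ⟪T, f⟫ ≤ η * (⟪T, e⟫ - ⟪y, e⟫) := by linarith only [h3, hyB, h5, hTe, mul_nonneg_of_nonpos_of_nonpos (le_of_lt (Mathlib.Tactic.Linarith.sub_neg_of_lt hyB)) (Mathlib.Tactic.Linarith.sub_nonpos_of_le h5), Mathlib.Tactic.Linarith.zero_mul_eq (sub_eq_zero_of_eq hTe) (Mathlib.Tactic.Linarith.sub_nonpos_of_le h5)]
  have h7 : (⟪T, e⟫ - ⟪y, e⟫) * ⟪ξ, e⟫ ≤ (⟪T, e⟫ - ⟪y, e⟫) * (η * ⟪ξ, f⟫) := by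
    have := mul_le_mul_of_nonneg_right h6 hξ
    linarith only [h4, this]
  exact le_of_mul_le_mul_left h7 hd

theorem lg_slope_h {K : Set (Eu 2)} (hK : Body0 K) {e f A B : Eu 2} (hF : Fr e f) {η : ℝ}
    (hA : A ∈ K) (hB : B ∈ K) (h : ∀ y ∈ frontier K, LgTop K e f η y ∨ LgTop K e (-f) η y)
    {y ξ : Eu 2} (hy : y ∈ K) (hs : ∀ z ∈ K, ⟪z, ξ⟫ ≤ ⟪y, ξ⟫) (hAy : ⟪A, e⟫ < ⟪y, e⟫)
    (hyB : ⟪y, e⟫ < ⟪B, e⟫) (hξ : 0 ≤ ⟪ξ, f⟫) : |⟪ξ, e⟫| ≤ η * ⟪ξ, f⟫ := by
  have h1 := lg_slope_q hK hF hB h hy hs hyB hξ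
  have h2 := lg_slope_q hK hF.neg_left hA (η := η)
    (fun y hy => (h y hy).imp LgTop.neg_left LgTop.neg_left) hy hs
    (by simp only [inner_neg_right]; linarith) hξ
  simp only [inner_neg_right] at h2
  rw [abs_le]
  constructor <;> linarith

theorem lens_geo {K : Set (Eu 2)} (hK : Body0 K) {e f : Eu 2} (hF : Fr e f) {η : ℝ} (hη : 0 < η)
    (hη1 : η ≤ 1 / 2) (h : ∀ y ∈ frontier K, ∀ r : ℝ, 0 < r → ∃ y' ∈ K, dist y' y < r ∧
      ∃ ξ : Eu 2, ‖ξ‖ = 1 ∧ ⟪y', ξ⟫ = supp K ξ ∧ |⟪ξ, e⟫| ≤ η * |⟪ξ, f⟫|) :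
    ∃ A B, Lens K e f A B η := by
  have hc := hK.1.1
  have hg : ∀ y ∈ frontier K, LgTop K e f η y ∨ LgTop K e (-f) η y :=
    fun y hy => lg_good hc hF (h y hy)
  have hne : K.Nonempty := ⟨0, interior_subset hK.2⟩
  have hee : ⟪e, e⟫ = (1 : ℝ) := by rw [real_inner_self_eq_norm_sq, hF.1]; norm_num
  obtain ⟨A, hA, hmin⟩ := hc.exists_isMinOn hne (f := fun z : Eu 2 => ⟪z, e⟫) (by fun_prop)
  obtain ⟨B, hB, hmax⟩ := hc.exists_isMaxOn hne (f := fun z : Eu 2 => ⟪z, e⟫) (by fun_prop)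
  have hmin' : ∀ z ∈ K, ⟪A, e⟫ ≤ ⟪z, e⟫ := fun z hz => hmin hz
  have hmax' : ∀ z ∈ K, ⟪z, e⟫ ≤ ⟪B, e⟫ := fun z hz => hmax hz
  have hab : ⟪A, e⟫ < ⟪B, e⟫ := by
    obtain ⟨r, hr, hmem⟩ := lg_move hK.2 hF.1
    have h1 := hmax' _ hmem
    have h2 := hmin' _ (interior_subset hK.2)
    rw [zero_add, real_inner_smul_left, hee] at h1
    rw [inner_zero_left] at h2
    linarith only [hr, h1, h2]
  refine ⟨A, B, hA, hB, fun z hz => ?_, fun z hz => ?_, fun y hy ξ _ hs h0 h1 => ?_⟩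
  · rw [inner_sub_left, inner_sub_left]
    exact lg_cone hK hF hA hB hmin' hab hg hz
  · have h1 := lg_cone hK hF.neg_left hB hA (η := η)
      (fun z hz => by simp only [inner_neg_right]; linarith [hmax' z hz])
      (by simp only [inner_neg_right]; linarith)
      (fun y hy => (hg y hy).imp LgTop.neg_left LgTop.neg_left) hz
    simp only [inner_neg_right] at h1
    rw [inner_sub_left, inner_sub_left]
    linarith only [h1]
  · have hs' : ∀ z ∈ K, ⟪z, ξ⟫ ≤ ⟪y, ξ⟫ := fun z hz => by rw [hs]; exact le_supp hc hz ξ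
    rcases le_total 0 ⟪ξ, f⟫ with hξ | hξ
    · rw [abs_of_nonneg hξ]
      exact lg_slope_h hK hF hA hB hg hy hs' h0 h1 hξ
    · have h2 := lg_slope_h hK hF.neg_right hA hB (η := η)
        (fun y hy => by rw [neg_neg]; exact (hg y hy).symm) hy hs' h0 h1
        (by rw [inner_neg_right]; linarith)
      rw [inner_neg_right] at h2
      rw [abs_of_nonpos hξ]
      exact h2

theorem Lens.swap {K : Set (Eu 2)} {e f A B : Eu 2} {η : ℝ} (h : Lens K e f A B η) :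
    Lens K (-e) f B A η := by
  refine ⟨h.memB, h.memA, fun z hz => ?_, fun z hz => ?_, fun y hy ξ hξ hs h0 h1 => ?_⟩
  · have := h.coneB z hz
    simp only [inner_neg_right, inner_sub_left] at this ⊢
    linarith
  · have := h.coneA z hz
    simp only [inner_neg_right, inner_sub_left] at this ⊢
    linarith
  · simp only [inner_neg_right, abs_neg] at h0 h1 ⊢
    exact h.slope y hy ξ hξ hs (by linarith) (by linarith)

theorem Lens.flip {K : Set (Eu 2)} {e f A B : Eu 2} {η : ℝ} (h : Lens K e f A B η) :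
    Lens K e (-f) A B η := by
  refine ⟨h.memA, h.memB, fun z hz => ?_, fun z hz => ?_, fun y hy ξ hξ hs h0 h1 => ?_⟩
  · rw [inner_neg_right, abs_neg]
    exact h.coneA z hz
  · rw [inner_neg_right, abs_neg]
    exact h.coneB z hz
  · rw [inner_neg_right, abs_neg]
    exact h.slope y hy ξ hξ hs h0 h1

/-- Top points and supporting slopes over every interior abscissa. -/
theorem Lens.exists_top {K : Set (Eu 2)} (hK : Body0 K) {e f A B : Eu 2} (hF : Fr e f) {η : ℝ}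
    (hη : 0 < η) (h : Lens K e f A B η) {x : ℝ} (hx0 : 0 < x) (hx1 : x < ⟪B - A, e⟫) :
    ∃ y ∈ K, ⟪y - A, e⟫ = x ∧ ∃ s : ℝ, |s| ≤ η ∧ ∀ z ∈ K, ⟪z - y, f⟫ ≤ s * ⟪z - y, e⟫ := by
  rw [inner_sub_left] at hx1
  obtain ⟨T, hT, hTe, s, hs, h2⟩ := lg_top hK hF h.memA h.memB (η := η) (x := ⟪A, e⟫ + x)
    (by linarith) (by linarith) (fun y hy hyf hye => by
      obtain ⟨ξ, hξ, hs⟩ := exists_normal hK.1 hyf
      exact lg_type hF hξ (fun z hz => by rw [hs]; exact le_supp hK.1.1 hz ξ)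
        (h.slope y hy ξ hξ hs (by linarith) (by linarith)))
  refine ⟨T, hT, by rw [inner_sub_left, hTe]; ring, s, hs, fun z hz => ?_⟩
  rw [inner_sub_left, inner_sub_left]
  exact h2 z hz

/-- An interior point close to the far tip. -/
theorem Lens.exists_interior {K : Set (Eu 2)} (hK : Body0 K) {e f A B : Eu 2} {η : ℝ}
    (hη : 0 < η) (hη1 : η ≤ 1 / 2) (h : Lens K e f A B η) (hw : ⟪B - A, e⟫ = 1) :
    ∃ M ∈ interior K, 7 / 8 ≤ ⟪M - A, e⟫ ∧ ⟪M - A, e⟫ ≤ 1 ∧ |⟪M - A, f⟫| ≤ ⟪M - A, e⟫ := by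
  have hM : (1 / 8 : ℝ) • (0 : Eu 2) + (7 / 8 : ℝ) • B ∈ interior K :=
    hK.1.2.1.combo_interior_self_mem_interior hK.2 h.memB (by norm_num) (by norm_num) (by norm_num)
  rw [smul_zero, zero_add] at hM
  have h0 : (0 : Eu 2) ∈ K := interior_subset hK.2
  have a1 : 0 ≤ ⟪0 - A, e⟫ :=
    nonneg_of_mul_nonneg_right ((abs_nonneg _).trans (h.coneA 0 h0)) hη |> fun t => t
  have a2 : 0 ≤ ⟪B - 0, e⟫ :=
    nonneg_of_mul_nonneg_right ((abs_nonneg _).trans (h.coneB 0 h0)) hη |> fun t => t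
  have a3 := h.coneA _ (interior_subset hM)
  rw [inner_sub_left, inner_zero_left] at a1 a2
  rw [inner_sub_left] at hw
  have a4 : ⟪(7 / 8 : ℝ) • B - A, e⟫ = 7 / 8 * ⟪B, e⟫ - ⟪A, e⟫ := by
    rw [inner_sub_left, real_inner_smul_left]
  refine ⟨_, hM, by rw [a4]; linarith only [hw, a1], by rw [a4]; linarith only [hw, a2], a3.trans ?_⟩
  have a5 : 0 ≤ ⟪(7 / 8 : ℝ) • B - A, e⟫ := by rw [a4]; linarith only [hη, hη1, hw, a1]
  linarith only [hη1, hw, a1, a4, hη, a2, mul_pos_of_neg_of_neg (Mathlib.Tactic.Linarith.sub_neg_of_lt hη) (Mathlib.Tactic.Linarith.sub_neg_of_lt hη), mul_nonneg_of_nonpos_of_nonpos (le_of_lt (Mathlib.Tactic.Linarith.sub_neg_of_lt hη)) (Mathlib.Tactic.Linarith.sub_nonpos_of_le hη1), Mathlib.Tactic.Linarith.mul_zero_eq (Mathlib.Tactic.Linarith.sub_neg_of_lt hη) (sub_eq_zero_of_eq hw), mul_nonneg_of_nonpos_of_nonpos (le_of_lt (Mathlib.Tactic.Linarith.sub_neg_of_lt hη)) (Mathlib.Tactic.Linarith.sub_nonpos_of_le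 a2), Mathlib.Tactic.Linarith.mul_zero_eq (Mathlib.Tactic.Linarith.sub_neg_of_lt hη) (sub_eq_zero_of_eq a4)]

end Pool.Agent.Work.MP_f7e2e5_gt
end
end

-- merged part: Pool.Agent.Work.MP_f7e2e5_gt.LensHalf
section
open MeasureTheory Set Metric Filter Topology
open scoped RealInnerProductSpace Pointwise ContDiff NNReal

noncomputable section

namespace Pool.Agent.Work.MP_f7e2e5_gt

variable {p : ℝ}

/-- The purely numerical part of the discrete Gronwall argument. -/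
theorem lh_gronwall {D a : ℕ → ℝ} {ε δ : ℝ} (hε0 : 0 ≤ ε) (hε : ε ≤ 1 / 10) (hδ : 0 ≤ δ)
    (ha0 : a 0 = 3 * δ) (ha : ∀ k, 3 * δ ≤ a k) (hrec : ∀ k, (1 - ε) * a (k + 1) ≤ a k)
    (hD : ∀ k, D k ≤ D (k + 1) + (a (k + 1) - 3 * δ) * (1 / 2 : ℝ) ^ (k + 2))
    (hD1 : ∀ k, D k ≤ (1 / 2 : ℝ) ^ (k + 1)) : D 0 ≤ 4 * ε * δ := by
  set c : ℝ := 1 + 8 * ε / 3 with hc
  have hc1 : 1 ≤ c := by rw [hc]; linarith only [hε0]
  have hc2 : c + 1 ≤ 2 * c * (1 - ε) := by rw [hc]; linarith only [hε0, hε, mul_nonneg_of_nonpos_of_nonpos (Mathlib.Tactic.Linarith.sub_nonpos_of_le hε0) (Mathlib.Tactic.Linarith.sub_nonpos_of_le hε)]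
  have step : ∀ k, D k - (1 / 2 : ℝ) ^ (k + 1) * (c * a k - 3 * δ) ≤
      D (k + 1) - (1 / 2 : ℝ) ^ (k + 2) * (c * a (k + 1) - 3 * δ) := by
    intro k
    have hx : (0 : ℝ) < (1 / 2 : ℝ) ^ (k + 2) := by positivity
    have hx2 : (1 / 2 : ℝ) ^ (k + 1) = 2 * (1 / 2 : ℝ) ^ (k + 2) := by
      rw [pow_succ (1 / 2 : ℝ) (k + 1)]; ring
    have h1 : (c + 1) * a (k + 1) ≤ 2 * c * a k := by
      have h2 : 0 ≤ a (k + 1) := le_trans (by linarith only [hδ]) (ha (k + 1))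
      have h3 : (c + 1) * a (k + 1) ≤ 2 * c * (1 - ε) * a (k + 1) :=
        mul_le_mul_of_nonneg_right hc2 h2
      have h4 : 2 * c * ((1 - ε) * a (k + 1)) ≤ 2 * c * a k :=
        mul_le_mul_of_nonneg_left (hrec k) (by linarith only [hε0, hc])
      linarith only [h3, h4]
    have h5 := mul_le_mul_of_nonneg_left h1 hx.le
    have h6 := hD k
    rw [hx2]
    linarith only [h5, h6]
  have mono : ∀ k, D 0 - (1 / 2 : ℝ) ^ (0 + 1) * (c * a 0 - 3 * δ) ≤
      D k - (1 / 2 : ℝ) ^ (k + 1) * (c * a k - 3 * δ) := by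
    intro k
    induction k with
    | zero => exact le_rfl
    | succ k ih => exact ih.trans (step k)
  have bd : ∀ k, D 0 - 4 * ε * δ ≤ (1 / 2 : ℝ) ^ (k + 1) := by
    intro k
    have h1 := mono k
    have h2 : 0 ≤ c * a k - 3 * δ := by
      have := ha k
      linarith only [this, hε0, hδ, hc, mul_nonneg_of_nonpos_of_nonpos (Mathlib.Tactic.Linarith.sub_nonpos_of_le hε0) (Mathlib.Tactic.Linarith.sub_nonpos_of_le hδ), mul_nonneg_of_nonpos_of_nonpos (Mathlib.Tactic.Linarith.sub_nonpos_of_le hε0) (Mathlib.Tactic.Linarith.sub_nonpos_of_le this), Mathlib.Tactic.Linarith.mul_zero_eq (Mathlib.Tactic.Linarith.sub_nonpos_of_le hδ) (sub_eq_zero_of_eq hc), Mathlib.Tactic.Linarith.zero_mul_eq (sub_eq_zero_of_eq hc) (Mathlib.Tactic.Linarith.sub_nonpos_of_le this)]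
    have h3 : 0 ≤ (1 / 2 : ℝ) ^ (k + 1) * (c * a k - 3 * δ) := by positivity
    have h4 : (1 / 2 : ℝ) ^ (0 + 1) * (c * a 0 - 3 * δ) = 4 * ε * δ := by
      rw [ha0, hc]; ring
    have h5 := hD1 k
    linarith only [h1, h3, h4, h5]
  have hlim : Tendsto (fun k : ℕ => (1 / 2 : ℝ) ^ (k + 1)) atTop (𝓝 0) :=
    (tendsto_pow_atTop_nhds_zero_of_lt_one (by norm_num) (by norm_num)).comp
      (tendsto_add_atTop_nat 1)
  have := ge_of_tendsto' hlim bd
  linarith only [this]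

theorem lh_range {K : Set (Eu 2)} {e f A B : Eu 2} {η : ℝ} (hη : 0 < η) (h : Lens K e f A B η)
    (hw : ⟪B - A, e⟫ = 1) {z : Eu 2} (hz : z ∈ K) : 0 ≤ ⟪z - A, e⟫ ∧ ⟪z - A, e⟫ ≤ 1 := by
  have h1 := (abs_nonneg _).trans (h.coneA z hz)
  have h2 := (abs_nonneg _).trans (h.coneB z hz)
  have h3 : 0 ≤ ⟪z - A, e⟫ := nonneg_of_mul_nonneg_right h1 hη
  have h4 : 0 ≤ ⟪B - z, e⟫ := nonneg_of_mul_nonneg_right h2 hη
  rw [inner_sub_left] at *
  constructor <;> linarith only [h3, hw, h4]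

/-- Location and support number of a regular point whose slope lies between two slopes. -/
theorem lh_point {K : Set (Eu 2)} (hK : Body0 K) {e f A B : Eu 2} (hF : Fr e f) {η : ℝ}
    (hη : 0 < η) (hη1 : η ≤ 1 / 2) (h : Lens K e f A B η) (hw : ⟪B - A, e⟫ = 1) {δ : ℝ}
    (hδ : ∀ z ∈ K, ∀ z' ∈ K, ⟪z - z', f⟫ - ⟪B - A, f⟫ * ⟪z - z', e⟫ ≤ δ)
    {u v : Eu 2} (hu : u ∈ K) (hv : v ∈ K) {r su sv H : ℝ} (hux : ⟪u - A, e⟫ = 2 * r)
    (hvx : ⟪v - A, e⟫ = r) (hsu : ∀ z ∈ K, ⟪z - u, f⟫ ≤ su * ⟪z - u, e⟫)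
    (hsv : ∀ z ∈ K, ⟪z - v, f⟫ ≤ sv * ⟪z - v, e⟫)
    (hH : ∀ s, su ≤ s → s ≤ sv → δ + |s - ⟪B - A, f⟫| ≤ H)
    {y : Eu 2} (hy : y ∈ Reg K) (h1 : 0 < ⟪nrm K y, f⟫)
    (h2 : su * ⟪nrm K y, f⟫ < -⟪nrm K y, e⟫) (h3 : -⟪nrm K y, e⟫ < sv * ⟪nrm K y, f⟫) :
    (r ≤ ⟪y - A, e⟫ ∧ ⟪y - A, e⟫ ≤ 2 * r ∧ |⟪y - A, f⟫| ≤ 2 * r) ∧ supp K (nrm K y) ≤ H := by
  obtain ⟨hn, hs, -⟩ := reg_normal hK hy
  have hyK : y ∈ K := hK.1.1.isClosed.frontier_subset hy.1
  have h0K : (0 : Eu 2) ∈ K := interior_subset hK.2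
  set ξ := nrm K y with hξ
  set a := ⟪ξ, e⟫ with ha
  set b := ⟪ξ, f⟫ with hb
  obtain ⟨s, hsdef⟩ : ∃ s : ℝ, s * b = -a := ⟨-a / b, by field_simp⟩
  have hs1 : su < s := by
    rw [← hsdef] at h2
    exact lt_of_mul_lt_mul_right h2 h1.le
  have hs2 : s < sv := by
    rw [← hsdef] at h3
    exact lt_of_mul_lt_mul_right h3 h1.le
  have hin : ∀ z : Eu 2, ⟪z, ξ⟫ = b * (⟪z, f⟫ - s * ⟪z, e⟫) := by
    intro z
    rw [hF.inner_eq z ξ, ← ha, ← hb]
    linear_combination ⟪z, e⟫ * hsdef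
  have hsup : ∀ z ∈ K, ⟪z - y, f⟫ ≤ s * ⟪z - y, e⟫ := by
    intro z hz
    have h4 := le_supp hK.1.1 hz ξ
    rw [← hs] at h4
    have h5 : ⟪z - y, ξ⟫ ≤ 0 := by rw [inner_sub_left]; linarith only [h4]
    rw [hin] at h5
    have h6 : ⟪z - y, f⟫ - s * ⟪z - y, e⟫ ≤ 0 := by
      by_contra hc
      push Not at hc
      have := mul_pos h1 hc
      linarith only [h5, this]
    linarith only [h6]
  have e1 := hsup u hu
  have e2 := hsu y hyK
  have e3 := hsup v hv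
  have e4 := hsv y hyK
  have hrA := lh_range hη h hw hyK
  have hr0 := lh_range hη h hw h0K
  have hcone := h.coneA y hyK
  have hd := hδ y hyK 0 h0K
  have hXu : ⟪y - A, e⟫ ≤ 2 * r := by
    rw [← hux]
    simp only [inner_sub_left] at e1 e2 ⊢
    by_contra hc
    push Not at hc
    have : 0 < (s - su) * (⟪y, e⟫ - ⟪u, e⟫) := mul_pos (by linarith only [hs1]) (by linarith only [hc])
    linarith only [e1, e2, this]
  have hXv : r ≤ ⟪y - A, e⟫ := by
    rw [← hvx]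
    simp only [inner_sub_left] at e3 e4 ⊢
    by_contra hc
    push Not at hc
    have : 0 < (sv - s) * (⟪v, e⟫ - ⟪y, e⟫) := mul_pos (by linarith only [hs2]) (by linarith only [hc])
    linarith only [e3, e4, this]
  refine ⟨⟨hXv, hXu, ?_⟩, ?_⟩
  · have : η * ⟪y - A, e⟫ ≤ 1 * ⟪y - A, e⟫ := mul_le_mul_of_nonneg_right (by linarith only [hη, hη1]) hrA.1
    linarith only [hcone, hXu, this]
  · have hb1 : b ≤ 1 := by
      have h7 := hF.norm_sq ξ
      rw [hn, ← ha, ← hb] at h7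
      (refine le_of_not_gt fun h_nl => ?_; linarith only [h_nl, h7, hη, hη1, h1, sq_nonneg a, sq_nonneg a, mul_pos_of_neg_of_neg (Mathlib.Tactic.Linarith.sub_neg_of_lt hη) (Mathlib.Tactic.Linarith.sub_neg_of_lt h_nl), mul_nonneg_of_nonpos_of_nonpos (Mathlib.Tactic.Linarith.sub_nonpos_of_le hη1) (le_of_lt (Mathlib.Tactic.Linarith.sub_neg_of_lt h_nl)), mul_pos_of_neg_of_neg (Mathlib.Tactic.Linarith.sub_neg_of_lt h1) (Mathlib.Tactic.Linarith.sub_neg_of_lt h_nl)])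
    have hpos : 0 < supp K ξ := hK.supp_pos (by
      intro h0
      rw [h0, norm_zero] at hn
      exact zero_ne_one hn)
    rw [← hs, hin] at hpos ⊢
    have hT : 0 < ⟪y, f⟫ - s * ⟪y, e⟫ := (mul_pos_iff_of_pos_left h1).1 hpos
    have hye : |⟪y, e⟫| ≤ 1 := by
      simp only [inner_sub_left, inner_zero_left] at hrA hr0
      rw [abs_le]
      constructor <;> linarith only [hrA, hr0, hrA.1, hrA.2, hr0.1, hr0.2]
    have h8 : (⟪B - A, f⟫ - s) * ⟪y, e⟫ ≤ |s - ⟪B - A, f⟫| := by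
      calc (⟪B - A, f⟫ - s) * ⟪y, e⟫ ≤ |(⟪B - A, f⟫ - s) * ⟪y, e⟫| := le_abs_self _
        _ = |s - ⟪B - A, f⟫| * |⟪y, e⟫| := by rw [abs_mul, abs_sub_comm]
        _ ≤ |s - ⟪B - A, f⟫| * 1 := mul_le_mul_of_nonneg_left hye (abs_nonneg _)
        _ = _ := mul_one _
    have h9 := hH s hs1.le hs2.le
    rw [sub_zero] at hd
    have h10 : b * (⟪y, f⟫ - s * ⟪y, e⟫) ≤ 1 * (⟪y, f⟫ - s * ⟪y, e⟫) :=
      mul_le_mul_of_nonneg_right hb1 hT.le
    linarith only [hd, h8, h9, h10]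

/-- Comparison of a mass with the force integral. -/
theorem lh_mass {K : Set (Eu 2)} (hK : Body0 K) (τ : Measure (Eu 2)) [IsFiniteMeasure τ]
    (hreg : ∀ᵐ y ∂τ, y ∈ Reg K) {S Q : Set (Eu 2)} (hS : MeasurableSet S) (hQ : MeasurableSet Q)
    {H : ℝ} (hH : 0 ≤ H) (hSQ : ∀ y ∈ Reg K, y ∈ S → y ∈ Q ∧ supp K (nrm K y) ≤ H) :
    τ.real S ≤ H * ∫ y in Q, (supp K (nrm K y))⁻¹ ∂τ := by
  obtain ⟨ρ, R, hρ, -, hρK, -⟩ := hK.exists_radii
  have hlow : ∀ y ∈ Reg K, ρ ≤ supp K (nrm K y) := by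
    intro y hy
    obtain ⟨hn, -, -⟩ := reg_normal hK hy
    have hm : ρ • nrm K y ∈ K := hρK (by
      rw [mem_closedBall_zero_iff, norm_smul, hn, Real.norm_of_nonneg hρ.le, mul_one])
    have := le_supp hK.1.1 hm (nrm K y)
    rwa [real_inner_smul_left, real_inner_self_eq_norm_sq, hn, one_pow, mul_one] at this
  have hmeas : Measurable fun y => (supp K (nrm K y))⁻¹ :=
    ((continuous_supp hK.1.1).measurable.comp (measurable_nrm K)).inv
  have hint : Integrable (fun y => (supp K (nrm K y))⁻¹) τ := by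
    refine Integrable.of_bound hmeas.aestronglyMeasurable ρ⁻¹ ?_
    filter_upwards [hreg] with y hy
    have h1 := hlow y hy
    rw [Real.norm_of_nonneg (inv_nonneg.2 (hρ.le.trans h1))]
    exact inv_anti₀ hρ h1
  rw [← integral_indicator_one hS, ← integral_const_mul, ← integral_indicator hQ]
  refine integral_mono_ae ((integrable_const (1 : ℝ)).indicator hS)
    ((hint.const_mul H).indicator hQ) ?_
  filter_upwards [hreg] with y hy
  have h1 := hlow y hy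
  have hp : 0 < supp K (nrm K y) := hρ.trans_le h1
  by_cases hyS : y ∈ S
  · obtain ⟨h2, h3⟩ := hSQ y hy hyS
    rw [indicator_of_mem hyS, indicator_of_mem h2, Pi.one_apply, ← div_eq_mul_inv,
      le_div_iff₀ hp, one_mul]
    exact h3
  · rw [indicator_of_notMem hyS]
    exact indicator_apply_nonneg fun _ => mul_nonneg hH (inv_nonneg.2 hp.le)

/-- The discrete Gronwall argument on one quarter of the boundary. -/
theorem lens_half {K : Set (Eu 2)} (hK : Body0 K) {e f A B : Eu 2} (hF : Fr e f) {η : ℝ}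
    (hη : 0 < η) (hη1 : η ≤ 1 / 2) (h : Lens K e f A B η) (hw : ⟪B - A, e⟫ = 1)
    (τ : Measure (Eu 2)) [IsFiniteMeasure τ] (hreg : ∀ᵐ y ∂τ, y ∈ Reg K) {κ A1 δ : ℝ}
    (hA1 : 0 < A1) (hκ : 10 * A1 ≤ κ)
    (hdens : ∀ s s' : ℝ, -η ≤ s → s ≤ s' → s' ≤ η → κ * (s' - s) ≤
      τ.real {y | 0 < ⟪nrm K y, f⟫ ∧ s * ⟪nrm K y, f⟫ < -⟪nrm K y, e⟫ ∧
        -⟪nrm K y, e⟫ < s' * ⟪nrm K y, f⟫})
    (hforce : ∀ r : ℝ, 0 < r → r ≤ 1 / 4 →
      ∫ y in {y | r ≤ ⟪y - A, e⟫ ∧ ⟪y - A, e⟫ ≤ 2 * r ∧ |⟪y - A, f⟫| ≤ 2 * r},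
        (supp K (nrm K y))⁻¹ ∂τ ≤ A1)
    (hδ : ∀ z ∈ K, ∀ z' ∈ K, ⟪z - z', f⟫ - ⟪B - A, f⟫ * ⟪z - z', e⟫ ≤ δ)
    {y1 : Eu 2} (hy1 : y1 ∈ K) (hx1 : ⟪y1 - A, e⟫ = 1 / 2) {s1 : ℝ}
    (hs1 : ∀ z ∈ K, ⟪z - y1, f⟫ ≤ s1 * ⟪z - y1, e⟫) :
    s1 * ⟪A - y1, e⟫ - ⟪A - y1, f⟫ ≤ 4 * (A1 / κ) * δ := by
  have hκ0 : 0 < κ := by linarith only [hA1, hκ]
  have hδ0 : 0 ≤ δ := by
    have := hδ A h.memA A h.memA
    simpa using this
  -- the first slope
  have hA := hs1 A h.memA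
  have hB := hs1 B h.memB
  have hcB := h.coneB y1 hy1
  have hcA := h.coneA y1 hy1
  have hd1 := hδ y1 hy1 A h.memA
  have hs1l : -η ≤ s1 := by
    have h1 := (abs_le.1 hcB).2
    simp only [inner_sub_left] at hB h1 hw hx1
    have e1 : ⟪B, e⟫ - ⟪y1, e⟫ = 1 / 2 := by linarith only [hw, hx1]
    rw [e1] at hB h1
    linarith only [hB, h1]
  have hs1u : s1 ≤ η := by
    have h1 := (abs_le.1 hcA).2
    simp only [inner_sub_left] at hA h1 hx1
    have e1 : ⟪A, e⟫ - ⟪y1, e⟫ = -(1 / 2) := by linarith only [hx1]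
    rw [e1] at hA
    rw [hx1] at h1
    linarith only [hA, h1]
  have hsc : |s1 - ⟪B - A, f⟫| ≤ 2 * δ := by
    rw [hx1] at hd1
    simp only [inner_sub_left] at hA hB hw hx1 hd1 ⊢
    have e1 : ⟪B, e⟫ - ⟪y1, e⟫ = 1 / 2 := by linarith only [hw, hx1]
    have e2 : ⟪A, e⟫ - ⟪y1, e⟫ = -(1 / 2) := by linarith only [hx1]
    rw [e1] at hB
    rw [e2] at hA
    rw [abs_le]
    constructor <;> linarith only [hB, hd1, hA]
  -- the sequence of top points
  have hex : ∀ k : ℕ, ∃ y ∈ K, ⟪y - A, e⟫ = (1 / 2 : ℝ) ^ (k + 1) ∧ ∃ s : ℝ, |s| ≤ η ∧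
      (∀ z ∈ K, ⟪z - y, f⟫ ≤ s * ⟪z - y, e⟫) ∧ (k = 0 → y = y1 ∧ s = s1) := by
    intro k
    rcases Nat.eq_zero_or_pos k with rfl | hk
    · exact ⟨y1, hy1, by rw [hx1]; norm_num, s1, abs_le.2 ⟨hs1l, hs1u⟩, hs1, fun _ => ⟨rfl, rfl⟩⟩
    · obtain ⟨y, hy, hx, s, hs, hz⟩ := h.exists_top hK hF hη (x := (1 / 2 : ℝ) ^ (k + 1))
        (by positivity) (by
          rw [hw]
          exact pow_lt_one₀ (by norm_num) (by norm_num) (by omega))
      exact ⟨y, hy, hx, s, hs, hz, fun h0 => absurd h0 hk.ne'⟩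
  choose Y hYK hYx s hsη hsup h0 using hex
  obtain ⟨hY0, hs0⟩ := h0 0 rfl
  have hx2 : ∀ k : ℕ, (1 / 2 : ℝ) ^ (k + 1) = 2 * (1 / 2 : ℝ) ^ (k + 1 + 1) := by
    intro k
    rw [pow_succ (1 / 2 : ℝ) (k + 1)]; ring
  have hdiff : ∀ k, ⟪Y k, e⟫ - ⟪Y (k + 1), e⟫ = (1 / 2 : ℝ) ^ (k + 1 + 1) := by
    intro k
    have h1 := hYx k
    have h2 := hYx (k + 1)
    have h3 := hx2 k
    simp only [inner_sub_left] at h1 h2
    linarith only [h3, h1, h2]
  have hmono : ∀ k, s k ≤ s (k + 1) := by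
    intro k
    have h1 := hsup k (Y (k + 1)) (hYK _)
    have h2 := hsup (k + 1) (Y k) (hYK _)
    have h3 := hdiff k
    have h4 : (0 : ℝ) < (1 / 2 : ℝ) ^ (k + 1 + 1) := by positivity
    simp only [inner_sub_left] at h1 h2
    have e1 : ⟪Y (k + 1), e⟫ - ⟪Y k, e⟫ = -(1 / 2 : ℝ) ^ (k + 1 + 1) := by linarith only [h3]
    rw [e1] at h1
    rw [h3] at h2
    by_contra hc
    push Not at hc
    have := mul_pos (sub_pos.2 hc) h4
    linarith only [h1, h2, this]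
  have hge : ∀ k, s1 ≤ s k := by
    intro k
    induction k with
    | zero => exact hs0.ge
    | succ k ih => exact ih.trans (hmono k)
  have hmn : Measurable fun y => ⟪nrm K y, e⟫ := (measurable_nrm K).inner_const
  have hmf : Measurable fun y => ⟪nrm K y, f⟫ := (measurable_nrm K).inner_const
  have hrec : ∀ k, κ * (s (k + 1) - s k) ≤ (s (k + 1) - s1 + 3 * δ) * A1 := by
    intro k
    have hr0 : (0 : ℝ) < (1 / 2 : ℝ) ^ (k + 1 + 1) := by positivity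
    have hr1 : (1 / 2 : ℝ) ^ (k + 1 + 1) ≤ 1 / 4 := by
      have : (1 / 2 : ℝ) ^ (k + 1 + 1) ≤ (1 / 2 : ℝ) ^ 2 :=
        pow_le_pow_of_le_one (by norm_num) (by norm_num) (by omega)
      linarith only [this]
    have hH : 0 ≤ s (k + 1) - s1 + 3 * δ := by linarith only [hδ0, hge, hge (k + 1)]
    have h1 := hdens (s k) (s (k + 1)) (abs_le.1 (hsη k)).1 (hmono k) (abs_le.1 (hsη (k + 1))).2
    have h2 := hforce _ hr0 hr1
    have hS : MeasurableSet {y | 0 < ⟪nrm K y, f⟫ ∧ s k * ⟪nrm K y, f⟫ < -⟪nrm K y, e⟫ ∧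
        -⟪nrm K y, e⟫ < s (k + 1) * ⟪nrm K y, f⟫} :=
      (measurableSet_lt measurable_const hmf).inter
        ((measurableSet_lt (hmf.const_mul _) hmn.neg).inter
          (measurableSet_lt hmn.neg (hmf.const_mul _)))
    have hQ : MeasurableSet {y : Eu 2 | (1 / 2 : ℝ) ^ (k + 1 + 1) ≤ ⟪y - A, e⟫ ∧
        ⟪y - A, e⟫ ≤ 2 * (1 / 2 : ℝ) ^ (k + 1 + 1) ∧
        |⟪y - A, f⟫| ≤ 2 * (1 / 2 : ℝ) ^ (k + 1 + 1)} := by
      have c1 : Continuous fun y : Eu 2 => ⟪y - A, e⟫ := by fun_prop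
      have c2 : Continuous fun y : Eu 2 => |⟪y - A, f⟫| := by fun_prop
      exact ((isClosed_le continuous_const c1).inter ((isClosed_le c1 continuous_const).inter
        (isClosed_le c2 continuous_const))).measurableSet
    have h3 := lh_mass hK τ hreg hS hQ hH (fun y hy hyS =>
      lh_point hK hF hη hη1 h hw hδ (hYK k) (hYK (k + 1)) ((hYx k).trans (hx2 k)) (hYx (k + 1))
        (hsup k) (hsup (k + 1)) (fun t ht1 ht2 => by
          have h4 : |t - ⟪B - A, f⟫| ≤ |t - s1| + |s1 - ⟪B - A, f⟫| := abs_sub_le _ _ _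
          have h5 : |t - s1| = t - s1 := abs_of_nonneg (by linarith only [ht1, hge, hge k])
          linarith only [hsc, ht2, h4, h5]) hy hyS.1 hyS.2.1 hyS.2.2)
    exact h1.trans (h3.trans (mul_le_mul_of_nonneg_left h2 hH))
  have key := lh_gronwall (D := fun k => ⟪Y k - A, f⟫ - s1 * (1 / 2 : ℝ) ^ (k + 1))
    (a := fun k => s k - s1 + 3 * δ) (ε := A1 / κ) (δ := δ) (by positivity)
    (by rw [div_le_iff₀ hκ0]; linarith only [hκ]) hδ0 (by simp [hs0]) (fun k => by linarith only [hge, hge k])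
    (fun k => by
      have h1 := hrec k
      have h2 : s (k + 1) - s k ≤ A1 / κ * (s (k + 1) - s1 + 3 * δ) := by
        rw [div_mul_eq_mul_div, le_div_iff₀ hκ0]
        linarith only [h1]
      linarith only [h2])
    (fun k => by
      have h2 := hsup (k + 1) (Y k) (hYK _)
      have h3 := hx2 k
      simp only [inner_sub_left] at h2 ⊢
      rw [hdiff k] at h2
      rw [h3]
      have e1 : (1 / 2 : ℝ) ^ (k + 2) = (1 / 2 : ℝ) ^ (k + 1 + 1) := rfl
      rw [e1]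
      linarith only [h2])
    (fun k => by
      have h1 := (abs_le.1 (h.coneA (Y k) (hYK k))).2
      rw [hYx k] at h1
      have h4 : (0 : ℝ) < (1 / 2 : ℝ) ^ (k + 1) := by positivity
      have h5 : (η - s1) * (1 / 2 : ℝ) ^ (k + 1) ≤ 1 * (1 / 2 : ℝ) ^ (k + 1) :=
        mul_le_mul_of_nonneg_right (by linarith only [hη1, hs1l]) h4.le
      linarith only [h1, h5])
  simp only [hY0, zero_add, pow_one, inner_sub_left] at key hx1 ⊢
  have e2 : ⟪A, e⟫ - ⟪y1, e⟫ = -(1 / 2) := by linarith only [hx1]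
  rw [e2]
  linarith only [key]

end Pool.Agent.Work.MP_f7e2e5_gt
end
end

-- merged part: Pool.Agent.Work.MP_f7e2e5_gt.Force
section
open MeasureTheory Set Metric Filter Topology
open scoped RealInnerProductSpace Pointwise ContDiff NNReal

noncomputable section

namespace Pool.Agent.Work.MP_f7e2e5_gt

variable {p : ℝ}

theorem Force_zeta : ∃ ζ : ℝ → ℝ, ContDiff ℝ 1 ζ ∧ (∀ t, 1 ≤ t → ζ t = 1) ∧
    (∀ t, t ≤ -1 → ζ t = -1) ∧ ∀ t, |ζ t| ≤ 1 := by
  refine ⟨fun t => 2 * Real.smoothTransition ((t + 1) / 2) - 1, ?_, fun t ht => ?_, fun t ht => ?_,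
    fun t => ?_⟩
  · exact (contDiff_const.mul (Real.smoothTransition.contDiff.comp
      ((contDiff_id.add contDiff_const).div_const _))).sub contDiff_const
  · simp only
    rw [Real.smoothTransition.one_of_one_le (by linarith only [ht])]
    norm_num
  · simp only
    rw [Real.smoothTransition.zero_of_nonpos (by linarith only [ht])]
    norm_num
  · have h0 := Real.smoothTransition.nonneg ((t + 1) / 2)
    have h1 := Real.smoothTransition.le_one ((t + 1) / 2)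
    rw [abs_le]
    constructor <;> linarith only [h0, h1]

theorem Force_bump : ∃ C : ℝ, 0 < C ∧ ∀ (e f A : Eu 2) (r : ℝ), Fr e f → 0 < r →
    ∃ χ : Eu 2 → ℝ, ContDiff ℝ 1 χ ∧ (∀ y, 0 ≤ χ y ∧ χ y ≤ 1) ∧
      (∀ y, r ≤ ⟪y - A, e⟫ → ⟪y - A, e⟫ ≤ 2 * r → |⟪y - A, f⟫| ≤ 2 * r → χ y = 1) ∧
      (∀ y ∈ tsupport χ, r / 2 ≤ ⟪y - A, e⟫ ∧ ⟪y - A, e⟫ ≤ 5 * r / 2 ∧ |⟪y - A, f⟫| ≤ 4 * r) ∧
      ∀ y, ‖fderiv ℝ χ y‖ ≤ C / r := by
  let B : ContDiffBump ((3 / 2, 0) : ℝ × ℝ) := ⟨1 / 2, 1, by norm_num, by norm_num⟩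
  have hB : ContDiff ℝ 1 B := B.contDiff
  obtain ⟨C, hC⟩ := (B.hasCompactSupport.fderiv ℝ).exists_bound_of_continuous
    (hB.continuous_fderiv one_ne_zero)
  have hC0 : 0 ≤ C := (norm_nonneg _).trans (hC 0)
  refine ⟨C + 1, by linarith, fun e f A r hF hr => ?_⟩
  let L : Eu 2 →L[ℝ] ℝ × ℝ := (r⁻¹ • innerSL ℝ e).prod ((4 * r)⁻¹ • innerSL ℝ f)
  have hL : ∀ z, L z = (r⁻¹ * ⟪z, e⟫, (4 * r)⁻¹ * ⟪z, f⟫) := fun z => by
    simp [L, real_inner_comm]
  have hLn : ‖L‖ ≤ r⁻¹ := by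
    refine ContinuousLinearMap.opNorm_le_bound _ (by positivity) fun z => ?_
    have h1 : |⟪z, e⟫| ≤ ‖z‖ := by simpa [hF.1] using abs_real_inner_le_norm z e
    have h2 : |⟪z, f⟫| ≤ ‖z‖ := by simpa [hF.2.1] using abs_real_inner_le_norm z f
    rw [hL, Prod.norm_def, max_le_iff, Real.norm_eq_abs, Real.norm_eq_abs, abs_mul, abs_mul,
      abs_of_pos (inv_pos.2 hr), abs_of_pos (by positivity : 0 < (4 * r)⁻¹)]
    refine ⟨mul_le_mul_of_nonneg_left h1 (by positivity), mul_le_mul ?_ h2 (abs_nonneg _)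
      (by positivity)⟩
    exact inv_anti₀ hr (by linarith)
  have hT : ∀ y, HasFDerivAt (fun y => L (y - A)) L y := fun y =>
    L.hasFDerivAt.comp y ((hasFDerivAt_id y).sub_const A)
  have hTc : ContDiff ℝ 1 fun y => L (y - A) := L.contDiff.comp (contDiff_id.sub contDiff_const)
  refine ⟨fun y => B (L (y - A)), hB.comp hTc, fun y => ⟨B.nonneg, B.le_one⟩,
    fun y h1 h2 h3 => B.one_of_mem_closedBall ?_, fun y hy => ?_, fun y => ?_⟩
  · rw [mem_closedBall, hL, Prod.dist_eq, max_le_iff, Real.dist_eq, Real.dist_eq, sub_zero, abs_mul,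
      abs_of_pos (by positivity : 0 < (4 * r)⁻¹), abs_le]
    have e1 : 1 ≤ r⁻¹ * ⟪y - A, e⟫ := by rw [le_inv_mul_iff₀ hr]; linarith
    have e2 : r⁻¹ * ⟪y - A, e⟫ ≤ 2 := by rw [inv_mul_le_iff₀ hr]; linarith only [h2]
    refine ⟨⟨?_, ?_⟩, ?_⟩
    · change -(1 / 2) ≤ _
      linarith only [e1]
    · change _ ≤ 1 / 2
      linarith only [e2]
    · change _ ≤ 1 / 2
      rw [inv_mul_le_iff₀ (by positivity)]
      linarith only [h3]
  · have hs : tsupport (fun y => B (L (y - A))) ⊆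
        (fun y => L (y - A)) ⁻¹' closedBall ((3 / 2, 0) : ℝ × ℝ) 1 := by
      refine closure_minimal (fun z hz => ?_) (isClosed_closedBall.preimage hTc.continuous)
      have : L (z - A) ∈ Function.support B := hz
      rw [B.support_eq] at this
      exact ball_subset_closedBall this
    have h := hs hy
    rw [mem_preimage, mem_closedBall, hL, Prod.dist_eq, max_le_iff, Real.dist_eq, Real.dist_eq,
      sub_zero, abs_mul, abs_of_pos (by positivity : 0 < (4 * r)⁻¹), abs_le,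
      inv_mul_le_iff₀ (by positivity)] at h
    obtain ⟨⟨h1, h2⟩, h3⟩ := h
    have e1 : 1 / 2 ≤ r⁻¹ * ⟪y - A, e⟫ := by linarith only [h1]
    have e2 : r⁻¹ * ⟪y - A, e⟫ ≤ 5 / 2 := by linarith only [h2]
    rw [le_inv_mul_iff₀ hr] at e1
    rw [inv_mul_le_iff₀ hr] at e2
    exact ⟨by linarith only [e1], by linarith only [e2], by linarith only [h3]⟩
  · have h := ((hB.differentiable one_ne_zero (L (y - A))).hasFDerivAt.comp y (hT y)).fderiv
    change ‖fderiv ℝ (B ∘ fun y => L (y - A)) y‖ ≤ _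
    rw [h, div_eq_mul_inv (C + 1)]
    refine (ContinuousLinearMap.opNorm_comp_le _ _).trans ?_
    exact mul_le_mul ((hC _).trans (by linarith only [])) hLn (norm_nonneg _) (by linarith)

/-- A strip around the axis lies in the interior. -/
theorem Force_strip {K : Set (Eu 2)} (hK : Convex ℝ K) {e f A M : Eu 2} (hF : Fr e f) (hA : A ∈ K)
    (hM : M ∈ interior K) (h1 : 7 / 8 ≤ ⟪M - A, e⟫) (h2 : ⟪M - A, e⟫ ≤ 1) {r : ℝ} (hr : 0 < r)
    (hr4 : r ≤ 1 / 4) : ∃ ε : ℝ, 0 < ε ∧ ∀ y, r / 2 ≤ ⟪y - A, e⟫ → ⟪y - A, e⟫ ≤ 5 * r / 2 →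
      |⟪y - A, f⟫ - ⟪M - A, f⟫ / ⟪M - A, e⟫ * ⟪y - A, e⟫| ≤ ε → y ∈ interior K := by
  obtain ⟨δ, hδ, hb⟩ := nhds_basis_closedBall.mem_iff.1 (isOpen_interior.mem_nhds hM)
  refine ⟨δ * (r / 2), by positivity, fun y hy1 hy2 hy3 => ?_⟩
  have dy := hF.decomp (y - A)
  have dM := hF.decomp (M - A)
  generalize ⟪y - A, e⟫ = x at *
  generalize ⟪y - A, f⟫ = s at *
  generalize ⟪M - A, e⟫ = a at *
  generalize ⟪M - A, f⟫ = b at *
  have ha : 0 < a := by linarith only [hr, hr4, h1]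
  have hx : 0 < x := by linarith only [hr, hy1]
  have hl0 : 0 < x / a := by positivity
  have hl1 : x / a ≤ 1 := by rw [div_le_one ha]; linarith only [hr, hr4, hy2, h1]
  have hl2 : r / 2 ≤ x / a := by rw [le_div_iff₀ ha]; linarith only [hy1, hr, h2, mul_nonneg_of_nonpos_of_nonpos (le_of_lt (Mathlib.Tactic.Linarith.sub_neg_of_lt hr)) (Mathlib.Tactic.Linarith.sub_nonpos_of_le h2)]
  have hM' : M + ((s - b / a * x) / (x / a)) • f ∈ interior K := by
    refine hb ?_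
    rw [mem_closedBall, dist_self_add_left, norm_smul, hF.2.1, mul_one, Real.norm_eq_abs, abs_div,
      abs_of_pos hl0, div_le_iff₀ hl0]
    exact hy3.trans (mul_le_mul_of_nonneg_left hl2 hδ.le)
  have := hK.add_smul_sub_mem_interior hA hM' ⟨hl0, hl1⟩
  convert this using 1
  rw [add_sub_right_comm, dM, ← sub_eq_iff_eq_add', dy]
  have e1 : x / a * a = x := by field_simp
  have e2 : x / a * (b + (s - b / a * x) / (x / a)) = s := by field_simp; ring
  rw [add_assoc, ← add_smul, smul_add, smul_smul, smul_smul, e1, e2]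

theorem Force_lt {K : Set (Eu 2)} (hK : Body0 K) {y w : Eu 2} (hy : y ∈ Reg K)
    (hw : w ∈ interior K) : ⟪w, nrm K y⟫ < ⟪y, nrm K y⟫ := by
  obtain ⟨h1, h2, -⟩ := reg_normal hK hy
  rw [h2]
  refine lt_of_le_of_ne (le_supp hK.1.1 (interior_subset hw) _) fun h => ?_
  have h0 : nrm K y ≠ 0 := by
    intro h0
    rw [h0, norm_zero] at h1
    exact zero_ne_one h1
  exact (mem_frontier_of_normal hK.1.1 (interior_subset hw) h0 h).2 hw

theorem Force_half {e f ξ : Eu 2} (hF : Fr e f) (h1 : ‖ξ‖ = 1) (h : |⟪ξ, e⟫| ≤ |⟪ξ, f⟫|) :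
    1 / 2 ≤ |⟪ξ, f⟫| := by
  have h2 := hF.norm_sq ξ
  rw [h1, ← sq_abs ⟪ξ, e⟫, ← sq_abs ⟪ξ, f⟫] at h2
  have := abs_nonneg ⟪ξ, e⟫
  (refine le_of_not_gt fun h_nl => ?_; linarith only [h_nl, h, h2, this, mul_nonneg_of_nonpos_of_nonpos (Mathlib.Tactic.Linarith.sub_nonpos_of_le h) (Mathlib.Tactic.Linarith.sub_nonpos_of_le this), mul_nonneg_of_nonpos_of_nonpos (Mathlib.Tactic.Linarith.sub_nonpos_of_le h) (le_of_lt (Mathlib.Tactic.Linarith.sub_neg_of_lt h_nl)), mul_nonneg_of_nonpos_of_nonpos (Mathlib.Tactic.Linarith.sub_nonpos_of_le this) (le_of_lt (Mathlib.Tactic.Linarith.sub_neg_of_lt h_nl))])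

theorem Force_const (hp : 1 < p) {a r : ℝ} (ha : 0 < a) (hr : 0 < r) :
    (a * (4 * (3 * r)) ^ ((p - 1) / p) / (3 * r)) ^ p = a ^ p * 4 ^ p / (12 * r) := by
  have h3 : 0 < 3 * r := by positivity
  have h12 : 0 < 4 * (3 * r) := by positivity
  rw [Real.div_rpow (by positivity) h3.le, Real.mul_rpow ha.le (by positivity),
    ← Real.rpow_mul h12.le, div_mul_cancel₀ _ (by linarith), Real.rpow_sub_one h12.ne',
    Real.mul_rpow (by norm_num) h3.le]
  have : 0 < (3 * r) ^ p := Real.rpow_pos_of_pos h3 p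
  field_simp
  ring

/-- The force on the boundary at one dyadic scale near a tip is bounded. -/
theorem force (hp : 1 < p) (hp2 : p < 2) : ∃ A1 : ℝ, 0 < A1 ∧
    ∀ (K : Set (Eu 2)) (τ : Measure (Eu 2)) (e f A M : Eu 2), Body0 K → IsTau p K τ → Fr e f →
      A ∈ K → M ∈ interior K → 7 / 8 ≤ ⟪M - A, e⟫ → ⟪M - A, e⟫ ≤ 1 → |⟪M - A, f⟫| ≤ ⟪M - A, e⟫ →
      (∀ᵐ y ∂τ, |⟪nrm K y, e⟫| ≤ |⟪nrm K y, f⟫|) → ∀ r : ℝ, 0 < r → r ≤ 1 / 4 →
      ∫ y in {y | r ≤ ⟪y - A, e⟫ ∧ ⟪y - A, e⟫ ≤ 2 * r ∧ |⟪y - A, f⟫| ≤ 2 * r},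
        (supp K (nrm K y))⁻¹ ∂τ ≤ A1 := by
  obtain ⟨A0, hA0, hslit⟩ := slit hp hp2
  obtain ⟨C, hC, hbump⟩ := Force_bump
  obtain ⟨ζ, hζ, hζ1, hζ2, hζ3⟩ := Force_zeta
  have hpn : p < ((2 : ℕ) : ℝ) := by exact_mod_cast hp2
  refine ⟨2 * ((2 + p) * C * (A0 ^ p * 4 ^ p * 81 * Real.pi / 12 + 1)), by positivity,
    fun K τ e f A M hK hτ hF hA hM h1 h2 h3 hae r hr hr4 => ?_⟩
  have := hτ.fin
  obtain ⟨χ, hχ, hχ01, hχ1, hχs, hχd⟩ := hbump e f A r hF hr
  obtain ⟨ε, hε, hstrip⟩ := Force_strip hK.1.2.1 hF hA hM h1 h2 hr hr4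
  set w : Eu 2 → ℝ := fun y => ⟪y - A, f⟫ - ⟪M - A, f⟫ / ⟪M - A, e⟫ * ⟪y - A, e⟫ with hw
  have hwc : ContDiff ℝ 1 w :=
    ((contDiff_id.sub contDiff_const).inner ℝ contDiff_const).sub
      (contDiff_const.mul ((contDiff_id.sub contDiff_const).inner ℝ contDiff_const))
  set X : Eu 2 → Eu 2 := fun y => (χ y * ζ (w y / ε)) • f with hX
  have hXc : ContDiff ℝ 1 X := (hχ.mul (hζ.comp (hwc.div_const ε))).smul contDiff_const
  have hball : tsupport χ ⊆ ball A (2 * (3 * r)) := fun y hy => by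
    obtain ⟨a1, a2, a3⟩ := hχs y hy
    have a4 := hF.norm_sq (y - A)
    rw [mem_ball, dist_eq_norm]
    rw [← sq_abs ⟪y - A, f⟫] at a4
    have a5 := abs_nonneg ⟪y - A, f⟫
    refine lt_of_pow_lt_pow_left₀ 2 (by positivity) ?_
    linarith only [a4, hr, a2, a3, a1, a5, mul_pos_of_neg_of_neg (Mathlib.Tactic.Linarith.sub_neg_of_lt hr) (Mathlib.Tactic.Linarith.sub_neg_of_lt hr), mul_nonneg_of_nonpos_of_nonpos (le_of_lt (Mathlib.Tactic.Linarith.sub_neg_of_lt hr)) (Mathlib.Tactic.Linarith.sub_nonpos_of_le a2), mul_nonneg_of_nonpos_of_nonpos (le_of_lt (Mathlib.Tactic.Linarith.sub_neg_of_lt hr)) (Mathlib.Tactic.Linarith.sub_nonpos_of_le a3), mul_nonneg_of_nonpos_of_nonpos (Mathlib.Tactic.Linarith.sub_nonpos_of_le a1) (Mathlib.Tactic.Linarith.sub_nonpos_of_le a2), mul_nonneg_of_nonpos_of_nonpos (Mathlib.Tactic.Linarith.sub_nonpos_of_le a3) (Mathlib.Tactic.Linarith.sub_nonpos_of_le a5)]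
  have hXs : tsupport X ⊆ tsupport χ := closure_mono fun y hy h0 => hy (by simp [hX, h0])
  have hXk : HasCompactSupport X :=
    (isCompact_closedBall A _).of_isClosed_subset (isClosed_tsupport _)
      ((hXs.trans hball).trans ball_subset_closedBall)
  obtain ⟨N, hN⟩ := exists_fld_of_compact hXc hXk
  have hoff : ∀ y ∉ tsupport χ, fderiv ℝ X y = 0 := fun y hy =>
    fderiv_of_notMem_tsupport ℝ fun h => hy (hXs h)
  have hside : ∀ y ∈ tsupport χ, y ∉ interior K → ε < w y ∨ w y < -ε := fun y hy hy' => by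
    obtain ⟨a1, a2, -⟩ := hχs y hy
    by_contra h
    rw [not_or, not_lt, not_lt] at h
    exact hy' (hstrip y a1 a2 (abs_le.2 ⟨h.2, h.1⟩))
  have hY : ∀ (σ : ℝ) y, |σ| = 1 → ‖fderiv ℝ (fun z => (χ z * σ) • f) y‖ ≤ C / r := by
    intro σ y hσ
    have h := (((hχ.differentiable one_ne_zero y).hasFDerivAt.mul_const σ).smul_const f).fderiv
    rw [h, ContinuousLinearMap.norm_smulRight_apply, hF.2.1, mul_one, norm_smul, Real.norm_eq_abs,
      hσ, one_mul]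
    exact hχd y
  have hout : ∀ y ∉ K, ‖fderiv ℝ X y‖ ≤ C / r := fun y hy => by
    by_cases hs : y ∈ tsupport χ
    · rcases hside y hs (fun h => hy (interior_subset h)) with h | h
      · have : X =ᶠ[𝓝 y] fun z => (χ z * 1) • f := by
          filter_upwards [hwc.continuous.continuousAt.eventually (lt_mem_nhds h)] with z hz
          rw [hX]
          simp only
          rw [hζ1 _ ((one_le_div hε).2 hz.le)]
        rw [this.fderiv_eq]
        exact hY 1 y abs_one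
      · have : X =ᶠ[𝓝 y] fun z => (χ z * -1) • f := by
          filter_upwards [hwc.continuous.continuousAt.eventually (gt_mem_nhds h)] with z hz
          rw [hX]
          simp only
          rw [hζ2 _ ((div_le_iff₀ hε).2 (by linarith only [hz]))]
        rw [this.fderiv_eq]
        exact hY (-1) y (by simp)
    · rw [hoff y hs, norm_zero]
      positivity
  have hbd : Bornology.IsBounded K := hK.1.1.isBounded
  have hLam : Lam p K X ≤ (2 + p) * C * (A0 ^ p * 4 ^ p * 81 * Real.pi / 12 + 1) := by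
    obtain ⟨u, hu⟩ := exists_minSeq (p := p) hbd
    have d0 := hF.norm_sq (M - A)
    have d1 := abs_nonneg ⟪M - A, f⟫
    rw [← sq_abs ⟪M - A, f⟫] at d0
    have d2 : 1 / 2 ≤ dist A M := by
      rw [dist_comm, dist_eq_norm]
      refine le_of_pow_le_pow_left₀ two_ne_zero (norm_nonneg _) ?_
      linarith only [h1, d0, sq_nonneg |⟪M - A, f⟫|, mul_nonneg_of_nonpos_of_nonpos (Mathlib.Tactic.Linarith.sub_nonpos_of_le h1) (Mathlib.Tactic.Linarith.sub_nonpos_of_le h1)]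
    have d3 : dist A M ≤ 2 := by
      rw [dist_comm, dist_eq_norm]
      refine le_of_pow_le_pow_left₀ two_ne_zero (by norm_num) ?_
      (refine le_of_not_gt fun h_nl => ?_; linarith only [h_nl, hp, hp2, h2, h3, d0, h1, d1, mul_pos_of_neg_of_neg (Mathlib.Tactic.Linarith.sub_neg_of_lt hp) (Mathlib.Tactic.Linarith.sub_neg_of_lt h_nl), mul_pos_of_neg_of_neg (Mathlib.Tactic.Linarith.sub_neg_of_lt hp2) (Mathlib.Tactic.Linarith.sub_neg_of_lt h_nl), mul_nonneg_of_nonpos_of_nonpos (Mathlib.Tactic.Linarith.sub_nonpos_of_le h1) (Mathlib.Tactic.Linarith.sub_nonpos_of_le h2), mul_nonneg_of_nonpos_of_nonpos (Mathlib.Tactic.Linarith.sub_nonpos_of_le h1) (Mathlib.Tactic.Linarith.sub_nonpos_of_le h3), mul_nonneg_of_nonpos_of_nonpos (Mathlib.Tactic.Linarith.sub_nonpos_of_le h3) (Mathlib.Tactic.Linarith.sub_nonpos_of_le d1)])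
    have hcac := caccioppoli hp hK.1 hu A (r := 3 * r)
      (m := A0 * (4 * (3 * r)) ^ ((p - 1) / p)) (by positivity) (by positivity)
      (hslit K A M hK.1 hA hM d2 d3 _ (by positivity)) hr
    refine le_of_tendsto (tendsto_lam hp hbd hu hN) ?_
    filter_upwards [hcac] with j hj
    have hl := abs_lam_le hp (hu.1 j) (measurableSet_ball (x := A) (ε := 2 * (3 * r))) hN
      (by positivity : 0 ≤ C / r) hout fun y hy => hoff y fun h => hy (hball h)
    have hv : volume.real (ball A (3 * (3 * r))) = 81 * r ^ 2 * Real.pi := by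
      rw [Measure.real, EuclideanSpace.volume_ball_fin_two, ENNReal.toReal_mul, ENNReal.toReal_pow,
        ENNReal.toReal_ofReal (by positivity), ENNReal.toReal_ofReal Real.pi_pos.le]
      ring
    rw [Force_const hp hA0 hr, hv] at hj
    refine (le_abs_self _).trans (hl.trans ?_)
    refine (mul_le_mul_of_nonneg_left hj (by positivity)).trans (le_of_eq ?_)
    push_cast
    field_simp
  obtain ⟨ρ, R, hρ, -, hρK, -⟩ := hK.exists_radii
  have hreg := tau_ae_reg hp hpn hK hτ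
  have hh : ∀ y ∈ Reg K, ρ ≤ supp K (nrm K y) := fun y hy => by
    have h := supp_mono hK.1.1 ⟨0, mem_closedBall_self hρ.le⟩ hρK (nrm K y)
    rwa [supp_closedBall 0 hρ.le, inner_zero_left, (reg_normal hK hy).1, zero_add, mul_one] at h
  have hint : Integrable (fun y => ⟪X y, nrm K y⟫ / supp K (nrm K y)) τ := by
    refine Integrable.of_bound (C := 1 / ρ) (Measurable.aestronglyMeasurable ?_) ?_
    · exact (hXc.continuous.measurable.inner (measurable_nrm K)).div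
        ((continuous_supp hK.1.1).measurable.comp (measurable_nrm K))
    · filter_upwards [hreg] with y hy
      rw [Real.norm_eq_abs, abs_div, abs_of_pos (hρ.trans_le (hh y hy))]
      refine div_le_div₀ zero_le_one ?_ hρ (hh y hy)
      refine (abs_real_inner_le_norm _ _).trans ?_
      rw [(reg_normal hK hy).1, mul_one, hX]
      simp only
      rw [norm_smul, hF.2.1, mul_one, Real.norm_eq_abs, abs_mul, abs_of_nonneg (hχ01 y).1]
      exact mul_le_one₀ (hχ01 y).2 (abs_nonneg _) (hζ3 _)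
  have hsign : ∀ᵐ y ∂τ, χ y / 2 ≤ ⟪X y, nrm K y⟫ := by
    filter_upwards [hreg, hae] with y hy hy'
    have hhalf := Force_half hF (reg_normal hK hy).1 hy'
    rw [hX]
    simp only
    rw [real_inner_smul_left, real_inner_comm]
    by_cases h0 : χ y = 0
    · simp [h0]
    have hs : y ∈ tsupport χ := subset_tsupport _ h0
    obtain ⟨a1, a2, -⟩ := hχs y hs
    have hax : y - w y • f ∈ interior K := by
      have e1 : ⟪y - w y • f - A, e⟫ = ⟪y - A, e⟫ := by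
        rw [sub_right_comm, inner_sub_left (y - A), real_inner_smul_left, real_inner_comm e f,
          hF.2.2, mul_zero, sub_zero]
      have e2 : ⟪y - w y • f - A, f⟫ = ⟪y - A, f⟫ - w y := by
        rw [sub_right_comm, inner_sub_left (y - A), real_inner_smul_left,
          real_inner_self_eq_norm_sq, hF.2.1, one_pow, mul_one]
      refine hstrip _ (e1 ▸ a1) (e1 ▸ a2) ?_
      rw [e1, e2, hw]
      simp only
      rw [sub_sub_cancel, sub_self, abs_zero]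
      exact hε.le
    have hlt := Force_lt hK hy hax
    rw [inner_sub_left, real_inner_smul_left, real_inner_comm (nrm K y) f] at hlt
    have hpos : 0 < w y * ⟪nrm K y, f⟫ := by linarith only [hlt]
    have hc := (hχ01 y).1
    rcases hside y hs hy.1.2 with h | h
    · rw [hζ1 _ ((one_le_div hε).2 h.le)]
      rw [abs_of_pos ((mul_pos_iff_of_pos_left (hε.trans h)).1 hpos)] at hhalf
      (refine le_of_not_gt fun h_nl => ?_; linarith only [h_nl, hr, hr4, hhalf, hc, mul_pos_of_neg_of_neg (Mathlib.Tactic.Linarith.sub_neg_of_lt hr) (Mathlib.Tactic.Linarith.sub_neg_of_lt h_nl), mul_nonneg_of_nonpos_of_nonpos (Mathlib.Tactic.Linarith.sub_nonpos_of_le hr4) (le_of_lt (Mathlib.Tactic.Linarith.sub_neg_of_lt h_nl)), mul_nonneg_of_nonpos_of_nonpos (Mathlib.Tactic.Linarith.sub_nonpos_of_le hhalf) (Mathlib.Tactic.Linarith.sub_nonpos_of_le hc)])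
    · rw [hζ2 _ ((div_le_iff₀ hε).2 (by linarith only [h]))]
      have : ⟪nrm K y, f⟫ < 0 := by
        by_contra h'
        linarith only [hr, hlt, hr4, hε, h', h, not_lt.1 h', mul_pos_of_neg_of_neg (Mathlib.Tactic.Linarith.sub_neg_of_lt hr) (Mathlib.Tactic.Linarith.sub_neg_of_lt hlt), mul_nonneg_of_nonpos_of_nonpos (Mathlib.Tactic.Linarith.sub_nonpos_of_le hr4) (le_of_lt (Mathlib.Tactic.Linarith.sub_neg_of_lt hlt)), mul_nonneg_of_nonpos_of_nonpos (le_of_lt (Mathlib.Tactic.Linarith.sub_neg_of_lt hε)) (Mathlib.Tactic.Linarith.sub_nonpos_of_le (le_of_not_gt h')), mul_nonneg_of_nonpos_of_nonpos (le_of_lt (Mathlib.Tactic.Linarith.sub_neg_of_lt h)) (Mathlib.Tactic.Linarith.sub_nonpos_of_le (le_of_not_gt h'))]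
      rw [abs_of_neg this] at hhalf
      (refine le_of_not_gt fun h_nl => ?_; linarith only [h_nl, hr, hr4, hhalf, hc, mul_pos_of_neg_of_neg (Mathlib.Tactic.Linarith.sub_neg_of_lt hr) (Mathlib.Tactic.Linarith.sub_neg_of_lt h_nl), mul_nonneg_of_nonpos_of_nonpos (Mathlib.Tactic.Linarith.sub_nonpos_of_le hr4) (le_of_lt (Mathlib.Tactic.Linarith.sub_neg_of_lt h_nl)), mul_nonneg_of_nonpos_of_nonpos (Mathlib.Tactic.Linarith.sub_nonpos_of_le hhalf) (Mathlib.Tactic.Linarith.sub_nonpos_of_le hc)])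
  have hD : MeasurableSet {y : Eu 2 | r ≤ ⟪y - A, e⟫ ∧ ⟪y - A, e⟫ ≤ 2 * r ∧ |⟪y - A, f⟫| ≤ 2 * r} := by
    refine IsClosed.measurableSet ?_
    have c1 : Continuous fun y : Eu 2 => ⟪y - A, e⟫ := by fun_prop
    have c2 : Continuous fun y : Eu 2 => |⟪y - A, f⟫| := by fun_prop
    exact (isClosed_le continuous_const c1).inter
      ((isClosed_le c1 continuous_const).inter (isClosed_le c2 continuous_const))
  rw [← integral_indicator hD]
  refine le_trans (integral_mono_of_nonneg ?_ (hint.const_mul 2) ?_) ?_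
  · filter_upwards [hreg] with y hy
    exact indicator_nonneg (fun _ _ => (inv_pos.2 (hρ.trans_le (hh y hy))).le) y
  · filter_upwards [hreg, hsign] with y hy hs
    have hp0 := hρ.trans_le (hh y hy)
    have hc := (hχ01 y).1
    by_cases hy' : y ∈ {y : Eu 2 | r ≤ ⟪y - A, e⟫ ∧ ⟪y - A, e⟫ ≤ 2 * r ∧ |⟪y - A, f⟫| ≤ 2 * r}
    · rw [indicator_of_mem hy', ← mul_div_assoc, inv_eq_one_div]
      rw [hχ1 y hy'.1 hy'.2.1 hy'.2.2] at hs
      exact div_le_div_of_nonneg_right (by linarith only [hs]) hp0.le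
    · rw [indicator_of_notMem hy']
      exact mul_nonneg zero_le_two (div_nonneg (by linarith only [hs, hc]) hp0.le)
  · rw [integral_const_mul, ← Lam_eq hp hpn hK hτ hN]
    linarith only [hLam]

end Pool.Agent.Work.MP_f7e2e5_gt
end
end

-- merged part: Pool.Agent.Work.MP_f7e2e5_gt.CMain
section
open MeasureTheory Set Metric Filter Topology
open scoped RealInnerProductSpace Pointwise ContDiff NNReal

noncomputable section

namespace Pool.Agent.Work.MP_f7e2e5_gt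

variable {p : ℝ}

theorem CMain_side {K : Set (Eu 2)} {e f A B y1 : Eu 2} {η s1 D : ℝ} (hη : 0 < η)
    (h : Lens K e f A B η) (hw : ⟪B - A, e⟫ = 1) (hx1 : ⟪y1 - A, e⟫ = 1 / 2)
    (hs1 : ∀ z ∈ K, ⟪z - y1, f⟫ ≤ s1 * ⟪z - y1, e⟫)
    (hA : s1 * ⟪A - y1, e⟫ - ⟪A - y1, f⟫ ≤ D) (hB : -s1 * ⟪B - y1, -e⟫ - ⟪B - y1, f⟫ ≤ D)
    {z : Eu 2} (hz : z ∈ K) : ⟪z - A, f⟫ - ⟪B - A, f⟫ * ⟪z - A, e⟫ ≤ D := by
  have h1 : 0 ≤ ⟪z - A, e⟫ := nonneg_of_mul_nonneg_right ((abs_nonneg _).trans (h.coneA z hz)) hη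
  have h2 : 0 ≤ ⟪B - z, e⟫ := nonneg_of_mul_nonneg_right ((abs_nonneg _).trans (h.coneB z hz)) hη
  have h3 := hs1 z hz
  simp only [inner_sub_left, inner_neg_right] at *
  have e1 : ⟪B, e⟫ = ⟪A, e⟫ + 1 := by linarith only [hw]
  have e2 : ⟪y1, e⟫ = ⟪A, e⟫ + 1 / 2 := by linarith only [hx1]
  rw [e1] at h2 hB
  rw [e2] at h3 hA hB
  linarith only [h3, hA, h2, hB, h1, mul_le_mul_of_nonneg_left hA h2, mul_le_mul_of_nonneg_left hB h1]

theorem lens_main (hp : 1 < p) (hp2 : p < 2) : ∃ N : ℝ, 0 < N ∧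
    ∀ (K : Set (Eu 2)) (τ : Measure (Eu 2)) (e f : Eu 2) (κ η : ℝ), Body0 K → IsTau p K τ →
      Fr e f → 0 < η → η ≤ 1 / 2 → (∀ᵐ y ∂τ, |⟪nrm K y, e⟫| ≤ η * |⟪nrm K y, f⟫|) →
      supp K e + supp K (-e) = 1 →
      (∀ e' f' : Eu 2, (e' = e ∨ e' = -e) → (f' = f ∨ f' = -f) →
        ∀ s s' : ℝ, -η ≤ s → s ≤ s' → s' ≤ η → κ * (s' - s) ≤
          τ.real {y | 0 < ⟪nrm K y, f'⟫ ∧ s * ⟪nrm K y, f'⟫ < -⟪nrm K y, e'⟫ ∧
            -⟪nrm K y, e'⟫ < s' * ⟪nrm K y, f'⟫}) → κ ≤ N := by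
  obtain ⟨A1, hA1, hforce⟩ := force hp hp2
  refine ⟨10 * A1, by positivity, fun K τ e f κ η hK hτ hF hη hη1 hae hw hdens => ?_⟩
  by_contra hκ
  have hκ' : 10 * A1 ≤ κ := (not_le.1 hκ).le
  have hκ0 : 0 < κ := by linarith only [hA1, hκ]
  have hpn : p < ((2 : ℕ) : ℝ) := by exact_mod_cast hp2
  have hc : IsCompact K := hK.1.1
  have := hτ.fin
  have hreg := tau_ae_reg hp hpn hK hτ
  obtain ⟨A, B, hL⟩ := lens_geo hK hF hη hη1 fun y hy r hr => by
    obtain ⟨y', h1, h2, h3⟩ := Measure.exists_mem_of_measure_ne_zero_of_ae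
      (tau_pos hp hpn hK hτ hy hr) (ae_restrict_of_ae (hreg.and hae))
    exact ⟨y', hc.isClosed.frontier_subset h2.1, h1, nrm K y', (reg_normal hK h2).1,
      (reg_normal hK h2).2.1, h3⟩
  have hne : K.Nonempty := ⟨A, hL.memA⟩
  have hwid : ⟪B - A, e⟫ = 1 := by
    have a1 : supp K e = ⟪B, e⟫ := by
      refine le_antisymm (supp_le hne fun z hz => ?_) (le_supp hc hL.memB e)
      have : 0 ≤ ⟪B - z, e⟫ :=
        nonneg_of_mul_nonneg_right ((abs_nonneg _).trans (hL.coneB z hz)) hη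
      rwa [inner_sub_left, sub_nonneg] at this
    have a2 : supp K (-e) = ⟪A, -e⟫ := by
      refine le_antisymm (supp_le hne fun z hz => ?_) (le_supp hc hL.memA (-e))
      have : 0 ≤ ⟪z - A, e⟫ :=
        nonneg_of_mul_nonneg_right ((abs_nonneg _).trans (hL.coneA z hz)) hη
      rw [inner_sub_left, sub_nonneg] at this
      rw [inner_neg_right, inner_neg_right]
      linarith only [this]
    rw [a1, a2, inner_neg_right] at hw
    rw [inner_sub_left]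
    linarith only [hw]
  have quarter : ∀ (e' f' A' B' : Eu 2), (e' = e ∨ e' = -e) → (f' = f ∨ f' = -f) →
      Lens K e' f' A' B' η → ⟪B' - A', e'⟫ = 1 → ∀ δ : ℝ,
      (∀ z ∈ K, ∀ z' ∈ K, ⟪z - z', f'⟫ - ⟪B' - A', f'⟫ * ⟪z - z', e'⟫ ≤ δ) →
      ∀ y1 ∈ K, ⟪y1 - A', e'⟫ = 1 / 2 → ∀ s1 : ℝ, (∀ z ∈ K, ⟪z - y1, f'⟫ ≤ s1 * ⟪z - y1, e'⟫) →
      s1 * ⟪A' - y1, e'⟫ - ⟪A' - y1, f'⟫ ≤ 4 * (A1 / κ) * δ := by
    intro e' f' A' B' he' hf' hL' hw' δ hδ y1 hy1 hx1 s1 hs1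
    have hF' : Fr e' f' := by
      rcases he' with rfl | rfl <;> rcases hf' with rfl | rfl
      exacts [hF, hF.neg_right, hF.neg_left, hF.neg_left.neg_right]
    obtain ⟨M, m1, m2, m3, m4⟩ := hL'.exists_interior hK hη hη1 hw'
    refine lens_half hK hF' hη hη1 hL' hw' τ hreg hA1 hκ' (hdens e' f' he' hf')
      (hforce K τ e' f' A' M hK hτ hF' hL'.memA m1 m2 m3 m4 ?_) hδ hy1 hx1 hs1
    filter_upwards [hae] with y hy
    have a1 : |⟪nrm K y, e'⟫| = |⟪nrm K y, e⟫| := by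
      rcases he' with rfl | rfl
      · rfl
      · rw [inner_neg_right, abs_neg]
    have a2 : |⟪nrm K y, f'⟫| = |⟪nrm K y, f⟫| := by
      rcases hf' with rfl | rfl
      · rfl
      · rw [inner_neg_right, abs_neg]
    rw [a1, a2]
    (refine le_of_not_gt fun h_nl => ?_; linarith only [h_nl, hy, hp, hp2, hη1, abs_nonneg ⟪nrm K y, f⟫, mul_pos_of_neg_of_neg (Mathlib.Tactic.Linarith.sub_neg_of_lt hp) (Mathlib.Tactic.Linarith.sub_neg_of_lt h_nl), mul_pos_of_neg_of_neg (Mathlib.Tactic.Linarith.sub_neg_of_lt hp2) (Mathlib.Tactic.Linarith.sub_neg_of_lt h_nl), mul_nonneg_of_nonpos_of_nonpos (Mathlib.Tactic.Linarith.sub_nonpos_of_le hη1) (Mathlib.Tactic.Linarith.sub_nonpos_of_le (abs_nonneg ⟪nrm K y, f⟫))])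
  have half : ∀ f' : Eu 2, (f' = f ∨ f' = -f) → Fr e f' → Lens K e f' A B η → ∀ δ : ℝ,
      (∀ z ∈ K, ∀ z' ∈ K, ⟪z - z', f'⟫ - ⟪B - A, f'⟫ * ⟪z - z', e⟫ ≤ δ) →
      ∀ z ∈ K, ⟪z - A, f'⟫ - ⟪B - A, f'⟫ * ⟪z - A, e⟫ ≤ 4 * (A1 / κ) * δ := by
    intro f' hf' hF' hL' δ hδ z hz
    obtain ⟨y1, hy1, hx1, s1, -, hs1⟩ := hL'.exists_top hK hF' hη (x := 1 / 2) (by norm_num)
      (by rw [hwid]; norm_num)
    refine CMain_side hη hL' hwid hx1 hs1
      (quarter e f' A B (Or.inl rfl) hf' hL' hwid δ hδ y1 hy1 hx1 s1 hs1)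
      (quarter (-e) f' B A (Or.inr rfl) hf' hL'.swap ?_ δ (fun z hz z' hz' => ?_) y1 hy1 ?_ (-s1)
        fun z hz => ?_) hz
    · simp only [inner_sub_left, inner_neg_right] at hwid ⊢
      linarith only [hwid]
    · have := hδ z hz z' hz'
      simp only [inner_sub_left, inner_neg_right] at this ⊢
      linarith only [this]
    · simp only [inner_sub_left, inner_neg_right] at hwid hx1 ⊢
      linarith only [hwid, hx1]
    · have := hs1 z hz
      rw [inner_neg_right]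
      linarith only [this]
  obtain ⟨v, hv⟩ : ∃ v : Eu 2, v = f - ⟪B - A, f⟫ • e := ⟨_, rfl⟩
  have hvz : ∀ z : Eu 2, ⟪z, v⟫ = ⟪z, f⟫ - ⟪B - A, f⟫ * ⟪z, e⟫ := fun z => by
    rw [hv, inner_sub_right, real_inner_smul_right]
  have hv0 : v ≠ 0 := fun h0 => by
    have := hvz f
    rw [h0, inner_zero_right, real_inner_self_eq_norm_sq, hF.2.1, real_inner_comm e f,
      hF.2.2] at this
    norm_num at this
  have hδ0 : 0 < supp K v + supp K (-v) :=
    add_pos (hK.supp_pos hv0) (hK.supp_pos (neg_ne_zero.2 hv0))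
  have hδ : ∀ z ∈ K, ∀ z' ∈ K, ⟪z - z', v⟫ ≤ supp K v + supp K (-v) := fun z hz z' hz' => by
    have a1 := le_supp hc hz v
    have a2 := le_supp hc hz' (-v)
    rw [inner_neg_right] at a2
    rw [inner_sub_left]
    linarith only [a1, a2]
  have b1 := half f (Or.inl rfl) hF hL _ fun z hz z' hz' => hvz _ ▸ hδ z hz z' hz'
  have b2 := half (-f) (Or.inr rfl) hF.neg_right hL.flip (supp K v + supp K (-v))
    fun z hz z' hz' => by
      have := hδ z' hz' z hz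
      rw [hvz] at this
      simp only [inner_sub_left, inner_neg_right] at this ⊢
      linarith only [this]
  generalize hD : 4 * (A1 / κ) * (supp K v + supp K (-v)) = D at b1 b2
  have c1 : supp K v ≤ ⟪A, v⟫ + D := supp_le hne fun z hz => by
    have := b1 z hz
    rw [← hvz, inner_sub_left] at this
    linarith only [this]
  have c2 : supp K (-v) ≤ -⟪A, v⟫ + D := supp_le hne fun z hz => by
    have := b2 z hz
    have a := hvz (z - A)
    rw [inner_neg_right, inner_neg_right] at this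
    rw [inner_sub_left z A v] at a
    rw [inner_neg_right]
    linarith only [this, a]
  have c3 : A1 / κ ≤ 1 / 10 := by
    rw [div_le_iff₀ hκ0]
    linarith only [hκ]
  linarith only [hD, c1, c2, hp, hδ0, hp2, c3, mul_pos_of_neg_of_neg (Mathlib.Tactic.Linarith.sub_neg_of_lt hp) (Mathlib.Tactic.Linarith.sub_neg_of_lt hδ0), mul_pos_of_neg_of_neg (Mathlib.Tactic.Linarith.sub_neg_of_lt hp2) (Mathlib.Tactic.Linarith.sub_neg_of_lt hδ0), mul_nonneg_of_nonpos_of_nonpos (le_of_lt (Mathlib.Tactic.Linarith.sub_neg_of_lt hδ0)) (Mathlib.Tactic.Linarith.sub_nonpos_of_le c3)]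

theorem CMain_mp {e f : Eu 2} (hF : Fr e f) :
    MeasurePreserving (fun z : Eu 2 => ((⟪z, e⟫, ⟪z, f⟫) : ℝ × ℝ)) volume volume := by
  have hon : Orthonormal ℝ ![e, f] := by
    refine ⟨fun i => ?_, fun i j hij => ?_⟩
    · fin_cases i
      exacts [hF.1, hF.2.1]
    · fin_cases i <;> fin_cases j
      exacts [absurd rfl hij, hF.2.2, (real_inner_comm _ _).trans hF.2.2, absurd rfl hij]
  have hsp : ⊤ ≤ Submodule.span ℝ (range ![e, f]) := fun z _ => by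
    rw [hF.decomp z]
    exact add_mem (Submodule.smul_mem _ _ (Submodule.subset_span ⟨0, rfl⟩))
      (Submodule.smul_mem _ _ (Submodule.subset_span ⟨1, rfl⟩))
  have h := (volume_preserving_finTwoArrow ℝ).comp ((PiLp.volume_preserving_ofLp (Fin 2)).comp
    (OrthonormalBasis.mk hon hsp).measurePreserving_repr)
  convert h using 1
  funext z
  simp [MeasurableEquiv.finTwoArrow, OrthonormalBasis.repr_apply_apply, real_inner_comm]

theorem CMain_toSphere {S : Set (Sph 2)} (hS : MeasurableSet S) :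
    (volume : Measure (Eu 2)).toSphere S =
      2 * volume (Ioo (0 : ℝ) 1 • ((fun ξ : Sph 2 => (ξ : Eu 2)) '' S)) := by
  rw [Measure.toSphere_apply' _ hS, finrank_euclideanSpace_fin]
  rfl

theorem CMain_meas (e f : Eu 2) (s s' : ℝ) :
    MeasurableSet {y : Eu 2 | 0 < ⟪y, f⟫ ∧ s * ⟪y, f⟫ < -⟪y, e⟫ ∧ -⟪y, e⟫ < s' * ⟪y, f⟫} := by
  have h1 : IsOpen {y : Eu 2 | 0 < ⟪y, f⟫} := isOpen_lt (by fun_prop) (by fun_prop)
  have h2 : IsOpen {y : Eu 2 | s * ⟪y, f⟫ < -⟪y, e⟫} := isOpen_lt (by fun_prop) (by fun_prop)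
  have h3 : IsOpen {y : Eu 2 | -⟪y, e⟫ < s' * ⟪y, f⟫} := isOpen_lt (by fun_prop) (by fun_prop)
  exact (h1.inter (h2.inter h3)).measurableSet

theorem toSphere_sector {e f : Eu 2} (hF : Fr e f) {s s' : ℝ} (hs : -1 ≤ s) (hss : s ≤ s')
    (hs' : s' ≤ 1) : (s' - s) / 8 ≤ ((volume : Measure (Eu 2)).toSphere).real
      {ξ : Sph 2 | 0 < ⟪(ξ : Eu 2), f⟫ ∧ s * ⟪(ξ : Eu 2), f⟫ < -⟪(ξ : Eu 2), e⟫ ∧
        -⟪(ξ : Eu 2), e⟫ < s' * ⟪(ξ : Eu 2), f⟫} := by
  have hF' : Fr f (-e) := ⟨hF.2.1, by rw [norm_neg, hF.1], by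
    rw [inner_neg_right, real_inner_comm, hF.2.2, neg_zero]⟩
  have hm : MeasurableSet (regionBetween (fun y : ℝ => s * y) (fun y => s * y + (s' - s) / 4)
      (Ioo (1 / 4) (1 / 2))) :=
    measurableSet_regionBetween (by fun_prop) (by fun_prop) measurableSet_Ioo
  have h1 := (CMain_mp hF').measure_preimage hm.nullMeasurableSet
  rw [Measure.volume_eq_prod, volume_regionBetween_eq_lintegral' (by fun_prop) (by fun_prop)
    measurableSet_Ioo] at h1
  simp only [Pi.sub_apply, add_sub_cancel_left, setLIntegral_const, Real.volume_Ioo] at h1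
  have hm' : MeasurableSet {ξ : Sph 2 | 0 < ⟪(ξ : Eu 2), f⟫ ∧ s * ⟪(ξ : Eu 2), f⟫ < -⟪(ξ : Eu 2), e⟫ ∧
      -⟪(ξ : Eu 2), e⟫ < s' * ⟪(ξ : Eu 2), f⟫} := measurable_subtype_coe (CMain_meas e f s s')
  rw [Measure.real, ← ENNReal.ofReal_le_iff_le_toReal (measure_ne_top _ _), CMain_toSphere hm']
  have h2 : ENNReal.ofReal ((s' - s) / 8) =
      2 * (ENNReal.ofReal ((s' - s) / 4) * ENNReal.ofReal (1 / 2 - 1 / 4)) := by
    rw [← ENNReal.ofReal_mul (by linarith only [hss]), ← ENNReal.ofReal_ofNat 2,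
      ← ENNReal.ofReal_mul (by norm_num)]
    congr 1
    ring
  rw [h2, ← h1]
  refine mul_le_mul_right (measure_mono ?_) _
  rintro z ⟨⟨a1, a2⟩, a3, a4⟩
  simp only [inner_neg_right] at a1 a2 a3 a4
  have hz : z ≠ 0 := by
    rintro rfl
    rw [inner_zero_left] at a1
    norm_num at a1
  have hn : 0 < ‖z‖ := norm_pos_iff.2 hz
  have a5 : -⟪z, e⟫ < s' * ⟪z, f⟫ := by linarith only [a4, hss, a1, mul_nonneg_of_nonpos_of_nonpos (Mathlib.Tactic.Linarith.sub_nonpos_of_le hss) (le_of_lt (Mathlib.Tactic.Linarith.sub_neg_of_lt a1))]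
  refine ⟨‖z‖, ⟨hn, ?_⟩, ‖z‖⁻¹ • z, ⟨⟨‖z‖⁻¹ • z, ?_⟩, ?_, rfl⟩, smul_inv_smul₀ hn.ne' z⟩
  · have := hF.norm_sq z
    have b1 : -⟪z, e⟫ < 1 / 2 := by linarith only [hs', a3, a4, a5, hs, a2, a1, mul_nonneg_of_nonpos_of_nonpos (Mathlib.Tactic.Linarith.sub_nonpos_of_le hs) (le_of_lt (Mathlib.Tactic.Linarith.sub_neg_of_lt a2)), mul_nonneg_of_nonpos_of_nonpos (Mathlib.Tactic.Linarith.sub_nonpos_of_le hs') (le_of_lt (Mathlib.Tactic.Linarith.sub_neg_of_lt a1))]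
    have b2 : -(1 / 2) < -⟪z, e⟫ := by linarith only [hs, a2, a3, a1, mul_nonneg_of_nonpos_of_nonpos (Mathlib.Tactic.Linarith.sub_nonpos_of_le hs) (le_of_lt (Mathlib.Tactic.Linarith.sub_neg_of_lt a1))]
    (refine lt_of_not_ge fun h_nl => ?_; linarith only [h_nl, this, a1, a2, hn, b1, b2, mul_pos_of_neg_of_neg (Mathlib.Tactic.Linarith.sub_neg_of_lt a1) (Mathlib.Tactic.Linarith.sub_neg_of_lt a2), mul_pos_of_neg_of_neg (Mathlib.Tactic.Linarith.sub_neg_of_lt a2) (Mathlib.Tactic.Linarith.sub_neg_of_lt a2), mul_nonneg_of_nonpos_of_nonpos (le_of_lt (Mathlib.Tactic.Linarith.sub_neg_of_lt hn)) (Mathlib.Tactic.Linarith.sub_nonpos_of_le h_nl), mul_pos_of_neg_of_neg (Mathlib.Tactic.Linarith.sub_neg_of_lt b1) (Mathlib.Tactic.Linarith.sub_neg_of_lt b2)])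
  · rw [mem_sphere_zero_iff_norm, norm_smul, norm_inv, norm_norm, inv_mul_cancel₀ hn.ne']
  · have hi : 0 < ‖z‖⁻¹ := inv_pos.2 hn
    simp only [mem_ofPred_eq, real_inner_smul_left]
    refine ⟨mul_pos hi (by linarith only [a1, a2]), ?_, ?_⟩
    · linarith only [a3, hi, mul_lt_mul_of_pos_left a3 hi]
    · linarith only [a5, hi, mul_lt_mul_of_pos_left a5 hi]

theorem CMain_caps (η : ℝ) :
    MeasurableSet {ξ : Sph 2 | |(ξ : Eu 2) 0| ≤ η * |(ξ : Eu 2) 1|} :=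
  (isClosed_le (by fun_prop) (by fun_prop)).measurableSet

theorem toSphere_caps {η : ℝ} (hη : 0 < η) : ((volume : Measure (Eu 2)).toSphere).real
    {ξ : Sph 2 | |(ξ : Eu 2) 0| ≤ η * |(ξ : Eu 2) 1|} ≤ 8 * η := by
  have h := (volume_preserving_finTwoArrow ℝ).comp (PiLp.volume_preserving_ofLp (Fin 2))
  have h1 := h.measure_preimage (s := Icc (-η) η ×ˢ Icc (-1) 1)
    (measurableSet_Icc.prod measurableSet_Icc).nullMeasurableSet
  rw [Measure.volume_eq_prod, Measure.prod_prod, Real.volume_Icc, Real.volume_Icc] at h1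
  refine ENNReal.toReal_le_of_le_ofReal (by positivity) ?_
  have h2 : ENNReal.ofReal (8 * η) = 2 * (ENNReal.ofReal (η - -η) * ENNReal.ofReal (1 - -1)) := by
    rw [← ENNReal.ofReal_mul (by linarith only [hη]), ← ENNReal.ofReal_ofNat 2,
      ← ENNReal.ofReal_mul (by norm_num)]
    congr 1
    ring
  rw [CMain_toSphere (CMain_caps η), h2, ← h1]
  refine mul_le_mul_right (measure_mono ?_) _
  rintro _ ⟨t, ⟨t0, t1⟩, _, ⟨ξ, hξ, rfl⟩, rfl⟩
  have a1 : |(ξ : Eu 2) 1| ≤ 1 := by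
    have := PiLp.norm_apply_le (ξ : Eu 2) 1
    rwa [mem_sphere_zero_iff_norm.1 ξ.2, Real.norm_eq_abs] at this
  have a2 : |(ξ : Eu 2) 0| ≤ η := hξ.trans (by linarith only [hη, a1, mul_nonneg_of_nonpos_of_nonpos (le_of_lt (Mathlib.Tactic.Linarith.sub_neg_of_lt hη)) (Mathlib.Tactic.Linarith.sub_nonpos_of_le a1)])
  change t * (ξ : Eu 2) 0 ∈ Icc (-η) η ∧ t * (ξ : Eu 2) 1 ∈ Icc (-1 : ℝ) 1
  rw [mem_Icc, mem_Icc, ← abs_le, ← abs_le, abs_mul, abs_mul, abs_of_pos t0]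
  constructor <;> linarith only [hη, t1, t0, a2, a1, abs_nonneg ((ξ : Eu 2) 0), abs_nonneg ((ξ : Eu 2) 1), mul_pos_of_neg_of_neg (Mathlib.Tactic.Linarith.sub_neg_of_lt hη) (Mathlib.Tactic.Linarith.sub_neg_of_lt t1), mul_nonneg_of_nonpos_of_nonpos (le_of_lt (Mathlib.Tactic.Linarith.sub_neg_of_lt t0)) (Mathlib.Tactic.Linarith.sub_nonpos_of_le a2), mul_nonneg_of_nonpos_of_nonpos (le_of_lt (Mathlib.Tactic.Linarith.sub_neg_of_lt t0)) (Mathlib.Tactic.Linarith.sub_nonpos_of_le a1)]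

theorem CMain_core (hp : 1 < p) (hp2 : p < 2) :
    ∃ N : ℝ, 0 < N ∧ ∀ η : ℝ, 0 < η → η ≤ 1 / 2 → ∀ (μ : Measure (Sph 2)) [IsFiniteMeasure μ],
      μ {ξ | η * |(ξ : Eu 2) 1| < |(ξ : Eu 2) 0|} = 0 →
      ENNReal.ofReal (N * μ.real univ) • ((volume : Measure (Eu 2)).toSphere.restrict
        {ξ | |(ξ : Eu 2) 0| ≤ η * |(ξ : Eu 2) 1|}) ≤ μ → ∀ K, Solves p K μ →
      supp K (EuclideanSpace.single 0 1) + supp K (-EuclideanSpace.single 0 1) ≠ 1 := by
  obtain ⟨N0, hN0, hmain⟩ := lens_main hp hp2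
  obtain ⟨c0, hc0, hseg⟩ := cap_segment hp hp2
  have hq : 0 < 2 - p := by linarith
  have hpn : p < ((2 : ℕ) : ℝ) := by exact_mod_cast hp2
  refine ⟨8 * (N0 + 1) / ((2 - p) * c0), by positivity, fun η hη hη1 μ _ h0 hle K hS hw => ?_⟩
  generalize hN : 8 * (N0 + 1) / ((2 - p) * c0) = N at hle
  have hN1 : N * ((2 - p) * c0) = 8 * (N0 + 1) := by
    rw [← hN]
    field_simp
  have hN2 : 0 < N := by rw [← hN]; positivity
  have hK := hS.body0
  have hτ := isTau_tau hp hK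
  have hmap := (solves_iff hp hpn hK hτ μ).1 hS
  generalize tau p K = τ at hτ hmap
  have he : ∀ z : Eu 2, ⟪z, (EuclideanSpace.single 0 1 : Eu 2)⟫ = z 0 := fun z => by
    simp [EuclideanSpace.inner_single_right]
  have hf : ∀ z : Eu 2, ⟪z, (EuclideanSpace.single 1 1 : Eu 2)⟫ = z 1 := fun z => by
    simp [EuclideanSpace.inner_single_right]
  have hF : Fr (EuclideanSpace.single 0 1) (EuclideanSpace.single 1 1) :=
    ⟨by simp, by simp, by rw [hf]; simp⟩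
  generalize (EuclideanSpace.single 0 1 : Eu 2) = e at hw he hF
  generalize (EuclideanSpace.single 1 1 : Eu 2) = f at hf hF
  have hT : ∀ S : Set (Eu 2), MeasurableSet S → τ (nrm K ⁻¹' S) =
      ENNReal.ofReal (p - 1) * μ ((fun ξ : Sph 2 => (ξ : Eu 2)) ⁻¹' S) := fun S hS => by
    rw [← Measure.map_apply (measurable_nrm K) hS, ← hmap, Measure.smul_apply,
      Measure.map_apply measurable_subtype_coe hS, smul_eq_mul]
  have hcap : c0 ≤ cap p K := by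
    have hne : K.Nonempty := ⟨0, interior_subset hK.2⟩
    obtain ⟨B, hB, b1⟩ := exists_supp_eq hK.1.1 hne e
    obtain ⟨A, hA, a1⟩ := exists_supp_eq hK.1.1 hne (-e)
    refine (hseg B A ?_).trans (cap_mono (hK.1.2.1.segment_subset hB hA) hK.1.1.isBounded)
    have := real_inner_le_norm (B - A) e
    rw [hF.1, mul_one, inner_sub_left] at this
    rw [inner_neg_right] at a1
    rw [dist_eq_norm]
    linarith only [hw, b1, a1, this]
  have hmass := hS.mass hp hpn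
  rw [Nat.cast_ofNat] at hmass
  have := hmain K τ e f (N0 + 1) η hK hτ hF hη hη1 ?_ hw ?_
  · linarith only [hp, hp2, this]
  · have := hT {y | η * |y 1| < |y 0|} (isOpen_lt (by fun_prop) (by fun_prop)).measurableSet
    rw [preimage_ofPred_eq (f := fun ξ : Sph 2 => (ξ : Eu 2)), h0, mul_zero] at this
    rw [ae_iff]
    simp only [he, hf, not_le]
    exact this
  · intro e' f' he' hf' s s' h1 h2 h3
    have hF' : Fr e' f' := by
      rcases he' with rfl | rfl <;> rcases hf' with rfl | rfl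
      exacts [hF, hF.neg_right, hF.neg_left, hF.neg_left.neg_right]
    have a1 := toSphere_sector hF' (s := s) (s' := s') (by linarith only [hp, hp2, hη1, h1]) h2 (by linarith only [hp, hp2, hη1, h3])
    have a2 := congrArg ENNReal.toReal (hT _ (CMain_meas e' f' s s'))
    rw [ENNReal.toReal_mul, ENNReal.toReal_ofReal (by linarith only [hp])] at a2
    have a3 := Measure.le_iff.1 hle _ (measurable_subtype_coe (CMain_meas e' f' s s'))
    rw [Measure.smul_apply, Measure.restrict_eq_self, smul_eq_mul] at a3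
    · have a4 := ENNReal.toReal_mono (measure_ne_top _ _) a3
      have a0 : 0 ≤ μ.real univ := measureReal_nonneg
      rw [ENNReal.toReal_mul, ENNReal.toReal_ofReal (by positivity)] at a4
      refine le_trans ?_ a2.ge
      have a5 := (mul_le_mul_of_nonneg_left a1 (by positivity : 0 ≤ N * μ.real univ)).trans a4
      have a6 := mul_le_mul_of_nonneg_left a5 (by linarith only [hp] : 0 ≤ p - 1)
      refine le_trans ?_ a6
      have a7 : (p - 1) * (N * μ.real univ * ((s' - s) / 8)) =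
          N * ((2 - p) * cap p K) * ((s' - s) / 8) := by
        rw [← hmass]; ring
      have a8 : N * ((2 - p) * c0) ≤ N * ((2 - p) * cap p K) := by gcongr
      rw [a7]
      (refine le_of_not_gt fun h_nl => ?_; linarith only [h_nl, hp, hp2, hN1, h2, a8, mul_pos_of_neg_of_neg (Mathlib.Tactic.Linarith.sub_neg_of_lt hp) (Mathlib.Tactic.Linarith.sub_neg_of_lt h_nl), mul_pos_of_neg_of_neg (Mathlib.Tactic.Linarith.sub_neg_of_lt hp2) (Mathlib.Tactic.Linarith.sub_neg_of_lt h_nl), Mathlib.Tactic.Linarith.zero_mul_eq (sub_eq_zero_of_eq hN1) (Mathlib.Tactic.Linarith.sub_nonpos_of_le h2), mul_nonneg_of_nonpos_of_nonpos (Mathlib.Tactic.Linarith.sub_nonpos_of_le h2) (Mathlib.Tactic.Linarith.sub_nonpos_of_le a8)])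
    · rintro ξ ⟨b1, b2, b3⟩
      have c1 : |⟪(ξ : Eu 2), e'⟫| = |(ξ : Eu 2) 0| := by
        rcases he' with rfl | rfl
        · rw [he]
        · rw [inner_neg_right, abs_neg, he]
      have c2 : |⟪(ξ : Eu 2), f'⟫| = |(ξ : Eu 2) 1| := by
        rcases hf' with rfl | rfl
        · rw [hf]
        · rw [inner_neg_right, abs_neg, hf]
      change |(ξ : Eu 2) 0| ≤ η * |(ξ : Eu 2) 1|
      rw [← c1, ← c2, abs_of_pos b1, abs_le]
      constructor <;> (refine le_of_not_gt fun h_nl => ?_; linarith only [h_nl, hp, b3, hp2, h3, b1, b2, h1, mul_pos_of_neg_of_neg (Mathlib.Tactic.Linarith.sub_neg_of_lt hp) (Mathlib.Tactic.Linarith.sub_neg_of_lt b3), mul_pos_of_neg_of_neg (Mathlib.Tactic.Linarith.sub_neg_of_lt hp) (Mathlib.Tactic.Linarith.sub_neg_of_lt h_nl), mul_pos_of_neg_of_neg (Mathlib.Tactic.Linarith.sub_neg_of_lt hp2) (Mathlib.Tactic.Linarith.sub_neg_of_lt b3), mul_pos_of_neg_of_neg (Mathlib.Tactic.Linarith.sub_neg_of_lt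 hp2) (Mathlib.Tactic.Linarith.sub_neg_of_lt h_nl), mul_nonneg_of_nonpos_of_nonpos (Mathlib.Tactic.Linarith.sub_nonpos_of_le h3) (le_of_lt (Mathlib.Tactic.Linarith.sub_neg_of_lt b1)), mul_pos_of_neg_of_neg (Mathlib.Tactic.Linarith.sub_neg_of_lt hp) (Mathlib.Tactic.Linarith.sub_neg_of_lt b2), mul_pos_of_neg_of_neg (Mathlib.Tactic.Linarith.sub_neg_of_lt hp2) (Mathlib.Tactic.Linarith.sub_neg_of_lt b2), mul_nonneg_of_nonpos_of_nonpos (Mathlib.Tactic.Linarith.sub_nonpos_of_le h1) (le_of_lt (Mathlib.Tactic.Linarith.sub_neg_of_lt b1))])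

theorem planar_main (hp : 1 < p) (hp2 : p < 2) :
    (∃ N : ℝ, 0 < N ∧ ∀ η : ℝ, 0 < η → η ≤ 1 / 2 → ∀ (μ : Measure (Sph 2)) [IsFiniteMeasure μ],
      μ {ξ | η * |(ξ : Eu 2) 1| < |(ξ : Eu 2) 0|} = 0 →
      ENNReal.ofReal (N * μ.real univ) • ((volume : Measure (Eu 2)).toSphere.restrict
        {ξ | |(ξ : Eu 2) 0| ≤ η * |(ξ : Eu 2) 1|}) ≤ μ → ¬ ∃ K, Solves p K μ) ∧
    ∃ η0 : ℝ, 0 < η0 ∧ ∀ η : ℝ, 0 < η → η ≤ η0 →
      ¬ ∃ K, Solves p K ((volume : Measure (Eu 2)).toSphere.restrict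
        {ξ | |(ξ : Eu 2) 0| ≤ η * |(ξ : Eu 2) 1|}) := by
  obtain ⟨N, hN, hcore⟩ := CMain_core hp hp2
  have hpn : p < ((2 : ℕ) : ℝ) := by exact_mod_cast hp2
  have h1 : ∀ η : ℝ, 0 < η → η ≤ 1 / 2 → ∀ (μ : Measure (Sph 2)) [IsFiniteMeasure μ],
      μ {ξ | η * |(ξ : Eu 2) 1| < |(ξ : Eu 2) 0|} = 0 →
      ENNReal.ofReal (N * μ.real univ) • ((volume : Measure (Eu 2)).toSphere.restrict
        {ξ | |(ξ : Eu 2) 0| ≤ η * |(ξ : Eu 2) 1|}) ≤ μ → ¬ ∃ K, Solves p K μ := by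
    rintro η hη hη1 μ _ h0 hle ⟨K, hS⟩
    have hK := hS.body0
    have he : (EuclideanSpace.single 0 1 : Eu 2) ≠ 0 := norm_ne_zero_iff.1 (by simp)
    have hw := add_pos (hK.supp_pos he) (hK.supp_pos (neg_ne_zero.2 he))
    have hS' := hS.smul hp hpn (inv_pos.2 hw)
    have hc := Real.rpow_nonneg (inv_pos.2 hw).le (((2 : ℕ) : ℝ) - p)
    generalize (supp K (EuclideanSpace.single 0 1) + supp K (-EuclideanSpace.single 0 1))⁻¹ ^
      (((2 : ℕ) : ℝ) - p) = c at hS' hc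
    have := hS'.finite
    refine hcore η hη hη1 _ (by rw [Measure.smul_apply, h0, smul_zero]) ?_ _ hS' ?_
    · rw [Measure.real, Measure.smul_apply, smul_eq_mul, ENNReal.toReal_mul,
        ENNReal.toReal_ofReal hc, mul_left_comm, ENNReal.ofReal_mul hc, mul_smul]
      refine Measure.le_iff.2 fun S hm => ?_
      rw [Measure.smul_apply, Measure.smul_apply _ μ, smul_eq_mul, smul_eq_mul]
      exact mul_le_mul_right (Measure.le_iff.1 hle S hm) _
    · rw [supp_smul hK.1.1 (inv_pos.2 hw).le, supp_smul hK.1.1 (inv_pos.2 hw).le, ← mul_add,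
        inv_mul_cancel₀ hw.ne']
  refine ⟨⟨N, hN, h1⟩, min (1 / 2) (1 / (8 * N)), by positivity, fun η hη hη1 => ?_⟩
  refine h1 η hη (hη1.trans (min_le_left _ _)) _ ?_ ?_
  · rw [Measure.restrict_apply' (CMain_caps η)]
    convert measure_empty (μ := (volume : Measure (Eu 2)).toSphere)
    exact eq_empty_of_forall_notMem fun ξ h => not_le.2 (mem_ofPred.1 h.1) (mem_ofPred.1 h.2)
  · have a1 := toSphere_caps hη
    have a2 : η * (8 * N) ≤ 1 := (le_div_iff₀ (by positivity)).1 (hη1.trans (min_le_right _ _))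
    rw [measureReal_restrict_apply_univ]
    refine Measure.le_iff.2 fun S _ => ?_
    rw [Measure.smul_apply, smul_eq_mul]
    exact mul_le_of_le_one_left' (ENNReal.ofReal_le_one.2 (by (refine le_of_not_gt fun h_nl => ?_; linarith only [h_nl, a2, hp, hp2, hN, a1, mul_pos_of_neg_of_neg (Mathlib.Tactic.Linarith.sub_neg_of_lt hp) (Mathlib.Tactic.Linarith.sub_neg_of_lt h_nl), mul_pos_of_neg_of_neg (Mathlib.Tactic.Linarith.sub_neg_of_lt hp2) (Mathlib.Tactic.Linarith.sub_neg_of_lt h_nl), mul_nonneg_of_nonpos_of_nonpos (le_of_lt (Mathlib.Tactic.Linarith.sub_neg_of_lt hN)) (Mathlib.Tactic.Linarith.sub_nonpos_of_le a1)])))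

end Pool.Agent.Work.MP_f7e2e5_gt
end
end
end
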