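import Mathlib

/-! Definitions used in the statements (logarithmic Minkowski problem for p-capacity). -/

open MeasureTheory Set Metric Filter Topology
open scoped RealInnerProductSpace Pointwise ContDiff NNReal

noncomputable section

namespace Pool.Agent.Work.MP_f7e2e5_gt

/-- Euclidean space. -/
abbrev Eu (n : ℕ) := EuclideanSpace ℝ (Fin n)

/-- The unit sphere. -/
abbrev Sph (n : ℕ) := Metric.sphere (0 : Eu n) 1

variable {n : ℕ}

/-- A convex body: compact, convex, nonempty interior. -/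
def IsBody (K : Set (Eu n)) : Prop := IsCompact K ∧ Convex ℝ K ∧ (interior K).Nonempty

/-- The support function `h_K(ξ) = max_{x ∈ K} x·ξ`. -/
def supp (K : Set (Eu n)) (ξ : Eu n) : ℝ := sSup ((fun x => ⟪x, ξ⟫) '' K)

/-- The electrostatic `p`-capacity: infimum of `∫ |∇u|^p` over smooth compactly supported
`u ≥ χ_K`. -/
def pCap (p : ℝ) (K : Set (Eu n)) : ℝ :=
  sInf {c | ∃ u : Eu n → ℝ, ContDiff ℝ ∞ u ∧ HasCompactSupport u ∧
    (∀ x, K.indicator (fun _ => (1 : ℝ)) x ≤ u x) ∧ c = ∫ x, ‖gradient u x‖ ^ p}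

/-- `ν` is the `p`-capacitary measure of `K`: a finite Borel measure on the sphere with
`d/dt C_p(K + tL)|_{t=0+} = (p-1) ∫ h_L dν` for every convex body `L`. -/
def IsCapMeasure (p : ℝ) (K : Set (Eu n)) (ν : Measure (Sph n)) : Prop :=
  IsFiniteMeasure ν ∧ ∀ L : Set (Eu n), IsBody L →
    HasDerivWithinAt (fun t : ℝ => pCap p (K + t • L))
      ((p - 1) * ∫ ξ : Sph n, supp L ξ ∂ν) (Ici 0) 0

/-- `K` is a convex body with the origin in its interior and `μ = h_K dμ_p(K, ·)`. -/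
def Solves (p : ℝ) (K : Set (Eu n)) (μ : Measure (Sph n)) : Prop :=
  IsBody K ∧ (0 : Eu n) ∈ interior K ∧ ∃ ν, IsCapMeasure p K ν ∧
    μ = ν.withDensity (fun ξ : Sph n => ENNReal.ofReal (supp K ξ))

/-- Uniform power decay of `μ` near great hyperspheres. -/
def DecayHyper (μ : Measure (Sph n)) : Prop :=
  ∃ C s : ℝ, 0 < s ∧ ∀ e : Eu n, ‖e‖ = 1 → ∀ r : ℝ, 0 < r →
    μ.real {ξ | |⟪(ξ : Eu n), e⟫| ≤ r} ≤ C * r ^ s

/-- `μ` of the `r`-neighbourhood of a proper subspace of dimension `1 ≤ k < p` is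
`o(r^((p-k)/(p-1)))`. -/
def DecayLow (p : ℝ) (μ : Measure (Sph n)) : Prop :=
  ∀ L : Submodule ℝ (Eu n), L ≠ ⊥ → L ≠ ⊤ → (Module.finrank ℝ L : ℝ) < p →
    Tendsto (fun r : ℝ => μ.real {ξ | infDist (ξ : Eu n) (L : Set (Eu n)) ≤ r} /
      r ^ ((p - Module.finrank ℝ L) / (p - 1))) (𝓝[>] 0) (𝓝 0)

end Pool.Agent.Work.MP_f7e2e5_gt
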