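import Pool.Agent.Work.MP_f7e2e5_gt.Defs

/-! Two more definitions used in the statements on finitely supported measures. -/

noncomputable section

namespace Pool.Agent.Work.MP_f7e2e5_gt

/-- The largest linear subspace contained in the convex cone generated by the `u i`, `i ∈ I`. -/
def lin {n : ℕ} {ι : Type} (u : ι → Eu n) (I : Finset ι) : Submodule ℝ (Eu n) :=
  (PointedCone.hull ℝ (u '' (I : Set ι))).lineal

/-- The geometric realisation of the order complex of the family of the subsets `I` of `ι` with
`P I`, ordered by inclusion: the convex combinations of chains. -/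
def orderComplex {ι : Type} [Fintype ι] (P : Finset ι → Prop) : Set (Finset ι → ℝ) :=
  {x | (∀ I, 0 ≤ x I) ∧ ∑ I, x I = 1 ∧ (∀ I, x I ≠ 0 → P I) ∧
    ∀ I J, x I ≠ 0 → x J ≠ 0 → I ⊆ J ∨ J ⊆ I}

end Pool.Agent.Work.MP_f7e2e5_gt
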