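import Pool.Agent.Work.MP_f7e2e5_gt.Supp
import Pool.Agent.Work.MP_f7e2e5_gt.Pot2
import Pool.Agent.Work.MP_f7e2e5_gt.GDefs
import Pool.Agent.Lib.BorsukUlam.Basic

-- merged part: Pool.Agent.Work.MP_f7e2e5_gt.Poly
section
open MeasureTheory Set Metric Filter Topology
open scoped RealInnerProductSpace Pointwise ContDiff NNReal

noncomputable section

namespace Pool.Agent.Work.MP_f7e2e5_gt

variable {n : ℕ} {p : ℝ}

variable {ι : Type} [Fintype ι] {u : ι → Eu n}

/-- a basis `b` with its dual basis `e` -/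
structure PolyDual (b e : Fin n → Eu n) : Prop where
  dual : ∀ j k, ⟪e j, b k⟫ = if j = k then 1 else 0
  left : ∀ x : Eu n, ∑ k, ⟪x, b k⟫ • e k = x
  right : ∀ y : Eu n, ∑ k, ⟪e k, y⟫ • b k = y

omit [Fintype ι] in
theorem Poly_basis (h : Submodule.span ℝ (range u) = ⊤) :
    ∃ (β : Fin n → ι) (e : Fin n → Eu n), PolyDual (fun k => u (β k)) e := by
  classical
  obtain ⟨s, hs, hsp, hli⟩ := exists_linearIndependent ℝ (range u)
  let B : Module.Basis s ℝ (Eu n) := Module.Basis.mk hli (by rw [Subtype.range_coe, hsp, h])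
  have : Fintype s := FiniteDimensional.fintypeBasisIndex B
  have hc : Fintype.card s = n := by
    rw [← Module.finrank_eq_card_basis B, finrank_euclideanSpace_fin]
  let b : Module.Basis (Fin n) ℝ (Eu n) := B.reindex (Fintype.equivFinOfCardEq hc)
  have hb : ∀ k, ∃ i, u i = b k := fun k => by
    simp only [b, B, Module.Basis.reindex_apply, Module.Basis.mk_apply]
    exact hs (Subtype.coe_prop _)
  choose β hβ using hb
  let e : Fin n → Eu n := fun j =>
    (InnerProductSpace.toDual ℝ (Eu n)).symm (LinearMap.toContinuousLinearMap (b.coord j))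
  have he : ∀ j y, ⟪e j, y⟫ = b.repr y j := fun j y => by
    simp only [e, InnerProductSpace.toDual_symm_apply]
    rfl
  have hr : ∀ y : Eu n, ∑ k, ⟪e k, y⟫ • u (β k) = y := fun y => by
    simp only [he, hβ, b.sum_repr]
  refine ⟨β, e, fun j k => ?_, fun x => ?_, hr⟩
  · rw [he, hβ, b.repr_self, Finsupp.single_apply]
    simp only [eq_comm]
  · refine ext_inner_right ℝ fun y => ?_
    conv_rhs => rw [← hr y]
    simp only [sum_inner, inner_sum, real_inner_smul_left, real_inner_smul_right, mul_comm]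

theorem Poly_body0 {b e : Fin n → Eu n} (h : PolyDual b e) (hb : ∀ k, ∃ i, u i = b k)
    (hb' : ∀ k, ∃ i, u i = -b k) (t : ι → ℝ) : Body0 (PP u t) := by
  have hcl : IsClosed (PP u t) := by
    rw [PP, ofPred_forall]
    exact isClosed_iInter fun i => isClosed_le (by fun_prop) continuous_const
  have hM : ∀ i, Real.exp (t i) ≤ ∑ i, Real.exp (t i) := fun i =>
    Finset.single_le_sum (f := fun i => Real.exp (t i)) (fun i _ => (Real.exp_pos _).le)
      (Finset.mem_univ i)
  have hbd : PP u t ⊆ closedBall 0 (∑ k, (∑ i, Real.exp (t i)) * ‖e k‖) := by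
    intro x hx
    rw [mem_closedBall_zero_iff, ← h.left x]
    refine (norm_sum_le _ _).trans (Finset.sum_le_sum fun k _ => ?_)
    rw [norm_smul, Real.norm_eq_abs]
    refine mul_le_mul_of_nonneg_right (abs_le.2 ⟨?_, ?_⟩) (norm_nonneg _)
    · obtain ⟨i, hi⟩ := hb' k
      have := (hx i).trans (hM i)
      rw [hi, inner_neg_right] at this
      linarith
    · obtain ⟨i, hi⟩ := hb k
      exact hi ▸ (hx i).trans (hM i)
  have h0 : (0 : Eu n) ∈ interior (PP u t) := by
    have ho : IsOpen {x : Eu n | ∀ i, ⟪x, u i⟫ < Real.exp (t i)} := by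
      rw [ofPred_forall]
      exact isOpen_iInter_of_finite fun i => isOpen_lt (by fun_prop) continuous_const
    refine interior_maximal (fun x hx i => (hx i).le) ho fun i => ?_
    rw [inner_zero_left]
    exact Real.exp_pos _
  refine ⟨⟨(isCompact_closedBall _ _).of_isClosed_subset hcl hbd, ?_, ⟨0, h0⟩⟩, h0⟩
  intro x hx y hy a c ha hc hac i
  rw [inner_add_left, real_inner_smul_left, real_inner_smul_left]
  calc a * ⟪x, u i⟫ + c * ⟪y, u i⟫ ≤ a * Real.exp (t i) + c * Real.exp (t i) :=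
        add_le_add (mul_le_mul_of_nonneg_left (hx i) ha) (mul_le_mul_of_nonneg_left (hy i) hc)
    _ = Real.exp (t i) := by rw [← add_mul, hac, one_mul]

/-- monotone homogeneous families have continuous logarithmic support values -/
theorem Poly_cont {F : (ι → ℝ) → Set (Eu n)} {ξ : Eu n} (hc : ∀ t, IsCompact (F t))
    (hne : ∀ t, (F t).Nonempty) (hp : ∀ t, 0 < supp (F t) ξ)
    (h : ∀ t t' a, (∀ i, t' i ≤ t i + a) → F t' ⊆ Real.exp a • F t) :
    Continuous fun t => Real.log (supp (F t) ξ) := by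
  refine (LipschitzWith.of_le_add fun t' t => ?_).continuous
  have h1 := supp_mono ((hc t).smul (Real.exp (dist t' t))) (hne t') (h t t' (dist t' t) fun i => by
    have := (le_abs_self _).trans ((Real.dist_eq _ _).symm.trans_le (dist_le_pi_dist t' t i))
    linarith) ξ
  rw [supp_smul (hc t) (Real.exp_pos _).le] at h1
  have h2 := Real.log_le_log (hp t') h1
  rw [Real.log_mul (Real.exp_pos _).ne' (hp t).ne', Real.log_exp] at h2
  linarith

theorem PP_body0 (hu : Frame u) (t : ι → ℝ) : Body0 (PP u t) := by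
  obtain ⟨β, e, h⟩ := Poly_basis hu.span
  exact Poly_body0 h (fun k => ⟨β k, rfl⟩) (fun k => hu.symm _) t

theorem PP_subset (t t' : ι → ℝ) {a : ℝ} (h : ∀ i, t' i ≤ t i + a) :
    PP u t' ⊆ Real.exp a • PP u t := by
  intro x hx
  rw [mem_smul_set_iff_inv_smul_mem₀ (Real.exp_pos a).ne']
  intro i
  rw [real_inner_smul_left, inv_mul_le_iff₀ (Real.exp_pos a), ← Real.exp_add, add_comm]
  exact (hx i).trans (Real.exp_le_exp.2 (h i))

omit [Fintype ι] in
theorem Poly_ne (hu : Frame u) (i : ι) : u i ≠ 0 := fun h => by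
  have := hu.unit i
  rw [h, norm_zero] at this
  exact zero_ne_one this

omit [Fintype ι] in
theorem Poly_zero (t : ι → ℝ) : (0 : Eu n) ∈ PP u t := fun i => by
  rw [inner_zero_left]
  exact (Real.exp_pos _).le

theorem tight_le (hu : Frame u) (t : ι → ℝ) (i : ι) : tight u t i ≤ t i :=
  (Real.log_le_iff_le_exp ((PP_body0 hu t).supp_pos (Poly_ne hu i))).2
    (supp_le ⟨0, Poly_zero t⟩ fun _ hy => hy i)

theorem exp_tight (hu : Frame u) (t : ι → ℝ) (i : ι) :
    Real.exp (tight u t i) = supp (PP u t) (u i) :=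
  Real.exp_log ((PP_body0 hu t).supp_pos (Poly_ne hu i))

theorem PP_tight (hu : Frame u) (t : ι → ℝ) : PP u (tight u t) = PP u t :=
  Subset.antisymm (fun _ hx i => (hx i).trans (Real.exp_le_exp.2 (tight_le hu t i)))
    fun _ hx i => (le_supp (PP_body0 hu t).1.1 hx _).trans (exp_tight hu t i).ge

theorem continuous_tight (hu : Frame u) : Continuous (tight u) :=
  continuous_pi fun i => Poly_cont (fun t => (PP_body0 hu t).1.1) (fun t => ⟨0, Poly_zero t⟩)
    (fun t => (PP_body0 hu t).supp_pos (Poly_ne hu i)) fun t t' _ h => PP_subset t t' h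

/-- the flag of sections -/
def PolySec (b : Fin n → Eu n) (j : ℕ) : Set (Eu n) := {x | ∀ k : Fin n, k.1 < j → ⟪x, b k⟫ = 0}

/-- the signed basis vectors -/
def PolyV (b : Fin n → Eu n) (q : Fin n × Bool) : Eu n := if q.2 then b q.1 else -b q.1

theorem Poly_sec_closed (b : Fin n → Eu n) (j : ℕ) : IsClosed (PolySec b j) := by
  simp only [PolySec, ofPred_forall]
  exact isClosed_iInter fun k => isClosed_iInter fun _ => isClosed_eq (by fun_prop) continuous_const

theorem Poly_sec_smul {b : Fin n → Eu n} {j : ℕ} {x : Eu n} (hx : x ∈ PolySec b j) (a : ℝ) :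
    a • x ∈ PolySec b j := fun k hk => by rw [real_inner_smul_left, hx k hk, mul_zero]

theorem PolyDual.sec {b e : Fin n → Eu n} (h : PolyDual b e) (q : Fin n × Bool) :
    PolyV e q ∈ PolySec b q.1 := fun k hk => by
  have : ⟪e q.1, b k⟫ = 0 := by rw [h.dual, if_neg (fun e => by simp [e] at hk)]
  unfold PolyV
  split_ifs
  · exact this
  · rw [inner_neg_left, this, neg_zero]

theorem PolyDual.self {b e : Fin n → Eu n} (h : PolyDual b e) (q : Fin n × Bool) :
    ⟪PolyV e q, PolyV b q⟫ = 1 := by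
  unfold PolyV
  split_ifs
  · rw [h.dual, if_pos rfl]
  · rw [inner_neg_neg, h.dual, if_pos rfl]

theorem PolyDual.other {b e : Fin n → Eu n} (h : PolyDual b e) {q q' : Fin n × Bool}
    (hq : q ≠ q') : ⟪PolyV e q, PolyV b q'⟫ ≤ 0 := by
  obtain ⟨j, s⟩ := q
  obtain ⟨k, s'⟩ := q'
  by_cases hjk : j = k
  · subst hjk
    cases s <;> cases s' <;> simp [PolyV, h.dual] at hq ⊢
  · cases s <;> cases s' <;> simp [PolyV, h.dual, hjk]

theorem PolyDual.pos {b e : Fin n → Eu n} (h : PolyDual b e) {K : Set (Eu n)} (hK : Body0 K)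
    (q : Fin n × Bool) : 0 < supp (K ∩ PolySec b q.1) (PolyV b q) := by
  obtain ⟨ρ, R, hρ, -, h1, -⟩ := hK.exists_radii
  have hv : 0 < ‖PolyV e q‖ + 1 := by positivity
  refine lt_of_lt_of_le ?_ (le_supp (hK.1.1.inter_right (Poly_sec_closed _ _))
    (y := (ρ / (‖PolyV e q‖ + 1)) • PolyV e q) ⟨h1 ?_, Poly_sec_smul (h.sec q) _⟩ _)
  · rw [real_inner_smul_left, h.self]
    positivity
  · rw [mem_closedBall_zero_iff, norm_smul, Real.norm_of_nonneg (by positivity), div_mul_eq_mul_div,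
      div_le_iff₀ hv]
    nlinarith

theorem PolyDual.bound {b e : Fin n → Eu n} (h : PolyDual b e) {c : ℝ} (hc : 0 < c) (m : ℕ) :
    ∃ R : ℝ, ∀ K : Set (Eu n), Convex ℝ K → closedBall 0 c ⊆ K →
      (∀ j : Fin n, ∀ x ∈ K ∩ PolySec b j, |⟪x, b j⟫| ≤ 1) →
      ∀ x ∈ K ∩ PolySec b (n - m), ‖x‖ ≤ R := by
  induction m with
  | zero =>
    refine ⟨0, fun K _ _ _ x hx => ?_⟩
    rw [← h.left x, Finset.sum_eq_zero fun k _ => by rw [hx.2 k k.2, zero_smul], norm_zero]
  | succ m ih =>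
    obtain ⟨R, hR⟩ := ih
    by_cases hm : n ≤ m
    · exact ⟨R, by rwa [show n - (m + 1) = n - m by omega]⟩
    let j : Fin n := ⟨n - (m + 1), by omega⟩
    obtain ⟨η, hη, hηc⟩ : ∃ η : ℝ, 0 < η ∧ η * ‖e j‖ ≤ c := by
      have hv : 0 < ‖e j‖ + 1 := by positivity
      refine ⟨c / (‖e j‖ + 1), by positivity, ?_⟩
      rw [div_mul_eq_mul_div, div_le_iff₀ hv]
      linarith only [hc]
    refine ⟨(1 + η) / η * R + ‖e j‖, fun K hK hcK h1 x hx => ?_⟩
    have hα := h1 j x hx
    have hw : -(⟪x, b j⟫ * η) • e j ∈ K := by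
      apply hcK
      rw [mem_closedBall_zero_iff, norm_smul, norm_neg, norm_mul, Real.norm_eq_abs,
        Real.norm_of_nonneg hη.le, mul_assoc]
      exact (mul_le_of_le_one_left (by positivity) hα).trans hηc
    have hz := hK hx.1 hw (a := η / (1 + η)) (b := 1 / (1 + η)) (by positivity) (by positivity)
      (by field_simp; ring)
    have hz' := hR K hK hcK h1 _ ⟨hz, fun k hk => by
      rw [inner_add_left, real_inner_smul_left, real_inner_smul_left, real_inner_smul_left, h.dual]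
      split_ifs with hjk
      · rw [← hjk]
        ring
      · have : k.1 ≠ n - (m + 1) := fun e => hjk (Fin.ext e.symm)
        rw [hx.2 k (by omega)]
        ring⟩
    have e1 : x = ((1 + η) / η) • ((η / (1 + η)) • x + (1 / (1 + η)) • -(⟪x, b j⟫ * η) • e j) +
        ⟪x, b j⟫ • e j := by
      match_scalars <;> field_simp <;> ring
    rw [e1]
    refine (norm_add_le _ _).trans (add_le_add ?_ ?_)
    · rw [norm_smul, Real.norm_of_nonneg (by positivity)]
      exact mul_le_mul_of_nonneg_left hz' (by positivity)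
    · rw [norm_smul, Real.norm_eq_abs]
      exact mul_le_of_le_one_left (norm_nonneg _) hα

/-- the last nonzero coordinate -/
theorem PolyDual.last {b e : Fin n → Eu n} (h : PolyDual b e) {v : Eu n} (hv : v ≠ 0) :
    ∃ (q : Fin n × Bool) (a : ℝ), 0 < a ∧
      ∀ y ∈ PolySec b q.1, ⟪y, v⟫ = a * ⟪y, PolyV b q⟫ := by
  classical
  have hne : (Finset.univ.filter fun k => ⟪e k, v⟫ ≠ 0).Nonempty := by
    by_contra h0
    refine hv ?_
    rw [← h.right v]
    refine Finset.sum_eq_zero fun k _ => ?_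
    have : ⟪e k, v⟫ = 0 := by
      by_contra h1
      exact h0 ⟨k, Finset.mem_filter.2 ⟨Finset.mem_univ _, h1⟩⟩
    rw [this, zero_smul]
  obtain ⟨j, hj, hmax⟩ := Finset.exists_max_image _ id hne
  have hj' := (Finset.mem_filter.1 hj).2
  have key : ∀ y ∈ PolySec b j, ⟪y, v⟫ = ⟪e j, v⟫ * ⟪y, b j⟫ := by
    intro y hy
    conv_lhs => rw [← h.right v, inner_sum]
    rw [Finset.sum_eq_single j, real_inner_smul_right]
    · intro k _ hk
      rw [real_inner_smul_right]
      rcases lt_or_gt_of_ne hk with h1 | h1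
      · rw [hy k h1, mul_zero]
      · have : ⟪e k, v⟫ = 0 := by
          by_contra h2
          exact absurd (hmax k (Finset.mem_filter.2 ⟨Finset.mem_univ _, h2⟩)) (not_le.2 h1)
        rw [this, zero_mul]
    · exact fun h => absurd (Finset.mem_univ _) h
  rcases lt_or_gt_of_ne hj' with h1 | h1
  · refine ⟨(j, false), -⟪e j, v⟫, neg_pos.2 h1, fun y hy => ?_⟩
    rw [key y hy]
    simp [PolyV]
  · exact ⟨(j, true), ⟪e j, v⟫, h1, key⟩

/-- The retraction onto the parallelotopes of a basis. -/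
theorem exists_link_data (hu : Frame u) : ∃ (Φ : (ι → ℝ) → Fin n × Bool → ℝ)
    (σ : (Fin n × Bool → ℝ) → ι → ℝ) (c0 R0 : ℝ), Continuous Φ ∧ Continuous σ ∧
      (∀ s, tight u (σ s) = σ s) ∧ (∀ s, Φ (σ s) = s) ∧
      ∀ t, Φ t = 0 → (∀ i, c0 ≤ t i) ∧ PP u t ⊆ closedBall 0 R0 := by
  obtain ⟨β, e, h⟩ := Poly_basis hu.span
  generalize hb : (fun k => u (β k)) = b at h
  have hV : ∀ q, ∃ i, u i = PolyV b q := by
    rintro ⟨j, _ | _⟩
    · subst hb
      exact hu.symm _
    · subst hb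
      exact ⟨β j, rfl⟩
  have hB : ∀ s, Body0 (PP (PolyV b) s) :=
    Poly_body0 h (fun k => ⟨(k, true), rfl⟩) fun k => ⟨(k, false), rfl⟩
  have hcs : ∀ t (j : ℕ), IsCompact (PP u t ∩ PolySec b j) := fun t j =>
    (PP_body0 hu t).1.1.inter_right (Poly_sec_closed _ _)
  have h0 : ∀ t (j : ℕ), (PP u t ∩ PolySec b j).Nonempty := fun t j =>
    ⟨0, Poly_zero t, fun k _ => inner_zero_left _⟩
  have hPP : ∀ s, PP u (fun i => Real.log (supp (PP (PolyV b) s) (u i))) = PP (PolyV b) s := by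
    intro s
    refine Subset.antisymm (fun x hx q => ?_) fun x hx i => ?_
    · obtain ⟨i, hi⟩ := hV q
      have := hx i
      rw [Real.exp_log ((hB s).supp_pos (Poly_ne hu i)), hi] at this
      exact this.trans (supp_le ⟨0, Poly_zero s⟩ fun _ hy => hy q)
    · rw [Real.exp_log ((hB s).supp_pos (Poly_ne hu i))]
      exact le_supp (hB s).1.1 hx _
  choose q a ha hqa using fun i => h.last (Poly_ne hu i)
  obtain ⟨c0, hc0⟩ := (finite_range fun i => Real.log (a i)).bddBelow
  obtain ⟨R0, hR0⟩ := h.bound (Real.exp_pos c0) n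
  refine ⟨fun t q => Real.log (supp (PP u t ∩ PolySec b q.1) (PolyV b q)),
    fun s i => Real.log (supp (PP (PolyV b) s) (u i)), c0, R0, continuous_pi fun q => ?_,
    continuous_pi fun i => ?_, fun s => ?_, fun s => ?_, fun t ht => ?_⟩
  · refine Poly_cont (fun t => hcs t _) (fun t => h0 t _) (fun t => h.pos (PP_body0 hu t) q)
      fun t t' a ha x hx => ?_
    have := PP_subset t t' ha hx.1
    rw [mem_smul_set_iff_inv_smul_mem₀ (Real.exp_pos a).ne'] at this ⊢
    exact ⟨this, Poly_sec_smul hx.2 _⟩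
  · exact Poly_cont (fun s => (hB s).1.1) (fun s => ⟨0, Poly_zero s⟩)
      (fun s => (hB s).supp_pos (Poly_ne hu i)) fun t t' _ h => PP_subset t t' h
  · funext i
    rw [tight, hPP]
  · funext q
    simp only [hPP]
    have hy : Real.exp (s q) • PolyV e q ∈ PP (PolyV b) s ∩ PolySec b q.1 := by
      refine ⟨fun q' => ?_, Poly_sec_smul (h.sec q) _⟩
      rw [real_inner_smul_left]
      by_cases hq : q = q'
      · rw [← hq, h.self, mul_one]
      · exact (mul_nonpos_of_nonneg_of_nonpos (Real.exp_pos _).le (h.other hq)).trans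
          (Real.exp_pos _).le
    have h1 := le_supp ((hB s).1.1.inter_right (Poly_sec_closed _ _)) hy (PolyV b q)
    rw [real_inner_smul_left, h.self, mul_one] at h1
    rw [le_antisymm (supp_le ⟨_, hy⟩ fun y hy => hy.1 q) h1, Real.log_exp]
  · have h1 : ∀ q : Fin n × Bool, supp (PP u t ∩ PolySec b q.1) (PolyV b q) = 1 := fun q => by
      rw [← Real.exp_log (h.pos (PP_body0 hu t) q), show Real.log _ = 0 from congrFun ht q,
        Real.exp_zero]
    have h2 : ∀ i, c0 ≤ t i := fun i => by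
      obtain ⟨y, hy, e1⟩ := exists_supp_eq (hcs t (q i).1) (h0 t _) (PolyV b (q i))
      have := hy.1 i
      rw [hqa i y hy.2, e1, h1, mul_one] at this
      exact (hc0 ⟨i, rfl⟩).trans ((Real.log_le_iff_le_exp (ha i)).2 this)
    refine ⟨h2, fun x hx => mem_closedBall_zero_iff.2 (hR0 _ (PP_body0 hu t).1.2.1 ?_ ?_ x
      ⟨hx, fun k hk => by omega⟩)⟩
    · intro y hy i
      refine (real_inner_le_norm _ _).trans ?_
      rw [hu.unit, mul_one]
      exact (mem_closedBall_zero_iff.1 hy).trans (Real.exp_le_exp.2 (h2 i))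
    · intro j y hy
      have k1 := (le_supp (hcs t j) hy _).trans (h1 (j, true)).le
      have k2 := (le_supp (hcs t j) hy _).trans (h1 (j, false)).le
      simp only [PolyV, if_true, Bool.false_eq_true, if_false, inner_neg_right] at k1 k2
      exact abs_le.2 ⟨by linarith, k1⟩

end Pool.Agent.Work.MP_f7e2e5_gt
end
end

-- merged part: Pool.Agent.Work.MP_f7e2e5_gt.Cont
section
open MeasureTheory Set Metric Filter Topology
open scoped RealInnerProductSpace Pointwise ContDiff NNReal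

noncomputable section

namespace Pool.Agent.Work.MP_f7e2e5_gt

variable {n : ℕ} {p : ℝ}

variable {ι : Type} [Fintype ι] {u : ι → Eu n}

open Classical in
/-- Extension of a vector of values to a function of the normal. -/
def Cont_ext (u : ι → Eu n) (a : ι → ℝ) (ξ : Eu n) : ℝ := ∑ i, if ξ = u i then a i else 0

theorem Cont_ext_apply (hu : Frame u) (a : ι → ℝ) (j : ι) : Cont_ext u a (u j) = a j := by
  unfold Cont_ext
  rw [Finset.sum_eq_single j]
  · simp
  · intro i _ hi
    exact if_neg fun e => hi (hu.inj e).symm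
  · simp

theorem Cont_ext_meas (u : ι → Eu n) (a : ι → ℝ) : Measurable (Cont_ext u a) := by
  refine Finset.measurable_sum _ fun i _ => ?_
  exact Measurable.ite (measurableSet_singleton (u i)) measurable_const measurable_const

theorem Cont_wulff (hu : Frame u) (t : ι → ℝ) :
    wulff (range u) (Cont_ext u fun i => Real.exp (t i)) = PP u t := by
  ext x
  simp only [wulff, PP, mem_ofPred_eq, forall_mem_range, Cont_ext_apply hu]

theorem Cont_bdd (hu : Frame u) (t : ι → ℝ) : Bornology.IsBounded (PP u t) :=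
  (PP_body0 hu t).1.1.isBounded

theorem Cont_cap_le (hp : 1 < p) (hu : Frame u) (t t' : ι → ℝ) {a : ℝ}
    (h : ∀ i, t' i ≤ t i + a) :
    cap p (PP u t') ≤ Real.exp (((n : ℝ) - p) * a) * cap p (PP u t) := by
  have h1 := cap_mono (p := p) (PP_subset (u := u) t t' h) ((Cont_bdd hu t).smul₀ _)
  rwa [cap_smul (by linarith) _ (Real.exp_pos a), ← Real.exp_mul, mul_comm a] at h1

theorem continuous_cap_PP (hp : 1 < p) (hpn : p < n) (hu : Frame u) :
    Continuous (fun t => cap p (PP u t)) := by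
  refine continuous_iff_continuousAt.2 fun t => ?_
  have hd : ∀ (s s' : ι → ℝ) i, s' i ≤ s i + dist s' s := fun s s' i => by
    have := dist_le_pi_dist s' s i
    rw [Real.dist_eq] at this
    linarith [le_abs_self (s' i - s i)]
  have c1 : ∀ c : ℝ, Tendsto (fun t' : ι → ℝ => Real.exp (c * dist t' t) * cap p (PP u t))
      (𝓝 t) (𝓝 (cap p (PP u t))) := fun c => by
    have : Continuous fun t' : ι → ℝ => Real.exp (c * dist t' t) * cap p (PP u t) := by fun_prop
    simpa using this.tendsto t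
  refine tendsto_of_tendsto_of_tendsto_of_le_of_le (c1 (-((n : ℝ) - p))) (c1 ((n : ℝ) - p))
    (fun t' => ?_) fun t' => Cont_cap_le hp hu t t' (hd t t')
  have h1 := Cont_cap_le hp hu t' t (hd t' t)
  rw [dist_comm] at h1
  have h2 := mul_le_mul_of_nonneg_left h1 (Real.exp_pos (-((n : ℝ) - p) * dist t' t)).le
  rwa [← mul_assoc, ← Real.exp_add, neg_mul, neg_add_cancel, Real.exp_zero, one_mul,
    ← neg_mul] at h2

theorem Cont_supp (hu : Frame u) (t : ι → ℝ) {y : Eu n} (hy : y ∈ PP u t) {k : ι}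
    (h : ⟪y, u k⟫ = Real.exp (t k)) : supp (PP u t) (u k) = Real.exp (t k) :=
  le_antisymm (supp_le ⟨y, hy⟩ fun _ hz => hz k) (h ▸ le_supp (PP_body0 hu t).1.1 hy _)

theorem ae_nrm_PP (hp : 1 < p) (hpn : p < n) (hu : Frame u) (t : ι → ℝ) :
    ∀ᵐ y ∂(tau p (PP u t)), ∃ i, nrm (PP u t) y = u i ∧ ⟪y, u i⟫ = Real.exp (t i) ∧
      ∀ k, k ≠ i → ⟪y, u k⟫ < Real.exp (t k) := by
  have hK := PP_body0 hu t
  filter_upwards [tau_ae_reg hp hpn hK (isTau_tau hp hK)] with y hy
  have h1 := wulff_reg (Ω := range u) (f := Cont_ext u fun i => Real.exp (t i))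
    (finite_range u).isCompact (forall_mem_range.2 hu.unit) ((finite_range u).continuousOn _)
    (y := y)
  rw [Cont_wulff hu] at h1
  obtain ⟨⟨i, hi⟩, h2⟩ := h1 hK hy
  obtain ⟨-, h3, h4⟩ := reg_normal hK hy
  have hyK : y ∈ PP u t := hK.1.1.isClosed.frontier_subset hy.1
  rw [← hi, Cont_ext_apply hu] at h2
  rw [← hi] at h3 h4
  refine ⟨i, hi.symm, h3.trans h2, fun k hk => lt_of_le_of_ne (hyK k) fun e => hk ?_⟩
  exact hu.inj (h4 _ (hu.unit k) (e.trans (Cont_supp hu t hyK e).symm))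

theorem map_nrm_PP (hp : 1 < p) (hpn : p < n) (hu : Frame u) (t : ι → ℝ) :
    (tau p (PP u t)).map (nrm (PP u t)) =
      ∑ i, ENNReal.ofReal (mass p u t i) • Measure.dirac (u i) := by
  classical
  have := (isTau_tau hp (PP_body0 hu t)).fin
  have h1 : ∀ᵐ y ∂(tau p (PP u t)), nrm (PP u t) y ∈ Finset.univ.image u := by
    filter_upwards [ae_nrm_PP hp hpn hu t] with y ⟨i, hi, _⟩
    exact Finset.mem_image.2 ⟨i, Finset.mem_univ _, hi.symm⟩
  rw [(Measure.ae_mem_finset_iff_map_eq_sum_dirac (measurable_nrm _).aemeasurable).1 h1,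
    Finset.sum_image fun i _ j _ e => hu.inj e]
  refine Finset.sum_congr rfl fun i _ => ?_
  unfold mass
  rw [ofReal_measureReal]
  rfl

omit [Fintype ι] in
theorem Cont_mass_nonneg (t : ι → ℝ) (i : ι) : 0 ≤ mass p u t i := measureReal_nonneg

theorem Cont_integral (hp : 1 < p) (hpn : p < n) (hu : Frame u) (t : ι → ℝ) {F : Eu n → ℝ}
    (hF : Measurable F) :
    ∫ y, F (nrm (PP u t) y) ∂(tau p (PP u t)) = ∑ i, F (u i) * mass p u t i := by
  rw [← integral_map (measurable_nrm _).aemeasurable hF.aestronglyMeasurable,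
    map_nrm_PP hp hpn hu, integral_finsetSum_measure]
  · refine Finset.sum_congr rfl fun i _ => ?_
    rw [integral_smul_measure, integral_dirac, ENNReal.toReal_ofReal (Cont_mass_nonneg t i),
      smul_eq_mul, mul_comm]
  · intro i _
    exact (integrable_dirac (by simp)).smul_measure ENNReal.ofReal_ne_top

theorem sum_mass (hp : 1 < p) (hpn : p < n) (hu : Frame u) (t : ι → ℝ) :
    ∑ i, mass p u t i = (n - p) * cap p (PP u t) := by
  have hK := PP_body0 hu t
  have h := Cont_integral hp hpn hu t (F := fun _ => 1) measurable_const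
  rw [← (isTau_tau hp hK).mass hp hK]
  simpa using h.symm

theorem Cont_squeeze {F G U : ℝ → ℝ} {D : ℝ} {S : Set ℝ} (hG : HasDerivWithinAt G D S 0)
    (hU : HasDerivWithinAt U D S 0) (h0 : G 0 = F 0) (h0' : U 0 = F 0)
    (h : ∀ᶠ s in 𝓝[S] 0, G s ≤ F s ∧ F s ≤ U s) : HasDerivWithinAt F D S 0 := by
  rw [hasDerivWithinAt_iff_isLittleO] at *
  refine Asymptotics.IsBigO.trans_isLittleO ?_ (hG.norm_left.add hU.norm_left)
  refine Asymptotics.IsBigO.of_bound 1 ?_
  filter_upwards [h] with s hs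
  rw [h0, h0', one_mul, Real.norm_of_nonneg (add_nonneg (norm_nonneg _) (norm_nonneg _)),
    Real.norm_eq_abs, Real.norm_eq_abs, Real.norm_eq_abs, abs_le]
  constructor
  · linarith only [hs, hs.1, neg_abs_le (G s - F 0 - (s - 0) • D), abs_nonneg (U s - F 0 - (s - 0) • D)]
  · linarith [hs.2, le_abs_self (U s - F 0 - (s - 0) • D), abs_nonneg (G s - F 0 - (s - 0) • D)]

theorem Cont_exp_le {x V : ℝ} (hx : |x| ≤ V) (hV : V ≤ 1 / 2) :
    Real.exp x ≤ (1 + 2 * V ^ 2) * (1 + x) := by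
  have h1 := Real.abs_exp_sub_one_sub_id_le (hx.trans (by linarith only [hV]) : |x| ≤ 1)
  have h2 : x ^ 2 ≤ V ^ 2 := by
    rw [← sq_abs x]
    exact pow_le_pow_left₀ (abs_nonneg x) hx 2
  have h3 := (abs_le.1 hx).1
  have h4 := (abs_le.1 h1).2
  linarith only [h2, h4, hV, h3, sq_nonneg V, mul_nonneg_of_nonpos_of_nonpos (Mathlib.Tactic.Linarith.sub_nonpos_of_le (sq_nonneg V)) (Mathlib.Tactic.Linarith.sub_nonpos_of_le hV), mul_nonneg_of_nonpos_of_nonpos (Mathlib.Tactic.Linarith.sub_nonpos_of_le (sq_nonneg V)) (Mathlib.Tactic.Linarith.sub_nonpos_of_le h3)]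

theorem hasDerivWithinAt_cap_PP (hp : 1 < p) (hpn : p < n) (hu : Frame u) (t v : ι → ℝ) :
    HasDerivWithinAt (fun s : ℝ => cap p (PP u (t + s • v))) (∑ i, v i * mass p u t i)
      (Ici 0) 0 := by
  have hK := PP_body0 hu t
  set f := Cont_ext u fun i => Real.exp (t i) with hf
  set g := Cont_ext u fun i => v i * Real.exp (t i) with hg
  have hw : wulff (range u) f = PP u t := Cont_wulff hu t
  have h1 := hadamard hp hpn (Ω := range u) (f := f) (g := g) (finite_range u).isCompact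
    (forall_mem_range.2 hu.unit) ((finite_range u).continuousOn _)
    ((finite_range u).continuousOn _) (Cont_ext_meas _ _) (hw ▸ hK) (τ := tau p (PP u t))
    (by rw [hw]; exact isTau_tau hp hK)
  rw [hw] at h1
  have h2 : ∫ y, g (nrm (PP u t) y) / supp (PP u t) (nrm (PP u t) y) ∂(tau p (PP u t)) =
      ∑ i, v i * mass p u t i := by
    have h3 := Cont_integral hp hpn hu t (Cont_ext_meas u v)
    simp only [Cont_ext_apply hu] at h3
    rw [← h3]
    refine integral_congr_ae ?_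
    filter_upwards [ae_nrm_PP hp hpn hu t, tau_ae_reg hp hpn hK (isTau_tau hp hK)]
      with y ⟨i, e1, e2, _⟩ hy
    rw [e1, Cont_supp hu t (hK.1.1.isClosed.frontier_subset hy.1) e2, hg, Cont_ext_apply hu,
      Cont_ext_apply hu, mul_div_assoc, div_self (Real.exp_pos _).ne', mul_one]
  rw [h2] at h1
  have hmem : ∀ (s : ℝ) x, x ∈ wulff (range u) (fun ξ => f ξ + s * g ξ) ↔
      ∀ i, ⟪x, u i⟫ ≤ Real.exp (t i) * (1 + s * v i) := fun s x => by
    simp only [wulff, mem_ofPred_eq, forall_mem_range, hf, hg, Cont_ext_apply hu]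
    refine forall_congr' fun i => ?_
    rw [show Real.exp (t i) + s * (v i * Real.exp (t i)) = Real.exp (t i) * (1 + s * v i) by ring]
  have hsub : ∀ s : ℝ, wulff (range u) (fun ξ => f ξ + s * g ξ) ⊆ PP u (t + s • v) := by
    intro s x hx i
    refine ((hmem s x).1 hx i).trans ?_
    rw [Pi.add_apply, Pi.smul_apply, smul_eq_mul, Real.exp_add]
    exact mul_le_mul_of_nonneg_left (by linarith only [Real.add_one_le_exp (s * v i)])
      (Real.exp_pos _).le
  have hl : HasDerivAt (fun s : ℝ => (1 + 2 * (s * ‖v‖) ^ 2) ^ ((n : ℝ) - p)) 0 0 := by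
    have a1 : HasDerivAt (fun s : ℝ => 1 + 2 * (s * ‖v‖) ^ 2) 0 0 := by
      simpa using ((((hasDerivAt_id (0 : ℝ)).mul_const ‖v‖).pow 2).const_mul 2).const_add 1
    simpa using a1.rpow_const (p := (n : ℝ) - p) (Or.inl (by simp))
  have h4 := hl.hasDerivWithinAt.mul h1
  have e0 : wulff (range u) (fun ξ => f ξ + (0 : ℝ) * g ξ) = PP u (t + (0 : ℝ) • v) := by
    simp only [zero_mul, add_zero, zero_smul]
    exact hw
  refine Cont_squeeze h1 (U := fun s : ℝ => (1 + 2 * (s * ‖v‖) ^ 2) ^ ((n : ℝ) - p) *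
    cap p (wulff (range u) (fun ξ => f ξ + s * g ξ))) (h4.congr_deriv (by simp)) (by rw [e0])
    (by rw [e0]; simp) ?_
  have hev : ∀ᶠ s : ℝ in 𝓝 0, s * ‖v‖ < 1 / 2 := by
    have : Continuous fun s : ℝ => s * ‖v‖ := by fun_prop
    exact this.continuousAt.eventually_lt continuousAt_const (by simp)
  filter_upwards [nhdsWithin_le_nhds hev, self_mem_nhdsWithin] with s hs hs0
  refine ⟨cap_mono (hsub s) (Cont_bdd hu _), ?_⟩
  have hpos : 0 < 1 + 2 * (s * ‖v‖) ^ 2 := by positivity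
  rw [← cap_smul (by linarith only [hp]) _ hpos]
  refine cap_mono (fun x hx => ?_) (((Cont_bdd hu _).subset (hsub s)).smul₀ _)
  rw [mem_smul_set_iff_inv_smul_mem₀ hpos.ne', hmem]
  intro i
  have b1 := hx i
  rw [Pi.add_apply, Pi.smul_apply, smul_eq_mul, Real.exp_add] at b1
  have b2 : |s * v i| ≤ s * ‖v‖ := by
    rw [abs_mul, abs_of_nonneg hs0]
    exact mul_le_mul_of_nonneg_left (norm_le_pi_norm v i) hs0
  have b3 := mul_le_mul_of_nonneg_left (Cont_exp_le b2 hs.le) (Real.exp_pos (t i)).le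
  rw [real_inner_smul_left, inv_mul_le_iff₀ hpos]
  linarith only [b1, b3]

theorem Cont_bump {U O : Set (Eu n)} (hU : IsCompact U) (hO : IsOpen O) (h : U ⊆ O) :
    ∃ (ψ : Eu n → ℝ) (L : Set (Eu n)), ContDiff ℝ 1 ψ ∧ HasCompactSupport ψ ∧ IsCompact L ∧
      L ⊆ O ∧ (∀ y, 0 ≤ ψ y ∧ ψ y ≤ 1) ∧ (∀ y ∈ U, ψ y = 1) ∧ ∀ y ∉ L, ψ y = 0 := by
  obtain ⟨L, hL, h1, h2⟩ := exists_compact_between hU hO h
  obtain ⟨f, f0, f1, f2⟩ := exists_contMDiffMap_zero_one_of_isClosed (n := 1)
    (modelWithCornersSelf ℝ (Eu n)) (s := (interior L)ᶜ) (t := U) isOpen_interior.isClosed_compl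
    hU.isClosed (disjoint_left.2 fun y hy hy' => hy (h1 hy'))
  have hz : ∀ y ∉ L, f y = 0 := fun y hy => f0 fun k => hy (interior_subset k)
  exact ⟨f, L, f.contMDiff.contDiff, HasCompactSupport.intro hL hz, hL, h2, f2, f1, hz⟩

theorem Cont_lsc (hp : 1 < p) (hpn : p < n) (hu : Frame u) (i : ι) :
    LowerSemicontinuous (fun t => mass p u t i) := by
  intro t c hc
  have hK := PP_body0 hu t
  have hτ := isTau_tau hp hK
  have := hτ.fin
  obtain ⟨ε, hε, hcε⟩ : ∃ ε : ℝ, 0 < ε ∧ c + 3 * ε = mass p u t i :=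
    ⟨(mass p u t i - c) / 3, by linarith only [hc], by ring⟩
  have hO : IsOpen {y : Eu n | ∀ k, k ≠ i → ⟪y, u k⟫ < Real.exp (t k)} := by
    simp only [ofPred_forall]
    exact isOpen_iInter_of_finite fun k => isOpen_iInter_of_finite fun _ =>
      isOpen_lt (by fun_prop) continuous_const
  obtain ⟨U, hUO, hU, hUm⟩ := hO.measurableSet.exists_isCompact_lt_add
    (measure_ne_top (tau p (PP u t)) _) (ENNReal.ofReal_pos.2 hε).ne'
  have m1 : mass p u t i ≤ (tau p (PP u t)).real U + ε := by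
    have a1 : tau p (PP u t) {y | nrm (PP u t) y = u i} ≤
        tau p (PP u t) {y : Eu n | ∀ k, k ≠ i → ⟪y, u k⟫ < Real.exp (t k)} := by
      refine measure_mono_ae ?_
      filter_upwards [ae_nrm_PP hp hpn hu t] with y ⟨j, e1, _, e3⟩ hy
      obtain rfl : j = i := hu.inj (e1.symm.trans hy)
      exact e3
    have a2 := ENNReal.toReal_mono (by finiteness) (a1.trans hUm.le)
    rwa [ENNReal.toReal_add (by finiteness) (by finiteness), ENNReal.toReal_ofReal hε.le] at a2
  obtain ⟨ψ, L, ψ1, ψ2, hL, hLO, ψ3, ψ4, ψ5⟩ := Cont_bump hU hO hUO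
  obtain ⟨M, hM⟩ := exists_fld_radial ψ1 ψ2
  obtain ⟨δ, d0, d1, hδ⟩ := Lam_continuity hp hK hM hε
  have m2 : (tau p (PP u t)).real U ≤ ∫ y, ψ y ∂(tau p (PP u t)) := by
    rw [← integral_indicator_one hU.measurableSet]
    refine integral_mono ((integrable_const (1 : ℝ)).indicator hU.measurableSet)
      (ψ1.continuous.integrable_of_hasCompactSupport ψ2) fun y => ?_
    by_cases hy : y ∈ U
    · simp [hy, ψ4 y hy]
    · simp [hy, (ψ3 y).1]
  have ev1 : ∀ᶠ t' : ι → ℝ in 𝓝 t, ∀ y ∈ L, ∀ k, k ≠ i → ⟪y, u k⟫ < Real.exp (t' k) := by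
    refine hL.eventually_forall_of_forall_eventually fun y hy => ?_
    refine eventually_all.2 fun k => ?_
    by_cases hk : k = i
    · exact Eventually.of_forall fun _ h => absurd hk h
    · have : ∀ᶠ z : (ι → ℝ) × Eu n in 𝓝 (t, y), ⟪z.2, u k⟫ < Real.exp (z.1 k) :=
        ContinuousAt.eventually_lt (by fun_prop) (by fun_prop) (hLO hy k hk)
      exact this.mono fun _ h _ => h
  have ev2 : ∀ᶠ t' : ι → ℝ in 𝓝 t, ∀ k, t' k ≤ t k + Real.log (1 + δ) :=
    eventually_all.2 fun k => (ContinuousAt.eventually_lt (continuous_apply k).continuousAt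
      continuousAt_const (by linarith only [d0, Real.log_pos (by linarith : 1 < 1 + δ)])).mono
        fun _ h => h.le
  have ev3 : ∀ᶠ t' : ι → ℝ in 𝓝 t, ∀ k, t k ≤ t' k + -Real.log (1 - δ) :=
    eventually_all.2 fun k => (ContinuousAt.eventually_lt (f := fun _ => t k)
      (g := fun t' : ι → ℝ => t' k + -Real.log (1 - δ)) continuousAt_const
      ((continuous_apply k).continuousAt.add continuousAt_const)
      (by linarith only [d1, d0, Real.log_neg (by linarith : 0 < 1 - δ) (by linarith)])).mono fun _ h => h.le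
  filter_upwards [ev1, ev2, ev3] with t' e1 e2 e3
  have hK' := PP_body0 hu t'
  have hτ' := isTau_tau hp hK'
  have := hτ'.fin
  have s1 : PP u t' ⊆ (1 + δ) • PP u t := by
    have := PP_subset (u := u) t t' e2
    rwa [Real.exp_log (by linarith only [d0, d1])] at this
  have s2 : (1 - δ) • PP u t ⊆ PP u t' := by
    have := smul_set_mono (a := 1 - δ) (PP_subset (u := u) t' t e3)
    rwa [Real.exp_neg, Real.exp_log (by linarith), smul_smul,
      mul_inv_cancel₀ (by linarith : 1 - δ ≠ 0), one_smul] at this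
  have m3 := hδ _ s2 s1
  rw [hτ.rep ψ ψ1 ψ2, hτ'.rep ψ ψ1 ψ2] at m3
  have hA : MeasurableSet {y | nrm (PP u t') y = u i} :=
    measurable_nrm _ (measurableSet_singleton (u i))
  have m4 : ∫ y, ψ y ∂(tau p (PP u t')) ≤ mass p u t' i := by
    unfold mass
    rw [← integral_indicator_one hA]
    refine integral_mono_ae (ψ1.continuous.integrable_of_hasCompactSupport ψ2)
      ((integrable_const (1 : ℝ)).indicator hA) ?_
    filter_upwards [ae_nrm_PP hp hpn hu t'] with y ⟨j, a1, a2, _⟩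
    by_cases hy : y ∈ L
    · obtain rfl : j = i := by
        by_contra hj
        exact (e1 y hy j hj).ne a2
      rw [indicator_of_mem (show y ∈ {y | nrm (PP u t') y = u j} from a1)]
      exact (ψ3 y).2
    · rw [ψ5 y hy]
      exact indicator_nonneg (fun _ _ => zero_le_one) y
  have := (abs_le.1 m3).1
  show c < mass p u t' i
  linarith only [hε, hcε, m1, m2, m4, this]

theorem continuous_mass (hp : 1 < p) (hpn : p < n) (hu : Frame u) (i : ι) :
    Continuous (fun t => mass p u t i) := by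
  classical
  refine continuous_iff_lower_upperSemicontinuous.2 ⟨Cont_lsc hp hpn hu i, ?_⟩
  have h1 : UpperSemicontinuous fun t => ((n : ℝ) - p) * cap p (PP u t) :=
    (continuous_const.mul (continuous_cap_PP hp hpn hu)).upperSemicontinuous
  have h2 := continuous_neg.comp_lowerSemicontinuous_antitone
    (lowerSemicontinuous_sum (a := Finset.univ.erase i) fun k _ => Cont_lsc hp hpn hu k)
    fun _ _ h => neg_le_neg h
  convert h1.add h2 using 2 with t
  rw [← sum_mass hp hpn hu t, ← Finset.add_sum_erase _ _ (Finset.mem_univ i)]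
  simp

end Pool.Agent.Work.MP_f7e2e5_gt
end
end

-- merged part: Pool.Agent.Work.MP_f7e2e5_gt.GLin
section
/-! Linear algebra of finitely generated cones. -/

open MeasureTheory Set Metric Filter Topology
open scoped RealInnerProductSpace Pointwise ContDiff NNReal

noncomputable section

namespace Pool.Agent.Work.MP_f7e2e5_gt

variable {n : ℕ} {ι : Type} {u : ι → Eu n}

/-- A family of distinct unit vectors not contained in a closed hemisphere. -/
structure GFr (u : ι → Eu n) : Prop where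
  unit : ∀ i, ‖u i‖ = 1
  inj : Function.Injective u
  pos : ∀ x : Eu n, x ≠ 0 → ∃ i, 0 < ⟪x, u i⟫

theorem mem_cone {I : Finset ι} {x : Eu n} : x ∈ PointedCone.hull ℝ (u '' (I : Set ι)) ↔
    ∃ a : ι → ℝ, (∀ i, 0 ≤ a i) ∧ ∑ i ∈ I, a i • u i = x := by
  rw [Submodule.mem_span_image_finset_iff_exists_fun']
  constructor
  · rintro ⟨a, rfl⟩
    exact ⟨fun i => a i, fun i => (a i).2, rfl⟩
  · rintro ⟨a, h, rfl⟩
    exact ⟨fun i => ⟨a i, h i⟩, rfl⟩

theorem lin_mono {I J : Finset ι} (h : I ⊆ J) : lin u I ≤ lin u J := fun _ hx =>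
  ⟨Submodule.span_mono (image_mono h) hx.1, Submodule.span_mono (image_mono h) hx.2⟩

theorem mem_lin {I : Finset ι} {x : Eu n} : x ∈ lin u I ↔
    x ∈ PointedCone.hull ℝ (u '' (I : Set ι)) ∧ -x ∈ PointedCone.hull ℝ (u '' (I : Set ι)) :=
  Iff.rfl

/-- A vector of a positive dependence lies in the lineality space. -/
theorem mem_lin_of_sum {I : Finset ι} {κ : Type} {s : Finset κ} {v : κ → ι} {a : κ → ℝ}
    (hv : ∀ k ∈ s, v k ∈ I) (ha : ∀ k ∈ s, 0 ≤ a k)
    (h : -∑ k ∈ s, a k • u (v k) ∈ PointedCone.hull ℝ (u '' (I : Set ι))) {k : κ} (hk : k ∈ s)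
    (hak : a k ≠ 0) : u (v k) ∈ lin u I := by
  classical
  have hm : ∀ j ∈ s, u (v j) ∈ PointedCone.hull ℝ (u '' (I : Set ι)) := fun j hj =>
    Submodule.subset_span ⟨v j, hv j hj, rfl⟩
  refine ⟨hm k hk, ?_⟩
  have hp := lt_of_le_of_ne (ha k hk) hak.symm
  change -u (v k) ∈ PointedCone.hull ℝ (u '' (I : Set ι))
  rw [← PointedCone.smul_mem_iff _ hp]
  have e : a k • -u (v k) = -∑ k ∈ s, a k • u (v k) + ∑ j ∈ s.erase k, a j • u (v j) := by
    rw [← Finset.add_sum_erase _ _ hk, smul_neg]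
    abel
  rw [e]
  exact Submodule.add_mem _ h (Submodule.sum_mem _ fun j hj => PointedCone.smul_mem _
    (ha j (Finset.mem_of_mem_erase hj)) (hm j (Finset.mem_of_mem_erase hj)))

/-- Gordan's alternative. -/
theorem gordan (u : ι → Eu n) (I : Finset ι) : ∃ w : Eu n, ‖w‖ ≤ 1 ∧ w ∈ (lin u I)ᗮ ∧
    ∀ i ∈ I, u i ∉ lin u I → ⟪w, u i⟫ < 0 := by
  classical
  let S := I.filter fun i => u i ∉ lin u I
  let Λ : (S → ℝ) →ₗ[ℝ] Eu n := Fintype.linearCombination ℝ fun j : S => u j
  obtain ⟨f, a, b, h1, h2, h3⟩ := geometric_hahn_banach_compact_closed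
    ((convex_stdSimplex ℝ S).linear_image Λ)
    ((isCompact_stdSimplex ℝ S).image Λ.continuous_of_finiteDimensional) (lin u I).convex
    (lin u I).closed_of_finiteDimensional (by
      rw [disjoint_left]
      rintro _ ⟨c, hc, rfl⟩ h
      obtain ⟨k, -, hk⟩ := Finset.exists_ne_zero_of_sum_ne_zero (hc.2.trans_ne one_ne_zero)
      exact (Finset.mem_filter.1 k.2).2 (mem_lin_of_sum (s := Finset.univ) (v := fun j : S => j.1)
        (fun j _ => (Finset.mem_filter.1 j.2).1) (fun j _ => hc.1 j) h.2 (Finset.mem_univ k) hk))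
  have h4 : b < 0 := by simpa using h3 0 (lin u I).zero_mem
  have h5 : ∀ y ∈ lin u I, f y = 0 := fun y hy => by
    by_contra k
    have := h3 _ ((lin u I).smul_mem (b / f y) hy)
    rw [map_smul, smul_eq_mul, div_mul_cancel₀ _ k] at this
    exact this.false
  set w := (InnerProductSpace.toDual ℝ (Eu n)).symm f with hw
  have hwf : ∀ y, ⟪w, y⟫ = f y := fun y => InnerProductSpace.toDual_symm_apply
  have hp : 0 < ‖w‖ + 1 := by positivity
  refine ⟨(‖w‖ + 1)⁻¹ • w, ?_, Submodule.smul_mem _ _ ?_, fun i hi hi' => ?_⟩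
  · rw [norm_smul, norm_inv, Real.norm_of_nonneg hp.le, inv_mul_le_iff₀ hp]
    linarith
  · exact (Submodule.mem_orthogonal' _ _).2 fun y hy => (hwf y).trans (h5 y hy)
  · rw [real_inner_smul_left, hwf]
    refine mul_neg_of_pos_of_neg (inv_pos.2 hp) ?_
    have := h1 _ ⟨Pi.single ⟨i, Finset.mem_filter.2 ⟨hi, hi'⟩⟩ 1, single_mem_stdSimplex ℝ _, rfl⟩
    simp only [Λ, Fintype.linearCombination_apply_single, one_smul] at this
    linarith

/-- The lineality space is positively spanned by the vectors it contains. -/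
theorem lin_pos (I : Finset ι) {y : Eu n} (hy : y ∈ lin u I) (h0 : y ≠ 0) :
    ∃ i ∈ I, u i ∈ lin u I ∧ 0 < ⟪y, u i⟫ := by
  obtain ⟨w, -, hw, hw'⟩ := gordan u I
  obtain ⟨a, ha, e⟩ := mem_cone.1 hy.1
  have h1 : ∀ i ∈ I, a i * ⟪w, u i⟫ ≤ 0 := fun i hi => by
    by_cases h : u i ∈ lin u I
    · rw [(Submodule.mem_orthogonal' _ _).1 hw _ h, mul_zero]
    · exact mul_nonpos_of_nonneg_of_nonpos (ha i) (hw' i hi h).le
  have h2 : ∑ i ∈ I, a i * ⟪w, u i⟫ = 0 := by
    rw [← (Submodule.mem_orthogonal' _ _).1 hw _ hy, ← e, inner_sum]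
    simp only [real_inner_smul_right]
  by_contra h
  push Not at h
  have h3 : ⟪y, y⟫ ≤ 0 := by
    nth_rewrite 2 [← e]
    rw [inner_sum]
    refine Finset.sum_nonpos fun i hi => ?_
    rw [real_inner_smul_right]
    by_cases k : u i ∈ lin u I
    · exact mul_nonpos_of_nonneg_of_nonpos (ha i) (h i hi k)
    · have := (Finset.sum_eq_zero_iff_of_nonpos h1).1 h2 i hi
      rw [(mul_eq_zero.1 this).resolve_right (hw' i hi k).ne, zero_mul]
  exact h0 (real_inner_self_nonpos.1 h3)

theorem pos_bound (L : Submodule ℝ (Eu n)) (I : Finset ι)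
    (h : ∀ y ∈ L, y ≠ 0 → ∃ i ∈ I, 0 < ⟪y, u i⟫) :
    ∃ A : ℝ, 0 < A ∧ ∀ y ∈ L, ∀ M, 0 ≤ M → (∀ i ∈ I, ⟪y, u i⟫ ≤ M) → ‖y‖ ≤ A * M := by
  obtain ⟨γ, h0, h1⟩ := ((isCompact_sphere (0 : Eu n) 1).inter_right
    L.closed_of_finiteDimensional).exists_forall_le' (a := (0 : ℝ))
    (f := fun y => ∑ i ∈ I, max ⟪y, u i⟫ 0) (Continuous.continuousOn (by fun_prop)) (by
      rintro y ⟨h1, h2⟩
      obtain ⟨i, hi, k⟩ := h y h2 (ne_zero_of_mem_unit_sphere ⟨y, h1⟩)
      exact Finset.sum_pos' (fun j _ => le_max_right _ _) ⟨i, hi, lt_max_of_lt_left k⟩)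
  refine ⟨(I.card + 1) / γ, by positivity, fun y hy M hM hb => ?_⟩
  rcases eq_or_ne y 0 with rfl | k
  · rw [norm_zero]
    positivity
  have hn := norm_pos_iff.2 k
  have h2 := h1 (‖y‖⁻¹ • y) ⟨by simp [norm_smul, hn.ne'], L.smul_mem _ hy⟩
  have h3 : ∑ i ∈ I, max ⟪‖y‖⁻¹ • y, u i⟫ 0 ≤ ∑ _i ∈ I, ‖y‖⁻¹ * M :=
    Finset.sum_le_sum fun i hi => max_le (by
      rw [real_inner_smul_left]
      exact mul_le_mul_of_nonneg_left (hb i hi) (by positivity)) (by positivity)
  rw [Finset.sum_const, nsmul_eq_mul] at h3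
  have h4 := mul_le_mul_of_nonneg_left (h2.trans h3) hn.le
  rw [div_mul_eq_mul_div, le_div_iff₀ h0]
  have h5 : ‖y‖ * (I.card * (‖y‖⁻¹ * M)) = I.card * M := by field_simp
  linarith only [hM, h4, h5]

variable [Fintype ι]

/-- Uniform constants. -/
theorem lin_consts (u : ι → Eu n) : ∃ (A γ : ℝ) (w : Finset ι → Eu n), 1 ≤ A ∧ 0 < γ ∧ γ ≤ 1 ∧
    (∀ (I : Finset ι) (x : Eu n) (M : ℝ), 0 ≤ M → (∀ i ∈ I, u i ∈ lin u I → ⟪x, u i⟫ ≤ M) →
      ‖(lin u I).starProjection x‖ ≤ A * M) ∧
    ∀ I, ‖w I‖ ≤ 1 ∧ w I ∈ (lin u I)ᗮ ∧ ∀ i ∈ I, u i ∉ lin u I → ⟪w I, u i⟫ ≤ -γ := by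
  classical
  choose w hw using gordan u
  choose A hA using fun I : Finset ι => pos_bound (u := u) (lin u I)
    (I.filter fun i => u i ∈ lin u I) fun y hy h0 => by
      obtain ⟨i, h1, h2, h3⟩ := lin_pos I hy h0
      exact ⟨i, Finset.mem_filter.2 ⟨h1, h2⟩, h3⟩
  obtain ⟨q, hq⟩ := Finite.exists_min fun q : Option (Finset ι × ι) => q.elim (1 : ℝ) fun q =>
    if q.2 ∈ q.1 ∧ u q.2 ∉ lin u q.1 then -⟪w q.1, u q.2⟫ else 1
  refine ⟨∑ I, A I + 1, _, w, ?_, ?_, hq none, fun I x M hM h => ?_,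
    fun I => ⟨(hw I).1, (hw I).2.1, fun i h1 h2 => ?_⟩⟩
  · linarith [Finset.sum_nonneg fun I (_ : I ∈ Finset.univ) => (hA I).1.le]
  · rcases q with _ | q
    · exact one_pos
    · simp only [Option.elim]
      split_ifs with h
      · exact neg_pos.2 ((hw _).2.2 _ h.1 h.2)
      · exact one_pos
  · refine ((hA I).2 _ ((lin u I).starProjection_apply_mem x) M hM fun i hi => ?_).trans
      (mul_le_mul_of_nonneg_right ?_ hM)
    · obtain ⟨h1, h2⟩ := Finset.mem_filter.1 hi
      rw [Submodule.inner_starProjection_left_eq_right, Submodule.starProjection_eq_self_iff.2 h2]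
      exact h i h1 h2
    · linarith [Finset.single_le_sum (fun I _ => (hA I).1.le) (Finset.mem_univ I)]
  · have := hq (some (I, i))
    simp only [Option.elim, h1, h2, not_false_eq_true, and_self, if_true] at this
    exact le_neg.1 this

theorem GPP_body0 (hu : GFr u) (t : ι → ℝ) : Body0 (PP u t) := by
  have hcl : IsClosed (PP u t) := by
    rw [PP, ofPred_forall]
    exact isClosed_iInter fun i => isClosed_le (by fun_prop) continuous_const
  obtain ⟨A, -, hA⟩ := pos_bound (u := u) ⊤ Finset.univ fun y _ h => by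
    obtain ⟨i, hi⟩ := hu.pos y h
    exact ⟨i, Finset.mem_univ _, hi⟩
  have hbd : PP u t ⊆ closedBall 0 (A * ∑ i, Real.exp (t i)) := fun x hx =>
    mem_closedBall_zero_iff.2 (hA x trivial _ (Finset.sum_nonneg fun i _ => (Real.exp_pos _).le)
      fun i _ => (hx i).trans (Finset.single_le_sum (f := fun i => Real.exp (t i))
        (fun i _ => (Real.exp_pos _).le) (Finset.mem_univ i)))
  have h0 : (0 : Eu n) ∈ interior (PP u t) := by
    have ho : IsOpen {x : Eu n | ∀ i, ⟪x, u i⟫ < Real.exp (t i)} := by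
      rw [ofPred_forall]
      exact isOpen_iInter_of_finite fun i => isOpen_lt (by fun_prop) continuous_const
    refine interior_maximal (fun x hx i => (hx i).le) ho fun i => ?_
    rw [inner_zero_left]
    exact Real.exp_pos _
  refine ⟨⟨(isCompact_closedBall _ _).of_isClosed_subset hcl hbd, ?_, ⟨0, h0⟩⟩, h0⟩
  intro x hx y hy a c ha hc hac i
  rw [inner_add_left, real_inner_smul_left, real_inner_smul_left]
  calc a * ⟪x, u i⟫ + c * ⟪y, u i⟫ ≤ a * Real.exp (t i) + c * Real.exp (t i) :=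
        add_le_add (mul_le_mul_of_nonneg_left (hx i) ha) (mul_le_mul_of_nonneg_left (hy i) hc)
    _ = Real.exp (t i) := by rw [← add_mul, hac, one_mul]

omit [Fintype ι] in
/-- An orthonormal basis adapted to a finite chain of subspaces. -/
theorem chain_basis (C : Finset (Submodule ℝ (Eu n))) (hC : ∀ L ∈ C, ∀ L' ∈ C, L ≤ L' ∨ L' ≤ L) :
    ∃ b : OrthonormalBasis (Fin n) ℝ (Eu n), ∀ L ∈ C, ∀ k : Fin n, Module.finrank ℝ L ≤ k →
      b k ∈ Lᗮ := by
  classical
  induction C using Finset.induction_on_min_value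
    (fun L : Submodule ℝ (Eu n) => Module.finrank ℝ L) with
  | empty => exact ⟨EuclideanSpace.basisFun _ _, by simp⟩
  | insert L0 C _ hmin ih =>
    obtain ⟨b, hb⟩ := ih fun L h L' h' =>
      hC L (Finset.mem_insert_of_mem h) L' (Finset.mem_insert_of_mem h')
    have hle : ∀ L ∈ C, L0 ≤ L := fun L h => by
      rcases hC L0 (Finset.mem_insert_self _ _) L (Finset.mem_insert_of_mem h) with e | e
      · exact e
      · exact (Submodule.eq_of_le_of_finrank_le e (hmin L h)).ge
    have hd : Module.finrank ℝ L0 ≤ n := by simpa using L0.finrank_le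
    have hcard : Module.finrank ℝ L0ᗮ =
        Fintype.card {k : Fin n // Module.finrank ℝ L0 ≤ k} := by
      have h1 := L0.finrank_add_finrank_orthogonal
      rw [finrank_euclideanSpace_fin] at h1
      have h2 := Fintype.card_subtype_compl fun k : Fin n => (k : ℕ) < Module.finrank ℝ L0
      simp only [not_lt, Fintype.card_fin] at h2
      rw [h2, Fintype.card_fin_lt_of_le hd]
      omega
    obtain ⟨b1, h1⟩ := Orthonormal.exists_orthonormalBasis_extension_of_card_eq (𝕜 := ℝ) hcard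
      (v := fun k => if h : b k.1 ∈ L0ᗮ then ⟨b k.1, h⟩ else 0) (s := {k | b k.1 ∈ L0ᗮ}) (by
        rw [← L0ᗮ.subtypeₗᵢ.orthonormal_comp_iff]
        have e := b.orthonormal.comp (fun k : {k : {k : Fin n // Module.finrank ℝ L0 ≤ k} |
          b k.1 ∈ L0ᗮ} => k.1.1) (Subtype.val_injective.comp Subtype.val_injective)
        refine (congrArg (Orthonormal ℝ) (funext fun k => ?_)).mp e
        simp only [Function.comp, Set.domRestrict, dif_pos (show b k.1.1 ∈ L0ᗮ from k.2)]
        rfl)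
    obtain ⟨b2, h2⟩ := Orthonormal.exists_orthonormalBasis_extension_of_card_eq (𝕜 := ℝ)
      (E := Eu n) (ι := Fin n) (by simp)
      (v := fun k => if h : Module.finrank ℝ L0 ≤ k then (b1 ⟨k, h⟩ : Eu n) else 0)
      (s := {k | Module.finrank ℝ L0 ≤ k}) (by
        have e := L0ᗮ.subtypeₗᵢ.orthonormal_comp_iff.2 b1.orthonormal
        refine (congrArg (Orthonormal ℝ) (funext fun k => ?_)).mp e
        simp only [Function.comp, Set.domRestrict,
          dif_pos (show Module.finrank ℝ L0 ≤ k.1 from k.2)]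
        rfl)
    refine ⟨b2, fun L hL k hk => ?_⟩
    rcases Finset.mem_insert.1 hL with rfl | hL
    · rw [h2 k hk, dif_pos hk]
      exact (b1 _).2
    · have k1 := (hmin L hL).trans hk
      have k2 := Submodule.orthogonal_le (hle L hL) (hb L hL k hk)
      rw [h2 k k1, dif_pos k1, h1 ⟨k, k1⟩ k2, dif_pos k2]
      exact hb L hL k hk

end Pool.Agent.Work.MP_f7e2e5_gt
end
end

-- merged part: Pool.Agent.Work.MP_f7e2e5_gt.GCont
section
/-! The results of the file on facet masses, for positively spanning families of normals. -/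

open MeasureTheory Set Metric Filter Topology
open scoped RealInnerProductSpace Pointwise ContDiff NNReal

noncomputable section

namespace Pool.Agent.Work.MP_f7e2e5_gt

variable {n : ℕ} {p : ℝ}

variable {ι : Type} [Fintype ι] {u : ι → Eu n}

theorem GCont_ext_apply (hu : GFr u) (a : ι → ℝ) (j : ι) : Cont_ext u a (u j) = a j := by
  unfold Cont_ext
  rw [Finset.sum_eq_single j]
  · simp
  · intro i _ hi
    exact if_neg fun e => hi (hu.inj e).symm
  · simp

theorem GCont_wulff (hu : GFr u) (t : ι → ℝ) :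
    wulff (range u) (Cont_ext u fun i => Real.exp (t i)) = PP u t := by
  ext x
  simp only [wulff, PP, mem_ofPred_eq, forall_mem_range, GCont_ext_apply hu]

theorem GCont_bdd (hu : GFr u) (t : ι → ℝ) : Bornology.IsBounded (PP u t) :=
  (GPP_body0 hu t).1.1.isBounded

theorem GCont_cap_le (hp : 1 < p) (hu : GFr u) (t t' : ι → ℝ) {a : ℝ}
    (h : ∀ i, t' i ≤ t i + a) :
    cap p (PP u t') ≤ Real.exp (((n : ℝ) - p) * a) * cap p (PP u t) := by
  have h1 := cap_mono (p := p) (PP_subset (u := u) t t' h) ((GCont_bdd hu t).smul₀ _)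
  rwa [cap_smul (by linarith) _ (Real.exp_pos a), ← Real.exp_mul, mul_comm a] at h1

theorem Gcontinuous_cap_PP (hp : 1 < p) (hpn : p < n) (hu : GFr u) :
    Continuous (fun t => cap p (PP u t)) := by
  refine continuous_iff_continuousAt.2 fun t => ?_
  have hd : ∀ (s s' : ι → ℝ) i, s' i ≤ s i + dist s' s := fun s s' i => by
    have := dist_le_pi_dist s' s i
    rw [Real.dist_eq] at this
    linarith [le_abs_self (s' i - s i)]
  have c1 : ∀ c : ℝ, Tendsto (fun t' : ι → ℝ => Real.exp (c * dist t' t) * cap p (PP u t))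
      (𝓝 t) (𝓝 (cap p (PP u t))) := fun c => by
    have : Continuous fun t' : ι → ℝ => Real.exp (c * dist t' t) * cap p (PP u t) := by fun_prop
    simpa using this.tendsto t
  refine tendsto_of_tendsto_of_tendsto_of_le_of_le (c1 (-((n : ℝ) - p))) (c1 ((n : ℝ) - p))
    (fun t' => ?_) fun t' => GCont_cap_le hp hu t t' (hd t t')
  have h1 := GCont_cap_le hp hu t' t (hd t' t)
  rw [dist_comm] at h1
  have h2 := mul_le_mul_of_nonneg_left h1 (Real.exp_pos (-((n : ℝ) - p) * dist t' t)).le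
  rwa [← mul_assoc, ← Real.exp_add, neg_mul, neg_add_cancel, Real.exp_zero, one_mul,
    ← neg_mul] at h2

theorem GCont_supp (hu : GFr u) (t : ι → ℝ) {y : Eu n} (hy : y ∈ PP u t) {k : ι}
    (h : ⟪y, u k⟫ = Real.exp (t k)) : supp (PP u t) (u k) = Real.exp (t k) :=
  le_antisymm (supp_le ⟨y, hy⟩ fun _ hz => hz k) (h ▸ le_supp (GPP_body0 hu t).1.1 hy _)

theorem Gae_nrm_PP (hp : 1 < p) (hpn : p < n) (hu : GFr u) (t : ι → ℝ) :
    ∀ᵐ y ∂(tau p (PP u t)), ∃ i, nrm (PP u t) y = u i ∧ ⟪y, u i⟫ = Real.exp (t i) ∧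
      ∀ k, k ≠ i → ⟪y, u k⟫ < Real.exp (t k) := by
  have hK := GPP_body0 hu t
  filter_upwards [tau_ae_reg hp hpn hK (isTau_tau hp hK)] with y hy
  have h1 := wulff_reg (Ω := range u) (f := Cont_ext u fun i => Real.exp (t i))
    (finite_range u).isCompact (forall_mem_range.2 hu.unit) ((finite_range u).continuousOn _)
    (y := y)
  rw [GCont_wulff hu] at h1
  obtain ⟨⟨i, hi⟩, h2⟩ := h1 hK hy
  obtain ⟨-, h3, h4⟩ := reg_normal hK hy
  have hyK : y ∈ PP u t := hK.1.1.isClosed.frontier_subset hy.1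
  rw [← hi, GCont_ext_apply hu] at h2
  rw [← hi] at h3 h4
  refine ⟨i, hi.symm, h3.trans h2, fun k hk => lt_of_le_of_ne (hyK k) fun e => hk ?_⟩
  exact hu.inj (h4 _ (hu.unit k) (e.trans (GCont_supp hu t hyK e).symm))

theorem Gmap_nrm_PP (hp : 1 < p) (hpn : p < n) (hu : GFr u) (t : ι → ℝ) :
    (tau p (PP u t)).map (nrm (PP u t)) =
      ∑ i, ENNReal.ofReal (mass p u t i) • Measure.dirac (u i) := by
  classical
  have := (isTau_tau hp (GPP_body0 hu t)).fin
  have h1 : ∀ᵐ y ∂(tau p (PP u t)), nrm (PP u t) y ∈ Finset.univ.image u := by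
    filter_upwards [Gae_nrm_PP hp hpn hu t] with y ⟨i, hi, _⟩
    exact Finset.mem_image.2 ⟨i, Finset.mem_univ _, hi.symm⟩
  rw [(Measure.ae_mem_finset_iff_map_eq_sum_dirac (measurable_nrm _).aemeasurable).1 h1,
    Finset.sum_image fun i _ j _ e => hu.inj e]
  refine Finset.sum_congr rfl fun i _ => ?_
  unfold mass
  rw [ofReal_measureReal]
  rfl

theorem GCont_integral (hp : 1 < p) (hpn : p < n) (hu : GFr u) (t : ι → ℝ) {F : Eu n → ℝ}
    (hF : Measurable F) :
    ∫ y, F (nrm (PP u t) y) ∂(tau p (PP u t)) = ∑ i, F (u i) * mass p u t i := by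
  rw [← integral_map (measurable_nrm _).aemeasurable hF.aestronglyMeasurable,
    Gmap_nrm_PP hp hpn hu, integral_finsetSum_measure]
  · refine Finset.sum_congr rfl fun i _ => ?_
    rw [integral_smul_measure, integral_dirac, ENNReal.toReal_ofReal (Cont_mass_nonneg t i),
      smul_eq_mul, mul_comm]
  · intro i _
    exact (integrable_dirac (by simp)).smul_measure ENNReal.ofReal_ne_top

theorem Gsum_mass (hp : 1 < p) (hpn : p < n) (hu : GFr u) (t : ι → ℝ) :
    ∑ i, mass p u t i = (n - p) * cap p (PP u t) := by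
  have hK := GPP_body0 hu t
  have h := GCont_integral hp hpn hu t (F := fun _ => 1) measurable_const
  rw [← (isTau_tau hp hK).mass hp hK]
  simpa using h.symm

theorem GhasDerivWithinAt_cap_PP (hp : 1 < p) (hpn : p < n) (hu : GFr u) (t v : ι → ℝ) :
    HasDerivWithinAt (fun s : ℝ => cap p (PP u (t + s • v))) (∑ i, v i * mass p u t i)
      (Ici 0) 0 := by
  have hK := GPP_body0 hu t
  set f := Cont_ext u fun i => Real.exp (t i) with hf
  set g := Cont_ext u fun i => v i * Real.exp (t i) with hg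
  have hw : wulff (range u) f = PP u t := GCont_wulff hu t
  have h1 := hadamard hp hpn (Ω := range u) (f := f) (g := g) (finite_range u).isCompact
    (forall_mem_range.2 hu.unit) ((finite_range u).continuousOn _)
    ((finite_range u).continuousOn _) (Cont_ext_meas _ _) (hw ▸ hK) (τ := tau p (PP u t))
    (by rw [hw]; exact isTau_tau hp hK)
  rw [hw] at h1
  have h2 : ∫ y, g (nrm (PP u t) y) / supp (PP u t) (nrm (PP u t) y) ∂(tau p (PP u t)) =
      ∑ i, v i * mass p u t i := by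
    have h3 := GCont_integral hp hpn hu t (Cont_ext_meas u v)
    simp only [GCont_ext_apply hu] at h3
    rw [← h3]
    refine integral_congr_ae ?_
    filter_upwards [Gae_nrm_PP hp hpn hu t, tau_ae_reg hp hpn hK (isTau_tau hp hK)]
      with y ⟨i, e1, e2, _⟩ hy
    rw [e1, GCont_supp hu t (hK.1.1.isClosed.frontier_subset hy.1) e2, hg, GCont_ext_apply hu,
      GCont_ext_apply hu, mul_div_assoc, div_self (Real.exp_pos _).ne', mul_one]
  rw [h2] at h1
  have hmem : ∀ (s : ℝ) x, x ∈ wulff (range u) (fun ξ => f ξ + s * g ξ) ↔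
      ∀ i, ⟪x, u i⟫ ≤ Real.exp (t i) * (1 + s * v i) := fun s x => by
    simp only [wulff, mem_ofPred_eq, forall_mem_range, hf, hg, GCont_ext_apply hu]
    refine forall_congr' fun i => ?_
    rw [show Real.exp (t i) + s * (v i * Real.exp (t i)) = Real.exp (t i) * (1 + s * v i) by ring]
  have hsub : ∀ s : ℝ, wulff (range u) (fun ξ => f ξ + s * g ξ) ⊆ PP u (t + s • v) := by
    intro s x hx i
    refine ((hmem s x).1 hx i).trans ?_
    rw [Pi.add_apply, Pi.smul_apply, smul_eq_mul, Real.exp_add]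
    exact mul_le_mul_of_nonneg_left (by linarith only [Real.add_one_le_exp (s * v i)])
      (Real.exp_pos _).le
  have hl : HasDerivAt (fun s : ℝ => (1 + 2 * (s * ‖v‖) ^ 2) ^ ((n : ℝ) - p)) 0 0 := by
    have a1 : HasDerivAt (fun s : ℝ => 1 + 2 * (s * ‖v‖) ^ 2) 0 0 := by
      simpa using ((((hasDerivAt_id (0 : ℝ)).mul_const ‖v‖).pow 2).const_mul 2).const_add 1
    simpa using a1.rpow_const (p := (n : ℝ) - p) (Or.inl (by simp))
  have h4 := hl.hasDerivWithinAt.mul h1
  have e0 : wulff (range u) (fun ξ => f ξ + (0 : ℝ) * g ξ) = PP u (t + (0 : ℝ) • v) := by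
    simp only [zero_mul, add_zero, zero_smul]
    exact hw
  refine Cont_squeeze h1 (U := fun s : ℝ => (1 + 2 * (s * ‖v‖) ^ 2) ^ ((n : ℝ) - p) *
    cap p (wulff (range u) (fun ξ => f ξ + s * g ξ))) (h4.congr_deriv (by simp)) (by rw [e0])
    (by rw [e0]; simp) ?_
  have hev : ∀ᶠ s : ℝ in 𝓝 0, s * ‖v‖ < 1 / 2 := by
    have : Continuous fun s : ℝ => s * ‖v‖ := by fun_prop
    exact this.continuousAt.eventually_lt continuousAt_const (by simp)
  filter_upwards [nhdsWithin_le_nhds hev, self_mem_nhdsWithin] with s hs hs0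
  refine ⟨cap_mono (hsub s) (GCont_bdd hu _), ?_⟩
  have hpos : 0 < 1 + 2 * (s * ‖v‖) ^ 2 := by positivity
  rw [← cap_smul (by linarith only [hp]) _ hpos]
  refine cap_mono (fun x hx => ?_) (((GCont_bdd hu _).subset (hsub s)).smul₀ _)
  rw [mem_smul_set_iff_inv_smul_mem₀ hpos.ne', hmem]
  intro i
  have b1 := hx i
  rw [Pi.add_apply, Pi.smul_apply, smul_eq_mul, Real.exp_add] at b1
  have b2 : |s * v i| ≤ s * ‖v‖ := by
    rw [abs_mul, abs_of_nonneg hs0]
    exact mul_le_mul_of_nonneg_left (norm_le_pi_norm v i) hs0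
  have b3 := mul_le_mul_of_nonneg_left (Cont_exp_le b2 hs.le) (Real.exp_pos (t i)).le
  rw [real_inner_smul_left, inv_mul_le_iff₀ hpos]
  linarith only [b1, b3]

theorem GCont_lsc (hp : 1 < p) (hpn : p < n) (hu : GFr u) (i : ι) :
    LowerSemicontinuous (fun t => mass p u t i) := by
  intro t c hc
  have hK := GPP_body0 hu t
  have hτ := isTau_tau hp hK
  have := hτ.fin
  obtain ⟨ε, hε, hcε⟩ : ∃ ε : ℝ, 0 < ε ∧ c + 3 * ε = mass p u t i :=
    ⟨(mass p u t i - c) / 3, by linarith only [hc], by ring⟩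
  have hO : IsOpen {y : Eu n | ∀ k, k ≠ i → ⟪y, u k⟫ < Real.exp (t k)} := by
    simp only [ofPred_forall]
    exact isOpen_iInter_of_finite fun k => isOpen_iInter_of_finite fun _ =>
      isOpen_lt (by fun_prop) continuous_const
  obtain ⟨U, hUO, hU, hUm⟩ := hO.measurableSet.exists_isCompact_lt_add
    (measure_ne_top (tau p (PP u t)) _) (ENNReal.ofReal_pos.2 hε).ne'
  have m1 : mass p u t i ≤ (tau p (PP u t)).real U + ε := by
    have a1 : tau p (PP u t) {y | nrm (PP u t) y = u i} ≤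
        tau p (PP u t) {y : Eu n | ∀ k, k ≠ i → ⟪y, u k⟫ < Real.exp (t k)} := by
      refine measure_mono_ae ?_
      filter_upwards [Gae_nrm_PP hp hpn hu t] with y ⟨j, e1, _, e3⟩ hy
      obtain rfl : j = i := hu.inj (e1.symm.trans hy)
      exact e3
    have a2 := ENNReal.toReal_mono (by finiteness) (a1.trans hUm.le)
    rwa [ENNReal.toReal_add (by finiteness) (by finiteness), ENNReal.toReal_ofReal hε.le] at a2
  obtain ⟨ψ, L, ψ1, ψ2, hL, hLO, ψ3, ψ4, ψ5⟩ := Cont_bump hU hO hUO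
  obtain ⟨M, hM⟩ := exists_fld_radial ψ1 ψ2
  obtain ⟨δ, d0, d1, hδ⟩ := Lam_continuity hp hK hM hε
  have m2 : (tau p (PP u t)).real U ≤ ∫ y, ψ y ∂(tau p (PP u t)) := by
    rw [← integral_indicator_one hU.measurableSet]
    refine integral_mono ((integrable_const (1 : ℝ)).indicator hU.measurableSet)
      (ψ1.continuous.integrable_of_hasCompactSupport ψ2) fun y => ?_
    by_cases hy : y ∈ U
    · simp [hy, ψ4 y hy]
    · simp [hy, (ψ3 y).1]
  have ev1 : ∀ᶠ t' : ι → ℝ in 𝓝 t, ∀ y ∈ L, ∀ k, k ≠ i → ⟪y, u k⟫ < Real.exp (t' k) := by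
    refine hL.eventually_forall_of_forall_eventually fun y hy => ?_
    refine eventually_all.2 fun k => ?_
    by_cases hk : k = i
    · exact Eventually.of_forall fun _ h => absurd hk h
    · have : ∀ᶠ z : (ι → ℝ) × Eu n in 𝓝 (t, y), ⟪z.2, u k⟫ < Real.exp (z.1 k) :=
        ContinuousAt.eventually_lt (by fun_prop) (by fun_prop) (hLO hy k hk)
      exact this.mono fun _ h _ => h
  have ev2 : ∀ᶠ t' : ι → ℝ in 𝓝 t, ∀ k, t' k ≤ t k + Real.log (1 + δ) :=
    eventually_all.2 fun k => (ContinuousAt.eventually_lt (continuous_apply k).continuousAt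
      continuousAt_const (by linarith only [d0, Real.log_pos (by linarith : 1 < 1 + δ)])).mono
        fun _ h => h.le
  have ev3 : ∀ᶠ t' : ι → ℝ in 𝓝 t, ∀ k, t k ≤ t' k + -Real.log (1 - δ) :=
    eventually_all.2 fun k => (ContinuousAt.eventually_lt (f := fun _ => t k)
      (g := fun t' : ι → ℝ => t' k + -Real.log (1 - δ)) continuousAt_const
      ((continuous_apply k).continuousAt.add continuousAt_const)
      (by linarith only [d1, d0, Real.log_neg (by linarith : 0 < 1 - δ) (by linarith)])).mono fun _ h => h.le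
  filter_upwards [ev1, ev2, ev3] with t' e1 e2 e3
  have hK' := GPP_body0 hu t'
  have hτ' := isTau_tau hp hK'
  have := hτ'.fin
  have s1 : PP u t' ⊆ (1 + δ) • PP u t := by
    have := PP_subset (u := u) t t' e2
    rwa [Real.exp_log (by linarith only [d0, d1])] at this
  have s2 : (1 - δ) • PP u t ⊆ PP u t' := by
    have := smul_set_mono (a := 1 - δ) (PP_subset (u := u) t' t e3)
    rwa [Real.exp_neg, Real.exp_log (by linarith), smul_smul,
      mul_inv_cancel₀ (by linarith only [d1] : 1 - δ ≠ 0), one_smul] at this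
  have m3 := hδ _ s2 s1
  rw [hτ.rep ψ ψ1 ψ2, hτ'.rep ψ ψ1 ψ2] at m3
  have hA : MeasurableSet {y | nrm (PP u t') y = u i} :=
    measurable_nrm _ (measurableSet_singleton (u i))
  have m4 : ∫ y, ψ y ∂(tau p (PP u t')) ≤ mass p u t' i := by
    unfold mass
    rw [← integral_indicator_one hA]
    refine integral_mono_ae (ψ1.continuous.integrable_of_hasCompactSupport ψ2)
      ((integrable_const (1 : ℝ)).indicator hA) ?_
    filter_upwards [Gae_nrm_PP hp hpn hu t'] with y ⟨j, a1, a2, _⟩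
    by_cases hy : y ∈ L
    · obtain rfl : j = i := by
        by_contra hj
        exact (e1 y hy j hj).ne a2
      rw [indicator_of_mem (show y ∈ {y | nrm (PP u t') y = u j} from a1)]
      exact (ψ3 y).2
    · rw [ψ5 y hy]
      exact indicator_nonneg (fun _ _ => zero_le_one) y
  have := (abs_le.1 m3).1
  show c < mass p u t' i
  linarith only [hε, hcε, m1, m2, m4, this]

theorem Gcontinuous_mass (hp : 1 < p) (hpn : p < n) (hu : GFr u) (i : ι) :
    Continuous (fun t => mass p u t i) := by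
  classical
  refine continuous_iff_lower_upperSemicontinuous.2 ⟨GCont_lsc hp hpn hu i, ?_⟩
  have h1 : UpperSemicontinuous fun t => ((n : ℝ) - p) * cap p (PP u t) :=
    (continuous_const.mul (Gcontinuous_cap_PP hp hpn hu)).upperSemicontinuous
  have h2 := continuous_neg.comp_lowerSemicontinuous_antitone
    (lowerSemicontinuous_sum (a := Finset.univ.erase i) fun k _ => GCont_lsc hp hpn hu k)
    fun _ _ h => neg_le_neg h
  convert h1.add h2 using 2 with t
  rw [← Gsum_mass hp hpn hu t, ← Finset.add_sum_erase _ _ (Finset.mem_univ i)]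
  simp

end Pool.Agent.Work.MP_f7e2e5_gt
end
end

-- merged part: Pool.Agent.Work.MP_f7e2e5_gt.GGap
section
/-! Gaps of a vector of real numbers. -/

open MeasureTheory Set Filter Topology

noncomputable section

namespace Pool.Agent.Work.MP_f7e2e5_gt

variable {ι : Type} [Fintype ι] [DecidableEq ι]

/-- The length of the gap between the values on `I` and the values off `I`. -/
def gap (I : Finset ι) (t : ι → ℝ) : ℝ :=
  if h : I.Nonempty ∧ Iᶜ.Nonempty then max (Iᶜ.inf' h.2 t - I.sup' h.1 t) 0 else 0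

/-- The vector with prescribed gaps. -/
def ungap (x : Finset ι → ℝ) (i : ι) : ℝ := -∑ I, if i ∈ I then x I else 0

theorem gap_nonneg (I : Finset ι) (t : ι → ℝ) : 0 ≤ gap I t := by
  unfold gap
  split_ifs
  · exact le_max_right _ _
  · exact le_rfl

theorem continuous_gap (I : Finset ι) : Continuous (gap I) := by
  unfold gap
  split_ifs with h
  · refine Continuous.max (Continuous.sub ?_ ?_) continuous_const
    · exact Continuous.finset_inf'_apply h.2 fun i _ => continuous_apply i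
    · exact Continuous.finset_sup'_apply h.1 fun i _ => continuous_apply i
  · exact continuous_const

theorem gap_proper {I : Finset ι} {t : ι → ℝ} (h : gap I t ≠ 0) : I.Nonempty ∧ Iᶜ.Nonempty := by
  by_contra k
  exact h (dif_neg k)

theorem gap_le_max {I : Finset ι} (t : ι → ℝ) {i j : ι} (hi : i ∈ I) (hj : j ∉ I) :
    gap I t ≤ max (t j - t i) 0 := by
  have hj' := Finset.mem_compl.2 hj
  rw [gap, dif_pos ⟨⟨i, hi⟩, ⟨j, hj'⟩⟩]
  exact max_le_max (sub_le_sub (Finset.inf'_le _ hj') (Finset.le_sup' _ hi)) le_rfl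

theorem gap_le {I : Finset ι} {t : ι → ℝ} (h : gap I t ≠ 0) {i j : ι} (hi : i ∈ I) (hj : j ∉ I) :
    t i + gap I t ≤ t j := by
  have h1 := gap_le_max t hi hj
  have h2 := lt_of_le_of_ne (gap_nonneg I t) h.symm
  rcases le_max_iff.1 h1 with k | k <;> linarith only [k, h2]

theorem gap_lt {I : Finset ι} {t : ι → ℝ} (h : gap I t ≠ 0) {i j : ι} (hi : i ∈ I) (hj : j ∉ I) :
    t i < t j := by
  have := gap_le h hi hj
  have h2 := lt_of_le_of_ne (gap_nonneg I t) h.symm
  linarith

theorem le_gap {I : Finset ι} (h : I.Nonempty ∧ Iᶜ.Nonempty) {t : ι → ℝ} {g : ℝ}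
    (hg : ∀ i ∈ I, ∀ j ∉ I, t i + g ≤ t j) : g ≤ gap I t := by
  rw [gap, dif_pos h]
  obtain ⟨i, hi, e1⟩ := I.exists_mem_eq_sup' h.1 t
  obtain ⟨j, hj, e2⟩ := Iᶜ.exists_mem_eq_inf' h.2 t
  rw [e1, e2]
  exact le_max_of_le_left (by linarith [hg i hi j (Finset.mem_compl.1 hj)])

theorem gap_chain {I J : Finset ι} {t : ι → ℝ} (hI : gap I t ≠ 0) (hJ : gap J t ≠ 0) :
    I ⊆ J ∨ J ⊆ I := by
  by_contra h
  push Not at h
  obtain ⟨i, hi, hi'⟩ := Finset.not_subset.1 h.1
  obtain ⟨j, hj, hj'⟩ := Finset.not_subset.1 h.2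
  exact (gap_lt hI hi hj').asymm (gap_lt hJ hj hi')

theorem gap_sum {t : ι → ℝ} {j : ι} (hj : ∀ k, t k ≤ t j) (i : ι) :
    t i = t j - ∑ I, if i ∈ I then gap I t else 0 := by
  have h1 : ∀ I : Finset ι, (if i ∈ I then gap I t else 0) =
      ∫ r, (if i ∈ I ∧ j ∉ I ∧ I = Finset.univ.filter (fun k => t k < r) then (1 : ℝ) else 0) ∧
      Integrable (fun r => if i ∈ I ∧ j ∉ I ∧ I = Finset.univ.filter (fun k => t k < r) then (1 : ℝ)
        else 0) := by
    intro I
    by_cases hi : i ∈ I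
    swap
    · simp [hi]
    by_cases hjI : j ∈ I
    · have : gap I t = 0 := by
        by_contra h
        obtain ⟨k, hk⟩ := (gap_proper h).2
        exact (gap_lt h hjI (Finset.mem_compl.1 hk)).not_ge (hj k)
      simp [hjI, this]
    have hp : I.Nonempty ∧ Iᶜ.Nonempty := ⟨⟨i, hi⟩, ⟨j, Finset.mem_compl.2 hjI⟩⟩
    have e : (fun r => if i ∈ I ∧ j ∉ I ∧ I = Finset.univ.filter (fun k => t k < r) then (1 : ℝ)
        else 0) = (Ioc (I.sup' hp.1 t) (Iᶜ.inf' hp.2 t)).indicator fun _ => 1 := by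
      ext r
      rw [indicator_apply]
      refine if_congr ?_ rfl rfl
      simp only [hi, hjI, not_false_eq_true, true_and, mem_Ioc, Finset.sup'_lt_iff,
        Finset.le_inf'_iff, Finset.mem_compl, Finset.ext_iff, Finset.mem_filter, Finset.mem_univ]
      constructor
      · exact fun h => ⟨fun k hk => (h k).1 hk, fun k hk => not_lt.1 fun e => hk ((h k).2 e)⟩
      · exact fun h k => ⟨h.1 k, fun e => by_contra fun hk => (h.2 k hk).not_gt e⟩
    rw [e, integral_indicator measurableSet_Ioc, if_pos hi, gap, dif_pos hp]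
    refine ⟨by simp [Real.volume_real_Ioc], ?_⟩
    exact (integrable_indicator_iff measurableSet_Ioc).2 (by simp)
  rw [Finset.sum_congr rfl fun I _ => (h1 I).1, ← integral_finsetSum _ fun I _ => (h1 I).2]
  have e : (fun r => ∑ I : Finset ι, if i ∈ I ∧ j ∉ I ∧ I = Finset.univ.filter (fun k => t k < r)
      then (1 : ℝ) else 0) = (Ioc (t i) (t j)).indicator fun _ => 1 := by
    ext r
    rw [Finset.sum_eq_single (Finset.univ.filter fun k => t k < r), indicator_apply]
    · refine if_congr ?_ rfl rfl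
      simp
    · intro I _ hI
      exact if_neg fun h => hI h.2.2
    · simp
  rw [e, integral_indicator measurableSet_Ioc]
  simp [Real.volume_real_Ioc, hj i]

omit [Fintype ι] [DecidableEq ι] in
theorem chain_pick {x : Finset ι → ℝ} (hx : ∀ I J, x I ≠ 0 → x J ≠ 0 → I ⊆ J ∨ J ⊆ I)
    [Finite ι] {I : Finset ι} (hI : I.Nonempty) : ∃ i ∈ I, ∀ J, x J ≠ 0 → i ∈ J → I ⊆ J := by
  classical
  have := Fintype.ofFinite ι
  by_cases h : (Finset.univ.filter fun J => x J ≠ 0 ∧ ¬ I ⊆ J).Nonempty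
  · obtain ⟨J0, h0, hm⟩ := Finset.exists_max_image _ Finset.card h
    simp only [Finset.mem_filter, Finset.mem_univ, true_and] at h0 hm
    obtain ⟨i, hi, hi'⟩ := Finset.not_subset.1 h0.2
    refine ⟨i, hi, fun J hJ hiJ => by_contra fun k => hi' ?_⟩
    rcases hx J J0 hJ h0.1 with e | e
    · exact e hiJ
    · exact Finset.eq_of_subset_of_card_le e (hm J ⟨hJ, k⟩) ▸ hiJ
  · obtain ⟨i, hi⟩ := hI
    exact ⟨i, hi, fun J hJ _ => by_contra fun k => h ⟨J, by simp [hJ, k]⟩⟩

theorem chain_pick' {x : Finset ι → ℝ} (hx : ∀ I J, x I ≠ 0 → x J ≠ 0 → I ⊆ J ∨ J ⊆ I)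
    {I : Finset ι} (hI : Iᶜ.Nonempty) : ∃ j ∉ I, ∀ J, x J ≠ 0 → j ∉ J → J ⊆ I := by
  obtain ⟨j, hj, h⟩ := chain_pick (x := fun J => x Jᶜ) (fun I J a b => by
    simpa [or_comm] using hx _ _ a b) hI
  refine ⟨j, Finset.mem_compl.1 hj, fun J hJ hjJ => ?_⟩
  have := h Jᶜ (by simpa using hJ) (Finset.mem_compl.2 hjJ)
  simpa using this

theorem ungap_sub (x : Finset ι → ℝ) (i j : ι) : ungap x j - ungap x i =
    ∑ J, ((if i ∈ J then x J else 0) - if j ∈ J then x J else 0) := by
  rw [Finset.sum_sub_distrib, ungap, ungap]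
  ring

theorem ungap_le {x : Finset ι → ℝ} (h0 : ∀ I, 0 ≤ x I)
    (hx : ∀ I J, x I ≠ 0 → x J ≠ 0 → I ⊆ J ∨ J ⊆ I) {I : Finset ι} (hI : x I ≠ 0) {i j : ι}
    (hi : i ∈ I) (hj : j ∉ I) : ungap x i + x I ≤ ungap x j := by
  have h1 := Finset.single_le_sum (f := fun J => (if i ∈ J then x J else 0) -
    if j ∈ J then x J else 0) (s := Finset.univ) (fun J _ => ?_) (Finset.mem_univ I)
  · rw [← ungap_sub] at h1
    simp only [hi, hj, if_true, if_false, sub_zero] at h1
    linarith
  · by_cases hJ : x J = 0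
    · simp [hJ]
    rcases hx I J hI hJ with e | e
    · rw [if_pos (e hi)]
      split_ifs <;> simp [h0]
    · rw [if_neg fun k : j ∈ J => hj (e k)]
      split_ifs <;> simp [h0]

theorem gap_ungap {x : Finset ι → ℝ} (h0 : ∀ I, 0 ≤ x I)
    (hp : ∀ I, x I ≠ 0 → I.Nonempty ∧ Iᶜ.Nonempty)
    (hx : ∀ I J, x I ≠ 0 → x J ≠ 0 → I ⊆ J ∨ J ⊆ I) (I : Finset ι) : gap I (ungap x) = x I := by
  refine le_antisymm ?_ ?_
  · by_cases h : gap I (ungap x) = 0
    · rw [h]
      exact h0 I
    obtain ⟨i, hi, h1⟩ := chain_pick hx (gap_proper h).1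
    obtain ⟨j, hj, h2⟩ := chain_pick' hx (gap_proper h).2
    refine (gap_le_max _ hi hj).trans (max_le ?_ (h0 I))
    rw [ungap_sub, ← Finset.add_sum_erase _ _ (Finset.mem_univ I), if_pos hi, if_neg hj, sub_zero,
      add_le_iff_nonpos_right]
    refine Finset.sum_nonpos fun J hJ => ?_
    by_cases e : x J = 0
    · simp [e]
    by_cases a : i ∈ J
    · rw [if_pos a, if_pos, sub_self]
      by_contra b
      exact (Finset.mem_erase.1 hJ).1 ((h2 J e b).antisymm (h1 J e a))
    · rw [if_neg a]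
      split_ifs <;> simp [h0]
  · by_cases h : x I = 0
    · rw [h]
      exact gap_nonneg _ _
    exact le_gap (hp I h) fun i hi j hj => ungap_le h0 hx h hi hj

theorem continuous_ungap : Continuous (ungap : (Finset ι → ℝ) → ι → ℝ) := by
  refine continuous_pi fun i => (continuous_finsetSum _ fun I _ => ?_).neg
  split_ifs
  · exact continuous_apply I
  · exact continuous_const

theorem gap_perm {t : ι → ℝ} {σ : Equiv.Perm ι} (hσ : ∀ i, t (σ i) = t i) {I : Finset ι}
    (h : gap I t ≠ 0) {i : ι} (hi : i ∈ I) : σ i ∈ I :=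
  by_contra fun k => (gap_lt h hi k).ne' (hσ i)

end Pool.Agent.Work.MP_f7e2e5_gt
end
end

-- merged part: Pool.Agent.Work.MP_f7e2e5_gt.Greedy
section
open MeasureTheory Set Metric Filter Topology
open scoped RealInnerProductSpace Pointwise ContDiff NNReal

noncomputable section

namespace Pool.Agent.Work.MP_f7e2e5_gt

variable {n : ℕ} {p : ℝ}

variable {ι : Type} [Fintype ι] {u : ι → Eu n}

/-- the greedy choice of independent vectors -/
theorem greedy_aux (hu : Submodule.span ℝ (range u) = ⊤) (W : ι → ℝ) (m : ℕ) (hm : m ≤ n) :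
    ∃ b : Fin m → ι, LinearIndependent ℝ (fun j => u (b j)) ∧
      ∀ (j : Fin m) (i : ι), u i ∉ Submodule.span ℝ ((fun k => u (b k)) '' {k | k < j}) →
        W (b j) ≤ W i := by
  classical
  induction m with
  | zero => exact ⟨Fin.elim0, linearIndependent_empty_type, fun j => j.elim0⟩
  | succ m ih =>
    obtain ⟨b, h1, h2⟩ := ih (by omega)
    have hne : (Finset.univ.filter fun i =>
        u i ∉ Submodule.span ℝ (range fun j => u (b j))).Nonempty := by
      by_contra hn
      have h3 : Submodule.span ℝ (range fun j => u (b j)) = ⊤ := by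
        rw [eq_top_iff, ← hu, Submodule.span_le]
        rintro _ ⟨i, rfl⟩
        by_contra hi
        exact hn ⟨i, Finset.mem_filter.2 ⟨Finset.mem_univ _, hi⟩⟩
      have h4 := finrank_span_eq_card h1
      rw [h3, finrank_top, finrank_euclideanSpace_fin, Fintype.card_fin] at h4
      omega
    obtain ⟨i₀, h3, h4⟩ := Finset.exists_min_image _ W hne
    have e : (fun j => u (Fin.snoc (α := fun _ => ι) b i₀ j)) =
        Fin.snoc (α := fun _ => Eu n) (fun j => u (b j)) (u i₀) := by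
      funext j
      induction j using Fin.lastCases <;> simp
    refine ⟨Fin.snoc (α := fun _ => ι) b i₀, ?_, fun j i hi => ?_⟩
    · rw [e]
      exact linearIndependent_finSnoc.2 ⟨h1, (Finset.mem_filter.1 h3).2⟩
    · induction j using Fin.lastCases with
      | last =>
        rw [Fin.snoc_last]
        refine h4 i (Finset.mem_filter.2 ⟨Finset.mem_univ _, fun h => hi ?_⟩)
        refine Submodule.span_mono ?_ h
        rintro _ ⟨k, rfl⟩
        exact ⟨k.castSucc, Fin.castSucc_lt_last k, by simp⟩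
      | cast j =>
        rw [Fin.snoc_castSucc]
        refine h2 j i fun h => hi (Submodule.span_mono ?_ h)
        rintro _ ⟨k, hk, rfl⟩
        exact ⟨k.castSucc, Fin.castSucc_lt_castSucc_iff.2 hk, by simp⟩

/-- the dual basis map -/
theorem greedy_dual {v : Fin n → Eu n} (hv : LinearIndependent ℝ v) :
    ∃ T : Eu n ≃L[ℝ] Eu n, ∀ x k, ⟪T x, v k⟫ = x k := by
  have hs : Submodule.span ℝ (range v) = ⊤ := by
    apply Submodule.eq_top_of_finrank_eq
    rw [finrank_span_eq_card hv, finrank_euclideanSpace_fin, Fintype.card_fin]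
  let A : Eu n →ₗ[ℝ] Eu n :=
    { toFun := fun y => WithLp.toLp 2 fun k => ⟪y, v k⟫
      map_add' := fun x y => by ext k; simp [inner_add_left]
      map_smul' := fun c x => by ext k; simp [inner_smul_left] }
  have hA : ∀ y k, A y k = ⟪y, v k⟫ := fun _ _ => rfl
  have hinj : Function.Injective A := by
    rw [injective_iff_map_eq_zero]
    intro y hy
    have : ∀ w ∈ Submodule.span ℝ (range v), ⟪y, w⟫ = 0 := by
      intro w hw
      induction hw using Submodule.span_induction with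
      | mem w hw =>
        obtain ⟨k, rfl⟩ := hw
        rw [← hA, hy]
        rfl
      | zero => simp
      | add a b _ _ ha hb => rw [inner_add_right, ha, hb, add_zero]
      | smul c a _ ha => rw [inner_smul_right, ha, mul_zero]
    exact inner_self_eq_zero.1 (this y (hs ▸ Submodule.mem_top))
  refine ⟨(LinearEquiv.ofInjectiveEndo A hinj).symm.toContinuousLinearEquiv, fun x k => ?_⟩
  rw [← hA]
  exact congrArg (fun y : Eu n => y k) ((LinearEquiv.ofInjectiveEndo A hinj).apply_symm_apply x)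

theorem greedy_zero {v : Fin n → Eu n} {T : Eu n ≃L[ℝ] Eu n} (hT : ∀ x k, ⟪T x, v k⟫ = x k)
    {s : Set (Fin n)} {k : Fin n} (hk : k ∉ s) {ξ : Eu n} (h : ξ ∈ Submodule.span ℝ (v '' s)) :
    ⟪T (EuclideanSpace.single k 1), ξ⟫ = 0 := by
  induction h using Submodule.span_induction with
  | mem w hw =>
    obtain ⟨l, hl, rfl⟩ := hw
    rw [hT]
    have : l ≠ k := fun e => hk (e ▸ hl)
    simp [this]
  | zero => simp
  | add a b _ _ ha hb => rw [inner_add_right, ha, hb, add_zero]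
  | smul c a _ ha => rw [inner_smul_right, ha, mul_zero]

theorem greedy_bound {T : Eu n ≃L[ℝ] Eu n} {A M : ℝ} (hA : ‖(T : Eu n →L[ℝ] Eu n)‖ ≤ A)
    (hM : 0 ≤ M) {ξ : Eu n} (hξ : ‖ξ‖ = 1) {x : Eu n}
    (h : ∀ k, ⟪T (EuclideanSpace.single k 1), ξ⟫ ≠ 0 → |x k| ≤ M) : ⟪T x, ξ⟫ ≤ n * A * M := by
  have hx : x = ∑ k, x k • EuclideanSpace.single k (1 : ℝ) := by
    ext l
    simp [Pi.single_apply]
  have h0 : 0 ≤ A := (norm_nonneg _).trans hA
  calc ⟪T x, ξ⟫ = ∑ k, x k * ⟪T (EuclideanSpace.single k 1), ξ⟫ := by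
        conv_lhs => rw [hx, map_sum, sum_inner]
        simp only [map_smul, real_inner_smul_left]
    _ ≤ ∑ _k : Fin n, A * M := Finset.sum_le_sum fun k _ => by
        by_cases e : ⟪T (EuclideanSpace.single k 1), ξ⟫ = 0
        · rw [e, mul_zero]
          positivity
        · have h1 : |⟪T (EuclideanSpace.single k 1), ξ⟫| ≤ A := by
            refine (abs_real_inner_le_norm _ _).trans ?_
            have := (T : Eu n →L[ℝ] Eu n).le_opNorm (EuclideanSpace.single k 1)
            rw [hξ, mul_one]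
            simpa using this.trans (by simpa using hA)
          refine (le_abs_self _).trans ?_
          rw [abs_mul, mul_comm A]
          exact mul_le_mul (h k e) h1 (abs_nonneg _) hM
    _ = n * A * M := by simp [mul_assoc]

/-- Greedy basis for the widths of a polytope: finitely many linear maps `T`, and for every `t` a
basis `u (b j)` with monotone widths `w j` such that a translate of `T (box (c w))` lies in the
polytope and every width on the flat spanned by the first `j+1` basis vectors is `≤ C w j`. -/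
theorem greedy (hu : Frame u) : ∃ (S : Finset (Eu n ≃L[ℝ] Eu n)) (c C : ℝ), 0 < c ∧ 1 ≤ C ∧
    ∀ t : ι → ℝ, ∃ (b : Fin n → ι) (w : Fin n → ℝ) (z : Eu n), ∃ T ∈ S,
      LinearIndependent ℝ (fun j => u (b j)) ∧ (∀ j, 0 < w j) ∧ Monotone w ∧
      (∀ x : Eu n, (∀ j, |x j| ≤ c * w j) → z + T x ∈ PP u t) ∧
      (∀ (j : Fin n) (i : ι), u i ∈ Submodule.span ℝ ((fun k => u (b k)) '' {k | k ≤ j}) →
        supp (PP u t) (u i) ≤ C * w j) := by
  classical
  have hd : ∀ b : Fin n → ι, ∃ T : Eu n ≃L[ℝ] Eu n, LinearIndependent ℝ (fun j => u (b j)) →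
      ∀ x k, ⟪T x, u (b k)⟫ = x k := fun b => by
    by_cases h : LinearIndependent ℝ (fun j => u (b j))
    · obtain ⟨T, hT⟩ := greedy_dual h
      exact ⟨T, fun _ => hT⟩
    · exact ⟨ContinuousLinearEquiv.refl ℝ _, fun h' => absurd h' h⟩
  choose T hT using hd
  obtain ⟨A, hA0, hA⟩ : ∃ A : ℝ, 0 ≤ A ∧ ∀ b, ‖(T b : Eu n →L[ℝ] Eu n)‖ ≤ A :=
    ⟨∑ b, ‖(T b : Eu n →L[ℝ] Eu n)‖, by positivity, fun b =>
      Finset.single_le_sum (f := fun b => ‖(T b : Eu n →L[ℝ] Eu n)‖) (fun _ _ => norm_nonneg _)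
        (Finset.mem_univ b)⟩
  have hnA : 0 ≤ (n : ℝ) * A := by positivity
  obtain ⟨N, hN⟩ : ∃ N : ℝ, N = Fintype.card ι := ⟨_, rfl⟩
  have hN0 : 0 ≤ N := by rw [hN]; positivity
  refine ⟨Finset.univ.image T, ((N + 1) * (n * A + 1))⁻¹, n * A + 1, by positivity, by linarith only [hnA],
    fun t => ?_⟩
  have hK := PP_body0 hu t
  have hc := hK.1.1
  have hne : (PP u t).Nonempty := ⟨0, interior_subset hK.2⟩
  have hu0 : ∀ i, u i ≠ 0 := fun i e => by simpa [e] using hu.unit i
  have p1 : ∀ i, 0 < supp (PP u t) (u i) := fun i => hK.supp_pos (hu0 i)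
  have p2 : ∀ i, 0 < supp (PP u t) (-u i) := fun i => hK.supp_pos (neg_ne_zero.2 (hu0 i))
  obtain ⟨W, hW⟩ : ∃ W : ι → ℝ, ∀ i, W i = supp (PP u t) (u i) + supp (PP u t) (-u i) :=
    ⟨_, fun _ => rfl⟩
  have p3 : ∀ i, 0 < W i := fun i => by rw [hW]; exact add_pos (p1 i) (p2 i)
  obtain ⟨b, h1, h2⟩ := greedy_aux hu.span W n le_rfl
  choose y hy hy' using fun i => exists_supp_eq hc hne (-u i)
  have hmono : Monotone fun j => W (b j) := fun j j' hj =>
    h2 j (b j') (h1.notMem_span_image (by simpa using hj))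
  refine ⟨b, fun j => W (b j), (N + 1)⁻¹ • ∑ i, y i, T b,
    Finset.mem_image_of_mem _ (Finset.mem_univ b), h1, fun j => p3 _, hmono, fun x hx i => ?_,
    fun j i hi => ?_⟩
  · have k1 : ⟪T b x, u i⟫ ≤ n * A * (((N + 1) * (n * A + 1))⁻¹ * W i) := by
      have := p3 i
      refine greedy_bound (hA b) (by positivity) (hu.unit i) fun k hk => (hx k).trans ?_
      refine mul_le_mul_of_nonneg_left (h2 k i fun h => hk ?_) (by positivity)
      exact greedy_zero (hT b h1) (by simp) h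
    have k2 : supp (PP u t) (u i) ≤ Real.exp (t i) := supp_le hne fun y hy => hy i
    have k3 : W i ≤ ∑ l, (supp (PP u t) (u i) - ⟪y l, u i⟫) := by
      refine le_trans ?_ (Finset.single_le_sum (f := fun l => supp (PP u t) (u i) - ⟪y l, u i⟫)
        (fun l _ => sub_nonneg.2 (le_supp hc (hy l) _)) (Finset.mem_univ i))
      rw [hW, ← hy', inner_neg_right]
      exact le_of_eq (by ring)
    rw [Finset.sum_sub_distrib, Finset.sum_const, Finset.card_univ, nsmul_eq_mul, ← hN,
      ← sum_inner] at k3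
    have k4 : n * A * (((N + 1) * (n * A + 1))⁻¹ * W i) ≤ (N + 1)⁻¹ * W i := by
      have := p3 i
      rw [mul_inv, show n * A * ((N + 1)⁻¹ * (n * A + 1)⁻¹ * W i) =
        n * A / (n * A + 1) * ((N + 1)⁻¹ * W i) by ring]
      exact mul_le_of_le_one_left (by positivity) ((div_le_one (by positivity)).2 (by linarith only []))
    have k5 : (N + 1)⁻¹ * (⟪∑ l, y l, u i⟫ + W i) ≤ supp (PP u t) (u i) := by
      rw [inv_mul_le_iff₀ (by positivity)]
      linarith only [k3, p1, p1 i]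
    rw [inner_add_left, real_inner_smul_left]
    linarith only [k1, k2, k4, k5]
  · refine supp_le hne fun z hz => ?_
    obtain ⟨x, rfl⟩ := (T b).surjective z
    have := p3 (b j)
    refine (greedy_bound (hA b) this.le (hu.unit i) fun k hk => ?_).trans (by linarith)
    have hkj : k ≤ j := by
      by_contra h
      exact hk (greedy_zero (hT b h1) h hi)
    refine le_trans ?_ (hmono hkj)
    have a1 := le_supp hc hz (u (b k))
    have a2 := le_supp hc hz (-u (b k))
    rw [inner_neg_right] at a2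
    rw [hT b h1] at a1 a2
    simp only [hW]
    exact abs_le.2 ⟨by linarith [p1 (b k)], by linarith [p2 (b k)]⟩

end Pool.Agent.Work.MP_f7e2e5_gt
end
end

-- merged part: Pool.Agent.Work.MP_f7e2e5_gt.Coer
section
open MeasureTheory Set Metric Filter Topology
open scoped RealInnerProductSpace Pointwise ContDiff NNReal

noncomputable section

namespace Pool.Agent.Work.MP_f7e2e5_gt

variable {n : ℕ} {p : ℝ}

variable {ι : Type} [Fintype ι] {u : ι → Eu n}

theorem Coer_log {α β : ℝ} (hα : 0 < α) (hβ : 0 < β) :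
    ∃ B, ∀ x, 0 < x → α * Real.log x ≤ β * x + B := by
  refine ⟨-(α * Real.log (β / α)), fun x hx => ?_⟩
  have h1 := Real.log_le_sub_one_of_pos (mul_pos (div_pos hβ hα) hx)
  rw [Real.log_mul (div_pos hβ hα).ne' hx.ne'] at h1
  have h2 := mul_le_mul_of_nonneg_left h1 hα.le
  have h3 : α * (β / α * x) = β * x := by field_simp
  linarith only [hα, h2, h3]

theorem Coer_real {α β γ κ : ℝ} (hα : 0 < α) (hβ : 0 < β) (hγ : 0 < γ) (hκ : 0 < κ) (D : ℝ) :
    ∃ M, ∀ x G, 0 < x → 0 ≤ G → D ≤ α * Real.log x - β * x + γ * Real.log (1 + G) - κ * G →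
      x ≤ M ∧ G ≤ M := by
  obtain ⟨B₁, h₁⟩ := Coer_log hα (half_pos hβ)
  obtain ⟨B₂, h₂⟩ := Coer_log hγ (half_pos hκ)
  refine ⟨max ((B₁ + B₂ + κ / 2 - D) / (β / 2)) ((B₁ + B₂ + κ / 2 - D) / (κ / 2)),
    fun x G hx hG h => ?_⟩
  have a := h₁ x hx
  have b := h₂ (1 + G) (by linarith only [hG])
  have c := mul_pos hβ hx
  have d := mul_nonneg hκ.le hG
  exact ⟨le_max_of_le_left ((le_div_iff₀ (half_pos hβ)).2 (by linarith only [h, a, b, d])),
    le_max_of_le_right ((le_div_iff₀ (half_pos hκ)).2 (by linarith only [h, a, b, c]))⟩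

open Classical in
theorem Coer_abel (P : ℕ → Prop) (hP : ∀ j k, j ≤ k → P j → P k) (W : ℕ → ℝ) (t : ℝ) (l : ℕ)
    (h : ∀ j, j ≤ l → P j → t ≤ W j) (hl : P l) :
    t ≤ W l - ∑ j ∈ Finset.range l, if P j then W (j + 1) - W j else 0 := by
  induction l with
  | zero => simpa using h 0 le_rfl hl
  | succ l ih =>
    by_cases e : P l
    · have := ih (fun j hj => h j (hj.trans l.le_succ)) e
      rw [Finset.sum_range_succ, if_pos e]
      linarith only [this]
    · rw [Finset.sum_eq_zero fun j hj => if_neg fun k =>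
        e (hP j l (Nat.lt_succ_iff.1 (Finset.mem_range.1 hj)) k), sub_zero]
      exact h _ le_rfl hl

theorem Coer_id {i0 l : ℕ} (h1 : (i0 : ℝ) < p) (h2 : p ≤ (i0 : ℝ) + 1) (hl : i0 ≤ l)
    (W : ℕ → ℝ) : ((i0 : ℝ) + 1 - p) * W i0 + ∑ j ∈ Finset.Ioc i0 l, W j =
      ((l : ℝ) + 1 - p) * W l -
        ∑ j ∈ Finset.range l, max ((j : ℝ) + 1 - p) 0 * (W (j + 1) - W j) := by
  induction l, hl using Nat.le_induction with
  | base =>
    rw [Finset.Ioc_self, Finset.sum_empty, Finset.sum_eq_zero fun j hj => ?_]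
    · ring
    · have : ((j + 1 : ℕ) : ℝ) ≤ i0 := Nat.cast_le.2 (Finset.mem_range.1 hj)
      push_cast at this
      rw [max_eq_right (by linarith), zero_mul]
  | succ l hl ih =>
    have : (i0 : ℝ) ≤ l := Nat.cast_le.2 hl
    rw [Finset.sum_Ioc_succ_top hl, Finset.sum_range_succ, max_eq_left (by linarith only [h2, this])]
    push_cast
    linarith only [ih]

theorem Coer_rank {v : Fin n → Eu n} (hv : LinearIndependent ℝ v) (j : Fin n) :
    Module.finrank ℝ (Submodule.span ℝ (v '' {k | k ≤ j})) = j + 1 := by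
  have h := finrank_span_eq_card (hv.comp (Subtype.val : Set.Iic j → Fin n) Subtype.val_injective)
  rw [Set.range_comp, Subtype.range_coe] at h
  exact h.trans (by simp [Fintype.card_subtype, Finset.filter_ge_eq_Iic])

open Classical in
theorem Coer_kappa {c : ι → ℝ} (hc : ∀ i, 0 < c i)
    (hL : ∀ L : Submodule ℝ (Eu n), L ≠ ⊤ → L = Submodule.span ℝ (u '' {i | u i ∈ L}) →
      (Module.finrank ℝ L - p) / (n - p) * ∑ i, c i <
        ∑ i ∈ Finset.univ.filter (fun i => u i ∈ L), c i) : ∃ κ : ℝ, 0 < κ ∧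
      ∀ A : Set ι, A.Nonempty → Submodule.span ℝ (u '' A) ≠ ⊤ →
        (∑ i, c i) / (n - p) * max (Module.finrank ℝ (Submodule.span ℝ (u '' A)) - p) 0 + κ ≤
          ∑ i, if u i ∈ Submodule.span ℝ (u '' A) then c i else 0 := by
  obtain ⟨f, hf⟩ : ∃ f : Set ι → ℝ, ∀ A, f A = if A.Nonempty ∧ Submodule.span ℝ (u '' A) ≠ ⊤ then
      (∑ i, if u i ∈ Submodule.span ℝ (u '' A) then c i else 0) - (∑ i, c i) / (n - p) *
        max (Module.finrank ℝ (Submodule.span ℝ (u '' A)) - p) 0 else 1 := ⟨_, fun _ => rfl⟩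
  obtain ⟨A₀, h₀⟩ := Finite.exists_min f
  refine ⟨f A₀, ?_, fun A h1 h2 => ?_⟩
  · rw [hf]
    split_ifs with h
    swap
    · exact one_pos
    obtain ⟨⟨i, hi⟩, h⟩ := h
    have h1 := hL _ h (le_antisymm (Submodule.span_mono (Set.image_mono fun k hk =>
      Submodule.subset_span ⟨k, hk, rfl⟩)) (Submodule.span_le.2 (by rintro _ ⟨k, hk, rfl⟩; exact hk)))
    rw [← Finset.sum_filter, sub_pos]
    rcases le_total ((Module.finrank ℝ (Submodule.span ℝ (u '' A₀)) : ℝ) - p) 0 with e | e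
    · rw [max_eq_right e, mul_zero]
      exact Finset.sum_pos (fun k _ => hc k)
        ⟨i, Finset.mem_filter.2 ⟨Finset.mem_univ _, Submodule.subset_span ⟨i, hi, rfl⟩⟩⟩
    · rw [max_eq_left e]
      refine lt_of_eq_of_lt ?_ h1
      ring
  · have := h₀ A
    rw [hf A, if_pos ⟨h1, h2⟩] at this
    linarith only [this]

theorem Coer_cap (hp : 1 < p) (S : Finset (Eu n ≃L[ℝ] Eu n)) : ∃ M : ℝ, 0 < M ∧
    ∀ T ∈ S, ∀ (z : Eu n) (B K : Set (Eu n)), Bornology.IsBounded K → (∀ x ∈ B, z + T x ∈ K) →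
      cap p B ≤ M * cap p K := by
  obtain ⟨f, hf⟩ : ∃ f : (Eu n ≃L[ℝ] Eu n) → ℝ, ∀ T, f T =
      ‖(T.symm.symm : Eu n →L[ℝ] Eu n)‖ ^ p * |(T.symm : Eu n →L[ℝ] Eu n).det| := ⟨_, fun _ => rfl⟩
  have h0 : ∀ T, 0 ≤ f T := fun T => by rw [hf]; positivity
  refine ⟨∑ T ∈ S, f T + 1, by have := Finset.sum_nonneg fun T (_ : T ∈ S) => h0 T; linarith,
    fun T hT z B K hK h => ?_⟩
  have hp0 : 0 < p := by linarith
  have h1 : (fun x => z + x) '' (T '' B) ⊆ K := by
    rintro _ ⟨_, ⟨x, hx, rfl⟩, rfl⟩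
    exact h x hx
  have h2 : Bornology.IsBounded (T '' B) := by
    refine ((isometry_add_left (-z)).lipschitz.isBounded_image hK).subset fun y hy => ?_
    exact ⟨z + y, h1 ⟨y, hy, rfl⟩, by simp⟩
  have h3 := cap_image_le hp0 h2 T.symm
  rw [T.symm_image_image, ← hf, ← cap_translate hp0 (T '' B) z] at h3
  refine h3.trans (mul_le_mul ?_ (cap_mono h1 hK) (cap_nonneg _ _) ?_)
  · have := Finset.single_le_sum (fun T _ => h0 T) hT
    linarith
  · have := Finset.sum_nonneg fun T (_ : T ∈ S) => h0 T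
    linarith

theorem Coer_box (hp : 1 < p) (hpn : p < n) {l : ℕ} (hl : l + 1 = n)
    (S : Finset (Eu n ≃L[ℝ] Eu n)) : ∃ K₀ : ℝ, ∀ T ∈ S, ∀ (z : Eu n) (K : Set (Eu n))
      (a : Fin n → ℝ) (W : ℕ → ℝ), Bornology.IsBounded K → (∀ j, 0 < a j) → Monotone a →
      Monotone W → (∀ j : Fin n, W j = Real.log (a j)) →
      (∀ x : Eu n, (∀ j, |x j| ≤ a j) → z + T x ∈ K) → 0 < cap p K ∧
        (n - p) * W l - ∑ j ∈ Finset.range l, max ((j : ℝ) + 1 - p) 0 * (W (j + 1) - W j) -
          p * Real.log (1 + (W l - W 0)) ≤ Real.log (cap p K) + K₀ := by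
  obtain ⟨i0, h1, h2⟩ : ∃ i0 : ℕ, (i0 : ℝ) < p ∧ p ≤ (i0 : ℝ) + 1 := by
    have h0 : 0 < ⌈p⌉₊ := Nat.ceil_pos.2 (by linarith only [hp])
    refine ⟨⌈p⌉₊ - 1, ?_, ?_⟩ <;> rw [Nat.cast_pred h0]
    · linarith only [hp, Nat.ceil_lt_add_one (by linarith : 0 ≤ p)]
    · linarith only [Nat.le_ceil p]
  have h3 : i0 < n := by exact_mod_cast h1.trans hpn
  have h4 : l < n := by omega
  obtain ⟨c, hc, hbox⟩ := cap_box hp hpn ⟨i0, h3⟩ ⟨l, h4⟩ h1 h2 hl
  obtain ⟨M, hM, hcap⟩ := Coer_cap hp S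
  refine ⟨Real.log M - Real.log c, fun T hT z K a W hK ha ham hW e h => ?_⟩
  have b1 := (hbox a ha ham).trans (hcap T hT z _ K hK fun x hx => h x fun j => (hx j).2)
  have e0 : W i0 = Real.log (a ⟨i0, h3⟩) := e ⟨i0, h3⟩
  have el : W l = Real.log (a ⟨l, h4⟩) := e ⟨l, h4⟩
  rw [Real.log_div (ha _).ne' (ha _).ne', ← e0, ← el] at b1
  have hil : i0 ≤ l := by omega
  have b2 : 0 < 1 + (W l - W i0) := by linarith only [hW, hil, hW hil]
  have b3 : 0 < ∏ i ∈ Finset.univ.filter (fun i : Fin n => ⟨i0, h3⟩ < i), a i :=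
    Finset.prod_pos fun i _ => ha i
  have b4 := Real.rpow_pos_of_pos (ha ⟨i0, h3⟩) ((i0 : ℝ) + 1 - p)
  have b5 := Real.rpow_pos_of_pos b2 p
  have b6 := div_pos (mul_pos hc (mul_pos b4 b3)) b5
  have b7 : 0 < cap p K := (mul_pos_iff_of_pos_left hM).1 (b6.trans_le b1)
  have b8 := Real.log_le_log b6 b1
  have b9 : ∑ i ∈ Finset.univ.filter (fun i : Fin n => ⟨i0, h3⟩ < i), Real.log (a i) =
      ∑ j ∈ Finset.Ioc i0 l, W j := by
    refine Finset.sum_bij (fun i _ => (i : ℕ)) (fun i hi => ?_) (fun i _ j _ h => Fin.ext h)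
      (fun j hj => ?_) fun i _ => (e i).symm
    · have := i.2
      simp only [Finset.mem_filter, Finset.mem_univ, true_and, Fin.lt_def] at hi
      exact Finset.mem_Ioc.2 ⟨hi, by omega⟩
    · rw [Finset.mem_Ioc] at hj
      exact ⟨⟨j, by omega⟩, by simpa [Fin.lt_def] using hj.1, rfl⟩
  rw [Real.log_div (mul_pos hc (mul_pos b4 b3)).ne' b5.ne', Real.log_mul hc.ne' (mul_pos b4 b3).ne',
    Real.log_mul b4.ne' b3.ne', Real.log_rpow (ha _), Real.log_rpow b2,
    Real.log_prod fun i _ => (ha i).ne', Real.log_mul hM.ne' b7.ne', ← e0, b9,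
    Coer_id h1 h2 hil] at b8
  have b10 := mul_le_mul_of_nonneg_left (Real.log_le_log b2
    (show 1 + (W l - W i0) ≤ 1 + (W l - W 0) by linarith only [hW, hW (Nat.zero_le i0)])) (by linarith only [hp] : 0 ≤ p)
  have b11 : (n : ℝ) = l + 1 := by rw [← hl]; push_cast; rfl
  refine ⟨b7, ?_⟩
  rw [b11]
  linarith only [b8, b10]

open Classical in
/-- Superlevel sets of the functional on tight support numbers are bounded. -/
theorem coercive (hp : 1 < p) (hpn : p < n) (hu : Frame u) {c : ι → ℝ} (hc : ∀ i, 0 < c i)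
    (hL : ∀ L : Submodule ℝ (Eu n), L ≠ ⊤ → L = Submodule.span ℝ (u '' {i | u i ∈ L}) →
      (Module.finrank ℝ L - p) / (n - p) * ∑ i, c i <
        ∑ i ∈ Finset.univ.filter (fun i => u i ∈ L), c i) (a : ℝ) :
    Bornology.IsBounded {t : ι → ℝ | (∃ t', t = tight u t') ∧ a ≤ JJ p u c t} := by
  have hn : 1 < n := by exact_mod_cast hp.trans hpn
  obtain ⟨l, hl⟩ : ∃ l, l + 1 = n := ⟨n - 1, by omega⟩
  have hln : l < n := by omega
  obtain ⟨S, c₀, C, hc₀, hC, hg⟩ := greedy hu
  have : Nonempty ι := ⟨(hg 0).choose ⟨l, hln⟩⟩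
  obtain ⟨κ, hκ, hκL⟩ := Coer_kappa hc hL
  obtain ⟨K₀, hK₀⟩ := Coer_box hp hpn hl S
  have hs : 0 < ∑ i, c i := Finset.sum_pos (fun i _ => hc i) Finset.univ_nonempty
  have hq : 0 < (n : ℝ) - p := sub_pos.2 hpn
  have hp0 : 0 < p := by linarith only [hp]
  have hα := div_pos hs hq
  have hsq : ∑ i, c i = (∑ i, c i) / (n - p) * (n - p) := by field_simp
  generalize (∑ i, c i) / (n - p) = α at hα hsq hκL
  obtain ⟨M, hM⟩ := Coer_real hα (inv_pos.2 (sub_pos.2 hp)) (mul_pos hα hp0) hκ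
    (a - (∑ i, c i) * Real.log (C / c₀) - α * K₀)
  obtain ⟨M', hM'⟩ : ∃ M', M' = Real.log (C / c₀) + (M + K₀ + p * M + (n - p) * M) / (n - p) :=
    ⟨_, rfl⟩
  have up : ∀ t t', t = tight u t' → a ≤ JJ p u c t → ∀ i, t i ≤ M' := by
    intro t t' ht ha
    obtain ⟨b, w, z, T, hT, hb, hw, hwm, hbox, hsupp⟩ := hg t
    obtain ⟨W, hW⟩ : ∃ W : ℕ → ℝ, ∀ j, W j = Real.log (c₀ * w ⟨min j l, by omega⟩) :=
      ⟨_, fun _ => rfl⟩
    have hW1 : ∀ j : Fin n, W j = Real.log (c₀ * w j) := fun j => by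
      rw [hW]
      congr 3
      exact Fin.ext (min_eq_left (by omega))
    have hWm : Monotone W := fun j k h => by
      rw [hW, hW]
      exact Real.log_le_log (mul_pos hc₀ (hw _)) (mul_le_mul_of_nonneg_left
        (hwm (Fin.mk_le_mk.2 (min_le_min_right _ h))) hc₀.le)
    obtain ⟨hx, hcap⟩ := hK₀ T hT z _ (fun j => c₀ * w j) W (PP_body0 hu t).1.1.isBounded
      (fun j => mul_pos hc₀ (hw j)) (fun j k h => mul_le_mul_of_nonneg_left (hwm h) hc₀.le) hWm hW1
      hbox
    obtain ⟨L, hLd⟩ : ∃ L : ℕ → Submodule ℝ (Eu n), ∀ j,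
        L j = Submodule.span ℝ (u '' (b '' {k | (k : ℕ) ≤ j})) := ⟨_, fun _ => rfl⟩
    have hL1 : ∀ j : Fin n, L j = Submodule.span ℝ ((fun k => u (b k)) '' {k | k ≤ j}) :=
      fun j => by rw [hLd, Set.image_image]; rfl
    have hr : ∀ j, j < n → Module.finrank ℝ (L j) = j + 1 := fun j hj => by
      have := Coer_rank hb ⟨j, hj⟩
      rwa [← hL1] at this
    have htop : L l = ⊤ := Submodule.eq_top_of_finrank_eq (by rw [hr l hln, hl]; simp)
    have ht1 : ∀ i j, j ≤ l → u i ∈ L j → t i ≤ Real.log (C / c₀) + W j := fun i j hj h => by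
      have h1 := hsupp ⟨j, by omega⟩ i (by rw [← hL1]; exact h)
      have h2 : Real.exp (t i) = supp (PP u t) (u i) := by rw [ht, exp_tight hu, PP_tight hu]
      have h3 := hw ⟨j, by omega⟩
      rw [hW1 ⟨j, by omega⟩, ← Real.log_mul (by positivity) (by positivity),
        Real.le_log_iff_exp_le (by positivity), h2]
      refine h1.trans_eq ?_
      field_simp
    have ht2 : ∀ i, t i ≤ Real.log (C / c₀) + W l -
        ∑ j ∈ Finset.range l, if u i ∈ L j then W (j + 1) - W j else 0 := fun i => by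
      have := Coer_abel (fun j => u i ∈ L j) (fun j k h => by
        rw [hLd, hLd]
        exact fun e => Submodule.span_mono (Set.image_mono (Set.image_mono fun m hm =>
          le_trans hm h)) e) (fun j => Real.log (C / c₀) + W j) (t i) l (ht1 i)
        (htop ▸ Submodule.mem_top)
      simpa only [add_sub_add_left_eq_sub] using this
    have hg0 : ∀ j, 0 ≤ W (j + 1) - W j := fun j => sub_nonneg.2 (hWm j.le_succ)
    have hG : ∑ j ∈ Finset.range l, (W (j + 1) - W j) = W l - W 0 := Finset.sum_range_sub W l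
    have s1 : ∑ i, c i * t i ≤ (∑ i, c i) * (Real.log (C / c₀) + W l) -
        ∑ j ∈ Finset.range l, (α * max ((j : ℝ) + 1 - p) 0 + κ) * (W (j + 1) - W j) := by
      refine (Finset.sum_le_sum fun i _ => mul_le_mul_of_nonneg_left (ht2 i) (hc i).le).trans ?_
      simp only [mul_sub (c _), Finset.sum_sub_distrib, Finset.mul_sum]
      rw [← Finset.sum_mul, Finset.sum_comm]
      refine sub_le_sub_left (Finset.sum_le_sum fun j hj => ?_) _
      have hj' := Finset.mem_range.1 hj
      have h1 := hκL (b '' {k | (k : ℕ) ≤ j}) ⟨_, ⟨j, by omega⟩, le_refl j, rfl⟩ fun e => by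
        have := hr j (by omega)
        rw [hLd, e, finrank_top, finrank_euclideanSpace_fin] at this
        omega
      rw [← hLd, hr j (by omega)] at h1
      push_cast at h1
      refine (mul_le_mul_of_nonneg_right h1 (hg0 j)).trans_eq ?_
      rw [Finset.sum_mul]
      exact Finset.sum_congr rfl fun i _ => by split_ifs <;> simp
    simp only [add_mul, Finset.sum_add_distrib, mul_assoc, ← Finset.mul_sum, hG] at s1
    have s2 : ∑ j ∈ Finset.range l, max ((j : ℝ) + 1 - p) 0 * (W (j + 1) - W j) ≤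
        (n - p) * (W l - W 0) := by
      rw [← hG, Finset.mul_sum]
      refine Finset.sum_le_sum fun j hj => mul_le_mul_of_nonneg_right (max_le ?_ hq.le) (hg0 j)
      have : ((j + 1 : ℕ) : ℝ) ≤ n := Nat.cast_le.2 (by have := Finset.mem_range.1 hj; omega)
      push_cast at this
      linarith only [this]
    have hG0 : 0 ≤ W l - W 0 := sub_nonneg.2 (hWm l.zero_le)
    have s3 := mul_le_mul_of_nonneg_left hcap hα.le
    obtain ⟨m1, m2⟩ := hM _ _ hx hG0 (by
      rw [JJ, div_eq_inv_mul] at ha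
      have s4 : (∑ i, c i) * W l = α * ((n - p) * W l) := by rw [hsq]; ring
      linarith only [ha, s1, s3, s4])
    have s5 := Real.log_le_sub_one_of_pos hx
    have s6 := mul_le_mul_of_nonneg_left ((Real.log_le_sub_one_of_pos
      (show 0 < 1 + (W l - W 0) by linarith only [hG0])).trans (show _ ≤ M by linarith only [m2])) hp0.le
    have s7 := mul_le_mul_of_nonneg_left m2 hq.le
    have s8 : W l ≤ (M + K₀ + p * M + (n - p) * M) / (n - p) :=
      (le_div_iff₀ hq).2 (by linarith only [hcap, s2, m1, s5, s6, s7])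
    intro i
    have := ht1 i l le_rfl (htop ▸ Submodule.mem_top)
    linarith only [hM', s8, this]
  refine (isBounded_Icc (fun i => (a - (∑ k, c k) * M') / c i + M') fun _ => M').subset ?_
  rintro t ⟨⟨t', ht⟩, ha⟩
  have h1 := up t t' ht ha
  refine ⟨fun i => ?_, h1⟩
  have h2 := Finset.single_le_sum (f := fun k => c k * (M' - t k))
    (fun k _ => mul_nonneg (hc k).le (sub_nonneg.2 (h1 k))) (Finset.mem_univ i)
  simp only [mul_sub, Finset.sum_sub_distrib, ← Finset.sum_mul] at h2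
  have h3 : 0 ≤ cap p (PP u t) / (p - 1) := div_nonneg (cap_nonneg _ _) (sub_pos.2 hp).le
  rw [JJ] at ha
  change _ ≤ t i
  rw [← le_sub_iff_add_le, div_le_iff₀ (hc i)]
  linarith only [ha, h2, h3]

end Pool.Agent.Work.MP_f7e2e5_gt
end
end

-- merged part: Pool.Agent.Work.MP_f7e2e5_gt.GEst
section
/-! Upper and lower bounds for the scale invariant functional in terms of gaps. -/

open MeasureTheory Set Metric Filter Topology
open scoped RealInnerProductSpace Pointwise ContDiff NNReal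

noncomputable section

namespace Pool.Agent.Work.MP_f7e2e5_gt

variable {n : ℕ} {p : ℝ} {ι : Type} [Fintype ι] {u : ι → Eu n} {α : ι → ℝ}

/-- The scale invariant functional. -/
def GJ (p : ℝ) (u : ι → Eu n) (α t : ι → ℝ) : ℝ := ∑ i, α i * t i - Real.log (cap p (PP u t))

/-- The rate attached to a set of indices. -/
def Gf (p : ℝ) (u : ι → Eu n) (α : ι → ℝ) (I : Finset ι) : ℝ :=
  ∑ i ∈ I, α i - max ((Module.finrank ℝ (lin u I) : ℝ) - p) 0

theorem G_proj (L : Submodule ℝ (Eu n)) (a b : ℝ) (x : Eu n) :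
    (a • L.starProjection + (1 : ℝ) • Lᗮ.starProjection)
      ((b • L.starProjection + (1 : ℝ) • Lᗮ.starProjection) x) =
      (a * b) • L.starProjection x + Lᗮ.starProjection x := by
  have h1 : L.starProjection (L.starProjection x) = L.starProjection x :=
    Submodule.starProjection_eq_self_iff.2 (L.starProjection_apply_mem x)
  have h2 : Lᗮ.starProjection (Lᗮ.starProjection x) = Lᗮ.starProjection x :=
    Submodule.starProjection_eq_self_iff.2 (Lᗮ.starProjection_apply_mem x)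
  have h3 : L.starProjection (Lᗮ.starProjection x) = 0 :=
    (Submodule.starProjection_apply_eq_zero_iff L).2 (Lᗮ.starProjection_apply_mem x)
  have h4 : Lᗮ.starProjection (L.starProjection x) = 0 :=
    (Submodule.starProjection_apply_eq_zero_iff Lᗮ).2
      (L.le_orthogonal_orthogonal (L.starProjection_apply_mem x))
  simp only [add_apply, smul_apply, one_smul, map_add,
    map_smul, h1, h2, h3, h4, smul_zero, add_zero, zero_add, smul_smul, mul_comm]

theorem G_stretch (hp : 0 < p) (L : Submodule ℝ (Eu n)) {K K' : Set (Eu n)}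
    (hK' : Bornology.IsBounded K') {s : ℝ} (hs : 0 ≤ s)
    (h : ∀ x ∈ K, Real.exp s • L.starProjection x + Lᗮ.starProjection x ∈ K') :
    Real.exp (s * (Module.finrank ℝ L - p)) * cap p K ≤ cap p K' := by
  have e : ∀ a b : ℝ, a + b = 0 → ∀ x, (Real.exp a • L.starProjection + (1 : ℝ) •
      Lᗮ.starProjection) ((Real.exp b • L.starProjection + (1 : ℝ) • Lᗮ.starProjection) x) = x :=
    fun a b hab x => by
      rw [G_proj, ← Real.exp_add, hab, Real.exp_zero, one_smul,
        L.starProjection_add_starProjection_orthogonal]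
  let T : Eu n ≃L[ℝ] Eu n := ContinuousLinearEquiv.equivOfInverse _ _ (e s (-s) (by ring))
    (e (-s) s (by ring))
  have h1 : K ⊆ T '' K' := fun x hx => ⟨T.symm x, by
    have := h x hx
    rw [← one_smul ℝ (Lᗮ.starProjection x)] at this
    exact this, T.apply_symm_apply x⟩
  have h2 := (cap_mono (p := p) h1 (T.lipschitz.isBounded_image hK')).trans (cap_image_le hp hK' T)
  have h3 : (T : Eu n →L[ℝ] Eu n).det = Real.exp (-s) ^ Module.finrank ℝ L := by
    have := det_proj L (Real.exp (-s)) 1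
    rw [one_pow, mul_one] at this
    exact this
  have h4 : ‖(T.symm : Eu n →L[ℝ] Eu n)‖ ≤ Real.exp s := by
    refine ContinuousLinearMap.opNorm_le_bound _ (Real.exp_pos s).le fun x => ?_
    have a1 : ⟪L.starProjection x, Lᗮ.starProjection x⟫ = 0 :=
      (Submodule.mem_orthogonal _ _).1 (Lᗮ.starProjection_apply_mem x) _
        (L.starProjection_apply_mem x)
    have a2 := norm_add_sq_real (L.starProjection x) (Lᗮ.starProjection x)
    have a3 := norm_add_sq_real (Real.exp s • L.starProjection x) (Lᗮ.starProjection x)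
    rw [a1, L.starProjection_add_starProjection_orthogonal] at a2
    rw [real_inner_smul_left, a1, norm_smul, Real.norm_of_nonneg (Real.exp_pos s).le] at a3
    have a4 : (T.symm : Eu n →L[ℝ] Eu n) x =
        Real.exp s • L.starProjection x + Lᗮ.starProjection x := by
      rw [← one_smul ℝ (Lᗮ.starProjection x)]
      rfl
    have a5 : 1 ≤ Real.exp s ^ 2 := one_le_pow₀ (Real.one_le_exp hs)
    rw [a4, ← pow_le_pow_iff_left₀ (norm_nonneg _) (by positivity) two_ne_zero, a3, mul_pow,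
      mul_pow, a2]
    linarith only [a5, sq_nonneg ‖Lᗮ.starProjection x‖, mul_nonneg_of_nonpos_of_nonpos (Mathlib.Tactic.Linarith.sub_nonpos_of_le (sq_nonneg ‖Lᗮ.starProjection x‖)) (Mathlib.Tactic.Linarith.sub_nonpos_of_le a5)]
  have h5 : ‖(T.symm : Eu n →L[ℝ] Eu n)‖ ^ p * |(T : Eu n →L[ℝ] Eu n).det| ≤
      Real.exp (-(s * (Module.finrank ℝ L - p))) := by
    rw [h3, abs_of_nonneg (by positivity), ← Real.exp_nat_mul]
    refine (mul_le_mul_of_nonneg_right (Real.rpow_le_rpow (norm_nonneg _) h4 hp.le)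
      (Real.exp_pos _).le).trans_eq ?_
    rw [← Real.exp_mul, ← Real.exp_add]
    congr 1
    ring
  have h6 := mul_le_mul_of_nonneg_left (h2.trans (mul_le_mul_of_nonneg_right h5 (cap_nonneg _ _)))
    (Real.exp_pos (s * (Module.finrank ℝ L - p))).le
  rwa [← mul_assoc, ← Real.exp_add, add_neg_cancel, Real.exp_zero, one_mul] at h6

theorem G_cap_pos (hp : 1 < p) (hpn : p < n) (hu : GFr u) (t : ι → ℝ) : 0 < cap p (PP u t) :=
  cap_pos hp hpn (GCont_bdd hu t) (GPP_body0 hu t).1.2.2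

theorem G_step (hp : 1 < p) (hpn : p < n) (hu : GFr u) (L : Submodule ℝ (Eu n)) {t t' : ι → ℝ}
    {s B l : ℝ} (hs : 0 ≤ s) (hl : 0 < l) (hB : ∀ x ∈ PP u t, ‖L.starProjection x‖ ≤ B)
    (h : ∀ i, (u i ∈ L ∧ Real.exp (s + t i) ≤ l * Real.exp (t' i)) ∨
      Real.exp (t i) + (Real.exp s - 1) * B ≤ l * Real.exp (t' i)) :
    s * (Module.finrank ℝ L - p) + Real.log (cap p (PP u t)) ≤
      (n - p) * Real.log l + Real.log (cap p (PP u t')) := by
  have h1 := G_stretch (by linarith : 0 < p) L ((GCont_bdd hu t').smul₀ l) hs (K := PP u t)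
    fun x hx => by
      rw [mem_smul_set_iff_inv_smul_mem₀ hl.ne']
      intro i
      have e : Lᗮ.starProjection x = x - L.starProjection x :=
        eq_sub_of_add_eq' (L.starProjection_add_starProjection_orthogonal x)
      rw [real_inner_smul_left, inv_mul_le_iff₀ hl, e, inner_add_left, inner_sub_left,
        real_inner_smul_left]
      rcases h i with ⟨a, b⟩ | b
      · rw [Submodule.inner_starProjection_left_eq_right, Submodule.starProjection_eq_self_iff.2 a]
        have := mul_le_mul_of_nonneg_left (hx i) (Real.exp_pos s).le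
        rw [Real.exp_add] at b
        linarith
      · have a1 := (real_inner_le_norm (L.starProjection x) (u i)).trans_eq (by
          rw [hu.unit, mul_one])
        have a2 := mul_le_mul_of_nonneg_left (a1.trans (hB x hx))
          (sub_nonneg.2 (Real.one_le_exp hs))
        linarith [hx i]
  rw [cap_smul (by linarith) _ hl] at h1
  have h2 := Real.log_le_log (mul_pos (Real.exp_pos _) (G_cap_pos hp hpn hu t)) h1
  rwa [Real.log_mul (Real.exp_pos _).ne' (G_cap_pos hp hpn hu t).ne', Real.log_exp,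
    Real.log_mul (Real.rpow_pos_of_pos hl _).ne' (G_cap_pos hp hpn hu t').ne',
    Real.log_rpow hl] at h2

theorem GJ_shift (hp : 1 < p) (hpn : p < n) (hu : GFr u) (hα : ∑ i, α i = n - p) (t : ι → ℝ)
    (a : ℝ) : GJ p u α (fun i => t i + a) = GJ p u α t := by
  have h1 := GCont_cap_le hp hu t (fun i => t i + a) (a := a) fun i => le_rfl
  have h2 := GCont_cap_le hp hu (fun i => t i + a) t (a := -a) fun i => by simp
  have h3 := G_cap_pos hp hpn hu t
  have h4 := G_cap_pos hp hpn hu fun i => t i + a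
  have h5 := Real.log_le_log h4 h1
  have h6 := Real.log_le_log h3 h2
  rw [Real.log_mul (Real.exp_pos _).ne' h3.ne', Real.log_exp] at h5
  rw [Real.log_mul (Real.exp_pos _).ne' h4.ne', Real.log_exp] at h6
  simp only [GJ, mul_add, Finset.sum_add_distrib, ← Finset.sum_mul, hα]
  linarith only [h5, h6]

variable [DecidableEq ι]

theorem G_lower_aux (hp : 1 < p) (hpn : p < n) (hu : GFr u) (hα0 : ∀ i, 0 < α i) :
    ∃ B : ℝ, 0 ≤ B ∧ ∀ (N : ℕ) (x : Finset ι → ℝ), (∀ I, 0 ≤ x I) →
      (∀ I J, x I ≠ 0 → x J ≠ 0 → I ⊆ J ∨ J ⊆ I) →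
      (∀ I, x I ≠ 0 → I.Nonempty ∧ Gf p u α I ≤ 0) →
      (Finset.univ.filter fun I => x I ≠ 0).card = N → GJ p u α 0 - N * B ≤ GJ p u α (ungap x) := by
  obtain ⟨A, -, -, hA, -, -, hb, -⟩ := lin_consts u
  refine ⟨(n - p) * Real.log (1 + A), mul_nonneg (by linarith) (Real.log_nonneg (by linarith)),
    fun N => ?_⟩
  induction N with
  | zero =>
    intro x _ _ _ hc
    have : ungap x = 0 := by
      ext i
      refine neg_eq_zero.2 (Finset.sum_eq_zero fun I _ => ?_)
      have := Finset.filter_eq_empty_iff.1 (Finset.card_eq_zero.1 hc) (Finset.mem_univ I)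
      simp [not_not.1 this]
    simp [this]
  | succ N ih =>
    intro x h0 h1 h2 hc
    obtain ⟨I, hI, hm⟩ := Finset.exists_min_image (Finset.univ.filter fun I => x I ≠ 0) Finset.card
      (Finset.card_pos.1 (by omega))
    simp only [Finset.mem_filter, Finset.mem_univ, true_and] at hI hm
    have hne : ∀ J, Function.update x I 0 J ≠ 0 → x J ≠ 0 := fun J hJ => by
      by_cases e : J = I
      · rwa [e]
      · rwa [Function.update_of_ne e] at hJ
    have k1 := ih (Function.update x I 0) (fun J => by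
      by_cases e : J = I
      · simp [e]
      · simpa [Function.update_of_ne e] using h0 J) (fun J J' a b => h1 J J' (hne J a) (hne J' b))
      (fun J a => h2 J (hne J a)) (by
        have : (Finset.univ.filter fun J => Function.update x I 0 J ≠ 0) =
            (Finset.univ.filter fun I => x I ≠ 0).erase I := by
          ext J
          by_cases e : J = I
          · simp [e]
          · simp [e]
        rw [this, Finset.card_erase_of_mem (by simpa using hI), hc]
        rfl)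
    have k2 : ∀ i, ungap (Function.update x I 0) i = ungap x i + if i ∈ I then x I else 0 := by
      intro i
      rw [ungap, ungap, ← Finset.add_sum_erase _ _ (Finset.mem_univ I),
        ← Finset.add_sum_erase _ _ (Finset.mem_univ I),
        Finset.sum_congr rfl fun J hJ => by rw [Function.update_of_ne (Finset.mem_erase.1 hJ).1]]
      simp
      ring
    have k3 : ∀ i ∈ I, ungap x i = -∑ J, x J := fun i hi => by
      refine congrArg Neg.neg (Finset.sum_congr rfl fun J _ => ?_)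
      by_cases e : x J = 0
      · simp [e]
      rcases h1 I J hI e with k | k
      · exact if_pos (k hi)
      · exact if_pos (Finset.eq_of_subset_of_card_le k (hm J e) ▸ hi)
    obtain ⟨⟨i0, hi0⟩, hf⟩ := h2 I hI
    have k4 := G_step hp hpn hu (lin u I) (t := ungap x) (t' := ungap (Function.update x I 0))
      (h0 I) (l := 1 + A) (by linarith only [hA]) (B := A * Real.exp (-∑ J, x J))
      (fun y hy => hb I y _ (Real.exp_pos _).le fun i hi _ => k3 i hi ▸ hy i) fun i => Or.inr (by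
        have a0 := Real.one_le_exp (h0 I)
        have a1 := Real.exp_pos (-∑ J, x J)
        have a2 := mul_pos (show 0 < A by linarith) a1
        rw [k2]
        by_cases hi : i ∈ I
        · rw [if_pos hi, k3 i hi, Real.exp_add]
          linarith only [a2, a0, a1, mul_nonneg_of_nonpos_of_nonpos (Mathlib.Tactic.Linarith.sub_nonpos_of_le a0) (le_of_lt (Mathlib.Tactic.Linarith.sub_neg_of_lt a1))]
        · have a3 := Real.exp_le_exp.2 (ungap_le h0 h1 hI hi0 hi)
          rw [k3 i0 hi0, Real.exp_add] at a3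
          rw [if_neg hi, add_zero]
          linarith only [a2, a3, hA, mul_nonneg_of_nonpos_of_nonpos (Mathlib.Tactic.Linarith.sub_nonpos_of_le hA) (Mathlib.Tactic.Linarith.sub_nonpos_of_le a3)])
    have k5 : ∑ i ∈ I, α i ≤ Module.finrank ℝ (lin u I) - p := by
      have := Finset.sum_pos (fun i (_ : i ∈ I) => hα0 i) ⟨i0, hi0⟩
      rw [Gf, sub_nonpos, le_max_iff] at hf
      exact hf.resolve_right (not_le.2 this)
    have k6 := mul_le_mul_of_nonneg_left k5 (h0 I)
    have k7 : ∑ i, α i * ungap (Function.update x I 0) i =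
        ∑ i, α i * ungap x i + x I * ∑ i ∈ I, α i := by
      simp only [k2, mul_add, Finset.sum_add_distrib, mul_ite, mul_zero, Finset.sum_ite_mem,
        Finset.univ_inter, Finset.mul_sum, mul_comm]
    simp only [GJ, k7] at k1 ⊢
    push_cast
    linarith only [k4, k6, k1]

/-- Lower bound when all gaps have nonpositive rate. -/
theorem G_lower (hp : 1 < p) (hpn : p < n) (hu : GFr u) (hα0 : ∀ i, 0 < α i)
    (hα : ∑ i, α i = n - p) : ∃ B : ℝ, ∀ t, (∀ I, gap I t ≠ 0 → Gf p u α I ≤ 0) →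
      B ≤ GJ p u α t := by
  obtain ⟨B, hB0, hB⟩ := G_lower_aux hp hpn hu hα0
  refine ⟨GJ p u α 0 - Fintype.card (Finset ι) * B, fun t ht => ?_⟩
  have : Nonempty ι := by
    by_contra h
    rw [not_nonempty_iff] at h
    simp at hα
    linarith
  obtain ⟨j, hj⟩ := Finite.exists_max t
  have h1 := hB _ (fun I => gap I t) (fun I => gap_nonneg I t) (fun I J => gap_chain)
    (fun I h => ⟨(gap_proper h).1, ht I h⟩) rfl
  have h2 : t = fun i => ungap (fun I => gap I t) i + t j := by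
    ext i
    rw [gap_sum hj i, ungap]
    ring
  have h3 := mul_le_mul_of_nonneg_right (Nat.cast_le (α := ℝ).2 (Finset.card_le_univ
    (Finset.univ.filter fun I => gap I t ≠ 0))) hB0
  rw [h2, GJ_shift hp hpn hu hα]
  linarith

/-- A translated box adapted to the gaps lies in the polytope. -/
theorem G_box (hu : GFr u) : ∃ (S : Finset (Eu n ≃L[ℝ] Eu n)) (c : ℝ), 0 < c ∧
    ∀ (t : ι → ℝ) (j : ι), (∀ k, t k ≤ t j) → ∃ T ∈ S, ∃ z : Eu n, ∀ x : Eu n,
      (∀ k : Fin n, |x k| ≤ c * Real.exp (t j - ∑ I, if (k : ℕ) < Module.finrank ℝ (lin u I) then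
        gap I t else 0)) → z + T x ∈ PP u t := by
  classical
  obtain ⟨-, γ, w, -, hγ, hγ1, -, hw⟩ := lin_consts u
  have hb : ∀ C : Finset (Finset ι), ∃ b : OrthonormalBasis (Fin n) ℝ (Eu n),
      (∀ I ∈ C, ∀ J ∈ C, I ⊆ J ∨ J ⊆ I) → ∀ I ∈ C, ∀ k : Fin n,
        Module.finrank ℝ (lin u I) ≤ k → b k ∈ (lin u I)ᗮ := fun C => by
    by_cases h : ∀ I ∈ C, ∀ J ∈ C, I ⊆ J ∨ J ⊆ I
    · obtain ⟨b, hb⟩ := chain_basis (C.image (lin u)) (by
        simp only [Finset.forall_mem_image]
        exact fun I hI J hJ => (h I hI J hJ).imp lin_mono lin_mono)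
      exact ⟨b, fun _ I hI => hb _ (Finset.mem_image_of_mem _ hI)⟩
    · exact ⟨EuclideanSpace.basisFun _ _, fun k => absurd k h⟩
  choose b hb using hb
  obtain ⟨ε, hε, hε1⟩ : ∃ ε : ℝ, 0 < ε ∧ Fintype.card (Finset ι) * ε = 1 / 2 :=
    ⟨1 / 2 / Fintype.card (Finset ι), by positivity, by field_simp⟩
  have hε2 : ε ≤ 1 / 2 := by
    have : (1 : ℝ) ≤ Fintype.card (Finset ι) := Nat.one_le_cast.2 Fintype.card_pos
    linarith only [hε1, hε, this, mul_nonneg_of_nonpos_of_nonpos (le_of_lt (Mathlib.Tactic.Linarith.sub_neg_of_lt hε)) (Mathlib.Tactic.Linarith.sub_nonpos_of_le this)]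
  obtain ⟨c, hc, hc1⟩ : ∃ c : ℝ, 0 < c ∧ n * c ≤ ε * γ := ⟨ε * γ / (n + 1), by positivity, by
    rw [← mul_div_assoc, div_le_iff₀ (by positivity)]
    linarith only [hε, hγ, mul_pos hε hγ]⟩
  refine ⟨Finset.univ.image fun C => (b C).repr.symm.toContinuousLinearEquiv, c, hc,
    fun t j hj => ?_⟩
  set C := Finset.univ.filter fun I => gap I t ≠ 0 with hC
  have hbC := hb C fun I hI J hJ => gap_chain (Finset.mem_filter.1 hI).2 (Finset.mem_filter.1 hJ).2
  let hi : Finset ι → ℝ := fun I => t j - ∑ J, if J ⊆ I then 0 else gap J t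
  refine ⟨_, Finset.mem_image_of_mem _ (Finset.mem_univ C),
    ∑ I ∈ C, (ε * Real.exp (hi I)) • w I, fun x hx i => ?_⟩
  set B := t j - ∑ J, if i ∈ J ∧ u i ∈ lin u J then gap J t else 0 with hB
  have h1 : ⟪(b C).repr.symm.toContinuousLinearEquiv x, u i⟫ ≤ n * c * Real.exp B := by
    have e : (b C).repr.symm.toContinuousLinearEquiv x = ∑ k, x k • b C k :=
      ((b C).sum_repr_symm x).symm
    rw [e, sum_inner]
    refine (Finset.sum_le_sum (g := fun _ => c * Real.exp B) fun k _ => ?_).trans_eq (by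
      simp [mul_assoc])
    rw [real_inner_smul_left]
    by_cases k0 : ⟪b C k, u i⟫ = 0
    · rw [k0, mul_zero]
      positivity
    have a1 : |⟪b C k, u i⟫| ≤ 1 := (abs_real_inner_le_norm _ _).trans_eq (by
      rw [(b C).orthonormal.1, hu.unit, mul_one])
    refine (le_abs_self _).trans ?_
    rw [abs_mul]
    refine (mul_le_of_le_one_right (abs_nonneg _) a1).trans ((hx k).trans
      (mul_le_mul_of_nonneg_left (Real.exp_le_exp.2 (sub_le_sub_left (Finset.sum_le_sum
        fun J _ => ?_) _)) hc.le))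
    by_cases g : gap J t = 0
    · simp [g]
    split_ifs with a2 a3 a3
    · exact le_rfl
    · exact absurd ((Submodule.mem_orthogonal' _ _).1 (hbC J (by simpa [hC] using g) k
        (not_lt.1 a3)) _ a2.2) k0
    · exact gap_nonneg _ _
    · exact le_rfl
  have h2 : ∀ I ∈ C, ⟪(ε * Real.exp (hi I)) • w I, u i⟫ ≤ ε * Real.exp (t i) -
      if i ∈ I ∧ u i ∉ lin u I then ε * γ * Real.exp (hi I) else 0 := fun I _ => by
    have a0 := mul_pos hε (Real.exp_pos (hi I))
    have a1 := mul_pos hε (Real.exp_pos (t i))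
    rw [real_inner_smul_left]
    split_ifs with a
    · linarith only [a1, hw, a, a0, mul_le_mul_of_nonneg_left ((hw I).2.2 i a.1 a.2) a0.le]
    · by_cases a2 : i ∈ I
      · rw [(Submodule.mem_orthogonal' _ _).1 (hw I).2.1 _ (by_contra fun k => a ⟨a2, k⟩)]
        linarith only [a1]
      · have a3 : hi I ≤ t i := by
          rw [gap_sum hj i]
          refine sub_le_sub_left (Finset.sum_le_sum fun J _ => ?_) _
          split_ifs with a4 a5 a5
          · exact absurd (a5 a4) a2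
          · exact le_rfl
          · exact le_rfl
          · exact gap_nonneg _ _
        have a4 : ⟪w I, u i⟫ ≤ 1 := (real_inner_le_norm (w I) (u i)).trans (by
          rw [hu.unit, mul_one]; exact (hw I).1)
        have a5 := mul_le_mul_of_nonneg_left (Real.exp_le_exp.2 a3) hε.le
        (refine le_of_not_gt fun h_nl => ?_; linarith only [h_nl, a5, hε, hε2, a0, a4, mul_pos_of_neg_of_neg (Mathlib.Tactic.Linarith.sub_neg_of_lt hε) (Mathlib.Tactic.Linarith.sub_neg_of_lt h_nl), mul_nonneg_of_nonpos_of_nonpos (Mathlib.Tactic.Linarith.sub_nonpos_of_le hε2) (le_of_lt (Mathlib.Tactic.Linarith.sub_neg_of_lt h_nl)), mul_nonneg_of_nonpos_of_nonpos (le_of_lt (Mathlib.Tactic.Linarith.sub_neg_of_lt a0)) (Mathlib.Tactic.Linarith.sub_nonpos_of_le a4)])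
  have h3 := Finset.sum_le_sum h2
  rw [← sum_inner, Finset.sum_sub_distrib, Finset.sum_const, nsmul_eq_mul] at h3
  have h4 : (C.card : ℝ) * (ε * Real.exp (t i)) ≤ 1 / 2 * Real.exp (t i) := by
    rw [← hε1, mul_assoc]
    exact mul_le_mul_of_nonneg_right (Nat.cast_le.2 C.card_le_univ) (by positivity)
  have h5 : ∀ I ∈ C, 0 ≤ if i ∈ I ∧ u i ∉ lin u I then ε * γ * Real.exp (hi I) else 0 :=
    fun I _ => by split_ifs <;> positivity
  have h6 := Real.exp_pos (t i)
  rw [inner_add_left]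
  by_cases h : (C.filter fun I => i ∈ I ∧ u i ∉ lin u I).Nonempty
  · obtain ⟨I, hI, hm⟩ := Finset.exists_max_image _ Finset.card h
    simp only [Finset.mem_filter] at hI hm
    have a1 := Finset.single_le_sum h5 hI.1
    rw [if_pos hI.2] at a1
    have a2 : B ≤ hi I := by
      refine sub_le_sub_left (Finset.sum_le_sum fun J _ => ?_) _
      by_cases g : gap J t = 0
      · simp [g]
      by_cases a3 : J ⊆ I
      · rw [if_pos a3]
        split_ifs
        exacts [gap_nonneg _ _, le_rfl]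
      have a4 := (gap_chain (Finset.mem_filter.1 hI.1).2 g).resolve_right a3
      rw [if_neg a3, if_pos ⟨a4 hI.2.1, by_contra fun k => a3 (Finset.eq_of_subset_of_card_le a4
        (hm J ⟨by simpa [hC] using g, a4 hI.2.1, k⟩)).ge⟩]
    have a3 := mul_le_mul hc1 (Real.exp_le_exp.2 a2) (Real.exp_pos _).le (by positivity)
    linarith only [h1, h3, h4, h6, a1, a3]
  · have a2 : B = t i := by
      rw [gap_sum hj i, hB]
      congr 1
      refine Finset.sum_congr rfl fun J _ => ?_
      by_cases g : gap J t = 0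
      · simp [g]
      refine if_congr ⟨fun k => k.1, fun k => ⟨k, by_contra fun k' => h ⟨J, ?_⟩⟩⟩ rfl rfl
      exact Finset.mem_filter.2 ⟨by simpa [hC] using g, k, k'⟩
    have a3 := Finset.sum_nonneg h5
    have a4 : n * c ≤ 1 / 2 := hc1.trans ((mul_le_of_le_one_right hε.le hγ1).trans hε2)
    rw [a2] at h1
    (refine le_of_not_gt fun h_nl => ?_; linarith only [h_nl, h1, h3, h4, a3, hε, hε2, h6, a4, mul_pos_of_neg_of_neg (Mathlib.Tactic.Linarith.sub_neg_of_lt hε) (Mathlib.Tactic.Linarith.sub_neg_of_lt h_nl), mul_nonneg_of_nonpos_of_nonpos (Mathlib.Tactic.Linarith.sub_nonpos_of_le hε2) (le_of_lt (Mathlib.Tactic.Linarith.sub_neg_of_lt h_nl)), mul_nonneg_of_nonpos_of_nonpos (le_of_lt (Mathlib.Tactic.Linarith.sub_neg_of_lt h6)) (Mathlib.Tactic.Linarith.sub_nonpos_of_le a4)])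

theorem G_abel (hp : 0 < p) {l d : ℕ} (hd : d ≤ l + 1) (hl : p ≤ l + 1) (g : ℝ) :
    ((l : ℝ) + 1 - p) * (if l < d then g else 0) + ∑ j ∈ Finset.range l, max ((j : ℝ) + 1 - p) 0 *
      ((if j < d then g else 0) - if j + 1 < d then g else 0) = max ((d : ℝ) - p) 0 * g := by
  rcases hd.eq_or_lt with rfl | hd
  · rw [if_pos l.lt_succ_self, Finset.sum_eq_zero fun j hj => by
      have := Finset.mem_range.1 hj
      rw [if_pos (by omega), if_pos (by omega), sub_self, mul_zero]]
    push_cast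
    rw [max_eq_left (by linarith only [hl]), add_zero]
  · rw [if_neg (by omega), mul_zero, zero_add]
    rcases d with _ | d
    · simp [hp.le]
    rw [Finset.sum_eq_single d]
    · simp
    · intro j _ hj
      rcases lt_or_gt_of_ne hj with k | k
      · rw [if_pos (by omega), if_pos (by omega), sub_self, mul_zero]
      · rw [if_neg (by omega), if_neg (by omega), sub_self, mul_zero]
    · intro h
      exact absurd (Finset.mem_range.2 (by omega)) h

/-- Upper bound in terms of the gaps. -/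
theorem G_upper (hp : 1 < p) (hpn : p < n) (hu : GFr u) (hα : ∑ i, α i = n - p) :
    ∃ K₀ : ℝ, ∀ t, GJ p u α t ≤ K₀ + p * Real.log (1 + ∑ I, gap I t) -
      ∑ I, gap I t * Gf p u α I := by
  have hn : 1 < n := by exact_mod_cast hp.trans hpn
  obtain ⟨l, hl⟩ : ∃ l, l + 1 = n := ⟨n - 1, by omega⟩
  have hl' : (n : ℝ) = l + 1 := by rw [← hl]; push_cast; rfl
  obtain ⟨S, c, hc, hS⟩ := G_box hu
  obtain ⟨K₀, hK⟩ := Coer_box hp hpn hl S
  refine ⟨K₀ - (n - p) * Real.log c, fun t => ?_⟩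
  have : Nonempty ι := by
    by_contra h
    rw [not_nonempty_iff] at h
    simp at hα
    linarith only [hpn, hα]
  obtain ⟨j, hj⟩ := Finite.exists_max t
  obtain ⟨T, hT, z, hz⟩ := hS t j hj
  let V : ℕ → ℝ := fun k => ∑ I, if k < Module.finrank ℝ (lin u I) then gap I t else 0
  have hV : Antitone V := fun k k' h => Finset.sum_le_sum fun I _ => by
    split_ifs with a b b
    · exact le_rfl
    · exact absurd (h.trans_lt a) b
    · exact gap_nonneg _ _
    · exact le_rfl
  obtain ⟨-, h1⟩ := hK T hT z _ (fun k => c * Real.exp (t j - V k))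
    (fun k => Real.log c + (t j - V k)) (GCont_bdd hu t) (fun k => by positivity)
    (fun k k' h => mul_le_mul_of_nonneg_left (Real.exp_le_exp.2 (sub_le_sub_left (hV h) _)) hc.le)
    (fun k k' h => add_le_add_right (sub_le_sub_left (hV h) _) _)
    (fun k => by rw [Real.log_mul hc.ne' (Real.exp_pos _).ne', Real.log_exp]) hz
  have h2 : (n - p) * V l + ∑ k ∈ Finset.range l, max ((k : ℝ) + 1 - p) 0 * (V k - V (k + 1)) =
      ∑ I, max ((Module.finrank ℝ (lin u I) : ℝ) - p) 0 * gap I t := by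
    simp only [V, ← Finset.sum_sub_distrib, Finset.mul_sum]
    rw [Finset.sum_comm, ← Finset.sum_add_distrib, hl']
    refine Finset.sum_congr rfl fun I _ => G_abel (by linarith only [hp]) ?_ (by linarith only [hpn, hl']) _
    simpa [hl] using (lin u I).finrank_le
  have h3 : ∑ i, α i * t i = (n - p) * t j - ∑ I, gap I t * ∑ i ∈ I, α i := by
    rw [Finset.sum_congr rfl fun i _ => by rw [gap_sum hj i]]
    simp only [mul_sub, Finset.sum_sub_distrib, ← Finset.sum_mul, hα, Finset.mul_sum]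
    rw [Finset.sum_comm]
    simp only [mul_ite, mul_zero, Finset.sum_ite_mem, Finset.univ_inter, mul_comm]
  have h4 : V 0 - V l ≤ ∑ I, gap I t := by
    have a1 : 0 ≤ V l := Finset.sum_nonneg fun I _ => by
      split_ifs
      exacts [gap_nonneg _ _, le_rfl]
    have a2 : V 0 ≤ ∑ I, gap I t := Finset.sum_le_sum fun I _ => by
      split_ifs
      exacts [le_rfl, gap_nonneg _ _]
    linarith only [a1, a2]
  have h5 := mul_le_mul_of_nonneg_left (Real.log_le_log (by linarith only [hV, hV l.zero_le])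
    (add_le_add_right h4 1)) (by linarith only [hp] : 0 ≤ p)
  have e1 : ∀ a b : ℝ, Real.log c + (t j - a) - (Real.log c + (t j - b)) = b - a :=
    fun a b => by ring
  simp only [e1] at h1
  simp only [GJ, Gf, h3, mul_sub (gap _ _), Finset.sum_sub_distrib, mul_comm (gap _ t) (max _ _)]
  linarith only [h2, h5, h1]

end Pool.Agent.Work.MP_f7e2e5_gt
end
end

-- merged part: Pool.Agent.Work.MP_f7e2e5_gt.GDesc
section
/-! Descent directions: the Palais-Smale condition. -/

open MeasureTheory Set Metric Filter Topology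
open scoped RealInnerProductSpace Pointwise ContDiff NNReal

noncomputable section

namespace Pool.Agent.Work.MP_f7e2e5_gt

variable {n : ℕ} {p : ℝ} {ι : Type} [Fintype ι] {u : ι → Eu n} {α : ι → ℝ}

/-- The gradient of the functional. -/
def Gd (p : ℝ) (u : ι → Eu n) (α t : ι → ℝ) (i : ι) : ℝ := α i - mass p u t i / cap p (PP u t)

theorem GJ_deriv (hp : 1 < p) (hpn : p < n) (hu : GFr u) (t v : ι → ℝ) :
    HasDerivWithinAt (fun s : ℝ => GJ p u α (t + s • v)) (∑ i, v i * Gd p u α t i) (Ici 0) 0 := by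
  have h1 : HasDerivAt (fun s : ℝ => ∑ i, α i * (t + s • v) i) (∑ i, α i * v i) 0 := by
    refine HasDerivAt.fun_sum fun i _ => ?_
    simpa using (((hasDerivAt_id (0 : ℝ)).mul_const (v i)).const_add (t i)).const_mul (α i)
  have h2 := h1.hasDerivWithinAt.sub ((GhasDerivWithinAt_cap_PP hp hpn hu t v).log
    (by simpa using (G_cap_pos hp hpn hu t).ne'))
  have e : ∑ i, v i * Gd p u α t i = ∑ i, α i * v i - (∑ i, v i * mass p u t i) /
      cap p (PP u (t + (0 : ℝ) • v)) := by
    rw [Finset.sum_div, ← Finset.sum_sub_distrib, zero_smul, add_zero]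
    exact Finset.sum_congr rfl fun i _ => by rw [Gd]; ring
  rw [e]
  exact h2

theorem continuous_GJ (hp : 1 < p) (hpn : p < n) (hu : GFr u) : Continuous (GJ p u α) :=
  Continuous.sub (by fun_prop) ((Gcontinuous_cap_PP hp hpn hu).log
    fun t => (G_cap_pos hp hpn hu t).ne')

theorem continuous_Gd (hp : 1 < p) (hpn : p < n) (hu : GFr u) : Continuous (Gd p u α) :=
  continuous_pi fun i => continuous_const.sub ((Gcontinuous_mass hp hpn hu i).div
    (Gcontinuous_cap_PP hp hpn hu) fun t => (G_cap_pos hp hpn hu t).ne')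

theorem G_deriv_le {F H : ℝ → ℝ} {a b : ℝ} (hF : HasDerivWithinAt F a (Ici 0) 0)
    (hH : HasDerivWithinAt H b (Ici 0) 0) (h0 : F 0 = H 0) (h : ∀ s, 0 ≤ s → F s ≤ H s) :
    a ≤ b := by
  have h1 := (hasDerivWithinAt_iff_tendsto_slope' self_notMem_Ioi).1 (hF.mono Ioi_subset_Ici_self)
  have h2 := (hasDerivWithinAt_iff_tendsto_slope' self_notMem_Ioi).1 (hH.mono Ioi_subset_Ici_self)
  refine le_of_tendsto_of_tendsto h1 h2 ?_
  filter_upwards [self_mem_nhdsWithin] with s hs
  rw [slope_def_field, slope_def_field, h0, sub_zero]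
  exact div_le_div_of_nonneg_right (sub_le_sub_right (h s (le_of_lt hs)) _) (le_of_lt hs)

theorem Gd_eq (hp : 1 < p) (hpn : p < n) (hu : GFr u) [DecidableEq ι] {t t' : ι → ℝ} {i j : ι}
    (h : ∀ s : ℝ, GJ p u α (t + s • Pi.single i 1) = GJ p u α (t' + s • Pi.single j 1)) :
    Gd p u α t i = Gd p u α t' j := by
  have h1 := GJ_deriv (α := α) hp hpn hu t (Pi.single i 1)
  have h2 := GJ_deriv (α := α) hp hpn hu t' (Pi.single j 1)
  simp only [Pi.single_apply, ite_mul, one_mul, zero_mul, Finset.sum_ite_eq', Finset.mem_univ,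
    if_true] at h1 h2
  exact le_antisymm (G_deriv_le h1 h2 (h 0) fun s _ => (h s).le)
    (G_deriv_le h2 h1 (h 0).symm fun s _ => (h s).ge)

theorem Gd_shift (hp : 1 < p) (hpn : p < n) (hu : GFr u) (hα : ∑ i, α i = n - p) (t : ι → ℝ)
    (a : ℝ) : Gd p u α (fun i => t i + a) = Gd p u α t := by
  classical
  ext i
  refine Gd_eq hp hpn hu fun s => ?_
  rw [← GJ_shift hp hpn hu hα (t + s • Pi.single i 1) a]
  congr 1
  ext k
  simp only [Pi.add_apply]
  ring

omit [Fintype ι] in
theorem PP_perm {σ : Equiv.Perm ι} {O : Eu n ≃ₗᵢ[ℝ] Eu n} (h : ∀ i, u (σ i) = O (u i))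
    (t : ι → ℝ) : O '' PP u (fun i => t (σ i)) = PP u t := by
  ext y
  obtain ⟨x, rfl⟩ := O.surjective y
  rw [O.injective.mem_set_image]
  refine ⟨fun k i => ?_, fun k i => ?_⟩
  · obtain ⟨j, rfl⟩ := σ.surjective i
    rw [h, O.inner_map_map]
    exact k j
  · have := k (σ i)
    rwa [h, O.inner_map_map] at this

theorem Gd_perm (hp : 1 < p) (hpn : p < n) (hu : GFr u) {σ : Equiv.Perm ι}
    {O : Eu n ≃ₗᵢ[ℝ] Eu n} (h : ∀ i, u (σ i) = O (u i)) (hα : ∀ i, α (σ i) = α i) {t : ι → ℝ}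
    (ht : ∀ i, t (σ i) = t i) (i : ι) : Gd p u α t (σ i) = Gd p u α t i := by
  classical
  refine Gd_eq hp hpn hu fun s => ?_
  have e : (t + s • Pi.single i 1 : ι → ℝ) =
      fun k => (t + s • Pi.single (σ i) 1 : ι → ℝ) (σ k) := by
    ext k
    simp [ht, Pi.single_apply]
  have e2 := cap_sim (by linarith : 0 < p)
    (PP u fun k => (t + s • Pi.single (σ i) 1 : ι → ℝ) (σ k)) 0 one_pos O
  have e3 : sim 0 1 O = O := by
    ext1 x
    simp [sim]
  rw [e3, PP_perm h, Real.one_rpow, one_mul] at e2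
  rw [e, GJ, GJ, e2, ← Equiv.sum_comp σ]
  simp only [hα]

theorem G_balance (hp : 1 < p) (hpn : p < n) (hu : GFr u) (t : ι → ℝ) (w : Eu n) :
    ∑ i, ⟪w, u i⟫ * Real.exp (-t i) * mass p u t i = 0 := by
  have hK := GPP_body0 hu t
  have h1 := Lam_eq hp hpn hK (isTau_tau hp hK) (X := fun _ => w) (M := 0)
    ⟨contDiff_const, fun x => by simp⟩
  have h2 : Lam p (PP u t) (fun _ => w) = 0 := by
    have : (fun s : ℝ => cap p (flow (fun _ => w) s '' PP u t)) = fun _ => cap p (PP u t) := by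
      ext s
      rw [← cap_translate (by linarith only [hp] : 0 < p) (PP u t) (s • w)]
      congr 2
      ext1 x
      rw [flow, add_comm]
    rw [Lam, this, deriv_const]
  have h3 := GCont_integral hp hpn hu t (Cont_ext_meas u fun i => ⟪w, u i⟫ * Real.exp (-t i))
  simp only [GCont_ext_apply hu] at h3
  rw [← h3, ← h2, h1]
  refine integral_congr_ae ?_
  filter_upwards [Gae_nrm_PP hp hpn hu t] with y ⟨i, e1, e2, e3⟩
  have hy : y ∈ PP u t := fun k => by
    by_cases hk : k = i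
    · rw [hk, e2]
    · exact (e3 k hk).le
  rw [e1, GCont_supp hu t hy e2, GCont_ext_apply hu, Real.exp_neg, div_eq_mul_inv]

theorem G_redundant (hp : 1 < p) (hpn : p < n) (hu : GFr u) {t : ι → ℝ} {j : ι}
    (h : ∀ y ∈ PP u t, ⟪y, u j⟫ < Real.exp (t j)) : mass p u t j = 0 := by
  have : tau p (PP u t) {y | nrm (PP u t) y = u j} = 0 := by
    refine measure_mono_null (fun y hy => ?_) (ae_iff.1 (Gae_nrm_PP hp hpn hu t))
    rintro ⟨i, e1, e2, e3⟩
    obtain rfl : i = j := hu.inj (e1.symm.trans hy)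
    refine (h y fun k => ?_).ne e2
    by_cases hk : k = i
    · rw [hk, e2]
    · exact (e3 k hk).le
  rw [mass, Measure.real, this, ENNReal.toReal_zero]

theorem G_min_pos {κ : Type} [Finite κ] (f : κ → ℝ) :
    ∃ c : ℝ, 0 < c ∧ ∀ k, 0 < f k → c ≤ f k := by
  obtain ⟨q, hq⟩ := Finite.exists_min fun q : Option κ => q.elim (1 : ℝ) fun k =>
    if 0 < f k then f k else 1
  refine ⟨_, ?_, fun k hk => (hq (some k)).trans_eq (if_pos hk)⟩
  rcases q with _ | q
  · exact one_pos
  · simp only [Option.elim]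
    split_ifs with h
    exacts [h, one_pos]

variable [DecidableEq ι]

/-- Descent at a large gap. -/
theorem G_far (hp : 1 < p) (hpn : p < n) (hu : GFr u) (hα0 : ∀ i, 0 < α i)
    (hα : ∑ i, α i = n - p) : ∃ M κ δ : ℝ, 0 < M ∧ 0 < κ ∧ 0 < δ ∧ ∀ t I, M ≤ gap I t →
      ¬ ((∀ i, i ∈ I ↔ u i ∈ lin u I) ∧ 0 ≤ Gf p u α I) →
      ∃ v : ι → ℝ, ‖v‖ ≤ 1 ∧ ∀ t', dist t' t ≤ δ → ∑ i, v i * Gd p u α t' i ≤ -κ := by
  classical
  obtain ⟨A, γ, w, hA, hγ, hγ1, hb, hw⟩ := lin_consts u
  obtain ⟨a0, ha0, ha⟩ := G_min_pos α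
  obtain ⟨a1, ha1, ha'⟩ := G_min_pos fun I => -Gf p u α I
  have hq : 0 < (n : ℝ) - p := sub_pos.2 hpn
  obtain ⟨κ, hκ, hκ1, hκ2⟩ : ∃ κ : ℝ, 0 < κ ∧ 3 * κ ≤ γ * a0 ∧ 2 * κ ≤ a1 :=
    ⟨min (γ * a0 / 3) (a1 / 2), by positivity, by linarith only [min_le_left (γ * a0 / 3) (a1 / 2)],
      by linarith only [min_le_right (γ * a0 / 3) (a1 / 2)]⟩
  obtain ⟨η, hη, hη1, hη2⟩ : ∃ η : ℝ, 0 < η ∧ η < 1 ∧ 2 * ((n - p) * η) ≤ κ := by
    refine ⟨min (1 / 2) (κ / (2 * (n - p))), by positivity,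
      (min_le_left _ _).trans_lt (by norm_num), ?_⟩
    have := (le_div_iff₀ (by positivity)).1 (min_le_right (1 / 2) (κ / (2 * (n - p))))
    linarith only [this]
  obtain ⟨M, hM, hM1⟩ : ∃ M : ℝ, 0 < M ∧ A * Real.exp (2 - M) = η := by
    refine ⟨2 + Real.log (A / η), ?_, ?_⟩
    · linarith only [hη, hη1, hA, Real.log_nonneg ((one_le_div hη).2 (by linarith : η ≤ A))]
    · rw [sub_add_cancel_left, Real.exp_neg, Real.exp_log (by positivity)]
      field_simp
  refine ⟨M, κ, η, hM, hκ, hη, fun t I hg hbad => ?_⟩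
  have hg0 : gap I t ≠ 0 := (hM.trans_le hg).ne'
  have hd : ∀ t' : ι → ℝ, dist t' t ≤ η → ∀ i, |t' i - t i| ≤ η := fun t' h i =>
    (dist_le_pi_dist t' t i).trans h
  by_cases h1 : (I.filter fun i => u i ∉ lin u I).Nonempty
  · obtain ⟨i0, hi0, hm⟩ := Finset.exists_min_image _ t h1
    simp only [Finset.mem_filter] at hi0 hm
    have b0 : ∀ i, |⟪w I, u i⟫| ≤ 1 := fun i => (abs_real_inner_le_norm _ _).trans (by
      rw [hu.unit, mul_one]; exact (hw I).1)
    have b1 : ∀ i ∉ I, Real.exp (t i0 - t i) ≤ η := fun i hi => by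
      have := Real.exp_le_exp.2 (show t i0 - t i ≤ 2 - M by linarith only [hη, hη1, hg, hg0, hi0, hi, gap_le hg0 hi0.1 hi])
      (refine le_of_not_gt fun h_nl => ?_; linarith only [h_nl, hM1, this, hA, hη, Real.exp_pos (2 - M), mul_nonneg_of_nonpos_of_nonpos (Mathlib.Tactic.Linarith.sub_nonpos_of_le hA) (le_of_lt (Mathlib.Tactic.Linarith.sub_neg_of_lt hη)), mul_nonneg_of_nonpos_of_nonpos (Mathlib.Tactic.Linarith.sub_nonpos_of_le hA) (Mathlib.Tactic.Linarith.sub_nonpos_of_le this), mul_nonneg_of_nonpos_of_nonpos (Mathlib.Tactic.Linarith.sub_nonpos_of_le hA) (le_of_lt (Mathlib.Tactic.Linarith.sub_neg_of_lt h_nl))])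
    have b2 : ∀ i, |Real.exp (t i0 - t i) * ⟪w I, u i⟫| ≤ 1 := fun i => by
      rw [abs_mul, abs_of_pos (Real.exp_pos _)]
      by_cases hi : i ∈ I
      · by_cases hi' : u i ∈ lin u I
        · rw [(Submodule.mem_orthogonal' _ _).1 (hw I).2.1 _ hi']
          simp
        · exact mul_le_one₀ (Real.exp_le_one_iff.2 (sub_nonpos.2 (hm i ⟨hi, hi'⟩))) (abs_nonneg _)
            (b0 i)
      · exact mul_le_one₀ ((b1 i hi).trans hη1.le) (abs_nonneg _) (b0 i)
    refine ⟨fun i => Real.exp (t i0 - t i) * ⟪w I, u i⟫,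
      (pi_norm_le_iff_of_nonneg zero_le_one).2 b2, fun t' ht' => ?_⟩
    have hC := G_cap_pos hp hpn hu t'
    have b3 : ∀ i, Real.exp (t i0 - t i) * ⟪w I, u i⟫ * Gd p u α t' i ≤
        η * α i - (if i = i0 then γ * a0 else 0) + 2 * η / cap p (PP u t') * mass p u t' i -
          Real.exp (t i0) / cap p (PP u t') * (⟪w I, u i⟫ * Real.exp (-t' i) * mass p u t' i) := by
      intro i
      have c1 : Real.exp (t i0 - t i) * ⟪w I, u i⟫ * α i ≤
          η * α i - if i = i0 then γ * a0 else 0 := by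
        have c0 := mul_pos hη (hα0 i)
        split_ifs with hi
        · rw [hi, sub_self, Real.exp_zero, one_mul]
          rw [hi] at c0
          (refine le_of_not_gt fun h_nl => ?_; linarith only [h_nl, hγ, ha, hα0, ha0, hw, hi0, hη, c0, hη1, (hw I).2.2 i0 hi0.1 hi0.2, ha i0 (hα0 i0), hα0 i0, mul_nonneg_of_nonpos_of_nonpos (le_of_lt (Mathlib.Tactic.Linarith.sub_neg_of_lt hγ)) (Mathlib.Tactic.Linarith.sub_nonpos_of_le (ha i0 (hα0 i0))), mul_nonneg_of_nonpos_of_nonpos (le_of_lt (Mathlib.Tactic.Linarith.sub_neg_of_lt ha0)) (Mathlib.Tactic.Linarith.sub_nonpos_of_le ((hw I).right.right i0 hi0.left hi0.right)), mul_pos_of_neg_of_neg (Mathlib.Tactic.Linarith.sub_neg_of_lt hη) (Mathlib.Tactic.Linarith.sub_neg_of_lt c0), mul_pos_of_neg_of_neg (Mathlib.Tactic.Linarith.sub_neg_of_lt hη) (Mathlib.Tactic.Linarith.sub_neg_of_lt h_nl), mul_pos_of_neg_of_neg (Mathlib.Tactic.Linarith.sub_neg_of_lt hη1) (Mathlib.Tactic.Linarith.sub_neg_of_lt c0), mul_pos_of_neg_of_neg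 (Mathlib.Tactic.Linarith.sub_neg_of_lt hη1) (Mathlib.Tactic.Linarith.sub_neg_of_lt h_nl), mul_nonneg_of_nonpos_of_nonpos (Mathlib.Tactic.Linarith.sub_nonpos_of_le ((hw I).right.right i0 hi0.left hi0.right)) (Mathlib.Tactic.Linarith.sub_nonpos_of_le (ha i0 (hα0 i0)))])
        · rw [sub_zero]
          refine mul_le_mul_of_nonneg_right ?_ (hα0 i).le
          by_cases hi : i ∈ I
          · refine (mul_nonpos_of_nonneg_of_nonpos (Real.exp_pos _).le ?_).trans hη.le
            by_cases hi' : u i ∈ lin u I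
            · exact ((Submodule.mem_orthogonal' _ _).1 (hw I).2.1 _ hi').le
            · linarith only [hγ, hw, hi, hi', (hw I).2.2 i hi hi']
          · exact (mul_le_of_le_one_right (Real.exp_pos _).le ((le_abs_self _).trans (b0 i))).trans
              (b1 i hi)
      have c2 : |Real.exp (t i - t' i) - 1| ≤ 2 * η := by
        have := hd t' ht' i
        rw [abs_sub_comm] at this
        exact (Real.abs_exp_sub_one_le (this.trans hη1.le)).trans (by linarith only [this])
      have c3 : Real.exp (t i0 - t i) * ⟪w I, u i⟫ * (Real.exp (t i - t' i) - 1) ≤ 2 * η := by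
        refine (le_abs_self _).trans ?_
        rw [abs_mul]
        exact (mul_le_of_le_one_left (abs_nonneg _) (b2 i)).trans c2
      have c4 := mul_le_mul_of_nonneg_right c3 (div_nonneg (Cont_mass_nonneg (p := p) (u := u) t' i)
        hC.le)
      have c5 : Real.exp (t i0) / cap p (PP u t') * (⟪w I, u i⟫ * Real.exp (-t' i) *
          mass p u t' i) = Real.exp (t i0 - t i) * ⟪w I, u i⟫ * Real.exp (t i - t' i) *
            (mass p u t' i / cap p (PP u t')) := by
        rw [Real.exp_sub, Real.exp_sub, Real.exp_neg]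
        field_simp
      have c6 : 2 * η / cap p (PP u t') * mass p u t' i =
          2 * η * (mass p u t' i / cap p (PP u t')) := by ring
      rw [Gd, c5, c6]
      linarith only [c1, c4]
    refine (Finset.sum_le_sum fun i _ => b3 i).trans ?_
    simp only [Finset.sum_sub_distrib, Finset.sum_add_distrib, ← Finset.mul_sum, hα,
      G_balance hp hpn hu, Gsum_mass hp hpn hu, Finset.sum_ite_eq', Finset.mem_univ, if_true]
    have : 2 * η / cap p (PP u t') * ((n - p) * cap p (PP u t')) = 2 * ((n - p) * η) := by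
      field_simp
    rw [this]
    linarith only [hκ, hκ1, hη2]
  have h2 : ∀ i ∈ I, u i ∈ lin u I := fun i hi =>
    by_contra fun k => h1 ⟨i, Finset.mem_filter.2 ⟨hi, k⟩⟩
  obtain ⟨i1, hi1, hm⟩ := Finset.exists_max_image _ t (gap_proper hg0).1
  have b1 : ∀ t' : ι → ℝ, dist t' t ≤ η → ∀ y ∈ PP u t',
      ‖(lin u I).starProjection y‖ ≤ A * Real.exp (t i1 + 1) := fun t' ht' y hy =>
    hb I y _ (Real.exp_pos _).le fun i hi _ => (hy i).trans (Real.exp_le_exp.2 (by
      linarith only [hη1, hm, hi, hd, ht', hm i hi, (abs_le.1 (hd t' ht' i)).2]))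
  have b2 : ∀ t' : ι → ℝ, dist t' t ≤ η → ∀ j ∉ I,
      A * Real.exp (t i1 + 1) ≤ η * Real.exp (t' j) := fun t' ht' j hj => by
    rw [← hM1, mul_assoc, ← Real.exp_add]
    refine mul_le_mul_of_nonneg_left (Real.exp_le_exp.2 ?_) (by linarith)
    linarith only [hη1, hg, hg0, hi1, hj, hd, ht', gap_le hg0 hi1 hj, (abs_le.1 (hd t' ht' j)).1]
  by_cases h3 : ∃ j ∉ I, u j ∈ lin u I
  · obtain ⟨j, hj, hj'⟩ := h3
    refine ⟨-Pi.single j 1, by simp [Pi.norm_single], fun t' ht' => ?_⟩
    have c1 : mass p u t' j = 0 := G_redundant hp hpn hu fun y hy => by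
      rw [← Submodule.starProjection_eq_self_iff.2 hj', ← Submodule.inner_starProjection_left_eq_right]
      refine (real_inner_le_norm _ _).trans_lt ?_
      rw [hu.unit, mul_one]
      exact ((b1 t' ht' y hy).trans (b2 t' ht' j hj)).trans_lt
        (mul_lt_of_lt_one_left (Real.exp_pos _) hη1)
    simp only [Pi.neg_apply, Pi.single_apply, neg_mul, ite_mul, one_mul, zero_mul,
      Finset.sum_neg_distrib, Finset.sum_ite_eq', Finset.mem_univ, if_true, Gd, c1, zero_div, sub_zero]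
    linarith only [hκ1, hη2, ha, hα0, hpn, hη, hγ1, ha0, ha j (hα0 j), mul_pos_of_neg_of_neg (Mathlib.Tactic.Linarith.sub_neg_of_lt hpn) (Mathlib.Tactic.Linarith.sub_neg_of_lt hη), mul_nonneg_of_nonpos_of_nonpos (Mathlib.Tactic.Linarith.sub_nonpos_of_le hγ1) (le_of_lt (Mathlib.Tactic.Linarith.sub_neg_of_lt ha0))]
  · have h4 : Gf p u α I < 0 := not_le.1 fun k =>
      hbad ⟨fun i => ⟨h2 i, fun e => by_contra fun k' => h3 ⟨i, k', e⟩⟩, k⟩
    have h5 := ha' I (neg_pos.2 h4)
    have h6 : Gf p u α I = ∑ i ∈ I, α i - (Module.finrank ℝ (lin u I) - p) := by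
      have := Finset.sum_nonneg fun i (_ : i ∈ I) => (hα0 i).le
      rw [Gf] at h4 ⊢
      rw [max_eq_left]
      by_contra k
      rw [max_eq_right (not_le.1 k).le] at h4
      linarith
    refine ⟨fun i => if i ∈ I then 1 else 0, (pi_norm_le_iff_of_nonneg zero_le_one).2 fun i => by
      split_ifs <;> simp, fun t' ht' => ?_⟩
    have c1 : HasDerivAt (fun s : ℝ => GJ p u α t' + s * Gf p u α I +
        (n - p) * Real.log (1 + (Real.exp s - 1) * η)) (Gf p u α I + (n - p) * η) 0 := by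
      have d1 := (((Real.hasDerivAt_exp 0).sub_const 1).mul_const η).const_add 1
      have d2 := (((hasDerivAt_id (0 : ℝ)).mul_const (Gf p u α I)).const_add (GJ p u α t')).add
        ((d1.log (by simp)).const_mul ((n : ℝ) - p))
      simp only [Real.exp_zero, one_mul, sub_self, zero_mul, add_zero, div_one] at d2
      exact d2
    have c2 := G_deriv_le (GJ_deriv (α := α) hp hpn hu t' fun i => if i ∈ I then 1 else 0)
      c1.hasDerivWithinAt (by simp) fun s hs => by
        have d0 := sub_nonneg.2 (Real.one_le_exp hs)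
        have d1 := mul_nonneg d0 hη.le
        have d2 := G_step hp hpn hu (lin u I) (t := t')
          (t' := t' + s • fun i => if i ∈ I then 1 else 0) hs (l := 1 + (Real.exp s - 1) * η)
          (by linarith only [hη, hη1, d1]) (b1 t' ht') fun i => by
            by_cases hi : i ∈ I
            · refine Or.inl ⟨h2 i hi, ?_⟩
              simp only [Pi.add_apply, Pi.smul_apply, hi, if_true, smul_eq_mul, mul_one, add_comm s]
              exact le_mul_of_one_le_left (Real.exp_pos _).le (by linarith only [d1])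
            · refine Or.inr ?_
              simp only [Pi.add_apply, Pi.smul_apply, hi, if_false, smul_eq_mul, mul_zero, add_zero]
              linarith only [b2, ht', hi, d0, mul_le_mul_of_nonneg_left (b2 t' ht' i hi) d0]
        have d3 : ∑ i, α i * (t' + s • fun i => if i ∈ I then (1 : ℝ) else 0) i =
            ∑ i, α i * t' i + s * ∑ i ∈ I, α i := by
          simp only [Pi.add_apply, Pi.smul_apply, smul_eq_mul, mul_add, Finset.sum_add_distrib,
            mul_ite, mul_one, mul_zero, Finset.sum_ite_mem, Finset.univ_inter, Finset.mul_sum,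
            mul_comm]
        simp only [GJ, d3, h6]
        linarith only [d2]
    linarith only [hκ, hκ2, hη2, h5, c2]

end Pool.Agent.Work.MP_f7e2e5_gt
end
end

-- merged part: Pool.Agent.Work.MP_f7e2e5_gt.Link
section
open MeasureTheory Set Metric Filter Topology
open scoped RealInnerProductSpace Pointwise ContDiff NNReal

noncomputable section

namespace Pool.Agent.Work.MP_f7e2e5_gt

variable {n : ℕ} {p : ℝ}

theorem link_zero_fin (m : ℕ) {f : (Fin m → ℝ) → Fin m → ℝ} (hf : Continuous f) (R : ℝ)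
    (h : ∀ s, R ≤ ‖s‖ → f s = s) : ∃ s, f s = 0 := by
  set r : ℝ := 2 * m * |R| + 1 with hr
  have hr0 : 0 < r := by positivity
  let a : (Fin (m + 1) → ℝ) → ℝ := fun x => max 0 (min 1 (2 * x (Fin.last m)))
  let y : (Fin (m + 1) → ℝ) → Fin m → ℝ := fun x => r • fun i => x (Fin.castSucc i)
  have ha : Continuous a := by
    simp only [a]
    fun_prop
  have hy : Continuous y := by
    simp only [y]
    fun_prop
  have hyn : ∀ x, y (-x) = -y x := by
    intro x
    ext i
    simp [y]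
  let F : (Fin (m + 1) → ℝ) → Fin m → ℝ := fun x =>
    y x + a x • (f (y x) - y x) - a (-x) • (f (-y x) + y x)
  have hF : Continuous F := by
    have h1 : Continuous fun x => f (y x) := hf.comp hy
    have h2 : Continuous fun x => f (-y x) := hf.comp hy.neg
    have h3 : Continuous fun x => a (-x) := ha.comp continuous_neg
    exact (hy.add (ha.smul (h1.sub hy))).sub (h3.smul (h2.add hy))
  have hodd : ∀ x, F (-x) = -F x := by
    intro x
    simp only [F, hyn, neg_neg]
    ext i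
    simp only [Pi.add_apply, Pi.sub_apply, Pi.smul_apply, Pi.neg_apply, smul_eq_mul]
    ring
  have key : ∀ x : Fin (m + 1) → ℝ, ∑ i, |x i| = 1 → F x = 0 → 0 ≤ x (Fin.last m) →
      ∃ s, f s = 0 := by
    intro x hx hFx h0
    have ha0 : a (-x) = 0 := by
      simp only [a, Pi.neg_apply]
      apply max_eq_left
      exact (min_le_right _ _).trans (by linarith)
    by_cases h1 : 1 / 2 ≤ x (Fin.last m)
    · have ha1 : a x = 1 := by
        simp only [a]
        rw [min_eq_left (by linarith only [h1]), max_eq_right zero_le_one]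
      refine ⟨y x, ?_⟩
      simp only [F, ha0, ha1, one_smul, zero_smul, sub_zero] at hFx
      rw [← hFx]
      abel
    · exfalso
      push Not at h1
      rw [Fin.sum_univ_castSucc, abs_of_nonneg h0] at hx
      have hs : ∑ i : Fin m, |x (Fin.castSucc i)| * r ≤ m * ‖y x‖ := by
        calc ∑ i : Fin m, |x (Fin.castSucc i)| * r ≤ ∑ _i : Fin m, ‖y x‖ := by
              refine Finset.sum_le_sum fun i _ => ?_
              have := norm_le_pi_norm (y x) i
              simp only [y, Pi.smul_apply, smul_eq_mul, Real.norm_eq_abs, abs_mul,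
                abs_of_pos hr0] at this
              simpa only [y, mul_comm] using this
          _ = m * ‖y x‖ := by simp
      rw [← Finset.sum_mul] at hs
      have hS : 1 / 2 < ∑ i : Fin m, |x (Fin.castSucc i)| := by linarith only [hx, h1]
      have h2 : r / 2 < m * ‖y x‖ := by linarith only [hs, hr0, hx, h1, Mathlib.Tactic.Linarith.mul_zero_eq (Mathlib.Tactic.Linarith.sub_neg_of_lt hr0) (sub_eq_zero_of_eq hx), mul_pos_of_neg_of_neg (Mathlib.Tactic.Linarith.sub_neg_of_lt hr0) (Mathlib.Tactic.Linarith.sub_neg_of_lt h1)]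
      have hm : (0 : ℝ) < m := by
        rcases Nat.eq_zero_or_pos m with h' | h'
        · exfalso
          have : (m : ℝ) = 0 := by exact_mod_cast h'
          rw [this] at h2
          linarith only [hr0, h2]
        · exact_mod_cast h'
      have h3 : |R| < ‖y x‖ := by
        have : (m : ℝ) * |R| < m * ‖y x‖ := by linarith only [h2]
        exact lt_of_mul_lt_mul_left this hm.le
      have h4 : f (y x) = y x := h _ ((le_abs_self R).trans h3.le)
      simp only [F, ha0, h4, sub_self, smul_zero, zero_smul, add_zero, sub_zero] at hFx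
      rw [hFx, norm_zero] at h3
      exact absurd h3 (not_lt.2 (abs_nonneg R))
  obtain ⟨x, hx, hFx⟩ := Pool.Agent.Lib.BorsukUlam.borsuk_ulam_l1 m F hF.continuousOn
    (fun x _ => hodd x)
  rcases le_total 0 (x (Fin.last m)) with h0 | h0
  · exact key x hx hFx h0
  · refine key (-x) (by simpa using hx) (by rw [hodd, hFx, neg_zero]) ?_
    simpa using h0

/-- A continuous self-map that is the identity outside a ball has a zero. -/
theorem exists_zero_of_id {κ : Type} [Fintype κ] {f : (κ → ℝ) → κ → ℝ} (hf : Continuous f) (R : ℝ)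
    (h : ∀ s, R ≤ ‖s‖ → f s = s) : ∃ s, f s = 0 := by
  let e := Fintype.equivFin κ
  let g : (Fin (Fintype.card κ) → ℝ) → Fin (Fintype.card κ) → ℝ :=
    fun s => f (s ∘ e) ∘ e.symm
  have hg : Continuous g := by
    refine continuous_pi fun i => ?_
    exact (continuous_apply (e.symm i)).comp (hf.comp (by fun_prop))
  have hid : ∀ s, R ≤ ‖s‖ → g s = s := by
    intro s hs
    have hle : ‖s‖ ≤ ‖s ∘ e‖ := by
      refine (pi_norm_le_iff_of_nonneg (norm_nonneg _)).2 fun i => ?_
      have := norm_le_pi_norm (s ∘ e) (e.symm i)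
      simpa using this
    simp only [g]
    rw [h _ (hs.trans hle)]
    ext i
    simp
  obtain ⟨s, hs⟩ := link_zero_fin _ hg R hid
  refine ⟨s ∘ e, ?_⟩
  ext i
  have := congrFun hs (e i)
  simpa [g] using this

theorem link_descent {ι : Type} [Fintype ι] (J : (ι → ℝ) → ℝ) (D : (ι → ℝ) → ι → ℝ)
    (hJ : Continuous J) (hD : Continuous D)
    (hder : ∀ t v, HasDerivWithinAt (fun s : ℝ => J (t + s • v)) (∑ i, v i * D t i) (Ici 0) 0)
    (hne : ∀ t, D t ≠ 0) {K : Set (ι → ℝ)} (hK : IsCompact K) :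
    ∃ d s0 : ℝ, 0 < d ∧ 0 < s0 ∧ ∀ t ∈ K, ∀ s ∈ Icc 0 s0, J (t - s • D t) ≤ J t - s * d := by
  let H : ℝ × (ι → ℝ) → ℝ := fun z => ∑ i, D z.2 i * D (z.2 - z.1 • D z.2) i
  have hH : Continuous H := by
    refine continuous_finsetSum _ fun i _ => ?_
    have h1 : Continuous fun z : ℝ × (ι → ℝ) => D z.2 := hD.comp continuous_snd
    have h2 : Continuous fun z : ℝ × (ι → ℝ) => D (z.2 - z.1 • D z.2) :=
      hD.comp (continuous_snd.sub (continuous_fst.smul h1))
    exact ((continuous_apply i).comp h1).mul ((continuous_apply i).comp h2)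
  have hpos : ∀ t ∈ K, (0 : ℝ) < H (0, t) := by
    intro t _
    simp only [H, zero_smul, sub_zero]
    obtain ⟨i, hi⟩ := Function.ne_iff.1 (hne t)
    exact Finset.sum_pos' (fun j _ => mul_self_nonneg _)
      ⟨i, Finset.mem_univ _, mul_self_pos.2 hi⟩
  obtain ⟨d, hd, hdK⟩ := hK.exists_forall_le' (f := fun t => H (0, t))
    (hH.comp (Continuous.prodMk_right 0)).continuousOn hpos
  have hev : ∀ᶠ s in 𝓝 (0 : ℝ), ∀ t ∈ K, d / 2 < H (s, t) := by
    refine hK.eventually_forall_of_forall_eventually (P := fun s t => d / 2 < H (s, t))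
      fun t ht => ?_
    have : d / 2 < H (0, t) := by have := hdK t ht; linarith only [hd, this]
    exact hH.continuousAt.eventually (lt_mem_nhds this)
  obtain ⟨ε, hε, hεK⟩ := Metric.eventually_nhds_iff.1 hev
  refine ⟨d / 2, ε / 2, by linarith, by linarith, fun t ht => ?_⟩
  have hc : Continuous fun s : ℝ => J (t - s • D t) := hJ.comp (by fun_prop)
  refine image_le_of_deriv_right_le_deriv_boundary (f := fun s : ℝ => J (t - s • D t))
    (f' := fun s => -H (s, t)) (B := fun s => J t - s * (d / 2)) (B' := fun _ => -(d / 2))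
    hc.continuousOn ?_ (by simp) (by fun_prop) ?_ ?_
  · intro s _
    have h1 := hder (t - s • D t) (-D t)
    have h2 : HasDerivWithinAt (fun r : ℝ => r - s) 1 (Ici s) s :=
      ((hasDerivAt_id s).sub_const s).hasDerivWithinAt
    have h3 := h1.comp_of_eq s h2 (fun r hr => by simpa using hr) (by simp)
    have e1 : ((fun r : ℝ => J (t - s • D t + r • -D t)) ∘ fun r : ℝ => r - s) =
        fun r : ℝ => J (t - r • D t) := by
      ext r
      simp only [Function.comp]
      congr 1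
      ext i
      simp only [Pi.add_apply, Pi.sub_apply, Pi.smul_apply, Pi.neg_apply, smul_eq_mul]
      ring
    have e2 : (∑ i, (-D t) i * D (t - s • D t) i) * 1 = -H (s, t) := by
      simp [H, Finset.sum_neg_distrib]
    rw [e1, e2] at h3
    exact h3
  · intro s _
    have : HasDerivAt (fun s : ℝ => J t - s * (d / 2)) (-(d / 2)) s := by
      simpa using ((hasDerivAt_id s).mul_const (d / 2)).const_sub (J t)
    exact this.hasDerivWithinAt
  · intro s hs
    have : dist s 0 < ε := by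
      rw [Real.dist_eq, sub_zero, abs_of_nonneg hs.1]
      linarith [hs.2]
    have := hεK this t ht
    show -H (s, t) ≤ -(d / 2)
    linarith only [this]

/-- Abstract linking theorem. -/
theorem linking {ι κ : Type} [Fintype ι] [Fintype κ] (J : (ι → ℝ) → ℝ) (D ρ : (ι → ℝ) → ι → ℝ)
    (Φ : (ι → ℝ) → κ → ℝ) (σ : (κ → ℝ) → ι → ℝ) (hJ : Continuous J) (hD : Continuous D)
    (hρ : Continuous ρ) (hΦ : Continuous Φ) (hσ : Continuous σ)
    (hder : ∀ t v, HasDerivWithinAt (fun s : ℝ => J (t + s • v)) (∑ i, v i * D t i) (Ici 0) 0)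
    (hρJ : ∀ t, J (ρ t) ≤ J t) (hρσ : ∀ s, ρ (σ s) = σ s) (hΦσ : ∀ s, Φ (σ s) = s) (c0 : ℝ)
    (hlow : ∀ t, Φ t = 0 → c0 ≤ J t)
    (hcomp : ∀ c : ℝ, Bornology.IsBounded {t | (∃ t', t = ρ t') ∧ c ≤ J t}) :
    ∃ t, D t = 0 := by
  by_contra hne
  push Not at hne
  obtain ⟨R, hR⟩ : ∃ R : ℝ, ∀ s, R ≤ ‖s‖ → J (σ s) < c0 - 2 := by
    have hb := ((hcomp (c0 - 2)).isCompact_closure.image hΦ).isBounded
    obtain ⟨R, hR⟩ := hb.exists_norm_le
    refine ⟨R + 1, fun s hs => ?_⟩
    by_contra hlt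
    push Not at hlt
    have : s ∈ Φ '' closure {t | (∃ t', t = ρ t') ∧ c0 - 2 ≤ J t} :=
      ⟨σ s, subset_closure ⟨⟨σ s, (hρσ s).symm⟩, hlt⟩, hΦσ s⟩
    have := hR s this
    linarith
  let A : Set ℝ := {a | ∃ γ : (κ → ℝ) → ι → ℝ, Continuous γ ∧ (∀ s, R ≤ ‖s‖ → γ s = σ s) ∧
    ∀ s, J (γ s) ≤ a}
  have hAne : A.Nonempty := by
    obtain ⟨M, hM⟩ := ((isCompact_closedBall (0 : κ → ℝ) R).image (hJ.comp hσ)).bddAbove
    refine ⟨max M (c0 - 2), σ, hσ, fun _ _ => rfl, fun s => ?_⟩
    rcases le_total R ‖s‖ with h | h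
    · exact (hR s h).le.trans (le_max_right _ _)
    · exact (hM ⟨s, by simpa using h, rfl⟩).trans (le_max_left _ _)
  have hAlow : ∀ a ∈ A, c0 ≤ a := by
    rintro a ⟨γ, hγ, hγσ, hγa⟩
    obtain ⟨s, hs⟩ := exists_zero_of_id (f := fun s => Φ (γ s)) (hΦ.comp hγ) R
      (fun s hs => by simp only [hγσ s hs, hΦσ])
    exact (hlow _ hs).trans (hγa s)
  have hAb : BddBelow A := ⟨c0, hAlow⟩
  set c := sInf A with hc
  have hc0 : c0 ≤ c := le_csInf hAne hAlow
  obtain ⟨d, s0, hd, hs0, hdesc⟩ := link_descent J D hJ hD hder hne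
    (hcomp (c - 1)).isCompact_closure
  obtain ⟨a, ⟨γ, hγ, hγσ, hγa⟩, hac⟩ := exists_lt_of_csInf_lt hAne
    (show sInf A < c + s0 * d by have := mul_pos hs0 hd; linarith)
  let χ : ℝ → ℝ := fun j => max 0 (min 1 (2 * (j - c + 1)))
  have hχ : Continuous χ := by
    simp only [χ]
    fun_prop
  have hχ0 : ∀ j, j ≤ c - 1 → χ j = 0 := fun j hj =>
    max_eq_left ((min_le_right _ _).trans (by linarith))
  have hχ1 : ∀ j, c - 1 / 2 ≤ j → χ j = 1 := fun j hj => by
    simp only [χ]
    rw [min_eq_left (by linarith only [hj]), max_eq_right zero_le_one]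
  have hχnn : ∀ j, 0 ≤ χ j := fun j => le_max_left _ _
  have hχle : ∀ j, χ j ≤ 1 := fun j => max_le zero_le_one (min_le_left _ _)
  let η : (ι → ℝ) → ι → ℝ := fun t => t - (s0 * χ (J t)) • D t
  have hη : Continuous η :=
    continuous_id.sub ((continuous_const.mul (hχ.comp hJ)).smul hD)
  have hmem : max (c - 1 / 2) (a - s0 * d) ∈ A := by
    refine ⟨fun s => η (ρ (γ s)), hη.comp (hρ.comp hγ), fun s hs => ?_, fun s => ?_⟩
    · have h1 := hR s hs
      simp only [η, hγσ s hs, hρσ]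
      rw [hχ0 _ (by linarith)]
      simp
    · set t := ρ (γ s) with ht
      have hta : J t ≤ a := (hρJ _).trans (hγa s)
      rcases le_total (J t) (c - 1) with h1 | h1
      · have : η t = t := by
          simp only [η]
          rw [hχ0 _ h1]
          simp
        show J (η t) ≤ _
        rw [this]
        exact le_trans (by linarith) (le_max_left _ _)
      · have htK : t ∈ closure {t | (∃ t', t = ρ t') ∧ c - 1 ≤ J t} :=
          subset_closure ⟨⟨γ s, ht⟩, h1⟩
        have h2 := hdesc t htK (s0 * χ (J t))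
          ⟨mul_nonneg hs0.le (hχnn _), by linarith only [hs0, hχle, hχle (J t), hχnn (J t), mul_nonneg_of_nonpos_of_nonpos (le_of_lt (Mathlib.Tactic.Linarith.sub_neg_of_lt hs0)) (Mathlib.Tactic.Linarith.sub_nonpos_of_le (hχle (J t)))]⟩
        show J (t - (s0 * χ (J t)) • D t) ≤ _
        rcases le_total (J t) (c - 1 / 2) with h3 | h3
        · have : 0 ≤ s0 * χ (J t) * d := mul_nonneg (mul_nonneg hs0.le (hχnn _)) hd.le
          exact le_trans (by linarith only [h2, h3, this]) (le_max_left _ _)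
        · refine h2.trans (le_trans ?_ (le_max_right _ _))
          rw [hχ1 _ h3]
          linarith
  have h1 : c ≤ max (c - 1 / 2) (a - s0 * d) := csInf_le hAb hmem
  have h2 : max (c - 1 / 2) (a - s0 * d) < c := max_lt (by linarith only []) (by linarith)
  linarith

end Pool.Agent.Work.MP_f7e2e5_gt
end
end

-- merged part: Pool.Agent.Work.MP_f7e2e5_gt.GTop
section
/-! A deformation lemma and two criteria for non-contractibility. -/

open Set Filter Topology Metric

noncomputable section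

namespace Pool.Agent.Work.MP_f7e2e5_gt

theorem G_line {E : Type} [NormedAddCommGroup E] [NormedSpace ℝ E] {J : E → ℝ}
    (hJ : Continuous J) {D : E → E → ℝ}
    (hder : ∀ t v, HasDerivWithinAt (fun s : ℝ => J (t + s • v)) (D t v) (Ici 0) 0) (t v : E)
    {κ δ : ℝ} (h : ∀ s ∈ Ico 0 δ, D (t + s • v) v ≤ -κ) :
    ∀ s ∈ Icc 0 δ, J (t + s • v) ≤ J t - s * κ := by
  have hc : Continuous fun s : ℝ => J (t + s • v) := hJ.comp (by fun_prop)
  refine image_le_of_deriv_right_le_deriv_boundary (f := fun s : ℝ => J (t + s • v))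
    (f' := fun s => D (t + s • v) v) (B := fun s => J t - s * κ) (B' := fun _ => -κ)
    hc.continuousOn ?_ (by simp) (by fun_prop) ?_ h
  · intro s _
    have h2 : HasDerivWithinAt (fun r : ℝ => r - s) 1 (Ici s) s :=
      ((hasDerivAt_id s).sub_const s).hasDerivWithinAt
    have h3 := (hder (t + s • v) v).comp_of_eq s h2 (fun r hr => by simpa using hr) (by simp)
    have e1 : ((fun r : ℝ => J (t + s • v + r • v)) ∘ fun r : ℝ => r - s) =
        fun r : ℝ => J (t + r • v) := by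
      ext r
      simp only [Function.comp]
      rw [add_assoc, ← add_smul, add_sub_cancel]
    rwa [e1, mul_one] at h3
  · intro s _
    have : HasDerivAt (fun s : ℝ => J t - s * κ) (-κ) s := by
      simpa using ((hasDerivAt_id s).mul_const κ).const_sub (J t)
    exact this.hasDerivWithinAt

/-- Uniform descent directions above the level `a` deform sublevel sets. -/
theorem G_push {E : Type} [NormedAddCommGroup E] [NormedSpace ℝ E] {J : E → ℝ}
    (hJ : Continuous J) {D : E → E → ℝ} (hlin : ∀ t, IsLinearMap ℝ (D t))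
    (hder : ∀ t v, HasDerivWithinAt (fun s : ℝ => J (t + s • v)) (D t v) (Ici 0) 0)
    {a κ δ : ℝ} (hκ : 0 < κ) (hδ : 0 < δ)
    (hdesc : ∀ t, a ≤ J t → ∃ v, ‖v‖ ≤ 1 ∧ ∀ t', dist t' t ≤ δ → D t' v ≤ -κ) (b : ℝ) :
    ∃ Φ : E → E, Continuous Φ ∧ (∀ t, J t ≤ a → Φ t = t) ∧ ∀ t, J t ≤ b → J (Φ t) ≤ a + 1 := by
  obtain ⟨W, hW⟩ := exists_continuous_forall_mem_convex_of_local_const (X := E) (E := E)
    (t := fun x => {v | a ≤ J x → ‖v‖ ≤ 1 ∧ ∀ t', dist t' x ≤ δ / 2 → D t' v ≤ -κ}) (fun x => by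
      intro v hv w hw α β hα hβ hs hx
      refine ⟨?_, fun t' ht' => ?_⟩
      · exact mem_closedBall_zero_iff.1 (convex_closedBall (0 : E) 1
          (mem_closedBall_zero_iff.2 (hv hx).1) (mem_closedBall_zero_iff.2 (hw hx).1) hα hβ hs)
      · rw [(hlin t').map_add, (hlin t').map_smul, (hlin t').map_smul, smul_eq_mul, smul_eq_mul]
        have h1 := mul_le_mul_of_nonneg_left ((hv hx).2 t' ht') hα
        have h2 := mul_le_mul_of_nonneg_left ((hw hx).2 t' ht') hβ
        have : α * -κ + β * -κ = -κ := by rw [← add_mul, hs, one_mul]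
        linarith only [h1, h2, this]) (fun x => by
      by_cases hx : a ≤ J x
      · obtain ⟨v, h1, h2⟩ := hdesc x hx
        refine ⟨v, ?_⟩
        filter_upwards [closedBall_mem_nhds x (half_pos hδ)] with y hy _
        refine ⟨h1, fun t' ht' => h2 t' ?_⟩
        linarith only [ht', hy, dist_triangle t' y x, mem_closedBall.1 hy]
      · refine ⟨0, ?_⟩
        filter_upwards [hJ.continuousAt.eventually_lt continuousAt_const (not_le.1 hx)] with y hy h
        exact absurd h (not_le.2 hy))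
  let χ : ℝ → ℝ := fun j => max 0 (min 1 (j - a))
  let η : E → E := fun t => t + (δ / 2 * χ (J t)) • W t
  have hη : Continuous η := by
    have := W.continuous
    simp only [η, χ]
    fun_prop
  have h0 : ∀ t, J t ≤ a → η t = t := fun t ht => by
    have : χ (J t) = 0 := max_eq_left ((min_le_right _ _).trans (by linarith))
    simp [η, this]
  have h1 : ∀ t, J (η t) ≤ J t - δ / 2 * χ (J t) * κ := fun t => by
    by_cases ht : J t ≤ a
    · have : χ (J t) = 0 := max_eq_left ((min_le_right _ _).trans (by linarith))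
      rw [h0 t ht, this]
      simp
    obtain ⟨k1, k2⟩ := hW t (not_le.1 ht).le
    refine G_line hJ hder t (W t) (δ := δ / 2) (fun s hs => k2 _ ?_) _ ⟨?_, ?_⟩
    · rw [dist_self_add_left, norm_smul, Real.norm_eq_abs, abs_of_nonneg hs.1]
      linarith only [hs, k1, hs.1, hs.2, norm_nonneg (W t), mul_nonneg_of_nonpos_of_nonpos (Mathlib.Tactic.Linarith.sub_nonpos_of_le k1) (Mathlib.Tactic.Linarith.sub_nonpos_of_le hs.left)]
    · exact mul_nonneg (half_pos hδ).le (le_max_left _ _)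
    · exact mul_le_of_le_one_right (half_pos hδ).le (max_le zero_le_one (min_le_left _ _))
  have hc : 0 < δ / 2 * κ := by positivity
  have h2 : ∀ (N : ℕ) t, J (η^[N] t) ≤ max (a + 1) (J t - N * (δ / 2 * κ)) := by
    intro N
    induction N with
    | zero => intro t; simp
    | succ N ih =>
      intro t
      rw [Function.iterate_succ_apply']
      have k1 := h1 (η^[N] t)
      by_cases k : J (η^[N] t) ≤ a + 1
      · have : 0 ≤ δ / 2 * χ (J (η^[N] t)) * κ :=
          mul_nonneg (mul_nonneg (half_pos hδ).le (le_max_left _ _)) hκ.le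
        exact le_max_of_le_left (by linarith only [k1, k, this])
      · have e : χ (J (η^[N] t)) = 1 := by
          simp only [χ]
          rw [min_eq_left (by linarith only [k]), max_eq_right zero_le_one]
        have := (le_max_iff.1 (ih t)).resolve_left k
        rw [e] at k1
        refine le_max_of_le_right ?_
        push_cast
        linarith only [k1, this]
  obtain ⟨N, hN⟩ := exists_nat_ge ((b - a) / (δ / 2 * κ))
  rw [div_le_iff₀ hc] at hN
  refine ⟨η^[N], hη.iterate N, fun t ht => Function.iterate_fixed (h0 t ht) N, fun t ht => ?_⟩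
  exact (h2 N t).trans (max_le le_rfl (by linarith only [hN, ht]))

/-- A space that links the unit sphere is not contractible. -/
theorem not_contractible {Y κ : Type} [TopologicalSpace Y] [Fintype κ] {X : Set Y}
    {a : (κ → ℝ) → Y} (ha : ContinuousOn a {s | s ≠ 0}) (haX : ∀ s, s ≠ 0 → a s ∈ X)
    {b : Y → κ → ℝ} (hb : Continuous b) (hb0 : ∀ x ∈ X, b x ≠ 0)
    (hab : ∀ s, s ≠ 0 → ∀ c : ℝ, 0 < c → b (a s) + c • s ≠ 0) : ¬ ContractibleSpace X := by
  intro hX
  obtain ⟨x0, ⟨H⟩⟩ := id_nullhomotopic X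
  classical
  let a' : (κ → ℝ) → X := fun s => if h : s ≠ 0 then ⟨a s, haX s h⟩ else x0
  have ha' : ContinuousOn a' {s | s ≠ 0} := by
    rw [Topology.IsInducing.subtypeVal.continuousOn_iff]
    exact ha.congr fun s hs => by simp only [a', Function.comp, dif_pos (show s ≠ 0 from hs)]
  let τ : (κ → ℝ) → unitInterval := fun s => projIcc 0 1 zero_le_one (2 - ‖s‖)
  have hτ : Continuous τ := continuous_projIcc.comp (by fun_prop)
  let g : (κ → ℝ) → X := fun s => if ‖s‖ ≤ 1 then x0 else H (τ s, a' s)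
  have hg : Continuous g := by
    refine continuous_if_le continuous_norm continuous_const continuousOn_const ?_ fun s hs => ?_
    · refine H.continuous.comp_continuousOn (hτ.continuousOn.prodMk (ha'.mono fun s hs e => ?_))
      rw [e, mem_ofPred_eq, norm_zero] at hs
      linarith
    · have : τ s = 1 := projIcc_of_right_le _ (by linarith)
      rw [this, H.apply_one]
      rfl
  let w : (κ → ℝ) → ℝ := fun s => max 0 (min 1 (‖s‖ - 2))
  obtain ⟨s, hs⟩ := exists_zero_of_id (f := fun s => (1 - w s) • b (g s) + w s • s)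
    (by
      have h1 : Continuous w := by simp only [w]; fun_prop
      exact ((continuous_const.sub h1).smul (hb.comp (continuous_subtype_val.comp hg))).add
        (h1.smul continuous_id)) 3 (fun s hs => by
      have : w s = 1 := by
        simp only [w]
        rw [min_eq_left (by linarith), max_eq_right zero_le_one]
      simp [this])
  by_cases h2 : ‖s‖ ≤ 2
  · have : w s = 0 := max_eq_left ((min_le_right _ _).trans (by linarith))
    simp only [this, sub_zero, one_smul, zero_smul, add_zero] at hs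
    exact hb0 _ (g s).2 hs
  · have hs0 : s ≠ 0 := fun e => h2 (by simp [e])
    have hw0 : 0 < w s := lt_max_of_lt_right (lt_min one_pos (by linarith))
    have hw1 : w s ≤ 1 := max_le zero_le_one (min_le_left _ _)
    have e : (g s : Y) = a s := by
      have : τ s = 0 := projIcc_of_le_left _ (by linarith)
      simp only [g, if_neg (show ¬ ‖s‖ ≤ 1 by linarith only [h2]), this, H.apply_zero, a', dif_pos hs0]
      rfl
    rw [e] at hs
    rcases hw1.eq_or_lt with k | k
    · rw [k] at hs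
      exact hs0 (by simpa using hs)
    · refine hab s hs0 (w s / (1 - w s)) (div_pos hw0 (by linarith)) ?_
      have h3 := congrArg (fun z => (1 - w s)⁻¹ • z) hs
      simp only [smul_add, smul_smul, smul_zero] at h3
      rwa [inv_mul_cancel₀ (by linarith), one_smul, inv_mul_eq_div] at h3

/-- Normalised gaps, pushed forward along `φ`. -/
def gapMap {κ ι : Type} [Fintype κ] [DecidableEq κ] [DecidableEq ι] (φ : Finset κ → Finset ι)
    (s : κ → ℝ) (I : Finset ι) : ℝ := (∑ S, if φ S = I then gap S s else 0) / ∑ S, gap S s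

theorem gap_total_pos {κ : Type} [Fintype κ] [DecidableEq κ] {s : κ → ℝ} {i j : κ}
    (h : s i < s j) : 0 < ∑ S, gap S s := by
  obtain ⟨m, hm⟩ := @Finite.exists_max κ ℝ _ ⟨i⟩ _ s
  have h1 := gap_sum hm i
  have h2 : (∑ I, if i ∈ I then gap I s else 0) ≤ ∑ S, gap S s :=
    Finset.sum_le_sum fun I _ => by split_ifs; exacts [le_rfl, gap_nonneg _ _]
  linarith [hm j]

theorem gapMap_ne {κ ι : Type} [Fintype κ] [DecidableEq κ] [DecidableEq ι]
    {φ : Finset κ → Finset ι} {s : κ → ℝ} {I : Finset ι} (h : gapMap φ s I ≠ 0) :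
    ∃ S, φ S = I ∧ gap S s ≠ 0 := by
  obtain ⟨S, -, hS⟩ := Finset.exists_ne_zero_of_sum_ne_zero (div_ne_zero_iff.1 h).1
  by_cases e : φ S = I
  · exact ⟨S, e, by rwa [if_pos e] at hS⟩
  · exact absurd (if_neg e) hS

theorem gapMap_sum {κ ι : Type} [Fintype κ] [DecidableEq κ] [Fintype ι] [DecidableEq ι]
    (φ : Finset κ → Finset ι) (s : κ → ℝ) (F : Finset ι → ℝ) :
    ∑ I, gapMap φ s I * F I = (∑ S, gap S s * F (φ S)) / ∑ S, gap S s := by
  simp only [gapMap, div_mul_eq_mul_div, ← Finset.sum_div, Finset.sum_mul]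
  rw [Finset.sum_comm]
  congr 1
  refine Finset.sum_congr rfl fun S _ => ?_
  simp

theorem gapMap_mem {κ ι : Type} [Fintype κ] [DecidableEq κ] [Fintype ι] [DecidableEq ι]
    {φ : Finset κ → Finset ι} (hφ : Monotone φ) {P : Finset ι → Prop} {s : κ → ℝ}
    (h0 : 0 < ∑ S, gap S s) (hP : ∀ S, gap S s ≠ 0 → P (φ S)) : gapMap φ s ∈ orderComplex P := by
  refine ⟨fun I => div_nonneg (Finset.sum_nonneg fun S _ => ?_) h0.le, ?_, fun I hI => ?_,
    fun I J hI hJ => ?_⟩
  · split_ifs
    exacts [gap_nonneg _ _, le_rfl]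
  · have := gapMap_sum φ s fun _ => 1
    simpa [h0.ne'] using this
  · obtain ⟨S, rfl, h⟩ := gapMap_ne hI
    exact hP S h
  · obtain ⟨S, rfl, h⟩ := gapMap_ne hI
    obtain ⟨S', rfl, h'⟩ := gapMap_ne hJ
    exact (gap_chain h h').imp (fun e => hφ e) fun e => hφ e

theorem gapMap_cont {κ ι : Type} [Fintype κ] [DecidableEq κ] [DecidableEq ι]
    (φ : Finset κ → Finset ι) : ContinuousOn (gapMap φ) {s | 0 < ∑ S, gap S s} := by
  refine continuousOn_pi.2 fun I => ContinuousOn.div (Continuous.continuousOn ?_)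
    (continuous_finsetSum _ fun S _ => continuous_gap S).continuousOn fun s hs => ne_of_gt hs
  refine continuous_finsetSum _ fun S _ => ?_
  split_ifs
  exacts [continuous_gap S, continuous_const]

/-- An order complex that retracts onto the boundary of a simplex is not contractible. -/
theorem not_contractible_poset {κ ι : Type} [Fintype κ] [DecidableEq κ] [Fintype ι]
    [DecidableEq ι] (j0 : κ) {P : Finset ι → Prop} {φ : Finset κ → Finset ι}
    {ψ : Finset ι → Finset κ} (hφ : Monotone φ) (hψ : Monotone ψ)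
    (h1 : ∀ S, S.Nonempty → Sᶜ.Nonempty → P (φ S))
    (h2 : ∀ I, P I → (ψ I).Nonempty ∧ (ψ I)ᶜ.Nonempty) (h3 : ∀ S, ψ (φ S) ⊆ S) :
    ¬ ContractibleSpace (orderComplex P) := by
  let e : ({j // j ≠ j0} → ℝ) → κ → ℝ := fun s j => if h : j = j0 then 0 else s ⟨j, h⟩
  have he : Continuous e := continuous_pi fun j => by
    simp only [e]
    split_ifs
    exacts [continuous_const, continuous_apply _]
  have e0 : ∀ s, e s j0 = 0 := fun s => dif_pos rfl
  have e1 : ∀ s (j : {j // j ≠ j0}), e s j = s j := fun s j => dif_neg j.2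
  have hne : ∀ s, s ≠ 0 → ∃ i j, e s i < e s j := fun s hs => by
    obtain ⟨j, hj⟩ := Function.ne_iff.1 hs
    rcases lt_or_gt_of_ne hj with h | h
    · exact ⟨j, j0, by rw [e0, e1]; exact h⟩
    · exact ⟨j0, j, by rw [e0, e1]; exact h⟩
  have hpos : ∀ s, s ≠ 0 → 0 < ∑ S, gap S (e s) := fun s hs => by
    obtain ⟨i, j, h⟩ := hne s hs
    exact gap_total_pos h
  let β : (Finset ι → ℝ) → κ → ℝ := fun x j => -∑ I, x I * if j ∈ ψ I then 1 else 0
  have hconst : ∀ y : κ → ℝ, (fun j : {j // j ≠ j0} => y j - y j0) = 0 → ∀ i j, y i = y j := by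
    intro y hy
    have : ∀ i, y i = y j0 := fun i => by
      by_cases h : i = j0
      · rw [h]
      · exact sub_eq_zero.1 (congrFun hy ⟨i, h⟩)
    exact fun i j => (this i).trans (this j).symm
  refine not_contractible (a := fun s => gapMap φ (e s)) (b := fun x j => β x j - β x j0)
    ((gapMap_cont φ).comp he.continuousOn hpos)
    (fun s hs => gapMap_mem hφ (hpos s hs) fun S h => h1 S (gap_proper h).1 (gap_proper h).2)
    (by simp only [β]; fun_prop) (fun x hx h => ?_) fun s hs c hc h => ?_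
  · obtain ⟨k0, k1, k2, k3⟩ := hx
    obtain ⟨I0, -, hI0⟩ := Finset.exists_ne_zero_of_sum_ne_zero (k1.trans_ne one_ne_zero)
    have hs : (Finset.univ.filter fun I => x I ≠ 0).Nonempty := ⟨I0, by simpa using hI0⟩
    obtain ⟨A, hA, hA'⟩ := Finset.exists_min_image _ Finset.card hs
    obtain ⟨B, hB, hB'⟩ := Finset.exists_max_image _ Finset.card hs
    simp only [Finset.mem_filter, Finset.mem_univ, true_and] at hA hA' hB hB'
    obtain ⟨i, hi⟩ := (h2 A (k2 A hA)).1
    obtain ⟨j, hj⟩ := (h2 B (k2 B hB)).2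
    have a1 : β x i = -1 := by
      rw [← k1]
      refine congrArg Neg.neg (Finset.sum_congr rfl fun I _ => ?_)
      by_cases hI : x I = 0
      · simp [hI]
      rw [if_pos, mul_one]
      rcases k3 A I hA hI with k | k
      · exact hψ k hi
      · exact Finset.eq_of_subset_of_card_le k (hA' I hI) ▸ hi
    have a2 : β x j = 0 := by
      refine neg_eq_zero.2 (Finset.sum_eq_zero fun I _ => ?_)
      by_cases hI : x I = 0
      · simp [hI]
      rw [if_neg, mul_zero]
      intro k'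
      refine Finset.mem_compl.1 hj ?_
      rcases k3 I B hI hB with k | k
      · exact hψ k k'
      · exact (Finset.eq_of_subset_of_card_le k (hB' I hI)).symm ▸ k'
    have := hconst (β x) h i j
    rw [a1, a2] at this
    norm_num at this
  · obtain ⟨i, j, hij⟩ := hne s hs
    obtain ⟨m, hm⟩ := @Finite.exists_max κ ℝ _ ⟨i⟩ _ (e s)
    have a0 := hconst (fun j => β (gapMap φ (e s)) j + c * e s j) (by
      ext j
      have := congrFun h j
      simp only [Pi.add_apply, Pi.smul_apply, smul_eq_mul, Pi.zero_apply] at this ⊢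
      rw [e0, e1]
      linarith only [this]) i m
    have a1 : β (gapMap φ (e s)) m = 0 := by
      refine neg_eq_zero.2 (Finset.sum_eq_zero fun I _ => ?_)
      by_cases hI : gapMap φ (e s) I = 0
      · simp [hI]
      obtain ⟨S, rfl, hS⟩ := gapMap_ne hI
      rw [if_neg, mul_zero]
      intro k
      obtain ⟨l, hl⟩ := (gap_proper hS).2
      exact (gap_lt hS (h3 S k) (Finset.mem_compl.1 hl)).not_ge (hm l)
    have a2 : β (gapMap φ (e s)) i ≤ 0 := by
      refine neg_nonpos.2 (Finset.sum_nonneg fun I _ => mul_nonneg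
        ((gapMap_mem hφ (P := fun _ => True) (hpos s hs) fun _ _ => trivial).1 I) ?_)
      split_ifs <;> norm_num
    have a3 := mul_lt_mul_of_pos_left (hij.trans_le (hm j)) hc
    linarith

end Pool.Agent.Work.MP_f7e2e5_gt
end
end

-- merged part: Pool.Agent.Work.MP_f7e2e5_gt.GMain
section
/-! The general existence theorem for finitely supported measures. -/

open MeasureTheory Set Metric Filter Topology
open scoped RealInnerProductSpace Pointwise ContDiff NNReal

noncomputable section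

namespace Pool.Agent.Work.MP_f7e2e5_gt

variable {n : ℕ} {p : ℝ} {ι : Type} [Fintype ι] {u : ι → Eu n} {α : ι → ℝ}

/-- Invariant vectors. -/
def GV (G : Subgroup (Equiv.Perm ι)) : Submodule ℝ (ι → ℝ) where
  carrier := {t | ∀ σ ∈ G, ∀ i, t (σ i) = t i}
  add_mem' := fun ha hb σ h i => by simp only [Pi.add_apply, ha σ h i, hb σ h i]
  zero_mem' := fun _ _ _ => rfl
  smul_mem' := fun c _ ha σ h i => by simp only [Pi.smul_apply, ha σ h i]

theorem G_average (G : Subgroup (Equiv.Perm ι)) {v : ι → ℝ} (hv : ‖v‖ ≤ 1) :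
    ∃ v' ∈ GV G, ‖v'‖ ≤ 1 ∧ ∀ d ∈ GV G, ∑ i, v' i * d i = ∑ i, v i * d i := by
  classical
  have := Fintype.ofFinite G
  have hc : (0 : ℝ) < Fintype.card G := Nat.cast_pos.2 Fintype.card_pos
  refine ⟨fun i => (∑ σ : G, v (σ.1 i)) / Fintype.card G, fun τ hτ i => ?_,
    (pi_norm_le_iff_of_nonneg zero_le_one).2 fun i => ?_, fun d hd => ?_⟩
  · exact congrArg (· / (Fintype.card G : ℝ))
      (Equiv.sum_comp (Equiv.mulRight (⟨τ, hτ⟩ : G)) fun σ : G => v (σ.1 i))
  · rw [Real.norm_eq_abs, abs_div, abs_of_pos hc, div_le_one hc]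
    refine (Finset.abs_sum_le_sum_abs _ _).trans ((Finset.sum_le_sum (g := fun _ => (1 : ℝ))
      fun σ _ => (norm_le_pi_norm v _).trans hv).trans_eq (by simp))
  · simp only [div_mul_eq_mul_div, ← Finset.sum_div, Finset.sum_mul]
    rw [Finset.sum_comm, div_eq_iff hc.ne',
      Finset.sum_congr rfl (g := fun _ => ∑ i, v i * d i) fun σ _ => ?_]
    · simp [mul_comm]
    · rw [← Equiv.sum_comp σ.1 fun i => v i * d i]
      simp only [hd σ.1 σ.2]

variable [DecidableEq ι]

/-- Uniform descent directions in the absence of invariant critical points. -/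
theorem G_ps (hp : 1 < p) (hpn : p < n) (hu : GFr u) (hα0 : ∀ i, 0 < α i)
    (hα : ∑ i, α i = n - p) {G : Subgroup (Equiv.Perm ι)}
    (hG : ∀ σ ∈ G, ∃ O : Eu n ≃ₗᵢ[ℝ] Eu n, ∀ i, u (σ i) = O (u i)) (hαG : α ∈ GV G)
    (hnd : ∀ I : Finset ι, (∀ σ ∈ G, ∀ i ∈ I, σ i ∈ I) → I.Nonempty → Iᶜ.Nonempty →
      (∀ i, i ∈ I ↔ u i ∈ lin u I) → Gf p u α I ≠ 0)
    (hne : ∀ t ∈ GV G, Gd p u α t ≠ 0) (a : ℝ) : ∃ κ δ : ℝ, 0 < κ ∧ 0 < δ ∧ ∀ t ∈ GV G,
      a ≤ GJ p u α t → ∃ v ∈ GV G, ‖v‖ ≤ 1 ∧ ∀ t' ∈ GV G, dist t' t ≤ δ →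
        ∑ i, v i * Gd p u α t' i ≤ -κ := by
  have hq : 0 < (n : ℝ) - p := sub_pos.2 hpn
  have hd : ∀ t ∈ GV G, Gd p u α t ∈ GV G := fun t ht σ hσ i => by
    obtain ⟨O, hO⟩ := hG σ hσ
    exact Gd_perm hp hpn hu hO (hαG σ hσ) (ht σ hσ) i
  obtain ⟨M, κ, δ, hM, hκ, hδ, hfar⟩ := G_far hp hpn hu hα0 hα
  obtain ⟨K₀, hK⟩ := G_upper hp hpn hu hα
  obtain ⟨κ1, hκ1, h1⟩ := G_min_pos (Gf p u α)
  obtain ⟨B, hB⟩ := Coer_log (by linarith : 0 < p) (half_pos hκ1)
  obtain ⟨R, hR⟩ : ∃ R : ℝ, ∀ t, a ≤ GJ p u α t → (∀ I, M ≤ gap I t → 0 < Gf p u α I) →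
      ∑ I, gap I t ≤ R := by
    refine ⟨(K₀ + κ1 / 2 + B + Fintype.card (Finset ι) * (M * (κ1 + (n - p))) - a) / (κ1 / 2),
      fun t ht h => (le_div_iff₀ (half_pos hκ1)).2 ?_⟩
    have b0 := Finset.sum_nonneg fun I (_ : I ∈ Finset.univ) => gap_nonneg I t
    have b1 := hB (1 + ∑ I, gap I t) (by linarith)
    have b2 : ∑ I, (κ1 * gap I t - M * (κ1 + (n - p))) ≤ ∑ I, gap I t * Gf p u α I := by
      refine Finset.sum_le_sum fun I _ => ?_
      have c0 := gap_nonneg I t
      by_cases c : M ≤ gap I t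
      · linarith only [hpn, hM, hκ1, c0, h1, h, c, h1 I (h I c), mul_pos hM (add_pos hκ1 hq), mul_pos_of_neg_of_neg (Mathlib.Tactic.Linarith.sub_neg_of_lt hpn) (Mathlib.Tactic.Linarith.sub_neg_of_lt hM), mul_pos_of_neg_of_neg (Mathlib.Tactic.Linarith.sub_neg_of_lt hM) (Mathlib.Tactic.Linarith.sub_neg_of_lt hκ1), mul_nonneg_of_nonpos_of_nonpos (Mathlib.Tactic.Linarith.sub_nonpos_of_le c0) (Mathlib.Tactic.Linarith.sub_nonpos_of_le (h1 I (h I c)))]
      · have c1 : -((n : ℝ) - p) ≤ Gf p u α I := by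
          have c2 := Finset.sum_nonneg fun i (_ : i ∈ I) => (hα0 i).le
          have c3 : (Module.finrank ℝ (lin u I) : ℝ) ≤ n := by
            simpa using (lin u I).finrank_le
          have c4 : max ((Module.finrank ℝ (lin u I) : ℝ) - p) 0 ≤ n - p :=
            max_le (by linarith only [c3]) hq.le
          rw [Gf]
          linarith only [c2, c4]
        linarith only [hpn, c, hκ1, c0, c1, not_le.1 c, mul_pos_of_neg_of_neg (Mathlib.Tactic.Linarith.sub_neg_of_lt hpn) (Mathlib.Tactic.Linarith.sub_neg_of_lt (lt_of_not_ge c)), mul_pos_of_neg_of_neg (Mathlib.Tactic.Linarith.sub_neg_of_lt hκ1) (Mathlib.Tactic.Linarith.sub_neg_of_lt (lt_of_not_ge c)), mul_nonneg_of_nonpos_of_nonpos (Mathlib.Tactic.Linarith.sub_nonpos_of_le c0) (Mathlib.Tactic.Linarith.sub_nonpos_of_le c1)]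
    rw [Finset.sum_sub_distrib, ← Finset.mul_sum, Finset.sum_const, nsmul_eq_mul,
      Finset.card_univ] at b2
    linarith only [ht, b1, b2, hK, hK t]
  have hc : IsCompact (closedBall (0 : ι → ℝ) R ∩ GV G) :=
    (isCompact_closedBall _ _).inter_right (GV G).closed_of_finiteDimensional
  have hcd := continuous_Gd (α := α) hp hpn hu
  let H : (ι → ℝ) × (ι → ℝ) → ℝ := fun z => ∑ i, Gd p u α z.2 i * Gd p u α (z.2 + z.1) i
  have hH : Continuous H := continuous_finsetSum _ fun i _ =>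
    ((continuous_apply i).comp (hcd.comp continuous_snd)).mul
      ((continuous_apply i).comp (hcd.comp (continuous_snd.add continuous_fst)))
  obtain ⟨d, hd0, hdK⟩ := hc.exists_forall_le' (f := fun t => H (0, t)) (a := 0)
    (hH.comp (Continuous.prodMk_right 0)).continuousOn fun t ht => by
      obtain ⟨i, hi⟩ := Function.ne_iff.1 (hne t ht.2)
      simp only [H, add_zero]
      exact Finset.sum_pos' (fun j _ => mul_self_nonneg _) ⟨i, Finset.mem_univ _, mul_self_pos.2 hi⟩
  have hev : ∀ᶠ s in 𝓝 (0 : ι → ℝ), ∀ t ∈ closedBall (0 : ι → ℝ) R ∩ GV G, d / 2 < H (s, t) :=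
    hc.eventually_forall_of_forall_eventually (P := fun s t => d / 2 < H (s, t)) fun t ht =>
      hH.continuousAt.eventually (lt_mem_nhds (by linarith [hdK t ht]))
  obtain ⟨ε, hε, hεK⟩ := Metric.eventually_nhds_iff.1 hev
  obtain ⟨A, hA⟩ := (hc.image hcd).isBounded.exists_pos_norm_le
  refine ⟨min κ (d / 2 / A), min δ (ε / 2), lt_min hκ (div_pos (half_pos hd0) hA.1),
    lt_min hδ (half_pos hε), fun t ht ha => ?_⟩
  by_cases h : ∀ I, M ≤ gap I t → 0 < Gf p u α I
  · have : Nonempty ι := by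
      by_contra k
      rw [not_nonempty_iff] at k
      simp at hα
      linarith
    obtain ⟨j, hj⟩ := Finite.exists_max t
    have b1 : (fun i => t i + -t j) ∈ closedBall (0 : ι → ℝ) R ∩ GV G := by
      have b0 := Finset.sum_nonneg fun I (_ : I ∈ Finset.univ) => gap_nonneg I t
      refine ⟨mem_closedBall_zero_iff.2 ((pi_norm_le_iff_of_nonneg (b0.trans (hR t ha h))).2
        fun i => ?_), fun σ hσ i => congrArg (· + -t j) (ht σ hσ i)⟩
      have b2 : (∑ I, if i ∈ I then gap I t else 0) ≤ ∑ I, gap I t :=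
        Finset.sum_le_sum fun I _ => by split_ifs; exacts [le_rfl, gap_nonneg _ _]
      rw [Real.norm_eq_abs, abs_of_nonpos (by linarith [hj i])]
      linarith [gap_sum hj i, hR t ha h]
    refine ⟨-(A⁻¹ • Gd p u α t), (GV G).neg_mem ((GV G).smul_mem _ (hd t ht)), ?_,
      fun t' _ ht' => ?_⟩
    · have := hA.2 _ ⟨_, b1, rfl⟩
      rw [Gd_shift hp hpn hu hα] at this
      rwa [norm_neg, norm_smul, norm_inv, Real.norm_of_nonneg hA.1.le, inv_mul_le_iff₀ hA.1,
        mul_one]
    · have b2 := hεK (y := t' - t) (by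
        rw [dist_zero_right, ← dist_eq_norm]
        linarith only [hε, ht', min_le_right δ (ε / 2)]) _ b1
      have e : ((fun i => t i + -t j) + (t' - t)) = fun i => t' i + -t j := by
        ext i
        simp only [Pi.add_apply, Pi.sub_apply]
        ring
      simp only [H, e, Gd_shift hp hpn hu hα] at b2
      simp only [Pi.neg_apply, Pi.smul_apply, smul_eq_mul, neg_mul, mul_assoc,
        Finset.sum_neg_distrib, ← Finset.mul_sum, neg_le_neg_iff]
      refine (min_le_right _ _).trans ?_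
      rw [div_eq_inv_mul]
      exact mul_le_mul_of_nonneg_left b2.le (inv_pos.2 hA.1).le
  · push Not at h
    obtain ⟨I, hI, hI'⟩ := h
    have g0 : gap I t ≠ 0 := (hM.trans_le hI).ne'
    obtain ⟨v, v1, v2⟩ := hfar t I hI fun k => hnd I
      (fun σ hσ i hi => gap_perm (ht σ hσ) g0 hi) (gap_proper g0).1 (gap_proper g0).2 k.1
      (le_antisymm hI' k.2)
    obtain ⟨v', w0, w1, w2⟩ := G_average G v1
    refine ⟨v', w0, w1, fun t' h1 h2 => ?_⟩
    rw [w2 _ (hd t' h1)]
    exact (v2 t' (h2.trans (min_le_left _ _))).trans (neg_le_neg (min_le_left _ _))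

/-- Without invariant critical points the order complex is contractible. -/
theorem G_core (hp : 1 < p) (hpn : p < n) (hu : GFr u) (hα0 : ∀ i, 0 < α i)
    (hα : ∑ i, α i = n - p) {G : Subgroup (Equiv.Perm ι)}
    (hG : ∀ σ ∈ G, ∃ O : Eu n ≃ₗᵢ[ℝ] Eu n, ∀ i, u (σ i) = O (u i)) (hαG : α ∈ GV G)
    (hnd : ∀ I : Finset ι, (∀ σ ∈ G, ∀ i ∈ I, σ i ∈ I) → I.Nonempty → Iᶜ.Nonempty →
      (∀ i, i ∈ I ↔ u i ∈ lin u I) → Gf p u α I ≠ 0)
    (hne : ∀ t ∈ GV G, Gd p u α t ≠ 0) {P : Finset ι → Prop}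
    (hP : ∀ I, P I ↔ (I.Nonempty ∧ Iᶜ.Nonempty) ∧ (∀ σ ∈ G, ∀ i ∈ I, σ i ∈ I) ∧ 0 < Gf p u α I) :
    ContractibleSpace (orderComplex P) := by
  classical
  obtain ⟨B, hB⟩ := G_lower hp hpn hu hα0 hα
  obtain ⟨K₀, hK⟩ := G_upper hp hpn hu hα
  obtain ⟨κ1, hκ1, h1⟩ := G_min_pos (Gf p u α)
  obtain ⟨B1, hB1⟩ := Coer_log (by linarith : 0 < p) (half_pos hκ1)
  obtain ⟨κ, δ, hκ, hδ, hps⟩ := G_ps hp hpn hu hα0 hα hG hαG hnd hne (B - 2)
  obtain ⟨R, hR0, hR⟩ : ∃ R : ℝ, 0 < R ∧ K₀ + p * Real.log (1 + R) - R * κ1 ≤ B - 2 := by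
    obtain ⟨R, hR⟩ := exists_nat_gt (max 0 ((K₀ + κ1 / 2 + B1 - B + 2) / (κ1 / 2)))
    rw [max_lt_iff, div_lt_iff₀ (half_pos hκ1)] at hR
    exact ⟨R, hR.1, by linarith only [hR, hB1, hB1 (1 + R) (by linarith)]⟩
  have hJ := continuous_GJ (α := α) hp hpn hu
  obtain ⟨b, hb⟩ := ((isCompact_closedBall (0 : ι → ℝ) R).image hJ).bddAbove
  obtain ⟨Φ, hΦ, hΦ1, hΦ2⟩ := G_push (E := GV G) (J := fun t => GJ p u α t)
    (hJ.comp continuous_subtype_val) (D := fun t v => ∑ i, v.1 i * Gd p u α t i)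
    (fun t => ⟨fun v w => by simp [add_mul, Finset.sum_add_distrib],
      fun c v => by simp [Finset.mul_sum, mul_assoc]⟩)
    (fun t v => GJ_deriv hp hpn hu t.1 v.1) hκ hδ (fun t ht => by
      obtain ⟨v, v0, v1, v2⟩ := hps t.1 t.2 ht
      exact ⟨⟨v, v0⟩, v1, fun t' h => v2 t'.1 t'.2 h⟩) b
  have hgap : ∀ x ∈ orderComplex P, ∀ I, gap I (ungap (R • x)) = R * x I := fun x hx =>
    gap_ungap (fun I => mul_nonneg hR0.le (hx.1 I))
      (fun I h => ((hP I).1 (hx.2.2.1 I (right_ne_zero_of_mul h))).1)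
      fun I J a b => hx.2.2.2 I J (right_ne_zero_of_mul a) (right_ne_zero_of_mul b)
  let e : orderComplex P → GV G := fun x => ⟨ungap (R • x.1), fun σ hσ i => by
    refine congrArg Neg.neg (Finset.sum_congr rfl fun I _ => ?_)
    by_cases h : x.1 I = 0
    · simp [h]
    have k := ((hP I).1 (x.2.2.2.1 I h)).2.1
    refine if_congr ⟨fun a => ?_, k σ hσ i⟩ rfl rfl
    simpa using k σ⁻¹ (G.inv_mem hσ) _ a⟩
  have he : Continuous e :=
    (continuous_ungap.comp (continuous_subtype_val.const_smul R)).subtype_mk _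
  have e1 : ∀ x, GJ p u α (e x) ≤ B - 2 := fun x => by
    have a1 := hK (ungap (R • x.1))
    simp only [hgap x.1 x.2, ← Finset.mul_sum, x.2.2.1, mul_one, mul_assoc] at a1
    have a2 : ∑ I, x.1 I * κ1 ≤ ∑ I, x.1 I * Gf p u α I := Finset.sum_le_sum fun I _ => by
      by_cases h : x.1 I = 0
      · simp [h]
      · exact mul_le_mul_of_nonneg_left (h1 I ((hP I).1 (x.2.2.2.1 I h)).2.2) (x.2.1 I)
    rw [← Finset.sum_mul, x.2.2.1, one_mul] at a2
    have a3 := mul_le_mul_of_nonneg_left a2 hR0.le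
    change GJ p u α (ungap (R • x.1)) ≤ _
    linarith only [hR, a1, a3]
  have e2 : ∀ x, ‖(e x : ι → ℝ)‖ ≤ R := fun x => by
    refine (pi_norm_le_iff_of_nonneg hR0.le).2 fun i => ?_
    change ‖-∑ I, if i ∈ I then (R • x.1) I else 0‖ ≤ R
    have a0 : ∀ I, 0 ≤ (R • x.1) I := fun I => mul_nonneg hR0.le (x.2.1 I)
    rw [norm_neg, Real.norm_of_nonneg (Finset.sum_nonneg fun I _ => by
      split_ifs; exacts [a0 I, le_rfl])]
    refine (Finset.sum_le_sum (g := fun I => R * x.1 I) fun I _ => ?_).trans_eq (by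
      rw [← Finset.mul_sum, x.2.2.1, mul_one])
    split_ifs
    exacts [le_rfl, a0 I]
  let g : (ι → ℝ) → Finset ι → ℝ := fun t I => if P I then gap I t else 0
  have hg : Continuous g := continuous_pi fun I => by
    simp only [g]
    split_ifs
    exacts [continuous_gap I, continuous_const]
  have g0 : ∀ t I, 0 ≤ g t I := fun t I => by
    simp only [g]
    split_ifs
    exacts [gap_nonneg _ _, le_rfl]
  have g1 : ∀ t I, g t I ≠ 0 → P I ∧ gap I t ≠ 0 := fun t I h => by
    by_cases k : P I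
    · exact ⟨k, by simpa only [g, if_pos k] using h⟩
    · exact absurd (if_neg k) h
  have g2 : ∀ t ∈ GV G, GJ p u α t < B → 0 < ∑ I, g t I := fun t ht h => by
    by_contra k
    have a1 := (Finset.sum_eq_zero_iff_of_nonneg fun I _ => g0 t I).1
      (le_antisymm (not_lt.1 k) (Finset.sum_nonneg fun I _ => g0 t I))
    refine h.not_ge (hB t fun I hI => not_lt.1 fun a => hI ?_)
    have := a1 I (Finset.mem_univ I)
    simpa only [g, if_pos ((hP I).2 ⟨gap_proper hI, fun σ hσ i hi => gap_perm (ht σ hσ) hI hi, a⟩)]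
      using this
  let T : unitInterval × orderComplex P → GV G := fun z => Φ ((1 - (z.1 : ℝ)) • e z.2)
  have hT : Continuous T := hΦ.comp ((continuous_const.sub
    (continuous_subtype_val.comp continuous_fst)).smul (he.comp continuous_snd))
  have hT0 : ∀ t : GV G, ‖(t : ι → ℝ)‖ ≤ R → 0 < ∑ I, g (Φ t) I := fun t ht =>
    g2 _ (Φ t).2 ((hΦ2 t (hb ⟨t, mem_closedBall_zero_iff.2 ht, rfl⟩)).trans_lt (by linarith))
  have hT1 : ∀ z, 0 < ∑ I, g (T z) I := fun z => hT0 _ (by
    rw [Submodule.coe_smul, norm_smul, Real.norm_of_nonneg (sub_nonneg.2 z.1.2.2)]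
    exact (mul_le_of_le_one_left (norm_nonneg _) (by linarith [z.1.2.1])).trans (e2 z.2))
  have hr : ∀ t, 0 < ∑ I, g t I → (∑ I, g t I)⁻¹ • g t ∈ orderComplex P := fun t h =>
    ⟨fun I => mul_nonneg (inv_pos.2 h).le (g0 t I), by
      simp only [Pi.smul_apply, smul_eq_mul, ← Finset.mul_sum, inv_mul_cancel₀ h.ne'],
      fun I k => (g1 t I (right_ne_zero_of_mul k)).1, fun I J a b =>
        gap_chain (g1 t I (right_ne_zero_of_mul a)).2 (g1 t J (right_ne_zero_of_mul b)).2⟩
  refine (contractible_iff_id_nullhomotopic _).2 ⟨⟨_, hr _ (hT0 0 (by simpa using hR0.le))⟩,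
    ⟨⟨⟨fun z => ⟨_, hr _ (hT1 z)⟩, Continuous.subtype_mk ?_ _⟩, fun x => ?_, fun x => ?_⟩⟩⟩
  · have a1 := hg.comp (continuous_subtype_val.comp hT)
    exact ((continuous_finsetSum _ fun I _ => (continuous_apply I).comp a1).inv₀
      fun z => (hT1 z).ne').smul a1
  · have a1 : T (0, x) = e x := by
      simp only [T, Icc.coe_zero, sub_zero, one_smul]
      exact hΦ1 _ (e1 x)
    have a2 : g (e x) = R • x.1 := by
      ext I
      simp only [g, e, hgap x.1 x.2, Pi.smul_apply, smul_eq_mul]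
      split_ifs with h
      · rfl
      · rw [by_contra fun k => h (x.2.2.2.1 I k), mul_zero]
    refine Subtype.ext ?_
    change (∑ I, g (T (0, x)) I)⁻¹ • g (T (0, x)) = x.1
    rw [a1, a2]
    simp only [Pi.smul_apply, smul_eq_mul, ← Finset.mul_sum, x.2.2.1, mul_one, smul_smul,
      inv_mul_cancel₀ hR0.ne', one_smul]
  · have a1 : T (1, x) = Φ 0 := by simp [T]
    refine Subtype.ext ?_
    change (∑ I, g (T (1, x)) I)⁻¹ • g (T (1, x)) = _
    rw [a1]
    rfl

omit [DecidableEq ι] in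
theorem lin_eq_top {I : Finset ι} (h : ∀ v : Eu n, v ≠ 0 → ∃ i ∈ I, 0 < ⟪v, u i⟫) :
    lin u I = ⊤ := by
  obtain ⟨w, -, h1, h2⟩ := gordan u I
  have h3 : w = 0 := by_contra fun k => by
    obtain ⟨i, hi, e⟩ := h w k
    by_cases a : u i ∈ lin u I
    · exact e.ne' ((Submodule.mem_orthogonal' _ _).1 h1 _ a)
    · exact e.asymm (h2 i hi a)
  rw [← Submodule.orthogonal_eq_bot_iff, Submodule.eq_bot_iff]
  intro v hv
  by_contra k
  obtain ⟨i, hi, e⟩ := h v k
  refine e.ne' ((Submodule.mem_orthogonal' _ _).1 hv _ (by_contra fun a => ?_))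
  simpa [h3] using h2 i hi a

omit [DecidableEq ι] in
theorem G_solves (hp : 1 < p) (hpn : p < n) {u : ι → Sph n} (hu : GFr fun i => (u i : Eu n))
    (t : ι → ℝ) : Solves p (PP (fun i => (u i : Eu n)) t)
      (∑ i, ENNReal.ofReal (mass p (fun i => (u i : Eu n)) t i / (p - 1)) •
        Measure.dirac (u i)) := by
  have hp1 : 0 < p - 1 := by linarith
  refine (solves_iff hp hpn (GPP_body0 hu t) (isTau_tau hp (GPP_body0 hu t)) _).2 ?_
  rw [Gmap_nrm_PP hp hpn hu]
  ext A hA
  rw [Measure.smul_apply, Measure.map_apply measurable_subtype_coe hA, Measure.finsetSum_apply,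
    Measure.finsetSum_apply, smul_eq_mul, Finset.mul_sum]
  refine Finset.sum_congr rfl fun i _ => ?_
  rw [Measure.smul_apply, Measure.smul_apply, Measure.dirac_apply' _ hA,
    Measure.dirac_apply' _ (measurable_subtype_coe hA), smul_eq_mul, smul_eq_mul, ← mul_assoc,
    ← ENNReal.ofReal_mul hp1.le, mul_div_cancel₀ _ hp1.ne']
  rfl

omit [DecidableEq ι] in
/-- The general existence theorem. -/
theorem G_main (hp : 1 < p) (hpn : p < n) {u : ι → Sph n} (hu : Function.Injective u)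
    {c : ι → ℝ} (hc : ∀ i, 0 < c i) (hh : ∀ v : Eu n, v ≠ 0 → ∃ i, 0 < ⟪v, (u i : Eu n)⟫)
    (G : Subgroup (Equiv.Perm ι)) (hG : ∀ σ ∈ G, (∀ i, c (σ i) = c i) ∧
      ∃ O : Eu n ≃ₗᵢ[ℝ] Eu n, ∀ i, (u (σ i) : Eu n) = O (u i))
    (hnd : ∀ I : Finset ι, (∀ σ ∈ G, ∀ i ∈ I, σ i ∈ I) → I ≠ Finset.univ →
      (∀ i, i ∈ I ↔ (u i : Eu n) ∈ lin (fun i => (u i : Eu n)) I) →
      (n - p) * ∑ i ∈ I, c i ≠ (Module.finrank ℝ (lin (fun i => (u i : Eu n)) I) - p) * ∑ i, c i)
    (hX : ¬ ContractibleSpace (orderComplex fun I : Finset ι => I.Nonempty ∧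
      (∀ σ ∈ G, ∀ i ∈ I, σ i ∈ I) ∧
      (Module.finrank ℝ (lin (fun i => (u i : Eu n)) I) - p) * ∑ i, c i < (n - p) * ∑ i ∈ I, c i)) :
    ∃ K, Solves p K (∑ i, ENNReal.ofReal (c i) • Measure.dirac (u i)) ∧
      ∀ σ ∈ G, ∀ O : Eu n ≃ₗᵢ[ℝ] Eu n, (∀ i, (u (σ i) : Eu n) = O (u i)) → O '' K = K := by
  classical
  have hq : 0 < (n : ℝ) - p := sub_pos.2 hpn
  have hu' : GFr fun i => (u i : Eu n) :=
    ⟨fun i => mem_sphere_zero_iff_norm.1 (u i).2, Subtype.val_injective.comp hu, hh⟩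
  have : Nonempty ι := by
    have h0 : 0 < n := by exact_mod_cast (zero_lt_one.trans hp).trans hpn
    exact ⟨(hh (EuclideanSpace.single ⟨0, h0⟩ 1) (by simp)).choose⟩
  have hs : 0 < ∑ i, c i := Finset.sum_pos (fun i _ => hc i) Finset.univ_nonempty
  have hsum : ∀ I : Finset ι, ∑ i ∈ I, (n - p) * c i / ∑ i, c i =
      ((n - p) * ∑ i ∈ I, c i) / ∑ i, c i := fun I => by
    rw [← Finset.sum_div, ← Finset.mul_sum]
  have hpos : ∀ I : Finset ι, I.Nonempty → 0 < ((n - p) * ∑ i ∈ I, c i) / ∑ i, c i := fun I h =>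
    div_pos (mul_pos hq (Finset.sum_pos (fun i _ => hc i) h)) hs
  obtain ⟨t, ht, h0⟩ : ∃ t ∈ GV G,
      Gd p (fun i => (u i : Eu n)) (fun i => (n - p) * c i / ∑ i, c i) t = 0 := by
    by_contra k
    push Not at k
    refine hX (G_core hp hpn hu' (fun i => div_pos (mul_pos hq (hc i)) hs) (by
      rw [hsum, mul_div_assoc, div_self hs.ne', mul_one]) (fun σ h => (hG σ h).2)
      (fun σ h i => by simp only [(hG σ h).1 i]) (fun I h1 h2 h3 h4 h5 => ?_) k fun I => ?_)
    · rw [Gf, hsum, sub_eq_zero] at h5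
      refine hnd I h1 (by rintro rfl; simp at h3) h4 ?_
      rcases max_choice ((Module.finrank ℝ (lin (fun i => (u i : Eu n)) I) : ℝ) - p) 0 with e | e
      · rwa [e, div_eq_iff hs.ne'] at h5
      · exact absurd (h5.trans e) (hpos I h2).ne'
    · rw [Gf, hsum, sub_pos, max_lt_iff, lt_div_iff₀ hs]
      refine ⟨fun h => ⟨⟨h.1, ?_⟩, h.2.1, h.2.2, hpos I h.1⟩, fun h => ⟨h.1.1, h.2.1, h.2.2.1⟩⟩
      rw [Finset.nonempty_iff_ne_empty, Ne, Finset.compl_eq_empty_iff]
      rintro rfl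
      have := h.2.2
      rw [lin_eq_top fun v hv => by simpa using hh v hv] at this
      simp at this
  have hC := G_cap_pos hp hpn hu' t
  have hp1 : 0 < p - 1 := by linarith only [hp]
  obtain ⟨l, hl, h1⟩ := (G_solves hp hpn hu' t).exists_smul hp hpn
    (c := (p - 1) * (∑ i, c i) / ((n - p) * cap p (PP (fun i => (u i : Eu n)) t))) (by positivity)
  refine ⟨l • PP (fun i => (u i : Eu n)) t, ?_, fun σ hσ O hO => ?_⟩
  · convert h1 using 1
    rw [Finset.smul_sum]
    refine Finset.sum_congr rfl fun i _ => ?_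
    have e := congrFun h0 i
    rw [Gd, Pi.zero_apply, sub_eq_zero, eq_div_iff hC.ne'] at e
    rw [smul_smul, ← ENNReal.ofReal_mul (by positivity), ← e]
    congr 2
    field_simp
  · have e := PP_perm (u := fun i => (u i : Eu n)) hO t
    rw [show (fun i => t (σ i)) = t from funext (ht σ hσ)] at e
    rw [image_smul_set, e]

end Pool.Agent.Work.MP_f7e2e5_gt
end
end

-- merged part: Pool.Agent.Work.MP_f7e2e5_gt.GCor
section
/-! Three criteria for the order complex to be non-contractible. -/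

open MeasureTheory Set Metric Filter Topology
open scoped RealInnerProductSpace Pointwise ContDiff NNReal

noncomputable section

namespace Pool.Agent.Work.MP_f7e2e5_gt

variable {n : ℕ} {p : ℝ} {ι : Type} [Fintype ι] {u : ι → Eu n}

theorem nc_inner {P : Finset ι → Prop} {x : Finset ι → ℝ} (hx : x ∈ orderComplex P) {w : Eu n}
    (h : ∀ I, x I ≠ 0 → I.Nonempty ∧ ∀ i ∈ I, 0 < ⟪w, u i⟫) :
    0 < ⟪w, ∑ I, x I • ∑ i ∈ I, u i⟫ := by
  obtain ⟨I0, -, hI0⟩ := Finset.exists_ne_zero_of_sum_ne_zero (hx.2.1.trans_ne one_ne_zero)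
  have k : ∀ I, x I ≠ 0 → 0 < ⟪w, x I • ∑ i ∈ I, u i⟫ := fun I hI => by
    rw [real_inner_smul_right, inner_sum]
    exact mul_pos (lt_of_le_of_ne (hx.1 I) hI.symm) (Finset.sum_pos (h I hI).2 (h I hI).1)
  rw [inner_sum]
  refine Finset.sum_pos' (fun I _ => ?_) ⟨I0, Finset.mem_univ _, k I0 hI0⟩
  by_cases e : x I = 0
  · simp [e]
  · exact (k I e).le

/-- All members of the family generate pointed cones. -/
theorem nc_pointed (hu : GFr u) {P : Finset ι → Prop} (h1 : ∀ I, P I → I.Nonempty ∧ lin u I = ⊥)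
    (h2 : ∀ (I : Finset ι) (v : Eu n), I.Nonempty → (∀ i ∈ I, 0 < ⟪v, u i⟫) → P I) :
    ¬ ContractibleSpace (orderComplex P) := by
  classical
  let τ : (Fin n → ℝ) → ι → ℝ := fun s i => -max ⟪WithLp.toLp 2 s, u i⟫ 0
  have hτ : Continuous τ := by
    simp only [τ]
    fun_prop
  have hpos : ∀ s, s ≠ 0 → 0 < ∑ S, gap S (τ s) := fun s hs => by
    have h0 : (WithLp.toLp 2 s : Eu n) ≠ 0 := fun e => hs (by simpa using e)
    obtain ⟨i, hi⟩ := hu.pos _ h0
    obtain ⟨j, hj⟩ := hu.pos _ (neg_ne_zero.2 h0)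
    rw [inner_neg_left, neg_pos] at hj
    refine gap_total_pos (i := i) (j := j) ?_
    simp only [τ, max_eq_left hi.le, max_eq_right hj.le]
    linarith
  have hg : ∀ s S, gap S (τ s) ≠ 0 → ∀ i ∈ S, 0 < ⟪WithLp.toLp 2 s, u i⟫ := fun s S h i hi => by
    obtain ⟨j, hj⟩ := (gap_proper h).2
    have a1 := gap_lt h hi (Finset.mem_compl.1 hj)
    simp only [τ, neg_lt_neg_iff] at a1
    exact (lt_max_iff.1 ((le_max_right _ _).trans_lt a1)).resolve_right (lt_irrefl _)
  have hX : ∀ s, s ≠ 0 → gapMap id (τ s) ∈ orderComplex P := fun s hs =>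
    gapMap_mem monotone_id (hpos s hs) fun S h => h2 S _ (gap_proper h).1 (hg s S h)
  refine not_contractible (a := fun s => gapMap id (τ s))
    (b := fun x => (∑ I, x I • ∑ i ∈ I, u i).ofLp) ((gapMap_cont id).comp hτ.continuousOn hpos) hX
    (by fun_prop) (fun x hx h => ?_) fun s hs c hc h => ?_
  · obtain ⟨I0, -, hI0⟩ := Finset.exists_ne_zero_of_sum_ne_zero (hx.2.1.trans_ne one_ne_zero)
    obtain ⟨B, hB, hB'⟩ := Finset.exists_max_image (Finset.univ.filter fun I => x I ≠ 0)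
      Finset.card ⟨I0, by simpa using hI0⟩
    simp only [Finset.mem_filter, Finset.mem_univ, true_and] at hB hB'
    obtain ⟨w, -, -, hw⟩ := gordan u B
    have a1 := nc_inner (u := u) hx (w := -w) fun I hI => ⟨(h1 I (hx.2.2.1 I hI)).1, fun i hi => by
      rw [inner_neg_left, neg_pos]
      refine hw i ?_ ?_
      · rcases hx.2.2.2 I B hI hB with k | k
        · exact k hi
        · exact (Finset.eq_of_subset_of_card_le k (hB' I hI)).symm ▸ hi
      · rw [(h1 B (hx.2.2.1 B hB)).2, Submodule.mem_bot]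
        intro e
        simpa [e] using hu.unit i⟩
    rw [show (∑ I, x I • ∑ i ∈ I, u i) = 0 from WithLp.ofLp_injective 2 h] at a1
    simp at a1
  · have a1 := nc_inner (u := u) (hX s hs) (w := WithLp.toLp 2 s) fun I hI => by
      obtain ⟨S, rfl, hS⟩ := gapMap_ne hI
      exact ⟨(gap_proper hS).1, hg s S hS⟩
    have a2 : (∑ I, gapMap id (τ s) I • ∑ i ∈ I, u i) = -(c • WithLp.toLp 2 s) := by
      ext k
      simpa using eq_neg_of_add_eq_zero_left (congrFun h k)
    rw [a2, inner_neg_right, real_inner_smul_right] at a1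
    linarith [mul_nonneg hc.le (real_inner_self_nonneg (x := (WithLp.toLp 2 s : Eu n)))]

/-- The family of normals contains a basis and its negative. -/
theorem nc_basis (hn : 0 < n) (hu : ∀ i, u i ≠ 0) (b : Module.Basis (Fin n) ℝ (Eu n))
    (hb : ∀ j, ∃ i, u i = b j) (hb' : ∀ j, ∃ i, u i = -b j) {P : Finset ι → Prop}
    (h1 : ∀ I, P I → I.Nonempty ∧ lin u I ≠ ⊤)
    (h2 : ∀ (S : Finset (Fin n)) (I : Finset ι), S ≠ Finset.univ → I.Nonempty →
      lin u I ≤ Submodule.span ℝ (b '' S) → (∀ i, u i ∈ Submodule.span ℝ (b '' S) → i ∈ I) → P I) :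
    ¬ ContractibleSpace (orderComplex P) := by
  classical
  let φ : Finset (Fin n × Bool) → Finset ι := fun S => Finset.univ.filter fun i => ∀ j,
    (0 < b.repr (u i) j → (j, true) ∈ S) ∧ (b.repr (u i) j < 0 → (j, false) ∈ S)
  let ψ : Finset ι → Finset (Fin n × Bool) := fun I => Finset.univ.filter fun q => ∃ i ∈ I,
    (if q.2 then 0 < b.repr (u i) q.1 else b.repr (u i) q.1 < 0) ∧ ∀ k, q.1 < k → b.repr (u i) k = 0
  refine not_contractible_poset (⟨0, hn⟩, true) (φ := φ) (ψ := ψ) (fun S S' h i hi => ?_)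
    (fun I I' h q hq => ?_) (fun S hS hS' => ?_) (fun I hI => ⟨?_, ?_⟩) fun S q hq => ?_
  · simp only [φ, Finset.mem_filter, Finset.mem_univ, true_and] at hi ⊢
    exact fun j => ⟨fun k => h ((hi j).1 k), fun k => h ((hi j).2 k)⟩
  · simp only [ψ, Finset.mem_filter, Finset.mem_univ, true_and] at hq ⊢
    obtain ⟨i, a1, a2⟩ := hq
    exact ⟨i, h a1, a2⟩
  · refine h2 (Finset.univ.filter fun j => (j, true) ∈ S ∧ (j, false) ∈ S) _ (fun e => ?_) ?_
      (fun x hx => ?_) fun i hi => ?_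
    · obtain ⟨⟨j, s⟩, hq⟩ := hS'
      have := (Finset.mem_filter.1 (e.ge (Finset.mem_univ j))).2
      cases s
      exacts [Finset.mem_compl.1 hq this.2, Finset.mem_compl.1 hq this.1]
    · obtain ⟨⟨j, s⟩, hq⟩ := hS
      cases s
      · obtain ⟨i, hi⟩ := hb' j
        refine ⟨i, Finset.mem_filter.2 ⟨Finset.mem_univ _, fun k => ?_⟩⟩
        by_cases e : j = k
        · subst e
          simp [hi, hq]
        · simp [hi, e]
      · obtain ⟨i, hi⟩ := hb j
        refine ⟨i, Finset.mem_filter.2 ⟨Finset.mem_univ _, fun k => ?_⟩⟩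
        by_cases e : j = k
        · subst e
          simp [hi, hq]
        · simp [hi, e]
    · have key : ∀ y ∈ PointedCone.hull ℝ (u '' (φ S : Set ι)), ∀ j,
          ((j, true) ∉ S → b.repr y j ≤ 0) ∧ ((j, false) ∉ S → 0 ≤ b.repr y j) := by
        intro y hy j
        obtain ⟨a, ha, rfl⟩ := mem_cone.1 hy
        simp only [map_sum, map_smul, Finsupp.finsetSum_apply, Finsupp.smul_apply, smul_eq_mul]
        exact ⟨fun k => Finset.sum_nonpos fun i hi => mul_nonpos_of_nonneg_of_nonpos (ha i)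
          (not_lt.1 fun e => k (((Finset.mem_filter.1 hi).2 j).1 e)),
          fun k => Finset.sum_nonneg fun i hi => mul_nonneg (ha i)
          (not_lt.1 fun e => k (((Finset.mem_filter.1 hi).2 j).2 e))⟩
      refine b.mem_span_image.2 fun j hj => ?_
      have a1 := key x hx.1 j
      have a2 := key (-x) hx.2 j
      have a3 := Finsupp.mem_support_iff.1 hj
      simp only [map_neg, Finsupp.neg_apply, neg_nonpos, neg_nonneg] at a2
      simp only [Finset.coe_filter, Finset.mem_univ, true_and, mem_ofPred_eq]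
      exact ⟨by_contra fun k => a3 ((a1.1 k).antisymm (a2.1 k)),
        by_contra fun k => a3 ((a2.2 k).antisymm (a1.2 k))⟩
    · have a1 : ∀ j, b.repr (u i) j ≠ 0 → (j, true) ∈ S ∧ (j, false) ∈ S := fun j hj =>
        (Finset.mem_filter.1 (b.mem_span_image.1 hi (Finsupp.mem_support_iff.2 hj))).2
      exact Finset.mem_filter.2 ⟨Finset.mem_univ _, fun j =>
        ⟨fun k => (a1 j k.ne').1, fun k => (a1 j k.ne).2⟩⟩
  · obtain ⟨i, hi⟩ := (h1 I hI).1
    obtain ⟨j, hj, hm⟩ := (b.repr (u i)).support.exists_max_image id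
      (Finsupp.support_nonempty_iff.2 (by simpa using hu i))
    have a1 : ∀ k, j < k → b.repr (u i) k = 0 := fun k hk =>
      by_contra fun e => (hm k (Finsupp.mem_support_iff.2 e)).not_gt hk
    rcases lt_or_gt_of_ne (Finsupp.mem_support_iff.1 hj) with e | e
    · exact ⟨(j, false), Finset.mem_filter.2 ⟨Finset.mem_univ _, i, hi, by simpa using e, a1⟩⟩
    · exact ⟨(j, true), Finset.mem_filter.2 ⟨Finset.mem_univ _, i, hi, by simpa using e, a1⟩⟩
  · rw [Finset.nonempty_iff_ne_empty, Ne, Finset.compl_eq_empty_iff]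
    refine fun e => (h1 I hI).2 (lin_eq_top fun v hv => ?_)
    have a0 : (Finset.univ.filter fun j => ⟪v, b j⟫ ≠ 0).Nonempty := by
      by_contra k
      refine hv (inner_self_eq_zero (𝕜 := ℝ).1 ?_)
      nth_rewrite 2 [← b.sum_repr v]
      rw [inner_sum]
      refine Finset.sum_eq_zero fun j _ => ?_
      rw [real_inner_smul_right, by_contra fun e : ⟪v, b j⟫ ≠ 0 => k ⟨j, by simpa using e⟩,
        mul_zero]
    obtain ⟨j, hj, hm⟩ := Finset.exists_min_image _ id a0
    simp only [Finset.mem_filter, Finset.mem_univ, true_and, id] at hj hm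
    have a1 : ∀ i, (∀ k, j < k → b.repr (u i) k = 0) → ⟪v, u i⟫ = b.repr (u i) j * ⟪v, b j⟫ := by
      intro i hi
      nth_rewrite 1 [← b.sum_repr (u i)]
      rw [inner_sum, Finset.sum_eq_single j, real_inner_smul_right]
      · intro k _ hk
        rw [real_inner_smul_right]
        rcases lt_or_gt_of_ne hk with a | a
        · rw [by_contra fun e : ⟪v, b k⟫ ≠ 0 => (hm k e).not_gt a, mul_zero]
        · rw [hi k a, zero_mul]
      · simp
    rcases lt_or_gt_of_ne hj with a | a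
    · obtain ⟨i, hi, a2, a3⟩ := (Finset.mem_filter.1 (e.ge (Finset.mem_univ (j, false)))).2
      exact ⟨i, hi, a1 i a3 ▸ mul_pos_of_neg_of_neg (by simpa using a2) a⟩
    · obtain ⟨i, hi, a2, a3⟩ := (Finset.mem_filter.1 (e.ge (Finset.mem_univ (j, true)))).2
      exact ⟨i, hi, a1 i a3 ▸ mul_pos (by simpa using a2) a⟩
  · obtain ⟨j, s⟩ := q
    obtain ⟨i, hi, a2, -⟩ := (Finset.mem_filter.1 hq).2
    cases s
    · exact ((Finset.mem_filter.1 hi).2 j).2 (by simpa using a2)
    · exact ((Finset.mem_filter.1 hi).2 j).1 (by simpa using a2)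

/-- A flag of atoms that is a maximal chain. -/
theorem nc_flag (hu : ∀ i, u i ≠ 0) (b : Module.Basis (Fin n) ℝ (Eu n)) (hb : ∀ j, ∃ i, u i = b j)
    (k : Fin n) {P : Finset ι → Prop}
    (h1 : ∀ I, P I → I.Nonempty ∧ (Submodule.span ℝ (b '' Iio k) ≤
      Submodule.span ℝ (u '' (I : Set ι)) → ∀ i ∈ I, u i ∈ Submodule.span ℝ (b '' Iio k)))
    (h2 : ∀ (S : Finset (Fin n)) (I : Finset ι), (∀ j ∈ S, j ≤ k) → S.card ≤ k → I.Nonempty →
      (∀ i, i ∈ I ↔ u i ∈ Submodule.span ℝ (b '' S)) → P I) :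
    ¬ ContractibleSpace (orderComplex P) := by
  classical
  let φ : Finset (Iic k) → Finset ι := fun S => Finset.univ.filter fun i =>
    u i ∈ Submodule.span ℝ (b '' (S.image Subtype.val : Finset (Fin n)))
  let ψ : Finset ι → Finset (Iic k) := fun I => Finset.univ.filter fun j => ∃ i ∈ I,
    u i ∉ Submodule.span ℝ (b '' Iio j.1) ∧ (u i ∈ Submodule.span ℝ (b '' Iic j.1) ∨ j.1 = k)
  refine not_contractible_poset ⟨k, self_mem_Iic⟩ (φ := φ) (ψ := ψ) (fun S S' h i hi => ?_)
    (fun I I' h q hq => ?_) (fun S hS hS' => ?_) (fun I hI => ⟨?_, ?_⟩) fun S q hq => ?_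
  · exact Finset.mem_filter.2 ⟨Finset.mem_univ _, Submodule.span_mono (image_mono
      (Finset.coe_subset.2 (Finset.image_subset_image h))) (Finset.mem_filter.1 hi).2⟩
  · obtain ⟨i, a1, a2⟩ := (Finset.mem_filter.1 hq).2
    exact Finset.mem_filter.2 ⟨Finset.mem_univ _, i, h a1, a2⟩
  · refine h2 (S.image Subtype.val) _ (fun j hj => ?_) ?_ ?_ fun i => by simp [φ]
    · obtain ⟨j, -, rfl⟩ := Finset.mem_image.1 hj
      exact j.2
    · have a1 := Finset.card_compl S
      have a2 := Finset.card_pos.2 hS'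
      have a3 := Finset.card_image_le (s := S) (f := Subtype.val)
      have a4 : Fintype.card (Iic k) = k + 1 := by simp
      omega
    · obtain ⟨j, hj⟩ := hS
      obtain ⟨i, hi⟩ := hb j.1
      exact ⟨i, Finset.mem_filter.2 ⟨Finset.mem_univ _, Submodule.subset_span
        ⟨j.1, Finset.mem_coe.2 (Finset.mem_image_of_mem _ hj), hi.symm⟩⟩⟩
  · obtain ⟨i, hi⟩ := (h1 I hI).1
    obtain ⟨j, hj, hm⟩ := (b.repr (u i)).support.exists_max_image id
      (Finsupp.support_nonempty_iff.2 (by simpa using hu i))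
    refine ⟨⟨min j k, mem_Iic.2 (min_le_right _ _)⟩, Finset.mem_filter.2 ⟨Finset.mem_univ _, i, hi,
      fun e => (min_le_left j k).not_gt (b.mem_span_image.1 e hj), ?_⟩⟩
    rcases le_total j k with a | a
    · exact Or.inl (b.mem_span_image.2 fun l hl => le_min (hm l hl) ((hm l hl).trans a))
    · exact Or.inr (min_eq_right a)
  · rw [Finset.nonempty_iff_ne_empty, Ne, Finset.compl_eq_empty_iff]
    intro e
    have a1 : ∀ m : ℕ, ∀ j : Fin n, j < k → (j : ℕ) = m →
        b j ∈ Submodule.span ℝ (u '' (I : Set ι)) := by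
      intro m
      induction m using Nat.strong_induction_on with
      | _ m ih =>
        intro j hj hjm
        obtain ⟨i, hi, a2, a3⟩ := (Finset.mem_filter.1 (e.ge (Finset.mem_univ ⟨j, hj.le⟩))).2
        have a4 := a3.resolve_right hj.ne
        rw [← Iio_insert, image_insert_eq] at a4
        refine Submodule.span_le.2 (insert_subset (Submodule.subset_span (mem_image_of_mem u hi)) ?_)
          (mem_span_insert_exchange a4 a2)
        rintro _ ⟨l, hl, rfl⟩
        exact ih l (hjm ▸ hl) l (lt_trans hl hj) rfl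
    obtain ⟨i, hi, a2, -⟩ := (Finset.mem_filter.1 (e.ge (Finset.mem_univ ⟨k, self_mem_Iic⟩))).2
    exact a2 ((h1 I hI).2 (Submodule.span_le.2 (by
      rintro _ ⟨l, hl, rfl⟩
      exact a1 l l hl rfl)) i hi)
  · obtain ⟨i, hi, a2, a3⟩ := (Finset.mem_filter.1 hq).2
    have a4 := b.mem_span_image.1 (Finset.mem_filter.1 hi).2
    by_contra a5
    refine a2 (b.mem_span_image.2 fun l hl => ?_)
    obtain ⟨l', a6, rfl⟩ := Finset.mem_image.1 (a4 hl)
    refine lt_of_le_of_ne ?_ fun e => a5 ((Subtype.ext e : l' = q) ▸ a6)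
    rcases a3 with a3 | a3
    · exact b.mem_span_image.1 a3 hl
    · exact le_of_le_of_eq l'.2 a3.symm

omit [Fintype ι] in
theorem lin_empty : lin u ∅ = ⊥ := by
  rw [Submodule.eq_bot_iff]
  intro x hx
  obtain ⟨a, -, h⟩ := mem_cone.1 hx.1
  simpa using h.symm

omit [Fintype ι] in
theorem lin_symm {I : Finset ι} (h : ∀ i ∈ I, ∃ j ∈ I, u j = -u i) :
    lin u I = Submodule.span ℝ (u '' (I : Set ι)) := by
  refine le_antisymm (fun x hx => PointedCone.hull_le_span ℝ _ hx.1) (Submodule.span_le.2 ?_)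
  rintro _ ⟨i, hi, rfl⟩
  obtain ⟨j, hj, e⟩ := h i hi
  exact ⟨Submodule.subset_span ⟨i, hi, rfl⟩, Submodule.subset_span ⟨j, hj, e⟩⟩

theorem G_card (b : Module.Basis (Fin n) ℝ (Eu n)) (S : Finset (Fin n)) :
    Module.finrank ℝ (Submodule.span ℝ (b '' S)) ≤ S.card := by
  classical
  have := (finrank_span_finset_le_card (R := ℝ) (S.image b)).trans Finset.card_image_le
  rwa [Set.finrank, Finset.coe_image] at this

/-- The general existence theorem, with the non-degeneracy required above dimension `p` only. -/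
theorem G_main' (hp : 1 < p) (hpn : p < n) {u : ι → Sph n} (hu : Function.Injective u)
    {c : ι → ℝ} (hc : ∀ i, 0 < c i) (hh : ∀ v : Eu n, v ≠ 0 → ∃ i, 0 < ⟪v, (u i : Eu n)⟫)
    (G : Subgroup (Equiv.Perm ι)) (hG : ∀ σ ∈ G, (∀ i, c (σ i) = c i) ∧
      ∃ O : Eu n ≃ₗᵢ[ℝ] Eu n, ∀ i, (u (σ i) : Eu n) = O (u i))
    (hnd : ∀ I : Finset ι, (∀ σ ∈ G, ∀ i ∈ I, σ i ∈ I) → I ≠ Finset.univ →
      (∀ i, i ∈ I ↔ (u i : Eu n) ∈ lin (fun i => (u i : Eu n)) I) →
      p < Module.finrank ℝ (lin (fun i => (u i : Eu n)) I) →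
      (n - p) * ∑ i ∈ I, c i ≠ (Module.finrank ℝ (lin (fun i => (u i : Eu n)) I) - p) * ∑ i, c i)
    (hX : ¬ ContractibleSpace (orderComplex fun I : Finset ι => I.Nonempty ∧
      (∀ σ ∈ G, ∀ i ∈ I, σ i ∈ I) ∧
      (Module.finrank ℝ (lin (fun i => (u i : Eu n)) I) - p) * ∑ i, c i < (n - p) * ∑ i ∈ I, c i)) :
    ∃ K, Solves p K (∑ i, ENNReal.ofReal (c i) • Measure.dirac (u i)) ∧
      ∀ σ ∈ G, ∀ O : Eu n ≃ₗᵢ[ℝ] Eu n, (∀ i, (u (σ i) : Eu n) = O (u i)) → O '' K = K := by
  classical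
  refine G_main hp hpn hu hc hh G hG (fun I h1 h2 h3 => ?_) hX
  by_cases h : p < Module.finrank ℝ (lin (fun i => (u i : Eu n)) I)
  · exact hnd I h1 h2 h3 h
  obtain ⟨j, -⟩ := Finset.exists_mem_notMem_of_card_lt_card
    (Finset.card_lt_card (Finset.ssubset_univ_iff.2 h2))
  have hs : 0 < ∑ i, c i := Finset.sum_pos (fun i _ => hc i) ⟨j, Finset.mem_univ j⟩
  rcases I.eq_empty_or_nonempty with rfl | hI
  · rw [lin_empty]
    simp only [Finset.sum_empty, mul_zero, finrank_bot, Nat.cast_zero, zero_sub]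
    nlinarith
  · have := mul_pos (sub_pos.2 hpn) (Finset.sum_pos (fun i _ => hc i) hI)
    nlinarith [not_lt.1 h]

theorem G_heavy_ne_top (hpn : p < n) {c : ι → ℝ} (hc : ∀ i, 0 < c i) {I : Finset ι}
    {L : Submodule ℝ (Eu n)}
    (h : (Module.finrank ℝ L - p) * ∑ i, c i < (n - p) * ∑ i ∈ I, c i) : L ≠ ⊤ := by
  rintro rfl
  have := mul_le_mul_of_nonneg_left (Finset.sum_le_univ_sum_of_nonneg (s := I)
    fun i => (hc i).le) (sub_pos.2 hpn).le
  simp only [finrank_top, finrank_euclideanSpace_fin] at h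
  linarith

theorem G_heavy_of (hpn : p < n) {c : ι → ℝ} (hc : ∀ i, 0 < c i) {I J : Finset ι} {d e : ℕ}
    (hI : I.Nonempty) (hJ : J ⊆ I) (hd : d ≤ e)
    (h : p < e → (e - p) * ∑ i, c i < (n - p) * ∑ i ∈ J, c i) :
    (d - p) * ∑ i, c i < (n - p) * ∑ i ∈ I, c i := by
  have h0 := Finset.sum_nonneg fun i (_ : i ∈ Finset.univ) => (hc i).le
  have h1 : (d : ℝ) ≤ e := Nat.cast_le.2 hd
  refine (mul_le_mul_of_nonneg_right (sub_le_sub_right h1 p) h0).trans_lt ?_
  by_cases k : p < e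
  · exact (h k).trans_le (mul_le_mul_of_nonneg_left
      (Finset.sum_le_sum_of_subset_of_nonneg hJ fun i _ _ => (hc i).le) (sub_pos.2 hpn).le)
  · exact (mul_nonpos_of_nonpos_of_nonneg (by linarith only [k, not_lt.1 k]) h0).trans_lt
      (mul_pos (sub_pos.2 hpn) (Finset.sum_pos (fun i _ => hc i) hI))

open Classical in
/-- Supports containing a basis and its negative. -/
theorem G_basis (hp : 1 < p) (hpn : p < n) {u : ι → Sph n} (hu : Function.Injective u)
    {c : ι → ℝ} (hc : ∀ i, 0 < c i) (b : Module.Basis (Fin n) ℝ (Eu n))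
    (hb : ∀ j, ∃ i, (u i : Eu n) = b j) (hb' : ∀ j, ∃ i, (u i : Eu n) = -b j)
    (hnd : ∀ I : Finset ι, I ≠ Finset.univ →
      (∀ i, i ∈ I ↔ (u i : Eu n) ∈ lin (fun i => (u i : Eu n)) I) →
      p < Module.finrank ℝ (lin (fun i => (u i : Eu n)) I) →
      (n - p) * ∑ i ∈ I, c i ≠ (Module.finrank ℝ (lin (fun i => (u i : Eu n)) I) - p) * ∑ i, c i)
    (hS : ∀ S : Finset (Fin n), S ≠ Finset.univ → p < S.card → (S.card - p) * ∑ i, c i <
      (n - p) * ∑ i with (u i : Eu n) ∈ Submodule.span ℝ (b '' S), c i) :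
    ∃ K, Solves p K (∑ i, ENNReal.ofReal (c i) • Measure.dirac (u i)) := by
  have h0 : 0 < n := by exact_mod_cast (zero_lt_one.trans hp).trans hpn
  refine Exists.imp (fun K h => And.left h) (G_main' hp hpn hu hc (fun v hv => ?_) ⊥ (fun σ h => by
      rw [Subgroup.mem_bot.1 h]
      exact ⟨fun _ => rfl, LinearIsometryEquiv.refl ℝ _, fun _ => rfl⟩)
    (fun I _ => hnd I) (nc_basis h0 (fun i => Solve_ne (u i)) b hb hb'
      (fun I hI => ⟨hI.1, G_heavy_ne_top hpn hc hI.2.2⟩) fun S I a1 a2 a3 a4 => ⟨a2,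
        fun σ h i hi => by rwa [Subgroup.mem_bot.1 h], G_heavy_of hpn hc a2
          (fun i hi => a4 i (Finset.mem_filter.1 hi).2)
          ((Submodule.finrank_mono a3).trans (G_card b S)) (hS S a1)⟩))
  · obtain ⟨j, hj⟩ : ∃ j, ⟪v, b j⟫ ≠ 0 := by
      by_contra k
      push Not at k
      refine hv (inner_self_eq_zero (𝕜 := ℝ).1 ?_)
      nth_rewrite 2 [← b.sum_repr v]
      simp only [inner_sum, real_inner_smul_right, k, mul_zero, Finset.sum_const_zero]
    rcases lt_or_gt_of_ne hj with a | a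
    · obtain ⟨i, hi⟩ := hb' j
      exact ⟨i, by rwa [hi, inner_neg_right, neg_pos]⟩
    · obtain ⟨i, hi⟩ := hb j
      exact ⟨i, by rwa [hi]⟩

/-- Supports whose heavy subsets lie in open hemispheres, for instance general position. -/
theorem G_pointed (hp : 1 < p) (hpn : p < n) {u : ι → Sph n} (hu : Function.Injective u)
    {c : ι → ℝ} (hc : ∀ i, 0 < c i) (hh : ∀ v : Eu n, v ≠ 0 → ∃ i, 0 < ⟪v, (u i : Eu n)⟫)
    (h : ∀ I : Finset ι, lin (fun i => (u i : Eu n)) I ≠ ⊥ → lin (fun i => (u i : Eu n)) I ≠ ⊤ →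
      (n - p) * ∑ i ∈ I, c i < (Module.finrank ℝ (lin (fun i => (u i : Eu n)) I) - p) * ∑ i, c i) :
    ∃ K, Solves p K (∑ i, ENNReal.ofReal (c i) • Measure.dirac (u i)) := by
  have hu' : GFr fun i => (u i : Eu n) :=
    ⟨fun i => mem_sphere_zero_iff_norm.1 (u i).2, Subtype.val_injective.comp hu, hh⟩
  refine Exists.imp (fun K h => And.left h) (G_main' hp hpn hu hc hh ⊥ (fun σ h => by
      rw [Subgroup.mem_bot.1 h]
      exact ⟨fun _ => rfl, LinearIsometryEquiv.refl ℝ _, fun _ => rfl⟩)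
    (fun I _ a1 a2 a3 => (h I (fun e => by rw [e] at a3; simp at a3; linarith) fun e =>
      a1 (Finset.eq_univ_of_forall fun i => (a2 i).2 (e ▸ Submodule.mem_top))).ne)
    (nc_pointed hu' (fun I hI => ⟨hI.1, by_contra fun k =>
      (h I k (G_heavy_ne_top hpn hc hI.2.2)).asymm hI.2.2⟩) fun I v a1 a2 => ⟨a1,
        fun σ h i hi => by rwa [Subgroup.mem_bot.1 h], G_heavy_of hpn hc (e := 0) a1
          (Finset.Subset.refl I) (le_of_eq (Submodule.finrank_eq_zero.2 ?_)) fun k => ?_⟩))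
  · rw [Submodule.eq_bot_iff]
    intro x hx
    by_contra k
    obtain ⟨i, hi, e, -⟩ := lin_pos I hx k
    obtain ⟨a, ha, e'⟩ := mem_cone.1 e.2
    have a3 : 0 ≤ ⟪v, -(u i : Eu n)⟫ := by
      rw [← e', inner_sum]
      exact Finset.sum_nonneg fun j hj => by
        rw [real_inner_smul_right]
        exact mul_nonneg (ha j) (a2 j hj).le
    rw [inner_neg_right] at a3
    linarith [a2 i hi]
  · simp at k
    linarith

open Classical in
/-- Even measures: a flag of atoms that is a maximal chain of heavy flats. -/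
theorem G_flag (hp : 1 < p) (hpn : p < n) {u : ι → Sph n} (hu : Function.Injective u)
    {c : ι → ℝ} (hc : ∀ i, 0 < c i) (hev : ∀ i, ∃ j, u j = -u i ∧ c j = c i)
    (b : Module.Basis (Fin n) ℝ (Eu n)) (hb : ∀ j, ∃ i, (u i : Eu n) = b j) (k : Fin n)
    (hnd : ∀ L : Submodule ℝ (Eu n), L ≠ ⊤ → p < Module.finrank ℝ L →
      L = Submodule.span ℝ ((fun i => (u i : Eu n)) '' {i | (u i : Eu n) ∈ L}) →
      (n - p) * ∑ i with (u i : Eu n) ∈ L, c i ≠ (Module.finrank ℝ L - p) * ∑ i, c i)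
    (hS : ∀ S : Finset (Fin n), (∀ j ∈ S, j ≤ k) → S.card ≤ k → p < S.card →
      (S.card - p) * ∑ i, c i < (n - p) * ∑ i with (u i : Eu n) ∈ Submodule.span ℝ (b '' S), c i)
    (hL : ∀ L : Submodule ℝ (Eu n), L ≠ ⊤ → Submodule.span ℝ (b '' Iio k) < L →
      L = Submodule.span ℝ ((fun i => (u i : Eu n)) '' {i | (u i : Eu n) ∈ L}) →
      (n - p) * ∑ i with (u i : Eu n) ∈ L, c i ≤ (Module.finrank ℝ L - p) * ∑ i, c i) :
    ∃ K : Set (Eu n), K = -K ∧ Solves p K (∑ i, ENNReal.ofReal (c i) • Measure.dirac (u i)) := by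
  choose s hs hs' using hev
  have hs1 : ∀ i, (u (s i) : Eu n) = -u i := fun i => by rw [hs]; rfl
  have hs2 : Function.Involutive s := fun i => hu (by rw [hs, hs, neg_neg])
  let G : Subgroup (Equiv.Perm ι) :=
    { carrier := {σ | σ = 1 ∨ σ = hs2.toPerm}
      one_mem' := Or.inl rfl
      mul_mem' := by
        rintro _ _ (rfl | rfl) (rfl | rfl)
        · exact Or.inl (mul_one _)
        · exact Or.inr (one_mul _)
        · exact Or.inr (mul_one _)
        · exact Or.inl (Equiv.ext hs2)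
      inv_mem' := by
        rintro _ (rfl | rfl)
        · exact Or.inl inv_one
        · exact Or.inr rfl }
  have hG : ∀ σ ∈ G, σ = 1 ∨ σ = hs2.toPerm := fun _ h => h
  have hI : ∀ I : Finset ι, (∀ σ ∈ G, ∀ i ∈ I, σ i ∈ I) → lin (fun i => (u i : Eu n)) I =
      Submodule.span ℝ ((fun i => (u i : Eu n)) '' (I : Set ι)) := fun I h =>
    lin_symm fun i hi => ⟨s i, h _ (Or.inr rfl) i hi, hs1 i⟩
  have hsp : ∀ I : Finset ι, Submodule.span ℝ ((fun i => (u i : Eu n)) '' (I : Set ι)) =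
      Submodule.span ℝ ((fun i => (u i : Eu n)) '' {i | (u i : Eu n) ∈
        Submodule.span ℝ ((fun i => (u i : Eu n)) '' (I : Set ι))}) := fun I =>
    le_antisymm (Submodule.span_mono (image_mono fun i hi => Submodule.subset_span ⟨i, hi, rfl⟩))
      (Submodule.span_le.2 (by rintro _ ⟨i, hi, rfl⟩; exact hi))
  refine Exists.imp (fun K h => ⟨?_, And.left h⟩) (G_main' hp hpn hu hc (fun v hv => ?_) G
    (fun σ h => by
      rcases hG σ h with rfl | rfl
      · exact ⟨fun _ => rfl, LinearIsometryEquiv.refl ℝ _, fun _ => rfl⟩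
      · exact ⟨hs', LinearIsometryEquiv.neg ℝ, hs1⟩) (fun I a1 a2 a3 a4 => ?_)
    (nc_flag (fun i => Solve_ne (u i)) b hb k (fun I h => ⟨h.1, fun a1 i hi => ?_⟩)
      fun S I a1 a2 a3 a4 => ?_))
  · have := h.2 _ (Or.inr rfl) (LinearIsometryEquiv.neg ℝ) hs1
    rw [← image_neg_eq_neg]
    exact this.symm
  · obtain ⟨j, hj⟩ : ∃ j, ⟪v, b j⟫ ≠ 0 := by
      by_contra k
      push Not at k
      refine hv (inner_self_eq_zero (𝕜 := ℝ).1 ?_)
      nth_rewrite 2 [← b.sum_repr v]
      simp only [inner_sum, real_inner_smul_right, k, mul_zero, Finset.sum_const_zero]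
    obtain ⟨i, hi⟩ := hb j
    rcases lt_or_gt_of_ne hj with a | a
    · exact ⟨s i, by rwa [hs1, hi, inner_neg_right, neg_pos]⟩
    · exact ⟨i, by rwa [hi]⟩
  · have a5 := hnd (lin (fun i => (u i : Eu n)) I) (fun e => a2 (Finset.eq_univ_of_forall fun i => (a3 i).2
      (e ▸ Submodule.mem_top))) a4 (by rw [hI I a1]; exact hsp I)
    rwa [show (Finset.univ.filter fun i => (u i : Eu n) ∈ lin (fun i => (u i : Eu n)) I) = I by
      ext i; simp [← a3 i]] at a5
  · by_contra a2
    have a3 := h.2.2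
    rw [hI I h.2.1] at a3
    have a4 := hL _ (G_heavy_ne_top hpn hc a3) (lt_of_le_of_ne a1 fun e =>
      a2 (e ▸ Submodule.subset_span ⟨i, hi, rfl⟩)) (hsp I)
    refine (a4.trans_lt a3).not_ge (mul_le_mul_of_nonneg_left
      (Finset.sum_le_sum_of_subset_of_nonneg (fun j hj => ?_) fun i _ _ => (hc i).le)
      (sub_pos.2 hpn).le)
    exact Finset.mem_filter.2 ⟨Finset.mem_univ _, Submodule.subset_span ⟨j, hj, rfl⟩⟩
  · have a5 : ∀ σ ∈ G, ∀ i ∈ I, σ i ∈ I := fun σ h i hi => by
      rcases hG σ h with rfl | rfl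
      · exact hi
      · refine (a4 _).2 ?_
        rw [Function.Involutive.coe_toPerm, hs1]
        exact Submodule.neg_mem _ ((a4 i).1 hi)
    refine ⟨a3, a5, G_heavy_of hpn hc a3 (fun i hi => (a4 i).2 (Finset.mem_filter.1 hi).2)
      ((Submodule.finrank_mono ?_).trans (G_card b S)) (hS S a1 a2)⟩
    rw [hI I a5]
    exact Submodule.span_le.2 (by rintro _ ⟨i, hi, rfl⟩; exact (a4 i).1 hi)

open Classical in
/-- Even measures all of whose proper flats of dimension above `p` are light. -/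
theorem G_even (hp : 1 < p) (hpn : p < n) {u : ι → Sph n} (hu : Function.Injective u)
    {c : ι → ℝ} (hc : ∀ i, 0 < c i) (hev : ∀ i, ∃ j, u j = -u i ∧ c j = c i)
    (hsp : Submodule.span ℝ (range fun i => (u i : Eu n)) = ⊤)
    (hL : ∀ L : Submodule ℝ (Eu n), L ≠ ⊤ → p < Module.finrank ℝ L →
      L = Submodule.span ℝ ((fun i => (u i : Eu n)) '' {i | (u i : Eu n) ∈ L}) →
      (n - p) * ∑ i with (u i : Eu n) ∈ L, c i < (Module.finrank ℝ L - p) * ∑ i, c i) :
    ∃ K : Set (Eu n), K = -K ∧ Solves p K (∑ i, ENNReal.ofReal (c i) • Measure.dirac (u i)) := by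
  obtain ⟨β, e, hβ⟩ := Poly_basis hsp
  have hli : LinearIndependent ℝ fun k => (u (β k) : Eu n) := by
    refine Fintype.linearIndependent_iff.2 fun g hg j => ?_
    have := congrArg (fun y => ⟪e j, y⟫) hg
    simpa [inner_sum, real_inner_smul_right, hβ.dual] using this
  have h0 : 0 < n := by exact_mod_cast (zero_lt_one.trans hp).trans hpn
  have : Nonempty (Fin n) := ⟨⟨0, h0⟩⟩
  have hk : ⌊p⌋₊ < n := (Nat.floor_lt (by linarith only [hp])).2 hpn
  let b := basisOfLinearIndependentOfCardEqFinrank hli (by simp)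
  have hb : ∀ j, b j = u (β j) := fun j => by simp [b]
  refine G_flag hp hpn hu hc hev b (fun j => ⟨β j, (hb j).symm⟩) ⟨⌊p⌋₊, hk⟩
    (fun L a1 a2 a3 => (hL L a1 a2 a3).ne) (fun S _ a2 a3 => ?_) fun L a1 a2 a3 =>
      (hL L a1 ?_ a3).le
  · exact absurd ((Nat.cast_le.2 a2).trans (Nat.floor_le (by linarith only [hp]))) (not_le.2 a3)
  · have a4 := Submodule.finrank_lt_finrank_of_lt a2
    have a5 := finrank_span_eq_card (b.linearIndependent.comp
      (Subtype.val : Set.Iio (⟨⌊p⌋₊, hk⟩ : Fin n) → Fin n) Subtype.val_injective)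
    rw [Set.range_comp, Subtype.range_coe] at a5
    rw [a5.trans (show _ = ⌊p⌋₊ by simp [Fintype.card_subtype, Finset.filter_gt_eq_Iio])] at a4
    exact (Nat.lt_floor_add_one p).trans_le (by exact_mod_cast a4)

end Pool.Agent.Work.MP_f7e2e5_gt
end
end
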