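import Pool.Agent.Work.MP_f7e2e5_gt.GCor
import Pool.Agent.Work.MP_f7e2e5_gt.Frame2

/-! Force balance, a lower bound for the force in each direction, and the planar supports that
carry only solvable measures. -/

open MeasureTheory Set Metric Filter Topology
open scoped RealInnerProductSpace Pointwise ContDiff NNReal

noncomputable section

namespace Pool.Agent.Work.MP_f7e2e5_gt

variable {n : ℕ} {p : ℝ} {ι : Type} [Fintype ι]

theorem cap_submod (hp : 0 < p) {A B C D : Set (Eu n)} (hA : Bornology.IsBounded A)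
    (hB : Bornology.IsBounded B) (hC : C ⊆ A ∪ B) (hD : D ⊆ A ∩ B) :
    cap p C + cap p D ≤ cap p A + cap p B := by
  refine le_of_forall_pos_le_add fun ε hε => ?_
  obtain ⟨u, hu, h1⟩ := exists_adm_lt (p := p) hA (half_pos hε)
  obtain ⟨v, hv, h2⟩ := exists_adm_lt (p := p) hB (half_pos hε)
  have h3 := cap_le_en (p := p) (K := C) (u := fun x => max (u x) (v x)) ⟨hu.lip0.max hv.lip0,
    fun x => le_max_of_le_left (hu.nonneg x), fun x => max_le (hu.le_one x) (hv.le_one x),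
    fun x hx => by
      rcases hC hx with k | k
      · rw [hu.one x k, max_eq_left (hv.le_one x)]
      · rw [hv.one x k, max_eq_right (hu.le_one x)]⟩
  have h4 := cap_le_en (p := p) (K := D) (u := fun x => min (u x) (v x))
    ⟨hu.lip0.min_of_nonneg hv.lip0.lip hu.nonneg hv.nonneg,
    fun x => le_min (hu.nonneg x) (hv.nonneg x), fun x => min_le_of_left_le (hu.le_one x),
    fun x hx => by rw [hu.one x (hD hx).1, hv.one x (hD hx).2, min_self]⟩
  linarith only [h1, h2, h3, h4, hp, hu, hv, en_min_add_max hp hu.lip0 hv.lip0]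

theorem seg_compact (f : Eu n) : IsCompact (segment ℝ 0 f) := by
  rw [segment_eq_image]
  exact isCompact_Icc.image (by fun_prop)

theorem mem_seg {f y : Eu n} : y ∈ segment ℝ 0 f ↔ ∃ s ∈ Icc (0 : ℝ) 1, s • f = y := by
  rw [segment_eq_image]
  simp

theorem cap_seg_half (hp : 0 < p) {K : Set (Eu n)} (hK : IsCompact K) (f : Eu n) (a : ℝ) :
    cap p (K + a • segment ℝ 0 f) + cap p K ≤ 2 * cap p (K + (a / 2) • segment ℝ 0 f) := by
  have hb := (hK.add ((seg_compact f).smul (a / 2))).isBounded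
  have h := cap_submod hp hb ((isometry_add_left ((a / 2) • f)).lipschitz.isBounded_image hb)
    (C := K + a • segment ℝ 0 f) (D := (fun x => (a / 2) • f + x) '' K) (by
      rintro _ ⟨x, hx, _, ⟨y, hy, rfl⟩, rfl⟩
      obtain ⟨s, hs, rfl⟩ := mem_seg.1 hy
      rcases le_total s (1 / 2) with k | k
      · refine Or.inl ⟨x, hx, _, ⟨(2 * s) • f, mem_seg.2 ⟨_, ⟨by linarith only [hs, hs.1], by linarith⟩, rfl⟩,
          rfl⟩, ?_⟩
        simp only [smul_smul]
        congr 2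
        ring
      · refine Or.inr ⟨_, ⟨x, hx, _, ⟨(2 * s - 1) • f, mem_seg.2 ⟨_, ⟨by linarith,
          by linarith [hs.2]⟩, rfl⟩, rfl⟩, rfl⟩, ?_⟩
        simp only [smul_smul]
        rw [add_left_comm, ← add_smul]
        congr 2
        ring) (by
      rintro _ ⟨x, hx, rfl⟩
      exact ⟨⟨x, hx, _, ⟨f, right_mem_segment ℝ 0 f, rfl⟩, add_comm _ _⟩,
        x, ⟨x, hx, _, ⟨0, left_mem_segment ℝ 0 f, rfl⟩, by simp⟩, rfl⟩)
  rw [cap_translate hp, cap_translate hp] at h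
  linarith only [h]

theorem solves_int (hp : 1 < p) (hpn : p < n) {u : ι → Sph n} {c : ι → ℝ} (hc : ∀ i, 0 < c i)
    {K : Set (Eu n)} (h : Solves p K (∑ i, ENNReal.ofReal (c i) • Measure.dirac (u i)))
    {F : Eu n → ℝ} (hF : Measurable F) :
    ∫ y, F (nrm K y) ∂(tau p K) = (p - 1) * ∑ i, c i * F (u i) := by
  rw [← Solve_int hp ((solves_iff hp hpn h.body0 (isTau_tau hp h.body0) _).1 h) hF,
    integral_finsetSum_measure]
  · congr 1
    refine Finset.sum_congr rfl fun i _ => ?_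
    rw [integral_smul_measure, integral_dirac, ENNReal.toReal_ofReal (hc i).le, smul_eq_mul]
  · intro i _
    exact (integrable_dirac (by simp)).smul_measure ENNReal.ofReal_ne_top

/-- The forces are balanced. -/
theorem solves_balance (hp : 1 < p) (hpn : p < n) {u : ι → Sph n} {c : ι → ℝ} (hc : ∀ i, 0 < c i)
    {K : Set (Eu n)} (h : Solves p K (∑ i, ENNReal.ofReal (c i) • Measure.dirac (u i)))
    (w : Eu n) : ∑ i, c i * (⟪w, (u i : Eu n)⟫ / supp K (u i)) = 0 := by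
  have hK := h.body0
  have h1 := Lam_eq hp hpn hK (isTau_tau hp hK) (X := fun _ => w) (M := 0)
    ⟨contDiff_const, fun x => by simp⟩
  have h2 : Lam p K (fun _ => w) = 0 := by
    have : (fun s : ℝ => cap p (flow (fun _ => w) s '' K)) = fun _ => cap p K := by
      ext s
      rw [← cap_translate (by linarith : 0 < p) K (s • w)]
      congr 2
      ext1 x
      rw [flow, add_comm]
    rw [Lam, this, deriv_const]
  rw [h2, solves_int hp hpn hc h (F := fun ξ => ⟪w, ξ⟫ / supp K ξ)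
    ((by fun_prop : Continuous fun ξ : Eu n => ⟪w, ξ⟫).measurable.div
      (continuous_supp hK.1.1).measurable)] at h1
  exact (mul_eq_zero.1 h1.symm).resolve_left (by linarith)

/-- The force in the direction `f` dominates the gain of capacity along the segment. -/
theorem solves_force (hp : 1 < p) (hpn : p < n) {u : ι → Sph n} {c : ι → ℝ} (hc : ∀ i, 0 < c i)
    {K : Set (Eu n)} (h : Solves p K (∑ i, ENNReal.ofReal (c i) • Measure.dirac (u i)))
    (f : Eu n) : cap p (K + segment ℝ 0 f) - cap p K ≤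
      (p - 1) * ∑ i, c i * (max ⟪f, (u i : Eu n)⟫ 0 / supp K (u i)) := by
  have hK := h.body0
  have hS := seg_compact f
  have hSn : (segment ℝ 0 f).Nonempty := ⟨0, left_mem_segment ℝ 0 f⟩
  have e := wulff_supp hK.1
  have h1 := hadamard hp hpn (isCompact_sphere (0 : Eu n) 1) (fun ξ hξ => by simpa using hξ)
    (continuous_supp hK.1.1).continuousOn (continuous_supp hS).continuousOn
    (continuous_supp hS).measurable (τ := tau p K) (by rwa [e]) (by rw [e]; exact isTau_tau hp hK)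
  rw [e, solves_int hp hpn hc h (F := fun ξ => supp (segment ℝ 0 f) ξ / supp K ξ)
    ((continuous_supp hS).measurable.div (continuous_supp hK.1.1).measurable)] at h1
  have key : ∀ t ∈ Ici (0 : ℝ), cap p (K + t • segment ℝ 0 f) =
      cap p (wulff (sphere 0 1) (fun ξ => supp K ξ + t * supp (segment ℝ 0 f) ξ)) := fun t ht => by
    rw [← wulff_supp (Supp_add hK.1 (hS.smul t) ((convex_segment 0 f).smul t) hSn.smul_set)]
    congr 2
    funext ξ
    rw [supp_add hK.1.1 (hS.smul t) (Supp_ne hK.1) hSn.smul_set, supp_smul hS ht]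
  have h2 := (hasDerivWithinAt_iff_tendsto_slope' self_notMem_Ioi).1
    ((h1.congr key (key 0 self_mem_Ici)).mono Ioi_subset_Ici_self)
  have h3 : Tendsto (fun k : ℕ => (1 / 2 : ℝ) ^ k) atTop (𝓝[>] 0) :=
    tendsto_nhdsWithin_iff.2 ⟨tendsto_pow_atTop_nhds_zero_of_lt_one (by norm_num) (by norm_num),
      Eventually.of_forall fun k => mem_Ioi.2 (by positivity)⟩
  have h4 : ∀ k : ℕ, (1 / 2 : ℝ) ^ k * (cap p (K + segment ℝ 0 f) - cap p K) ≤
      cap p (K + (1 / 2 : ℝ) ^ k • segment ℝ 0 f) - cap p K := fun k => by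
    induction k with
    | zero => simp
    | succ k ih =>
      have := cap_seg_half (by linarith only [hp] : 0 < p) hK.1.1 f ((1 / 2 : ℝ) ^ k)
      rw [pow_succ, mul_one_div]
      linarith only [ih, this]
  refine (ge_of_tendsto' (h2.comp h3) fun k => ?_).trans (mul_le_mul_of_nonneg_left
    (Finset.sum_le_sum fun i _ => mul_le_mul_of_nonneg_left (div_le_div_of_nonneg_right
      (supp_le hSn fun y hy => ?_) (hK.supp_pos (Solve_ne _)).le) (hc i).le) (by linarith))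
  · rw [Function.comp, slope_def_field, sub_zero, le_div_iff₀ (by positivity), zero_smul_set hSn,
      add_zero, mul_comm]
    exact h4 k
  · obtain ⟨s, hs, rfl⟩ := mem_seg.1 hy
    rw [real_inner_smul_left]
    exact (mul_le_mul_of_nonneg_left (le_max_left _ 0) hs.1).trans
      (mul_le_of_le_one_left (le_max_right _ _) hs.2)

/-- In the plane the force in every direction is at least total mass over diameter. -/
theorem plane_force (hp : 1 < p) (hp2 : p < 2) : ∃ l : ℝ, 0 < l ∧ ∀ {u : ι → Sph 2} {c : ι → ℝ}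
    {K : Set (Eu 2)} {R : ℝ} {f : Eu 2}, (∀ i, 0 < c i) → 0 < R → K ⊆ closedBall 0 R → ‖f‖ = 1 →
      Solves p K (∑ i, ENNReal.ofReal (c i) • Measure.dirac (u i)) →
      ∑ i, c i ≤ l * R * ∑ i, c i * (max ⟪f, (u i : Eu 2)⟫ 0 / supp K (u i)) := by
  have hpn : p < ((2 : ℕ) : ℝ) := by exact_mod_cast hp2
  have hq : 0 < ((2 : ℕ) : ℝ) - p := sub_pos.2 hpn
  have hp0 : 0 < p := by linarith
  obtain ⟨c0, hc0, hs⟩ := cap_segment hp hp2
  obtain ⟨l, hl, hl'⟩ : ∃ l : ℝ, 0 < l ∧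
      2 * cap p (closedBall (0 : Eu 2) 1) ≤ l ^ (((2 : ℕ) : ℝ) - p) * c0 := by
    have h0 : 0 < 2 * cap p (closedBall (0 : Eu 2) 1) / c0 + 1 := by
      have := cap_nonneg p (closedBall (0 : Eu 2) 1)
      positivity
    refine ⟨_ ^ (((2 : ℕ) : ℝ) - p)⁻¹, Real.rpow_pos_of_pos h0 _, ?_⟩
    rw [Real.rpow_inv_rpow h0.le hq.ne', add_mul, div_mul_cancel₀ _ hc0.ne']
    linarith
  refine ⟨(((2 : ℕ) : ℝ) - p) * l, mul_pos hq hl, fun {u c K R f} hc hR hK hf h => ?_⟩
  have hlR := mul_pos hl hR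
  have h1 := solves_force hp hpn hc h ((l * R) • f)
  have h2 : cap p K ≤ R ^ (((2 : ℕ) : ℝ) - p) * cap p (closedBall (0 : Eu 2) 1) := by
    rw [← cap_smul hp0 _ hR, smul_unitClosedBall, Real.norm_of_nonneg hR.le]
    exact cap_mono hK isBounded_closedBall
  have h3 : (l * R) ^ (((2 : ℕ) : ℝ) - p) * c0 ≤ cap p (K + segment ℝ 0 ((l * R) • f)) := by
    refine (mul_le_mul_of_nonneg_left (hs 0 f (by simp [hf])) (by positivity)).trans ?_
    rw [← cap_smul hp0 _ hlR]
    refine cap_mono ?_ (h.body0.1.1.add (seg_compact _)).isBounded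
    rintro _ ⟨y, hy, rfl⟩
    obtain ⟨s, hs, rfl⟩ := mem_seg.1 hy
    exact ⟨0, interior_subset h.body0.2, _, mem_seg.2 ⟨s, hs, rfl⟩, by
      simp only [zero_add, smul_comm s]⟩
  have h4 := solves_int hp hpn hc h (F := fun _ => 1) measurable_const
  have h5 := (isTau_tau hp h.body0).mass hp h.body0
  simp only [integral_const, smul_eq_mul, mul_one] at h4
  have h6 : ∑ i, c i * (max ⟪(l * R) • f, (u i : Eu 2)⟫ 0 / supp K (u i)) =
      l * R * ∑ i, c i * (max ⟪f, (u i : Eu 2)⟫ 0 / supp K (u i)) := by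
    rw [Finset.mul_sum]
    refine Finset.sum_congr rfl fun i _ => ?_
    rw [real_inner_smul_left, ← mul_zero (l * R), ← mul_max_of_nonneg _ _ hlR.le, mul_zero]
    ring
  rw [Real.mul_rpow hl.le hR.le] at h3
  have h7 := mul_le_mul_of_nonneg_left hl' (Real.rpow_nonneg hR.le (((2 : ℕ) : ℝ) - p))
  have h8 : cap p K ≤ (p - 1) * (l * R * ∑ i, c i * (max ⟪f, (u i : Eu 2)⟫ 0 / supp K (u i))) := by
    rw [← h6]
    linarith only [h1, h2, h3, h7]
  refine le_of_mul_le_mul_left ?_ (sub_pos.2 hp)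
  rw [← h4, h5]
  linarith only [h8, hq, mul_le_mul_of_nonneg_left h8 hq.le]

theorem plane_side {x h c : ι → ℝ} {ε γ : ℝ} (hε : 0 < ε) (hh : ∀ k, 0 < h k)
    (hc : ∀ k, 0 < x k → c k = ε) (hx : ∀ k, 0 < x k → γ ≤ x k ∧ x k ≤ 1)
    (hF : 0 < ∑ k, c k * (max (x k) 0 / h k)) : ∃ i, 0 < x i ∧ (∀ k, 0 < x k → h i ≤ h k) ∧
      ε * γ ≤ h i * ∑ k, c k * (max (x k) 0 / h k) ∧
      h i * ∑ k, c k * (max (x k) 0 / h k) ≤ Fintype.card ι * ε := by
  have h0 : ∀ k, ¬ 0 < x k → c k * (max (x k) 0 / h k) = 0 := fun k a => by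
    rw [max_eq_right (not_lt.1 a), zero_div, mul_zero]
  obtain ⟨i, hi, hm⟩ := Finset.exists_min_image (Finset.univ.filter fun k => 0 < x k) h (by
    obtain ⟨k, -, hk⟩ := Finset.exists_ne_zero_of_sum_ne_zero hF.ne'
    exact ⟨k, Finset.mem_filter.2 ⟨Finset.mem_univ _, by_contra fun a => hk (h0 k a)⟩⟩)
  simp only [Finset.mem_filter, Finset.mem_univ, true_and] at hi hm
  have h1 : ∀ k, 0 ≤ h i * (c k * (max (x k) 0 / h k)) ∧
      h i * (c k * (max (x k) 0 / h k)) ≤ ε := fun k => by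
    by_cases a : 0 < x k
    · have b1 := hh i
      have b2 := hh k
      rw [hc k a, max_eq_left a.le]
      refine ⟨by positivity, ?_⟩
      rw [mul_left_comm, ← mul_div_assoc]
      refine mul_le_of_le_one_right hε.le ((div_le_one b2).2 ?_)
      exact (mul_le_of_le_one_right b1.le (hx k a).2).trans (hm k a)
    · rw [h0 k a, mul_zero]
      exact ⟨le_rfl, hε.le⟩
  refine ⟨i, hi, hm, ?_, ?_⟩ <;> rw [Finset.mul_sum]
  · refine le_trans ?_ (Finset.single_le_sum (fun k _ => (h1 k).1) (Finset.mem_univ i))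
    rw [hc i hi, max_eq_left hi.le, mul_left_comm, mul_div_cancel₀ _ (hh i).ne']
    exact mul_le_mul_of_nonneg_left (hx i hi).1 hε.le
  · exact (Finset.sum_le_sum fun k _ => (h1 k).2).trans_eq (by simp)

theorem plane_other {A B m N ε γ : ℝ} (hA : 0 < A) (hB : 0 < B) (hm : 0 < m) (hN : 0 < N)
    (hγ : 0 < γ) (hε : 4 * N ^ 2 * ε ≤ γ ^ 2) (h1 : γ ^ 2 * A ≤ 2 * N * m)
    (h2 : 1 / A - 1 / B ≤ N * ε / m) : γ ^ 2 * B ≤ 4 * N * m := by
  have a1 : γ ^ 2 / (2 * N * m) ≤ 1 / A := by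
    rw [div_le_div_iff₀ (by positivity) hA]
    linarith
  have a2 : N * ε / m ≤ γ ^ 2 / (4 * N * m) := by
    rw [div_le_div_iff₀ hm (by positivity)]
    linarith only [hm, hε, mul_nonneg_of_nonpos_of_nonpos (le_of_lt (Mathlib.Tactic.Linarith.sub_neg_of_lt hm)) (Mathlib.Tactic.Linarith.sub_nonpos_of_le hε)]
  have a3 : γ ^ 2 / (2 * N * m) = 2 * (γ ^ 2 / (4 * N * m)) := by
    field_simp
    ring
  have a4 : γ ^ 2 / (4 * N * m) ≤ 1 / B := by linarith only [h2, a1, a2, a3]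
  rw [div_le_div_iff₀ (by positivity) hB] at a4
  linarith only [a4]

open Classical in
/-- Exactly one antipodal pair: concentrating the mass on it gives an unsolvable measure. -/
theorem plane_not (hp : 1 < p) (hp2 : p < 2) {u : ι → Sph 2} {a b : ι}
    (hab : u b = -u a) (h1 : ∀ i j, u j = -u i → i = a ∨ i = b) : ∃ ε : ℝ, 0 < ε ∧
      ¬ ∃ K, Solves p K (∑ i, ENNReal.ofReal (if i = a ∨ i = b then 1 else ε) •
        Measure.dirac (u i)) := by
  have hpn : p < ((2 : ℕ) : ℝ) := by exact_mod_cast hp2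
  have hun : ∀ i, ‖(u i : Eu 2)‖ = 1 := fun i => mem_sphere_zero_iff_norm.1 (u i).2
  obtain ⟨f, hf⟩ := exists_fr (hun a)
  obtain ⟨l, hl, hforce⟩ := plane_force (ι := ι) hp hp2
  obtain ⟨e, he⟩ : ∃ e : Eu 2, e = (u a : Eu 2) := ⟨_, rfl⟩
  rw [← he] at hf
  let x : ι → ℝ := fun i => ⟪(u i : Eu 2), f⟫
  let y : ι → ℝ := fun i => ⟪(u i : Eu 2), e⟫
  have hxy : ∀ i, y i ^ 2 + x i ^ 2 = 1 := fun i => by
    have := hf.norm_sq (u i)
    rw [hun, one_pow] at this
    exact this.symm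
  have hx1 : ∀ i, |x i| ≤ 1 := fun i => (sq_le_one_iff_abs_le_one _).1 (by
    linarith only [hxy, hxy i, sq_nonneg (y i), sq_nonneg (y i)])
  have hy1 : ∀ i, |y i| ≤ 1 := fun i => (sq_le_one_iff_abs_le_one _).1 (by
    linarith only [hxy, hxy i, sq_nonneg (x i), sq_nonneg (x i)])
  have hb : (u b : Eu 2) = -e := by rw [hab, he]; rfl
  have hext : ∀ i j, x j = -x i → y j = -y i → u j = -u i := fun i j a1 a2 => Subtype.ext (by
    change (u j : Eu 2) = -(u i : Eu 2)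
    rw [hf.decomp (u j), hf.decomp (u i), neg_add, ← neg_smul, ← neg_smul]
    exact congrArg₂ (fun s t : ℝ => s • e + t • f) a2 a1)
  have xa : x a = 0 := by simp only [x, ← he, hf.2.2]
  have xb : x b = 0 := by simp only [x, hb, inner_neg_left, hf.2.2, neg_zero]
  have ya : y a = 1 := by simp only [y, ← he, real_inner_self_eq_norm_sq, hf.1, one_pow]
  have yb : y b = -1 := by simp only [y, hb, inner_neg_left, real_inner_self_eq_norm_sq, hf.1, one_pow]
  have hab' : a ≠ b := fun k => by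
    rw [k, yb] at ya
    norm_num at ya
  have hx0 : ∀ i, x i = 0 → i = a ∨ i = b := fun i k => by
    have := hxy i
    rw [k, zero_pow two_ne_zero, add_zero] at this
    rcases sq_eq_one_iff.1 this with t | t
    · exact h1 i b (hext i b (by rw [xb, k, neg_zero]) (by rw [yb, t]))
    · exact h1 i a (hext i a (by rw [xa, k, neg_zero]) (by rw [ya, t, neg_neg]))
  have hD : ∀ i j, 0 < x i → x j < 0 → x i * y j - x j * y i ≠ 0 := fun i j a1 a2 k => by
    have b1 : (x i - -x j) * (x i + -x j) = 0 := by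
      linear_combination (x i * y j + x j * y i) * k - x i ^ 2 * hxy j + x j ^ 2 * hxy i
    have b2 : x j = -x i := by
      have := (mul_eq_zero.1 b1).resolve_right (by linarith only [a1, a2])
      linarith only [this]
    have b3 : y j = -y i := mul_left_cancel₀ a1.ne' (by rw [b2] at k; linarith only [k])
    rcases h1 i j (hext i j b2 b3) with t | t
    · exact a1.ne' (t ▸ xa)
    · exact a1.ne' (t ▸ xb)
  obtain ⟨γ1, g1, g2⟩ := G_min_pos fun i => |x i|
  obtain ⟨γ2, g3, g4⟩ := G_min_pos fun q : ι × ι => |x q.1 * y q.2 - x q.2 * y q.1|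
  obtain ⟨γ, hγ, hγ1, hγ2, hγ3⟩ : ∃ γ : ℝ, 0 < γ ∧ γ ≤ 1 ∧ γ ≤ γ1 ∧ γ ≤ γ2 :=
    ⟨min 1 (min γ1 γ2), by positivity, min_le_left _ _, (min_le_right _ _).trans (min_le_left _ _),
      (min_le_right _ _).trans (min_le_right _ _)⟩
  obtain ⟨N, hNd⟩ : ∃ N : ℝ, N = (Fintype.card ι : ℝ) := ⟨_, rfl⟩
  have hN : 1 ≤ N := hNd ▸ Nat.one_le_cast.2 (Fintype.card_pos_iff.2 ⟨a⟩)
  obtain ⟨ε, hε, hε1, hε2⟩ : ∃ ε : ℝ, 0 < ε ∧ 4 * N ^ 2 * ε ≤ γ ^ 2 ∧
      12 * l * N ^ 2 * ε ≤ γ ^ 3 := by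
    refine ⟨min (γ ^ 2 / (4 * N ^ 2)) (γ ^ 3 / (12 * l * N ^ 2)), by positivity, ?_, ?_⟩
    · rw [mul_comm, ← le_div_iff₀ (by positivity)]
      exact min_le_left _ _
    · rw [mul_comm, ← le_div_iff₀ (by positivity)]
      exact min_le_right _ _
  refine ⟨ε, hε, fun ⟨K, hK⟩ => ?_⟩
  set c : ι → ℝ := fun i => if i = a ∨ i = b then 1 else ε with hcd
  have hc : ∀ i, 0 < c i := fun i => by
    simp only [c]
    split_ifs
    exacts [one_pos, hε]
  have hc' : ∀ i, x i ≠ 0 → c i = ε := fun i k => if_neg (by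
    rintro (rfl | rfl)
    exacts [k xa, k xb])
  let h : ι → ℝ := fun i => supp K (u i)
  have hh : ∀ i, 0 < h i := fun i => hK.body0.supp_pos (Solve_ne _)
  have hz : ∀ z ∈ K, ∀ k, ⟪z, e⟫ * y k + ⟪z, f⟫ * x k ≤ h k := fun z hz k =>
    (hf.inner_eq z (u k)).symm.trans_le (le_supp hK.body0.1.1 hz _)
  have hs : 2 ≤ ∑ i, c i := by
    have := Finset.sum_le_univ_sum_of_nonneg (s := {a, b}) fun i => (hc i).le
    rw [Finset.sum_pair hab'] at this
    simp only [c, true_or, or_true, if_true] at this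
    linarith only [this]
  have hF : ∀ R, 0 < R → K ⊆ closedBall 0 R → 2 ≤ l * R * ∑ k, c k * (max (x k) 0 / h k) :=
    fun R a1 a2 => by
      simpa only [x, h, real_inner_comm f] using hs.trans (hforce hc a1 a2 hf.2.1 hK)
  have hF0 : 0 < ∑ k, c k * (max (x k) 0 / h k) := by
    obtain ⟨ρ, R, a1, a2, -, a3⟩ := hK.body0.exists_radii
    exact (mul_pos_iff_of_pos_left (mul_pos hl (a1.trans_le a2))).1
      (two_pos.trans_le (hF R (a1.trans_le a2) a3))
  have hF1 : ∑ k, c k * (max (-x k) 0 / h k) = ∑ k, c k * (max (x k) 0 / h k) := by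
    have := solves_balance hp hpn hc hK f
    rw [eq_comm, ← sub_eq_zero, ← Finset.sum_sub_distrib]
    refine (Finset.sum_congr rfl fun k _ => ?_).trans this
    rw [← mul_sub, ← sub_div, max_zero_sub_max_neg_zero_eq_self, real_inner_comm]
  obtain ⟨i, i1, i2, i3, i4⟩ := plane_side (γ := γ) hε hh (fun k t => hc' k t.ne') (fun k t =>
    ⟨hγ2.trans ((g2 k (abs_pos.2 t.ne')).trans_eq (abs_of_pos t)), (le_abs_self _).trans (hx1 k)⟩)
    hF0
  obtain ⟨j, j1, j2, j3, j4⟩ := plane_side (x := fun k => -x k) (γ := γ) hε hh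
    (fun k t => hc' k (neg_pos.1 t).ne) (fun k t => ⟨hγ2.trans ((g2 k (abs_pos.2
      (neg_pos.1 t).ne)).trans_eq (abs_of_neg (neg_pos.1 t))), (neg_le_abs _).trans (hx1 k)⟩)
    (hF1 ▸ hF0)
  rw [hF1] at j3 j4
  rw [← hNd] at i4 j4
  set F := ∑ k, c k * (max (x k) 0 / h k) with hFd
  have xi : γ ≤ x i := hγ2.trans ((g2 i (abs_pos.2 i1.ne')).trans_eq (abs_of_pos i1))
  have xj : γ ≤ -x j := hγ2.trans ((g2 j (abs_pos.2 (neg_pos.1 j1).ne)).trans_eq
    (abs_of_neg (neg_pos.1 j1)))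
  obtain ⟨m, hm, m1, m2, m3⟩ : ∃ m : ℝ, 0 < m ∧ m ≤ h i ∧ m ≤ h j ∧ ε * γ ≤ m * F := by
    rcases le_total (h i) (h j) with t | t
    exacts [⟨_, hh i, le_rfl, t, i3⟩, ⟨_, hh j, t, le_rfl, j3⟩]
  have m4 : ∀ k, h k * F ≤ N * ε → γ * h k ≤ N * m := fun k t =>
    le_of_mul_le_mul_right (by (refine le_of_not_gt fun h_nl => ?_; linarith only [h_nl, m3, hp, hp2, hγ, t, hNd, mul_nonneg_of_nonpos_of_nonpos (Mathlib.Tactic.Linarith.sub_nonpos_of_le (Mathlib.Tactic.Linarith.natCast_nonneg ℝ (Fintype.card ι))) (Mathlib.Tactic.Linarith.sub_nonpos_of_le m3), mul_pos_of_neg_of_neg (Mathlib.Tactic.Linarith.sub_neg_of_lt hp) (Mathlib.Tactic.Linarith.sub_neg_of_lt h_nl), mul_pos_of_neg_of_neg (Mathlib.Tactic.Linarith.sub_neg_of_lt hp2) (Mathlib.Tactic.Linarith.sub_neg_of_lt h_nl), mul_nonneg_of_nonpos_of_nonpos (le_of_lt (Mathlib.Tactic.Linarith.sub_neg_of_lt hγ)) (Mathlib.Tactic.Linarith.sub_nonpos_of_le t), Mathlib.Tactic.Linarith.zero_mul_eq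 (sub_eq_zero_of_eq hNd) (Mathlib.Tactic.Linarith.sub_nonpos_of_le m3)])) hF0
  have m5 : |1 / h a - 1 / h b| ≤ N * ε / m := by
    have t1 := solves_balance hp hpn hc hK e
    have t2 : ∀ k, c k * (⟪e, (u k : Eu 2)⟫ / supp K (u k)) = (if k = a then 1 / h a else 0) -
        (if k = b then 1 / h b else 0) + if k = a ∨ k = b then 0 else ε * (y k / h k) := fun k => by
      rw [real_inner_comm]
      change c k * (y k / h k) = _
      by_cases s1 : k = a
      · simp [c, s1, ya, hab']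
      by_cases s2 : k = b
      · simp [c, s2, yb, hab'.symm, neg_div]
      · simp [c, s1, s2]
    simp only [t2, Finset.sum_add_distrib, Finset.sum_sub_distrib, Finset.sum_ite_eq',
      Finset.mem_univ, if_true] at t1
    rw [eq_neg_of_add_eq_zero_left t1, abs_neg]
    refine (Finset.abs_sum_le_sum_abs _ _).trans ((Finset.sum_le_sum (g := fun _ => ε / m)
      fun k _ => ?_).trans_eq (by simp [hNd, mul_div_assoc]))
    split_ifs with s
    · rw [abs_zero]
      positivity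
    · have s1 : m ≤ h k := by
        rcases lt_or_gt_of_ne fun t => s (hx0 k t) with t | t
        exacts [m2.trans (j2 k (neg_pos.2 t)), m1.trans (i2 k t)]
      rw [abs_mul, abs_div, abs_of_pos hε, abs_of_pos (hh k), div_eq_mul_one_div ε]
      exact mul_le_mul_of_nonneg_left (div_le_div₀ zero_le_one (hy1 k) hm s1) hε.le
  have m6 : ∀ z ∈ K, γ * ((x i * y j - x j * y i) * ⟪z, e⟫) ≤ 2 * N * m := fun z t => by
    have t1 := mul_le_mul_of_nonneg_left (hz z t j) i1.le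
    have t2 := mul_le_mul_of_nonneg_left (hz z t i) j1.le
    have t3 := mul_le_of_le_one_left (hh j).le ((le_abs_self _).trans (hx1 i))
    have t4 := mul_le_of_le_one_left (hh i).le ((neg_le_abs _).trans (hx1 j))
    have t5 : (x i * y j - x j * y i) * ⟪z, e⟫ ≤ h i + h j := by linarith only [t1, t2, t3, t4]
    (refine le_of_not_gt fun h_nl => ?_; linarith only [h_nl, m4, i4, j4, hp, hp2, hγ, t1, t2, t3, t4, m4 i i4, m4 j j4, mul_pos_of_neg_of_neg (Mathlib.Tactic.Linarith.sub_neg_of_lt hp) (Mathlib.Tactic.Linarith.sub_neg_of_lt h_nl), mul_pos_of_neg_of_neg (Mathlib.Tactic.Linarith.sub_neg_of_lt hp2) (Mathlib.Tactic.Linarith.sub_neg_of_lt h_nl), mul_nonneg_of_nonpos_of_nonpos (le_of_lt (Mathlib.Tactic.Linarith.sub_neg_of_lt hγ)) (Mathlib.Tactic.Linarith.sub_nonpos_of_le t1), mul_nonneg_of_nonpos_of_nonpos (le_of_lt (Mathlib.Tactic.Linarith.sub_neg_of_lt hγ)) (Mathlib.Tactic.Linarith.sub_nonpos_of_le t2), mul_nonneg_of_nonpos_of_nonpos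 (le_of_lt (Mathlib.Tactic.Linarith.sub_neg_of_lt hγ)) (Mathlib.Tactic.Linarith.sub_nonpos_of_le t3), mul_nonneg_of_nonpos_of_nonpos (le_of_lt (Mathlib.Tactic.Linarith.sub_neg_of_lt hγ)) (Mathlib.Tactic.Linarith.sub_nonpos_of_le t4)])
  have m7 : γ ^ 2 * h a ≤ 4 * N * m ∧ γ ^ 2 * h b ≤ 4 * N * m := by
    have t0 := hγ3.trans (g4 (i, j) (abs_pos.2 (hD i j i1 (neg_pos.1 j1))))
    have t1 := mul_pos (zero_lt_one.trans_le hN) hm
    rcases lt_or_gt_of_ne (hD i j i1 (neg_pos.1 j1)) with t | t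
    · obtain ⟨z, z1, z2⟩ := exists_supp_eq hK.body0.1.1 (Supp_ne hK.body0.1) (u b)
      have t2 := m6 z z1
      rw [hb, inner_neg_right, ← hb] at z2
      rw [abs_of_neg t] at t0
      have t3 : γ ^ 2 * h b ≤ 2 * N * m := by
        have : ⟪z, e⟫ = -h b := by rw [← neg_eq_iff_eq_neg]; exact z2
        rw [this] at t2
        linarith only [t2, t0, hγ, hh, mul_le_mul_of_nonneg_right t0 (mul_pos hγ (hh b)).le]
      exact ⟨plane_other (hh b) (hh a) hm (by linarith only [hp, hp2, hN]) hγ hε1 t3 (by linarith only [m5, (abs_le.1 m5).1]),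
        by linarith only [t1, t3]⟩
    · obtain ⟨z, z1, z2⟩ := exists_supp_eq hK.body0.1.1 (Supp_ne hK.body0.1) e
      have t2 := m6 z z1
      rw [abs_of_pos t] at t0
      have t3 : γ ^ 2 * h a ≤ 2 * N * m := by
        have : ⟪z, e⟫ = h a := by simp only [h, ← he, z2]
        rw [this] at t2
        linarith only [t2, t0, hγ, hh, mul_le_mul_of_nonneg_right t0 (mul_pos hγ (hh a)).le]
      exact ⟨by linarith only [t1, t3], plane_other (hh a) (hh b) hm (by linarith only [hp, hp2, hN]) hγ hε1 t3 (abs_le.1 m5).2⟩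
  obtain ⟨Q, hQ, hQ'⟩ : ∃ Q : ℝ, 0 < Q ∧ γ ^ 2 * Q = 4 * N * m :=
    ⟨4 * N * m / γ ^ 2, by positivity, by field_simp⟩
  have q0 : ∀ r, γ ^ 2 * r ≤ 4 * N * m → r ≤ Q := fun r t =>
    le_of_mul_le_mul_left (t.trans_eq hQ'.symm) (by positivity)
  have q1 : ∀ k, γ * h k ≤ N * m → h k ≤ Q := fun k t => q0 _ (by
    (refine le_of_not_gt fun h_nl => ?_; linarith only [h_nl, t, hγ, hp, hN, hm, hp2, hγ1, mul_le_mul_of_nonneg_left t hγ.le, mul_pos (zero_lt_one.trans_le hN) hm, mul_pos_of_neg_of_neg (Mathlib.Tactic.Linarith.sub_neg_of_lt hp) (Mathlib.Tactic.Linarith.sub_neg_of_lt h_nl), mul_pos_of_neg_of_neg (Mathlib.Tactic.Linarith.sub_neg_of_lt hp) (Mathlib.Tactic.Linarith.sub_neg_of_lt (mul_pos (LT.lt.trans_le zero_lt_one hN) hm)), mul_pos_of_neg_of_neg (Mathlib.Tactic.Linarith.sub_neg_of_lt hp2) (Mathlib.Tactic.Linarith.sub_neg_of_lt h_nl), mul_pos_of_neg_of_neg (Mathlib.Tactic.Linarith.sub_neg_of_lt hp2) (Mathlib.Tactic.Linarith.sub_neg_of_lt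 (mul_pos (LT.lt.trans_le zero_lt_one hN) hm)), mul_nonneg_of_nonpos_of_nonpos (Mathlib.Tactic.Linarith.sub_nonpos_of_le hγ1) (le_of_lt (Mathlib.Tactic.Linarith.sub_neg_of_lt (mul_pos (LT.lt.trans_le zero_lt_one hN) hm)))]))
  have q2 := hF (3 * Q / γ) (by positivity) fun z t => by
    have t1 : |⟪z, e⟫| ≤ Q := by
      have s1 := hz z t a
      have s2 := hz z t b
      rw [xa, ya] at s1
      rw [xb, yb] at s2
      exact abs_le.2 ⟨by linarith only [s2, q0, m7, q0 _ m7.2], by linarith only [s1, q0, m7, q0 _ m7.1]⟩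
    have t2 : ∀ k, |⟪z, e⟫ * y k| ≤ Q := fun k => by
      rw [abs_mul]
      exact (mul_le_of_le_one_right (abs_nonneg _) (hy1 k)).trans t1
    have t3 : γ * |⟪z, f⟫| ≤ 2 * Q := by
      rcases le_total 0 ⟪z, f⟫ with s | s
      · rw [abs_of_nonneg s]
        (refine le_of_not_gt fun h_nl => ?_; linarith only [h_nl, hγ, hz, t, t2, q1, m4, i4, i1, xi, hQ, hz z t i, (abs_le.1 (t2 i)).1, q1 i (m4 i i4), mul_nonneg_of_nonpos_of_nonpos (le_of_lt (Mathlib.Tactic.Linarith.sub_neg_of_lt hγ)) (Mathlib.Tactic.Linarith.sub_nonpos_of_le (hz z t i)), mul_nonneg_of_nonpos_of_nonpos (le_of_lt (Mathlib.Tactic.Linarith.sub_neg_of_lt hγ)) (Mathlib.Tactic.Linarith.sub_nonpos_of_le (abs_le.mp (t2 i)).left), mul_nonneg_of_nonpos_of_nonpos (le_of_lt (Mathlib.Tactic.Linarith.sub_neg_of_lt hγ)) (Mathlib.Tactic.Linarith.sub_nonpos_of_le (q1 i (m4 i i4))), mul_pos_of_neg_of_neg (Mathlib.Tactic.Linarith.sub_neg_of_lt i1) (Mathlib.Tactic.Linarith.sub_neg_of_lt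 h_nl), mul_nonneg_of_nonpos_of_nonpos (Mathlib.Tactic.Linarith.sub_nonpos_of_le xi) (le_of_lt (Mathlib.Tactic.Linarith.sub_neg_of_lt hQ))])
      · rw [abs_of_nonpos s]
        (refine le_of_not_gt fun h_nl => ?_; linarith only [h_nl, hγ, hz, t, t2, q1, m4, j4, j1, xj, hQ, hz z t j, (abs_le.1 (t2 j)).1, q1 j (m4 j j4), mul_nonneg_of_nonpos_of_nonpos (le_of_lt (Mathlib.Tactic.Linarith.sub_neg_of_lt hγ)) (Mathlib.Tactic.Linarith.sub_nonpos_of_le (hz z t j)), mul_nonneg_of_nonpos_of_nonpos (le_of_lt (Mathlib.Tactic.Linarith.sub_neg_of_lt hγ)) (Mathlib.Tactic.Linarith.sub_nonpos_of_le (abs_le.mp (t2 j)).left), mul_nonneg_of_nonpos_of_nonpos (le_of_lt (Mathlib.Tactic.Linarith.sub_neg_of_lt hγ)) (Mathlib.Tactic.Linarith.sub_nonpos_of_le (q1 j (m4 j j4))), mul_pos_of_neg_of_neg (Mathlib.Tactic.Linarith.sub_neg_of_lt j1) (Mathlib.Tactic.Linarith.sub_neg_of_lt h_nl), mul_nonneg_of_nonpos_of_nonpos (Mathlib.Tactic.Linarith.sub_nonpos_of_le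 xj) (le_of_lt (Mathlib.Tactic.Linarith.sub_neg_of_lt hQ))])
    have t4 : ‖z‖ ≤ |⟪z, e⟫| + |⟪z, f⟫| := by
      nth_rewrite 1 [hf.decomp z]
      refine (norm_add_le _ _).trans_eq ?_
      rw [norm_smul, norm_smul, hf.1, hf.2.1, mul_one, mul_one, Real.norm_eq_abs, Real.norm_eq_abs]
    rw [mem_closedBall_zero_iff, le_div_iff₀ hγ]
    (refine le_of_not_gt fun h_nl => ?_; linarith only [h_nl, t3, hp, hp2, hγ, t1, t4, hγ1, hQ, abs_nonneg ⟪z, e⟫, mul_pos_of_neg_of_neg (Mathlib.Tactic.Linarith.sub_neg_of_lt hp) (Mathlib.Tactic.Linarith.sub_neg_of_lt h_nl), mul_pos_of_neg_of_neg (Mathlib.Tactic.Linarith.sub_neg_of_lt hp2) (Mathlib.Tactic.Linarith.sub_neg_of_lt h_nl), mul_nonneg_of_nonpos_of_nonpos (le_of_lt (Mathlib.Tactic.Linarith.sub_neg_of_lt hγ)) (Mathlib.Tactic.Linarith.sub_nonpos_of_le t1), mul_nonneg_of_nonpos_of_nonpos (le_of_lt (Mathlib.Tactic.Linarith.sub_neg_of_lt hγ)) (Mathlib.Tactic.Linarith.sub_nonpos_of_le t4), mul_nonneg_of_nonpos_of_nonpos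 (Mathlib.Tactic.Linarith.sub_nonpos_of_le hγ1) (le_of_lt (Mathlib.Tactic.Linarith.sub_neg_of_lt hQ))])
  have q3 : m * F ≤ N * ε := (mul_le_mul_of_nonneg_right m1 hF0.le).trans i4
  have q4 : γ ^ 3 * (l * (3 * Q / γ) * F) = 12 * l * N * (m * F) := by
    have : γ ^ 3 * (l * (3 * Q / γ) * F) = 3 * l * (γ ^ 2 * Q) * F := by field_simp
    rw [this, hQ']
    ring
  have q5 := mul_le_mul_of_nonneg_left q3 (show 0 ≤ 12 * l * N by positivity)
  have q6 := mul_le_mul_of_nonneg_left q2 (pow_pos hγ 3).le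
  linarith only [hε2, q4, q5, q6, hγ, pow_pos hγ 3]

/-- The planar supports all of whose measures are solvable. -/
theorem plane_iff (hp : 1 < p) (hp2 : p < 2) {u : ι → Sph 2} (hu : Function.Injective u) :
    (∀ c : ι → ℝ, (∀ i, 0 < c i) →
      ∃ K, Solves p K (∑ i, ENNReal.ofReal (c i) • Measure.dirac (u i))) ↔
    (∀ v : Eu 2, v ≠ 0 → ∃ i, 0 < ⟪v, (u i : Eu 2)⟫) ∧ {i | ∃ j, u j = -u i}.ncard ≠ 2 := by
  classical
  have hpn : p < ((2 : ℕ) : ℝ) := by exact_mod_cast hp2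
  have hne : ∀ i, u i ≠ -u i := fun i e => Solve_ne (u i) (by
    have : (u i : Eu 2) = -(u i : Eu 2) := congrArg Subtype.val e
    rwa [eq_neg_iff_add_eq_zero, ← two_smul ℝ, smul_eq_zero_iff_right two_ne_zero] at this)
  refine ⟨fun h => ⟨fun v hv => ?_, fun h2 => ?_⟩, fun ⟨h1, h2⟩ c hc => ?_⟩
  · obtain ⟨K, hK⟩ := h (fun _ => 1) fun _ => one_pos
    by_contra k
    push Not at k
    refine hK.hemisphere hp hpn hv ?_
    rw [Measure.finsetSum_apply]
    refine Finset.sum_eq_zero fun i _ => ?_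
    rw [Measure.smul_apply, Measure.dirac_apply, indicator_of_notMem, smul_zero]
    exact fun e => (k i).not_gt (by rw [real_inner_comm]; exact e)
  · obtain ⟨a, b, hab, e⟩ := ncard_eq_two.1 h2
    have h3 : ∀ i j, u j = -u i → i = a ∨ i = b := fun i j k => (e.le ⟨j, k⟩ : i ∈ ({a, b} : Set ι))
    obtain ⟨j, hj⟩ : ∃ j, u j = -u a := e.ge (Or.inl rfl)
    rcases h3 j a (by rw [hj, neg_neg]) with rfl | rfl
    · exact hne _ hj
    obtain ⟨ε, hε, k⟩ := plane_not hp hp2 hj h3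
    exact k (h _ fun i => by split_ifs; exacts [one_pos, hε])
  have hdim : ∀ L : Submodule ℝ (Eu 2), L ≠ ⊤ → Module.finrank ℝ L ≤ 1 := fun L k => by
    have := Submodule.finrank_lt k
    rw [finrank_euclideanSpace_fin] at this
    omega
  have hpar : ∀ i j, ¬ LinearIndependent ℝ ![(u i : Eu 2), u j] → u j = u i ∨ u j = -u i := by
    intro i j k
    rw [LinearIndependent.pair_iff' (Solve_ne _)] at k
    push Not at k
    obtain ⟨t, ht⟩ := k
    have := congrArg norm ht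
    rw [norm_smul, mem_sphere_zero_iff_norm.1 (u i).2, mem_sphere_zero_iff_norm.1 (u j).2, mul_one,
      Real.norm_eq_abs] at this
    rcases (abs_eq zero_le_one).1 this with rfl | rfl
    · exact Or.inl (Subtype.ext (by simpa using ht.symm))
    · exact Or.inr (Subtype.ext (by simpa using ht.symm))
  by_cases h3 : ∃ a a', u a' = -u a
  · obtain ⟨a, a', ha⟩ := h3
    obtain ⟨b, ⟨b', hb⟩, hb'⟩ : ∃ b ∈ {i | ∃ j, u j = -u i}, b ∉ ({a, a'} : Set ι) := by
      by_contra k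
      push Not at k
      refine h2 (ncard_eq_two.2 ⟨a, a', fun e => hne a (by rwa [← e] at ha), subset_antisymm k ?_⟩)
      rintro i (rfl | rfl)
      exacts [⟨a', ha⟩, ⟨a, by rw [ha, neg_neg]⟩]
    have hli : LinearIndependent ℝ ![(u a : Eu 2), u b] := by_contra fun k => hb' (by
      rcases hpar a b k with e | e
      exacts [Or.inl (hu e), Or.inr (hu (e.trans ha.symm))])
    let B := basisOfLinearIndependentOfCardEqFinrank hli (by simp)
    have hB : ∀ j, B j = ![(u a : Eu 2), u b] j := fun j => by simp [B]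
    refine G_basis hp hpn hu hc B (fun j => ?_) (fun j => ?_) (fun I a1 a2 a3 => ?_)
      fun S a1 a2 => ?_
    · fin_cases j
      exacts [⟨a, (hB 0).symm⟩, ⟨b, (hB 1).symm⟩]
    · fin_cases j
      exacts [⟨a', by rw [ha]; exact congrArg Neg.neg (hB 0).symm⟩,
        ⟨b', by rw [hb]; exact congrArg Neg.neg (hB 1).symm⟩]
    · have := hdim _ fun e => a1 (Finset.eq_univ_of_forall fun i => (a2 i).2
        (e.ge Submodule.mem_top))
      exact absurd (hp.trans a3) (not_lt.2 (by exact_mod_cast this))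
    · have := Finset.card_lt_card (Finset.ssubset_univ_iff.2 a1)
      rw [Finset.card_univ, Fintype.card_fin] at this
      exact absurd (hp.trans a2) (not_lt.2 (by exact_mod_cast Nat.lt_succ_iff.1 this))
  · refine G_pointed hp hpn hu hc h1 fun I a1 a2 => absurd ?_ h3
    obtain ⟨y, hy, hy0⟩ := Submodule.exists_mem_ne_zero_of_ne_bot a1
    obtain ⟨i, -, i1, i2⟩ := lin_pos I hy hy0
    obtain ⟨j, -, j1, j2⟩ := lin_pos I (Submodule.neg_mem _ hy) (neg_ne_zero.2 hy0)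
    have k0 : ¬ LinearIndependent ℝ ![(u i : Eu 2), u j] := fun k => a2 (by
      rw [eq_top_iff, ← k.span_eq_top_of_card_eq_finrank (by simp), Submodule.span_le]
      rintro _ ⟨l, rfl⟩
      fin_cases l
      exacts [i1, j1])
    rcases hpar i j k0 with e | e
    · rw [e, inner_neg_left] at j2
      linarith only [i2, j2]
    · exact ⟨i, j, e⟩

end Pool.Agent.Work.MP_f7e2e5_gt
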